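import Mathlib

/-! MP_87ed0a_ag: this file joins several modules to save build time. -/

section S_H80_GP_Defs

/-!
# MP_87ed0a_ag, project MP_87ed0a_GP (PI helper80): common definitions of the algebraic part

Paper proof: /team-store/H80_GEPROCI.md.  All numbers 1.4 etc. in the headers refer to it.

Conventions.  `MvPolynomial (Fin 3) O` is the ring of forms on the projected plane, `O` is (usually) a
discrete valuation ring with uniformiser `pi` and `k` its residue field, `rho : O → k` the reduction.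
-/

namespace GP80

open MvPolynomial

noncomputable section

/-- monomials of degree `t` in three variables -/
abbrev Mon (t : ℕ) : Type :=
  {m : Fin 3 →₀ ℕ // m ∈ Finset.finsuppAntidiag (Finset.univ : Finset (Fin 3)) t}

/-- `nn t = dim k[X,Y,Z]_t` -/
def nn (t : ℕ) : ℕ := (t + 2).choose 2

/-! ### Derivations on coefficients -/

/-- apply a derivation of the coefficient ring to all coefficients -/
def cder {O : Type} [CommRing O] (δ : Derivation ℤ O O) (f : MvPolynomial (Fin 3) O) :
    MvPolynomial (Fin 3) O :=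
  ∑ m ∈ f.support, monomial m (δ (coeff m f))

/-- the operator `D = ∑ X_i ∂_i` (`∂_i` acts on the coefficients) -/
def DD {O : Type} [CommRing O] (der : Fin 3 → Derivation ℤ O O) (f : MvPolynomial (Fin 3) O) :
    MvPolynomial (Fin 3) O :=
  ∑ i, X i * cder (der i) f

/-- gradient of `f` at `v` -/
def grad {O : Type} [CommRing O] (f : MvPolynomial (Fin 3) O) (v : Fin 3 → O) : Fin 3 → O :=
  fun i => eval v (pderiv i f)

/-- `J` is the Jacobian of `F, G` at the common zero `v`: `∇F × ∇G = J v` -/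
def IsJ3 {O : Type} [CommRing O] (F G : MvPolynomial (Fin 3) O) (v : Fin 3 → O) (J : O) : Prop :=
  crossProduct (grad F v) (grad G v) = J • v

/-! ### The local situation -/

/-- geometric data at a prime: `O` with uniformiser `pi`, reduction `rho`, derivations, points `v z`. -/
structure GeoS (O k I : Type) [CommRing O] [Field k] [Fintype I] (D0 : ℕ) where
  pi : O
  rho : O →+* k
  der : Fin 3 → Derivation ℤ O O
  v : I → Fin 3 → O
  prime : Prime pi
  surj : Function.Surjective rho
  ker : ∀ a, rho a = 0 ↔ pi ∣ a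
  hder : ∀ i z j, der i (v z j) = if i = j then -1 else 0
  unim : ∀ z, ∃ i, IsUnit (v z i)
  /-- the reduced points span `k^3` -/
  span : Submodule.span k (Set.range fun z => (fun i => rho (v z i))) = ⊤
  /-- the reduced points are pairwise distinct in `P^2(k)` -/
  dist : ∀ z z', z ≠ z' → LinearIndependent k ![fun i => rho (v z i), fun i => rho (v z' i)]
  hL : ∃ i, rho (der i pi) ≠ 0
  /-- a line of `P^2(k)` containing at least `D0` of the points is the line `L = 0`, `L = ∑ X_i ∂_i pi` -/
  hPl : ∀ H : Fin 3 → k, H ≠ 0 → D0 ≤ Nat.card {z : I // ∑ i, H i * rho (v z i) = 0} →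
    ∃ a : k, ∀ i, H i = a * rho (der i pi)

/-- value at the reduced point `v z` of the linear form `L = ∑ X_i ∂_i pi mod pi` -/
def GeoS.Lz {O k I : Type} [CommRing O] [Field k] [Fintype I] {D0 : ℕ} (S : GeoS O k I D0) (z : I) : k :=
  ∑ i, S.rho (S.v z i) * S.rho (S.der i S.pi)

/-- `F, G` of degrees `c, d` generate (up to powers of `pi`) the ideal of the points. -/
structure PairS {O k I : Type} [CommRing O] [Field k] [Fintype I] {D0 : ℕ} (S : GeoS O k I D0)
    (c d : ℕ) (F G : MvPolynomial (Fin 3) O) : Prop where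
  hF : F.IsHomogeneous c
  hG : G.IsHomogeneous d
  vF : ∀ z, eval (S.v z) F = 0
  vG : ∀ z, eval (S.v z) G = 0
  gen : ∀ t f, MvPolynomial.IsHomogeneous f t → (∀ z, eval (S.v z) f = 0) →
    ∃ m : ℕ, C (S.pi ^ m) * f ∈ Ideal.span {F, G}
  kos : ∀ A B, A * F + B * G = 0 → ∃ (m : ℕ) (r : MvPolynomial (Fin 3) O),
    C (S.pi ^ m) * A = r * G ∧ C (S.pi ^ m) * B = -(r * F)

/-- saturated pair: the reductions are `Γ F'`, `Γ G'` with `F', G'` coprime and `deg Γ = kk < c`. -/
structure SatS {O k I : Type} [CommRing O] [Field k] [Fintype I] {D0 : ℕ} (S : GeoS O k I D0)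
    (c d : ℕ) (F G : MvPolynomial (Fin 3) O) (Γ F' G' : MvPolynomial (Fin 3) k) (kk : ℕ) : Prop where
  pair : PairS S c d F G
  hΓ : Γ.IsHomogeneous kk
  hF' : F'.IsHomogeneous (c - kk)
  hG' : G'.IsHomogeneous (d - kk)
  nzΓ : Γ ≠ 0
  nzF : F' ≠ 0
  nzG : G' ≠ 0
  lt : kk < c
  eF : map S.rho F = Γ * F'
  eG : map S.rho G = Γ * G'
  cop : IsRelPrime F' G'

section
variable {O k I : Type} [CommRing O] [Field k] [Fintype I] {D0 : ℕ}

/-- `Rel S F G F' G' i h q` : `pi^i h = A F + B G` with `A ≡ q G'`, `B ≡ - q F'` modulo `pi`. -/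
def Rel (S : GeoS O k I D0) (F G : MvPolynomial (Fin 3) O) (F' G' : MvPolynomial (Fin 3) k)
    (i : ℕ) (h : MvPolynomial (Fin 3) O) (q : MvPolynomial (Fin 3) k) : Prop :=
  ∃ A B : MvPolynomial (Fin 3) O, C (S.pi ^ i) * h = A * F + B * G ∧
    map S.rho A = q * G' ∧ map S.rho B = -(q * F')

/-- `h` is in the saturation of `(F, G)` -/
def InI (S : GeoS O k I D0) (F G : MvPolynomial (Fin 3) O) (h : MvPolynomial (Fin 3) O) : Prop :=
  ∃ m : ℕ, C (S.pi ^ m) * h ∈ Ideal.span {F, G}

/-- the linear form `L` of `k[X]` -/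
def GeoS.LL (S : GeoS O k I D0) : MvPolynomial (Fin 3) k := ∑ i, X i * C (S.rho (S.der i S.pi))

/-- reduced point -/
def GeoS.vb (S : GeoS O k I D0) (z : I) : Fin 3 → k := fun i => S.rho (S.v z i)

end

/-- the big determinant: rows `m F` (`m` a monomial of degree `d-2`), `m G` (`deg m = c-2`), `β`,
columns: the monomials of degree `c+d-2`, identified with the rows by `e`. -/
def bigDet {O I : Type} [CommRing O] [Fintype I] [DecidableEq I] {c d : ℕ}
    (e : (Mon (d - 2) ⊕ Mon (c - 2)) ⊕ I ≃ Mon (c + d - 2))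
    (F G : MvPolynomial (Fin 3) O) (β : I → MvPolynomial (Fin 3) O) : O :=
  Matrix.det (Matrix.of fun r s : (Mon (d - 2) ⊕ Mon (c - 2)) ⊕ I =>
    coeff (e s).1
      (Sum.elim (Sum.elim (fun m => monomial m.1 (1 : O) * F) (fun m => monomial m.1 (1 : O) * G)) β r))

/-- the output of the local theory -/
structure LocOut {O k I : Type} [CommRing O] [Field k] [Fintype I] [DecidableEq I] {D0 : ℕ}
    (S : GeoS O k I D0) (c d : ℕ) (F G : MvPolynomial (Fin 3) O) (J : I → O)
    (g n : ℕ) (lam : ℕ → ℕ) : Prop where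
  nv : ∀ z, S.Lz z ≠ 0 → multiplicity S.pi (J z) = g
  gn : g ≤ n
  tail : g < n → lam (g + 1) * (c + d - lam (g + 1)) ≤ Nat.card {z : I // S.Lz z = 0}
  om : ∀ z, multiplicity S.pi (J z) ≤ n
  sum : ∑ i ∈ Finset.Icc 1 n, lam i * (c + d - lam i) ≤ ∑ z, multiplicity S.pi (J z)
  pos : ∀ i, 1 ≤ i → i ≤ n → 1 ≤ lam i
  up : ∀ i, 1 ≤ i → lam i < c
  anti : ∀ i j, 1 ≤ i → i ≤ j → lam j ≤ lam i
  Jne : ∀ z, J z ≠ 0
  det : ∀ (e : (Mon (d - 2) ⊕ Mon (c - 2)) ⊕ I ≃ Mon (c + d - 2)) (β : I → MvPolynomial (Fin 3) O),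
    (∀ i, (β i).IsHomogeneous (c + d - 2)) →
    Matrix.det (Matrix.of fun i z => eval (S.v z) (β i)) ≠ 0 →
    bigDet e F G β ≠ 0 ∧ multiplicity S.pi (bigDet e F G β) ≤
      multiplicity S.pi (Matrix.det (Matrix.of fun i z => eval (S.v z) (β i))) +
        ∑ i ∈ Finset.Icc 1 n, (lam i).choose 2

end

end GP80

end S_H80_GP_Defs

section S_H80_GP_Defs2

/-! The module `HS O t` of forms of degree `t`, its reduction map, evaluation, layers; integer version of `nn`. -/

namespace GP80

open MvPolynomial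

noncomputable section

/-- forms of degree `t` in three variables over `O` -/
def HS (O : Type) [CommRing O] (t : ℕ) : Type := ↥(homogeneousSubmodule (Fin 3) O t)

instance (O : Type) [CommRing O] (t : ℕ) : AddCommGroup (HS O t) :=
  inferInstanceAs (AddCommGroup ↥(homogeneousSubmodule (Fin 3) O t))

instance (O : Type) [CommRing O] (t : ℕ) : Module O (HS O t) :=
  inferInstanceAs (Module O ↥(homogeneousSubmodule (Fin 3) O t))

/-- the underlying polynomial -/
def HS.val {O : Type} [CommRing O] {t : ℕ} (f : HS O t) : MvPolynomial (Fin 3) O := Subtype.val f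

theorem HS.prop {O : Type} [CommRing O] {t : ℕ} (f : HS O t) : f.val.IsHomogeneous t :=
  (mem_homogeneousSubmodule t f.val).1 (Subtype.property f)

/-- constructor -/
def HS.mk {O : Type} [CommRing O] {t : ℕ} (f : MvPolynomial (Fin 3) O) (hf : f.IsHomogeneous t) : HS O t :=
  ⟨f, (mem_homogeneousSubmodule t f).2 hf⟩

@[simp] theorem HS.val_mk {O : Type} [CommRing O] {t : ℕ} (f : MvPolynomial (Fin 3) O)
    (hf : f.IsHomogeneous t) : (HS.mk f hf).val = f := rfl

@[ext] theorem HS.ext {O : Type} [CommRing O] {t : ℕ} {f g : HS O t} (h : f.val = g.val) : f = g :=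
  Subtype.ext h

@[simp] theorem HS.val_add {O : Type} [CommRing O] {t : ℕ} (f g : HS O t) :
    (f + g).val = f.val + g.val := rfl

@[simp] theorem HS.val_sub {O : Type} [CommRing O] {t : ℕ} (f g : HS O t) :
    (f - g).val = f.val - g.val := rfl

@[simp] theorem HS.val_neg {O : Type} [CommRing O] {t : ℕ} (f : HS O t) : (-f).val = -f.val := rfl

@[simp] theorem HS.val_zero {O : Type} [CommRing O] {t : ℕ} : (0 : HS O t).val = 0 := rfl

@[simp] theorem HS.val_smul {O : Type} [CommRing O] {t : ℕ} (a : O) (f : HS O t) :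
    (a • f).val = C a * f.val := by
  show a • f.val = _
  rw [MvPolynomial.smul_eq_C_mul]

/-- `val` as a linear map -/
def HS.valHom (O : Type) [CommRing O] (t : ℕ) : HS O t →ₗ[O] MvPolynomial (Fin 3) O where
  toFun := HS.val
  map_add' _ _ := rfl
  map_smul' a f := by simp [MvPolynomial.smul_eq_C_mul]

theorem HS.val_sum {O : Type} [CommRing O] {t : ℕ} {J : Type} (s : Finset J) (f : J → HS O t) :
    (∑ j ∈ s, f j).val = ∑ j ∈ s, (f j).val := map_sum (HS.valHom O t) f s

/-- reduction of forms of degree `t`, as a semilinear map -/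
def redHom {O k : Type} [CommRing O] [Field k] (rho : O →+* k) (t : ℕ) : HS O t →ₛₗ[rho] HS k t where
  toFun f := HS.mk (map rho f.val) (f.prop.map rho)
  map_add' f g := by ext1; simp
  map_smul' a f := by ext1; simp

@[simp] theorem redHom_val {O k : Type} [CommRing O] [Field k] (rho : O →+* k) (t : ℕ)
    (f : HS O t) : (redHom rho t f).val = map rho f.val := rfl

/-- `nz x = nn x` for `x ≥ 0`, and `0` for negative integers -/
def nz (x : ℤ) : ℕ := if 0 ≤ x then nn x.toNat else 0

/-- evaluation of forms of degree `t` at the points `v z` -/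
def evHom {O I : Type} [CommRing O] (v : I → Fin 3 → O) (t : ℕ) : HS O t →ₗ[O] (I → O) where
  toFun f := fun z => eval (v z) f.val
  map_add' f g := by ext z; simp
  map_smul' a f := by ext z; simp

@[simp] theorem evHom_apply {O I : Type} [CommRing O] (v : I → Fin 3 → O) (t : ℕ)
    (f : HS O t) (z : I) : evHom v t f z = eval (v z) f.val := rfl

/-- forms `f` of degree `t` with `pi^i f` in the ideal `(F, G)` -/
def JJ {O : Type} [CommRing O] (pi : O) (F G : MvPolynomial (Fin 3) O) (t i : ℕ) :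
    Submodule O (HS O t) where
  carrier := {f | C (pi ^ i) * f.val ∈ Ideal.span {F, G}}
  add_mem' {f g} hf hg := by
    simp only [Set.mem_ofPred_eq, HS.val_add, mul_add] at *
    exact Ideal.add_mem _ hf hg
  zero_mem' := by simp
  smul_mem' a f hf := by
    simp only [Set.mem_ofPred_eq, HS.val_smul] at *
    rw [← mul_assoc, mul_comm (C (pi ^ i)) (C a), mul_assoc]
    exact Ideal.mul_mem_left _ _ hf

@[simp] theorem mem_JJ {O : Type} [CommRing O] (pi : O) (F G : MvPolynomial (Fin 3) O) (t i : ℕ)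
    (f : HS O t) :
    f ∈ JJ pi F G t i ↔ C (pi ^ i) * f.val ∈ Ideal.span {F, G} := Iff.rfl

end

end GP80

end S_H80_GP_Defs2
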