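import Mathlib
import Pool.Agent.H80.M87.G01

/-! MP_87ed0a_ag: this file joins several modules to save build time. -/

section S_H80_GP_GDefs

/-!
# MP_87ed0a_ag, project MP_87ed0a_GP: common definitions of the global part

`RR = ℂ[P_0..P_3]` (coordinates of the centre of projection), `BB = ℂ[P_0..P_3, x_0..x_3]` (`inl` = `P`, `inr` = `x`).
-/

namespace GP80

open MvPolynomial

noncomputable section

/-- `ℂ[P_0, P_1, P_2, P_3]` -/
abbrev RR : Type := MvPolynomial (Fin 4) ℂ

/-- `ℂ[P_0, .., P_3, x_0, .., x_3]`; `Sum.inl i` is `P_i`, `Sum.inr i` is `x_i` -/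
abbrev BB : Type := MvPolynomial (Fin 4 ⊕ Fin 4) ℂ

/-- inclusion of `ℂ[P]` -/
def inP : RR →+* BB := (rename (Sum.inl : Fin 4 → Fin 4 ⊕ Fin 4) : RR →ₐ[ℂ] BB).toRingHom

/-- `E = ∑ P_i ∂/∂x_i` -/
def EE : Derivation ℂ BB BB := mkDerivation ℂ (Sum.elim (fun _ => (0 : BB)) (fun i => X (Sum.inl i)))

/-- `D = ∑ x_i ∂/∂P_i` -/
def DG : Derivation ℂ BB BB := mkDerivation ℂ (Sum.elim (fun i => (X (Sum.inr i) : BB)) (fun _ => 0))

/-- weights counting the degree in `P` -/
def wP : Fin 4 ⊕ Fin 4 → ℕ := Sum.elim (fun _ => 1) (fun _ => 0)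

/-- weights counting the degree in `x` -/
def wx : Fin 4 ⊕ Fin 4 → ℕ := Sum.elim (fun _ => 0) (fun _ => 1)

/-- substitution `x = z` -/
def atz (z : Fin 4 → ℂ) : BB →+* RR := eval₂Hom (C : ℂ →+* RR) (Sum.elim X (fun i => C (z i)))

/-- `∂_z = ∑ z_i ∂/∂P_i` on `ℂ[P]` -/
def dz (z : Fin 4 → ℂ) : Derivation ℂ RR RR := mkDerivation ℂ (fun i => (C (z i) : RR))

/-- for a form `f` in three variables over `ℂ[P]`: the `E`-invariant form `f(P_i x' - x_i P')`, `'` = without the `i`-th coordinate -/
def hlift (i : Fin 4) : MvPolynomial (Fin 3) RR →+* BB :=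
  eval₂Hom inP (fun j => X (Sum.inl i) * X (Sum.inr (i.succAbove j)) -
    X (Sum.inr i) * X (Sum.inl (i.succAbove j)))

/-- restriction to the plane `x_i = 0`, with coefficients in an `RR`-algebra `O` -/
def chartH (O : Type) [CommRing O] [Algebra RR O] (i : Fin 4) : BB →+* MvPolynomial (Fin 3) O :=
  eval₂Hom ((C : O →+* MvPolynomial (Fin 3) O).comp ((algebraMap RR O).comp (C : ℂ →+* RR)))
    (Sum.elim (fun j => C (algebraMap RR O (X j)))
      (fun j => Fin.insertNth (α := fun _ => MvPolynomial (Fin 3) O) i 0 (fun m => X m) j))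

/-- the point `z'/z_i - P'/P_i` of the chart `i` -/
def vz (O : Type) [CommRing O] [Algebra RR O] (i : Fin 4) (z : Fin 4 → ℂ) : Fin 3 → O :=
  fun j => algebraMap RR O (C (z (i.succAbove j) / z i)) -
    algebraMap RR O (X (i.succAbove j)) * Ring.inverse (algebraMap RR O (X i))

/-- a family of derivations `∂_j` on `O` extending `P_i ∂/∂P_{s j}`, `s = i.succAbove` -/
def IsDer (O : Type) [CommRing O] [Algebra RR O] (i : Fin 4) (der : Fin 3 → Derivation ℤ O O) : Prop :=
  ∀ (j : Fin 3) (r : RR), der j (algebraMap RR O r) = algebraMap RR O (X i * pderiv (i.succAbove j) r)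

/-- global pair: bihomogeneous, `E`-invariant, vanishing at the points, generating (over the fraction field of `ℂ[P]`)
the ideal of the projected points; `F` has no factor in `ℂ[P]` if `c < d`. -/
structure Glob {I : Type} [Fintype I] (z : I → Fin 4 → ℂ) (c d f f' : ℕ) (F G : BB) : Prop where
  c2 : 2 ≤ c
  cd : c ≤ d
  N : Fintype.card I = c * d
  Fx : IsWeightedHomogeneous wx F c
  FP : IsWeightedHomogeneous wP F f
  Gx : IsWeightedHomogeneous wx G d
  GP : IsWeightedHomogeneous wP G f'
  FE : EE F = 0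
  GE : EE G = 0
  Fz : ∀ s, atz (z s) F = 0
  Gz : ∀ s, atz (z s) G = 0
  gen : ∀ t H, IsWeightedHomogeneous wx H t → EE H = 0 → (∀ s, atz (z s) H = 0) →
    ∃ r : RR, r ≠ 0 ∧ inP r * H ∈ Ideal.span {F, G}
  prim : c < d → ∀ q : RR, Prime q → ¬ inP q ∣ F

/-- geometric conditions on the points: nonzero coordinates, pairwise independent, spanning -/
structure Geom {I : Type} (z : I → Fin 4 → ℂ) : Prop where
  co : ∀ s i, z s i ≠ 0
  ind : ∀ s s', s ≠ s' → LinearIndependent ℂ ![z s, z s']
  span : Submodule.span ℂ (Set.range z) = ⊤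

/-- at most `m` of the points lie on a line -/
def ColB {I : Type} (z : I → Fin 4 → ℂ) (m : ℕ) : Prop :=
  ∀ s s', s ≠ s' → Nat.card {t : I // z t ∈ Submodule.span ℂ {z s, z s'}} ≤ m

/-- `J` is the Jacobian at `x = z` in the chart `i`: `∇'F × ∇'G = J (P_i z' - z_i P')` -/
def IsJac (i : Fin 4) (F G : BB) (z : Fin 4 → ℂ) (J : RR) : Prop :=
  crossProduct (fun j : Fin 3 => atz z (pderiv (Sum.inr (i.succAbove j)) F))
      (fun j : Fin 3 => atz z (pderiv (Sum.inr (i.succAbove j)) G)) =
    fun j => J * (X i * C (z (i.succAbove j)) - C (z i) * X (i.succAbove j))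

/-- the local ring at `π` -/
abbrev OO (π : RR) [hp : (Ideal.span {π} : Ideal RR).IsPrime] : Type := Localization.AtPrime (Ideal.span {π} : Ideal RR)

/-! ### lines -/

/-- `P ↦ s z + t z' + ε w`, `s, t, w` variables, as a polynomial in `ε` -/
def lineH (z z' : Fin 4 → ℂ) : RR →+* Polynomial (MvPolynomial (Fin 2 ⊕ Fin 4) ℂ) :=
  eval₂Hom ((Polynomial.C).comp (C : ℂ →+* MvPolynomial (Fin 2 ⊕ Fin 4) ℂ))
    (fun i => Polynomial.C (X (Sum.inl 0) * C (z i) + X (Sum.inl 1) * C (z' i)) +
      Polynomial.X * Polynomial.C (X (Sum.inr i)))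

/-- order of vanishing of `h` along the line `z z'` -/
def ordL (z z' : Fin 4 → ℂ) (h : RR) : ℕ := (lineH z z' h).natTrailingDegree

/-- the ideal of the line `z z'` -/
def pL (z z' : Fin 4 → ℂ) : Ideal RR :=
  RingHom.ker (eval₂Hom (C : ℂ →+* MvPolynomial (Fin 2) ℂ) (fun i => X 0 * C (z i) + X 1 * C (z' i)) :
    RR →+* MvPolynomial (Fin 2) ℂ)

instance pL_prime (z z' : Fin 4 → ℂ) : (pL z z').IsPrime := by
  unfold pL; exact RingHom.ker_isPrime _

/-- the local ring of the line `z z'` -/
abbrev AL (z z' : Fin 4 → ℂ) : Type := Localization.AtPrime (pL z z')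

end

end GP80

end S_H80_GP_GDefs

section S_H80_GP_Ga1

/-!
# Row Ga1 (MP_87ed0a_GP): E-invariance as a functional equation; basic facts on `inP`, `atz`  (about 130 lines)

* `einv`: if `EE H = 0` then `H(p, y + μ p) = H(p, y)` in any commutative `ℂ`-algebra `S`.
  Proof: `q := aeval (p, y + T p) H ∈ S[T]` (`Polynomial S`).  The map `H ↦ derivative (aeval (p, y+Tp) H)` and `H ↦ aeval (p, y + T p) (EE H)` are both derivations along the ring hom `aeval ..`,
  equal on the generators (`derivative (C (y i) + X * C (p i)) = C (p i)`), so they agree (induction on `H`: `MvPolynomial.induction_on`).  So `q' = 0`; `S` is a `ℚ`-algebra, all positive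
  integers are units, so the coefficients of `q` of index `> 0` vanish; `q(μ) = q(0)`.
* `inP_injective`, `inP_prime`: `rename` with an injective map is injective; a prime of `ℂ[P]` stays prime in `ℂ[P][x]`: use `MvPolynomial.prime_C_iff` through
  `MvPolynomial.sumRingEquiv`/`sumAlgEquiv` (after `Equiv.sumComm` if necessary), or `prime_rename_iff`.
* `EE_inP = 0`; `EE_pderiv`: `EE (pderiv (inr a) H) = pderiv (inr a) (EE H)` (the bracket of the two derivations vanishes on the generators).
* `pderiv_wx`: derivative of an `x`-homogeneous polynomial of degree `t` is `x`-homogeneous of degree `t - 1` (weights 1); for the `P`-weight `pderiv (inr a)` keeps the degree.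
* `atz_wP`: `atz z H` is homogeneous of degree `m` if `H` is `wP`-homogeneous of degree `m`.
* `dz_atz`: `dz z (atz z H) = atz z (DG H)` (both sides derivations along `atz z`; generators: `P_i ↦ z_i`, `x_i ↦ 0`).
-/

namespace GP80

open MvPolynomial

theorem Ga1_EE_inl (i : Fin 4) : EE (X (Sum.inl i)) = 0 := by
  simp [EE, mkDerivation_X]

theorem Ga1_EE_inr (i : Fin 4) : EE (X (Sum.inr i)) = X (Sum.inl i) := by
  simp [EE, mkDerivation_X]

theorem Ga1_DG_inl (i : Fin 4) : DG (X (Sum.inl i)) = X (Sum.inr i) := by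
  simp [DG, mkDerivation_X]

theorem Ga1_DG_inr (i : Fin 4) : DG (X (Sum.inr i)) = 0 := by
  simp [DG, mkDerivation_X]

theorem Ga1_EE_C (a : ℂ) : EE (C a) = 0 := EE.map_algebraMap a

theorem Ga1_DG_C (a : ℂ) : DG (C a) = 0 := DG.map_algebraMap a

theorem Ga1_dz_C (z : Fin 4 → ℂ) (a : ℂ) : dz z (C a) = 0 := (dz z).map_algebraMap a

theorem Ga1_atz_C (z : Fin 4 → ℂ) (a : ℂ) : atz z (C a) = C a := by
  simp [atz]

theorem Ga1_atz_inl (z : Fin 4 → ℂ) (i : Fin 4) : atz z (X (Sum.inl i)) = X i := by
  simp [atz]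

theorem Ga1_atz_inr (z : Fin 4 → ℂ) (i : Fin 4) : atz z (X (Sum.inr i)) = C (z i) := by
  simp [atz]

theorem Ga1_deriv {S : Type} [CommRing S] [Algebra ℂ S] (H : BB) (p y : Fin 4 → S) :
    Polynomial.derivative (aeval (Sum.elim (fun i => Polynomial.C (p i))
      (fun i => Polynomial.C (y i) + Polynomial.X * Polynomial.C (p i))) H) =
    aeval (Sum.elim (fun i => Polynomial.C (p i))
      (fun i => Polynomial.C (y i) + Polynomial.X * Polynomial.C (p i))) (EE H) := by
  induction H using MvPolynomial.induction_on with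
  | C a =>
    rw [Ga1_EE_C, map_zero, algHom_C, Polynomial.algebraMap_apply, Polynomial.derivative_C]
  | add f g hf hg => rw [map_add, map_add, map_add, map_add, hf, hg]
  | mul_X f i hf =>
    rw [map_mul, Polynomial.derivative_mul, hf, Derivation.leibniz, map_add, smul_eq_mul,
      smul_eq_mul, map_mul, map_mul, aeval_X]
    rcases i with i | i
    · rw [Ga1_EE_inl]
      simp
      ring
    · rw [Ga1_EE_inr]
      simp
      ring

theorem Ga1_eval {S : Type} [CommRing S] [Algebra ℂ S] (H : BB) (p y : Fin 4 → S) (μ : S) :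
    Polynomial.eval μ (aeval (Sum.elim (fun i => Polynomial.C (p i))
      (fun i => Polynomial.C (y i) + Polynomial.X * Polynomial.C (p i))) H) =
    aeval (Sum.elim p (fun i => y i + μ * p i)) H := by
  induction H using MvPolynomial.induction_on with
  | C a =>
    rw [algHom_C, algHom_C, Polynomial.algebraMap_apply, Polynomial.eval_C]
  | add f g hf hg => rw [map_add, map_add, Polynomial.eval_add, hf, hg]
  | mul_X f i hf =>
    rw [map_mul, map_mul, Polynomial.eval_mul, hf, aeval_X, aeval_X]
    rcases i with i | i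
    · simp
    · simp only [Sum.elim_inr, Polynomial.eval_add, Polynomial.eval_C, Polynomial.eval_mul,
        Polynomial.eval_X]

theorem Ga1_const {S : Type} [CommRing S] [Algebra ℂ S] {q : Polynomial S}
    (h : Polynomial.derivative q = 0) : q = Polynomial.C (q.coeff 0) := by
  ext n
  rcases n with _ | n
  · simp
  · have h1 : (Polynomial.derivative q).coeff n = 0 := by rw [h]; simp
    rw [Polynomial.coeff_derivative] at h1
    have hu : IsUnit ((n : S) + 1) := by
      have h2 : IsUnit ((n : ℂ) + 1) := by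
        apply isUnit_iff_ne_zero.2
        exact_mod_cast Nat.succ_ne_zero n
      have h3 := h2.map (algebraMap ℂ S)
      simpa using h3
    rw [Polynomial.coeff_C_succ]
    exact hu.mul_left_eq_zero.1 h1

theorem einv {S : Type} [CommRing S] [Algebra ℂ S] {H : BB} (hE : EE H = 0) (p y : Fin 4 → S) (μ : S) :
    aeval (Sum.elim p (fun i => y i + μ * p i)) H = aeval (Sum.elim p y) H := by
  have h1 := Ga1_deriv H p y
  rw [hE, map_zero] at h1
  have h2 := Ga1_const h1
  have h3 := Ga1_eval H p y μ
  have h4 := Ga1_eval H p y 0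
  rw [h2, Polynomial.eval_C] at h3 h4
  rw [← h3, h4]
  congr 2
  funext i
  simp

theorem inP_injective : Function.Injective inP := by
  intro a b h
  exact rename_injective _ Sum.inl_injective h

theorem inP_prime {q : RR} (hq : Prime q) : Prime (inP q) := by
  have h1 : Prime (C q : MvPolynomial (Fin 4) RR) := (prime_C_iff _).2 hq
  let e : MvPolynomial (Fin 4) RR ≃+* BB :=
    (sumRingEquiv ℂ (Fin 4) (Fin 4)).symm.trans
      ((renameEquiv ℂ (Equiv.sumComm (Fin 4) (Fin 4))).toRingEquiv)
  have h2 : (e.toRingHom.comp (C : RR →+* MvPolynomial (Fin 4) RR)) = inP := by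
    apply MvPolynomial.ringHom_ext
    · intro a
      have h3 : inP (C a) = C a := by simp [inP]
      rw [h3]
      change rename _ ((sumRingEquiv ℂ (Fin 4) (Fin 4)).symm (C (C a))) = C a
      rw [sumRingEquiv_symm_C_C, rename_C]
    · intro i
      have h3 : inP (X i) = X (Sum.inl i) := by simp [inP]
      rw [h3]
      change rename _ ((sumRingEquiv ℂ (Fin 4) (Fin 4)).symm (C (X i))) = X (Sum.inl i)
      rw [sumRingEquiv_symm_C_X, rename_X]
      rfl
  have h3 : inP q = e (C q) := by rw [← h2]; rfl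
  rw [h3]
  exact (MulEquiv.prime_iff e).2 h1

theorem EE_inP (r : RR) : EE (inP r) = 0 := by
  induction r using MvPolynomial.induction_on with
  | C a =>
    have : inP (C a) = C a := by simp [inP]
    rw [this, Ga1_EE_C]
  | add f g hf hg => rw [map_add, map_add, hf, hg, add_zero]
  | mul_X f i hf =>
    have : inP (X i) = X (Sum.inl i) := by simp [inP]
    rw [map_mul, Derivation.leibniz, hf, this, Ga1_EE_inl, smul_zero, smul_zero, add_zero]

theorem atz_inP (z : Fin 4 → ℂ) (r : RR) : atz z (inP r) = r := by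
  induction r using MvPolynomial.induction_on with
  | C a =>
    have : inP (C a) = C a := by simp [inP]
    rw [this, Ga1_atz_C]
  | add f g hf hg => rw [map_add, map_add, hf, hg]
  | mul_X f i hf =>
    have : inP (X i) = X (Sum.inl i) := by simp [inP]
    rw [map_mul, map_mul, hf, this, Ga1_atz_inl]

theorem EE_pderiv (a : Fin 4) (H : BB) : EE (pderiv (Sum.inr a) H) = pderiv (Sum.inr a) (EE H) := by
  induction H using MvPolynomial.induction_on with
  | C c => rw [pderiv_C, Ga1_EE_C, map_zero, map_zero]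
  | add f g hf hg => rw [map_add, map_add, map_add, map_add, hf, hg]
  | mul_X f i hf =>
    rw [Derivation.leibniz, map_add, Derivation.leibniz, map_add, smul_eq_mul, smul_eq_mul,
      smul_eq_mul, smul_eq_mul, Derivation.leibniz, Derivation.leibniz, Derivation.leibniz,
      Derivation.leibniz, hf]
    have h1 : EE (pderiv (Sum.inr a) (X i : BB)) = 0 := by
      rw [pderiv_X]
      by_cases h : i = Sum.inr a
      · subst h
        simp
      · rw [Pi.single_eq_of_ne (Ne.symm (by exact fun hh => h hh.symm))]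
        simp
    have h2 : pderiv (Sum.inr a) (EE (X i : BB)) = 0 := by
      rcases i with i | i
      · rw [Ga1_EE_inl, map_zero]
      · rw [Ga1_EE_inr, pderiv_X_of_ne (by simp)]
    rw [h1, h2]
    simp only [smul_eq_mul]
    ring

theorem pderiv_wx {H : BB} {t : ℕ} (h : IsWeightedHomogeneous wx H t) (a : Fin 4) :
    IsWeightedHomogeneous wx (pderiv (Sum.inr a) H) (t - 1) := by
  rcases Nat.eq_zero_or_pos t with ht | ht
  · subst ht
    have h0 : pderiv (Sum.inr a) H = 0 := by
      apply pderiv_eq_zero_of_notMem_vars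
      intro hv
      rw [mem_vars_iff_mem_support] at hv
      obtain ⟨d, hd, ha⟩ := hv
      have h1 := h (mem_support_iff.1 hd)
      have h2 := Finsupp.le_weight wx (s := Sum.inr a) (by simp [wx]) d
      rw [h1] at h2
      exact (Finsupp.mem_support_iff.1 ha) (by omega)
    rw [h0]
    exact isWeightedHomogeneous_zero _ _ _
  · exact IsWeightedHomogeneous.pderiv h (by simp [wx]; omega)

theorem pderiv_wP {H : BB} {t : ℕ} (h : IsWeightedHomogeneous wP H t) (a : Fin 4) :
    IsWeightedHomogeneous wP (pderiv (Sum.inr a) H) t :=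
  IsWeightedHomogeneous.pderiv h (by simp [wP])

theorem Ga1_hom {σ τ : Type} (w : σ → ℕ) (v : τ → ℕ) (φ : MvPolynomial σ ℂ →+* MvPolynomial τ ℂ)
    (hC : ∀ a, IsWeightedHomogeneous v (φ (C a)) 0)
    (hX : ∀ i, IsWeightedHomogeneous v (φ (X i)) (w i)) {H : MvPolynomial σ ℂ} {m : ℕ}
    (h : IsWeightedHomogeneous w H m) : IsWeightedHomogeneous v (φ H) m := by
  rw [H.as_sum, map_sum]
  apply IsWeightedHomogeneous.sum
  intro d hd
  have h1 := h (mem_support_iff.1 hd)
  rw [monomial_eq, map_mul, Finsupp.prod, map_prod, ← h1, ← zero_add (Finsupp.weight w d)]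
  apply (hC _).mul
  rw [Finsupp.weight_apply, Finsupp.sum]
  apply IsWeightedHomogeneous.prod
  intro i _
  rw [map_pow]
  exact (hX i).pow _

theorem atz_wP {H : BB} {m : ℕ} (h : IsWeightedHomogeneous wP H m) (z : Fin 4 → ℂ) :
    (atz z H).IsHomogeneous m := by
  refine Ga1_hom wP 1 (atz z) (fun a => ?_) (fun i => ?_) h
  · rw [Ga1_atz_C]; exact isWeightedHomogeneous_C _ _
  · rcases i with i | i
    · rw [Ga1_atz_inl]; exact isWeightedHomogeneous_X _ _ _
    · rw [Ga1_atz_inr]; exact isWeightedHomogeneous_C _ _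

theorem dz_atz (z : Fin 4 → ℂ) (H : BB) : dz z (atz z H) = atz z (DG H) := by
  induction H using MvPolynomial.induction_on with
  | C a =>
    rw [Ga1_atz_C, Ga1_DG_C, map_zero, Ga1_dz_C]
  | add f g hf hg => rw [map_add, map_add, map_add, map_add, hf, hg]
  | mul_X f i hf =>
    rw [map_mul, Derivation.leibniz, Derivation.leibniz, map_add, smul_eq_mul, smul_eq_mul,
      smul_eq_mul, smul_eq_mul, map_mul, map_mul, hf]
    congr 2
    rcases i with i | i
    · rw [Ga1_atz_inl, Ga1_DG_inl, Ga1_atz_inr]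
      simp [dz, mkDerivation_X]
    · rw [Ga1_atz_inr, Ga1_DG_inr, map_zero, Ga1_dz_C]

theorem inP_wP {r : RR} {m : ℕ} (h : r.IsHomogeneous m) : IsWeightedHomogeneous wP (inP r) m := by
  refine Ga1_hom 1 wP inP (fun a => ?_) (fun i => ?_) h
  · have : inP (C a) = C a := by simp [inP]
    rw [this]; exact isWeightedHomogeneous_C _ _
  · have : inP (X i) = X (Sum.inl i) := by simp [inP]
    rw [this]; exact isWeightedHomogeneous_X _ _ _

theorem inP_wx (r : RR) : IsWeightedHomogeneous wx (inP r) 0 := by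
  induction r using MvPolynomial.induction_on with
  | C a =>
    have : inP (C a) = C a := by simp [inP]
    rw [this]
    exact isWeightedHomogeneous_C _ _
  | add f g hf hg => rw [map_add]; exact hf.add hg
  | mul_X f i hf =>
    have : inP (X i) = X (Sum.inl i) := by simp [inP]
    rw [map_mul, this]
    have h2 : IsWeightedHomogeneous wx (X (Sum.inl i) : BB) 0 := isWeightedHomogeneous_X _ _ _
    simpa using hf.mul h2

/-- Euler for the degree in `x`, evaluated at `x = z` -/
theorem atz_euler {H : BB} {t : ℕ} (h : IsWeightedHomogeneous wx H t) (z : Fin 4 → ℂ) :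
    ∑ a, C (z a) * atz z (pderiv (Sum.inr a) H) = (t : RR) * atz z H := by
  have h1 := h.sum_weight_X_mul_pderiv
  have h2 := congrArg (atz z) h1
  rw [Fintype.sum_sum_type] at h2
  simp only [wx, Sum.elim_inl, Sum.elim_inr, zero_smul, Finset.sum_const_zero, zero_add, one_smul,
    map_sum, map_mul, Ga1_atz_inr, nsmul_eq_mul, map_natCast] at h2
  exact h2

theorem Ga1_EE_eq (H : BB) : EE H = ∑ a, X (Sum.inl a) * pderiv (Sum.inr a) H := by
  induction H using MvPolynomial.induction_on with
  | C c => simp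
  | add f g hf hg => simp only [map_add, hf, hg, mul_add, Finset.sum_add_distrib]
  | mul_X f i hf =>
    rw [Derivation.leibniz, hf, smul_eq_mul, smul_eq_mul]
    simp only [Derivation.leibniz, smul_eq_mul, mul_add, Finset.sum_add_distrib]
    congr 1
    · rcases i with i | i
      · rw [Ga1_EE_inl, mul_zero, Finset.sum_eq_zero]
        intro a _
        rw [pderiv_X_of_ne (by simp)]
        simp
      · rw [Ga1_EE_inr, Finset.sum_eq_single i]
        · rw [pderiv_X_self]; ring
        · intro b _ hb
          rw [pderiv_X_of_ne (by simpa using hb.symm)]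
          simp
        · simp
    · rw [Finset.mul_sum]
      exact Finset.sum_congr rfl (fun a _ => by ring)

/-- `EE H = 0` evaluated at `x = z` -/
theorem atz_EE {H : BB} (h : EE H = 0) (z : Fin 4 → ℂ) :
    ∑ a, (X a : RR) * atz z (pderiv (Sum.inr a) H) = 0 := by
  rw [Ga1_EE_eq] at h
  have h2 := congrArg (atz z) h
  simpa only [map_sum, map_mul, Ga1_atz_inl, map_zero] using h2

end GP80

end S_H80_GP_Ga1

section S_H80_GP_Ga2

/-!
# Row Ga2 (MP_87ed0a_GP): charts  (about 200 lines)

`s = i.succAbove`.  `chartH O i` substitutes `x_i = 0`, `x_(s j) = X_j`, and maps the coefficients to `O`.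
* `chart_map`: `chartH O i H = map (algebraMap RR O) (chartH RR i H)` (ring homs agreeing on generators, `MvPolynomial.ringHom_ext`).
* `chart_inP`: `chartH O i (inP r) = C (algebraMap RR O r)`.
* `chart_pderiv`: `pderiv j (chartH O i H) = chartH O i (pderiv (inr (s j)) H)` (both are derivations along `chartH`; generators).
* `chart_homog`: `x`-homogeneous of degree `t` goes to homogeneous of degree `t`.
* `chart_coeff_wP`: if `H` is `wP`-homogeneous of degree `m`, all coefficients of `chartH RR i H` are homogeneous of degree `m`.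
* `hlift_*`: `hlift i f = f(P_i x' - x_i P')`: it is `E`-invariant, `x`-homogeneous of degree `t` for `f` homogeneous of degree `t`, `wP`-homogeneous of degree `m + t` if moreover
  all coefficients of `f` are homogeneous of degree `m`; `atz z (hlift i f) = f(P_i z' - z_i P')`; `chartH O i (hlift i f) = P_i^t f` for `f` homogeneous of degree `t`.
* `hlift_chart`: for `H` `E`-invariant and `x`-homogeneous of degree `t`, `hlift i (chartH RR i H) = P_i^t H`: the left side is
  `H(P, P_i x - x_i P)` (the `i`-th coordinate of `P_i x - x_i P` is `0`), by `einv` (with `y = P_i x`, `μ = - x_i`) it is `H(P, P_i x) = P_i^t H`.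
* `chart_eval`: for `H` `E`-invariant, `x`-homogeneous of degree `t`, `z_i ≠ 0`, `P_i` a unit of `O`: in `O`, `z = z_i (0, v) + (z_i / P_i) P` where `v = vz O i z`
  (coordinates: `s j`: `z_i (z_(s j)/z_i - P_(s j)/P_i) + (z_i/P_i) P_(s j) = z_(s j)`), so `H(P, z) = H(P, z_i (0,v)) = z_i^t H(P, (0, v))`.
-/

namespace GP80

open MvPolynomial

theorem Ga2_weight {σ R : Type} [CommSemiring R] {w : σ → ℕ} {φ : MvPolynomial σ R} {m : ℕ}
    (h : IsWeightedHomogeneous w φ m) {d : σ →₀ ℕ} (hd : d ∈ φ.support) :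
    ∑ i ∈ d.support, d i * w i = m := by
  have := h (mem_support_iff.1 hd)
  rw [Finsupp.weight_apply] at this
  simpa [Finsupp.sum, smul_eq_mul] using this

theorem Ga2_eval₂_wh {σ τ R S : Type} [CommSemiring R] [CommSemiring S] {w : σ → ℕ} {w' : τ → ℕ}
    {φ : MvPolynomial σ R} {m : ℕ} (h : IsWeightedHomogeneous w φ m) (f : R →+* MvPolynomial τ S)
    (g : σ → MvPolynomial τ S) (hf : ∀ r, IsWeightedHomogeneous w' (f r) 0)
    (hg : ∀ i, IsWeightedHomogeneous w' (g i) (w i)) :
    IsWeightedHomogeneous w' (eval₂ f g φ) m := by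
  rw [eval₂_eq]
  refine IsWeightedHomogeneous.sum _ _ _ fun d hd => ?_
  have h1 : IsWeightedHomogeneous w' (∏ i ∈ d.support, g i ^ d i)
      (∑ i ∈ d.support, d i • w i) :=
    IsWeightedHomogeneous.prod _ _ _ fun i _ => (hg i).pow (d i)
  have h2 := (hf (coeff d φ)).mul h1
  have h3 := Ga2_weight h hd
  simp only [smul_eq_mul, zero_add] at h2
  rw [h3] at h2
  exact h2

theorem Ga2_scale {σ R S : Type} [CommSemiring R] [CommSemiring S] {w : σ → ℕ}
    {φ : MvPolynomial σ R} {m : ℕ} (h : IsWeightedHomogeneous w φ m) (f : R →+* S)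
    (g g' : σ → S) (c : S) (hg : ∀ i, g' i = c ^ w i * g i) :
    eval₂ f g' φ = c ^ m * eval₂ f g φ := by
  rw [eval₂_eq, eval₂_eq, Finset.mul_sum]
  refine Finset.sum_congr rfl fun d hd => ?_
  have h3 := Ga2_weight h hd
  have h4 : ∏ i ∈ d.support, g' i ^ d i = c ^ m * ∏ i ∈ d.support, g i ^ d i := by
    rw [← h3, ← Finset.prod_pow_eq_pow_sum, ← Finset.prod_mul_distrib]
    refine Finset.prod_congr rfl fun i _ => ?_
    rw [hg i, mul_pow, ← pow_mul, mul_comm (w i) (d i)]
  rw [h4]
  ring

theorem Ga2_eval₂_map {σ R S : Type} [CommSemiring R] [CommSemiring S] (f : R →+* S)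
    (p : MvPolynomial σ R) :
    eval₂ ((C : S →+* MvPolynomial σ S).comp f) (fun j => X j) p = map f p := by
  induction p using MvPolynomial.induction_on with
  | C a => simp
  | add p q hp hq => rw [eval₂_add, map_add, hp, hq]
  | mul_X p n hp => rw [eval₂_mul, map_mul, hp, eval₂_X, map_X]

theorem Ga2_chart_C (O : Type) [CommRing O] [Algebra RR O] (i : Fin 4) (a : ℂ) :
    chartH O i (C a) = C (algebraMap RR O (C a)) := by
  simp [chartH]

theorem Ga2_chart_inl (O : Type) [CommRing O] [Algebra RR O] (i j : Fin 4) :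
    chartH O i (X (Sum.inl j)) = C (algebraMap RR O (X j)) := by
  simp [chartH]

theorem Ga2_chart_inr_self (O : Type) [CommRing O] [Algebra RR O] (i : Fin 4) :
    chartH O i (X (Sum.inr i)) = 0 := by
  simp [chartH]

theorem Ga2_chart_inr (O : Type) [CommRing O] [Algebra RR O] (i : Fin 4) (j : Fin 3) :
    chartH O i (X (Sum.inr (i.succAbove j))) = X j := by
  simp [chartH]

theorem Ga2_inP_C (a : ℂ) : inP (C a) = C a := by
  simp [inP]

theorem Ga2_inP_X (j : Fin 4) : inP (X j) = X (Sum.inl j) := by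
  simp [inP]

theorem Ga2_hlift_C (i : Fin 4) (r : RR) : hlift i (C r) = inP r := by
  simp [hlift]

theorem Ga2_hlift_X (i : Fin 4) (j : Fin 3) : hlift i (X j) =
    X (Sum.inl i) * X (Sum.inr (i.succAbove j)) - X (Sum.inr i) * X (Sum.inl (i.succAbove j)) := by
  simp [hlift]

theorem chart_map (O : Type) [CommRing O] [Algebra RR O] (i : Fin 4) (H : BB) :
    chartH O i H = map (algebraMap RR O) (chartH RR i H) := by
  have h : chartH O i = (map (algebraMap RR O)).comp (chartH RR i) := by
    apply MvPolynomial.ringHom_ext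
    · intro a
      rw [RingHom.comp_apply, Ga2_chart_C, Ga2_chart_C, map_C]
      rfl
    · rintro (j | j)
      · rw [RingHom.comp_apply, Ga2_chart_inl, Ga2_chart_inl, map_C]
        rfl
      · refine (Fin.forall_iff_succAbove (P := fun j => chartH O i (X (Sum.inr j)) =
          ((map (algebraMap RR O)).comp (chartH RR i)) (X (Sum.inr j))) i).2 ⟨?_, fun m => ?_⟩ j
        · rw [RingHom.comp_apply, Ga2_chart_inr_self, Ga2_chart_inr_self, map_zero]
        · rw [RingHom.comp_apply, Ga2_chart_inr, Ga2_chart_inr, map_X]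
  rw [h]
  rfl

theorem chart_inP (O : Type) [CommRing O] [Algebra RR O] (i : Fin 4) (r : RR) :
    chartH O i (inP r) = C (algebraMap RR O r) := by
  have h : (chartH O i).comp inP = (C : O →+* MvPolynomial (Fin 3) O).comp (algebraMap RR O) := by
    apply MvPolynomial.ringHom_ext
    · intro a
      rw [RingHom.comp_apply, Ga2_inP_C, Ga2_chart_C]
      rfl
    · intro j
      rw [RingHom.comp_apply, Ga2_inP_X, Ga2_chart_inl]
      rfl
  exact congrArg (fun g : RR →+* MvPolynomial (Fin 3) O => g r) h

theorem chart_pderiv (O : Type) [CommRing O] [Algebra RR O] (i : Fin 4) (j : Fin 3) (H : BB) :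
    pderiv j (chartH O i H) = chartH O i (pderiv (Sum.inr (i.succAbove j)) H) := by
  induction H using MvPolynomial.induction_on with
  | C a => rw [Ga2_chart_C, pderiv_C, pderiv_C, map_zero]
  | add p q hp hq => rw [map_add, map_add, map_add, map_add, hp, hq]
  | mul_X p n hp =>
    rw [map_mul, Derivation.leibniz, Derivation.leibniz, hp, map_add, smul_eq_mul, smul_eq_mul,
      smul_eq_mul, smul_eq_mul, map_mul, map_mul]
    congr 1
    congr 1
    rcases n with n | n
    · rw [Ga2_chart_inl, pderiv_C, pderiv_X_of_ne (by simp), map_zero]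
    · refine (Fin.forall_iff_succAbove (P := fun n => pderiv j (chartH O i (X (Sum.inr n))) =
          chartH O i (pderiv (Sum.inr (i.succAbove j)) (X (Sum.inr n)))) i).2 ⟨?_, fun m => ?_⟩ n
      · have hne : (Sum.inr i : Fin 4 ⊕ Fin 4) ≠ Sum.inr (i.succAbove j) := by
          intro h
          exact Fin.succAbove_ne i j (Sum.inr_injective h).symm
        rw [Ga2_chart_inr_self, map_zero, pderiv_X_of_ne hne, map_zero]
      · rw [Ga2_chart_inr]
        by_cases hm : m = j
        · subst hm
          rw [pderiv_X_self, pderiv_X_self, map_one]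
        · have hne : (Sum.inr (i.succAbove m) : Fin 4 ⊕ Fin 4) ≠ Sum.inr (i.succAbove j) := by
            intro h
            exact hm (Fin.succAbove_right_injective (Sum.inr_injective h))
          rw [pderiv_X_of_ne hm, pderiv_X_of_ne hne, map_zero]

theorem chart_homog (O : Type) [CommRing O] [Algebra RR O] (i : Fin 4) {H : BB} {t : ℕ}
    (h : IsWeightedHomogeneous wx H t) : (chartH O i H).IsHomogeneous t := by
  refine Ga2_eval₂_wh h _ _ (fun r => ?_) ?_
  · exact isWeightedHomogeneous_C _ _
  · rintro (j | j)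
    · exact isWeightedHomogeneous_C _ _
    · refine (Fin.forall_iff_succAbove (P := fun j => IsWeightedHomogeneous 1
        (Sum.elim (fun j => C (algebraMap RR O (X j)))
          (fun j => Fin.insertNth (α := fun _ => MvPolynomial (Fin 3) O) i 0 (fun m => X m) j)
          (Sum.inr j : Fin 4 ⊕ Fin 4)) (wx (Sum.inr j))) i).2 ⟨?_, fun m => ?_⟩ j
      · simp only [Sum.elim_inr, Fin.insertNth_apply_same]
        exact isWeightedHomogeneous_zero _ _ _
      · simp only [Sum.elim_inr, Fin.insertNth_apply_succAbove]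
        exact isWeightedHomogeneous_X _ _ _

/-- all coefficients homogeneous of degree `n` -/
def Ga2_CH (φ : MvPolynomial (Fin 3) RR) (n : ℕ) : Prop := ∀ e, (coeff e φ).IsHomogeneous n

theorem Ga2_CH_C {r : RR} {n : ℕ} (h : r.IsHomogeneous n) : Ga2_CH (C r) n := by
  intro e
  rw [coeff_C]
  split_ifs
  · exact h
  · exact isHomogeneous_zero _ _ _

theorem Ga2_CH_zero (n : ℕ) : Ga2_CH 0 n := by
  intro e
  rw [coeff_zero]
  exact isHomogeneous_zero _ _ _

theorem Ga2_CH_X (j : Fin 3) : Ga2_CH (X j) 0 := by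
  intro e
  rw [coeff_X]
  split_ifs
  · exact isHomogeneous_one _ _
  · exact isHomogeneous_zero _ _ _

theorem Ga2_CH_mul {φ ψ : MvPolynomial (Fin 3) RR} {n m : ℕ} (h : Ga2_CH φ n) (h' : Ga2_CH ψ m) :
    Ga2_CH (φ * ψ) (n + m) := by
  intro e
  rw [coeff_mul]
  exact IsHomogeneous.sum _ _ _ fun x _ => (h x.1).mul (h' x.2)

theorem Ga2_CH_pow {φ : MvPolynomial (Fin 3) RR} {n : ℕ} (h : Ga2_CH φ n) (k : ℕ) :
    Ga2_CH (φ ^ k) (k * n) := by
  induction k with
  | zero =>
    rw [pow_zero, zero_mul, ← C_1]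
    exact Ga2_CH_C (isHomogeneous_one _ _)
  | succ k ih =>
    rw [pow_succ, Nat.succ_mul]
    exact Ga2_CH_mul ih h

theorem Ga2_CH_prod {ι : Type} (s : Finset ι) (φ : ι → MvPolynomial (Fin 3) RR) (n : ι → ℕ)
    (h : ∀ i ∈ s, Ga2_CH (φ i) (n i)) : Ga2_CH (∏ i ∈ s, φ i) (∑ i ∈ s, n i) := by
  classical
  induction s using Finset.induction_on with
  | empty =>
    rw [Finset.prod_empty, Finset.sum_empty, ← C_1]
    exact Ga2_CH_C (isHomogeneous_one _ _)
  | insert a s ha ih =>
    rw [Finset.prod_insert ha, Finset.sum_insert ha]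
    exact Ga2_CH_mul (h a (Finset.mem_insert_self _ _))
      (ih fun i hi => h i (Finset.mem_insert_of_mem hi))

theorem Ga2_CH_sum {ι : Type} (s : Finset ι) (φ : ι → MvPolynomial (Fin 3) RR) (n : ℕ)
    (h : ∀ i ∈ s, Ga2_CH (φ i) n) : Ga2_CH (∑ i ∈ s, φ i) n := by
  intro e
  rw [coeff_sum]
  exact IsHomogeneous.sum _ _ _ fun x hx => h x hx e

theorem chart_coeff_wP (i : Fin 4) {H : BB} {m : ℕ} (h : IsWeightedHomogeneous wP H m)
    (e : Fin 3 →₀ ℕ) : (coeff e (chartH RR i H)).IsHomogeneous m := by
  have key : Ga2_CH (chartH RR i H) m := by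
    rw [chartH, coe_eval₂Hom, eval₂_eq]
    refine Ga2_CH_sum _ _ _ fun d hd => ?_
    have h1 : Ga2_CH ((((C : RR →+* MvPolynomial (Fin 3) RR).comp
        ((algebraMap RR RR).comp (C : ℂ →+* RR)))) (coeff d H)) 0 :=
      Ga2_CH_C (isHomogeneous_C _ _)
    have h2 := Ga2_CH_prod d.support (fun k => (Sum.elim (fun j => C (algebraMap RR RR (X j)))
        (fun j => Fin.insertNth (α := fun _ => MvPolynomial (Fin 3) RR) i 0 (fun m => X m) j) k) ^ d k)
        (fun k => d k * wP k) (fun k _ => by
          refine Ga2_CH_pow ?_ _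
          rcases k with j | j
          · exact Ga2_CH_C (isHomogeneous_X _ _)
          · refine (Fin.forall_iff_succAbove (P := fun j => Ga2_CH
              (Sum.elim (fun j => C (algebraMap RR RR (X j)))
                (fun j => Fin.insertNth (α := fun _ => MvPolynomial (Fin 3) RR) i 0
                  (fun m => X m) j) (Sum.inr j : Fin 4 ⊕ Fin 4)) (wP (Sum.inr j))) i).2
                ⟨?_, fun m => ?_⟩ j
            · simp only [Sum.elim_inr, Fin.insertNth_apply_same]
              exact Ga2_CH_zero _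
            · simp only [Sum.elim_inr, Fin.insertNth_apply_succAbove]
              exact Ga2_CH_X _)
    have h3 := Ga2_CH_mul h1 h2
    rw [Ga2_weight h hd, zero_add] at h3
    exact h3
  exact key e

theorem hlift_EE (i : Fin 4) (f : MvPolynomial (Fin 3) RR) : EE (hlift i f) = 0 := by
  induction f using MvPolynomial.induction_on with
  | C a => rw [Ga2_hlift_C, EE_inP]
  | add p q hp hq => rw [map_add, map_add, hp, hq, add_zero]
  | mul_X p n hp =>
    have h : EE (hlift i (X n)) = 0 := by
      rw [Ga2_hlift_X, map_sub, Derivation.leibniz, Derivation.leibniz]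
      simp only [EE, mkDerivation_X, Sum.elim_inl, Sum.elim_inr, smul_eq_mul, mul_zero]
      ring
    rw [map_mul, Derivation.leibniz, hp, h, smul_zero, smul_zero, add_zero]

theorem hlift_wx (i : Fin 4) {f : MvPolynomial (Fin 3) RR} {t : ℕ} (hf : f.IsHomogeneous t) :
    IsWeightedHomogeneous wx (hlift i f) t := by
  refine Ga2_eval₂_wh (w := 1) hf _ _ (fun r => inP_wx r) fun j => ?_
  have e1 : IsWeightedHomogeneous wx (X (Sum.inl i) * X (Sum.inr (i.succAbove j)) : BB) (0 + 1) :=
    (isWeightedHomogeneous_X ℂ wx (Sum.inl i)).mul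
      (isWeightedHomogeneous_X ℂ wx (Sum.inr (i.succAbove j)))
  have e2 : IsWeightedHomogeneous wx (X (Sum.inr i) * X (Sum.inl (i.succAbove j)) : BB) (1 + 0) :=
    (isWeightedHomogeneous_X ℂ wx (Sum.inr i)).mul
      (isWeightedHomogeneous_X ℂ wx (Sum.inl (i.succAbove j)))
  rw [zero_add] at e1
  rw [add_zero] at e2
  exact Submodule.sub_mem (weightedHomogeneousSubmodule ℂ wx 1) e1 e2

theorem hlift_wP (i : Fin 4) {f : MvPolynomial (Fin 3) RR} {t m : ℕ} (hf : f.IsHomogeneous t)
    (hm : ∀ e, (coeff e f).IsHomogeneous m) : IsWeightedHomogeneous wP (hlift i f) (m + t) := by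
  have hg : ∀ j : Fin 3, IsWeightedHomogeneous wP (X (Sum.inl i) * X (Sum.inr (i.succAbove j)) -
      X (Sum.inr i) * X (Sum.inl (i.succAbove j)) : BB) 1 := by
    intro j
    have e1 : IsWeightedHomogeneous wP (X (Sum.inl i) * X (Sum.inr (i.succAbove j)) : BB) (1 + 0) :=
      (isWeightedHomogeneous_X ℂ wP (Sum.inl i)).mul
        (isWeightedHomogeneous_X ℂ wP (Sum.inr (i.succAbove j)))
    have e2 : IsWeightedHomogeneous wP (X (Sum.inr i) * X (Sum.inl (i.succAbove j)) : BB) (0 + 1) :=
      (isWeightedHomogeneous_X ℂ wP (Sum.inr i)).mul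
        (isWeightedHomogeneous_X ℂ wP (Sum.inl (i.succAbove j)))
    rw [add_zero] at e1
    rw [zero_add] at e2
    exact Submodule.sub_mem (weightedHomogeneousSubmodule ℂ wP 1) e1 e2
  rw [hlift, coe_eval₂Hom, eval₂_eq]
  refine IsWeightedHomogeneous.sum _ _ _ fun d hd => ?_
  refine (inP_wP (hm d)).mul ?_
  have h1 : IsWeightedHomogeneous wP (∏ j ∈ d.support,
      (X (Sum.inl i) * X (Sum.inr (i.succAbove j)) -
      X (Sum.inr i) * X (Sum.inl (i.succAbove j)) : BB) ^ d j)
      (∑ j ∈ d.support, d j • 1) :=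
    IsWeightedHomogeneous.prod _ _ _ fun j _ => (hg j).pow (d j)
  have h2 := Ga2_weight (w := 1) hf hd
  simp only [Pi.one_apply, mul_one] at h2
  simp only [smul_eq_mul, mul_one, h2] at h1
  exact h1

theorem atz_hlift (i : Fin 4) (z : Fin 4 → ℂ) (f : MvPolynomial (Fin 3) RR) :
    atz z (hlift i f) =
      eval (fun j => X i * C (z (i.succAbove j)) - C (z i) * X (i.succAbove j)) f := by
  have h : (atz z).comp (hlift i) =
      (eval (fun j => X i * C (z (i.succAbove j)) - C (z i) * X (i.succAbove j)) :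
        MvPolynomial (Fin 3) RR →+* RR) := by
    apply MvPolynomial.ringHom_ext
    · intro r
      rw [RingHom.comp_apply, Ga2_hlift_C, atz_inP, eval_C]
    · intro j
      rw [RingHom.comp_apply, Ga2_hlift_X, eval_X]
      simp [atz]
  exact congrArg (fun g : MvPolynomial (Fin 3) RR →+* RR => g f) h

theorem chart_hlift (O : Type) [CommRing O] [Algebra RR O] (i : Fin 4) {f : MvPolynomial (Fin 3) RR}
    {t : ℕ} (hf : f.IsHomogeneous t) :
    chartH O i (hlift i f) = C (algebraMap RR O (X i ^ t)) * map (algebraMap RR O) f := by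
  have h : (chartH O i).comp (hlift i) =
      eval₂Hom ((C : O →+* MvPolynomial (Fin 3) O).comp (algebraMap RR O))
        (fun j => C (algebraMap RR O (X i)) * X j) := by
    apply MvPolynomial.ringHom_ext
    · intro r
      rw [RingHom.comp_apply, Ga2_hlift_C, chart_inP, eval₂Hom_C]
      rfl
    · intro j
      rw [RingHom.comp_apply, Ga2_hlift_X, eval₂Hom_X', map_sub, map_mul, map_mul,
        Ga2_chart_inl, Ga2_chart_inr, Ga2_chart_inr_self, zero_mul, sub_zero]
  have h1 : chartH O i (hlift i f) = eval₂ ((C : O →+* MvPolynomial (Fin 3) O).comp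
      (algebraMap RR O)) (fun j => C (algebraMap RR O (X i)) * X j) f :=
    congrArg (fun g : MvPolynomial (Fin 3) RR →+* MvPolynomial (Fin 3) O => g f) h
  rw [h1, Ga2_scale (w := 1) hf _ (fun j => X j) _ (C (algebraMap RR O (X i)))
    (fun j => by simp), map_pow, map_pow, Ga2_eval₂_map]

theorem hlift_chart (i : Fin 4) {H : BB} {t : ℕ} (h : IsWeightedHomogeneous wx H t)
    (hE : EE H = 0) : hlift i (chartH RR i H) = inP (X i ^ t) * H := by
  have h1 : (hlift i).comp (chartH RR i) = (aeval (Sum.elim (fun j => (X (Sum.inl j) : BB))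
      (fun j => X (Sum.inl i) * X (Sum.inr j) + (-X (Sum.inr i)) * X (Sum.inl j))) :
        BB →ₐ[ℂ] BB).toRingHom := by
    apply MvPolynomial.ringHom_ext
    · intro a
      rw [RingHom.comp_apply, Ga2_chart_C, Ga2_hlift_C]
      simp [inP]
    · rintro (j | j)
      · rw [RingHom.comp_apply, Ga2_chart_inl, Ga2_hlift_C]
        simp [inP]
      · refine (Fin.forall_iff_succAbove (P := fun j => ((hlift i).comp (chartH RR i))
          (X (Sum.inr j)) = (aeval (Sum.elim (fun j => (X (Sum.inl j) : BB))
          (fun j => X (Sum.inl i) * X (Sum.inr j) + (-X (Sum.inr i)) * X (Sum.inl j))) :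
          BB →ₐ[ℂ] BB).toRingHom (X (Sum.inr j))) i).2 ⟨?_, fun m => ?_⟩ j
        · rw [RingHom.comp_apply, Ga2_chart_inr_self, map_zero]
          simp only [AlgHom.toRingHom_eq_coe, RingHom.coe_coe, aeval_X, Sum.elim_inr]
          ring
        · rw [RingHom.comp_apply, Ga2_chart_inr, Ga2_hlift_X]
          simp only [AlgHom.toRingHom_eq_coe, RingHom.coe_coe, aeval_X, Sum.elim_inr]
          ring
  have h2 : hlift i (chartH RR i H) = aeval (Sum.elim (fun j => (X (Sum.inl j) : BB))
      (fun j => X (Sum.inl i) * X (Sum.inr j) + (-X (Sum.inr i)) * X (Sum.inl j))) H :=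
    congrArg (fun g : BB →+* BB => g H) h1
  rw [h2, einv hE (fun j => (X (Sum.inl j) : BB)) (fun j => X (Sum.inl i) * X (Sum.inr j))
    (-X (Sum.inr i)), aeval_def,
    Ga2_scale h _ (fun k => X k) _ (X (Sum.inl i)) (fun k => by
      rcases k with k | k <;> simp [wx])]
  have h3 : eval₂ (algebraMap ℂ BB) (fun k => X k) H = H := by
    rw [← aeval_def]
    exact aeval_X_left_apply H
  rw [h3, map_pow, Ga2_inP_X]

theorem Ga2_inv (O : Type) [CommRing O] [Algebra RR O] (i : Fin 4)
    (hu : IsUnit (algebraMap RR O (X i))) :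
    Ring.inverse (algebraMap RR O (X i)) * algebraMap RR O (X i) = 1 :=
  Ring.inverse_mul_cancel _ hu

theorem Ga2_Cdiv (O : Type) [CommRing O] [Algebra RR O] {a b : ℂ} (hb : b ≠ 0) :
    algebraMap RR O (C b) * algebraMap RR O (C (a / b)) = algebraMap RR O (C a) := by
  rw [← map_mul, ← C_mul, mul_div_cancel₀ a hb]

theorem chart_eval (O : Type) [CommRing O] [Algebra RR O] (i : Fin 4)
    (hu : IsUnit (algebraMap RR O (X i))) {H : BB} {t : ℕ} (h : IsWeightedHomogeneous wx H t)
    (hE : EE H = 0) {z : Fin 4 → ℂ} (hz : z i ≠ 0) :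
    algebraMap RR O (atz z H) = algebraMap RR O (C (z i ^ t)) * eval (vz O i z) (chartH O i H) := by
  let _ : Algebra ℂ O := ((algebraMap RR O).comp (C : ℂ →+* RR)).toAlgebra
  have hal : algebraMap ℂ O = (algebraMap RR O).comp (C : ℂ →+* RR) := rfl
  set p : Fin 4 → O := fun j => algebraMap RR O (X j) with hp
  set v : Fin 4 → O := fun j => Fin.insertNth (α := fun _ => O) i 0 (vz O i z) j with hv
  set ι : O := Ring.inverse (algebraMap RR O (X i)) with hι
  have hι1 : ι * p i = 1 := Ga2_inv O i hu
  -- left side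
  have e1 : algebraMap RR O (atz z H) = aeval (Sum.elim p
      (fun j => algebraMap RR O (C (z i)) * v j + (algebraMap RR O (C (z i)) * ι) * p j)) H := by
    have h1 : (algebraMap RR O).comp (atz z) = eval₂Hom (algebraMap ℂ O) (Sum.elim p
        (fun j => algebraMap RR O (C (z i)) * v j + (algebraMap RR O (C (z i)) * ι) * p j)) := by
      apply MvPolynomial.ringHom_ext
      · intro a
        simp [atz, hal]
      · rintro (j | j)
        · simp [atz, hp]
        · refine (Fin.forall_iff_succAbove (P := fun j => ((algebraMap RR O).comp (atz z))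
            (X (Sum.inr j)) = eval₂Hom (algebraMap ℂ O) (Sum.elim p
            (fun j => algebraMap RR O (C (z i)) * v j +
              (algebraMap RR O (C (z i)) * ι) * p j)) (X (Sum.inr j))) i).2 ⟨?_, fun m => ?_⟩ j
          · rw [RingHom.comp_apply, eval₂Hom_X']
            simp only [atz, coe_eval₂Hom, eval₂_X, Sum.elim_inr, hv, Fin.insertNth_apply_same]
            rw [mul_assoc, hι1]
            ring
          · rw [RingHom.comp_apply, eval₂Hom_X']
            simp only [atz, coe_eval₂Hom, eval₂_X, Sum.elim_inr, hv,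
              Fin.insertNth_apply_succAbove, vz]
            rw [mul_sub, Ga2_Cdiv O hz]
            ring
    have h2 := congrArg (fun g : BB →+* O => g H) h1
    simpa [aeval_def] using h2
  have e2 : eval (vz O i z) (chartH O i H) = aeval (Sum.elim p v) H := by
    have h1 : (eval (vz O i z)).comp (chartH O i) = eval₂Hom (algebraMap ℂ O) (Sum.elim p v) := by
      apply MvPolynomial.ringHom_ext
      · intro a
        rw [RingHom.comp_apply, Ga2_chart_C, eval_C, eval₂Hom_C]
        rfl
      · rintro (j | j)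
        · rw [RingHom.comp_apply, Ga2_chart_inl, eval_C, eval₂Hom_X']
          rfl
        · refine (Fin.forall_iff_succAbove (P := fun j => ((eval (vz O i z)).comp (chartH O i))
            (X (Sum.inr j)) = eval₂Hom (algebraMap ℂ O) (Sum.elim p v) (X (Sum.inr j))) i).2
            ⟨?_, fun m => ?_⟩ j
          · rw [RingHom.comp_apply, Ga2_chart_inr_self, map_zero, eval₂Hom_X']
            simp [hv]
          · rw [RingHom.comp_apply, Ga2_chart_inr, eval_X, eval₂Hom_X']
            simp [hv]
    have h2 := congrArg (fun g : BB →+* O => g H) h1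
    simpa [aeval_def] using h2
  rw [e1, e2, einv hE p (fun j => algebraMap RR O (C (z i)) * v j)
    (algebraMap RR O (C (z i)) * ι), aeval_def, aeval_def,
    Ga2_scale h _ (Sum.elim p v) _ (algebraMap RR O (C (z i))) (fun k => by
      rcases k with k | k <;> simp [wx]), map_pow, map_pow]

/-- `P_i z' - z_i P' = P_i z_i v` -/
theorem vz_scale (O : Type) [CommRing O] [Algebra RR O] (i : Fin 4)
    (hu : IsUnit (algebraMap RR O (X i))) {z : Fin 4 → ℂ} (hz : z i ≠ 0) (j : Fin 3) :
    algebraMap RR O (X i * C (z (i.succAbove j)) - C (z i) * X (i.succAbove j)) =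
      algebraMap RR O (X i * C (z i)) * vz O i z j := by
  have h1 := Ga2_inv O i hu
  have h2 := Ga2_Cdiv O (a := z (i.succAbove j)) hz
  rw [vz, map_sub, map_mul, map_mul, map_mul, ← h2]
  linear_combination (algebraMap RR O (C (z i)) * algebraMap RR O (X (i.succAbove j))) * h1

end GP80

end S_H80_GP_Ga2

section S_H80_GP_Ga3

/-!
# Row Ga3 (MP_87ed0a_GP): localizations of `ℂ[P]`  (about 200 lines)

* `clear_den`: `O` a localization of `RR` at a submonoid `M` (all elements nonzero): every `A ∈ O[X_1,X_2,X_3]` is `A0 / u`, `u ∈ M`, `A0 ∈ RR[X]` (`IsLocalization.exist_integer_multiples_of_finset` on the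
  coefficients); if `A` is homogeneous of degree `t`, then so is `A0` (`map (algebraMap RR O)` is injective since `M ≤ nonZeroDivisors`; or replace `A0` by its component of degree `t`).
* `exists_der`: the derivation `P_i ∂/∂P_(s j)` of `RR` extends to any localization `O` of `RR`.  Proof: for a derivation `δ` of `RR` the map
  `RR → TrivSqZeroExt O O`, `a ↦ (a, δ a)` is a ring hom sending `M` to units (`(a, b)` is a unit iff `a` is), so it lifts to `O` (`IsLocalization.lift`); its first component is the identity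
  (`IsLocalization.ringHom_ext`), the second component is the derivation (make it a `Derivation ℤ O O` with `Derivation.mk'` or as structure).
* `OO π` for a prime `π` (with the instance `(Ideal.span {π}).IsPrime` as argument): it is a DVR (Noetherian local domain, not a field, maximal ideal generated by the image of `π`:
  `IsDiscreteValuationRing` TFAE / `IsDiscreteValuationRing.of_ufd...`; maximal ideal of `Localization.AtPrime I` is `I.map`), `algebraMap π` is prime,
  the residue map is surjective with kernel `(π)`, `r` becomes a unit iff `π ∤ r`, multiplicities of `π` agree (`r = π^m r'`, `π ∤ r'`), the residue field has characteristic zero (it contains `ℂ`).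
* `AL_*`: in `AL z z'` (localization at the prime `pL z z'`) `r` is a unit iff `r ∉ pL z z'`; `AL` is a domain, the algebra map is injective.
-/

namespace GP80

open MvPolynomial

theorem clear_den {O : Type} [CommRing O] [Algebra RR O] (M : Submonoid RR) [IsLocalization M O]
    (hM : M ≤ nonZeroDivisors RR) (A : MvPolynomial (Fin 3) O) :
    ∃ u ∈ M, ∃ A0 : MvPolynomial (Fin 3) RR, C (algebraMap RR O u) * A = map (algebraMap RR O) A0 ∧
      ∀ t, A.IsHomogeneous t → A0.IsHomogeneous t := by
  let _ : Algebra (MvPolynomial (Fin 3) RR) (MvPolynomial (Fin 3) O) :=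
    MvPolynomial.algebraMvPolynomial
  have hloc : IsLocalization (Submonoid.map (C : RR →+* MvPolynomial (Fin 3) RR) M)
      (MvPolynomial (Fin 3) O) := MvPolynomial.isLocalization M O
  obtain ⟨⟨A0, ⟨_, ⟨u, hu, rfl⟩⟩⟩, h⟩ := IsLocalization.surj
    (Submonoid.map (C : RR →+* MvPolynomial (Fin 3) RR) M) A
  have h1 : C (algebraMap RR O u) * A = map (algebraMap RR O) A0 := by
    have h2 : A * algebraMap (MvPolynomial (Fin 3) RR) (MvPolynomial (Fin 3) O) (C u) =
        algebraMap (MvPolynomial (Fin 3) RR) (MvPolynomial (Fin 3) O) A0 := h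
    rw [MvPolynomial.algebraMap_def, map_C] at h2
    rw [mul_comm]
    exact h2
  refine ⟨u, hu, A0, h1, fun t hA d hd => ?_⟩
  have hinj : Function.Injective (algebraMap RR O) := IsLocalization.injective O hM
  have h3 : algebraMap RR O (coeff d A0) = algebraMap RR O u * coeff d A := by
    rw [← coeff_map, ← h1, coeff_C_mul]
  have h4 : coeff d A ≠ 0 := by
    intro h5
    rw [h5, mul_zero] at h3
    exact hd ((_root_.map_eq_zero_iff _ hinj).1 h3)
  exact hA h4

theorem Ga3_ext (O : Type) [CommRing O] [Algebra RR O] (M : Submonoid RR) [IsLocalization M O]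
    (δ : RR → RR) (h0 : δ 0 = 0) (h1 : δ 1 = 0) (hadd : ∀ a b, δ (a + b) = δ a + δ b)
    (hmul : ∀ a b, δ (a * b) = a * δ b + b * δ a) :
    ∃ D : Derivation ℤ O O, ∀ r, D (algebraMap RR O r) = algebraMap RR O (δ r) := by
  let φ : RR →+* TrivSqZeroExt O O :=
    { toFun := fun r => (algebraMap RR O r, algebraMap RR O (δ r))
      map_one' := by
        refine Prod.ext (map_one _) ?_
        show algebraMap RR O (δ 1) = 0
        rw [h1, map_zero]
      map_zero' := by
        refine Prod.ext (map_zero _) ?_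
        show algebraMap RR O (δ 0) = 0
        rw [h0, map_zero]
      map_mul' := by
        intro a b
        refine Prod.ext (map_mul _ _ _) ?_
        show algebraMap RR O (δ (a * b)) = algebraMap RR O a • algebraMap RR O (δ b) +
          MulOpposite.op (algebraMap RR O b) • algebraMap RR O (δ a)
        rw [hmul, map_add, map_mul, map_mul, op_smul_eq_smul, smul_eq_mul, smul_eq_mul]
      map_add' := by
        intro a b
        refine Prod.ext (map_add _ _ _) ?_
        show algebraMap RR O (δ (a + b)) = algebraMap RR O (δ a) + algebraMap RR O (δ b)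
        rw [hadd, map_add] }
  have hφ1 : ∀ r, (φ r).fst = algebraMap RR O r := fun r => rfl
  have hφ2 : ∀ r, (φ r).snd = algebraMap RR O (δ r) := fun r => rfl
  have hu : ∀ y : M, IsUnit (φ y) := by
    intro y
    rw [TrivSqZeroExt.isUnit_iff_isUnit_fst, hφ1]
    exact IsLocalization.map_units O y
  obtain ⟨L, hL⟩ : ∃ L : O →+* TrivSqZeroExt O O, L = IsLocalization.lift hu := ⟨_, rfl⟩
  have hLa : ∀ r, L (algebraMap RR O r) = φ r := by
    intro r
    rw [hL]
    exact IsLocalization.lift_eq hu r
  have hfst : ∀ a : O, (L a).fst = a := by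
    have h2 : ((TrivSqZeroExt.fstHom ℤ O O).toRingHom.comp L) = RingHom.id O := by
      refine IsLocalization.ringHom_ext M ?_
      refine RingHom.ext fun r => ?_
      show (L (algebraMap RR O r)).fst = algebraMap RR O r
      rw [hLa, hφ1]
    intro a
    exact RingHom.congr_fun h2 a
  let D0 : O →+ O :=
    { toFun := fun a => (L a).snd
      map_zero' := by rw [map_zero]; rfl
      map_add' := by
        intro a b
        rw [map_add]
        rfl }
  refine ⟨Derivation.mk' D0.toIntLinearMap ?_, fun r => ?_⟩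
  · intro a b
    show (L (a * b)).snd = a • (L b).snd + b • (L a).snd
    rw [map_mul, TrivSqZeroExt.snd_mul, hfst, hfst, op_smul_eq_smul]
  · show (L (algebraMap RR O r)).snd = algebraMap RR O (δ r)
    rw [hLa, hφ2]

theorem exists_der (O : Type) [CommRing O] [Algebra RR O] (M : Submonoid RR) [IsLocalization M O]
    (i : Fin 4) : ∃ der : Fin 3 → Derivation ℤ O O, IsDer O i der := by
  have h : ∀ j : Fin 3, ∃ D : Derivation ℤ O O, ∀ r, D (algebraMap RR O r) =
      algebraMap RR O (X i * pderiv (i.succAbove j) r) := by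
    intro j
    refine Ga3_ext O M (fun r => X i * pderiv (i.succAbove j) r) ?_ ?_ ?_ ?_
    · show X i * pderiv (i.succAbove j) (0 : RR) = 0
      rw [map_zero, mul_zero]
    · show X i * pderiv (i.succAbove j) (1 : RR) = 0
      rw [pderiv_one, mul_zero]
    · intro a b
      show X i * pderiv (i.succAbove j) (a + b) = _
      rw [map_add, mul_add]
    · intro a b
      show X i * pderiv (i.succAbove j) (a * b) = a * (X i * pderiv (i.succAbove j) b) +
        b * (X i * pderiv (i.succAbove j) a)
      rw [pderiv_mul]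
      ring
  choose D hD using h
  exact ⟨D, fun j r => hD j r⟩

theorem OO_domain (π : RR) [hp : (Ideal.span {π} : Ideal RR).IsPrime] : IsDomain (OO π) :=
  IsLocalization.isDomain_localization (Ideal.primeCompl_le_nonZeroDivisors _)

theorem OO_injective (π : RR) [hp : (Ideal.span {π} : Ideal RR).IsPrime] :
    Function.Injective (algebraMap RR (OO π)) :=
  IsLocalization.injective (OO π) (Ideal.primeCompl_le_nonZeroDivisors (Ideal.span {π} : Ideal RR))

theorem Ga3_max (π : RR) [hp : (Ideal.span {π} : Ideal RR).IsPrime] :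
    IsLocalRing.maximalIdeal (OO π) = Ideal.span {algebraMap RR (OO π) π} := by
  have h1 := Localization.AtPrime.map_eq_maximalIdeal (I := (Ideal.span {π} : Ideal RR))
  rw [Ideal.map_span, Set.image_singleton] at h1
  exact h1.symm

theorem Ga3_ne {π : RR} [hp : (Ideal.span {π} : Ideal RR).IsPrime] (hπ : Prime π) :
    algebraMap RR (OO π) π ≠ 0 := by
  intro h
  exact hπ.ne_zero ((_root_.map_eq_zero_iff _ (OO_injective π)).1 h)

theorem OO_dvr {π : RR} [hp : (Ideal.span {π} : Ideal RR).IsPrime] (hπ : Prime π) :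
    ∃ _ : IsDomain (OO π), IsDiscreteValuationRing (OO π) := by
  have hdom : IsDomain (OO π) := OO_domain π
  refine ⟨hdom, ?_⟩
  have hnoeth : IsNoetherianRing (OO π) :=
    IsLocalization.isNoetherianRing (Ideal.primeCompl (Ideal.span {π} : Ideal RR)) (OO π)
      inferInstance
  have hnf : ¬ IsField (OO π) := by
    rw [IsLocalRing.isField_iff_maximalIdeal_eq, Ga3_max, Ideal.span_singleton_eq_bot]
    exact Ga3_ne hπ
  have h1 := (IsDiscreteValuationRing.TFAE (OO π) hnf).out 4 0
  refine h1.1 ?_
  rw [Ga3_max]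
  exact ⟨⟨_, rfl⟩⟩

theorem OO_prime {π : RR} [hp : (Ideal.span {π} : Ideal RR).IsPrime] (hπ : Prime π) :
    Prime (algebraMap RR (OO π) π) := by
  rw [← Ideal.span_singleton_prime (Ga3_ne hπ), ← Ga3_max]
  exact (IsLocalRing.maximalIdeal.isMaximal (OO π)).isPrime

theorem OO_unit {π : RR} [hp : (Ideal.span {π} : Ideal RR).IsPrime] (r : RR) :
    IsUnit (algebraMap RR (OO π) r) ↔ ¬ π ∣ r := by
  rw [IsLocalization.AtPrime.isUnit_to_map_iff (OO π) (Ideal.span {π} : Ideal RR) r,
    Ideal.mem_primeCompl_iff, Ideal.mem_span_singleton]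

theorem OO_dvd {π : RR} [hp : (Ideal.span {π} : Ideal RR).IsPrime] (r : RR) :
    algebraMap RR (OO π) π ∣ algebraMap RR (OO π) r ↔ π ∣ r := by
  refine ⟨fun h => ?_, fun h => map_dvd _ h⟩
  by_contra hcon
  have h1 : IsUnit (algebraMap RR (OO π) r) := (OO_unit r).2 hcon
  have h2 : IsUnit (algebraMap RR (OO π) π) := isUnit_of_dvd_unit h h1
  exact (OO_unit π).1 h2 dvd_rfl

theorem OO_ker {π : RR} [hp : (Ideal.span {π} : Ideal RR).IsPrime] (a : OO π) :
    IsLocalRing.residue (OO π) a = 0 ↔ algebraMap RR (OO π) π ∣ a := by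
  rw [IsLocalRing.residue_eq_zero_iff, Ga3_max, Ideal.mem_span_singleton]

theorem OO_charZero (π : RR) [hp : (Ideal.span {π} : Ideal RR).IsPrime] :
    CharZero (IsLocalRing.ResidueField (OO π)) :=
  charZero_of_injective_ringHom (RingHom.injective
    ((IsLocalRing.residue (OO π)).comp ((algebraMap RR (OO π)).comp (C : ℂ →+* RR))))

theorem OO_mult {π : RR} [hp : (Ideal.span {π} : Ideal RR).IsPrime] (hπ : Prime π) {r : RR} (hr : r ≠ 0) :
    multiplicity (algebraMap RR (OO π) π) (algebraMap RR (OO π) r) = multiplicity π r := by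
  have hdom : IsDomain (OO π) := OO_domain π
  have hfin : FiniteMultiplicity π r := FiniteMultiplicity.of_not_isUnit hπ.not_isUnit hr
  obtain ⟨c, hc, hπc⟩ := hfin.exists_eq_pow_mul_and_not_dvd
  obtain ⟨m, hm⟩ : ∃ m, m = multiplicity π r := ⟨_, rfl⟩
  rw [← hm] at hc ⊢
  refine multiplicity_eq_of_dvd_of_not_dvd ?_ ?_
  · rw [hc, map_mul, map_pow]
    exact dvd_mul_right _ _
  · rw [hc, map_mul, map_pow, pow_succ]
    intro h
    have h1 : (algebraMap RR (OO π) π) ^ m ≠ 0 := pow_ne_zero _ (Ga3_ne hπ)
    exact hπc ((OO_dvd c).1 ((mul_dvd_mul_iff_left h1).1 h))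

theorem AL_unit (z z' : Fin 4 → ℂ) (r : RR) :
    IsUnit (algebraMap RR (AL z z') r) ↔ r ∉ pL z z' := by
  rw [IsLocalization.AtPrime.isUnit_to_map_iff (AL z z') (pL z z') r, Ideal.mem_primeCompl_iff]

theorem AL_domain (z z' : Fin 4 → ℂ) : IsDomain (AL z z') :=
  IsLocalization.isDomain_localization (Ideal.primeCompl_le_nonZeroDivisors _)

theorem AL_injective (z z' : Fin 4 → ℂ) : Function.Injective (algebraMap RR (AL z z')) :=
  IsLocalization.injective (AL z z') (Ideal.primeCompl_le_nonZeroDivisors (pL z z'))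

end GP80

end S_H80_GP_Ga3
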