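import Mathlib
import Pool.Agent.H3.GP.Defs
import Pool.Agent.H80.M87.G02

/-! MP_87ed0a_ag: this file joins several modules to save build time. -/

section S_H3_GP_OPN

/-!
# OPN (MP_87ed0a_ag): general position is open; the number of points

PROOF of `OPN`. For fixed `k k' j j'` the map `x ↦ ![x k j, x k j', x k' j, x k' j']` is continuous
and `{v : Fin 4 → Fin 4 → ℂ | LinearIndependent ℂ v}` is open (`isOpen_setOf_linearIndependent`, or
the determinant is nonzero); finitely many conditions (`Filter.eventually_all`).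
PROOF of `CNT`. The map `kj ↦ mk (x kj.1 kj.2)` is injective: two vectors with different `(k, j)`
are linearly independent (if `k ≠ k'` and `j = j'` use `ind` with some other `j'' ≠ j`, `b ≥ 2`; if
`k = k'`, `j ≠ j'` use some `k'' ≠ k`); all vectors are nonzero; `pts` is the image of
`Finset.univ`.
-/

open Filter Topology

namespace Pool.Agent.H3.GP

theorem OPN (a b : ℕ) (x0 : Fin a → Fin b → Fin 4 → ℂ) (h : GridVec a b x0) :
    ∀ᶠ x in 𝓝 x0, ∀ k k' j j', k ≠ k' → j ≠ j' →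
      LinearIndependent ℂ ![x k j, x k j', x k' j, x k' j'] := by
  rw [Filter.eventually_all]
  intro k
  rw [Filter.eventually_all]
  intro k'
  rw [Filter.eventually_all]
  intro j
  rw [Filter.eventually_all]
  intro j'
  by_cases hk : k = k'
  · exact Filter.Eventually.of_forall fun x h1 => absurd hk h1
  by_cases hj : j = j'
  · exact Filter.Eventually.of_forall fun x _ h1 => absurd hj h1
  have hopen : IsOpen {v : Fin 4 → Fin 4 → ℂ | LinearIndependent ℂ v} :=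
    isOpen_setOfPred_linearIndependent
  have hcont : Tendsto (fun x : Fin a → Fin b → Fin 4 → ℂ =>
      ![x k j, x k j', x k' j, x k' j']) (𝓝 x0)
      (𝓝 ![x0 k j, x0 k j', x0 k' j, x0 k' j']) := by
    have h1 : ∀ (k : Fin a) (j : Fin b), Tendsto (fun x : Fin a → Fin b → Fin 4 → ℂ => x k j)
        (𝓝 x0) (𝓝 (x0 k j)) := fun k j =>
      ((continuous_apply j).comp (continuous_apply k)).tendsto x0
    rw [tendsto_pi_nhds]
    intro i
    fin_cases i
    · exact h1 k j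
    · exact h1 k j'
    · exact h1 k' j
    · exact h1 k' j'
  have h2 := hcont.eventually (hopen.mem_nhds (h.ind k k' j j' hk hj))
  exact h2.mono fun x hx _ _ => hx

private theorem OPN_pair (a b : ℕ) (ha : 2 ≤ a) (hb : 2 ≤ b) (x : Fin a → Fin b → Fin 4 → ℂ)
    (h : ∀ k k' j j', k ≠ k' → j ≠ j' →
      LinearIndependent ℂ ![x k j, x k j', x k' j, x k' j'])
    (k k' : Fin a) (j j' : Fin b) (hne : (k, j) ≠ (k', j')) :
    LinearIndependent ℂ ![x k j, x k' j'] := by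
  by_cases hk : k = k'
  · subst hk
    have hj : j ≠ j' := fun h1 => hne (by rw [h1])
    have : Nontrivial (Fin a) := Fin.nontrivial_iff_two_le.2 ha
    obtain ⟨k2, hk2⟩ := exists_ne k
    have h1 := h k k2 j j' hk2.symm hj
    have h2 := h1.comp ![0, 1] (by decide)
    convert h2 using 1
    ext i
    fin_cases i <;> rfl
  · by_cases hj : j = j'
    · subst hj
      have : Nontrivial (Fin b) := Fin.nontrivial_iff_two_le.2 hb
      obtain ⟨j2, hj2⟩ := exists_ne j
      have h1 := h k k' j j2 hk hj2.symm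
      have h2 := h1.comp ![0, 2] (by decide)
      convert h2 using 1
      ext i
      fin_cases i <;> rfl
    · have h1 := h k k' j j' hk hj
      have h2 := h1.comp ![0, 3] (by decide)
      convert h2 using 1
      ext i
      fin_cases i <;> rfl

theorem CNT (a b : ℕ) (ha : 2 ≤ a) (hb : 2 ≤ b) (x : Fin a → Fin b → Fin 4 → ℂ)
    (h : ∀ k k' j j', k ≠ k' → j ≠ j' →
      LinearIndependent ℂ ![x k j, x k j', x k' j, x k' j']) :
    (pts (fun kj : Fin a × Fin b => x kj.1 kj.2)).ncard = a * b := by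
  have hne : ∀ kj : Fin a × Fin b, x kj.1 kj.2 ≠ 0 := by
    intro kj
    have : Nontrivial (Fin a) := Fin.nontrivial_iff_two_le.2 ha
    obtain ⟨k2, hk2⟩ := exists_ne kj.1
    have h1 := OPN_pair a b ha hb x h kj.1 k2 kj.2 kj.2 (fun h2 => hk2 (Prod.ext_iff.1 h2).1.symm)
    exact h1.ne_zero 0
  have hset : pts (fun kj : Fin a × Fin b => x kj.1 kj.2) =
      Set.range (fun kj : Fin a × Fin b => Projectivization.mk ℂ (x kj.1 kj.2) (hne kj)) := by
    ext p
    constructor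
    · rintro ⟨i, hi, rfl⟩
      exact ⟨i, rfl⟩
    · rintro ⟨i, rfl⟩
      exact ⟨i, hne i, rfl⟩
  have hinj : Function.Injective
      (fun kj : Fin a × Fin b => Projectivization.mk ℂ (x kj.1 kj.2) (hne kj)) := by
    intro p q hpq
    by_contra hne2
    have h1 := OPN_pair a b ha hb x h p.1 q.1 p.2 q.2 (by simpa using hne2)
    have h2 : Projectivization.mk ℂ (x p.1 p.2) (hne p) =
        Projectivization.mk ℂ (x q.1 q.2) (hne q) := hpq
    rw [Projectivization.mk_eq_mk_iff'] at h2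
    obtain ⟨c, hc⟩ := h2
    rw [LinearIndependent.pair_iff] at h1
    have h3 := h1 1 (-c) (by rw [one_smul, neg_smul, hc, add_neg_cancel])
    exact one_ne_zero h3.1
  rw [hset, ← Set.image_univ, Set.ncard_image_of_injective _ hinj, Set.ncard_univ]
  simp

end Pool.Agent.H3.GP

end S_H3_GP_OPN

section S_H3_GP_INV

/-!
# INV (MP_87ed0a_ag): linear invariance of the working hypothesis

PROOF. Let `D` be the polynomial of `h` and `D' = MvPolynomial.bind₁ (fun i => ∑ j, C (M i j) * X j) D`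
(so `eval P D' = eval (M.mulVec P) D` for all `P`); `D' ≠ 0` because `D ≠ 0` has a point `y` with
`eval y D ≠ 0` (`MvPolynomial.funext`) and `P = M⁻¹.mulVec y` gives `eval P D' ≠ 0`.
Let `eval P D' ≠ 0` and `π` with kernel `span {P}`.  Then `π' = π ∘ₗ Matrix.toLin' M⁻¹` (or
`Matrix.mulVecLin`) has kernel `span {M.mulVec P}` and `π' (M.mulVec (X j)) = π (X j)`; apply `h`.
-/

open MvPolynomial

namespace Pool.Agent.H3.GP

theorem INV (k q : ℕ) {J : Type} (M : Matrix (Fin 4) (Fin 4) ℂ) (hM : IsUnit M.det)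
    (X : J → Fin 4 → ℂ) (h : GenForm k q (fun j => M.mulVec (X j))) : GenForm k q X := by
  obtain ⟨D, hD, h⟩ := h
  set D' : MvPolynomial (Fin 4) ℂ := bind₁ (fun i => ∑ j, C (M i j) * MvPolynomial.X j) D with hD'
  have heval : ∀ P : Fin 4 → ℂ, eval P D' = eval (M.mulVec P) D := by
    intro P
    have h1 : eval P D' = eval (fun i => eval P (∑ j, C (M i j) * MvPolynomial.X j)) D := by
      rw [hD']
      have := MvPolynomial.eval₂Hom_bind₁ (RingHom.id ℂ) P
        (fun i => ∑ j, C (M i j) * MvPolynomial.X j) D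
      exact this
    rw [h1]
    congr 1
    congr 1
    ext i
    simp [Matrix.mulVec, dotProduct]
  have hinv : M⁻¹ * M = 1 := Matrix.nonsing_inv_mul M hM
  have hinv' : M * M⁻¹ = 1 := Matrix.mul_nonsing_inv M hM
  refine ⟨D', ?_, ?_⟩
  · intro h0
    apply hD
    apply MvPolynomial.funext
    intro y
    have h1 := heval (M⁻¹.mulVec y)
    rw [Matrix.mulVec_mulVec, hinv', Matrix.one_mulVec, h0, map_zero] at h1
    rw [← h1, map_zero]
  · intro P hP π hπ
    have h1 := h (M.mulVec P) (by rw [← heval]; exact hP) (π ∘ₗ M⁻¹.mulVecLin) ?_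
    · obtain ⟨f, hf0, hf1, hf2, hf3⟩ := h1
      refine ⟨f, hf0, hf1, hf2, fun j => ?_⟩
      have h2 := hf3 j
      have h3 : (π ∘ₗ M⁻¹.mulVecLin) (M.mulVec (X j)) = π (X j) := by
        rw [LinearMap.comp_apply, Matrix.mulVecLin_apply, Matrix.mulVec_mulVec, hinv,
          Matrix.one_mulVec]
      change eval ((π ∘ₗ M⁻¹.mulVecLin) (M.mulVec (X j))) f = 0 at h2
      rw [h3] at h2
      exact h2
    · ext v
      rw [LinearMap.mem_ker, LinearMap.comp_apply, Matrix.mulVecLin_apply, ← LinearMap.mem_ker, hπ,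
        Submodule.mem_span_singleton, Submodule.mem_span_singleton]
      constructor
      · rintro ⟨a, ha⟩
        refine ⟨a, ?_⟩
        rw [← Matrix.mulVec_smul, ha, Matrix.mulVec_mulVec, hinv', Matrix.one_mulVec]
      · rintro ⟨a, ha⟩
        refine ⟨a, ?_⟩
        rw [← ha, Matrix.mulVec_smul, Matrix.mulVec_mulVec, hinv, Matrix.one_mulVec]

end Pool.Agent.H3.GP

end S_H3_GP_INV

section S_H3_GP_ADP

/-!
# ADP (MP_87ed0a_ag): adapted coordinates at the line `k0`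

PROOF. By `h0.col` write `x0 k1 j = a j • x0 k1 j0 + b j • x0 k1 j1`
(`Submodule.mem_span_pair`).  By `h0.ind` (with `k0 k1`) two different vectors `x0 k1 j`,
`x0 k1 j'` are linearly independent, so the pairs `(a j, b j)` are nonzero and pairwise not
proportional.  Choose `s : ℂ` with `b j - a j * s ≠ 0` for all `j` (each `j` excludes at most one
`s`).  Put `e3 = x0 k1 j0 + s • x0 k1 j1`, `e4 = x0 k1 j1`,
`M t = ` the matrix with columns `x t k0 j0, x t k0 j1, e3, e4`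
(`Matrix.of (fun i l => ![x t k0 j0 i, x t k0 j1 i, e3 i, e4 i] l)`), `M0` the same with `x0`.
`det M0 ≠ 0` by `h0.ind k0 k1 j0 j1` (columns `x0 k0 j0, x0 k0 j1, e3, e4` linearly independent).
`det (M t) → det M0`, so `IsUnit (det (M t))` eventually.  Put `X t k j = (M t)⁻¹.mulVec (x t k j)`,
`X0 k j = M0⁻¹.mulVec (x0 k j)`.  `(M t)⁻¹ → M0⁻¹` entrywise
(`Matrix.inv_def`: `Ring.inverse det • adjugate`; entries of the adjugate are polynomials) gives
the convergence.  `X t k0 j0 = ![1,0,0,0]` because `(M t).mulVec ![1,0,0,0] = x t k0 j0`, etc.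
`X0 k0 j`: `x0 k0 j ∈ span {x0 k0 j0, x0 k0 j1}` (`h0.col`), so its coordinates 2, 3 vanish; it is
nonzero as `x0 k0 j ≠ 0` (`ind`, choose some `j' ≠ j`: `j0` or `j1`).
`X0 k1 j = ![0, 0, a j, b j - a j * s]`; put `η j = a j / (b j - a j * s)`: injective because the
pairs are not proportional.
For `k ≠ k0`: `x0 k j ∈ span {x0 k0 j, x0 k1 j}` (`h0.row`), say `λ • x0 k0 j + μ • x0 k1 j`, with
`μ ≠ 0` because `x0 k j`, `x0 k0 j` are linearly independent (`ind`).  So
`X0 k j = λ • X0 k0 j + μ • X0 k1 j`: third and fourth coordinates are `μ` times those of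
`X0 k1 j`, hence `X0 k j 3 ≠ 0`, `X0 k j 2 = η j * X0 k j 3`, and
`X0 k j i / X0 k j 3 = (λ / (μ * X0 k1 j 3)) * X0 k0 j i + X0 k1 j i / X0 k1 j 3` for `i = 0, 1`.
For two indices `k ≠ k'` different from `k0` the difference is `ν * X0 k0 j i`,
`ν = λ / (μ * X0 k1 j 3) - λ' / (μ' * X0 k1 j 3)`; `ν ≠ 0`, otherwise
`μ'⁻¹ • x0 k' j = μ⁻¹ • x0 k j`, contradicting the independence of `x0 k j`, `x0 k' j` (`ind`).
-/

open Filter Topology

namespace Pool.Agent.H3.GP

private theorem ADP_pair {p q : ℕ} {x0 : Fin p → Fin q → Fin 4 → ℂ} (h0 : GridVec p q x0)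
    {k k' : Fin p} (hk : k ≠ k') {j j' : Fin q} (hj : j ≠ j') {c c' : ℂ}
    (h : c • x0 k j = c' • x0 k' j) : c = 0 ∧ c' = 0 := by
  have h1 := Fintype.linearIndependent_iff.1 (h0.ind k k' j j' hk hj) ![c, 0, -c', 0] (by
    simp [Fin.sum_univ_four, h])
  exact ⟨by simpa using h1 0, by simpa using h1 2⟩

private theorem ADP_pair2 {p q : ℕ} {x0 : Fin p → Fin q → Fin 4 → ℂ} (h0 : GridVec p q x0)
    {k k' : Fin p} (hk : k ≠ k') {j j' : Fin q} (hj : j ≠ j') {c c' : ℂ}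
    (h : c • x0 k j = c' • x0 k j') : c = 0 ∧ c' = 0 := by
  have h1 := Fintype.linearIndependent_iff.1 (h0.ind k k' j j' hk hj) ![c, -c', 0, 0] (by
    simp [Fin.sum_univ_four, h])
  exact ⟨by simpa using h1 0, by simpa using h1 1⟩

/-- the matrix with columns `u v e3 e4` -/
private def ADP_mat (u v e3 e4 : Fin 4 → ℂ) : Matrix (Fin 4) (Fin 4) ℂ :=
  Matrix.of fun i l => (![u i, v i, e3 i, e4 i] : Fin 4 → ℂ) l

private theorem ADP_mulVec (u v e3 e4 : Fin 4 → ℂ) (a b c d : ℂ) :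
    (ADP_mat u v e3 e4).mulVec ![a, b, c, d] = a • u + b • v + c • e3 + d • e4 := by
  ext i
  simp [ADP_mat, Matrix.mulVec, dotProduct, Fin.sum_univ_four]
  ring

private theorem ADP_det {u v e3 e4 : Fin 4 → ℂ} (h : LinearIndependent ℂ ![u, v, e3, e4]) :
    (ADP_mat u v e3 e4).det ≠ 0 := by
  intro hdet
  obtain ⟨w, hw0, hw⟩ := Matrix.exists_mulVec_eq_zero_iff.2 hdet
  apply hw0
  have hww : w = ![w 0, w 1, w 2, w 3] := by
    ext i; fin_cases i <;> rfl
  rw [hww, ADP_mulVec] at hw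
  have h1 := Fintype.linearIndependent_iff.1 h w (by
    simpa [Fin.sum_univ_four] using hw)
  ext i
  simpa using h1 i

private theorem ADP_inv {M : Matrix (Fin 4) (Fin 4) ℂ} (hM : IsUnit M.det) {x v : Fin 4 → ℂ}
    (h : M.mulVec v = x) : M⁻¹.mulVec x = v := by
  rw [← h, Matrix.mulVec_mulVec, Matrix.nonsing_inv_mul _ hM, Matrix.one_mulVec]

private theorem ADP_t1 {ι : Type} {U : Filter ι} {M : ι → Matrix (Fin 4) (Fin 4) ℂ}
    {M0 : Matrix (Fin 4) (Fin 4) ℂ} (hM : ∀ i l, Tendsto (fun t => M t i l) U (𝓝 (M0 i l))) :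
    Tendsto M U (𝓝 M0) :=
  tendsto_pi_nhds.2 fun i => tendsto_pi_nhds.2 fun l => hM i l

private theorem ADP_t2 {ι : Type} {U : Filter ι} {M : ι → Matrix (Fin 4) (Fin 4) ℂ}
    {M0 : Matrix (Fin 4) (Fin 4) ℂ} (hM : Tendsto M U (𝓝 M0)) :
    Tendsto (fun t => (M t).det) U (𝓝 M0.det) :=
  (Continuous.matrix_det (continuous_id (X := Matrix (Fin 4) (Fin 4) ℂ))).tendsto M0 |>.comp hM

private theorem ADP_t3 {ι : Type} {U : Filter ι} {M : ι → Matrix (Fin 4) (Fin 4) ℂ}
    {M0 : Matrix (Fin 4) (Fin 4) ℂ} (hM : Tendsto M U (𝓝 M0)) :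
    Tendsto (fun t => (M t).adjugate) U (𝓝 M0.adjugate) :=
  (Continuous.matrix_adjugate (continuous_id (X := Matrix (Fin 4) (Fin 4) ℂ))).tendsto M0 |>.comp hM

private theorem ADP_t4 {ι : Type} {U : Filter ι} {M : ι → Matrix (Fin 4) (Fin 4) ℂ}
    {M0 : Matrix (Fin 4) (Fin 4) ℂ} (hM : Tendsto M U (𝓝 M0)) (h0 : M0.det ≠ 0)  :
    Tendsto (fun t => ((M t).det)⁻¹ • (M t).adjugate) U
        (𝓝 ((M0.det)⁻¹ • M0.adjugate)) := ((ADP_t2 hM).inv₀ h0).smul (ADP_t3 hM)

private theorem ADP_t5 (M0 : Matrix (Fin 4) (Fin 4) ℂ) : M0⁻¹ = (M0.det)⁻¹ • M0.adjugate := by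
  rw [Matrix.inv_def, Ring.inverse_eq_inv']

private theorem ADP_tendsto {ι : Type} {U : Filter ι} {M : ι → Matrix (Fin 4) (Fin 4) ℂ}
    {M0 : Matrix (Fin 4) (Fin 4) ℂ} (hM : Tendsto M U (𝓝 M0)) (h0 : M0.det ≠ 0)
    {x : ι → Fin 4 → ℂ} {x0 : Fin 4 → ℂ} (hx : Tendsto x U (𝓝 x0)) :
    Tendsto (fun t => (M t)⁻¹.mulVec (x t)) U (𝓝 (M0⁻¹.mulVec x0)) := by
  have h1 := ADP_t4 hM h0
  have h2 : Tendsto (fun t => (M t)⁻¹) U (𝓝 M0⁻¹) := by
    rw [ADP_t5 M0]
    exact h1.congr fun t => (ADP_t5 (M t)).symm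
  rw [tendsto_pi_nhds]
  intro i
  simp only [Matrix.mulVec, dotProduct]
  refine tendsto_finsetSum _ fun l _ => ?_
  exact ((tendsto_pi_nhds.1 ((tendsto_pi_nhds.1 h2) i)) l).mul ((tendsto_pi_nhds.1 hx) l)

theorem ADP {ι : Type} (U : Ultrafilter ι) (p q : ℕ) (x0 : Fin p → Fin q → Fin 4 → ℂ)
    (h0 : GridVec p q x0) (x : ι → Fin p → Fin q → Fin 4 → ℂ)
    (hx : ∀ k j, Tendsto (fun t => x t k j) U (𝓝 (x0 k j)))
    (k0 k1 : Fin p) (hk : k0 ≠ k1) (j0 j1 : Fin q) (hj : j0 ≠ j1) :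
    ∃ (M : ι → Matrix (Fin 4) (Fin 4) ℂ) (X : ι → Fin p → Fin q → Fin 4 → ℂ)
      (X0 : Fin p → Fin q → Fin 4 → ℂ) (η : Fin q → ℂ),
      (∀ᶠ t in (U : Filter ι), IsUnit (M t).det ∧ (∀ k j, (M t).mulVec (X t k j) = x t k j) ∧
        X t k0 j0 = ![1, 0, 0, 0] ∧ X t k0 j1 = ![0, 1, 0, 0]) ∧
      (∀ k j, Tendsto (fun t => X t k j) U (𝓝 (X0 k j))) ∧
      (∀ j, X0 k0 j 2 = 0 ∧ X0 k0 j 3 = 0) ∧ (∀ j, X0 k0 j ≠ 0) ∧
      Function.Injective η ∧
      (∀ k, k ≠ k0 → ∀ j, X0 k j 3 ≠ 0 ∧ X0 k j 2 = η j * X0 k j 3) ∧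
      (∀ j k k', k ≠ k0 → k' ≠ k0 → k ≠ k' → ∃ ν : ℂ, ν ≠ 0 ∧
        X0 k j 0 / X0 k j 3 - X0 k' j 0 / X0 k' j 3 = ν * X0 k0 j 0 ∧
        X0 k j 1 / X0 k j 3 - X0 k' j 1 / X0 k' j 3 = ν * X0 k0 j 1) := by
  have hother : ∀ j : Fin q, ∃ j', j ≠ j' := by
    intro j
    by_cases h : j = j0
    · exact ⟨j1, by rw [h]; exact hj⟩
    · exact ⟨j0, h⟩
  -- coordinates on the line `k1`
  have hab : ∀ j, ∃ a b : ℂ, a • x0 k1 j0 + b • x0 k1 j1 = x0 k1 j := fun j =>
    Submodule.mem_span_pair.1 (h0.col k1 j0 j1 j hj)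
  choose a b hab using hab
  have hdet : ∀ j j', j ≠ j' → a j * b j' - a j' * b j ≠ 0 := by
    intro j j' hjj h
    have h1 : a j' • x0 k1 j = a j • x0 k1 j' := by
      rw [← hab j, ← hab j', smul_add, smul_add, smul_smul, smul_smul, smul_smul, smul_smul,
        mul_comm (a j') (a j), show a j' * b j = a j * b j' by linear_combination -h]
    have h2 := ADP_pair2 h0 hk.symm hjj h1
    have h3 : b j' • x0 k1 j = b j • x0 k1 j' := by
      rw [← hab j, ← hab j', smul_add, smul_add, smul_smul, smul_smul, smul_smul, smul_smul,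
        show b j' * a j = b j * a j' by linear_combination h, mul_comm (b j') (b j)]
    have h4 := ADP_pair2 h0 hk.symm hjj h3
    have h5 : x0 k1 j = 0 := by rw [← hab j, h2.2, h4.2]; simp
    have h6 := ADP_pair2 h0 hk.symm hjj (c := 1) (c' := 0) (by simp [h5])
    exact one_ne_zero h6.1
  have hab0 : ∀ j, a j = 0 → b j ≠ 0 := by
    intro j ha hb
    obtain ⟨j', hj'⟩ := hother j
    exact hdet j j' hj' (by rw [ha, hb]; ring)
  obtain ⟨s, hs⟩ : ∃ s : ℂ, ∀ j, b j - a j * s ≠ 0 := by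
    obtain ⟨s, hs⟩ := Infinite.exists_notMem_finset (Finset.univ.image fun j => b j / a j)
    refine ⟨s, fun j h => ?_⟩
    by_cases ha : a j = 0
    · exact hab0 j ha (by rw [ha] at h; simpa using h)
    · apply hs
      rw [Finset.mem_image]
      exact ⟨j, Finset.mem_univ _, by field_simp; linear_combination h⟩
  set e3 : Fin 4 → ℂ := x0 k1 j0 + s • x0 k1 j1 with he3
  set e4 : Fin 4 → ℂ := x0 k1 j1 with he4
  set M : ι → Matrix (Fin 4) (Fin 4) ℂ := fun t => ADP_mat (x t k0 j0) (x t k0 j1) e3 e4 with hMdef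
  set M0 : Matrix (Fin 4) (Fin 4) ℂ := ADP_mat (x0 k0 j0) (x0 k0 j1) e3 e4 with hM0def
  have hM0 : M0.det ≠ 0 := by
    apply ADP_det
    rw [Fintype.linearIndependent_iff]
    intro g hg
    have h1 := Fintype.linearIndependent_iff.1 (h0.ind k0 k1 j0 j1 hk hj)
      ![g 0, g 1, g 2, g 2 * s + g 3] (by
        simp only [Fin.sum_univ_four] at hg ⊢
        rw [← hg]
        simp only [Matrix.cons_val_zero, Matrix.cons_val_one, Matrix.cons_val, he3, he4]
        module)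
    have h2 : g 0 = 0 := by simpa using h1 0
    have h3 : g 1 = 0 := by simpa using h1 1
    have h4 : g 2 = 0 := by simpa using h1 2
    have h5 : g 2 * s + g 3 = 0 := by simpa using h1 3
    rw [h4, zero_mul, zero_add] at h5
    intro i
    fin_cases i
    · exact h2
    · exact h3
    · exact h4
    · exact h5
  have hMt : Tendsto M U (𝓝 M0) := by
    refine ADP_t1 fun i l => ?_
    fin_cases l
    · exact (tendsto_pi_nhds.1 (hx k0 j0)) i
    · exact (tendsto_pi_nhds.1 (hx k0 j1)) i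
    · exact tendsto_const_nhds
    · exact tendsto_const_nhds
  have hdetev : ∀ᶠ t in (U : Filter ι), (M t).det ≠ 0 := by
    exact (ADP_t2 hMt).eventually_ne hM0
  set X : ι → Fin p → Fin q → Fin 4 → ℂ := fun t k j => (M t)⁻¹.mulVec (x t k j) with hXdef
  set X0 : Fin p → Fin q → Fin 4 → ℂ := fun k j => M0⁻¹.mulVec (x0 k j) with hX0def
  have hM0u : IsUnit M0.det := isUnit_iff_ne_zero.2 hM0
  -- coordinates of the limit
  have hXk0 : ∀ j, ∃ α β : ℂ, X0 k0 j = ![α, β, 0, 0] := by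
    intro j
    obtain ⟨α, β, hαβ⟩ := Submodule.mem_span_pair.1 (h0.col k0 j0 j1 j hj)
    refine ⟨α, β, ADP_inv hM0u ?_⟩
    rw [hM0def, ADP_mulVec, ← hαβ]
    module
  have hXk1 : ∀ j, X0 k1 j = ![0, 0, a j, b j - a j * s] := by
    intro j
    refine ADP_inv hM0u ?_
    rw [hM0def, ADP_mulVec, ← hab j, he3, he4]
    module
  have hX0ne : ∀ k j, X0 k j ≠ 0 := by
    intro k j h
    have h1 : x0 k j = 0 := by
      have h2 : M0.mulVec (X0 k j) = x0 k j := by
        rw [hX0def]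
        simp only [Matrix.mulVec_mulVec, Matrix.mul_nonsing_inv _ hM0u, Matrix.one_mulVec]
      rw [← h2, h, Matrix.mulVec_zero]
    obtain ⟨j', hj'⟩ := hother j
    have hother2 : ∃ k', k ≠ k' := by
      by_cases hh : k = k0
      · exact ⟨k1, by rw [hh]; exact hk⟩
      · exact ⟨k0, hh⟩
    obtain ⟨k', hk'⟩ := hother2
    have h6 := ADP_pair2 h0 hk' hj' (c := 1) (c' := 0) (by simp [h1])
    exact one_ne_zero h6.1
  -- other lines
  have hrow : ∀ k, k ≠ k0 → ∀ j, ∃ l m : ℂ, m ≠ 0 ∧ X0 k j = l • X0 k0 j + m • X0 k1 j ∧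
      x0 k j = l • x0 k0 j + m • x0 k1 j := by
    intro k hkk j
    obtain ⟨l, m, hlm⟩ := Submodule.mem_span_pair.1 (h0.row j k0 k1 k hk)
    refine ⟨l, m, ?_, ?_, hlm.symm⟩
    · intro hm
      obtain ⟨j', hj'⟩ := hother j
      have h1 := ADP_pair h0 hkk hj' (c := 1) (c' := l) (by
        rw [← hlm, hm]; simp)
      exact one_ne_zero h1.1
    · simp only [hX0def]
      rw [← hlm, Matrix.mulVec_add, Matrix.mulVec_smul, Matrix.mulVec_smul]
  refine ⟨M, X, X0, fun j => a j / (b j - a j * s), ?_, ?_, ?_, fun j => hX0ne k0 j, ?_, ?_, ?_⟩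
  · filter_upwards [hdetev] with t ht
    have hu : IsUnit (M t).det := isUnit_iff_ne_zero.2 ht
    refine ⟨hu, fun k j => ?_, ADP_inv hu ?_, ADP_inv hu ?_⟩
    · simp only [hXdef, Matrix.mulVec_mulVec, Matrix.mul_nonsing_inv _ hu, Matrix.one_mulVec]
    · rw [hMdef, ADP_mulVec]
      simp
    · rw [hMdef, ADP_mulVec]
      simp
  · intro k j
    exact ADP_tendsto hMt hM0 (hx k j)
  · intro j
    obtain ⟨α, β, h⟩ := hXk0 j
    rw [h]
    exact ⟨rfl, rfl⟩
  · intro j j' hjj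
    by_contra hne
    have h1 : a j / (b j - a j * s) = a j' / (b j' - a j' * s) := hjj
    rw [div_eq_div_iff (hs j) (hs j')] at h1
    exact hdet j j' hne (by linear_combination h1)
  · intro k hkk j
    obtain ⟨l, m, hm, h1, -⟩ := hrow k hkk j
    obtain ⟨α, β, h2⟩ := hXk0 j
    have h3 : X0 k j 3 = m * (b j - a j * s) := by
      rw [h1, hXk1 j, h2]; simp
    have h4 : X0 k j 2 = m * a j := by
      rw [h1, hXk1 j, h2]; simp
    refine ⟨?_, ?_⟩
    · rw [h3]; exact mul_ne_zero hm (hs j)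
    · rw [h3, h4]
      have := hs j
      field_simp
  · intro j k k' hkk hkk' hne
    obtain ⟨l, m, hm, h1, h1'⟩ := hrow k hkk j
    obtain ⟨l', m', hm', h2, h2'⟩ := hrow k' hkk' j
    obtain ⟨α, β, h3⟩ := hXk0 j
    have hsj := hs j
    have e1 : X0 k j 3 = m * (b j - a j * s) := by
      rw [h1, hXk1 j, h3]; simp
    have e2 : X0 k' j 3 = m' * (b j - a j * s) := by
      rw [h2, hXk1 j, h3]; simp
    have e3' : X0 k j 0 = l * X0 k0 j 0 := by
      rw [h1, hXk1 j]; simp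
    have e4' : X0 k' j 0 = l' * X0 k0 j 0 := by
      rw [h2, hXk1 j]; simp
    have e5 : X0 k j 1 = l * X0 k0 j 1 := by
      rw [h1, hXk1 j]; simp
    have e6 : X0 k' j 1 = l' * X0 k0 j 1 := by
      rw [h2, hXk1 j]; simp
    refine ⟨(l / m - l' / m') / (b j - a j * s), ?_, ?_, ?_⟩
    · intro h0'
      rw [div_eq_zero_iff] at h0'
      rcases h0' with h0' | h0'
      · have h5 : m' * l = m * l' := by
          field_simp at h0'
          linear_combination h0'
        obtain ⟨j', hj'⟩ := hother j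
        have h6 := ADP_pair h0 hne hj' (c := m') (c' := m) (by
          rw [h1', h2', smul_add, smul_add, smul_smul, smul_smul, smul_smul, smul_smul, h5,
            mul_comm m' m])
        exact hm h6.2
      · exact hsj h0'
    · rw [e1, e2, e3', e4']
      field_simp
    · rw [e1, e2, e5, e6]
      field_simp

end Pool.Agent.H3.GP

end S_H3_GP_ADP

section S_H3_GP_PER

/-!
# PER (MP_87ed0a_ag): choosing a general centre near a given one

PROOF. (A) Density: for `D : MvPolynomial (Fin n) ℂ`, `D ≠ 0`, every `x` and `ρ > 0` there is `y`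
with `‖y i - x i‖ < ρ` for all `i` and `eval y D ≠ 0`: there is `y₀` with `eval y₀ D ≠ 0`
(`MvPolynomial.funext`), the univariate polynomial `s ↦ eval (x + s • (y₀ - x)) D`
(`MvPolynomial.aeval` into `Polynomial ℂ`, `x i ↦ C (x i) + X * C (y₀ i - x i)`) is nonzero (value
at 1), so it has finitely many roots; take a small real `s > 0` which is not a root.

(B) Let `P0 = ![1, τ, δ * α, δ * β]`.  The functions `P ↦ P 1 / P 0`, `P ↦ P 2 / (δ * P 0)`,
`P ↦ P 3 / (δ * P 0)` are continuous at `P0` with values `τ, α, β`.  By (A) applied to the `D` of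
`hG` choose `P` close to `P0` with `eval P D ≠ 0`, `P 0 ≠ 0` and these three values `τ', α', β'`
within `ε` of `τ, α, β`.  Then `P = P 0 • ![1, τ', δ * α', δ * β']` and the kernel of
`wp τ' α' β' δ` is `{x | x 1 = τ' x 0, x 2 = δ α' x 0, x 3 = δ β' x 0} = span {P}`.  Use `hG`.
-/

open MvPolynomial Filter Topology

namespace Pool.Agent.H3.GP

/-- density of the complement of a hypersurface -/
private theorem PER_dense {n : ℕ} (D : MvPolynomial (Fin n) ℂ) (hD : D ≠ 0) (x : Fin n → ℂ) :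
    ∃ y0 : Fin n → ℂ, ∀ᶠ s : ℝ in 𝓝[>] (0 : ℝ), eval (x + (s : ℂ) • (y0 - x)) D ≠ 0 := by
  obtain ⟨y0, hy⟩ : ∃ y0, eval y0 D ≠ 0 := by
    by_contra hcon
    push Not at hcon
    exact hD (MvPolynomial.funext fun x => by rw [hcon x, map_zero])
  refine ⟨y0, ?_⟩
  set p : Polynomial ℂ :=
    aeval (fun i => Polynomial.C (x i) + Polynomial.X * Polynomial.C (y0 i - x i)) D with hp
  have hpe : ∀ T : ℂ, p.eval T = eval (x + T • (y0 - x)) D := by
    intro T
    have h1 := MvPolynomial.map_aeval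
      (fun i => Polynomial.C (x i) + Polynomial.X * Polynomial.C (y0 i - x i))
      (Polynomial.evalRingHom T) D
    rw [← hp, Polynomial.coe_evalRingHom] at h1
    rw [h1]
    have h2 : (Polynomial.evalRingHom T).comp (algebraMap ℂ (Polynomial ℂ)) = RingHom.id ℂ := by
      ext x
      simp
    rw [h2]
    simp only [MvPolynomial.coe_eval₂Hom]
    rw [← MvPolynomial.eval₂_id]
    congr 1
    ext i
    simp only [Polynomial.eval_add, Polynomial.eval_mul, Polynomial.eval_C, Polynomial.eval_X,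
      Pi.add_apply, Pi.smul_apply, Pi.sub_apply, smul_eq_mul]
  have hp0 : p ≠ 0 := by
    intro h
    have h1 := hpe 1
    rw [h, Polynomial.eval_zero, one_smul, add_sub_cancel] at h1
    exact hy h1.symm
  have hfin : {s : ℝ | p.eval (s : ℂ) = 0}.Finite := by
    have h1 : {z : ℂ | p.eval z = 0}.Finite := by
      refine (p.roots.toFinset.finite_toSet).subset fun z hz => ?_
      simp only [Finset.mem_coe, Multiset.mem_toFinset]
      exact (Polynomial.mem_roots hp0).2 hz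
    exact h1.preimage (Complex.ofReal_injective.injOn)
  have h2 : ∀ᶠ s : ℝ in 𝓝[>] (0 : ℝ), s ∉ {s : ℝ | p.eval (s : ℂ) = 0} \ {0} := by
    have h3 : IsClosed ({s : ℝ | p.eval (s : ℂ) = 0} \ {0}) :=
      (hfin.subset Set.sdiff_subset).isClosed
    have h4 : ({s : ℝ | p.eval (s : ℂ) = 0} \ {0})ᶜ ∈ 𝓝 (0 : ℝ) :=
      h3.isOpen_compl.mem_nhds (by simp)
    exact nhdsWithin_le_nhds h4
  filter_upwards [h2, self_mem_nhdsWithin] with s hs hs0
  intro h
  apply hs
  refine ⟨?_, ?_⟩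
  · show p.eval (s : ℂ) = 0
    rw [hpe]
    exact h
  · simp only [Set.mem_singleton_iff]
    exact (ne_of_gt hs0)

theorem PER (k q : ℕ) {J : Type} (X : J → Fin 4 → ℂ) (hG : GenForm k q X)
    (δ : ℝ) (hδ : 0 < δ) (τ α β : ℂ) (ε : ℝ) (hε : 0 < ε) :
    ∃ τ' α' β' : ℂ, ‖τ' - τ‖ < ε ∧ ‖α' - α‖ < ε ∧ ‖β' - β‖ < ε ∧
      HasForm k q (fun j => wp τ' α' β' δ (X j)) := by
  obtain ⟨D, hD, hG⟩ := hG
  have hδc : (δ : ℂ) ≠ 0 := by exact_mod_cast hδ.ne'
  set P0 : Fin 4 → ℂ := ![1, τ, δ * α, δ * β] with hP0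
  obtain ⟨y0, hy0⟩ := PER_dense D hD P0
  -- the path
  have hpath : Tendsto (fun s : ℝ => P0 + (s : ℂ) • (y0 - P0)) (𝓝[>] 0) (𝓝 P0) := by
    have hc : Continuous (fun s : ℝ => P0 + (s : ℂ) • (y0 - P0)) := by
      have : Continuous (fun s : ℝ => (s : ℂ)) := Complex.continuous_ofReal
      fun_prop
    have h1 := hc.tendsto 0
    simp only [Complex.ofReal_zero, zero_smul, add_zero] at h1
    exact h1.mono_left nhdsWithin_le_nhds
  have hcoord := tendsto_pi_nhds.1 hpath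
  have h0 := hcoord 0
  have h1 := hcoord 1
  have h2 := hcoord 2
  have h3 := hcoord 3
  have e0 : P0 0 = 1 := rfl
  have e1 : P0 1 = τ := rfl
  have e2 : P0 2 = δ * α := rfl
  have e3 : P0 3 = δ * β := rfl
  have t1 := h1.div h0 (by rw [e0]; exact one_ne_zero)
  have t2 := h2.div (h0.const_mul (δ : ℂ)) (by rw [e0]; simpa using hδc)
  have t3 := h3.div (h0.const_mul (δ : ℂ)) (by rw [e0]; simpa using hδc)
  rw [e0, e1, div_one] at t1
  rw [e0, e2, mul_one, mul_div_cancel_left₀ _ hδc] at t2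
  rw [e0, e3, mul_one, mul_div_cancel_left₀ _ hδc] at t3
  have n0 : ∀ᶠ s : ℝ in 𝓝[>] (0 : ℝ), (P0 + (s : ℂ) • (y0 - P0)) 0 ≠ 0 :=
    h0.eventually_ne (by rw [e0]; exact one_ne_zero)
  have b1 := t1.eventually (Metric.ball_mem_nhds _ hε)
  have b2 := t2.eventually (Metric.ball_mem_nhds _ hε)
  have b3 := t3.eventually (Metric.ball_mem_nhds _ hε)
  obtain ⟨s, hs, n0, b1, b2, b3⟩ := (hy0.and (n0.and (b1.and (b2.and b3)))).exists
  set P : Fin 4 → ℂ := P0 + (s : ℂ) • (y0 - P0) with hP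
  refine ⟨P 1 / P 0, P 2 / (δ * P 0), P 3 / (δ * P 0), ?_, ?_, ?_, ?_⟩
  · rw [dist_eq_norm] at b1; exact b1
  · rw [dist_eq_norm] at b2; exact b2
  · rw [dist_eq_norm] at b3; exact b3
  · refine hG P hs (wp (P 1 / P 0) (P 2 / (δ * P 0)) (P 3 / (δ * P 0)) δ) ?_
    ext x
    rw [LinearMap.mem_ker, Submodule.mem_span_singleton]
    constructor
    · intro hx
      have g0 : P 1 / P 0 * x 0 - x 1 = 0 := congrFun hx 0
      have g1 : x 2 / δ - P 2 / (δ * P 0) * x 0 = 0 := congrFun hx 1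
      have g2 : x 3 / δ - P 3 / (δ * P 0) * x 0 = 0 := congrFun hx 2
      refine ⟨x 0 / P 0, ?_⟩
      ext i
      fin_cases i
      · simp only [Fin.zero_eta, Pi.smul_apply, smul_eq_mul]
        field_simp
      · simp only [Fin.mk_one, Pi.smul_apply, smul_eq_mul]
        field_simp at g0 ⊢
        linear_combination g0
      · simp only [Fin.reduceFinMk, Pi.smul_apply, smul_eq_mul]
        field_simp at g1 ⊢
        linear_combination -g1
      · simp only [Fin.reduceFinMk, Pi.smul_apply, smul_eq_mul]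
        field_simp at g2 ⊢
        linear_combination -g2
    · rintro ⟨c, rfl⟩
      have hw : wp (P 1 / P 0) (P 2 / (δ * P 0)) (P 3 / (δ * P 0)) δ (c • P) =
        ![P 1 / P 0 * (c • P) 0 - (c • P) 1, (c • P) 2 / δ - P 2 / (δ * P 0) * (c • P) 0,
          (c • P) 3 / δ - P 3 / (δ * P 0) * (c • P) 0] := rfl
      rw [hw]
      ext i
      fin_cases i
      · show P 1 / P 0 * (c * P 0) - c * P 1 = 0
        field_simp
        ring
      · show c * P 2 / δ - P 2 / (δ * P 0) * (c * P 0) = 0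
        field_simp
        ring
      · show c * P 3 / δ - P 3 / (δ * P 0) * (c * P 0) = 0
        field_simp
        ring

end Pool.Agent.H3.GP

end S_H3_GP_PER

section S_H3_GP_ZL

/-!
# ZL (MP_87ed0a_ag): the zoom lemma (Vandermonde)

PROOF. `q = 0` or `r = 0`: nothing to prove.  For `i < r` put `S t i m = (δ t)^i * c t i m` and
`σ t = max_{i < r, m} ‖S t i m‖` (a `Finset.sup'` or the sup norm of the function
`fun (i : Fin r) (m : Fin q) => S t i m` in the finite dimensional space `Fin r → Fin q → ℂ`).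

Claim: there is `C` with `∀ᶠ t in U, σ t ≤ C * (δ t)^r`.
Suppose not.  As `U` is an ultrafilter, for every `C : ℕ` we have `∀ᶠ t in U, C * (δ t)^r < σ t`
(`Ultrafilter.eventually_not`), so `σ t > 0` eventually and `(δ t)^r / σ t → 0` along `U`.
The functions `s t = (σ t)⁻¹ • S t : Fin r → Fin q → ℂ` have norm 1 eventually, so (closed ball
compact, `IsCompact.ultrafilter_le_nhds` for `U.map s`) they converge along `U` to some `s0` with
`‖s0‖ = 1`.  Fix `j, l`.  Dividing `hz` by `σ t` and splitting the sum over `i` into `i < r` and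
`i ≥ r`:
  `∑_{i<r} ∑_m s t i m * (u t j l)^i * (η t j l)^m
      + ∑_{i≥r} ∑_m c t i m * ((δ t)^i / σ t) * (u t j l)^i * (η t j l)^m = 0`,
and the second sum tends to 0 (`‖c‖ ≤ 1`, `u`, `η` converge, `(δ t)^i ≤ (δ t)^r` once `δ t ≤ 1`).
Hence `∑_{i<r} (∑_m s0 i m * (η0 j)^m) * (u0 j l)^i = 0` for all `l : Fin r`: a polynomial of
degree `< r` with the `r` distinct roots `u0 j l`, so `∑_m s0 i m * (η0 j)^m = 0` for all `i < r`
and all `j : Fin q` (Vandermonde: `Matrix.det_vandermonde_ne_zero_iff`, or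
`Polynomial.eq_zero_of_natDegree_lt_card_of_eval_eq_zero`); for fixed `i` this is a polynomial of
degree `< q` with the `q` distinct roots `η0 j`, so `s0 = 0`: contradiction with `‖s0‖ = 1`.

End: `‖c t i m‖ = ‖S t i m‖ / (δ t)^i ≤ C * (δ t)^(r-i) → 0` as `i < r`.

It may be convenient to work with `c` restricted to `Fin r` through `Fin.castLE`, or with
`Finset.range` sums.  Prefix auxiliary lemmas with `ZL_`.
-/

open Filter Topology

namespace Pool.Agent.H3.GP

private theorem ZL_van (n r : ℕ) (a : Fin n → ℂ) (ha : ∀ i : Fin n, r ≤ (i : ℕ) → a i = 0)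
    (x : Fin r → ℂ) (hx : Function.Injective x)
    (h : ∀ l, ∑ i : Fin n, a i * x l ^ (i : ℕ) = 0) (i : Fin n) : a i = 0 := by
  classical
  rcases Nat.eq_zero_or_pos r with hr | hr
  · exact ha i (by omega)
  set P : Polynomial ℂ := ∑ i : Fin n, Polynomial.C (a i) * Polynomial.X ^ (i : ℕ) with hP
  have hev : ∀ l, P.eval (x l) = 0 := by
    intro l
    rw [hP, Polynomial.eval_finsetSum, ← h l]
    refine Finset.sum_congr rfl fun i _ => ?_
    rw [Polynomial.eval_mul, Polynomial.eval_C, Polynomial.eval_pow, Polynomial.eval_X]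
  have hcoeff : ∀ i : Fin n, P.coeff (i : ℕ) = a i := by
    intro i
    rw [hP, Polynomial.finsetSum_coeff, Finset.sum_eq_single i]
    · rw [Polynomial.coeff_C_mul, Polynomial.coeff_X_pow, if_pos rfl, mul_one]
    · intro j _ hj
      rw [Polynomial.coeff_C_mul, Polynomial.coeff_X_pow, if_neg, mul_zero]
      intro h1
      exact hj (Fin.ext h1.symm)
    · intro h1
      exact absurd (Finset.mem_univ i) h1
  have hdeg : P.natDegree < Fintype.card (Fin r) := by
    rw [Fintype.card_fin]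
    have h1 : P.natDegree ≤ r - 1 := by
      rw [hP]
      refine Polynomial.natDegree_sum_le_of_forall_le _ _ fun j _ => ?_
      by_cases hj : r ≤ (j : ℕ)
      · rw [ha j hj, Polynomial.C_0, zero_mul, Polynomial.natDegree_zero]
        exact Nat.zero_le _
      · refine (Polynomial.natDegree_C_mul_X_pow_le _ _).trans ?_
        omega
    omega
  have h0 := Polynomial.eq_zero_of_natDegree_lt_card_of_eval_eq_zero P hx hev hdeg
  rw [← hcoeff i, h0, Polynomial.coeff_zero]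

/-- the low part of the coefficient array -/
private noncomputable def ZL_S (k q r : ℕ) (c : Fin (k + 1) → Fin q → ℂ) (d : ℝ) :
    Fin (k + 1) → Fin q → ℂ :=
  fun i m => if (i : ℕ) < r then c i m * (d : ℂ) ^ (i : ℕ) else 0

/-- the high part of the coefficient array -/
private noncomputable def ZL_T (k q r : ℕ) (c : Fin (k + 1) → Fin q → ℂ) (d : ℝ) :
    Fin (k + 1) → Fin q → ℂ :=
  fun i m => if (i : ℕ) < r then 0 else c i m * (d : ℂ) ^ (i : ℕ)

private theorem ZL_split (k q r : ℕ) (c : Fin (k + 1) → Fin q → ℂ) (d : ℝ) (u η : ℂ) :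
    av k q c ((d : ℂ) * u) η =
      ∑ i : Fin (k + 1), ∑ m : Fin q, ZL_S k q r c d i m * u ^ (i : ℕ) * η ^ (m : ℕ) +
      ∑ i : Fin (k + 1), ∑ m : Fin q, ZL_T k q r c d i m * u ^ (i : ℕ) * η ^ (m : ℕ) := by
  rw [av, ← Finset.sum_add_distrib]
  refine Finset.sum_congr rfl fun i _ => ?_
  rw [← Finset.sum_add_distrib]
  refine Finset.sum_congr rfl fun m _ => ?_
  rw [ZL_S, ZL_T]
  split_ifs with h
  · rw [mul_pow]; ring
  · rw [mul_pow]; ring

private theorem ZL_claim {ι : Type} (U : Ultrafilter ι) (k q r : ℕ)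
    (c : ι → Fin (k + 1) → Fin q → ℂ) (hc : ∀ t i m, ‖c t i m‖ ≤ 1)
    (δ : ι → ℝ) (hδ : ∀ t, 0 < δ t) (hδ0 : Tendsto δ U (𝓝 0))
    (u : ι → Fin q → Fin r → ℂ) (u0 : Fin q → Fin r → ℂ)
    (hu : ∀ j l, Tendsto (fun t => u t j l) U (𝓝 (u0 j l)))
    (hu0 : ∀ j, Function.Injective (u0 j))
    (η : ι → Fin q → Fin r → ℂ) (η0 : Fin q → ℂ)
    (hη : ∀ j l, Tendsto (fun t => η t j l) U (𝓝 (η0 j)))
    (hη0 : Function.Injective η0)
    (hz : ∀ᶠ t in (U : Filter ι), ∀ j l,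
      av k q (c t) ((δ t : ℂ) * u t j l) (η t j l) = 0) :
    ∃ K : ℝ, ∀ᶠ t in (U : Filter ι), ‖ZL_S k q r (c t) (δ t)‖ ≤ K * (δ t) ^ r := by
  by_contra hcon
  have hbig : ∀ K : ℝ, ∀ᶠ t in (U : Filter ι), K * (δ t) ^ r < ‖ZL_S k q r (c t) (δ t)‖ := by
    intro K
    filter_upwards [Ultrafilter.eventually_not.2 (fun h => hcon ⟨K, h⟩)] with t ht
    exact not_le.1 ht
  set σ : ι → ℝ := fun t => ‖ZL_S k q r (c t) (δ t)‖ with hσ
  have hσpos : ∀ᶠ t in (U : Filter ι), 0 < σ t := by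
    filter_upwards [hbig 0] with t ht
    rwa [zero_mul] at ht
  -- the ratio tends to zero
  have hratio : Tendsto (fun t => (δ t) ^ r / σ t) U (𝓝 0) := by
    rw [Metric.tendsto_nhds]
    intro ε hε
    filter_upwards [hbig (1 / ε), hσpos] with t ht hs
    rw [Real.dist_eq, sub_zero, abs_of_nonneg (div_nonneg (pow_nonneg (hδ t).le _) hs.le),
      div_lt_iff₀ hs]
    have h1 : (δ t) ^ r = ε * (1 / ε * (δ t) ^ r) := by
      field_simp
    rw [h1]
    exact mul_lt_mul_of_pos_left ht hε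
  -- the limit
  set s : ι → Fin (k + 1) → Fin q → ℂ := fun t => (σ t)⁻¹ • ZL_S k q r (c t) (δ t) with hs
  have hsn : ∀ᶠ t in (U : Filter ι), ‖s t‖ = 1 := by
    filter_upwards [hσpos] with t ht
    rw [hs]
    simp only
    rw [norm_smul, norm_inv, Real.norm_of_nonneg ht.le]
    exact inv_mul_cancel₀ ht.ne'
  obtain ⟨s0, _, hs0⟩ := (isCompact_closedBall (0 : Fin (k + 1) → Fin q → ℂ) 1).ultrafilter_le_nhds
    (U.map s) (by
      rw [Filter.le_principal_iff]
      show s ⁻¹' (Metric.closedBall 0 1) ∈ (U : Filter ι)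
      filter_upwards [hsn] with t ht
      rw [Set.mem_preimage, mem_closedBall_zero_iff, ht])
  have hlim : Tendsto s U (𝓝 s0) := hs0
  have hnorm : ‖s0‖ = 1 := by
    have h1 : Tendsto (fun t => ‖s t‖) U (𝓝 ‖s0‖) := hlim.norm
    have h2 : Tendsto (fun _ : ι => (1 : ℝ)) U (𝓝 1) := tendsto_const_nhds
    exact tendsto_nhds_unique (h1.congr' hsn) h2
  have hlim' : ∀ i m, Tendsto (fun t => s t i m) U (𝓝 (s0 i m)) := by
    intro i m
    exact (tendsto_pi_nhds.1 ((tendsto_pi_nhds.1 hlim) i)) m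
  have hhigh : ∀ i : Fin (k + 1), r ≤ (i : ℕ) → ∀ m, s0 i m = 0 := by
    intro i hi m
    have h1 : ∀ t, s t i m = 0 := by
      intro t
      rw [hs]
      simp only [Pi.smul_apply, ZL_S, if_neg (not_lt.2 hi), smul_zero]
    have h2 := hlim' i m
    simp only [h1] at h2
    exact (tendsto_nhds_unique h2 tendsto_const_nhds)
  -- the high part tends to zero
  have hT : ∀ i m, Tendsto (fun t => ((σ t)⁻¹ : ℝ) • ZL_T k q r (c t) (δ t) i m) U (𝓝 0) := by
    intro i m
    by_cases hi : (i : ℕ) < r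
    · have h1 : ∀ t, ((σ t)⁻¹ : ℝ) • ZL_T k q r (c t) (δ t) i m = 0 := by
        intro t
        rw [ZL_T, if_pos hi, smul_zero]
      simp only [h1]
      exact tendsto_const_nhds
    · refine squeeze_zero_norm' ?_ hratio
      have hδ1 : ∀ᶠ t in (U : Filter ι), δ t ≤ 1 := by
        have := hδ0.eventually (gt_mem_nhds (show (0 : ℝ) < 1 by norm_num))
        filter_upwards [this] with t ht
        exact ht.le
      filter_upwards [hσpos, hδ1] with t ht ht1
      rw [ZL_T, if_neg hi, norm_smul, norm_inv, Real.norm_of_nonneg ht.le, norm_mul, norm_pow,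
        Complex.norm_of_nonneg (hδ t).le, div_eq_inv_mul]
      refine mul_le_mul_of_nonneg_left ?_ (inv_nonneg.2 ht.le)
      calc ‖c t i m‖ * (δ t) ^ (i : ℕ) ≤ 1 * (δ t) ^ r :=
            mul_le_mul (hc t i m) (pow_le_pow_of_le_one (hδ t).le ht1 (not_lt.1 hi))
              (pow_nonneg (hδ t).le _) zero_le_one
        _ = (δ t) ^ r := one_mul _
  -- the limit equations
  have heq : ∀ j l, ∑ i : Fin (k + 1), ∑ m : Fin q,
      s0 i m * (u0 j l) ^ (i : ℕ) * (η0 j) ^ (m : ℕ) = 0 := by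
    intro j l
    have h1 : Tendsto (fun t => ∑ i : Fin (k + 1), ∑ m : Fin q,
        s t i m * (u t j l) ^ (i : ℕ) * (η t j l) ^ (m : ℕ)) U
        (𝓝 (∑ i : Fin (k + 1), ∑ m : Fin q, s0 i m * (u0 j l) ^ (i : ℕ) * (η0 j) ^ (m : ℕ))) := by
      refine tendsto_finsetSum _ fun i _ => tendsto_finsetSum _ fun m _ => ?_
      exact ((hlim' i m).mul ((hu j l).pow _)).mul ((hη j l).pow _)
    have h2 : Tendsto (fun t => ∑ i : Fin (k + 1), ∑ m : Fin q,
        ((σ t)⁻¹ : ℝ) • ZL_T k q r (c t) (δ t) i m * (u t j l) ^ (i : ℕ) * (η t j l) ^ (m : ℕ)) U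
        (𝓝 (∑ i : Fin (k + 1), ∑ m : Fin q, 0 * (u0 j l) ^ (i : ℕ) * (η0 j) ^ (m : ℕ))) := by
      refine tendsto_finsetSum _ fun i _ => tendsto_finsetSum _ fun m _ => ?_
      exact ((hT i m).mul ((hu j l).pow _)).mul ((hη j l).pow _)
    have h3 := h1.add h2
    have h4 : ∀ᶠ t in (U : Filter ι), (∑ i : Fin (k + 1), ∑ m : Fin q,
        s t i m * (u t j l) ^ (i : ℕ) * (η t j l) ^ (m : ℕ)) + (∑ i : Fin (k + 1), ∑ m : Fin q,
        ((σ t)⁻¹ : ℝ) • ZL_T k q r (c t) (δ t) i m * (u t j l) ^ (i : ℕ) * (η t j l) ^ (m : ℕ)) =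
        0 := by
      filter_upwards [hz] with t ht
      have h5 := ht j l
      rw [ZL_split k q r] at h5
      have h6 : (((σ t)⁻¹ : ℝ) : ℂ) * (∑ i : Fin (k + 1), ∑ m : Fin q,
          ZL_S k q r (c t) (δ t) i m * (u t j l) ^ (i : ℕ) * (η t j l) ^ (m : ℕ) +
          ∑ i : Fin (k + 1), ∑ m : Fin q,
          ZL_T k q r (c t) (δ t) i m * (u t j l) ^ (i : ℕ) * (η t j l) ^ (m : ℕ)) = 0 := by
        rw [h5, mul_zero]
      rw [mul_add, Finset.mul_sum, Finset.mul_sum] at h6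
      rw [← h6]
      congr 1
      · refine Finset.sum_congr rfl fun i _ => ?_
        rw [Finset.mul_sum]
        refine Finset.sum_congr rfl fun m _ => ?_
        rw [hs]
        simp only [Pi.smul_apply, Complex.real_smul]
        ring
      · refine Finset.sum_congr rfl fun i _ => ?_
        rw [Finset.mul_sum]
        refine Finset.sum_congr rfl fun m _ => ?_
        simp only [Complex.real_smul]
        ring
    have h7 : Tendsto (fun _ : ι => (0 : ℂ)) U (𝓝 0) := tendsto_const_nhds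
    have h8 := tendsto_nhds_unique (h3.congr' h4) h7
    simp only [zero_mul, Finset.sum_const_zero, add_zero] at h8
    exact h8
  -- the first Vandermonde argument
  have hV1 : ∀ j i, ∑ m : Fin q, s0 i m * (η0 j) ^ (m : ℕ) = 0 := by
    intro j i
    refine ZL_van (k + 1) r (fun i => ∑ m : Fin q, s0 i m * (η0 j) ^ (m : ℕ)) ?_ (u0 j) (hu0 j)
      ?_ i
    · intro i hi
      refine Finset.sum_eq_zero fun m _ => ?_
      rw [hhigh i hi m, zero_mul]
    · intro l
      rw [← heq j l]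
      refine Finset.sum_congr rfl fun i _ => ?_
      rw [Finset.sum_mul]
      refine Finset.sum_congr rfl fun m _ => ?_
      ring
  have hV2 : ∀ i m, s0 i m = 0 := by
    intro i m
    exact ZL_van q q (fun m => s0 i m) (fun m hm => absurd m.2 (not_lt.2 hm)) η0 hη0
      (fun j => hV1 j i) m
  have hzero : s0 = 0 := by
    funext i m
    exact hV2 i m
  rw [hzero, norm_zero] at hnorm
  exact zero_ne_one hnorm

theorem ZL {ι : Type} (U : Ultrafilter ι) (k q r : ℕ) (hrk : r ≤ k)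
    (c : ι → Fin (k + 1) → Fin q → ℂ) (hc : ∀ t i m, ‖c t i m‖ ≤ 1)
    (δ : ι → ℝ) (hδ : ∀ t, 0 < δ t) (hδ0 : Tendsto δ U (𝓝 0))
    (u : ι → Fin q → Fin r → ℂ) (u0 : Fin q → Fin r → ℂ)
    (hu : ∀ j l, Tendsto (fun t => u t j l) U (𝓝 (u0 j l)))
    (hu0 : ∀ j, Function.Injective (u0 j))
    (η : ι → Fin q → Fin r → ℂ) (η0 : Fin q → ℂ)
    (hη : ∀ j l, Tendsto (fun t => η t j l) U (𝓝 (η0 j)))
    (hη0 : Function.Injective η0)
    (hz : ∀ᶠ t in (U : Filter ι), ∀ j l,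
      av k q (c t) ((δ t : ℂ) * u t j l) (η t j l) = 0)
    (i : Fin (k + 1)) (m : Fin q) (hi : (i : ℕ) < r) :
    Tendsto (fun t => c t i m) U (𝓝 0) := by
  obtain ⟨K, hK⟩ := ZL_claim U k q r c hc δ hδ hδ0 u u0 hu hu0 η η0 hη hη0 hz
  have h1 : Tendsto (fun t => K * (δ t) ^ (r - (i : ℕ))) U (𝓝 0) := by
    have h2 := (hδ0.pow (r - (i : ℕ))).const_mul K
    rwa [zero_pow (by omega), mul_zero] at h2
  refine squeeze_zero_norm' ?_ h1
  filter_upwards [hK] with t ht
  have h2 : ‖ZL_S k q r (c t) (δ t) i m‖ ≤ ‖ZL_S k q r (c t) (δ t)‖ :=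
    (norm_le_pi_norm (ZL_S k q r (c t) (δ t) i) m).trans (norm_le_pi_norm _ i)
  rw [ZL_S, if_pos hi, norm_mul, norm_pow, Complex.norm_of_nonneg (hδ t).le] at h2
  have h3 := h2.trans ht
  have h4 : (δ t) ^ r = (δ t) ^ (r - (i : ℕ)) * (δ t) ^ (i : ℕ) := by
    rw [← pow_add, Nat.sub_add_cancel hi.le]
  rw [h4, ← mul_assoc] at h3
  exact le_of_mul_le_mul_right h3 (pow_pos (hδ t) _)

end Pool.Agent.H3.GP

end S_H3_GP_ZL

section S_H3_GP_AR

/-!
# AR (MP_87ed0a_ag): ternary forms as coefficient arrays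

PROOF. Let `e i m : Fin 3 →₀ ℕ` be the exponent vector with entries `(i, m, k - i - m)` and
`c' i m = if i + m ≤ k then coeff (e i m) f else 0` for `i : Fin (k+1)`, `m : Fin q`.
As `f` is homogeneous of degree `k` and `degreeOf 1 f < q`, every `d ∈ f.support` is `e i m` for a
unique pair `(i, m)` with `i = d 0 ≤ k`, `m = d 1 < q`, `d 2 = k - i - m`
(`MvPolynomial.monomial_le_degreeOf`, `IsHomogeneous`: `d 0 + d 1 + d 2 = k`); hence for all
`v y₁ y₂`
  `eval ![v, y₁, y₂] f = ∑ i, ∑ m, c' i m * v ^ i * y₁ ^ m * y₂ ^ (k - i - m)`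
(`MvPolynomial.eval_eq'`, reindex the sum over the support; or prove it for monomials and add).
Since `f ≠ 0` some `c' i m ≠ 0`.  Let `μ = max ‖c' i m‖ > 0` and `c = c' / μ`.
-/

open MvPolynomial

namespace Pool.Agent.H3.GP

private noncomputable def AR_e (k i m : ℕ) : Fin 3 →₀ ℕ :=
  Finsupp.single 0 i + Finsupp.single 1 m + Finsupp.single 2 (k - i - m)

private theorem AR_e0 (k i m : ℕ) : AR_e k i m 0 = i := by simp [AR_e]
private theorem AR_e1 (k i m : ℕ) : AR_e k i m 1 = m := by simp [AR_e]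
private theorem AR_e2 (k i m : ℕ) : AR_e k i m 2 = k - i - m := by simp [AR_e]

theorem AR (k q : ℕ) (f : MvPolynomial (Fin 3) ℂ) (hf : f.IsHomogeneous k)
    (hd : f.degreeOf 1 < q) (h0 : f ≠ 0) :
    ∃ c : Fin (k + 1) → Fin q → ℂ, (∀ i m, ‖c i m‖ ≤ 1) ∧ (∃ i m, ‖c i m‖ = 1) ∧
      (∀ (i : Fin (k + 1)) (m : Fin q), k < (i : ℕ) + (m : ℕ) → c i m = 0) ∧
      ∀ v y₁ y₂ : ℂ, eval ![v, y₁, y₂] f = 0 →
        ∑ i : Fin (k + 1), ∑ m : Fin q,
          c i m * v ^ (i : ℕ) * y₁ ^ (m : ℕ) * y₂ ^ (k - (i : ℕ) - (m : ℕ)) = 0 := by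
  classical
  have hq : 0 < q := lt_of_le_of_lt (Nat.zero_le _) hd
  -- exponents in the support
  have hsupp : ∀ d ∈ f.support, d 0 + d 1 + d 2 = k ∧ d 1 < q := by
    intro d hd'
    have h1 : d.degree = k := by
      have := hf (mem_support_iff.1 hd')
      rw [Finsupp.degree_eq_weight_one (R := ℕ)]
      exact this
    have h2 : d.degree = d 0 + d 1 + d 2 := by
      rw [Finsupp.degree_eq_sum, Fin.sum_univ_three]
    refine ⟨by omega, ?_⟩
    exact lt_of_le_of_lt (monomial_le_degreeOf 1 hd') hd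
  have hde : ∀ d ∈ f.support, d = AR_e k (d 0) (d 1) := by
    intro d hd'
    obtain ⟨h1, -⟩ := hsupp d hd'
    ext i
    fin_cases i
    · simp [AR_e0]
    · simp [AR_e1]
    · simp only [Fin.reduceFinMk, AR_e2]
      omega
  set c' : Fin (k + 1) → Fin q → ℂ := fun i m =>
    if (i : ℕ) + (m : ℕ) ≤ k then coeff (AR_e k i m) f else 0 with hc'
  have hne : ∃ i m, c' i m ≠ 0 := by
    obtain ⟨d, hd'⟩ := MvPolynomial.ne_zero_iff.1 h0
    have hds : d ∈ f.support := mem_support_iff.2 hd'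
    obtain ⟨h1, h2⟩ := hsupp d hds
    refine ⟨⟨d 0, by omega⟩, ⟨d 1, h2⟩, ?_⟩
    simp only [hc']
    rw [if_pos (by omega), ← hde d hds]
    exact hd'
  -- evaluation
  have heval : ∀ v y₁ y₂ : ℂ, eval ![v, y₁, y₂] f = ∑ i : Fin (k + 1), ∑ m : Fin q,
      c' i m * v ^ (i : ℕ) * y₁ ^ (m : ℕ) * y₂ ^ (k - (i : ℕ) - (m : ℕ)) := by
    intro v y₁ y₂
    rw [MvPolynomial.eval_eq', ← Fintype.sum_prod_type']
    have h1 : ∀ d ∈ f.support, coeff d f * ∏ i, ![v, y₁, y₂] i ^ d i =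
        coeff d f * v ^ (d 0) * y₁ ^ (d 1) * y₂ ^ (d 2) := by
      intro d _
      rw [Fin.prod_univ_three]
      simp only [Matrix.cons_val_zero, Matrix.cons_val_one, Matrix.cons_val]
      ring
    rw [Finset.sum_congr rfl h1]
    refine Finset.sum_of_injOn (fun d => ((⟨min (d 0) k, by omega⟩ : Fin (k + 1)),
      (⟨min (d 1) (q - 1), by omega⟩ : Fin q))) ?_ ?_ ?_ ?_
    · intro d hd1 d' hd2 h
      simp only [Finset.mem_coe] at hd1 hd2
      obtain ⟨h3, h4⟩ := hsupp d hd1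
      obtain ⟨h5, h6⟩ := hsupp d' hd2
      simp only [Prod.mk.injEq, Fin.mk.injEq] at h
      ext i
      fin_cases i
      · simp only [Fin.zero_eta]; omega
      · simp only [Fin.mk_one]; omega
      · simp only [Fin.reduceFinMk]; omega
    · intro d _
      simp
    · rintro ⟨i, m⟩ - hnot
      by_cases him : (i : ℕ) + (m : ℕ) ≤ k
      · have h3 : coeff (AR_e k i m) f = 0 := by
          by_contra hne0
          apply hnot
          refine ⟨AR_e k i m, mem_support_iff.2 hne0, ?_⟩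
          have hi := i.2
          have hm := m.2
          ext
          · simp only [AR_e0]; omega
          · simp only [AR_e1]; omega
        simp only [hc', if_pos him, h3]
        ring
      · simp only [hc', if_neg him]
        ring
    · intro d hd1
      obtain ⟨h3, h4⟩ := hsupp d hd1
      simp only [hc']
      have e0 : min (d 0) k = d 0 := by omega
      have e1 : min (d 1) (q - 1) = d 1 := by omega
      simp only [e0, e1]
      rw [if_pos (by omega), ← hde d hd1, show k - d 0 - d 1 = d 2 by omega]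
  -- normalise
  obtain ⟨i0, m0, him0⟩ := hne
  obtain ⟨⟨i1, m1⟩, -, hmax⟩ := Finset.exists_max_image (Finset.univ : Finset (Fin (k + 1) × Fin q))
    (fun im => ‖c' im.1 im.2‖) ⟨(i0, m0), Finset.mem_univ _⟩
  set μ : ℝ := ‖c' i1 m1‖ with hμ
  have hμ0 : 0 < μ := lt_of_lt_of_le (norm_pos_iff.2 him0) (hmax (i0, m0) (Finset.mem_univ _))
  refine ⟨fun i m => c' i m / (μ : ℂ), ?_, ⟨i1, m1, ?_⟩, ?_, ?_⟩
  · intro i m
    rw [norm_div, Complex.norm_real, Real.norm_of_nonneg hμ0.le, div_le_one hμ0]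
    exact hmax (i, m) (Finset.mem_univ _)
  · rw [norm_div, Complex.norm_real, Real.norm_of_nonneg hμ0.le, ← hμ, div_self hμ0.ne']
  · intro i m h
    simp only [hc']
    rw [if_neg (by omega), zero_div]
  · intro v y₁ y₂ h
    have h1 := heval v y₁ y₂
    rw [h] at h1
    have h2 : ∑ i : Fin (k + 1), ∑ m : Fin q,
        c' i m / (μ : ℂ) * v ^ (i : ℕ) * y₁ ^ (m : ℕ) * y₂ ^ (k - (i : ℕ) - (m : ℕ)) =
        (∑ i : Fin (k + 1), ∑ m : Fin q,
        c' i m * v ^ (i : ℕ) * y₁ ^ (m : ℕ) * y₂ ^ (k - (i : ℕ) - (m : ℕ))) / (μ : ℂ) := by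
      rw [Finset.sum_div]
      refine Finset.sum_congr rfl fun i _ => ?_
      rw [Finset.sum_div]
      refine Finset.sum_congr rfl fun m _ => ?_
      ring
    rw [h2, ← h1, zero_div]

end Pool.Agent.H3.GP

end S_H3_GP_AR

section S_H3_GP_ZC

/-!
# ZC (MP_87ed0a_ag): the limit form

PROOF. For the `t` in the set of `hH` choose the array `c t` of `AR` (for the other `t` any array
with entries bounded by 1, e.g. the same formula with a default; `Filter.Eventually.choice`).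
Bounded entries, `U` ultrafilter: `c t i m → c0 i m` for all `i, m`
(`IsCompact.ultrafilter_le_nhds` in closed balls).  `∃ i m, ‖c t i m‖ = 1` for eventually all `t`,
finitely many pairs, `U` ultrafilter: some pair `(i, m)` works for eventually all `t`
(`Ultrafilter.eventually_exists_iff`/`Ultrafilter.finite...`, or: if all `c0 i m` were 0 then
`∑ ‖c t i m‖ → 0`, contradiction with `≥ 1`); so `c0 ≠ 0`.  Also `c0 i m = 0` if `k < i + m`.

Far points: for `k' ≠ k0` and `j` write `x = X t k' j`,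
`wp (τ t) (α t) (β t) (δ t) x = (v, y₁, y₂)`, `y₂ = (x 3 - δ β x 0) / δ`.  As
`x 3 - δ β x 0 → X0 k' j 3 ≠ 0`, eventually `y₂ ≠ 0`, and dividing the array equation by `y₂ ^ k`
(`c i m = 0` unless `i + m ≤ k`, and then
`v^i y₁^m y₂^(k-i-m) / y₂^k = (v/y₂)^i (y₁/y₂)^m`):
`av k q (c t) (δ * ũ) η̃ = 0` with `ũ = (τ x 0 - x 1) / (x 3 - δ β x 0)`,
`η̃ = (x 2 - δ α x 0) / (x 3 - δ β x 0)`.  These converge to
`(τ0 * X0 k' j 0 - X0 k' j 1) / X0 k' j 3` and `X0 k' j 2 / X0 k' j 3 = η j`.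
Apply `ZL` with `r' = min k r` far lines `l ↦ k0.succAbove (Fin.castLE _ l)`
(injective, never `k0`): `c0 i m = 0` for all `i < r'`.

Near points: for `k' = k0` the array equation at `(v, y₁, y₂) = wp .. (X t k0 j)` has the limit
`∑ i, ∑ m, c0 i m * V^i * Y₁^m * Y₂^(k-i-m) = 0` with `V = τ0 X0 k0 j 0 - X0 k0 j 1 ≠ 0`,
`Y₁ = w j 0 - α0 X0 k0 j 0`, `Y₂ = w j 1 - β0 X0 k0 j 0`.

If `k ≤ r` then `r' = k`, only `i = k`, `m = 0` is left: `c0 k 0 * V ^ k = 0` (use one `j`,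
`q ≥ 2`), so `c0 = 0`, contradiction.  So `k = r + 1`, `r' = r`, and only the terms
`(i, m) = (r, 0), (r, 1), (r+1, 0)` are left; dividing by `V ^ r` gives the statement with
`c = ![c0 (r+1) 0, c0 r 1, c0 r 0] ≠ 0`.
-/

open Filter Topology

namespace Pool.Agent.H3.GP

/-- scaling of the array equation -/
private theorem ZC_scale (k q : ℕ) (c : Fin (k + 1) → Fin q → ℂ)
    (h1 : ∀ (i : Fin (k + 1)) (m : Fin q), k < (i : ℕ) + (m : ℕ) → c i m = 0)
    (u η y v z : ℂ) (hy : y ≠ 0) (hv : v = u * y) (hz : z = η * y)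
    (h : ∑ i : Fin (k + 1), ∑ m : Fin q,
      c i m * v ^ (i : ℕ) * z ^ (m : ℕ) * y ^ (k - (i : ℕ) - (m : ℕ)) = 0) :
    av k q c u η = 0 := by
  have h2 : ∑ i : Fin (k + 1), ∑ m : Fin q,
      c i m * v ^ (i : ℕ) * z ^ (m : ℕ) * y ^ (k - (i : ℕ) - (m : ℕ))
        = av k q c u η * y ^ k := by
    unfold av
    rw [Finset.sum_mul]
    refine Finset.sum_congr rfl fun i _ => ?_
    rw [Finset.sum_mul]
    refine Finset.sum_congr rfl fun m _ => ?_
    by_cases him : k < (i : ℕ) + (m : ℕ)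
    · rw [h1 i m him]
      simp
    · have e : y ^ k = y ^ (i : ℕ) * y ^ (m : ℕ) * y ^ (k - (i : ℕ) - (m : ℕ)) := by
        rw [← pow_add, ← pow_add]
        congr 1
        omega
      rw [e, hv, hz, mul_pow, mul_pow]
      ring
  rw [h2] at h
  exact (mul_eq_zero.mp h).resolve_right (pow_ne_zero _ hy)

private theorem ZC_array (k q : ℕ) {J : Type} (y : J → Fin 3 → ℂ) :
    ∃ c : Fin (k + 1) → Fin q → ℂ, (∀ i m, ‖c i m‖ ≤ 1) ∧ (HasForm k q y →
      (∃ i m, ‖c i m‖ = 1) ∧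
      (∀ (i : Fin (k + 1)) (m : Fin q), k < (i : ℕ) + (m : ℕ) → c i m = 0) ∧
      ∀ j, ∑ i : Fin (k + 1), ∑ m : Fin q,
          c i m * (y j 0) ^ (i : ℕ) * (y j 1) ^ (m : ℕ) * (y j 2) ^ (k - (i : ℕ) - (m : ℕ)) = 0) := by
  by_cases h : HasForm k q y
  · obtain ⟨f, h0, hf, hd, hz⟩ := h
    obtain ⟨c, h1, h2, h3, h4⟩ := AR k q f hf hd h0
    refine ⟨c, h1, fun _ => ⟨h2, h3, fun j => h4 _ _ _ ?_⟩⟩
    have e : (![y j 0, y j 1, y j 2] : Fin 3 → ℂ) = y j := by
      ext i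
      fin_cases i <;> rfl
    rw [e]
    exact hz j
  · exact ⟨0, by simp, fun h' => absurd h' h⟩

private theorem ZC_alg1 (k q : ℕ) (hq : 2 ≤ q) (c : Fin (k + 1) → Fin q → ℂ)
    (h1 : ∀ (i : Fin (k + 1)) (m : Fin q), k < (i : ℕ) + (m : ℕ) → c i m = 0)
    (h2 : ∀ (i : Fin (k + 1)) (m : Fin q), (i : ℕ) < k → c i m = 0)
    (V Y₁ Y₂ : ℂ) (hV : V ≠ 0)
    (h : ∑ i : Fin (k + 1), ∑ m : Fin q,
      c i m * V ^ (i : ℕ) * Y₁ ^ (m : ℕ) * Y₂ ^ (k - (i : ℕ) - (m : ℕ)) = 0) : c = 0 := by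
  obtain ⟨q', rfl⟩ : ∃ q', q = q' + 1 := ⟨q - 1, by omega⟩
  rw [Fin.sum_univ_castSucc] at h
  have e1 : ∑ i : Fin k, ∑ m : Fin (q' + 1),
      c i.castSucc m * V ^ ((i.castSucc : Fin (k + 1)) : ℕ) * Y₁ ^ (m : ℕ) *
        Y₂ ^ (k - ((i.castSucc : Fin (k + 1)) : ℕ) - (m : ℕ)) = 0 := by
    refine Finset.sum_eq_zero fun i _ => Finset.sum_eq_zero fun m _ => ?_
    rw [h2 i.castSucc m (by simp)]
    simp
  rw [e1, zero_add, Fin.sum_univ_succ] at h
  have e2 : ∑ m : Fin q', c (Fin.last k) m.succ * V ^ ((Fin.last k : Fin (k + 1)) : ℕ) *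
      Y₁ ^ ((m.succ : Fin (q' + 1)) : ℕ) *
        Y₂ ^ (k - ((Fin.last k : Fin (k + 1)) : ℕ) - ((m.succ : Fin (q' + 1)) : ℕ)) = 0 := by
    refine Finset.sum_eq_zero fun m _ => ?_
    rw [h1 (Fin.last k) m.succ (by simp)]
    simp
  rw [e2, add_zero] at h
  have h3 : c (Fin.last k) 0 = 0 := by
    simp only [Fin.val_last, Fin.val_zero, pow_zero, mul_one, Nat.sub_self] at h
    exact (mul_eq_zero.mp h).resolve_right (pow_ne_zero _ hV)
  funext i m
  by_cases hi : (i : ℕ) < k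
  · exact h2 i m hi
  · have hi' : i = Fin.last k := by
      apply Fin.ext
      have := i.2
      simp only [Fin.val_last]
      omega
    by_cases hm : (m : ℕ) = 0
    · have hm' : m = 0 := Fin.ext hm
      rw [hi', hm', h3]
      rfl
    · exact h1 i m (by rw [hi', Fin.val_last]; omega)

private theorem ZC_alg2 (r q : ℕ) (hq : 2 ≤ q) {J : Type} (c : Fin (r + 1 + 1) → Fin q → ℂ)
    (h1 : ∀ (i : Fin (r + 1 + 1)) (m : Fin q), r + 1 < (i : ℕ) + (m : ℕ) → c i m = 0)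
    (h2 : ∀ (i : Fin (r + 1 + 1)) (m : Fin q), (i : ℕ) < r → c i m = 0)
    (V Y₁ Y₂ : J → ℂ) (hV : ∀ j, V j ≠ 0) (hne : c ≠ 0)
    (h : ∀ j, ∑ i : Fin (r + 1 + 1), ∑ m : Fin q,
      c i m * V j ^ (i : ℕ) * Y₁ j ^ (m : ℕ) * Y₂ j ^ (r + 1 - (i : ℕ) - (m : ℕ)) = 0) :
    ∃ c' : Fin 3 → ℂ, c' ≠ 0 ∧ ∀ j, c' 0 * V j + c' 1 * Y₁ j + c' 2 * Y₂ j = 0 := by
  obtain ⟨q', rfl⟩ : ∃ q', q = q' + 1 + 1 := ⟨q - 2, by omega⟩
  refine ⟨![c (Fin.last (r + 1)) 0, c (Fin.last r).castSucc 1, c (Fin.last r).castSucc 0],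
    ?_, ?_⟩
  · intro h0
    apply hne
    have a0 : c (Fin.last (r + 1)) 0 = 0 := congrFun h0 0
    have a1 : c (Fin.last r).castSucc 1 = 0 := congrFun h0 1
    have a2 : c (Fin.last r).castSucc 0 = 0 := congrFun h0 2
    funext i m
    by_cases hi : (i : ℕ) < r
    · exact h2 i m hi
    by_cases hi1 : (i : ℕ) = r
    · have hi' : i = (Fin.last r).castSucc := Fin.ext (by simp [hi1])
      by_cases hm0 : (m : ℕ) = 0
      · have hm' : m = 0 := Fin.ext hm0
        rw [hi', hm', a2]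
        rfl
      by_cases hm1 : (m : ℕ) = 1
      · have hm' : m = 1 := Fin.ext (by rw [hm1, Fin.val_one])
        rw [hi', hm', a1]
        rfl
      exact h1 i m (by omega)
    · have hi' : i = Fin.last (r + 1) := by
        apply Fin.ext
        have := i.2
        simp only [Fin.val_last]
        omega
      by_cases hm0 : (m : ℕ) = 0
      · have hm' : m = 0 := Fin.ext hm0
        rw [hi', hm', a0]
        rfl
      exact h1 i m (by rw [hi', Fin.val_last]; omega)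
  · intro j
    have hj := h j
    rw [Fin.sum_univ_castSucc, Fin.sum_univ_castSucc] at hj
    have e1 : ∑ i : Fin r, ∑ m : Fin (q' + 1 + 1),
        c i.castSucc.castSucc m * V j ^ ((i.castSucc.castSucc : Fin (r + 1 + 1)) : ℕ) *
          Y₁ j ^ (m : ℕ) *
          Y₂ j ^ (r + 1 - ((i.castSucc.castSucc : Fin (r + 1 + 1)) : ℕ) - (m : ℕ)) = 0 := by
      refine Finset.sum_eq_zero fun i _ => Finset.sum_eq_zero fun m _ => ?_
      rw [h2 i.castSucc.castSucc m (by simp)]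
      simp
    rw [e1, zero_add, Fin.sum_univ_succ, Fin.sum_univ_succ, Fin.sum_univ_succ] at hj
    have e2 : ∑ m : Fin q', c (Fin.last r).castSucc m.succ.succ *
        V j ^ (((Fin.last r).castSucc : Fin (r + 1 + 1)) : ℕ) *
        Y₁ j ^ ((m.succ.succ : Fin (q' + 1 + 1)) : ℕ) *
          Y₂ j ^ (r + 1 - (((Fin.last r).castSucc : Fin (r + 1 + 1)) : ℕ)
            - ((m.succ.succ : Fin (q' + 1 + 1)) : ℕ)) = 0 := by
      refine Finset.sum_eq_zero fun m _ => ?_
      rw [h1 (Fin.last r).castSucc m.succ.succ (by simp)]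
      simp
    have e3 : ∑ m : Fin (q' + 1), c (Fin.last (r + 1)) m.succ *
        V j ^ ((Fin.last (r + 1) : Fin (r + 1 + 1)) : ℕ) *
        Y₁ j ^ ((m.succ : Fin (q' + 1 + 1)) : ℕ) *
          Y₂ j ^ (r + 1 - ((Fin.last (r + 1) : Fin (r + 1 + 1)) : ℕ)
            - ((m.succ : Fin (q' + 1 + 1)) : ℕ)) = 0 := by
      refine Finset.sum_eq_zero fun m _ => ?_
      rw [h1 (Fin.last (r + 1)) m.succ (by simp)]
      simp
    rw [e2, e3] at hj
    have e4 : r + 1 - r - 0 = 1 := by omega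
    have e5 : r + 1 - r - 1 = 0 := by omega
    simp only [Fin.val_castSucc, Fin.val_last, Fin.val_zero, Fin.val_one, pow_zero, mul_one,
      add_zero, Nat.sub_self, e4, e5, pow_one, Fin.succ_zero_eq_one] at hj
    show c (Fin.last (r + 1)) 0 * V j + c (Fin.last r).castSucc 1 * Y₁ j +
      c (Fin.last r).castSucc 0 * Y₂ j = 0
    have hV' := pow_ne_zero r (hV j)
    apply mul_left_cancel₀ hV'
    rw [mul_zero]
    linear_combination hj

theorem ZC {ι : Type} (U : Ultrafilter ι) (r q k : ℕ) (hk : k ≤ r + 1) (hq : 2 ≤ q)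
    (k0 : Fin (r + 1))
    (X : ι → Fin (r + 1) → Fin q → Fin 4 → ℂ) (X0 : Fin (r + 1) → Fin q → Fin 4 → ℂ)
    (δ : ι → ℝ) (hδ : ∀ t, 0 < δ t) (hδ0 : Tendsto δ U (𝓝 0))
    (τ α β : ι → ℂ) (τ0 α0 β0 : ℂ) (hτ : Tendsto τ U (𝓝 τ0)) (hα : Tendsto α U (𝓝 α0))
    (hβ : Tendsto β U (𝓝 β0))
    (w : Fin q → Fin 2 → ℂ)
    (hX : ∀ k' j i, Tendsto (fun t => X t k' j i) U (𝓝 (X0 k' j i)))
    (hw2 : ∀ j, Tendsto (fun t => X t k0 j 2 / (δ t : ℂ)) U (𝓝 (w j 0)))
    (hw3 : ∀ j, Tendsto (fun t => X t k0 j 3 / (δ t : ℂ)) U (𝓝 (w j 1)))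
    (hs : ∀ j, τ0 * X0 k0 j 0 - X0 k0 j 1 ≠ 0)
    (η : Fin q → ℂ) (hη : Function.Injective η)
    (hf3 : ∀ k', k' ≠ k0 → ∀ j, X0 k' j 3 ≠ 0)
    (hf2 : ∀ k', k' ≠ k0 → ∀ j, X0 k' j 2 = η j * X0 k' j 3)
    (hfd : ∀ j k' k'', k' ≠ k0 → k'' ≠ k0 → k' ≠ k'' →
      (τ0 * X0 k' j 0 - X0 k' j 1) / X0 k' j 3 ≠ (τ0 * X0 k'' j 0 - X0 k'' j 1) / X0 k'' j 3)
    (hH : ∀ᶠ t in (U : Filter ι), HasForm k q
      (fun kj : Fin (r + 1) × Fin q => wp (τ t) (α t) (β t) (δ t) (X t kj.1 kj.2))) :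
    k = r + 1 ∧ ∃ c : Fin 3 → ℂ, c ≠ 0 ∧ ∀ j,
      c 0 * (τ0 * X0 k0 j 0 - X0 k0 j 1) + c 1 * (w j 0 - α0 * X0 k0 j 0)
        + c 2 * (w j 1 - β0 * X0 k0 j 0) = 0 := by
  choose c hc1 hc2 using fun t => ZC_array k q
    (fun kj : Fin (r + 1) × Fin q => wp (τ t) (α t) (β t) (δ t) (X t kj.1 kj.2))
  have hP := hH.mono fun t ht => hc2 t ht
  clear hc2
  have hball : ∀ t, c t ∈ Metric.closedBall (0 : Fin (k + 1) → Fin q → ℂ) 1 := by
    intro t
    rw [mem_closedBall_zero_iff, pi_norm_le_iff_of_nonneg zero_le_one]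
    intro i
    rw [pi_norm_le_iff_of_nonneg zero_le_one]
    exact hc1 t i
  obtain ⟨c0, -, hc0⟩ := (isCompact_closedBall (0 : Fin (k + 1) → Fin q → ℂ) 1).ultrafilter_le_nhds
    (U.map c) (by
      rw [le_principal_iff]
      exact Filter.mem_map.2 (Filter.Eventually.of_forall hball))
  have hlim : ∀ i m, Tendsto (fun t => c t i m) U (𝓝 (c0 i m)) := by
    have h : Tendsto c U (𝓝 c0) := hc0
    exact fun i m => tendsto_pi_nhds.1 (tendsto_pi_nhds.1 h i) m
  have hne : c0 ≠ 0 := by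
    intro h
    have h1 : ∀ᶠ t in (U : Filter ι), ∀ i m, ‖c t i m‖ < 1 := by
      rw [eventually_all]
      intro i
      rw [eventually_all]
      intro m
      have h2 := (hlim i m).norm
      rw [h] at h2
      simp only [Pi.zero_apply, norm_zero] at h2
      exact h2.eventually (gt_mem_nhds one_pos)
    obtain ⟨t, ht1, ht2⟩ := (h1.and hP).exists
    obtain ⟨i, m, him⟩ := ht2.1
    exact absurd him (ne_of_lt (ht1 i m))
  have hbig : ∀ (i : Fin (k + 1)) (m : Fin q), k < (i : ℕ) + (m : ℕ) → c0 i m = 0 := by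
    intro i m him
    refine tendsto_nhds_unique (hlim i m) ?_
    refine (tendsto_const_nhds (x := (0 : ℂ))).congr' ?_
    exact hP.mono fun t ht => (ht.2.1 i m him).symm
  have hδc : Tendsto (fun t => (δ t : ℂ)) U (𝓝 0) := by
    have := (Complex.continuous_ofReal.tendsto 0).comp hδ0
    rwa [Complex.ofReal_zero] at this
  have hδc0 : ∀ t, (δ t : ℂ) ≠ 0 := fun t => by
    exact_mod_cast (hδ t).ne'
  -- far points
  have hD : ∀ k' j, Tendsto (fun t => X t k' j 3 - (δ t : ℂ) * β t * X t k' j 0) U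
      (𝓝 (X0 k' j 3)) := by
    intro k' j
    have := (hX k' j 3).sub ((hδc.mul hβ).mul (hX k' j 0))
    simpa using this
  have hN : ∀ k' j, Tendsto (fun t => X t k' j 2 - (δ t : ℂ) * α t * X t k' j 0) U
      (𝓝 (X0 k' j 2)) := by
    intro k' j
    have := (hX k' j 2).sub ((hδc.mul hα).mul (hX k' j 0))
    simpa using this
  have hM : ∀ k' j, Tendsto (fun t => τ t * X t k' j 0 - X t k' j 1) U
      (𝓝 (τ0 * X0 k' j 0 - X0 k' j 1)) := fun k' j => (hτ.mul (hX k' j 0)).sub (hX k' j 1)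
  have hsmall : ∀ (i : Fin (k + 1)) (m : Fin q), (i : ℕ) < min k r → c0 i m = 0 := by
    intro i m hi
    refine tendsto_nhds_unique (hlim i m) ?_
    set K : Fin (min k r) → Fin (r + 1) := fun l =>
      k0.succAbove (Fin.castLE (min_le_right k r) l) with hK
    have hKne : ∀ l, K l ≠ k0 := fun l => Fin.succAbove_ne k0 _
    have hKinj : Function.Injective K := by
      intro l l' h
      exact Fin.castLE_injective _ (Fin.succAbove_right_injective h)
    refine ZL U k q (min k r) (min_le_left k r) c hc1 δ hδ hδ0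
      (fun t j l => (τ t * X t (K l) j 0 - X t (K l) j 1) /
        (X t (K l) j 3 - (δ t : ℂ) * β t * X t (K l) j 0))
      (fun j l => (τ0 * X0 (K l) j 0 - X0 (K l) j 1) / X0 (K l) j 3)
      (fun j l => (hM (K l) j).div (hD (K l) j) (hf3 _ (hKne l) j))
      ?_
      (fun t j l => (X t (K l) j 2 - (δ t : ℂ) * α t * X t (K l) j 0) /
        (X t (K l) j 3 - (δ t : ℂ) * β t * X t (K l) j 0))
      η ?_ hη ?_ i m hi
    · intro j l l' h
      by_contra hll
      exact hfd j (K l) (K l') (hKne l) (hKne l') (fun h' => hll (hKinj h')) h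
    · intro j l
      have h1 := (hN (K l) j).div (hD (K l) j) (hf3 _ (hKne l) j)
      rwa [hf2 _ (hKne l) j, mul_div_cancel_right₀ _ (hf3 _ (hKne l) j)] at h1
    · rw [eventually_all]
      intro j
      rw [eventually_all]
      intro l
      have h1 : ∀ᶠ t in (U : Filter ι),
          X t (K l) j 3 - (δ t : ℂ) * β t * X t (K l) j 0 ≠ 0 :=
        (hD (K l) j).eventually_ne (hf3 _ (hKne l) j)
      filter_upwards [h1, hP] with t ht1 ht2
      have h2 := ht2.2.2 (K l, j)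
      refine ZC_scale k q (c t) ht2.2.1 _ _ _ _ _ ?_ ?_ ?_ h2
      · show X t (K l) j 3 / (δ t : ℂ) - β t * X t (K l) j 0 ≠ 0
        intro h3
        apply ht1
        have h4 : X t (K l) j 3 - (δ t : ℂ) * β t * X t (K l) j 0
            = (δ t : ℂ) * (X t (K l) j 3 / (δ t : ℂ) - β t * X t (K l) j 0) := by
          field_simp [hδc0 t]
        rw [h4, h3, mul_zero]
      · show τ t * X t (K l) j 0 - X t (K l) j 1 = (δ t : ℂ) *
          ((τ t * X t (K l) j 0 - X t (K l) j 1) /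
            (X t (K l) j 3 - (δ t : ℂ) * β t * X t (K l) j 0)) *
          (X t (K l) j 3 / (δ t : ℂ) - β t * X t (K l) j 0)
        have h4 : X t (K l) j 3 / (δ t : ℂ) - β t * X t (K l) j 0 =
            (X t (K l) j 3 - (δ t : ℂ) * β t * X t (K l) j 0) / (δ t : ℂ) := by
          field_simp [hδc0 t]
        rw [h4]
        generalize X t (K l) j 3 - (δ t : ℂ) * β t * X t (K l) j 0 = D at ht1 ⊢
        have := hδc0 t
        field_simp
      · show X t (K l) j 2 / (δ t : ℂ) - α t * X t (K l) j 0 =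
          (X t (K l) j 2 - (δ t : ℂ) * α t * X t (K l) j 0) /
            (X t (K l) j 3 - (δ t : ℂ) * β t * X t (K l) j 0) *
          (X t (K l) j 3 / (δ t : ℂ) - β t * X t (K l) j 0)
        have h4 : X t (K l) j 3 / (δ t : ℂ) - β t * X t (K l) j 0 =
            (X t (K l) j 3 - (δ t : ℂ) * β t * X t (K l) j 0) / (δ t : ℂ) := by
          field_simp [hδc0 t]
        rw [h4]
        generalize X t (K l) j 3 - (δ t : ℂ) * β t * X t (K l) j 0 = D at ht1 ⊢
        have := hδc0 t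
        field_simp
  -- near points
  have hnear : ∀ j, ∑ i : Fin (k + 1), ∑ m : Fin q,
      c0 i m * (τ0 * X0 k0 j 0 - X0 k0 j 1) ^ (i : ℕ) * (w j 0 - α0 * X0 k0 j 0) ^ (m : ℕ) *
        (w j 1 - β0 * X0 k0 j 0) ^ (k - (i : ℕ) - (m : ℕ)) = 0 := by
    intro j
    have h1 : Tendsto (fun t => ∑ i : Fin (k + 1), ∑ m : Fin q,
        c t i m * (τ t * X t k0 j 0 - X t k0 j 1) ^ (i : ℕ) *
          (X t k0 j 2 / (δ t : ℂ) - α t * X t k0 j 0) ^ (m : ℕ) *
          (X t k0 j 3 / (δ t : ℂ) - β t * X t k0 j 0) ^ (k - (i : ℕ) - (m : ℕ))) U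
        (𝓝 (∑ i : Fin (k + 1), ∑ m : Fin q,
          c0 i m * (τ0 * X0 k0 j 0 - X0 k0 j 1) ^ (i : ℕ) *
            (w j 0 - α0 * X0 k0 j 0) ^ (m : ℕ) *
            (w j 1 - β0 * X0 k0 j 0) ^ (k - (i : ℕ) - (m : ℕ)))) := by
      refine tendsto_finsetSum _ fun i _ => tendsto_finsetSum _ fun m _ => ?_
      exact (((hlim i m).mul ((hM k0 j).pow _)).mul
        (((hw2 j).sub (hα.mul (hX k0 j 0))).pow _)).mul
        (((hw3 j).sub (hβ.mul (hX k0 j 0))).pow _)
    refine tendsto_nhds_unique h1 ?_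
    refine (tendsto_const_nhds (x := (0 : ℂ))).congr' ?_
    exact hP.mono fun t ht => (ht.2.2 (k0, j)).symm
  rcases Nat.lt_or_ge r k with hrk | hrk
  · obtain rfl : k = r + 1 := by omega
    refine ⟨rfl, ?_⟩
    exact ZC_alg2 r q hq c0 hbig (fun i m hi => hsmall i m (by omega)) _ _ _ hs hne hnear
  · exfalso
    apply hne
    exact ZC_alg1 k q hq c0 hbig (fun i m hi => hsmall i m (by omega)) _ _ _
      (hs ⟨0, by omega⟩) (hnear ⟨0, by omega⟩)

end Pool.Agent.H3.GP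

end S_H3_GP_ZC

section S_H3_GP_ZG

/-!
# ZG (MP_87ed0a_ag): zooming at one line in adapted coordinates

PROOF. `‖X t k0 j 2 / δ t‖ ≤ 1` eventually and the same for `X t k0 j 3 / δ t`, so (ultrafilter,
compact closed ball) both converge along `U`; call the limits `w j 0`, `w j 1`.
Choose `τ0` with `τ0 * X0 k0 j 0 - X0 k0 j 1 ≠ 0` for all `j` (`X0 k0 j ≠ 0` and `hX0`, so the pair
`(X0 k0 j 0, X0 k0 j 1)` is nonzero: each `j` excludes at most one value of `τ0`; `ℂ` infinite).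
For ANY `α0 β0 : ℂ`: by `PER` (with `ε = δ t`) and `Filter.Eventually.choice` there are functions
`τ α β : ι → ℂ` with `‖τ t - τ0‖ < δ t` etc. and `HasForm` of the family
`wp (τ t) (α t) (β t) (δ t) (X t kj.1 kj.2)` for eventually all `t`; so they tend to
`τ0, α0, β0`.  `hfd` of `ZC` holds: the difference is `ν * (τ0 * X0 k0 j 0 - X0 k0 j 1) ≠ 0`.
So `ZC` applies and gives `k = r + 1` and `c ≠ 0` with
  `c 0 * (τ0 * X0 k0 j 0 - X0 k0 j 1) + c 1 * (w j 0 - α0 * X0 k0 j 0)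
       + c 2 * (w j 1 - β0 * X0 k0 j 0) = 0` for all `j`.                              (*)
The limits at `j0`: `X0 k0 j0 = ![1,0,0,0]`, `w j0 = 0`; at `j1`: `X0 k0 j1 = ![0,1,0,0]`,
`w j1 = 0`.
Suppose `w j ≠ 0` for some `j`.  Take `(α0, β0) = (- conj .. )` any pair with
`α0 * w j 1 - β0 * w j 0 ≠ 0` (e.g. `(1, 0)` or `(0, 1)`).  (*) at `j1`: `c 0 = 0`; at `j0`:
`c 1 * α0 + c 2 * β0 = 0`; at `j`: `c 1 * w j 0 + c 2 * w j 1 = 0`; the determinant is nonzero, so
`c = 0`, contradiction.  Hence all `w j = 0`.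
-/

open Filter Topology

namespace Pool.Agent.H3.GP

private theorem ZG_lim {ι : Type} (U : Ultrafilter ι) (f : ι → ℂ)
    (h : ∀ᶠ t in (U : Filter ι), ‖f t‖ ≤ 1) : ∃ w : ℂ, Tendsto f U (𝓝 w) := by
  obtain ⟨w, -, hw⟩ := (isCompact_closedBall (0 : ℂ) 1).ultrafilter_le_nhds (U.map f) (by
    rw [le_principal_iff]
    refine Filter.mem_map.2 (h.mono fun t ht => ?_)
    show f t ∈ Metric.closedBall (0 : ℂ) 1
    rwa [mem_closedBall_zero_iff])
  exact ⟨w, hw⟩

private theorem ZG_tau {q : ℕ} (a b : Fin q → ℂ) (h : ∀ j, a j = 0 → b j ≠ 0) :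
    ∃ τ : ℂ, ∀ j, τ * a j - b j ≠ 0 := by
  have h1 : ∀ j, {τ : ℂ | τ * a j - b j = 0}.Finite := by
    intro j
    by_cases ha : a j = 0
    · have : {τ : ℂ | τ * a j - b j = 0} = ∅ := by
        ext τ
        simp [ha, h j ha]
      rw [this]
      exact Set.finite_empty
    · refine Set.Finite.subset (Set.finite_singleton (b j / a j)) ?_
      intro τ hτ
      have h2 : τ * a j - b j = 0 := hτ
      show τ = b j / a j
      rw [eq_div_iff ha]
      linear_combination h2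
  have h2 := (Set.finite_iUnion h1).infinite_compl.nonempty
  obtain ⟨τ, hτ⟩ := h2
  refine ⟨τ, fun j hj => hτ ?_⟩
  exact Set.mem_iUnion.2 ⟨j, hj⟩

private theorem ZG_near {ι : Type} (U : Ultrafilter ι) (δ : ι → ℝ)
    (hδ0 : Tendsto δ U (𝓝 0)) (τ : ι → ℂ) (τ0 : ℂ) (h : ∀ t, ‖τ t - τ0‖ ≤ δ t) :
    Tendsto τ U (𝓝 τ0) := by
  rw [tendsto_iff_norm_sub_tendsto_zero]
  exact squeeze_zero (fun t => norm_nonneg _) h hδ0

private theorem ZG_choice (k q : ℕ) {J : Type} (X : J → Fin 4 → ℂ)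
    (δ : ℝ) (hδ : 0 < δ) (τ α β : ℂ) :
    ∃ τ' α' β' : ℂ, ‖τ' - τ‖ ≤ δ ∧ ‖α' - α‖ ≤ δ ∧ ‖β' - β‖ ≤ δ ∧
      (GenForm k q X → HasForm k q (fun j => wp τ' α' β' δ (X j))) := by
  by_cases hG : GenForm k q X
  · obtain ⟨τ', α', β', h1, h2, h3, h4⟩ := PER k q X hG δ hδ τ α β δ hδ
    exact ⟨τ', α', β', h1.le, h2.le, h3.le, fun _ => h4⟩
  · refine ⟨τ, α, β, ?_, ?_, ?_, fun h => absurd h hG⟩ <;> simpa using hδ.le

theorem ZG {ι : Type} (U : Ultrafilter ι) (r q k : ℕ) (hk : k ≤ r + 1) (hq : 2 ≤ q)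
    (k0 : Fin (r + 1))
    (X : ι → Fin (r + 1) → Fin q → Fin 4 → ℂ) (X0 : Fin (r + 1) → Fin q → Fin 4 → ℂ)
    (δ : ι → ℝ) (hδ : ∀ t, 0 < δ t) (hδ0 : Tendsto δ U (𝓝 0))
    (hX : ∀ k' j, Tendsto (fun t => X t k' j) U (𝓝 (X0 k' j)))
    (hX0 : ∀ j, X0 k0 j 2 = 0 ∧ X0 k0 j 3 = 0) (hne : ∀ j, X0 k0 j ≠ 0)
    (η : Fin q → ℂ) (hη : Function.Injective η)
    (hf : ∀ k', k' ≠ k0 → ∀ j, X0 k' j 3 ≠ 0 ∧ X0 k' j 2 = η j * X0 k' j 3)
    (hfd : ∀ j k' k'', k' ≠ k0 → k'' ≠ k0 → k' ≠ k'' → ∃ ν : ℂ, ν ≠ 0 ∧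
      X0 k' j 0 / X0 k' j 3 - X0 k'' j 0 / X0 k'' j 3 = ν * X0 k0 j 0 ∧
      X0 k' j 1 / X0 k' j 3 - X0 k'' j 1 / X0 k'' j 3 = ν * X0 k0 j 1)
    (j0 j1 : Fin q)
    (hj : ∀ᶠ t in (U : Filter ι), X t k0 j0 = ![1, 0, 0, 0] ∧ X t k0 j1 = ![0, 1, 0, 0])
    (hb : ∀ᶠ t in (U : Filter ι), ∀ j, ‖X t k0 j 2‖ ≤ δ t ∧ ‖X t k0 j 3‖ ≤ δ t)
    (hG : ∀ᶠ t in (U : Filter ι), GenForm k q (fun kj : Fin (r + 1) × Fin q => X t kj.1 kj.2)) :
    k = r + 1 ∧ ∀ j, Tendsto (fun t => X t k0 j 2 / (δ t : ℂ)) U (𝓝 0) ∧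
      Tendsto (fun t => X t k0 j 3 / (δ t : ℂ)) U (𝓝 0) := by
  have hXi : ∀ k' j i, Tendsto (fun t => X t k' j i) U (𝓝 (X0 k' j i)) :=
    fun k' j i => tendsto_pi_nhds.1 (hX k' j) i
  have hdiv : ∀ (t : ι) (x : ℂ), ‖x‖ ≤ δ t → ‖x / (δ t : ℂ)‖ ≤ 1 := by
    intro t x hx
    rw [norm_div, Complex.norm_real, Real.norm_of_nonneg (hδ t).le]
    exact (div_le_one (hδ t)).2 hx
  have hw2 : ∀ j, ∃ w : ℂ, Tendsto (fun t => X t k0 j 2 / (δ t : ℂ)) U (𝓝 w) := fun j =>
    ZG_lim U _ (hb.mono fun t ht => hdiv t _ (ht j).1)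
  have hw3 : ∀ j, ∃ w : ℂ, Tendsto (fun t => X t k0 j 3 / (δ t : ℂ)) U (𝓝 w) := fun j =>
    ZG_lim U _ (hb.mono fun t ht => hdiv t _ (ht j).2)
  choose w2 hw2 using hw2
  choose w3 hw3 using hw3
  obtain ⟨τ0, hτ0⟩ := ZG_tau (fun j => X0 k0 j 0) (fun j => X0 k0 j 1) (by
    intro j h0 h1
    apply hne j
    funext i
    fin_cases i
    · exact h0
    · exact h1
    · exact (hX0 j).1
    · exact (hX0 j).2)
  have key : ∀ α0 β0 : ℂ, k = r + 1 ∧ ∃ c : Fin 3 → ℂ, c ≠ 0 ∧ ∀ j,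
      c 0 * (τ0 * X0 k0 j 0 - X0 k0 j 1) + c 1 * (w2 j - α0 * X0 k0 j 0)
        + c 2 * (w3 j - β0 * X0 k0 j 0) = 0 := by
    intro α0 β0
    choose τ α β hτ hα hβ hH using fun t => ZG_choice k q
      (fun kj : Fin (r + 1) × Fin q => X t kj.1 kj.2) (δ t) (hδ t) τ0 α0 β0
    exact ZC U r q k hk hq k0 X X0 δ hδ hδ0 τ α β τ0 α0 β0 (ZG_near U δ hδ0 τ τ0 hτ)
      (ZG_near U δ hδ0 α α0 hα) (ZG_near U δ hδ0 β β0 hβ) (fun j => ![w2 j, w3 j]) hXi hw2 hw3
      hτ0 η hη (fun k' hk' j => (hf k' hk' j).1) (fun k' hk' j => (hf k' hk' j).2)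
      (by
        intro j k' k'' h1 h2 h3 h4
        obtain ⟨ν, hν, e1, e2⟩ := hfd j k' k'' h1 h2 h3
        apply mul_ne_zero hν (hτ0 j)
        rw [sub_div, sub_div, mul_div_assoc, mul_div_assoc] at h4
        linear_combination h4 - τ0 * e1 + e2)
      (hG.mono fun t ht => hH t ht)
  refine ⟨(key 0 0).1, ?_⟩
  -- limits at `j0`, `j1`
  have hj0 : X0 k0 j0 = ![1, 0, 0, 0] := by
    refine tendsto_nhds_unique (hX k0 j0) ?_
    exact tendsto_const_nhds.congr' (hj.mono fun t ht => ht.1.symm)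
  have hj1 : X0 k0 j1 = ![0, 1, 0, 0] := by
    refine tendsto_nhds_unique (hX k0 j1) ?_
    exact tendsto_const_nhds.congr' (hj.mono fun t ht => ht.2.symm)
  have z20 : w2 j0 = 0 := by
    refine tendsto_nhds_unique (hw2 j0) ?_
    exact tendsto_const_nhds.congr' (hj.mono fun t ht => by
      beta_reduce
      rw [ht.1]
      simp)
  have z30 : w3 j0 = 0 := by
    refine tendsto_nhds_unique (hw3 j0) ?_
    exact tendsto_const_nhds.congr' (hj.mono fun t ht => by
      beta_reduce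
      rw [ht.1]
      simp)
  have z21 : w2 j1 = 0 := by
    refine tendsto_nhds_unique (hw2 j1) ?_
    exact tendsto_const_nhds.congr' (hj.mono fun t ht => by
      beta_reduce
      rw [ht.2]
      simp)
  have z31 : w3 j1 = 0 := by
    refine tendsto_nhds_unique (hw3 j1) ?_
    exact tendsto_const_nhds.congr' (hj.mono fun t ht => by
      beta_reduce
      rw [ht.2]
      simp)
  have hdet : ∀ j (α0 β0 : ℂ), α0 * w3 j - β0 * w2 j = 0 := by
    intro j α0 β0
    by_contra hd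
    obtain ⟨-, c, hc, hcj⟩ := key α0 β0
    apply hc
    have a1 := hcj j1
    have a0 := hcj j0
    have a2 := hcj j
    rw [hj1, z21, z31] at a1
    rw [hj0, z20, z30] at a0
    simp only [Matrix.cons_val_zero, Matrix.cons_val_one, mul_zero, sub_zero, zero_sub, mul_one,
      add_zero, mul_neg, neg_eq_zero] at a1 a0
    rw [a1] at a0 a2
    have e1 : c 1 * α0 + c 2 * β0 = 0 := by linear_combination -a0
    have e2 : c 1 * w2 j + c 2 * w3 j = 0 := by linear_combination a2 + X0 k0 j 0 * e1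
    have e3 : c 1 = 0 := by
      have : c 1 * (α0 * w3 j - β0 * w2 j) = 0 := by linear_combination w3 j * e1 - β0 * e2
      exact (mul_eq_zero.mp this).resolve_right hd
    have e4 : c 2 = 0 := by
      have : c 2 * (α0 * w3 j - β0 * w2 j) = 0 := by linear_combination α0 * e2 - w2 j * e1
      exact (mul_eq_zero.mp this).resolve_right hd
    funext i
    fin_cases i
    · exact a1
    · exact e3
    · exact e4
  intro j
  have h1 := hdet j 1 0
  have h2 := hdet j 0 1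
  rw [one_mul, zero_mul, sub_zero] at h1
  rw [zero_mul, one_mul, zero_sub, neg_eq_zero] at h2
  refine ⟨?_, ?_⟩
  · rw [← h2]
    exact hw2 j
  · rw [← h1]
    exact hw3 j

end Pool.Agent.H3.GP

end S_H3_GP_ZG

section S_H3_GP_LIN

/-!
# LIN (MP_87ed0a_ag): the lines of the grid persist, and forms of smaller degree do not exist

PROOF of `LIN`. Suppose not; `U` is an ultrafilter, so eventually some
`x t k0 j ∉ span {x t k0 j0, x t k0 j1}`.  Choose `k1 ≠ k0` (`p ≥ 2`) and take `M, X, X0, η` from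
`ADP`.  Let `m t = max_j max ‖X t k0 j 2‖ ‖X t k0 j 3‖` (a `Finset.sup'` over `Fin q`, or the sum
`∑ j, (‖X t k0 j 2‖ + ‖X t k0 j 3‖)` which is simpler: then `‖X t k0 j 2‖ ≤ m t`, `m t → 0`).
If `m t = 0` then `X t k0 j = X t k0 j 0 • ![1,0,0,0] + X t k0 j 1 • ![0,1,0,0]` for all `j`, so
(apply `(M t).mulVec`) `x t k0 j ∈ span {x t k0 j0, x t k0 j1}`; hence `m t > 0` eventually.
`δ t = if 0 < m t then m t else 1`: positive, eventually equal to `m t`, tends to 0.
`GenForm p q` of the family `X t` holds eventually by `INV`.  With `p = r + 1` (obtain `r`; use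
`cases p` / `obtain ⟨r, rfl⟩`) `ZG` gives `X t k0 j 2 / δ t → 0`, `X t k0 j 3 / δ t → 0` for all `j`;
summing the norms over `j`, `m t / δ t → 0`, but it is eventually 1.  Contradiction.

PROOF of `EXC`. The same with `δ t = ε t + m t` (positive as `ε t > 0`, tends to 0,
`‖X t k0 j 2‖ ≤ δ t`), `k0 = 0`, `k1 = 1`, `j0 = 0`, `j1 = 1`; `ZG` with `k = c ≤ r` gives
`c = r + 1 = p`, contradiction.
-/

open Filter Topology

namespace Pool.Agent.H3.GP

private theorem LIN_m {ι : Type} (U : Ultrafilter ι) {p q : ℕ} (k0 : Fin p)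
    (X : ι → Fin p → Fin q → Fin 4 → ℂ) (X0 : Fin p → Fin q → Fin 4 → ℂ)
    (hX : ∀ k j, Tendsto (fun t => X t k j) U (𝓝 (X0 k j)))
    (hX0 : ∀ j, X0 k0 j 2 = 0 ∧ X0 k0 j 3 = 0) :
    Tendsto (fun t => ∑ j, (‖X t k0 j 2‖ + ‖X t k0 j 3‖)) U (𝓝 0) := by
  have h : ∀ j, Tendsto (fun t => ‖X t k0 j 2‖ + ‖X t k0 j 3‖) U
      (𝓝 (‖X0 k0 j 2‖ + ‖X0 k0 j 3‖)) := fun j =>
    ((tendsto_pi_nhds.1 (hX k0 j) 2).norm).add ((tendsto_pi_nhds.1 (hX k0 j) 3).norm)
  have h2 := tendsto_finset_sum Finset.univ fun j _ => h j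
  have h3 : ∑ j, (‖X0 k0 j 2‖ + ‖X0 k0 j 3‖) = 0 := Finset.sum_eq_zero fun j _ => by
    rw [(hX0 j).1, (hX0 j).2, norm_zero, add_zero]
  rwa [h3] at h2

private theorem LIN_le {q : ℕ} (Y : Fin q → Fin 4 → ℂ) (j : Fin q) :
    ‖Y j 2‖ + ‖Y j 3‖ ≤ ∑ j, (‖Y j 2‖ + ‖Y j 3‖) :=
  Finset.single_le_sum (f := fun j => ‖Y j 2‖ + ‖Y j 3‖)
    (fun j _ => add_nonneg (norm_nonneg _) (norm_nonneg _)) (Finset.mem_univ j)

private theorem LIN_span {q : ℕ} (M : Matrix (Fin 4) (Fin 4) ℂ) (Y y : Fin q → Fin 4 → ℂ)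
    (hM : ∀ j, M.mulVec (Y j) = y j) (j0 j1 : Fin q) (h0 : Y j0 = ![1, 0, 0, 0])
    (h1 : Y j1 = ![0, 1, 0, 0]) (j : Fin q) (h2 : Y j 2 = 0) (h3 : Y j 3 = 0) :
    y j ∈ Submodule.span ℂ {y j0, y j1} := by
  have e : Y j = Y j 0 • Y j0 + Y j 1 • Y j1 := by
    rw [h0, h1]
    funext i
    fin_cases i
    · simp
    · simp
    · simp [h2]
    · simp [h3]
  rw [← hM j, e, Matrix.mulVec_add, Matrix.mulVec_smul, Matrix.mulVec_smul, hM, hM]
  exact Submodule.mem_span_pair.2 ⟨_, _, rfl⟩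

private theorem LIN_gen {p q k : ℕ} (M : Matrix (Fin 4) (Fin 4) ℂ) (hM : IsUnit M.det)
    (X x : Fin p → Fin q → Fin 4 → ℂ) (h : ∀ k j, M.mulVec (X k j) = x k j)
    (hG : GenForm k q (fun kj : Fin p × Fin q => x kj.1 kj.2)) :
    GenForm k q (fun kj : Fin p × Fin q => X kj.1 kj.2) := by
  apply INV k q M hM
  have e : (fun kj : Fin p × Fin q => M.mulVec (X kj.1 kj.2)) = fun kj => x kj.1 kj.2 :=
    funext fun kj => h _ _
  exact e ▸ hG

theorem LIN {ι : Type} (U : Ultrafilter ι) (p q : ℕ) (hp : 2 ≤ p) (hq : 2 ≤ q)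
    (x0 : Fin p → Fin q → Fin 4 → ℂ) (h0 : GridVec p q x0)
    (x : ι → Fin p → Fin q → Fin 4 → ℂ)
    (hx : ∀ k j, Tendsto (fun t => x t k j) U (𝓝 (x0 k j)))
    (hG : ∀ᶠ t in (U : Filter ι), GenForm p q (fun kj : Fin p × Fin q => x t kj.1 kj.2))
    (k0 : Fin p) (j0 j1 : Fin q) (hj : j0 ≠ j1) :
    ∀ᶠ t in (U : Filter ι), ∀ j, x t k0 j ∈ Submodule.span ℂ {x t k0 j0, x t k0 j1} := by
  classical
  by_contra hcon
  rw [← Ultrafilter.eventually_not] at hcon
  obtain ⟨r, rfl⟩ : ∃ r, p = r + 1 := ⟨p - 1, by omega⟩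
  obtain ⟨k1, hk⟩ : ∃ k1 : Fin (r + 1), k0 ≠ k1 := by
    haveI : Nontrivial (Fin (r + 1)) := Fin.nontrivial_iff_two_le.2 hp
    obtain ⟨k1, hk⟩ := exists_ne k0
    exact ⟨k1, hk.symm⟩
  obtain ⟨M, X, X0, η, hMX, hX, hX0, hne, hη, hf, hfd⟩ := ADP U (r + 1) q x0 h0 x hx k0 k1 hk j0 j1 hj
  obtain ⟨m, hm⟩ : ∃ m : ι → ℝ, ∀ t, m t = ∑ j, (‖X t k0 j 2‖ + ‖X t k0 j 3‖) := ⟨_, fun _ => rfl⟩
  have hm0 : Tendsto m U (𝓝 0) := by
    rw [funext hm]
    exact LIN_m U k0 X X0 hX hX0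
  have hpos : ∀ᶠ t in (U : Filter ι), 0 < m t := by
    filter_upwards [hcon, hMX] with t h1 h2
    by_contra h3
    apply h1
    intro j
    have h4 := LIN_le (X t k0) j
    rw [← hm] at h4
    have h5 := norm_nonneg (X t k0 j 2)
    have h6 := norm_nonneg (X t k0 j 3)
    exact LIN_span (M t) (X t k0) (x t k0) (h2.2.1 k0) j0 j1 h2.2.2.1 h2.2.2.2 j
      (norm_eq_zero.1 (by linarith)) (norm_eq_zero.1 (by linarith))
  obtain ⟨δ, hδe⟩ : ∃ δ : ι → ℝ, ∀ t, δ t = if 0 < m t then m t else 1 := ⟨_, fun _ => rfl⟩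
  have hδ : ∀ t, 0 < δ t := by
    intro t
    rw [hδe]
    split_ifs with h
    · exact h
    · exact zero_lt_one
  have hδm : ∀ᶠ t in (U : Filter ι), m t = δ t := by
    filter_upwards [hpos] with t h
    rw [hδe, if_pos h]
  have hδ0 : Tendsto δ U (𝓝 0) := hm0.congr' hδm
  have hb : ∀ᶠ t in (U : Filter ι), ∀ j, ‖X t k0 j 2‖ ≤ δ t ∧ ‖X t k0 j 3‖ ≤ δ t := by
    filter_upwards [hδm] with t h j
    have h4 := LIN_le (X t k0) j
    rw [← hm, h] at h4
    have h5 := norm_nonneg (X t k0 j 2)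
    have h6 := norm_nonneg (X t k0 j 3)
    exact ⟨by linarith, by linarith⟩
  have hG' : ∀ᶠ t in (U : Filter ι),
      GenForm (r + 1) q (fun kj : Fin (r + 1) × Fin q => X t kj.1 kj.2) := by
    filter_upwards [hMX, hG] with t h1 h2
    exact LIN_gen (M t) h1.1 (X t) (x t) h1.2.1 h2
  obtain ⟨-, hlim⟩ := ZG U r q (r + 1) le_rfl hq k0 X X0 δ hδ hδ0 hX hX0 hne η hη hf hfd j0 j1
    (hMX.mono fun t h => h.2.2) hb hG'
  have h1 : Tendsto (fun t => ∑ j, (‖X t k0 j 2 / (δ t : ℂ)‖ + ‖X t k0 j 3 / (δ t : ℂ)‖)) U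
      (𝓝 (∑ _j : Fin q, (‖(0:ℂ)‖ + ‖(0:ℂ)‖))) :=
    tendsto_finset_sum Finset.univ fun j _ => ((hlim j).1.norm).add ((hlim j).2.norm)
  have h2 : (∑ _j : Fin q, (‖(0:ℂ)‖ + ‖(0:ℂ)‖)) = 0 := Finset.sum_eq_zero fun j _ => by
    rw [norm_zero, add_zero]
  rw [h2] at h1
  have h3 : ∀ᶠ t in (U : Filter ι),
      ∑ j, (‖X t k0 j 2 / (δ t : ℂ)‖ + ‖X t k0 j 3 / (δ t : ℂ)‖) = 1 := by
    filter_upwards [hδm] with t h
    have h4 : ∀ j, ‖X t k0 j 2 / (δ t : ℂ)‖ + ‖X t k0 j 3 / (δ t : ℂ)‖ =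
        (‖X t k0 j 2‖ + ‖X t k0 j 3‖) / δ t := by
      intro j
      rw [norm_div, norm_div, Complex.norm_real, Real.norm_of_nonneg (hδ t).le]
      ring
    rw [Finset.sum_congr rfl fun j _ => h4 j, ← Finset.sum_div, ← hm, h, div_self (hδ t).ne']
  have h4 : Tendsto (fun _ : ι => (1:ℝ)) U (𝓝 0) := h1.congr' h3
  exact one_ne_zero (tendsto_nhds_unique tendsto_const_nhds h4)

theorem EXC {ι : Type} (U : Ultrafilter ι) (p q c : ℕ) (hp : 2 ≤ p) (hq : 2 ≤ q) (hc : c < p)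
    (x0 : Fin p → Fin q → Fin 4 → ℂ) (h0 : GridVec p q x0)
    (x : ι → Fin p → Fin q → Fin 4 → ℂ)
    (hx : ∀ k j, Tendsto (fun t => x t k j) U (𝓝 (x0 k j)))
    (ε : ι → ℝ) (hε : ∀ t, 0 < ε t) (hε0 : Tendsto ε U (𝓝 0))
    (hG : ∀ᶠ t in (U : Filter ι), GenForm c q (fun kj : Fin p × Fin q => x t kj.1 kj.2)) :
    False := by
  classical
  obtain ⟨r, rfl⟩ : ∃ r, p = r + 1 := ⟨p - 1, by omega⟩
  obtain ⟨k0, k1, hk⟩ : ∃ k0 k1 : Fin (r + 1), k0 ≠ k1 := by
    haveI : Nontrivial (Fin (r + 1)) := Fin.nontrivial_iff_two_le.2 hp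
    exact exists_pair_ne _
  obtain ⟨j0, j1, hj⟩ : ∃ j0 j1 : Fin q, j0 ≠ j1 := by
    haveI : Nontrivial (Fin q) := Fin.nontrivial_iff_two_le.2 hq
    exact exists_pair_ne _
  obtain ⟨M, X, X0, η, hMX, hX, hX0, hne, hη, hf, hfd⟩ := ADP U (r + 1) q x0 h0 x hx k0 k1 hk j0 j1 hj
  obtain ⟨m, hm⟩ : ∃ m : ι → ℝ, ∀ t, m t = ∑ j, (‖X t k0 j 2‖ + ‖X t k0 j 3‖) := ⟨_, fun _ => rfl⟩
  have hm0 : Tendsto m U (𝓝 0) := by
    rw [funext hm]
    exact LIN_m U k0 X X0 hX hX0
  have hm1 : ∀ t, 0 ≤ m t := by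
    intro t
    rw [hm]
    exact Finset.sum_nonneg fun j _ => add_nonneg (norm_nonneg _) (norm_nonneg _)
  have hδ : ∀ t, 0 < ε t + m t := fun t => add_pos_of_pos_of_nonneg (hε t) (hm1 t)
  have hδ0 : Tendsto (fun t => ε t + m t) U (𝓝 0) := by
    have := hε0.add hm0
    rwa [add_zero] at this
  have hb : ∀ᶠ t in (U : Filter ι), ∀ j, ‖X t k0 j 2‖ ≤ ε t + m t ∧ ‖X t k0 j 3‖ ≤ ε t + m t := by
    apply Filter.Eventually.of_forall
    intro t j
    have h4 := LIN_le (X t k0) j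
    rw [← hm] at h4
    have h5 := norm_nonneg (X t k0 j 2)
    have h6 := norm_nonneg (X t k0 j 3)
    have h7 := hε t
    exact ⟨by linarith, by linarith⟩
  have hG' : ∀ᶠ t in (U : Filter ι),
      GenForm c q (fun kj : Fin (r + 1) × Fin q => X t kj.1 kj.2) := by
    filter_upwards [hMX, hG] with t h1 h2
    exact LIN_gen (M t) h1.1 (X t) (x t) h1.2.1 h2
  obtain ⟨hc', -⟩ := ZG U r q c hc.le hq k0 X X0 (fun t => ε t + m t) hδ hδ0 hX hX0 hne η hη hf hfd
    j0 j1 (hMX.mono fun t h => h.2.2) hb hG'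
  omega

end Pool.Agent.H3.GP

end S_H3_GP_LIN

section S_H3_GP_INF

/-!
# INF (MP_87ed0a_ag): plane curves have infinitely many points

PROOF. If `F = 0` the set is everything: infinite (the points `[1 : s : 0]`, `s ∈ ℂ`, are pairwise
different).  If `F ≠ 0` there is `e` with `eval e F ≠ 0` (`MvPolynomial.funext`), `e ≠ 0` because
`k ≥ 1`.  Choose `v₀ v₁` with `e, v₀, v₁` linearly independent.  For `s : ℂ` let
`v = v₀ + s • v₁`; the univariate polynomial `T ↦ eval (T • e + v) F` has the coefficient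
`eval e F ≠ 0` at `T ^ k` and degree `k ≥ 1` (homogeneity; or: it is not constant, because
`T^{-k} eval (T e + v) F = eval (e + T^{-1} v) F → eval e F ≠ 0` as `T → ∞`), so it has a root
`T(s)` (`IsAlgClosed.exists_root`).  The points `T(s) • e + v₀ + s • v₁` are nonzero, are zeros of
`F`, and are pairwise different points of the projective plane.  For the degree: with
`p = aeval (fun i => C (e i) * X + C (v i)) F : Polynomial ℂ`, if `p` were a constant `p₀` then for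
all `T ≠ 0`: `eval (e + T⁻¹ • v) F = T⁻¹ ^ k * p₀` (homogeneity,
`MvPolynomial.IsHomogeneous.eval₂`/`eval_smul`), i.e. `eval (e + S • v) F = S ^ k * p₀` for all
`S ≠ 0`, hence (two polynomials in `S`) for `S = 0`: `eval e F = 0`, contradiction.
The value of a homogeneous polynomial at `q.rep` is zero iff it is zero at any representative
(`Projectivization.mk_rep`, `Projectivization.mk_eq_mk_iff`).
-/

open MvPolynomial Filter Topology

namespace Pool.Agent.H3.GP

private theorem INF_smul {k : ℕ} {F : MvPolynomial (Fin 3) ℂ} (hF : F.IsHomogeneous k) (c : ℂ)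
    (v : Fin 3 → ℂ) : eval (c • v) F = c ^ k * eval v F := by
  rw [MvPolynomial.eval_eq', MvPolynomial.eval_eq', Finset.mul_sum]
  refine Finset.sum_congr rfl fun d hd => ?_
  have h1 : d.degree = k := by
    have := hF (mem_support_iff.1 hd)
    rw [Finsupp.degree_eq_weight_one (R := ℕ)]
    exact this
  have h2 : d.degree = d 0 + d 1 + d 2 := by
    rw [Finsupp.degree_eq_sum, Fin.sum_univ_three]
  rw [Fin.prod_univ_three, Fin.prod_univ_three, ← h1, h2]
  simp only [Pi.smul_apply, smul_eq_mul, mul_pow, pow_add]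
  ring

/-- on every line through a point `e` outside the curve there is a point of the curve -/
private theorem INF_root {k : ℕ} (hk : 1 ≤ k) {F : MvPolynomial (Fin 3) ℂ}
    (hF : F.IsHomogeneous k) {e : Fin 3 → ℂ} (he : eval e F ≠ 0) (v : Fin 3 → ℂ) :
    ∃ T : ℂ, eval (T • e + v) F = 0 := by
  set p : Polynomial ℂ := aeval (fun i => Polynomial.C (e i) * Polynomial.X + Polynomial.C (v i)) F
    with hp
  have hpe : ∀ T : ℂ, p.eval T = eval (T • e + v) F := by
    intro T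
    have h1 := MvPolynomial.map_aeval
      (fun i => Polynomial.C (e i) * Polynomial.X + Polynomial.C (v i))
      (Polynomial.evalRingHom T) F
    rw [← hp, Polynomial.coe_evalRingHom] at h1
    rw [h1]
    have h2 : (Polynomial.evalRingHom T).comp (algebraMap ℂ (Polynomial ℂ)) = RingHom.id ℂ := by
      ext x
      simp
    rw [h2]
    simp only [MvPolynomial.coe_eval₂Hom]
    rw [← MvPolynomial.eval₂_id]
    congr 1
    ext i
    simp only [Polynomial.eval_add, Polynomial.eval_mul,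
      Polynomial.eval_C, Polynomial.eval_X, Pi.add_apply, Pi.smul_apply, smul_eq_mul]
    ring
  by_cases hd : p.degree = 0
  · exfalso
    obtain ⟨p0, hp0⟩ : ∃ p0 : ℂ, p = Polynomial.C p0 := ⟨_, Polynomial.eq_C_of_degree_eq_zero hd⟩
    have h1 : ∀ S : ℂ, S ≠ 0 → eval (e + S • v) F = S ^ k * p0 := by
      intro S hS
      have h2 : e + S • v = S • (S⁻¹ • e + v) := by
        rw [smul_add, smul_smul, mul_inv_cancel₀ hS, one_smul]
      rw [h2, INF_smul hF, ← hpe, hp0, Polynomial.eval_C]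
    have h3 : Tendsto (fun S : ℂ => eval (e + S • v) F) (𝓝[≠] 0) (𝓝 (eval e F)) := by
      have hc : Continuous (fun S : ℂ => eval (e + S • v) F) :=
        (MvPolynomial.continuous_eval F).comp (by fun_prop)
      have := hc.tendsto 0
      simp only [zero_smul, add_zero] at this
      exact this.mono_left nhdsWithin_le_nhds
    have h4 : Tendsto (fun S : ℂ => S ^ k * p0) (𝓝[≠] 0) (𝓝 0) := by
      have hc : Continuous (fun S : ℂ => S ^ k * p0) := by fun_prop
      have := hc.tendsto 0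
      rw [zero_pow (by omega), zero_mul] at this
      exact this.mono_left nhdsWithin_le_nhds
    have h5 : Tendsto (fun S : ℂ => eval (e + S • v) F) (𝓝[≠] 0) (𝓝 0) := by
      refine h4.congr' ?_
      filter_upwards [self_mem_nhdsWithin] with S hS
      exact (h1 S hS).symm
    exact he (tendsto_nhds_unique h3 h5)
  · obtain ⟨T, hT⟩ := IsAlgClosed.exists_root p hd
    exact ⟨T, by rw [← hpe]; exact hT⟩

/-- a nonzero vector and the affine plane -/
private theorem INF_rep {k : ℕ} {F : MvPolynomial (Fin 3) ℂ} (hF : F.IsHomogeneous k)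
    {v : Fin 3 → ℂ} (hv : v ≠ 0) (h : eval v F = 0) :
    eval (Projectivization.mk ℂ v hv).rep F = 0 := by
  obtain ⟨a, ha⟩ := Projectivization.exists_smul_eq_mk_rep ℂ v hv
  rw [← ha, Units.smul_def, INF_smul hF, h, mul_zero]

theorem INF (k : ℕ) (hk : 1 ≤ k) (F : MvPolynomial (Fin 3) ℂ) (hF : F.IsHomogeneous k) :
    {q : Projectivization ℂ (Fin 3 → ℂ) | eval q.rep F = 0}.Infinite := by
  -- a linear equivalence moving `e` to the first vector
  obtain ⟨e, v0, v1, hli, T, hT⟩ : ∃ e v0 v1 : Fin 3 → ℂ, LinearIndependent ℂ ![e, v0, v1] ∧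
      ∃ T : ℂ → ℂ, ∀ s : ℂ, eval (T s • e + v0 + s • v1) F = 0 := by
    by_cases hF0 : F = 0
    · refine ⟨Pi.single 0 1, Pi.single 1 1, Pi.single 2 1, ?_, fun _ => 0, fun s => ?_⟩
      · rw [Fintype.linearIndependent_iff]
        intro g hg
        rw [Fin.sum_univ_three] at hg
        have h0 := congrFun hg 0
        have h1 := congrFun hg 1
        have h2 := congrFun hg 2
        simp at h0 h1 h2
        intro i
        fin_cases i
        · exact h0
        · exact h1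
        · exact h2
      · rw [hF0, map_zero]
    · obtain ⟨e, he⟩ : ∃ e, eval e F ≠ 0 := by
        by_contra hcon
        push Not at hcon
        exact hF0 (MvPolynomial.funext fun x => by rw [hcon x, map_zero])
      have he0 : e ≠ 0 := by
        rintro rfl
        have := INF_smul hF 0 0
        rw [zero_pow (by omega), zero_mul, smul_zero] at this
        exact he this
      -- complete to a basis
      obtain ⟨v0, v1, hli⟩ : ∃ v0 v1 : Fin 3 → ℂ, LinearIndependent ℂ ![e, v0, v1] := by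
        obtain ⟨i, hi⟩ : ∃ i, e i ≠ 0 := by
          by_contra hcon
          push Not at hcon
          exact he0 (funext hcon)
        have key : ∀ i a b : Fin 3, e i ≠ 0 → i ≠ a → i ≠ b → a ≠ b →
            LinearIndependent ℂ ![e, Pi.single a (1 : ℂ), Pi.single b (1 : ℂ)] := by
          intro i a b hi hia hib hab
          rw [Fintype.linearIndependent_iff]
          intro g hg
          rw [Fin.sum_univ_three] at hg
          simp only [Matrix.cons_val_zero, Matrix.cons_val_one, Matrix.cons_val] at hg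
          have h0 := congrFun hg i
          have h1 := congrFun hg a
          have h2 := congrFun hg b
          simp only [Pi.add_apply, Pi.smul_apply, smul_eq_mul, Pi.zero_apply, Pi.single_eq_same,
            Pi.single_eq_of_ne hia, Pi.single_eq_of_ne hib, Pi.single_eq_of_ne hab,
            Pi.single_eq_of_ne hab.symm, mul_zero, mul_one, add_zero] at h0 h1 h2
          have hg0 : g 0 = 0 := by
            rcases mul_eq_zero.1 h0 with h | h
            · exact h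
            · exact absurd h hi
          rw [hg0] at h1 h2
          intro l
          fin_cases l
          · exact hg0
          · simpa using h1
          · simpa using h2
        fin_cases i
        · exact ⟨_, _, key 0 1 2 hi (by decide) (by decide) (by decide)⟩
        · exact ⟨_, _, key 1 0 2 hi (by decide) (by decide) (by decide)⟩
        · exact ⟨_, _, key 2 0 1 hi (by decide) (by decide) (by decide)⟩
      have hroot := fun s : ℂ => INF_root hk hF he (v0 + s • v1)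
      choose T hT using hroot
      exact ⟨e, v0, v1, hli, T, fun s => by rw [add_assoc]; exact hT s⟩
  -- the points
  have hne : ∀ s, T s • e + v0 + s • v1 ≠ 0 := by
    intro s h
    have h1 := Fintype.linearIndependent_iff.1 hli ![T s, 1, s] (by
      rw [Fin.sum_univ_three]
      simpa using h)
    have := h1 1
    simp at this
  refine Set.infinite_of_injective_forall_mem (f := fun s : ℂ =>
    Projectivization.mk ℂ (T s • e + v0 + s • v1) (hne s)) ?_ ?_
  · intro s s' h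
    rw [Projectivization.mk_eq_mk_iff'] at h
    obtain ⟨a, ha⟩ := h
    have h1 := Fintype.linearIndependent_iff.1 hli ![a * T s' - T s, a - 1, a * s' - s] (by
      rw [Fin.sum_univ_three]
      simp only [Matrix.cons_val_zero, Matrix.cons_val_one, Matrix.cons_val]
      have h2 : a • (T s' • e + v0 + s' • v1) - (T s • e + v0 + s • v1) = 0 := by
        rw [ha, sub_self]
      rw [← h2]
      module)
    have h3 : a - 1 = 0 := by simpa using h1 1
    have h4 : a * s' - s = 0 := by simpa using h1 2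
    have h5 : a = 1 := by linear_combination h3
    rw [h5] at h4
    linear_combination -h4
  · intro s
    exact INF_rep hF (hne s) (hT s)

end Pool.Agent.H3.GP

end S_H3_GP_INF

section S_H3_GP_CF

/-!
# CF (MP_87ed0a_ag): forms through a complete intersection with small degree in one variable

PROOF. Let `F, G` be the forms of `hX` (degrees `a ≤ b`), `V(F, G) = X` finite.
(1) `F ≠ 0`: otherwise `X = V(G)`, infinite by `INF` (`b ≥ 1`).
(2) `G ≠ F * Q` for all `Q`: otherwise `X = V(F)`, infinite by `INF` (`a ≥ 1`).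
First assertion of `CF`: take `f = F`; `degreeOf 1 F ≤ totalDegree F ≤ a`.
Second assertion: for a polynomial `f` write `f = f₁ + X₁^a * f₂` where `f₂ =
f.divMonomial (Finsupp.single 1 a)` collects the monomials divisible by `X 1 ^ a`
(`MvPolynomial.divMonomial`, `modMonomial`); `f₂ = 0` iff all monomials of `f` have exponent `< a`
at the variable 1, i.e. `degreeOf 1 f < a` (`a ≥ 1`), and `f₂` is homogeneous of degree `b - a` if
`f` is homogeneous of degree `b`.  The linear map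
  `homogeneousSubmodule (Fin 3) ℂ (b - a) × ℂ → homogeneousSubmodule (Fin 3) ℂ (b - a)`,
  `(Q, s) ↦ (F * Q + s • G).divMonomial (Finsupp.single 1 a)`
goes from a space of dimension `n + 1` to a space of dimension `n` (finite dimensional: finitely
many monomials of given degree), so it has a nonzero kernel element `(Q, s)`.
`f = F * Q + s • G` is homogeneous of degree `b`, vanishes on `X`, has `degreeOf 1 f < a`, and is
nonzero: if `s ≠ 0` then `f = 0` gives `G = F * (- s⁻¹ • Q)`, excluded by (2); if `s = 0` then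
`Q ≠ 0`, `F * Q ≠ 0`.
(Only the finiteness of the zero set of `F, G` is used.)
-/

open MvPolynomial

namespace Pool.Agent.H3.GP

/-- division by `X 1 ^ a` as a linear map -/
private noncomputable def CF_div (a : ℕ) :
    MvPolynomial (Fin 3) ℂ →ₗ[ℂ] MvPolynomial (Fin 3) ℂ where
  toFun f := f.divMonomial (Finsupp.single 1 a)
  map_add' x y := add_divMonomial x y _
  map_smul' c x := by
    ext d
    simp

private theorem CF_coeff (a : ℕ) (f : MvPolynomial (Fin 3) ℂ) (d : Fin 3 →₀ ℕ) :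
    coeff d (CF_div a f) = coeff (Finsupp.single 1 a + d) f := rfl

private theorem CF_hom (a b : ℕ) (f : MvPolynomial (Fin 3) ℂ)
    (hf : f.IsHomogeneous b) : (CF_div a f).IsHomogeneous (b - a) := by
  intro d hd
  rw [CF_coeff] at hd
  have h2 := hf hd
  rw [map_add] at h2
  have h3 : Finsupp.weight (1 : Fin 3 → ℕ) (Finsupp.single 1 a) = a := by
    simp [Finsupp.weight_single]
  omega

private theorem CF_zero (a : ℕ) (ha : 1 ≤ a) (f : MvPolynomial (Fin 3) ℂ)
    (h : CF_div a f = 0) : f.degreeOf 1 < a := by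
  rw [degreeOf_lt_iff ha]
  intro m hm
  by_contra hlt
  push Not at hlt
  have h1 : Finsupp.single 1 a + (m - Finsupp.single 1 a) = m :=
    add_tsub_cancel_of_le (Finsupp.single_le_iff.2 hlt)
  have h2 := CF_coeff a f (m - Finsupp.single 1 a)
  rw [h, coeff_zero, h1] at h2
  exact (mem_support_iff.1 hm) h2.symm

private theorem CF_kernel (a b : ℕ) (ha : 1 ≤ a) (hab : a ≤ b) (F G : MvPolynomial (Fin 3) ℂ)
    (hF : F.IsHomogeneous a) (hG : G.IsHomogeneous b) :
    ∃ (Q : MvPolynomial (Fin 3) ℂ) (s : ℂ), (Q ≠ 0 ∨ s ≠ 0) ∧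
      (F * Q + s • G).IsHomogeneous b ∧ (F * Q + s • G).degreeOf 1 < a := by
  set W := homogeneousSubmodule (Fin 3) ℂ (b - a) with hW
  have hfin : Module.Finite ℂ W := Module.Finite.iff_fg.2 (homogeneousSubmodule_fg (Fin 3) ℂ (b - a))
  set M : W × ℂ →ₗ[ℂ] MvPolynomial (Fin 3) ℂ :=
    ((LinearMap.mulLeft ℂ F) ∘ₗ W.subtype).coprod (LinearMap.toSpanSingleton ℂ _ G) with hM
  have hMa : ∀ (Q : W) (s : ℂ), M (Q, s) = F * (Q : MvPolynomial (Fin 3) ℂ) + s • G := by
    intro Q s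
    simp [hM]
  have hMh : ∀ x : W × ℂ, (M x).IsHomogeneous b := by
    rintro ⟨Q, s⟩
    rw [hMa]
    have h1 : (F * (Q : MvPolynomial (Fin 3) ℂ)).IsHomogeneous b := by
      have h := hF.mul ((mem_homogeneousSubmodule _ _).1 Q.2)
      rwa [Nat.add_sub_cancel' hab] at h
    have h2 : (s • G).IsHomogeneous b := (homogeneousSubmodule (Fin 3) ℂ b).smul_mem s hG
    exact h1.add h2
  set L : W × ℂ →ₗ[ℂ] W := LinearMap.codRestrict W ((CF_div a) ∘ₗ M) (fun x =>
    CF_hom a b _ (hMh x)) with hL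
  have hninj : ¬ Function.Injective L := by
    intro hinj
    have h1 := LinearMap.finrank_le_finrank_of_injective hinj
    rw [Module.finrank_prod, Module.finrank_self] at h1
    omega
  have hker : LinearMap.ker L ≠ ⊥ := fun h => hninj (LinearMap.ker_eq_bot.1 h)
  obtain ⟨⟨Q, s⟩, hx, hx0⟩ := (Submodule.ne_bot_iff _).1 hker
  have h0 : CF_div a (M (Q, s)) = 0 := by
    have h1 : L (Q, s) = 0 := hx
    exact congrArg Subtype.val h1
  rw [hMa] at h0
  refine ⟨Q, s, ?_, ?_, CF_zero a ha _ h0⟩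
  · by_contra hcon
    push Not at hcon
    apply hx0
    exact Prod.ext (Subtype.ext hcon.1) hcon.2
  · rw [← hMa]
    exact hMh _

theorem CF (a b : ℕ) (ha : 1 ≤ a) (hab : a ≤ b) (X : Set (Projectivization ℂ (Fin 3 → ℂ)))
    (hX : IsCI a b X) :
    (∃ f : MvPolynomial (Fin 3) ℂ, f ≠ 0 ∧ f.IsHomogeneous a ∧ f.degreeOf 1 ≤ a ∧
      ∀ q ∈ X, eval q.rep f = 0) ∧
    (∃ f : MvPolynomial (Fin 3) ℂ, f ≠ 0 ∧ f.IsHomogeneous b ∧ f.degreeOf 1 < a ∧
      ∀ q ∈ X, eval q.rep f = 0) := by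
  obtain ⟨hfin, -, F, G, hF, hG, hz⟩ := hX
  have hF0 : F ≠ 0 := by
    intro h
    refine INF b (ha.trans hab) G hG (hfin.subset fun q hq => ?_)
    rw [hz, h]
    exact ⟨map_zero _, hq⟩
  have hGQ : ∀ Q : MvPolynomial (Fin 3) ℂ, G ≠ F * Q := by
    intro Q h
    refine INF a ha F hF (hfin.subset fun q hq => ?_)
    have hq' : eval q.rep F = 0 := hq
    rw [hz, h, map_mul, hq', zero_mul]
    exact ⟨rfl, rfl⟩
  refine ⟨⟨F, hF0, hF, ?_, fun q hq => ((hz q).1 hq).1⟩, ?_⟩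
  · exact (degreeOf_le_totalDegree F 1).trans hF.totalDegree_le
  · obtain ⟨Q, s, hQs, h1, h2⟩ := CF_kernel a b ha hab F G hF hG
    refine ⟨F * Q + s • G, ?_, h1, h2, ?_⟩
    · intro h
      by_cases hs : s = 0
      · rw [hs, zero_smul, add_zero] at h
        rcases hQs with hQ | hs'
        · exact (mul_ne_zero hF0 hQ) h
        · exact hs' hs
      · apply hGQ (-(s⁻¹ • Q))
        have h3 : s⁻¹ • (F * Q + s • G) = 0 := by rw [h, smul_zero]
        rw [smul_add, smul_smul, inv_mul_cancel₀ hs, one_smul] at h3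
        rw [mul_neg, mul_smul_comm]
        exact eq_neg_of_add_eq_zero_right h3
    · intro q hq
      obtain ⟨h3, h4⟩ := (hz q).1 hq
      rw [map_add, map_mul, smul_eval, h3, h4]
      ring

end Pool.Agent.H3.GP

end S_H3_GP_CF

section S_H3_GP_GEO

/-!
# GEO (MP_87ed0a_ag): the working hypotheses hold for geproci sets

PROOF. Let `D` be the polynomial of `h`, `eval P D ≠ 0`, `ker π = span {P}`.  `IsCI a b
(projImage π (pts x))`; take `f` from `CF` (first or second assertion).  Claim: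
`eval (π (x j)) f = 0` for all `j`.  If `π (x j) = 0` this holds because `f` is homogeneous of
positive degree.  Otherwise `x j ≠ 0`, `p = Projectivization.mk ℂ (x j) _ ∈ pts x`, `p.rep` is a
nonzero multiple of `x j`, so `π p.rep ≠ 0` and `q = Projectivization.mk ℂ (π p.rep) _` is in
`projImage π (pts x)`; `eval q.rep f = 0` and `q.rep` is a nonzero multiple of `π (x j)`; `f` is
homogeneous.
-/

open MvPolynomial

namespace Pool.Agent.H3.GP

private theorem GEO_smul {k : ℕ} {F : MvPolynomial (Fin 3) ℂ} (hF : F.IsHomogeneous k) (c : ℂ)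
    (v : Fin 3 → ℂ) : eval (c • v) F = c ^ k * eval v F := by
  rw [MvPolynomial.eval_eq', MvPolynomial.eval_eq', Finset.mul_sum]
  refine Finset.sum_congr rfl fun d hd => ?_
  have h1 : d.degree = k := by
    have := hF (mem_support_iff.1 hd)
    rw [Finsupp.degree_eq_weight_one (R := ℕ)]
    exact this
  have h2 : d.degree = d 0 + d 1 + d 2 := by
    rw [Finsupp.degree_eq_sum, Fin.sum_univ_three]
  rw [Fin.prod_univ_three, Fin.prod_univ_three, ← h1, h2]
  simp only [Pi.smul_apply, smul_eq_mul, mul_pow, pow_add]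
  ring

private theorem GEO_vanish {k : ℕ} (hk : 1 ≤ k) {J : Type} (x : J → Fin 4 → ℂ)
    (π : (Fin 4 → ℂ) →ₗ[ℂ] (Fin 3 → ℂ)) {f : MvPolynomial (Fin 3) ℂ} (hf : f.IsHomogeneous k)
    (h : ∀ q ∈ projImage π (pts x), eval q.rep f = 0) (j : J) : eval (π (x j)) f = 0 := by
  by_cases h0 : π (x j) = 0
  · rw [h0]
    have h1 := GEO_smul hf 0 0
    rw [zero_pow (by omega), zero_mul, smul_zero] at h1
    exact h1
  · have hx : x j ≠ 0 := by
      intro h1
      exact h0 (by rw [h1, map_zero])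
    set p := Projectivization.mk ℂ (x j) hx with hp
    obtain ⟨a, ha⟩ := Projectivization.exists_smul_eq_mk_rep ℂ (x j) hx
    have hrep : π p.rep = (a : ℂ) • π (x j) := by
      rw [hp, ← ha, Units.smul_def, map_smul]
    have hne : π p.rep ≠ 0 := by
      rw [hrep]
      exact smul_ne_zero a.ne_zero h0
    have hmem : Projectivization.mk ℂ (π p.rep) hne ∈ projImage π (pts x) :=
      ⟨p, ⟨j, hx, rfl⟩, hne, rfl⟩
    have h1 := h _ hmem
    obtain ⟨b, hb⟩ := Projectivization.exists_smul_eq_mk_rep ℂ (π p.rep) hne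
    rw [← hb, Units.smul_def, hrep, smul_smul, GEO_smul hf] at h1
    rcases mul_eq_zero.1 h1 with h2 | h2
    · exact absurd h2 (pow_ne_zero _ (mul_ne_zero b.ne_zero a.ne_zero))
    · exact h2

theorem GEO (a b : ℕ) {J : Type} (x : J → Fin 4 → ℂ) (h : IsGeproci a b (pts x)) :
    (∀ q, a < q → GenForm a q x) ∧ GenForm b a x := by
  obtain ⟨ha, hab, -, -, D, hD, h⟩ := h
  constructor
  · intro q hq
    refine ⟨D, hD, fun P hP π hπ => ?_⟩
    obtain ⟨⟨f, hf0, hf1, hf2, hf3⟩, -⟩ := CF a b ha hab _ (h P hP π hπ)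
    exact ⟨f, hf0, hf1, lt_of_le_of_lt hf2 hq, GEO_vanish ha x π hf1 hf3⟩
  · refine ⟨D, hD, fun P hP π hπ => ?_⟩
    obtain ⟨-, ⟨f, hf0, hf1, hf2, hf3⟩⟩ := CF a b ha hab _ (h P hP π hπ)
    exact ⟨f, hf0, hf1, hf2, GEO_vanish (ha.trans hab) x π hf1 hf3⟩

end Pool.Agent.H3.GP

end S_H3_GP_GEO

section S_H80_GP_NDefs

/-! Conditions on `a b` vectors near a grid (MP_87ed0a_GP, NEAR block). -/

namespace GP80

open MvPolynomial

/-- the sum of the orders of `π` along the chords joining points in different rows and different columns -/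
noncomputable def surfSum {a b : ℕ} (x : Fin a → Fin b → Fin 4 → ℂ) (π : RR) : ℕ :=
  ∑ s : Fin a × Fin b, ∑ s' : Fin a × Fin b,
    (if s.1 ≠ s'.1 ∧ s.2 ≠ s'.2 then ordL (x s.1 s.2) (x s'.1 s'.2) π else 0)

/-- conditions satisfied near a grid (with nonzero coordinates) -/
structure NearOK (a b : ℕ) (x : Fin a → Fin b → Fin 4 → ℂ) (Bd : ℕ) : Prop where
  co : ∀ k m i, x k m i ≠ 0
  ind : ∀ k k' j j', k ≠ k' → j ≠ j' → LinearIndependent ℂ ![x k j, x k j', x k' j, x k' j']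
  pl : ∀ h : Fin 4 → ℂ, h ≠ 0 → (∃ l j, ∀ k m, ∑ i, h i * x k m i = 0 → k = l ∨ m = j) ∨
    (∀ k m k' m', ∑ i, h i * x k m i = 0 → ∑ i, h i * x k' m' i = 0 → (k, m) ≠ (k', m') →
      k ≠ k' ∧ m ≠ m')
  ch : ∀ k m k' m' p q, k ≠ k' → m ≠ m' → (p, q) ≠ (k, m) → (p, q) ≠ (k', m') →
    LinearIndependent ℂ ![x k m, x k' m', x p q]
  sf : ∀ δ, δ ≤ Bd → ∀ π : RR, π.IsHomogeneous δ → π ≠ 0 → surfSum x π ≤ (a - 1) * (a * b) * δ

end GP80

end S_H80_GP_NDefs

section S_H80_GP_Cmd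

/-! Combinatorial data extracted from a geproci set near a grid (MP_87ed0a_GP, COMB block). -/

namespace GP80

open Finset

/-- the data: `P` indexes the prime divisors (surfaces), `dl` degrees, `vt` vertices among the points -/
structure CombD (a b c d : ℕ) {P : Type} [Fintype P] (dl g n jj : P → ℕ) (lam : P → ℕ → ℕ)
    (om : P → Fin a × Fin b → ℕ) (vt : P → Finset (Fin a × Fin b))
    (oL : P → (Fin a × Fin b) → (Fin a × Fin b) → ℕ) (eF : ℕ) : Prop where
  a2 : 2 ≤ a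
  ac : a < c
  cd : c ≤ d
  db : d < b
  N : c * d = a * b
  dl1 : ∀ p, 1 ≤ dl p
  nv : ∀ p s, s ∉ vt p → om p s = g p
  gn : ∀ p, g p ≤ n p
  tail : ∀ p, g p < n p → lam p (g p + 1) * (c + d - lam p (g p + 1)) ≤ (vt p).card
  omn : ∀ p s, om p s ≤ n p
  sum : ∀ p, ∑ i ∈ Icc 1 (n p), lam p i * (c + d - lam p i) ≤ ∑ s, om p s
  pos : ∀ p i, 1 ≤ i → i ≤ n p → 1 ≤ lam p i
  up : ∀ p i, 1 ≤ i → lam p i < c
  anti : ∀ p i j, 1 ≤ i → i ≤ j → lam p j ≤ lam p i
  G1 : ∀ s, ∑ p, dl p * om p s + 1 = c + d + ∑ p, dl p * g p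
  star : c * (c - 1) * ∑ p, dl p * g p + (d - c) * (c + d - 1) * eF ≤
    ∑ p, dl p * ∑ i ∈ Icc 1 (n p), lam p i * (lam p i - 1)
  loss : (∀ p, jj p = 0) ∨ (d = c + 1 ∧ ∑ p, dl p * jj p + 1 + ∑ p, dl p * g p ≤ 2 * eF)
  chord : ∀ s s', s.1 ≠ s'.1 → s.2 ≠ s'.2 → 2 ≤ ∑ p, (om p s + jj p) * oL p s s'
  surf : ∀ p, ∑ s, ∑ s', (if s.1 ≠ s'.1 ∧ s.2 ≠ s'.2 then oL p s s' else 0) ≤ (a - 1) * (a * b) * dl p
  plane : ∀ p, dl p = 1 → (∃ l j, ∀ s ∈ vt p, s.1 = l ∨ s.2 = j) ∨
    (∀ s ∈ vt p, ∀ s' ∈ vt p, s ≠ s' → s.1 ≠ s'.1 ∧ s.2 ≠ s'.2)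
  oLp : ∀ p, dl p = 1 → ∀ s s', s.1 ≠ s'.1 → s.2 ≠ s'.2 →
    oL p s s' = if s ∈ vt p ∧ s' ∈ vt p then 1 else 0
  nonpl : ∀ p, dl p ≠ 1 → (vt p).card ≤ 1
  two : ∀ p p', dl p = 1 → dl p' = 1 → p ≠ p' → ∀ s s' s'', s.1 ≠ s'.1 → s.2 ≠ s'.2 → s'' ≠ s →
    s'' ≠ s' → ¬ (s ∈ vt p ∧ s' ∈ vt p ∧ s'' ∈ vt p ∧ s ∈ vt p' ∧ s' ∈ vt p' ∧ s'' ∈ vt p')

/-- `H = ∑_{i ≤ g} (c - lam i)(d - lam i)` -/
def HHz (c d g : ℕ) (lam : ℕ → ℕ) : ℤ := ∑ i ∈ Icc 1 g, ((c : ℤ) - lam i) * ((d : ℤ) - lam i)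

/-- `X = ∑_{g < i ≤ n} (lam i - 1)(c + d - 1 - lam i)` -/
def XXz (c d g n : ℕ) (lam : ℕ → ℕ) : ℤ :=
  ∑ i ∈ Ioc g n, ((lam i : ℤ) - 1) * ((c : ℤ) + d - 1 - lam i)

end GP80

end S_H80_GP_Cmd

section S_H80_GP_Cm1

/-!
# Row Cm1 (MP_87ed0a_GP): pairs in a plane  (about 130 lines)

`p` a plane (`dl p = 1`), write `o s = om p s ≤ n = n p`, `S = vt p`.  By `oLp` the sum is `∑_{s ∈ S} o s * part(s)`, `part(s)` = number of `s' ∈ S` with `s.1 ≠ s'.1`, `s.2 ≠ s'.2`.
* Second alternative of `plane` (transversal): the first coordinates of the elements of `S` are distinct, so `card S ≤ a`, `part(s) ≤ card S - 1 ≤ a - 1`.  Sum `≤ (a - 1) ∑_{s ∈ S} o s`.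
* First alternative with `(l, j)`.  If `s.1 = l`, `s.2 ≠ j`: a partner `s'` has `s'.1 ≠ l`, so `s'.2 = j`: `s' = (k, j)`, `k ≠ l`: `part(s) ≤ a - 1`.  If `s.1 ≠ l`, `s.2 = j`: partners `(l, m)`, `m ≠ j`: `part(s) ≤ b - 1 = (a - 1) + (b - a)`.
  If `s = (l, j)`: a partner has neither `s'.1 = l` nor `s'.2 = j`: none.  The number of `s ∈ S` with `s.1 ≠ l`, `s.2 = j` is `≤ a - 1` and `o s ≤ n`:
  sum `≤ (a-1) ∑_{s ∈ S} o s + (b - a) (a - 1) n`.
-/

namespace GP80

open Finset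

private theorem Cm1_card1 {a b : ℕ} (S : Finset (Fin a × Fin b)) (l : Fin a) (j : Fin b)
    (hS : ∀ s ∈ S, s.1 ≠ l ∧ s.2 = j) : S.card ≤ a - 1 := by
  classical
  have h1 : S.card ≤ ((univ : Finset (Fin a)).erase l).card := by
    refine Finset.card_le_card_of_injOn Prod.fst ?_ ?_
    · intro s hs
      exact Finset.mem_coe.2 (Finset.mem_erase.2 ⟨(hS s hs).1, Finset.mem_univ _⟩)
    · intro s hs s' hs' h
      exact Prod.ext h ((hS s hs).2.trans (hS s' hs').2.symm)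
  rwa [Finset.card_erase_of_mem (Finset.mem_univ _), Finset.card_univ, Fintype.card_fin] at h1

private theorem Cm1_card2 {a b : ℕ} (S : Finset (Fin a × Fin b)) (l : Fin a) (j : Fin b)
    (hS : ∀ s ∈ S, s.1 = l ∧ s.2 ≠ j) : S.card ≤ b - 1 := by
  classical
  have h1 : S.card ≤ ((univ : Finset (Fin b)).erase j).card := by
    refine Finset.card_le_card_of_injOn Prod.snd ?_ ?_
    · intro s hs
      exact Finset.mem_coe.2 (Finset.mem_erase.2 ⟨(hS s hs).2, Finset.mem_univ _⟩)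
    · intro s hs s' hs' h
      exact Prod.ext ((hS s hs).1.trans (hS s' hs').1.symm) h
  rwa [Finset.card_erase_of_mem (Finset.mem_univ _), Finset.card_univ, Fintype.card_fin] at h1

theorem plane_pairs {a b c d : ℕ} {P : Type} [Fintype P] {dl g n jj : P → ℕ} {lam : P → ℕ → ℕ}
    {om : P → Fin a × Fin b → ℕ} {vt : P → Finset (Fin a × Fin b)}
    {oL : P → (Fin a × Fin b) → (Fin a × Fin b) → ℕ} {eF : ℕ}
    (h : CombD a b c d dl g n jj lam om vt oL eF) (p : P) (hp : dl p = 1) :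
    ∑ s, ∑ s', (if s.1 ≠ s'.1 ∧ s.2 ≠ s'.2 then om p s * oL p s s' else 0) ≤
      (a - 1) * (∑ s ∈ vt p, om p s + (b - a) * n p) := by
  classical
  have hab : a < b := lt_trans h.ac (lt_of_le_of_lt h.cd h.db)
  have hin : ∀ s, ∑ s', (if s.1 ≠ s'.1 ∧ s.2 ≠ s'.2 then om p s * oL p s s' else 0) =
      if s ∈ vt p then om p s * ((vt p).filter fun s' => s.1 ≠ s'.1 ∧ s.2 ≠ s'.2).card
        else 0 := by
    intro s
    have h1 : ∀ s', (if s.1 ≠ s'.1 ∧ s.2 ≠ s'.2 then om p s * oL p s s' else 0) =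
        if s ∈ vt p then (if s' ∈ vt p ∧ (s.1 ≠ s'.1 ∧ s.2 ≠ s'.2) then om p s else 0)
          else 0 := by
      intro s'
      by_cases h2 : s.1 ≠ s'.1 ∧ s.2 ≠ s'.2
      · rw [if_pos h2, h.oLp p hp s s' h2.1 h2.2]
        by_cases h3 : s ∈ vt p
        · rw [if_pos h3]
          by_cases h4 : s' ∈ vt p
          · rw [if_pos ⟨h3, h4⟩, if_pos ⟨h4, h2⟩, mul_one]
          · rw [if_neg (fun hh => h4 hh.2), if_neg (fun hh => h4 hh.1), mul_zero]
        · rw [if_neg h3, if_neg (fun hh => h3 hh.1), mul_zero]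
      · rw [if_neg h2]
        by_cases h3 : s ∈ vt p
        · rw [if_pos h3, if_neg (fun hh => h2 hh.2)]
        · rw [if_neg h3]
    rw [Finset.sum_congr rfl (fun s' _ => h1 s')]
    by_cases h3 : s ∈ vt p
    · simp only [if_pos h3]
      rw [← Finset.sum_filter, Finset.sum_const, smul_eq_mul, mul_comm]
      congr 2
      ext s'
      simp only [Finset.mem_filter, Finset.mem_univ, true_and]
    · simp only [if_neg h3, Finset.sum_const_zero]
  rw [Finset.sum_congr rfl (fun s _ => hin s), ← Finset.sum_filter, Finset.filter_mem_eq_inter,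
    Finset.univ_inter]
  rcases h.plane p hp with ⟨l, j, hlj⟩ | htr
  · -- first alternative
    have hpt : ∀ s ∈ vt p, om p s * ((vt p).filter fun s' => s.1 ≠ s'.1 ∧ s.2 ≠ s'.2).card ≤
        (a - 1) * om p s + (b - a) * (if s.1 ≠ l ∧ s.2 = j then n p else 0) := by
      intro s hs
      by_cases h1 : s.1 = l
      · have hcard : ((vt p).filter fun s' => s.1 ≠ s'.1 ∧ s.2 ≠ s'.2).card ≤ a - 1 := by
          refine Cm1_card1 _ l j ?_
          intro s' hs'
          obtain ⟨h2, h3, h4⟩ := Finset.mem_filter.1 hs'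
          have h5 : s'.1 ≠ l := by
            rw [← h1]
            exact Ne.symm h3
          exact ⟨h5, (hlj s' h2).resolve_left h5⟩
        calc om p s * ((vt p).filter fun s' => s.1 ≠ s'.1 ∧ s.2 ≠ s'.2).card
            ≤ om p s * (a - 1) := Nat.mul_le_mul_left _ hcard
          _ = (a - 1) * om p s := mul_comm _ _
          _ ≤ _ := Nat.le_add_right _ _
      · have h2 : s.2 = j := (hlj s hs).resolve_left h1
        have hcard : ((vt p).filter fun s' => s.1 ≠ s'.1 ∧ s.2 ≠ s'.2).card ≤ b - 1 := by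
          refine Cm1_card2 _ l j ?_
          intro s' hs'
          obtain ⟨h3, h4, h5⟩ := Finset.mem_filter.1 hs'
          have h6 : s'.2 ≠ j := by
            rw [← h2]
            exact Ne.symm h5
          exact ⟨(hlj s' h3).resolve_right h6, h6⟩
        rw [if_pos ⟨h1, h2⟩]
        have h3 : b - 1 = (a - 1) + (b - a) := by
          have := h.a2
          omega
        calc om p s * ((vt p).filter fun s' => s.1 ≠ s'.1 ∧ s.2 ≠ s'.2).card
            ≤ om p s * (b - 1) := Nat.mul_le_mul_left _ hcard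
          _ = (a - 1) * om p s + (b - a) * om p s := by
              rw [h3]
              ring
          _ ≤ _ := Nat.add_le_add_left (Nat.mul_le_mul_left _ (h.omn p s)) _
    refine (Finset.sum_le_sum hpt).trans ?_
    rw [Finset.sum_add_distrib, ← Finset.mul_sum, ← Finset.mul_sum, mul_add]
    refine Nat.add_le_add_left ?_ _
    rw [← Finset.sum_filter, Finset.sum_const, smul_eq_mul]
    have hcard : ((vt p).filter fun s => s.1 ≠ l ∧ s.2 = j).card ≤ a - 1 :=
      Cm1_card1 _ l j fun s hs => (Finset.mem_filter.1 hs).2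
    calc (b - a) * (((vt p).filter fun s => s.1 ≠ l ∧ s.2 = j).card * n p)
        ≤ (b - a) * ((a - 1) * n p) := Nat.mul_le_mul_left _ (Nat.mul_le_mul_right _ hcard)
      _ = (a - 1) * ((b - a) * n p) := by ring
  · -- transversal
    have hcS : (vt p).card ≤ a := by
      have h1 : (vt p).card ≤ (univ : Finset (Fin a)).card := by
        refine Finset.card_le_card_of_injOn Prod.fst (fun s _ => Finset.mem_coe.2 (mem_univ _)) ?_
        intro s hs s' hs' heq
        by_contra hne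
        exact (htr s hs s' hs' hne).1 heq
      rwa [Finset.card_univ, Fintype.card_fin] at h1
    have hpt : ∀ s ∈ vt p, om p s * ((vt p).filter fun s' => s.1 ≠ s'.1 ∧ s.2 ≠ s'.2).card ≤
        (a - 1) * om p s := by
      intro s hs
      have h1 : ((vt p).filter fun s' => s.1 ≠ s'.1 ∧ s.2 ≠ s'.2) ⊆ (vt p).erase s := by
        intro s' hs'
        obtain ⟨h2, h3, -⟩ := Finset.mem_filter.1 hs'
        refine Finset.mem_erase.2 ⟨?_, h2⟩
        rintro rfl
        exact h3 rfl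
      have h2 := Finset.card_le_card h1
      rw [Finset.card_erase_of_mem hs] at h2
      rw [mul_comm]
      exact Nat.mul_le_mul_right _ (by omega)
    refine (Finset.sum_le_sum hpt).trans ?_
    rw [← Finset.mul_sum]
    exact Nat.mul_le_mul_left _ (Nat.le_add_right _ _)

end GP80

end S_H80_GP_Cm1

section S_H80_GP_Nr2

/-!
# Row Nr2 (MP_87ed0a_GP): no third point on a chord, near a grid  (about 140 lines)

Exact grid: let `k ≠ k'`, `m ≠ m'`, `(p, q) ≠ (k, m), (k', m')`, and suppose `x0 k m, x0 k' m', x0 p q` dependent.  `x0 k m, x0 k' m'` are independent (`ind`), so `x0 p q ∈ span {x0 k m, x0 k' m'}`.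
Claim 1: `p = k` or `q = m'`.  Otherwise `ind k p m' q` says that `x0 k m', x0 k q, x0 p m', x0 p q` are independent; but all four are in `W = span {x0 k m, x0 k m', x0 k' m'}` (dimension 3): `x0 k q` by `col`, `x0 p m'` by `row`.
Claim 2 (symmetric, exchanging the roles): `p = k'` or `q = m`.  Together: `p = k` and `p = k'` impossible; `p = k`, `q = m` excluded; `q = m'`, `p = k'` excluded; `q = m' = m` impossible.
Openness of linear independence (as in the proof of `OPN`, Pool/Agent/H3/GP/OPN.lean: `isOpen_setOfPred_linearIndependent`), finitely many conditions.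
-/

open Filter Topology Pool.Agent.H3.GP

namespace GP80

theorem Nr2_four {e1 e2 e3 e4 : Fin 4 → ℂ} (h : LinearIndependent ℂ ![e1, e2, e3, e4])
    {a b c d : ℂ} (h0 : a • e1 + b • e2 + c • e3 + d • e4 = 0) :
    a = 0 ∧ b = 0 ∧ c = 0 ∧ d = 0 := by
  rw [Fintype.linearIndependent_iff] at h
  have h1 := h ![a, b, c, d] (by
    simp only [Fin.sum_univ_four]
    exact h0)
  exact ⟨h1 0, h1 1, h1 2, h1 3⟩

theorem Nr2_mk {u v w : Fin 4 → ℂ}
    (h : ∀ a b c : ℂ, a • u + b • v + c • w = 0 → a = 0 ∧ b = 0 ∧ c = 0) :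
    LinearIndependent ℂ ![u, v, w] := by
  rw [Fintype.linearIndependent_iff]
  intro g hg
  simp only [Fin.sum_univ_three] at hg
  obtain ⟨h1, h2, h3⟩ := h (g 0) (g 1) (g 2) hg
  intro i
  fin_cases i
  · exact h1
  · exact h2
  · exact h3

/-- `e1, e2` and a nonzero vector of the span of `e3, e4` -/
theorem Nr2_core {e1 e2 e3 e4 v : Fin 4 → ℂ} (h : LinearIndependent ℂ ![e1, e2, e3, e4])
    (hv : v ∈ Submodule.span ℂ {e3, e4}) (hv0 : v ≠ 0) {a b c : ℂ}
    (h0 : a • e1 + b • e2 + c • v = 0) : a = 0 ∧ b = 0 ∧ c = 0 := by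
  obtain ⟨s, t, rfl⟩ := Submodule.mem_span_pair.1 hv
  have h1 := Nr2_four h (a := a) (b := b) (c := c * s) (d := c * t) (by
    rw [← h0, smul_add, smul_smul, smul_smul]
    abel)
  obtain ⟨ha, hb, hs, ht⟩ := h1
  refine ⟨ha, hb, ?_⟩
  by_contra hc
  apply hv0
  have hs' : s = 0 := (mul_eq_zero.1 hs).resolve_left hc
  have ht' : t = 0 := (mul_eq_zero.1 ht).resolve_left hc
  rw [hs', ht', zero_smul, zero_smul, add_zero]

theorem Nr2_ne {a b : ℕ} (ha : 2 ≤ a) (hb : 2 ≤ b) {x : Fin a → Fin b → Fin 4 → ℂ}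
    (h : GridVec a b x) (k : Fin a) (j : Fin b) : x k j ≠ 0 := by
  have : Nontrivial (Fin a) := Fin.nontrivial_iff_two_le.2 ha
  have : Nontrivial (Fin b) := Fin.nontrivial_iff_two_le.2 hb
  obtain ⟨k2, hk2⟩ := exists_ne k
  obtain ⟨j2, hj2⟩ := exists_ne j
  exact (h.ind k k2 j j2 hk2.symm hj2.symm).ne_zero 0

theorem Nr2_exact {a b : ℕ} (ha : 2 ≤ a) (hb : 2 ≤ b) {x : Fin a → Fin b → Fin 4 → ℂ}
    (h : GridVec a b x) {k k' p : Fin a} {m m' q : Fin b} (hk : k ≠ k') (hm : m ≠ m')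
    (h1 : (p, q) ≠ (k, m)) (h2 : (p, q) ≠ (k', m')) :
    LinearIndependent ℂ ![x k m, x k' m', x p q] := by
  have hne := Nr2_ne ha hb h
  by_cases hpk : p = k
  · subst hpk
    have hq : m ≠ q := fun h3 => h1 (by rw [h3])
    refine Nr2_mk fun c1 c2 c3 h0 => ?_
    have h3 := Nr2_core (h.ind p k' m q hk hq) (h.col k' m q m' hq) (hne k' m')
      (a := c1) (b := c3) (c := c2) (by rw [← h0]; abel)
    exact ⟨h3.1, h3.2.2, h3.2.1⟩
  by_cases hpk' : p = k'
  · subst hpk'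
    have hq : m' ≠ q := fun h3 => h2 (by rw [h3])
    refine Nr2_mk fun c1 c2 c3 h0 => ?_
    have h3 := Nr2_core (h.ind p k m' q hk.symm hq) (h.col k m' q m hq) (hne k m)
      (a := c2) (b := c3) (c := c1) (by rw [← h0]; abel)
    exact ⟨h3.2.2, h3.1, h3.2.1⟩
  have swap : ∀ {e1 e2 e3 e4 : Fin 4 → ℂ}, LinearIndependent ℂ ![e1, e2, e3, e4] →
      LinearIndependent ℂ ![e1, e3, e2, e4] := by
    intro e1 e2 e3 e4 h3
    have h4 := h3.comp ![0, 2, 1, 3] (by decide)
    convert h4 using 1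
    ext i
    fin_cases i <;> rfl
  by_cases hqm : q = m
  · subst hqm
    refine Nr2_mk fun c1 c2 c3 h0 => ?_
    have h3 := Nr2_core (swap (h.ind k p q m' (Ne.symm hpk) hm))
      (h.row m' k p k' (Ne.symm hpk)) (hne k' m')
      (a := c1) (b := c3) (c := c2) (by rw [← h0]; abel)
    exact ⟨h3.1, h3.2.2, h3.2.1⟩
  by_cases hqm' : q = m'
  · subst hqm'
    refine Nr2_mk fun c1 c2 c3 h0 => ?_
    have h3 := Nr2_core (swap (h.ind k' p q m (Ne.symm hpk') hm.symm))
      (h.row m k' p k (Ne.symm hpk')) (hne k m)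
      (a := c2) (b := c3) (c := c1) (by rw [← h0]; abel)
    exact ⟨h3.2.2, h3.1, h3.2.1⟩
  -- the general case
  obtain ⟨α, β, e1⟩ := Submodule.mem_span_pair.1 (h.row m k k' p hk)
  obtain ⟨γ, δ, e2⟩ := Submodule.mem_span_pair.1 (h.row m' k k' p hk)
  obtain ⟨s, t, e3⟩ := Submodule.mem_span_pair.1 (h.col p m m' q hm)
  have hs : s ≠ 0 := by
    rintro rfl
    have h3 := Nr2_core (h.ind p k m' q hpk (Ne.symm hqm')) (v := x k m')
      (Submodule.subset_span (by simp)) (hne k m')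
      (a := t) (b := -1) (c := 0) (by rw [← e3]; simp)
    exact one_ne_zero (neg_eq_zero.1 h3.2.1)
  have hβ : β ≠ 0 := by
    rintro rfl
    have h3 := Nr2_core (swap (h.ind k p m m' (Ne.symm hpk) hm)) (v := x k m')
      (Submodule.subset_span (by simp)) (hne k m')
      (a := α) (b := -1) (c := 0) (by rw [← e1]; simp)
    exact one_ne_zero (neg_eq_zero.1 h3.2.1)
  refine Nr2_mk fun c1 c2 c3 h0 => ?_
  have h3 := Nr2_four (h.ind k k' m m' hk hm) (a := c1 + c3 * s * α) (b := c3 * t * γ)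
    (c := c3 * s * β) (d := c2 + c3 * t * δ) (by
      rw [← h0, ← e3, ← e1, ← e2]
      module)
  obtain ⟨f1, f2, f3, f4⟩ := h3
  have hc3 : c3 = 0 := by
    rcases mul_eq_zero.1 f3 with h4 | h4
    · exact (mul_eq_zero.1 h4).resolve_right hs
    · exact absurd h4 hβ
  subst hc3
  simp only [zero_mul, add_zero] at f1 f4
  exact ⟨f1, f4, rfl⟩

theorem near_chords {a b : ℕ} (ha : 2 ≤ a) (hb : 2 ≤ b) (x0 : Fin a → Fin b → Fin 4 → ℂ)
    (h0 : GridVec a b x0) : ∀ᶠ x in 𝓝 x0, ∀ k m k' m' p q, k ≠ k' → m ≠ m' → (p, q) ≠ (k, m) →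
      (p, q) ≠ (k', m') → LinearIndependent ℂ ![x k m, x k' m', x p q] := by
  rw [Filter.eventually_all]; intro k
  rw [Filter.eventually_all]; intro m
  rw [Filter.eventually_all]; intro k'
  rw [Filter.eventually_all]; intro m'
  rw [Filter.eventually_all]; intro p
  rw [Filter.eventually_all]; intro q
  by_cases hk : k = k'
  · exact Filter.Eventually.of_forall fun x h1 => absurd hk h1
  by_cases hm : m = m'
  · exact Filter.Eventually.of_forall fun x _ h1 => absurd hm h1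
  by_cases h1 : (p, q) = (k, m)
  · exact Filter.Eventually.of_forall fun x _ _ h2 => absurd h1 h2
  by_cases h2 : (p, q) = (k', m')
  · exact Filter.Eventually.of_forall fun x _ _ _ h3 => absurd h2 h3
  have hopen : IsOpen {v : Fin 3 → Fin 4 → ℂ | LinearIndependent ℂ v} :=
    isOpen_setOfPred_linearIndependent
  have hcont : Tendsto (fun x : Fin a → Fin b → Fin 4 → ℂ =>
      ![x k m, x k' m', x p q]) (𝓝 x0)
      (𝓝 ![x0 k m, x0 k' m', x0 p q]) := by
    have h3 : ∀ (k : Fin a) (j : Fin b), Tendsto (fun x : Fin a → Fin b → Fin 4 → ℂ => x k j)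
        (𝓝 x0) (𝓝 (x0 k j)) := fun k j =>
      ((continuous_apply j).comp (continuous_apply k)).tendsto x0
    rw [tendsto_pi_nhds]
    intro i
    fin_cases i
    · exact h3 k m
    · exact h3 k' m'
    · exact h3 p q
  have h3 := hcont.eventually (hopen.mem_nhds (Nr2_exact ha hb h0 hk hm h1 h2))
  exact h3.mono fun x hx _ _ _ _ => hx

end GP80

end S_H80_GP_Nr2
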