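import Mathlib
import Pool.Agent.H80.M87.G01

/-! MP_87ed0a_ag: this file joins several modules to save build time. -/

section S_H80_GP_Kp1

/-!
# Row Kp1 (MP_87ed0a_GP): bases and dimensions of spaces of forms in 3 variables  (about 150 lines)

* `card_Mon`: the number of monomials of degree `t` is `nn t = (t+2 choose 2)`
  (bijection with pairs, or `Finset.card_finsuppAntidiag...`/`Sym.card_sym_eq_choose`, or induction: `Mon (t+1)` = those with
  `m 0 = 0` (count `t+2`) + shift of `Mon t`).
* `exists_basisMon`: the monomials form a basis of the forms of degree `t` over any commutative ring.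
* `finrank_hs`: dimension over a field is `nn t`.
* `finrank_mul`: the forms of degree `t` divisible by a nonzero form `E` of degree `l` have dimension `nz (t - l)`
  (the map `y ↦ E y` from forms of degree `t - l` is injective with this image: a divisor `y` of a form `x = E y`, `E` a nonzero form,
  is a form: compare homogeneous components, or use Kp2 `homog_of_dvd`-style argument directly; for `t < l` only `0`).
* `dep_mod`: `Δ ∣ Γ` nonzero forms of degrees `dl ≤ dk`.  If `q 0, ..., q m` are forms of degree `s` divisible by `Δ` and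
  `nz (s - dl) ≤ m + nz (s - dk)`, then some nontrivial `k`-combination is divisible by `Γ`: quotient space of dimension
  `nz (s-dl) - nz (s-dk) ≤ m`.
-/

namespace GP80

open MvPolynomial

theorem card_Mon (t : ℕ) : Fintype.card (Mon t) = nn t := by
  rw [Fintype.card_coe, Finset.card_finsuppAntidiag_nat_eq_choose, nn, Finset.card_univ, Fintype.card_fin]
  have h1 : 3 + t - 1 = t + 2 := by omega
  rw [h1]
  exact Nat.choose_symm_of_eq_add rfl

private theorem Kp1_mem_iff {t : ℕ} {d : Fin 3 →₀ ℕ} :
    d ∈ Finset.finsuppAntidiag (Finset.univ : Finset (Fin 3)) t ↔ d.degree = t := by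
  rw [Finset.mem_finsuppAntidiag]
  constructor
  · rintro ⟨h, -⟩
    rw [← h, Finsupp.degree_eq_sum]
  · intro h
    refine ⟨?_, Finset.subset_univ _⟩
    rw [← h, Finsupp.degree_eq_sum]

private theorem Kp1_deg {O : Type} [CommRing O] {t : ℕ} {f : MvPolynomial (Fin 3) O}
    (hf : f.IsHomogeneous t) {d : Fin 3 →₀ ℕ} (hd : coeff d f ≠ 0) : d.degree = t := by
  by_contra h
  exact hd (hf.coeff_eq_zero h)

private theorem Kp1_coeff_sum {O : Type} [CommRing O] {t : ℕ} (c : Mon t → O) (d : Fin 3 →₀ ℕ) :
    coeff d (∑ m : Mon t, C (c m) * monomial m.1 (1 : O)) =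
      if h : d ∈ Finset.finsuppAntidiag (Finset.univ : Finset (Fin 3)) t then c ⟨d, h⟩ else 0 := by
  classical
  rw [coeff_sum]
  simp only [coeff_C_mul, coeff_monomial]
  split_ifs with h
  · rw [Finset.sum_eq_single (⟨d, h⟩ : Mon t)]
    · simp
    · intro b _ hb
      have : b.1 ≠ d := fun h' => hb (Subtype.ext h')
      rw [if_neg this, mul_zero]
    · intro h'
      exact absurd (Finset.mem_univ _) h'
  · refine Finset.sum_eq_zero fun b _ => ?_
    have : b.1 ≠ d := by
      intro h'
      apply h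
      rw [← h']
      exact b.2
    rw [if_neg this, mul_zero]

private theorem Kp1_hom_sum {O : Type} [CommRing O] {t : ℕ} (c : Mon t → O) :
    (∑ m : Mon t, C (c m) * monomial m.1 (1 : O)).IsHomogeneous t := by
  refine MvPolynomial.IsHomogeneous.sum _ _ _ fun m _ => ?_
  exact (isHomogeneous_monomial (1 : O) (Kp1_mem_iff.1 m.2)).C_mul (c m)

theorem exists_basisMon (O : Type) [CommRing O] (t : ℕ) :
    ∃ b : Module.Basis (Mon t) O (HS O t),
      (∀ m, (b m).val = monomial m.1 1) ∧ ∀ f m, b.repr f m = coeff m.1 f.val := by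
  have key : ∀ (f : MvPolynomial (Fin 3) O), f.IsHomogeneous t → ∑ m : Mon t, C (coeff m.1 f) * monomial m.1 (1 : O) = f := by
    intro f hf
    ext d
    rw [Kp1_coeff_sum]
    split_ifs with hd
    · rfl
    · by_contra hne
      exact hd (Kp1_mem_iff.2 (Kp1_deg hf (fun h => hne h.symm)))
  let e : HS O t ≃ₗ[O] (Mon t → O) :=
    { toFun := fun f m => coeff m.1 f.val
      map_add' := fun f g => by
        funext m
        simp
      map_smul' := fun a f => by
        funext m
        simp
      invFun := fun c => HS.mk (∑ m : Mon t, C (c m) * monomial m.1 (1 : O)) (Kp1_hom_sum c)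
      left_inv := fun f => by
        apply HS.ext
        rw [HS.val_mk]
        exact key f.val f.prop
      right_inv := fun c => by
        funext m
        show coeff m.1 (∑ m : Mon t, C (c m) * monomial m.1 (1 : O)) = c m
        rw [Kp1_coeff_sum, dif_pos m.2] }
  refine ⟨Module.Basis.ofEquivFun e, fun m => ?_, fun f m => ?_⟩
  · rw [Module.Basis.coe_ofEquivFun]
    show (∑ m' : Mon t, C (Function.update (0 : Mon t → O) m 1 m') * monomial m'.1 (1 : O)) = _
    rw [Finset.sum_eq_single m]
    · simp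
    · intro b _ hb
      simp [Function.update_of_ne hb]
    · intro h
      exact absurd (Finset.mem_univ m) h
  · rfl

theorem finrank_hs (k : Type) [Field k] (t : ℕ) :
    Module.finrank k (HS k t) = nn t := by
  obtain ⟨b, -, -⟩ := exists_basisMon k t
  rw [Module.finrank_eq_card_basis b, card_Mon]

instance finite_hs (O : Type) [CommRing O] (t : ℕ) : Module.Finite O (HS O t) := by
  obtain ⟨b, -, -⟩ := exists_basisMon O t
  exact Module.Finite.of_basis b

instance free_hs (O : Type) [CommRing O] (t : ℕ) : Module.Free O (HS O t) := by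
  obtain ⟨b, -, -⟩ := exists_basisMon O t
  exact Module.Free.of_basis b

/-- the forms of degree `t` divisible by `E` -/
def mulSub {k : Type} [Field k] (E : MvPolynomial (Fin 3) k) (t : ℕ) : Submodule k (HS k t) where
  carrier := {x | E ∣ x.val}
  add_mem' {x y} hx hy := dvd_add hx hy
  zero_mem' := dvd_zero E
  smul_mem' a x hx := by
    show E ∣ (a • x).val
    rw [HS.val_smul]
    exact Dvd.dvd.mul_left hx _

private theorem Kp1_hom_of_mul {k : Type} [Field k] {E y : MvPolynomial (Fin 3) k} {l t : ℕ}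
    (hE : E.IsHomogeneous l) (h0 : E ≠ 0) (hle : l ≤ t) (h : (E * y).IsHomogeneous t) :
    y.IsHomogeneous (t - l) := by
  have h1 : E * y = E * homogeneousComponent (t - l) y := by
    conv_lhs => rw [← homogeneousComponent_eq_self h]
    conv_lhs => rw [← sum_homogeneousComponent y, Finset.mul_sum, map_sum]
    by_cases hm : t - l ∈ Finset.range (y.totalDegree + 1)
    · rw [Finset.sum_eq_single_of_mem (t - l) hm]
      · apply homogeneousComponent_eq_self
        have h2 := hE.mul (homogeneousComponent_isHomogeneous (t - l) y)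
        rwa [Nat.add_sub_cancel' hle] at h2
      · intro b _ hb
        rw [homogeneousComponent_of_mem
          ((mem_homogeneousSubmodule _ _).2 (hE.mul (homogeneousComponent_isHomogeneous b y))),
          if_neg (by omega)]
    · rw [homogeneousComponent_eq_zero _ _ (by
        have := mt Finset.mem_range.2 hm
        omega), mul_zero]
      refine Finset.sum_eq_zero fun b hb => ?_
      have hb' := Finset.mem_range.1 hb
      have hm' := mt Finset.mem_range.2 hm
      rw [homogeneousComponent_of_mem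
          ((mem_homogeneousSubmodule _ _).2 (hE.mul (homogeneousComponent_isHomogeneous b y))),
          if_neg (by omega)]
  rw [mul_left_cancel₀ h0 h1]
  exact homogeneousComponent_isHomogeneous _ _

theorem finrank_mul {k : Type} [Field k] (E : MvPolynomial (Fin 3) k) (l : ℕ) (hE : E.IsHomogeneous l)
    (h0 : E ≠ 0) (t : ℕ) : Module.finrank k (mulSub E t) = nz ((t : ℤ) - l) := by
  by_cases hlt : t < l
  · have h1 : mulSub E t = ⊥ := by
      rw [eq_bot_iff]
      rintro x ⟨y, hy⟩
      have hx0 : x.val = 0 := by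
        by_contra hne
        have hy0 : y ≠ 0 := by
          rintro rfl
          exact hne (by rw [hy, mul_zero])
        have hd := x.prop.totalDegree hne
        rw [hy, totalDegree_mul_of_isDomain h0 hy0, hE.totalDegree h0] at hd
        omega
      exact (Submodule.mem_bot k).2 (HS.ext hx0)
    rw [h1, finrank_bot, nz, if_neg (by omega)]
  · have hle : l ≤ t := not_lt.1 hlt
    let φ : HS k (t - l) →ₗ[k] HS k t :=
      { toFun := fun y => HS.mk (E * y.val) (by
          have h := hE.mul y.prop
          rwa [Nat.add_sub_cancel' hle] at h)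
        map_add' := fun x y => by
          apply HS.ext
          simp [mul_add]
        map_smul' := fun a y => by
          apply HS.ext
          simp only [HS.val_mk, HS.val_smul, RingHom.id_apply]
          ring }
    have hinj : Function.Injective φ := by
      intro x y hxy
      have h2 : E * x.val = E * y.val := congrArg HS.val hxy
      exact HS.ext (mul_left_cancel₀ h0 h2)
    have hrange : LinearMap.range φ = mulSub E t := by
      ext x
      constructor
      · rintro ⟨y, rfl⟩
        exact Dvd.intro y.val rfl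
      · rintro ⟨y, hy⟩
        have hyh : y.IsHomogeneous (t - l) := by
          have hxE : (E * y).IsHomogeneous t := by
            rw [← hy]
            exact x.prop
          exact Kp1_hom_of_mul hE h0 hle hxE
        exact ⟨HS.mk y hyh, HS.ext hy.symm⟩
    rw [← hrange, LinearMap.finrank_range_of_inj hinj, finrank_hs, nz, if_pos (by omega)]
    congr 1
    omega

theorem dep_mod {k : Type} [Field k] (Δ Γ : MvPolynomial (Fin 3) k) (dl dk : ℕ)
    (hΔ : Δ.IsHomogeneous dl) (hΓ : Γ.IsHomogeneous dk) (hdvd : Δ ∣ Γ) (h0 : Γ ≠ 0) (s m : ℕ)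
    (hm : nz ((s : ℤ) - dl) ≤ m + nz ((s : ℤ) - dk))
    (q : Fin (m + 1) → MvPolynomial (Fin 3) k) (hq : ∀ j, (q j).IsHomogeneous s)
    (hd : ∀ j, Δ ∣ q j) : ∃ a : Fin (m + 1) → k, a ≠ 0 ∧ Γ ∣ ∑ j, C (a j) * q j := by
  have hle : mulSub Γ s ≤ mulSub Δ s := fun x hx => dvd_trans hdvd hx
  have hΔ0 : Δ ≠ 0 := by
    rintro rfl
    exact h0 (zero_dvd_iff.1 hdvd)
  let W : Submodule k (mulSub Δ s) := (mulSub Γ s).comap (mulSub Δ s).subtype
  have hW : Module.finrank k W = nz ((s : ℤ) - dk) := by
    rw [← finrank_mul Γ dk hΓ h0 s]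
    exact (Submodule.comapSubtypeEquivOfLe hle).finrank_eq
  have hV := finrank_mul Δ dl hΔ hΔ0 s
  have hQ : Module.finrank k (mulSub Δ s ⧸ W) ≤ m := by
    have h1 := Submodule.finrank_quotient_add_finrank W
    rw [hW, hV] at h1
    omega
  let ψ : (Fin (m + 1) → k) →ₗ[k] (mulSub Δ s ⧸ W) :=
    W.mkQ.comp (Fintype.linearCombination k fun j => (⟨HS.mk (q j) (hq j), hd j⟩ : mulSub Δ s))
  have hker : LinearMap.ker ψ ≠ ⊥ := by
    apply LinearMap.ker_ne_bot_of_finrank_lt
    rw [Module.finrank_fin_fun]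
    omega
  obtain ⟨a, ha, ha0⟩ := Submodule.exists_mem_ne_zero_of_ne_bot hker
  refine ⟨a, ha0, ?_⟩
  have h2 : (Fintype.linearCombination k fun j => (⟨HS.mk (q j) (hq j), hd j⟩ : mulSub Δ s)) a ∈ W := by
    have h3 : W.mkQ ((Fintype.linearCombination k fun j => (⟨HS.mk (q j) (hq j), hd j⟩ : mulSub Δ s)) a) = 0 := ha
    exact (Submodule.Quotient.mk_eq_zero W).1 h3
  have h4 : Γ ∣ ((Fintype.linearCombination k fun j => (⟨HS.mk (q j) (hq j), hd j⟩ : mulSub Δ s)) a).1.val := h2
  rw [Fintype.linearCombination_apply, Submodule.coe_sum, HS.val_sum] at h4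
  simpa using h4

end GP80

end S_H80_GP_Kp1

section S_H80_GP_Kp3

/-!
# Row Kp3 (MP_87ed0a_GP): distinct points impose independent conditions  (about 90 lines)

`pts_indep`: for `A` a finite set of pairwise non proportional vectors `w z` of `k^3` (`LinearIndependent k ![w z, w z']` for
`z ≠ z'` in `A`) and `t ≥ card A`, the space of forms of degree `t` vanishing at all `w z`, `z ∈ A`, has dimension
`≤ nn t - card A` (stated additively).

Proof.  The evaluation map from forms of degree `t` to `k^A` is surjective: for `z ∈ A` the form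
`y^(t - card A + 1) * ∏_{z' ∈ A, z' ≠ z} l_{z'}`, where `l_{z'}` is a linear form vanishing at `w z'` and not at `w z` and `y` a linear form not vanishing at
`w z`, is nonzero at `z` and zero at the other points.  Rank-nullity with `finrank_hs`.
-/

namespace GP80

open MvPolynomial

/-- forms of degree `t` vanishing at the points `w z`, `z ∈ A` -/
def vanSub {k I : Type} [Field k] (w : I → Fin 3 → k) (A : Finset I) (t : ℕ) :
    Submodule k (HS k t) where
  carrier := {x | ∀ z ∈ A, eval (w z) x.val = 0}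
  add_mem' {x y} hx hy z hz := by simp [hx z hz, hy z hz]
  zero_mem' := by intro z _; simp
  smul_mem' a x hx z hz := by
    show eval (w z) (a • x).val = 0
    rw [HS.val_smul, map_mul, hx z hz, mul_zero]

theorem Kp3_lin {k : Type} [Field k] (φ : (Fin 3 → k) →ₗ[k] k) :
    ∃ l : MvPolynomial (Fin 3) k, l.IsHomogeneous 1 ∧ ∀ v, eval v l = φ v := by
  refine ⟨∑ i, C (φ (Pi.single i 1)) * X i, ?_, fun v => ?_⟩
  · apply IsHomogeneous.sum
    intro i _
    have h := (isHomogeneous_C (Fin 3) (φ (Pi.single i 1))).mul (isHomogeneous_X k i)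
    rwa [zero_add] at h
  · rw [map_sum]
    conv_rhs => rw [← LinearMap.sum_single_apply (fun _ : Fin 3 => k) v, map_sum]
    refine Finset.sum_congr rfl fun i _ => ?_
    rw [map_mul, eval_C, eval_X]
    have e : (Pi.single i (v i) : Fin 3 → k) = v i • (Pi.single i 1 : Fin 3 → k) := by
      rw [← Pi.single_smul, smul_eq_mul, mul_one]
    rw [e, map_smul, smul_eq_mul, mul_comm]

theorem Kp3_sep {k : Type} [Field k] {a b : Fin 3 → k} (h : LinearIndependent k ![a, b]) :
    ∃ l : MvPolynomial (Fin 3) k, l.IsHomogeneous 1 ∧ eval b l = 0 ∧ eval a l ≠ 0 := by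
  have h1 : a ∉ Submodule.span k {b} := by
    intro h2
    obtain ⟨c, hc⟩ := Submodule.mem_span_singleton.1 h2
    have h3 := LinearIndependent.pair_iff.1 h 1 (-c) (by rw [← hc]; simp)
    exact one_ne_zero h3.1
  obtain ⟨φ, h2, h3⟩ := Submodule.exists_le_ker_of_notMem h1
  obtain ⟨l, hl, he⟩ := Kp3_lin φ
  refine ⟨l, hl, ?_, ?_⟩
  · rw [he]
    exact h3 (Submodule.mem_span_singleton_self b)
  · rw [he]
    exact h2

theorem Kp3_nz {k : Type} [Field k] {a : Fin 3 → k} (h : a ≠ 0) :
    ∃ l : MvPolynomial (Fin 3) k, l.IsHomogeneous 1 ∧ eval a l ≠ 0 := by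
  obtain ⟨i, hi⟩ := Function.ne_iff.1 h
  refine ⟨X i, isHomogeneous_X k i, ?_⟩
  rw [eval_X]
  exact hi

theorem Kp3_form {k I : Type} [Field k] (w : I → Fin 3 → k) (A : Finset I)
    (hw : ∀ z ∈ A, ∀ z' ∈ A, z ≠ z' → LinearIndependent k ![w z, w z'])
    (hw0 : ∀ z ∈ A, w z ≠ 0) (t : ℕ) (ht : A.card ≤ t) (z : I) (hz : z ∈ A) :
    ∃ f : HS k t, eval (w z) f.val ≠ 0 ∧ ∀ z' ∈ A, z' ≠ z → eval (w z') f.val = 0 := by
  classical
  have hex : ∀ z' : I, ∃ l : MvPolynomial (Fin 3) k, l.IsHomogeneous 1 ∧
      (z' ∈ A → z' ≠ z → eval (w z') l = 0 ∧ eval (w z) l ≠ 0) := by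
    intro z'
    by_cases h : z' ∈ A ∧ z' ≠ z
    · obtain ⟨l, h1, h2, h3⟩ := Kp3_sep (hw z hz z' h.1 (Ne.symm h.2))
      exact ⟨l, h1, fun _ _ => ⟨h2, h3⟩⟩
    · obtain ⟨l, h1, -⟩ := Kp3_nz (hw0 z hz)
      exact ⟨l, h1, fun h2 h3 => absurd ⟨h2, h3⟩ h⟩
  choose l hl hl2 using hex
  obtain ⟨y, hy, hy0⟩ := Kp3_nz (hw0 z hz)
  have hcard : (A.erase z).card = A.card - 1 := Finset.card_erase_of_mem hz
  have hpos : 0 < A.card := Finset.card_pos.2 ⟨z, hz⟩
  have hprod : (∏ z' ∈ A.erase z, l z').IsHomogeneous (A.card - 1) := by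
    have h1 := IsHomogeneous.prod (A.erase z) l (fun _ => 1) (fun z' _ => hl z')
    rwa [Finset.sum_const, smul_eq_mul, mul_one, hcard] at h1
  have hpow : (y ^ (t - A.card + 1)).IsHomogeneous (t - A.card + 1) := by
    have h1 := hy.pow (t - A.card + 1)
    rwa [one_mul] at h1
  have hf : (y ^ (t - A.card + 1) * ∏ z' ∈ A.erase z, l z').IsHomogeneous t := by
    have h1 := hpow.mul hprod
    have e : t - A.card + 1 + (A.card - 1) = t := by omega
    rwa [e] at h1
  refine ⟨HS.mk _ hf, ?_, ?_⟩
  · rw [HS.val_mk, map_mul, map_pow, map_prod]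
    apply mul_ne_zero (pow_ne_zero _ hy0)
    rw [Finset.prod_ne_zero_iff]
    intro z' hz'
    exact (hl2 z' (Finset.mem_of_mem_erase hz') (Finset.ne_of_mem_erase hz')).2
  · intro z' hz' hne
    rw [HS.val_mk, map_mul, map_prod]
    rw [Finset.prod_eq_zero (Finset.mem_erase.2 ⟨hne, hz'⟩) (hl2 z' hz' hne).1, mul_zero]

theorem pts_indep {k I : Type} [Field k] (w : I → Fin 3 → k) (A : Finset I)
    (hw : ∀ z ∈ A, ∀ z' ∈ A, z ≠ z' → LinearIndependent k ![w z, w z'])
    (hw0 : ∀ z ∈ A, w z ≠ 0) (t : ℕ) (ht : A.card ≤ t) :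
    Module.finrank k (vanSub w A t) + A.card ≤ nn t := by
  classical
  let ev : HS k t →ₗ[k] (A → k) :=
    { toFun := fun f z => eval (w z) f.val
      map_add' := by
        intro f g
        funext z
        simp
      map_smul' := by
        intro a f
        funext z
        show eval (w z) (a • f).val = a * eval (w z) f.val
        rw [HS.val_smul, map_mul, eval_C] }
  have hex := fun z : A => Kp3_form w A hw hw0 t ht z.1 z.2
  choose f hf hf0 using hex
  have hsurj : LinearMap.range ev = ⊤ := by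
    rw [LinearMap.range_eq_top]
    intro g
    refine ⟨∑ z : A, (g z / eval (w z) (f z).val) • f z, ?_⟩
    rw [map_sum]
    funext z'
    rw [Finset.sum_apply, Finset.sum_eq_single z']
    · rw [map_smul]
      show g z' / eval (w z') (f z').val * eval (w z') (f z').val = g z'
      rw [div_mul_cancel₀ _ (hf z')]
    · intro z _ hne
      rw [map_smul]
      show g z / eval (w z) (f z).val * eval (w z') (f z).val = 0
      rw [hf0 z z' z'.2 (fun h => hne (Subtype.ext h.symm)), mul_zero]
    · intro h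
      exact absurd (Finset.mem_univ z') h
  have hker : LinearMap.ker ev = vanSub w A t := by
    ext x
    rw [LinearMap.mem_ker]
    constructor
    · intro h z hz
      exact congrFun h ⟨z, hz⟩
    · intro h
      funext z
      exact h z.1 z.2
  have h1 := LinearMap.finrank_range_add_finrank_ker ev
  rw [hsurj, hker, finrank_top, Module.finrank_fintype_fun_eq_card, Fintype.card_coe, finrank_hs] at h1
  omega

end GP80

end S_H80_GP_Kp3

section S_H80_GP_Ari

/-!
# Row Ari (MP_87ed0a_GP): arithmetic of `nn t = (t+2 choose 2)`  (about 100 lines)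

`two_nn` : `2 nn t = (t+2)(t+1)`; everything else follows by `zify`/`nlinarith`/`ring` from it.
-/

namespace GP80

theorem two_nn (t : ℕ) : 2 * nn t = (t + 2) * (t + 1) := by
  unfold nn
  induction t with
  | zero => rfl
  | succ t ih =>
    have h : (t + 1 + 2).choose 2 = (t + 2).choose 1 + (t + 2).choose 2 := rfl
    rw [h, mul_add, ih, Nat.choose_one_right]
    ring

/-- `2 nz x = (x+2)(x+1)` for `x ≥ -2` -/
theorem two_nz (x : ℤ) (hx : -2 ≤ x) : 2 * (nz x : ℤ) = (x + 2) * (x + 1) := by
  by_cases h : 0 ≤ x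
  · obtain ⟨t, rfl⟩ := Int.eq_ofNat_of_zero_le h
    unfold nz
    rw [if_pos h, Int.toNat_natCast]
    exact_mod_cast two_nn t
  · unfold nz
    rw [if_neg h]
    have h1 : x = -1 ∨ x = -2 := by omega
    rcases h1 with h1 | h1 <;> subst h1 <;> norm_num

/-- used in 1.4: `t` large -/
theorem ari_tail (c d K s N m t : ℕ) (hK : K < c) (hcd : c ≤ d) (ht : c + d + N ≤ t)
    (hm : nz ((t : ℤ) - (c + d) + K) = m + nz ((t : ℤ) - (c + d))) (hs : s ≤ N)
    (h : nn t + (N - s) ≤ nz ((t : ℤ) - K) + N + m) : K * (c + d - K) ≤ s := by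
  have h1 := two_nn t
  have h2 := two_nz ((t : ℤ) - (c + d) + K) (by omega)
  have h3 := two_nz ((t : ℤ) - (c + d)) (by omega)
  have h4 := two_nz ((t : ℤ) - K) (by omega)
  have hm' : (nz ((t : ℤ) - (c + d) + K) : ℤ) = m + nz ((t : ℤ) - (c + d)) := by
    exact_mod_cast hm
  have h' : (nn t : ℤ) + ((N : ℤ) - s) ≤ nz ((t : ℤ) - K) + N + m := by
    have := h
    zify [hs] at this
    exact this
  have h1' : 2 * (nn t : ℤ) = ((t : ℤ) + 2) * (t + 1) := by exact_mod_cast h1
  have hK' : K ≤ c + d := by omega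
  zify [hK']
  nlinarith

/-- used in 1.6: with `t = c + d - 2`, `1 ≤ l < c ≤ d`:
`nn t - nz (t - l) = l (c+d) - l(l+1)/2` -/
theorem ari_sum (c d l : ℕ) (hl : l < c) (hcd : c ≤ d) :
    nn (c + d - 2) = nz (((c + d - 2 : ℕ) : ℤ) - l) + l * (c + d - l) + l.choose 2 := by
  obtain ⟨t, ht⟩ : ∃ t, c + d = t + 2 := ⟨c + d - 2, by omega⟩
  have h0 : c + d - 2 = t := by omega
  rw [h0]
  have h1 := two_nn t
  have h2 := two_nz ((t : ℤ) - l) (by omega)
  have h3 : 2 * (l.choose 2 : ℤ) = (l : ℤ) * (l - 1) := by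
    rcases l with _ | l
    · norm_num
    · rcases l with _ | l
      · norm_num [Nat.choose]
      · have := two_nn l
        unfold nn at this
        have h5 : 2 * ((l + 2).choose 2 : ℤ) = ((l : ℤ) + 2) * (l + 1) := by exact_mod_cast this
        rw [show l + 1 + 1 = l + 2 from rfl, h5]
        push_cast
        ring
  have h1' : 2 * (nn t : ℤ) = ((t : ℤ) + 2) * (t + 1) := by exact_mod_cast h1
  have hlt : l ≤ c + d := by omega
  have hgoal : (nn t : ℤ) = nz ((t : ℤ) - l) + l * ((c : ℤ) + d - l) + l.choose 2 := by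
    have ht' : (c : ℤ) + d = t + 2 := by exact_mod_cast ht
    rw [ht']
    nlinarith
  zify [hlt]
  exact hgoal

/-- the index sets of the big determinant have the same cardinality -/
theorem ari_card (c d : ℕ) (hc : 2 ≤ c) (hcd : c ≤ d) :
    nn (d - 2) + nn (c - 2) + c * d = nn (c + d - 2) := by
  obtain ⟨a, rfl⟩ : ∃ a, c = a + 2 := ⟨c - 2, by omega⟩
  obtain ⟨b, rfl⟩ : ∃ b, d = b + 2 := ⟨d - 2, by omega⟩
  have h0 : a + 2 + (b + 2) - 2 = a + b + 2 := by omega
  rw [h0, Nat.add_sub_cancel, Nat.add_sub_cancel]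
  have h1 := two_nn a
  have h2 := two_nn b
  have h3 := two_nn (a + b + 2)
  nlinarith

theorem nz_small (l : ℕ) : nz ((l : ℤ) - 2) = l.choose 2 := by
  have h2 := two_nz ((l : ℤ) - 2) (by omega)
  have h3 : 2 * (l.choose 2 : ℤ) = (l : ℤ) * (l - 1) := by
    rcases l with _ | l
    · norm_num
    · rcases l with _ | l
      · norm_num [Nat.choose]
      · have := two_nn l
        unfold nn at this
        have h5 : 2 * ((l + 2).choose 2 : ℤ) = ((l : ℤ) + 2) * (l + 1) := by exact_mod_cast this
        rw [show l + 1 + 1 = l + 2 from rfl, h5]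
        push_cast
        ring
  have h4 : (nz ((l : ℤ) - 2) : ℤ) = l.choose 2 := by nlinarith
  exact_mod_cast h4

end GP80

end S_H80_GP_Ari

section S_H80_GP_La1

/-!
# Row La1 (MP_87ed0a_GP): length of a cokernel over a DVR = order of the determinant  (about 120 lines)

Let `O` be a DVR with prime `ϖ`, `M` free with basis `b : ι → M`, `u : ι → M` vectors whose matrix in the
basis has nonzero determinant.  Then the length of `M / span u` is the multiplicity of `ϖ` in the determinant.

Proof.  Let `N = span u`; `u` is linearly independent (det ≠ 0), so `u` is a basis of `N` and `N` has full rank.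
Smith normal form over the PID `O` (Mathlib: `Submodule.smithNormalForm...` /
`Submodule.exists_smith_normal_form_of_le`, `Module.Basis.SmithNormalForm`): there are bases `b'` of `M` and `c'` of `N` with `c' i = a i • b' i`, all `a i ≠ 0`.  Then
`M/N ≃ ∏ O/(a i)`, whose length is `∑ multiplicity ϖ (a i)` (`length (O/(a)) = multiplicity ϖ a`: induction via
`0 → O/(a) → O/(ϖ a) → O/(ϖ) → 0`, or write `a = ϖ^m * unit`), and `det (b.toMatrix u)` = unit * `∏ a i`
(change of bases have unit determinants).  Alternative proof by strong induction on the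
multiplicity: if the determinant is a unit, `span u = ⊤`; otherwise the reduced matrix over `O/(ϖ)` is singular, so some `O`-combination
`∑ a_j u_j = ϖ w` with some `a_j` a unit; replace `u_j` by `w`: the span grows with quotient `O/(ϖ)` (length 1: `N' = N + O w`,
`ϖ w ∈ N`, `w ∉ N`), the determinant is divided by `ϖ` up to a unit.
-/

namespace GP80

theorem La1_ord_prod {O : Type} [CommRing O] [IsDomain O] {ι : Type}
    (s : Finset ι) (a : ι → O) (ha : ∀ i ∈ s, a i ≠ 0) :
    Ring.ord O (∏ i ∈ s, a i) = ∑ i ∈ s, Ring.ord O (a i) := by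
  classical
  induction s using Finset.induction_on with
  | empty => simp
  | insert i s hi ih =>
    have h1 : ∏ j ∈ s, a j ≠ 0 :=
      Finset.prod_ne_zero_iff.2 fun j hj => ha j (Finset.mem_insert_of_mem hj)
    rw [Finset.prod_insert hi, Finset.sum_insert hi,
      Ring.ord_mul O (mem_nonZeroDivisors_of_ne_zero h1),
      ih fun j hj => ha j (Finset.mem_insert_of_mem hj)]

theorem La1_ord {O : Type} [CommRing O] [IsDomain O] [IsDiscreteValuationRing O]
    {ϖ : O} (hϖ : Prime ϖ) {x : O} (hx : x ≠ 0) :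
    Ring.ord O x = ((multiplicity ϖ x : ℕ) : ℕ∞) := by
  obtain ⟨n, hn⟩ := IsDiscreteValuationRing.associated_pow_irreducible hx hϖ.irreducible
  rw [multiplicity_eq_of_associated_right hn, multiplicity_pow_self hϖ.ne_zero hϖ.not_isUnit,
    Ring.ord_eq_of_associated hn, Ring.ord_pow (mem_nonZeroDivisors_of_ne_zero hϖ.ne_zero),
    Ring.ord_of_irreducible hϖ.irreducible]
  simp

theorem length_mod_det {O : Type} [CommRing O] [IsDomain O] [IsDiscreteValuationRing O]
    {ϖ : O} (hϖ : Prime ϖ) {M : Type} [AddCommGroup M] [Module O M] {ι : Type} [Fintype ι]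
    [DecidableEq ι] (b : Module.Basis ι O M) (u : ι → M) (hdet : (b.toMatrix u).det ≠ 0) :
    Module.length O (M ⧸ Submodule.span O (Set.range u)) =
      ((multiplicity ϖ (b.toMatrix u).det : ℕ) : ℕ∞) := by
  have hli : LinearIndependent O u := by
    rw [Fintype.linearIndependent_iff]
    intro g hg
    have h2 : (b.toMatrix u).mulVec g = 0 := by
      funext i
      have h3 := congrArg (fun m => b.repr m i) hg
      simp only [map_sum, map_smul, Finsupp.coe_finsetSum, Finset.sum_apply, Finsupp.smul_apply,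
        smul_eq_mul, map_zero, Finsupp.coe_zero, Pi.zero_apply] at h3
      rw [Matrix.mulVec, dotProduct, Pi.zero_apply, ← h3]
      refine Finset.sum_congr rfl fun j _ => ?_
      rw [Module.Basis.toMatrix_apply, mul_comm]
    have h4 := Matrix.eq_zero_of_mulVec_eq_zero hdet h2
    intro i
    rw [h4]
    rfl
  set N : Submodule O M := Submodule.span O (Set.range u) with hN
  let cu : Module.Basis ι O N := Module.Basis.span hli
  have hcu : ∀ i, (cu i : M) = u i := fun i =>
    congrArg Subtype.val (Module.Basis.span_apply hli i)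
  have hfin : Module.finrank O N = Module.finrank O M := by
    rw [Module.finrank_eq_card_basis cu, Module.finrank_eq_card_basis b]
  let a := Submodule.smithNormalFormCoeffs b hfin
  let b' := Submodule.smithNormalFormTopBasis b hfin
  let ab := Submodule.smithNormalFormBotBasis b hfin
  have hab : ∀ i, (ab i : M) = a i • b' i := Submodule.smithNormalFormBotBasis_def b hfin
  have ha0 : ∀ i, a i ≠ 0 := Submodule.smithNormalFormCoeffs_ne_zero b hfin
  -- the determinant
  have hmat : b.toMatrix u = b.toMatrix b' * (Matrix.diagonal a * ab.toMatrix cu) := by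
    rw [← Module.Basis.toMatrix_mul_toMatrix b b' u]
    congr 1
    ext i j
    rw [Matrix.diagonal_mul, Module.Basis.toMatrix_apply, Module.Basis.toMatrix_apply]
    have h1 : u j = ∑ i, (ab.repr (cu j) i) • (a i • b' i) := by
      have h2 := congrArg (Subtype.val) (ab.sum_repr (cu j))
      rw [← hcu j, ← h2]
      simp only [Submodule.coe_sum, Submodule.coe_smul, hab]
    rw [h1]
    simp only [smul_smul]
    rw [b'.repr_sum_self, mul_comm]
  have hu1 : IsUnit (b.toMatrix b').det := by
    have := b.isUnit_det b'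
    rwa [Module.Basis.det_apply] at this
  have hu2 : IsUnit (ab.toMatrix cu).det := by
    have := ab.isUnit_det cu
    rwa [Module.Basis.det_apply] at this
  have hassoc : Ring.ord O (b.toMatrix u).det = Ring.ord O (∏ i, a i) := by
    rw [hmat, Matrix.det_mul, Matrix.det_mul, Matrix.det_diagonal,
      Ring.ord_mul_of_isUnit_left hu1, Ring.ord_mul_of_isUnit_right hu2]
  rw [(Submodule.quotientEquivPiSpan N b hfin).length_eq, Module.length_pi_of_fintype,
    ← La1_ord hϖ hdet, hassoc, La1_ord_prod _ _ fun i _ => ha0 i]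
  rfl

end GP80

end S_H80_GP_La1

section S_H80_GP_La2

/-!
# Row La2 (MP_87ed0a_GP): two length estimates by layers  (about 150 lines)

`O` is a DVR (only a commutative ring with a distinguished element `ϖ` is needed), `rho : O → k` surjective with
kernel `(ϖ)`.

`length_chain_le`: `J 0 ≤ J 1 ≤ ... ≤ J n` submodules of `M` with `ϖ J (i+1) ≤ J i`; if any `m i + 1` elements of
`J (i+1)` are dependent modulo `J i` (some coefficient not divisible by `ϖ`), then
`length (J n / J 0) ≤ ∑_{i<n} m i`.
Proof.  Additivity of length (`Module.length_eq_add_of_exact`, quotients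
`0 → J i/J 0 → J (i+1)/J 0 → J (i+1)/J i → 0`), so it is enough that `Q = J (i+1)/J i` has length `≤ m i`.  `Q` is killed by
`ϖ`, hence a `k`-vector space `W` through `rho` (choose preimages; or `Module.IsTorsionBySet.module` over `O ⧸ span {ϖ}` and the
iso `O ⧸ span{ϖ} ≃ k`), any `m i + 1` vectors of which are linearly dependent, so `dim_k W ≤ m i`, and `length_O Q = dim`
(`Module.length_eq_of_surjective`, `Module.length_eq_finrank`).

`length_ge_layers`: `red : M → Mb` semilinear surjective; if `ϖ^i x ∈ L` implies `red x ∈ W i` for all `i < n`, then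
`∑_{i<n} (dim Mb - dim W i) ≤ length (M/L)`.
Proof.  `Q = M/L`, `length Q ≥ ∑_{i<n} length (ϖ^i Q/ϖ^{i+1} Q)` (additivity, induction on `n`), and
`x ↦ red x mod W i` induces a surjection `ϖ^i Q/ϖ^{i+1} Q → Mb/W i`: if `ϖ^i x ∈ L + ϖ^{i+1} M`, then
`ϖ^i (x - ϖ y) ∈ L`, so `red x = red (x - ϖ y) ∈ W i` because `red (ϖ y) = rho ϖ • red y = 0`.
(Convenient: show by induction `∑_{i<n} ... + length (ϖ^n Q) ≤ length Q`; or use the chain of submodules
`L + ϖ^i M` of `M`: the map `M → (L + ϖ^i M)/(L+ϖ^{i+1} M)`, `x ↦ ϖ^i x`.)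
-/

namespace GP80

theorem La2_dim {O k : Type} [CommRing O] [Field k] (rho : O →+* k)
    (hs : Function.Surjective rho) {ϖ : O} (hker : ∀ a, rho a = 0 ↔ ϖ ∣ a)
    {Q : Type} [AddCommGroup Q] [Module O Q] (hϖ : ∀ x : Q, ϖ • x = 0) (m : ℕ)
    (hdep : ∀ x : Fin (m + 1) → Q, ∃ a : Fin (m + 1) → O,
      (∃ j, ¬ ϖ ∣ a j) ∧ ∑ j, a j • x j = 0) :
    Module.length O Q ≤ (m : ℕ∞) := by
  classical
  obtain ⟨I, hIdef⟩ : ∃ I : Ideal O, I = RingHom.ker rho := ⟨_, rfl⟩
  have hmem : ∀ a, a ∈ I ↔ ϖ ∣ a := by
    intro a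
    rw [hIdef, RingHom.mem_ker]
    exact hker a
  have hI : I.IsMaximal := by
    rw [hIdef]
    exact RingHom.ker_isMaximal_of_surjective rho hs
  have htors : Module.IsTorsionBySet O Q (I : Set O) := by
    intro x a
    obtain ⟨b, hb⟩ := (hmem a.1).1 a.2
    rw [hb, mul_smul]
    exact hϖ _
  let : Module (O ⧸ I) Q := htors.module
  have : IsScalarTower O (O ⧸ I) Q := htors.isScalarTower
  rw [Module.length_eq_of_surjective (R := O ⧸ I) (M := Q) Ideal.Quotient.mk_surjective]
  let : Field (O ⧸ I) := Ideal.Quotient.field I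
  have hr : Module.rank (O ⧸ I) Q ≤ (m : Cardinal) := by
    refine rank_le fun s hli => ?_
    by_contra hcon
    have hcard : m + 1 ≤ s.card := by omega
    obtain ⟨e⟩ : Nonempty (Fin (m + 1) ↪ {x // x ∈ s}) := by
      refine Function.Embedding.nonempty_of_card_le ?_
      rw [Fintype.card_fin, Fintype.card_coe]
      exact hcard
    have hli2 := hli.comp e e.injective
    obtain ⟨a, ⟨j, hj⟩, ha⟩ := hdep (fun i => ((e i : {x // x ∈ s}) : Q))
    have h1 := Fintype.linearIndependent_iff.1 hli2 (fun i => Ideal.Quotient.mk I (a i)) (by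
      rw [← ha]
      refine Finset.sum_congr rfl fun i _ => ?_
      rfl) j
    rw [Ideal.Quotient.eq_zero_iff_mem, hmem] at h1
    exact hj h1
  have h2 := Module.length_eq_rank (O ⧸ I) Q
  refine le_trans h2.le ?_
  exact Cardinal.toENat_le_natCast.2 hr

theorem La2_semi {O k : Type} [CommRing O] [Field k] (rho : O →+* k)
    (hs : Function.Surjective rho) {Q V : Type} [AddCommGroup Q] [Module O Q] [AddCommGroup V]
    [Module k V] (G : Q →ₛₗ[rho] V) (hG : Function.Surjective G) :
    Module.length k V ≤ Module.length O Q := by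
  let : Algebra O k := rho.toAlgebra
  let : Module O V := Module.compHom V rho
  have : IsScalarTower O k V := ⟨fun a b v => by
    change (rho a * b) • v = rho a • (b • v)
    rw [mul_smul]⟩
  rw [← Module.length_eq_of_surjective (S := O) (R := k) (M := V) hs]
  let G' : Q →ₗ[O] V :=
    { toFun := G
      map_add' := G.map_add
      map_smul' := fun a x => G.map_smulₛₗ a x }
  exact Module.length_le_of_surjective G' hG

theorem length_chain_le {O k : Type} [CommRing O] [Field k] (rho : O →+* k)
    (hs : Function.Surjective rho) {ϖ : O} (hker : ∀ a, rho a = 0 ↔ ϖ ∣ a)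
    {M : Type} [AddCommGroup M] [Module O M] (J : ℕ → Submodule O M) (hmono : ∀ i, J i ≤ J (i + 1))
    (hp : ∀ i, ∀ x ∈ J (i + 1), ϖ • x ∈ J i) (m : ℕ → ℕ)
    (hdep : ∀ i, ∀ x : Fin (m i + 1) → M, (∀ j, x j ∈ J (i + 1)) →
      ∃ a : Fin (m i + 1) → O, (∃ j, ¬ ϖ ∣ a j) ∧ ∑ j, a j • x j ∈ J i) (n : ℕ) :
    Module.length O (J n ⧸ (J 0).submoduleOf (J n)) ≤ ((∑ i ∈ Finset.range n, m i : ℕ) : ℕ∞) := by
  induction n with
  | zero =>
    have h1 : Subsingleton (J 0 ⧸ (J 0).submoduleOf (J 0)) := by
      refine ⟨fun a b => ?_⟩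
      obtain ⟨x, rfl⟩ := Submodule.mkQ_surjective _ a
      obtain ⟨y, rfl⟩ := Submodule.mkQ_surjective _ b
      rw [Submodule.mkQ_apply, Submodule.mkQ_apply, Submodule.Quotient.eq]
      exact (x - y).2
    rw [Module.length_eq_zero_iff.2 h1]
    exact bot_le
  | succ n ih =>
    let f : (J n ⧸ (J 0).submoduleOf (J n)) →ₗ[O] (J (n + 1) ⧸ (J 0).submoduleOf (J (n + 1))) :=
      Submodule.mapQ ((J 0).submoduleOf (J n)) ((J 0).submoduleOf (J (n + 1)))
        (Submodule.inclusion (hmono n)) (fun x hx => hx)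
    have hf : Function.Injective f := by
      rw [injective_iff_map_eq_zero]
      intro x hx
      obtain ⟨y, rfl⟩ := Submodule.mkQ_surjective _ x
      have h1 : ((J 0).submoduleOf (J (n + 1))).mkQ (Submodule.inclusion (hmono n) y) = 0 := hx
      rw [Submodule.mkQ_apply, Submodule.Quotient.mk_eq_zero] at h1
      rw [Submodule.mkQ_apply, Submodule.Quotient.mk_eq_zero]
      exact h1
    rw [Module.length_eq_add_of_exact f (LinearMap.range f).mkQ hf
      (Submodule.mkQ_surjective _) (LinearMap.exact_map_mkQ_range f), Finset.sum_range_succ,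
      Nat.cast_add]
    refine add_le_add ih ?_
    have hz : ∀ c : J (n + 1), (c : M) ∈ J n →
        (LinearMap.range f).mkQ (((J 0).submoduleOf (J (n + 1))).mkQ c) = 0 := by
      intro c hc
      rw [Submodule.mkQ_apply, Submodule.Quotient.mk_eq_zero]
      exact ⟨((J 0).submoduleOf (J n)).mkQ ⟨c, hc⟩, rfl⟩
    have hsurj : ∀ x : (J (n + 1) ⧸ (J 0).submoduleOf (J (n + 1))) ⧸ LinearMap.range f,
        ∃ c : J (n + 1), (LinearMap.range f).mkQ (((J 0).submoduleOf (J (n + 1))).mkQ c) = x := by
      intro x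
      obtain ⟨y, rfl⟩ := Submodule.mkQ_surjective _ x
      obtain ⟨c, rfl⟩ := Submodule.mkQ_surjective _ y
      exact ⟨c, rfl⟩
    refine La2_dim rho hs hker ?_ (m n) ?_
    · intro x
      obtain ⟨c, rfl⟩ := hsurj x
      rw [← LinearMap.map_smul, ← LinearMap.map_smul]
      exact hz _ (hp n c c.2)
    · intro x
      choose c hc using fun j => hsurj (x j)
      obtain ⟨a, ha1, ha2⟩ := hdep n (fun j => (c j : M)) (fun j => (c j).2)
      refine ⟨a, ha1, ?_⟩
      have h3 : ∑ j, a j • x j =
          (LinearMap.range f).mkQ (((J 0).submoduleOf (J (n + 1))).mkQ (∑ j, a j • c j)) := by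
        rw [map_sum, map_sum]
        refine Finset.sum_congr rfl fun j _ => ?_
        rw [LinearMap.map_smul, LinearMap.map_smul, hc]
      rw [h3]
      refine hz _ ?_
      rw [Submodule.coe_sum]
      exact ha2

theorem length_ge_layers {O k : Type} [CommRing O] [Field k] (rho : O →+* k)
    (hs : Function.Surjective rho) {ϖ : O} (hker : ∀ a, rho a = 0 ↔ ϖ ∣ a)
    {M Mb : Type} [AddCommGroup M] [Module O M] [AddCommGroup Mb] [Module k Mb]
    [FiniteDimensional k Mb] (red : M →ₛₗ[rho] Mb) (hred : Function.Surjective red)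
    (L : Submodule O M) (n : ℕ) (W : ℕ → Submodule k Mb)
    (hW : ∀ i < n, ∀ x : M, ϖ ^ i • x ∈ L → red x ∈ W i) :
    ((∑ i ∈ Finset.range n, (Module.finrank k Mb - Module.finrank k (W i)) : ℕ) : ℕ∞) ≤
      Module.length O (M ⧸ L) := by
  induction n generalizing L W with
  | zero =>
    rw [Finset.sum_range_zero, Nat.cast_zero]
    exact bot_le
  | succ n ih =>
    let φ : M →ₗ[O] M := LinearMap.lsmul O M ϖ
    let L' : Submodule O M := L.comap φ
    let f : (M ⧸ L') →ₗ[O] (M ⧸ L) := Submodule.mapQ L' L φ le_rfl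
    have hf : Function.Injective f := by
      rw [injective_iff_map_eq_zero]
      intro x hx
      obtain ⟨y, rfl⟩ := Submodule.mkQ_surjective _ x
      have h1 : L.mkQ (φ y) = 0 := hx
      rw [Submodule.mkQ_apply, Submodule.Quotient.mk_eq_zero] at h1
      rw [Submodule.mkQ_apply, Submodule.Quotient.mk_eq_zero]
      exact h1
    rw [Module.length_eq_add_of_exact f (LinearMap.range f).mkQ hf
      (Submodule.mkQ_surjective _) (LinearMap.exact_map_mkQ_range f), Finset.sum_range_succ',
      Nat.cast_add]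
    refine add_le_add ?_ ?_
    · refine ih L' (fun i => W (i + 1)) ?_
      intro i hi x hx
      refine hW (i + 1) (by omega) x ?_
      have h1 : ϖ • (ϖ ^ i • x) ∈ L := hx
      rw [pow_succ', mul_smul]
      exact h1
    · let G₀ : M →ₛₗ[rho] (Mb ⧸ W 0) := (W 0).mkQ.comp red
      have hG₀ : L ≤ LinearMap.ker G₀ := by
        intro x hx
        rw [LinearMap.mem_ker]
        change (W 0).mkQ (red x) = 0
        rw [Submodule.mkQ_apply, Submodule.Quotient.mk_eq_zero]
        refine hW 0 (by omega) x ?_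
        rw [pow_zero, one_smul]
        exact hx
      let G₁ : (M ⧸ L) →ₛₗ[rho] (Mb ⧸ W 0) := L.liftQ G₀ hG₀
      have hG₁ : LinearMap.range f ≤ LinearMap.ker G₁ := by
        rintro _ ⟨x, rfl⟩
        obtain ⟨y, rfl⟩ := Submodule.mkQ_surjective _ x
        rw [LinearMap.mem_ker]
        change (W 0).mkQ (red (ϖ • y)) = 0
        have h1 : rho ϖ = 0 := (hker ϖ).2 dvd_rfl
        rw [LinearMap.map_smulₛₗ, h1, zero_smul, map_zero]
      let G₂ := (LinearMap.range f).liftQ G₁ hG₁
      have hG₂ : Function.Surjective G₂ := by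
        intro z
        obtain ⟨w, rfl⟩ := Submodule.mkQ_surjective _ z
        obtain ⟨x, rfl⟩ := hred w
        exact ⟨(LinearMap.range f).mkQ (L.mkQ x), rfl⟩
      have h1 := La2_semi rho hs G₂ hG₂
      rw [Module.length_eq_finrank] at h1
      refine le_trans ?_ h1
      have h2 := Submodule.finrank_quotient_add_finrank (W 0)
      have h3 : Module.finrank k Mb - Module.finrank k (W 0) = Module.finrank k (Mb ⧸ W 0) := by
        omega
      rw [h3]

end GP80

end S_H80_GP_La2

section S_H80_GP_La3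

/-!
# Row La3 (MP_87ed0a_GP): length splitting along an evaluation map  (about 120 lines)

`O` DVR, `M` a module, `ev : M → O^I` linear, `L0 ≤ ker ev`, `β : I → M` with `det (ev β) ≠ 0`.  Then
`length (M / (L0 + span β)) ≤ multiplicity ϖ (det (ev β)) + length (ker ev / L0)`.

Proof.  Put `L = L0 ⊔ span β`, `K = ker ev`.
(1) `L ⊓ K = L0`: if `x = l + ∑ a_i β_i ∈ K` then `∑ a_i ev β_i = 0`, so `a = 0` (det ≠ 0, `O` domain).
(2) `length (M/L) = length (M/(L ⊔ K)) + length ((L ⊔ K)/L)` and `(L ⊔ K)/L ≃ K/(L ⊓ K) = K/L0`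
(`LinearMap.quotientInfEquivSupQuotient`).
(3) `M/(L ⊔ K)` embeds into `O^I / span (ev β)` through `ev`: kernel of `M → O^I/span(ev β)` is exactly `L ⊔ K`.  The length
of `O^I / span (ev β)` is `multiplicity ϖ (det)` by `length_mod_det` (row La1) with the standard basis
(`Pi.basisFun O I`; `(Pi.basisFun O I).toMatrix w = (Matrix.of w)ᵀ`, `Matrix.det_transpose`).
-/


namespace GP80

/-- `length (M/L) ≤ length (K/L0) + length (M/(L ⊔ K))` for `L0 ≤ L`. -/
theorem La3_sub {O : Type} [CommRing O] {M : Type} [AddCommGroup M] [Module O M]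
    (L0 L K : Submodule O M) (h0 : L0 ≤ L) :
    Module.length O (M ⧸ L) ≤
      Module.length O (K ⧸ L0.submoduleOf K) + Module.length O (M ⧸ (L ⊔ K)) := by
  have hle : L0.submoduleOf K ≤ L.comap K.subtype := fun x hx => h0 hx
  set i : (K ⧸ L0.submoduleOf K) →ₗ[O] (M ⧸ L) :=
    Submodule.mapQ (L0.submoduleOf K) L K.subtype hle with hi
  set q : (M ⧸ L) →ₗ[O] (M ⧸ (L ⊔ K)) := Submodule.factor (le_sup_left : L ≤ L ⊔ K) with hq
  have hex : Function.Exact (LinearMap.range i).subtype q := by
    intro y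
    obtain ⟨m, rfl⟩ := Submodule.mkQ_surjective L y
    have hqm : q (L.mkQ m) = (L ⊔ K).mkQ m := rfl
    constructor
    · intro hy
      rw [hqm, Submodule.mkQ_apply, Submodule.Quotient.mk_eq_zero, Submodule.mem_sup] at hy
      obtain ⟨l, hl, k, hk, rfl⟩ := hy
      refine ⟨⟨L.mkQ (l + k), ?_⟩, rfl⟩
      refine ⟨(L0.submoduleOf K).mkQ ⟨k, hk⟩, ?_⟩
      show L.mkQ k = L.mkQ (l + k)
      rw [map_add]
      have : L.mkQ l = 0 := by
        rw [Submodule.mkQ_apply, Submodule.Quotient.mk_eq_zero]
        exact hl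
      rw [this, zero_add]
    · rintro ⟨⟨z, hz⟩, hz2⟩
      obtain ⟨w, rfl⟩ := hz
      obtain ⟨k, rfl⟩ := Submodule.mkQ_surjective _ w
      have h1 : L.mkQ (k : M) = L.mkQ m := hz2
      rw [← h1]
      show (L ⊔ K).mkQ (k : M) = 0
      rw [Submodule.mkQ_apply, Submodule.Quotient.mk_eq_zero]
      exact (le_sup_right : K ≤ L ⊔ K) k.2
  rw [Module.length_eq_add_of_exact (LinearMap.range i).subtype q
    (Submodule.subtype_injective _) (Submodule.factor_surjective _) hex]
  refine add_le_add ?_ le_rfl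
  exact Module.length_le_of_surjective i.rangeRestrict i.surjective_rangeRestrict

theorem length_split {O : Type} [CommRing O] [IsDomain O] [IsDiscreteValuationRing O]
    {ϖ : O} (hϖ : Prime ϖ) {M : Type} [AddCommGroup M] [Module O M] {I : Type} [Fintype I]
    [DecidableEq I] (ev : M →ₗ[O] (I → O)) (L0 : Submodule O M) (hL0 : L0 ≤ LinearMap.ker ev)
    (β : I → M) (hdet : (Matrix.of fun i => ev (β i)).det ≠ 0) :
    Module.length O (M ⧸ (L0 ⊔ Submodule.span O (Set.range β))) ≤
      ((multiplicity ϖ (Matrix.of fun i => ev (β i)).det : ℕ) : ℕ∞) +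
        Module.length O (LinearMap.ker ev ⧸ L0.submoduleOf (LinearMap.ker ev)) := by
  set K := LinearMap.ker ev with hK
  set S := Submodule.span O (Set.range β) with hS
  have h1 := La3_sub L0 (L0 ⊔ S) K le_sup_left
  refine h1.trans ?_
  rw [add_comm]
  refine add_le_add ?_ le_rfl
  -- the embedding
  have hD : Submodule.span O (Set.range fun i => ev (β i)) = S.map ev := by
    rw [hS, Submodule.map_span, ← Set.range_comp]
    rfl
  have hker : LinearMap.ker ((S.map ev).mkQ.comp ev) = L0 ⊔ S ⊔ K := by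
    rw [LinearMap.ker_comp, Submodule.ker_mkQ, Submodule.comap_map_eq, ← hK]
    apply le_antisymm
    · exact sup_le_sup_right le_sup_right K
    · exact sup_le (sup_le (hL0.trans le_sup_right) le_sup_left) le_sup_right
  have hle : L0 ⊔ S ⊔ K ≤ LinearMap.ker ((S.map ev).mkQ.comp ev) := hker.ge
  have hinj : Function.Injective ((L0 ⊔ S ⊔ K).liftQ ((S.map ev).mkQ.comp ev) hle) := by
    rw [← LinearMap.ker_eq_bot, Submodule.ker_liftQ_eq_bot _ _ _ hker.le]
  have h2 := Module.length_le_of_injective _ hinj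
  refine h2.trans (le_of_eq ?_)
  rw [← hD]
  have hmat : (Pi.basisFun O I).toMatrix (fun i => ev (β i)) =
      (Matrix.of fun i => ev (β i)).transpose := by
    ext a b
    rfl
  have hdet' : ((Pi.basisFun O I).toMatrix (fun i => ev (β i))).det ≠ 0 := by
    rw [hmat, Matrix.det_transpose]
    exact hdet
  have h3 := length_mod_det hϖ (Pi.basisFun O I) (fun i => ev (β i)) hdet'
  rw [hmat, Matrix.det_transpose] at h3
  exact h3

end GP80

end S_H80_GP_La3
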