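import Mathlib
import Pool.Agent.H80.M87.G01

/-! MP_87ed0a_ag: this file joins several modules to save build time. -/

section S_H80_GP_Kp2

/-!
# Row Kp2 (MP_87ed0a_GP): divisors of forms are forms, gcd of an ideal  (about 100 lines)

* `homog_of_mul`: in a domain, if `f g` is homogeneous of degree `n` and nonzero, then `f` is homogeneous of some degree `a`, `g` of
  degree `b`, `a + b = n`.  Proof: lowest and highest homogeneous components of `f` and `g`: the products of the highest components (degree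
  `totalDegree f + totalDegree g`) and of the lowest components are nonzero components of `f g`, so both degrees are `n`; hence the
  lowest and the highest degree of `f` agree.  (Possible tool: substitute `X_i ↦ T X_i` in `Polynomial (MvPolynomial σ k)`: `f g` becomes `T^n f g`, a
  monomial in `T`, and factors of a monomial in `T` over a domain are monomials in `T`; or search Mathlib for
  `IsHomogeneous.of_mul`/`isHomogeneous_of_mul`.)
* `homog_of_mul_left`: if in addition `f` is known to be homogeneous of degree `a`, `f ≠ 0`, then `g` is homogeneous of degree `n - a` and `a ≤ n`.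
* `exists_gcd_ideal`: a nonzero ideal `B` of the UFD `k[X]` has a gcd `Δ` with the strong property
  (`g ∣ x q` for all `q ∈ B` implies `g ∣ x Δ`).  Proof: `B` is generated by a finite set (Noetherian); `Δ` = gcd of the generators
  (`UniqueFactorizationMonoid.toGCDMonoid`, `Finset.gcd`), `gcd (x q_i) = x gcd (q_i)` up to units (`Finset.gcd_mul_left`).
-/

namespace GP80

open MvPolynomial

/-- substitute `X_i ↦ T X_i` -/
private noncomputable def Kp2_phi (σ K : Type) [CommRing K] :
    MvPolynomial σ K →+* Polynomial (MvPolynomial σ K) :=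
  eval₂Hom (Polynomial.C.comp C) (fun i => Polynomial.X * Polynomial.C (X i))

private theorem Kp2_mono {σ K : Type} [CommRing K] (d : σ →₀ ℕ) (r : K) :
    Kp2_phi σ K (monomial d r) = Polynomial.C (monomial d r) * Polynomial.X ^ d.degree := by
  unfold Kp2_phi
  rw [eval₂Hom_monomial, monomial_eq, map_mul, Finsupp.prod, Finsupp.prod]
  simp only [mul_pow, Finset.prod_mul_distrib, Finset.prod_pow_eq_pow_sum, RingHom.comp_apply]
  rw [map_prod, Finsupp.degree_apply]
  simp only [map_pow]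
  ring

private theorem Kp2_coeff {σ K : Type} [CommRing K] (f : MvPolynomial σ K) (m : ℕ) :
    (Kp2_phi σ K f).coeff m = homogeneousComponent m f := by
  classical
  induction f using MvPolynomial.induction_on' with
  | monomial d r =>
    rw [Kp2_mono, Polynomial.coeff_C_mul, Polynomial.coeff_X_pow]
    ext e
    rw [coeff_homogeneousComponent]
    by_cases h : m = d.degree
    · rw [if_pos h, mul_one, h]
      split_ifs with h2
      · rfl
      · rw [coeff_monomial, if_neg]
        intro h3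
        rw [h3] at h2
        exact h2 rfl
    · rw [if_neg h, mul_zero, coeff_zero]
      split_ifs with h2
      · rw [coeff_monomial, if_neg]
        intro h3
        rw [h3] at h
        exact h h2.symm
      · rfl
  | add p q hp hq => rw [map_add, Polynomial.coeff_add, hp, hq, map_add]

private theorem Kp2_hom {σ K : Type} [CommRing K] {f : MvPolynomial σ K} {a : ℕ}
    (h : ∀ m, m ≠ a → homogeneousComponent m f = 0) : f.IsHomogeneous a := by
  have h1 : f = homogeneousComponent a f := by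
    ext d
    rw [coeff_homogeneousComponent]
    split_ifs with h2
    · rfl
    · have h3 := congrArg (coeff d) (h _ h2)
      rw [coeff_homogeneousComponent, if_pos rfl, coeff_zero] at h3
      exact h3
  rw [h1]
  exact homogeneousComponent_isHomogeneous a f

private theorem Kp2_mul {σ K : Type} [CommRing K] {f : MvPolynomial σ K} {n : ℕ}
    (h : f.IsHomogeneous n) : Kp2_phi σ K f = Polynomial.monomial n f := by
  ext1 m
  rw [Kp2_coeff, Polynomial.coeff_monomial,
    homogeneousComponent_of_mem ((mem_homogeneousSubmodule n f).2 h)]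
  by_cases h1 : m = n
  · rw [if_pos h1, if_pos h1.symm]
  · rw [if_neg h1, if_neg (Ne.symm h1)]

theorem homog_of_mul {σ K : Type} [CommRing K] [IsDomain K] {f g : MvPolynomial σ K} {n : ℕ}
    (h : (f * g).IsHomogeneous n) (h0 : f * g ≠ 0) :
    ∃ a b : ℕ, a + b = n ∧ f.IsHomogeneous a ∧ g.IsHomogeneous b := by
  classical
  have h1 := Kp2_mul h
  rw [map_mul] at h1
  have hne : Kp2_phi σ K f * Kp2_phi σ K g ≠ 0 := by
    rw [h1]
    exact (Polynomial.monomial_eq_zero_iff _ _).not.2 h0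
  have hF := left_ne_zero_of_mul hne
  have hG := right_ne_zero_of_mul hne
  have h2 := Polynomial.natDegree_mul hF hG
  rw [h1, Polynomial.natDegree_monomial, if_neg h0] at h2
  have h3 := Polynomial.natTrailingDegree_mul hF hG
  rw [h1, Polynomial.natTrailingDegree_monomial h0] at h3
  have h4 := Polynomial.natTrailingDegree_le_natDegree (Kp2_phi σ K f)
  have h5 := Polynomial.natTrailingDegree_le_natDegree (Kp2_phi σ K g)
  refine ⟨(Kp2_phi σ K f).natDegree, (Kp2_phi σ K g).natDegree, h2.symm, ?_, ?_⟩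
  · refine Kp2_hom fun m hm => ?_
    rw [← Kp2_coeff]
    rcases lt_or_gt_of_ne hm with h6 | h6
    · exact Polynomial.coeff_eq_zero_of_lt_natTrailingDegree (by omega)
    · exact Polynomial.coeff_eq_zero_of_natDegree_lt h6
  · refine Kp2_hom fun m hm => ?_
    rw [← Kp2_coeff]
    rcases lt_or_gt_of_ne hm with h6 | h6
    · exact Polynomial.coeff_eq_zero_of_lt_natTrailingDegree (by omega)
    · exact Polynomial.coeff_eq_zero_of_natDegree_lt h6

theorem homog_of_mul_left {σ K : Type} [CommRing K] [IsDomain K] {f g : MvPolynomial σ K} {n a : ℕ}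
    (h : (f * g).IsHomogeneous n) (hf : f.IsHomogeneous a) (h0 : f * g ≠ 0) :
    a ≤ n ∧ g.IsHomogeneous (n - a) := by
  obtain ⟨a', b, h1, h2, h3⟩ := homog_of_mul h h0
  have h4 : a = a' := hf.inj_right h2 (left_ne_zero_of_mul h0)
  have h5 : n - a = b := by omega
  rw [h5]
  exact ⟨by omega, h3⟩

private theorem Kp2_gcd {R : Type} [CommRing R] [IsDomain R] [GCDMonoid R] (S : Finset R) :
    ∃ Δ : R, (∀ q ∈ S, Δ ∣ q) ∧ ∀ x g : R, (∀ q ∈ S, g ∣ x * q) → g ∣ x * Δ := by
  classical
  induction S using Finset.induction_on with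
  | empty => exact ⟨0, fun q hq => absurd hq (Finset.notMem_empty q), fun x g _ => by simp⟩
  | insert q0 S hq0 ih =>
    obtain ⟨Δ, h1, h2⟩ := ih
    refine ⟨gcd q0 Δ, fun q hq => ?_, fun x g hg => ?_⟩
    · rcases Finset.mem_insert.1 hq with rfl | hq
      · exact gcd_dvd_left _ _
      · exact (gcd_dvd_right _ _).trans (h1 q hq)
    · have h3 := hg q0 (Finset.mem_insert_self _ _)
      have h4 := h2 x g fun q hq => hg q (Finset.mem_insert_of_mem hq)
      exact (dvd_gcd h3 h4).trans (gcd_mul_left' x q0 Δ).dvd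

theorem exists_gcd_ideal {k : Type} [Field k] (B : Ideal (MvPolynomial (Fin 3) k)) (hB : B ≠ ⊥) :
    ∃ Δ : MvPolynomial (Fin 3) k, (∀ q ∈ B, Δ ∣ q) ∧
      ∀ x g : MvPolynomial (Fin 3) k, (∀ q ∈ B, g ∣ x * q) → g ∣ x * Δ := by
  classical
  let _ := UniqueFactorizationMonoid.toGCDMonoid (MvPolynomial (Fin 3) k)
  obtain ⟨S, hS⟩ := (isNoetherian_def.1 (inferInstance : IsNoetherian (MvPolynomial (Fin 3) k)
    (MvPolynomial (Fin 3) k))) B
  obtain ⟨Δ, h1, h2⟩ := Kp2_gcd S
  refine ⟨Δ, fun q hq => ?_, fun x g hg => h2 x g fun q hq => hg q ?_⟩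
  · have h3 : B ≤ Ideal.span {Δ} := by
      rw [← hS]
      refine Submodule.span_le.2 fun q hq => ?_
      exact Ideal.mem_span_singleton.2 (h1 q hq)
    exact Ideal.mem_span_singleton.1 (h3 hq)
  · rw [← hS]
    exact Submodule.subset_span hq

end GP80

end S_H80_GP_Kp2

section S_H80_GP_Rla

/-!
# Row Rla (MP_87ed0a_GP): calculus of the relation `Rel` (section 1, definition of the layers)  (about 180 lines)

`Rel i h q : pi^i h = A F + B G, rho A = q G', rho B = - q F'`.  `J = (F, G)`.  `h : SatS ...`: `rho F = Γ F'`, `rho G = Γ G'`.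
`MvPolynomial.map rho` is surjective (`rho` is), and `map rho A = 0 ↔ C pi ∣ A` (coefficientwise, `S.ker`).

* `kosO` : `A F + B G = 0 → A = r G, B = - r F`.  From `kos`: `pi^m A = r G`, `pi^m B = - r F`; if `m ≥ 1`, reduce: `rho r * Γ G' = 0`, so `rho r = 0`,
  `r = pi r'`, cancel `pi`; induction on `m`.
* `rel_exists` : `pi^i h = A F + B G`, `i ≥ 1`: reduce: `Γ (A' F' + B' G') = 0`, so `A' F' = - B' G'`; `F', G'` coprime gives `G' ∣ A'`
  (`IsRelPrime.dvd_of_dvd_mul_right...`), `A' = q G'`, and `B' = - q F'`.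
* homogeneous version `rel_exists_hom`: for `h` homogeneous of degree `t` one may take `A, B` homogeneous of degrees `t - c`, `t - d` (take
  components: `homogeneousComponent t` of `A F` is `(component t-c of A) F`, and `0` if `t < c`); then `q G' = rho A` gives `q`
  homogeneous of degree `t - c - (d - kk) = t + kk - (c + d)` (Kp2 `homog_of_mul_left`), and `q = 0` if this is negative.
* `rel_zero_dvd` : `A F + B G = 0`, so `A = r G` (`kosO`), `q G' = rho r * Γ G'`, `q = rho r * Γ`.
* `rel_dvd` : `pi^(i-1) h = A' F + B' G` gives `(A - pi A') F + (B - pi B') G = 0`, so as above `q = rho r * Γ`.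
* `rel_down` : `q = Γ q'`; lift `q'` to `r`; `A - r G`, `B + r F` are divisible by `pi`, and
  `pi^i h = (A - r G) F + (B + r F) G`; cancel `pi`.
* `rel_up`, `rel_add`, `rel_smul`, `rel_syz` : immediate.
-/

set_option linter.unusedSectionVars false

namespace GP80

open MvPolynomial

variable {O k I : Type} [CommRing O] [IsDomain O] [Field k] [Fintype I] {D0 c d kk : ℕ}
  {S : GeoS O k I D0} {F G : MvPolynomial (Fin 3) O} {Γ F' G' : MvPolynomial (Fin 3) k}

theorem map_eq_zero_iff (S : GeoS O k I D0) (A : MvPolynomial (Fin 3) O) :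
    map S.rho A = 0 ↔ C S.pi ∣ A := by
  rw [C_dvd_iff_dvd_coeff, MvPolynomial.ext_iff]
  refine forall_congr' fun m => ?_
  rw [coeff_map, coeff_zero, S.ker]

theorem C_pi_prime (S : GeoS O k I D0) : Prime (C S.pi : MvPolynomial (Fin 3) O) := by
  exact (prime_C_iff _).2 S.prime

theorem kosO (h : SatS S c d F G Γ F' G' kk) (A B : MvPolynomial (Fin 3) O)
    (hAB : A * F + B * G = 0) : ∃ r, A = r * G ∧ B = -(r * F) := by
  have h0 : (C S.pi : MvPolynomial (Fin 3) O) ≠ 0 := (C_pi_prime S).ne_zero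
  have key : ∀ (m : ℕ) (r : MvPolynomial (Fin 3) O), C (S.pi ^ m) * A = r * G →
      C (S.pi ^ m) * B = -(r * F) → ∃ r, A = r * G ∧ B = -(r * F) := by
    intro m
    induction m with
    | zero =>
      intro r h1 h2
      rw [pow_zero, C_1, one_mul] at h1 h2
      exact ⟨r, h1, h2⟩
    | succ m ih =>
      intro r h1 h2
      have h3 : map S.rho r * (Γ * G') = 0 := by
        rw [← h.eG, ← map_mul, ← h1, map_eq_zero_iff]
        exact ⟨C (S.pi ^ m) * A, by rw [pow_succ, C_mul]; ring⟩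
      have h4 : map S.rho r = 0 := by
        rcases mul_eq_zero.1 h3 with h5 | h5
        · exact h5
        · exact absurd h5 (mul_ne_zero h.nzΓ h.nzG)
      obtain ⟨r', rfl⟩ := (map_eq_zero_iff S r).1 h4
      refine ih r' (mul_left_cancel₀ h0 ?_) (mul_left_cancel₀ h0 ?_)
      · rw [← mul_assoc, ← C_mul, ← pow_succ', h1, mul_assoc]
      · rw [← mul_assoc, ← C_mul, ← pow_succ', h2]
        ring
  obtain ⟨m, r, h1, h2⟩ := h.pair.kos A B hAB
  exact key m r h1 h2

theorem rel_add {i : ℕ} {f g : MvPolynomial (Fin 3) O} {q r : MvPolynomial (Fin 3) k}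
    (h1 : Rel S F G F' G' i f q) (h2 : Rel S F G F' G' i g r) :
    Rel S F G F' G' i (f + g) (q + r) := by
  obtain ⟨A, B, a1, a2, a3⟩ := h1
  obtain ⟨A', B', b1, b2, b3⟩ := h2
  refine ⟨A + A', B + B', ?_, ?_, ?_⟩
  · rw [mul_add, a1, b1]; ring
  · rw [map_add, a2, b2]; ring
  · rw [map_add, a3, b3]; ring

theorem rel_smul {i : ℕ} {f : MvPolynomial (Fin 3) O} {q : MvPolynomial (Fin 3) k}
    (h1 : Rel S F G F' G' i f q) (r : MvPolynomial (Fin 3) O) :
    Rel S F G F' G' i (r * f) (map S.rho r * q) := by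
  obtain ⟨A, B, a1, a2, a3⟩ := h1
  refine ⟨r * A, r * B, ?_, ?_, ?_⟩
  · rw [mul_left_comm, a1]; ring
  · rw [map_mul, a2]; ring
  · rw [map_mul, a3]; ring

theorem rel_syz (h : SatS S c d F G Γ F' G' kk) (i : ℕ) (q : MvPolynomial (Fin 3) k) :
    Rel S F G F' G' i 0 (Γ * q) := by
  obtain ⟨r, rfl⟩ := map_surjective S.rho S.surj q
  refine ⟨r * G, -(r * F), by ring, ?_, ?_⟩
  · rw [map_mul, h.eG]; ring
  · rw [map_neg, map_mul, h.eF]; ring

theorem rel_up {i : ℕ} {f : MvPolynomial (Fin 3) O} {q : MvPolynomial (Fin 3) k}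
    (h1 : Rel S F G F' G' (i + 1) f q) : Rel S F G F' G' i (C S.pi * f) q := by
  obtain ⟨A, B, a1, a2, a3⟩ := h1
  refine ⟨A, B, ?_, a2, a3⟩
  rw [← a1, pow_succ, C_mul, mul_assoc]

/-- lowering the level: the first layer contains everything -/
theorem rel_one (h : SatS S c d F G Γ F' G' kk) :
    ∃ f, Rel S F G F' G' 1 f 1 := by
  obtain ⟨A, hA⟩ := map_surjective S.rho S.surj G'
  obtain ⟨B, hB⟩ := map_surjective S.rho S.surj (-F')
  have h1 : map S.rho (A * F + B * G) = 0 := by
    rw [map_add, map_mul, map_mul, hA, hB, h.eF, h.eG]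
    ring
  obtain ⟨f, hf⟩ := (map_eq_zero_iff S _).1 h1
  refine ⟨f, A, B, ?_, ?_, ?_⟩
  · rw [pow_one, ← hf]
  · rw [hA, one_mul]
  · rw [hB, one_mul]

theorem Rla_coprime (h : SatS S c d F G Γ F' G' kk) {i : ℕ} (hi : 1 ≤ i)
    (f A B : MvPolynomial (Fin 3) O) (hAB : A * F + B * G = C (S.pi ^ i) * f) :
    ∃ q, map S.rho A = q * G' ∧ map S.rho B = -(q * F') := by
  have h1 : map S.rho A * (Γ * F') + map S.rho B * (Γ * G') = 0 := by
    rw [← h.eF, ← h.eG, ← map_mul, ← map_mul, ← map_add, hAB, map_eq_zero_iff]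
    obtain ⟨j, rfl⟩ : ∃ j, i = j + 1 := ⟨i - 1, by omega⟩
    exact ⟨C (S.pi ^ j) * f, by rw [pow_succ, C_mul]; ring⟩
  have h2 : map S.rho A * F' + map S.rho B * G' = 0 := by
    refine (mul_eq_zero.1 (?_ : Γ * (map S.rho A * F' + map S.rho B * G') = 0)).resolve_left h.nzΓ
    rw [← h1]
    ring
  have h3 : G' ∣ map S.rho A * F' := ⟨-map S.rho B, by linear_combination h2⟩
  obtain ⟨q, hq⟩ := h.cop.symm.dvd_of_dvd_mul_right h3
  refine ⟨q, by rw [hq, mul_comm], ?_⟩
  refine mul_right_cancel₀ h.nzG ?_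
  rw [hq] at h2
  linear_combination h2

theorem Rla_comp {R : Type*} [CommRing R] {c : ℕ} {A F : MvPolynomial (Fin 3) R}
    (hF : F.IsHomogeneous c) (t : ℕ) :
    ∃ A', homogeneousComponent t (A * F) = A' * F ∧
      (A' = 0 ∨ (c ≤ t ∧ A'.IsHomogeneous (t - c))) := by
  have h1 : homogeneousComponent t (A * F) = ∑ i ∈ Finset.range (A.totalDegree + 1),
      if i + c = t then homogeneousComponent i A * F else 0 := by
    conv_lhs => rw [← sum_homogeneousComponent A, Finset.sum_mul, map_sum]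
    refine Finset.sum_congr rfl fun i _ => ?_
    have h2 : homogeneousComponent i A * F ∈ homogeneousSubmodule (Fin 3) R (i + c) :=
      (homogeneousComponent_isHomogeneous i A).mul hF
    rw [homogeneousComponent_of_mem h2]
    simp only [eq_comm]
  by_cases hc : c ≤ t
  · refine ⟨homogeneousComponent (t - c) A, ?_,
      Or.inr ⟨hc, homogeneousComponent_isHomogeneous _ _⟩⟩
    rw [h1]
    have h3 : ∀ i ∈ Finset.range (A.totalDegree + 1),
        (if i + c = t then homogeneousComponent i A * F else 0) =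
          if i = t - c then homogeneousComponent i A * F else 0 := by
      intro i _
      have : i + c = t ↔ i = t - c := by omega
      simp only [this]
    rw [Finset.sum_congr rfl h3, Finset.sum_ite_eq']
    split_ifs with h4
    · rfl
    · rw [Finset.mem_range, not_lt] at h4
      rw [homogeneousComponent_eq_zero _ _ (by omega), zero_mul]
  · refine ⟨0, ?_, Or.inl rfl⟩
    rw [h1, zero_mul]
    refine Finset.sum_eq_zero fun i _ => ?_
    rw [if_neg (by omega)]

theorem rel_exists (h : SatS S c d F G Γ F' G' kk) {i : ℕ} (hi : 1 ≤ i)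
    {f : MvPolynomial (Fin 3) O} (hf : C (S.pi ^ i) * f ∈ Ideal.span {F, G}) :
    ∃ q, Rel S F G F' G' i f q := by
  rw [Ideal.mem_span_pair] at hf
  obtain ⟨A, B, hAB⟩ := hf
  obtain ⟨q, h1, h2⟩ := Rla_coprime h hi f A B hAB
  exact ⟨q, A, B, hAB.symm, h1, h2⟩

theorem rel_exists_hom (h : SatS S c d F G Γ F' G' kk) {i : ℕ} (hi : 1 ≤ i)
    {f : MvPolynomial (Fin 3) O} {t : ℕ} (ht : f.IsHomogeneous t)
    (hf : C (S.pi ^ i) * f ∈ Ideal.span {F, G}) :
    ∃ q, Rel S F G F' G' i f q ∧ (c + d ≤ t + kk → q.IsHomogeneous (t + kk - (c + d))) ∧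
      (t + kk < c + d → q = 0) := by
  rw [Ideal.mem_span_pair] at hf
  obtain ⟨A₀, B₀, hAB₀⟩ := hf
  obtain ⟨A, hA, hA'⟩ := Rla_comp (A := A₀) h.pair.hF t
  obtain ⟨B, hB, -⟩ := Rla_comp (A := B₀) h.pair.hG t
  have hAB : A * F + B * G = C (S.pi ^ i) * f := by
    rw [← hA, ← hB, ← map_add, hAB₀]
    exact homogeneousComponent_eq_self (ht.C_mul _)
  obtain ⟨q, h1, h2⟩ := Rla_coprime h hi f A B hAB
  refine ⟨q, ⟨A, B, hAB.symm, h1, h2⟩, ?_⟩
  by_cases hq : q = 0
  · rw [hq]
    exact ⟨fun _ => isHomogeneous_zero _ _ _, fun _ => rfl⟩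
  · have h3 : map S.rho A ≠ 0 := by
      rw [h1]
      exact mul_ne_zero hq h.nzG
    have h4 : c ≤ t ∧ A.IsHomogeneous (t - c) := by
      rcases hA' with h5 | h5
      · rw [h5, map_zero] at h3
        exact absurd rfl h3
      · exact h5
    have h5 : (G' * q).IsHomogeneous (t - c) := by
      rw [mul_comm, ← h1]
      exact h4.2.map _
    have h6 := homog_of_mul_left h5 h.hG' (mul_ne_zero h.nzG hq)
    have h7 : kk ≤ d := by
      have h8 : (Γ * G').IsHomogeneous d := by
        rw [← h.eG]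
        exact h.pair.hG.map _
      exact (homog_of_mul_left h8 h.hΓ (mul_ne_zero h.nzΓ h.nzG)).1
    have h8 := h.lt
    refine ⟨fun h9 => ?_, fun h9 => ?_⟩
    · have e : t + kk - (c + d) = t - c - (d - kk) := by omega
      rw [e]
      exact h6.2
    · exfalso
      omega

theorem rel_zero_dvd (h : SatS S c d F G Γ F' G' kk) {i : ℕ} {q : MvPolynomial (Fin 3) k}
    (h1 : Rel S F G F' G' i 0 q) : Γ ∣ q := by
  obtain ⟨A, B, a1, a2, a3⟩ := h1
  rw [mul_zero] at a1
  obtain ⟨r, hr, -⟩ := kosO h A B a1.symm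
  refine ⟨map S.rho r, mul_right_cancel₀ h.nzG ?_⟩
  rw [← a2, hr, map_mul, h.eG]
  ring

theorem rel_uniq (h : SatS S c d F G Γ F' G' kk) {i : ℕ} {f : MvPolynomial (Fin 3) O}
    {q r : MvPolynomial (Fin 3) k} (h1 : Rel S F G F' G' i f q) (h2 : Rel S F G F' G' i f r) :
    Γ ∣ q - r := by
  obtain ⟨A, B, a1, a2, a3⟩ := h1
  obtain ⟨A', B', b1, b2, b3⟩ := h2
  refine rel_zero_dvd (i := i) h ⟨A - A', B - B', ?_, ?_, ?_⟩
  · linear_combination a1 - b1
  · rw [map_sub, a2, b2]; ring
  · rw [map_sub, a3, b3]; ring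

theorem rel_dvd (h : SatS S c d F G Γ F' G' kk) {i : ℕ} {f : MvPolynomial (Fin 3) O}
    {q : MvPolynomial (Fin 3) k} (h1 : Rel S F G F' G' (i + 1) f q)
    (hf : C (S.pi ^ i) * f ∈ Ideal.span {F, G}) : Γ ∣ q := by
  obtain ⟨A, B, a1, a2, a3⟩ := h1
  rw [Ideal.mem_span_pair] at hf
  obtain ⟨A', B', hAB⟩ := hf
  have hz : map S.rho (C S.pi : MvPolynomial (Fin 3) O) = 0 :=
    (map_eq_zero_iff S _).2 dvd_rfl
  refine rel_zero_dvd (i := 0) h ⟨A - C S.pi * A', B - C S.pi * B', ?_, ?_, ?_⟩
  · rw [pow_succ, C_mul] at a1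
    linear_combination a1 + C S.pi * hAB
  · rw [map_sub, map_mul, hz, a2]; ring
  · rw [map_sub, map_mul, hz, a3]; ring

theorem rel_down (h : SatS S c d F G Γ F' G' kk) {i : ℕ} {f : MvPolynomial (Fin 3) O}
    {q : MvPolynomial (Fin 3) k} (h1 : Rel S F G F' G' (i + 1) f (Γ * q)) :
    C (S.pi ^ i) * f ∈ Ideal.span {F, G} := by
  obtain ⟨A, B, a1, a2, a3⟩ := h1
  obtain ⟨r, rfl⟩ := map_surjective S.rho S.surj q
  have h2 : map S.rho (A - r * G) = 0 := by
    rw [map_sub, map_mul, a2, h.eG]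
    ring
  have h3 : map S.rho (B + r * F) = 0 := by
    rw [map_add, map_mul, a3, h.eF]
    ring
  obtain ⟨A', hA'⟩ := (map_eq_zero_iff S _).1 h2
  obtain ⟨B', hB'⟩ := (map_eq_zero_iff S _).1 h3
  rw [Ideal.mem_span_pair]
  refine ⟨A', B', mul_left_cancel₀ (C_pi_prime S).ne_zero ?_⟩
  rw [pow_succ, C_mul] at a1
  linear_combination (-F) * hA' - G * hB' - a1

end GP80

end S_H80_GP_Rla

section S_H80_GP_Nex

/-!
# Row Nex (MP_87ed0a_GP): the last layer `n`  (about 90 lines)

`InI h` : some `pi^m h ∈ (F, G)`.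
* `exists_last`: there is a smallest `n` with `pi^n h ∈ (F, G)` for all `h` with `InI h`.  Proof: the ideals `J_i = {h : pi^i h ∈ (F,G)}` increase; `O[X]` is
  Noetherian (`O` is a DVR), so they stabilise (`monotone_stabilizes_iff_noetherian`); `Nat.find`.
* `last_rel`: for `1 ≤ i ≤ n` there are `h, q` with `Rel i h q` and `¬ Γ ∣ q`: by minimality there is `f` with `InI f` and
  `pi^(n-1) f ∉ (F,G)`; put `h = pi^(n-i) f`: `pi^i h = pi^n f ∈ (F,G)`, `pi^(i-1) h = pi^(n-1) f ∉ (F,G)`; `rel_exists` and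
  `rel_down` (if `q = Γ q'` then `pi^(i-1) h ∈ (F,G)`).
* `rel_big`: if `i > n` and `Rel i h q`, then `Γ ∣ q`: `InI h`, so `pi^n h ∈ (F,G)`, hence `pi^(i-1) h ∈ (F,G)`, `rel_dvd`.
* `vanish_of_InI`: `InI f → eval (v z) f = 0` (`pi^m f(v) = 0`).
* `InI_of_vanish` : `f` homogeneous vanishing at all points (`gen`).
-/

namespace GP80

set_option linter.unusedSectionVars false

open MvPolynomial

variable {O k I : Type} [CommRing O] [IsDomain O] [Field k] [Fintype I] {D0 c d kk : ℕ}
  {S : GeoS O k I D0} {F G : MvPolynomial (Fin 3) O} {Γ F' G' : MvPolynomial (Fin 3) k}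

/-- `n` is the last layer -/
def IsLast (S : GeoS O k I D0) (F G : MvPolynomial (Fin 3) O) (n : ℕ) : Prop :=
  (∀ f, InI S F G f → C (S.pi ^ n) * f ∈ Ideal.span {F, G}) ∧
    ∀ m < n, ∃ f, InI S F G f ∧ C (S.pi ^ m) * f ∉ Ideal.span {F, G}

omit [IsDomain O] in
theorem Nex_mono (S : GeoS O k I D0) {i j : ℕ} (hij : i ≤ j) {f : MvPolynomial (Fin 3) O}
    (hf : C (S.pi ^ i) * f ∈ Ideal.span {F, G}) : C (S.pi ^ j) * f ∈ Ideal.span {F, G} := by
  obtain ⟨l, rfl⟩ := Nat.exists_eq_add_of_le hij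
  have e : C (S.pi ^ (i + l)) * f = C (S.pi ^ l) * (C (S.pi ^ i) * f) := by
    rw [pow_add, C_mul]
    ring
  rw [e]
  exact Ideal.mul_mem_left _ _ hf

/-- the ideal `{h : pi^i h ∈ (F, G)}` -/
def Nex_J (S : GeoS O k I D0) (F G : MvPolynomial (Fin 3) O) (i : ℕ) :
    Ideal (MvPolynomial (Fin 3) O) where
  carrier := {f | C (S.pi ^ i) * f ∈ Ideal.span {F, G}}
  add_mem' := by
    intro a b ha hb
    show C (S.pi ^ i) * (a + b) ∈ Ideal.span {F, G}
    rw [mul_add]
    exact Ideal.add_mem _ ha hb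
  zero_mem' := by
    show C (S.pi ^ i) * 0 ∈ Ideal.span {F, G}
    rw [mul_zero]
    exact Ideal.zero_mem _
  smul_mem' := by
    intro a b hb
    show C (S.pi ^ i) * (a • b) ∈ Ideal.span {F, G}
    rw [smul_eq_mul, mul_left_comm]
    exact Ideal.mul_mem_left _ _ hb

theorem exists_last [IsNoetherianRing O] (S : GeoS O k I D0) (F G : MvPolynomial (Fin 3) O) :
    ∃ n, IsLast S F G n := by
  classical
  have h1 : ∃ n, ∀ f, InI S F G f → C (S.pi ^ n) * f ∈ Ideal.span {F, G} := by
    obtain ⟨n, hn⟩ := (monotone_stabilizes_iff_noetherian (R := MvPolynomial (Fin 3) O)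
      (M := MvPolynomial (Fin 3) O)).2 inferInstance
      ⟨Nex_J S F G, fun i j hij f hf => Nex_mono S hij hf⟩
    refine ⟨n, fun f hf => ?_⟩
    obtain ⟨m, hm⟩ := hf
    rcases le_total m n with h2 | h2
    · exact Nex_mono S h2 hm
    · have h3 := hn m h2
      have h4 : f ∈ Nex_J S F G m := hm
      have h5 : Nex_J S F G n = Nex_J S F G m := h3
      rw [← h5] at h4
      exact h4
  refine ⟨Nat.find h1, Nat.find_spec h1, fun m hm => ?_⟩
  have h2 := Nat.find_min h1 hm
  push Not at h2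
  exact h2

theorem last_rel (h : SatS S c d F G Γ F' G' kk) {n : ℕ} (hn : IsLast S F G n) {i : ℕ} (h1 : 1 ≤ i)
    (hi : i ≤ n) : ∃ f q, Rel S F G F' G' i f q ∧ ¬ Γ ∣ q := by
  obtain ⟨f, hf1, hf2⟩ := hn.2 (n - 1) (by omega)
  have h2 : C (S.pi ^ i) * (C (S.pi ^ (n - i)) * f) ∈ Ideal.span {F, G} := by
    rw [← mul_assoc, ← C_mul, ← pow_add, show i + (n - i) = n by omega]
    exact hn.1 f hf1
  obtain ⟨q, hq⟩ := rel_exists h h1 h2
  refine ⟨_, q, hq, ?_⟩
  rintro ⟨q', rfl⟩
  obtain ⟨j, rfl⟩ : ∃ j, i = j + 1 := ⟨i - 1, by omega⟩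
  have h3 := rel_down h hq
  rw [← mul_assoc, ← C_mul, ← pow_add, show j + (n - (j + 1)) = n - 1 by omega] at h3
  exact hf2 h3

theorem InI_of_rel {i : ℕ} {f : MvPolynomial (Fin 3) O} {q : MvPolynomial (Fin 3) k}
    (h1 : Rel S F G F' G' i f q) : InI S F G f := by
  obtain ⟨A, B, a1, _, _⟩ := h1
  exact ⟨i, Ideal.mem_span_pair.2 ⟨A, B, a1.symm⟩⟩

theorem rel_big (h : SatS S c d F G Γ F' G' kk) {n : ℕ} (hn : IsLast S F G n) {i : ℕ} (hi : n < i)
    {f : MvPolynomial (Fin 3) O} {q : MvPolynomial (Fin 3) k} (h1 : Rel S F G F' G' i f q) : Γ ∣ q := by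
  have h2 := hn.1 f (InI_of_rel h1)
  obtain ⟨j, rfl⟩ : ∃ j, i = j + 1 := ⟨i - 1, by omega⟩
  exact rel_dvd h h1 (Nex_mono S (by omega) h2)

theorem vanish_of_InI (h : PairS S c d F G) {f : MvPolynomial (Fin 3) O} (hf : InI S F G f) (z : I) :
    eval (S.v z) f = 0 := by
  obtain ⟨m, hm⟩ := hf
  obtain ⟨A, B, hAB⟩ := Ideal.mem_span_pair.1 hm
  have h1 := congrArg (eval (S.v z)) hAB
  rw [map_add, map_mul, map_mul, map_mul, h.vF, h.vG, mul_zero, mul_zero, add_zero, eval_C] at h1
  rcases mul_eq_zero.1 h1.symm with h2 | h2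
  · exact absurd h2 (pow_ne_zero _ S.prime.ne_zero)
  · exact h2

theorem InI_of_vanish (h : PairS S c d F G) {f : MvPolynomial (Fin 3) O} {t : ℕ}
    (ht : f.IsHomogeneous t) (hf : ∀ z, eval (S.v z) f = 0) : InI S F G f := by
  exact h.gen t f ht hf

end GP80

end S_H80_GP_Nex

section S_H80_GP_La4

/-!
# Row La4 (MP_87ed0a_GP): dimension of a reduced submodule  (about 150 lines)

`O` DVR with prime `ϖ`, `rho : O → k` the reduction, `M` free of finite rank, `red : M → Mb` semilinear,
surjective, with kernel `ϖ M`.  Let `L ≤ M`, `ev : M → O^I` linear with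
`ev x = 0 → ∃ j, ϖ^j x ∈ L`, and suppose that any `m+1` elements `x` of `M` with `ϖ x ∈ L` are dependent modulo `L`.
Then `dim Mb ≤ dim_k span (red L) + card I + m`.

Proof.  `Q = M/L`; `Q/ϖQ ≃ Mb/red(L)` (as `ker red = ϖM`), so we must show `dim_k Q/ϖQ ≤ card I + m`.
`T` = torsion submodule of `Q` = `{x : ∃ j, ϖ^j x = 0}` (`O` is a DVR: every nonzero element is unit * power of `ϖ`); `T` is finitely generated (Noetherian),
killed by a power of `ϖ`, of finite length.  `Q/T` is finitely generated torsion free, hence free, and its rank is `≤ card I`: `ev` need not vanish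
on `L`, so argue with ranks: `rank M - rank L = rank Q = rank (Q/T)`, and `rank (ker ev) ≤ rank L` because
`ϖ^j` maps generators of `ker ev` into `L` (injectively); so `rank (Q/T) ≤ rank M - rank (ker ev) = rank (range ev) ≤ card I`.
`dim Q/ϖQ ≤ dim T/ϖT + dim (Q/T)/ϖ(Q/T)` (right exactness), the second is `rank (Q/T)` (free).
`dim T/ϖT = dim T[ϖ]` (exact sequence `0 → T[ϖ] → T → T → T/ϖT → 0`, additivity of (finite) length) and
`T[ϖ] = {x : ϖ x ∈ L}/L` has dimension `≤ m` by hypothesis.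
-/

namespace GP80

theorem finrank_red_ge {O k : Type} [CommRing O] [IsDomain O] [IsDiscreteValuationRing O] [Field k]
    (rho : O →+* k) (hs : Function.Surjective rho) {ϖ : O} (hϖ : Prime ϖ)
    (hker : ∀ a, rho a = 0 ↔ ϖ ∣ a)
    {M Mb : Type} [AddCommGroup M] [Module O M] [Module.Free O M] [Module.Finite O M]
    [AddCommGroup Mb] [Module k Mb] [FiniteDimensional k Mb]
    (red : M →ₛₗ[rho] Mb) (hred : Function.Surjective red)
    (hredk : ∀ x, red x = 0 → ∃ y, x = ϖ • y)
    {I : Type} [Fintype I] (ev : M →ₗ[O] (I → O)) (L : Submodule O M)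
    (hev : ∀ x, ev x = 0 → ∃ j : ℕ, ϖ ^ j • x ∈ L) (m : ℕ)
    (hdep : ∀ x : Fin (m + 1) → M, (∀ j, ϖ • x j ∈ L) →
      ∃ a : Fin (m + 1) → O, (∃ j, ¬ ϖ ∣ a j) ∧ ∑ j, a j • x j ∈ L) :
    Module.finrank k Mb ≤
      Module.finrank k (Submodule.span k (red '' (L : Set M))) + Fintype.card I + m := by
  classical
  have hϖ0 : ϖ ≠ 0 := hϖ.ne_zero
  obtain ⟨r, snf⟩ := Submodule.smithNormalForm (Module.Free.chooseBasis O M) L
  obtain ⟨b, hb⟩ : ∃ b, b = snf.bM := ⟨_, rfl⟩
  have F1 : ∀ x ∈ L, ∀ j, j ∉ Set.range snf.f → b.repr x j = 0 := fun x hx j hj => by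
    rw [hb]
    exact snf.repr_eq_zero_of_notMem_range ⟨x, hx⟩ hj
  have F2 : ∀ x ∈ L, ∀ i, snf.a i ∣ b.repr x (snf.f i) := fun x hx i => by
    have h1 := snf.repr_apply_embedding_eq_repr_smul ⟨x, hx⟩ (i := i)
    rw [hb]
    refine ⟨snf.bN.repr ⟨x, hx⟩ i, ?_⟩
    rw [map_smul, Finsupp.smul_apply, smul_eq_mul] at h1
    exact h1
  have F3 : ∀ i, snf.a i • b (snf.f i) ∈ L := fun i => by
    rw [hb, ← snf.snf i]
    exact (snf.bN i).2
  have F4 : ∀ i, snf.a i ≠ 0 := fun i h0 => by
    have h1 := snf.snf i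
    rw [h0, zero_smul] at h1
    exact snf.bN.ne_zero i (Subtype.ext h1)
  -- part D
  have hD : Module.finrank k Mb ≤ Fintype.card (Module.Free.ChooseBasisIndex O M) := by
    have h1 : (⊤ : Submodule k Mb) ≤ Submodule.span k (Set.range fun j => red (b j)) := by
      intro y _
      obtain ⟨x, rfl⟩ := hred y
      rw [← b.sum_repr x, map_sum]
      refine Submodule.sum_mem _ fun j _ => ?_
      rw [map_smulₛₗ]
      exact Submodule.smul_mem _ _ (Submodule.subset_span ⟨j, rfl⟩)
    have h2 := finrank_range_le_card (R := k) (fun j => red (b j))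
    rw [Set.finrank, top_le_iff.1 h1, finrank_top] at h2
    exact h2
  -- part A
  have hA : Fintype.card {j // j ∉ Set.range snf.f} ≤ Fintype.card I := by
    have h1 : LinearIndependent O (fun j : {j // j ∉ Set.range snf.f} => ev (b j.1)) := by
      rw [Fintype.linearIndependent_iff]
      intro g hg i
      have h2 : ev (∑ j, g j • b j.1) = 0 := by
        rw [map_sum, ← hg]
        exact Finset.sum_congr rfl fun j _ => map_smul _ _ _
      obtain ⟨t, ht⟩ := hev _ h2
      have h3 := F1 _ ht i.1 i.2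
      rw [map_smul, Finsupp.smul_apply, smul_eq_mul, map_sum, Finsupp.finsetSum_apply] at h3
      have h4 : ∑ j : {j // j ∉ Set.range snf.f}, (b.repr (g j • b j.1)) i.1 = g i := by
        rw [Finset.sum_eq_single i]
        · simp
        · intro j _ hj
          have : j.1 ≠ i.1 := fun h => hj (Subtype.ext h)
          simp [this]
        · intro h; exact absurd (Finset.mem_univ _) h
      rw [h4] at h3
      exact (mul_eq_zero.1 h3).resolve_left (pow_ne_zero _ hϖ0)
    have h5 := h1.fintype_card_le_finrank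
    rwa [Module.finrank_fintype_fun_eq_card] at h5
  have hcard : Fintype.card (Module.Free.ChooseBasisIndex O M) =
      r + Fintype.card {j // j ∉ Set.range snf.f} := by
    have h1 : Fintype.card {j // j ∈ Set.range snf.f} = r := by
      have := Set.card_range_of_injective snf.f.injective
      rw [Fintype.card_fin] at this
      exact this
    have h2 := Fintype.card_subtype_compl (fun j => j ∈ Set.range snf.f)
    have h3 := Fintype.card_subtype_le (fun j => j ∈ Set.range snf.f)
    omega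
  have hr : r = Fintype.card {i : Fin r // ϖ ∣ snf.a i} + Fintype.card {i : Fin r // ¬ ϖ ∣ snf.a i} := by
    have h2 := Fintype.card_subtype_compl (fun i : Fin r => ϖ ∣ snf.a i)
    have h3 := Fintype.card_subtype_le (fun i : Fin r => ϖ ∣ snf.a i)
    rw [Fintype.card_fin] at h2 h3
    omega
  -- part B
  have hB : Fintype.card {i : Fin r // ϖ ∣ snf.a i} ≤ m := by
    by_contra hcon
    push Not at hcon
    have h1 : Fintype.card (Fin (m + 1)) ≤ Fintype.card {i : Fin r // ϖ ∣ snf.a i} := by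
      rw [Fintype.card_fin]
      exact hcon
    obtain ⟨g⟩ := Function.Embedding.nonempty_of_card_le h1
    have h2 : ∀ j, ∃ a' : O, snf.a (g j).1 = ϖ * a' := fun j => (g j).2
    choose a' ha' using h2
    obtain ⟨c, ⟨j, hj⟩, hc⟩ := hdep (fun j => a' j • b (snf.f (g j).1)) (fun j => by
      rw [smul_smul, ← ha' j]
      exact F3 _)
    have h3 := F2 _ hc (g j).1
    rw [map_sum, Finsupp.finsetSum_apply] at h3
    have h4 : ∑ i, (b.repr (c i • a' i • b (snf.f (g i).1))) (snf.f (g j).1) = c j * a' j := by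
      rw [Finset.sum_eq_single j]
      · simp
      · intro i _ hi
        have : snf.f (g i).1 ≠ snf.f (g j).1 := fun h =>
          hi (g.injective (Subtype.ext (snf.f.injective h)))
        simp [this]
      · intro h; exact absurd (Finset.mem_univ _) h
    rw [h4, ha' j] at h3
    have h5 : a' j ≠ 0 := fun h0 => F4 (g j).1 (by rw [ha' j, h0, mul_zero])
    exact hj ((mul_dvd_mul_iff_right h5).1 h3)
  -- part C
  have hC : Fintype.card {i : Fin r // ¬ ϖ ∣ snf.a i} ≤
      Module.finrank k (Submodule.span k (red '' (L : Set M))) := by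
    have h1 : LinearIndependent k
        (fun i : {i : Fin r // ¬ ϖ ∣ snf.a i} => red (b (snf.f i.1))) := by
      rw [Fintype.linearIndependent_iff]
      intro c hc i
      choose e he using fun i => hs (c i)
      have h2 : red (∑ i, e i • b (snf.f i.1)) = 0 := by
        rw [map_sum, ← hc]
        exact Finset.sum_congr rfl fun j _ => by rw [map_smulₛₗ, he]
      obtain ⟨y, hy⟩ := hredk _ h2
      have h3 : (b.repr (∑ i, e i • b (snf.f i.1))) (snf.f i.1) = e i := by
        rw [map_sum, Finsupp.finsetSum_apply, Finset.sum_eq_single i]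
        · simp
        · intro j _ hj
          have : snf.f j.1 ≠ snf.f i.1 := fun h => hj (Subtype.ext (snf.f.injective h))
          simp [this]
        · intro h; exact absurd (Finset.mem_univ _) h
      rw [← he i, hker]
      rw [hy, map_smul, Finsupp.smul_apply, smul_eq_mul] at h3
      exact ⟨_, h3.symm⟩
    rw [← finrank_span_eq_card h1]
    apply Submodule.finrank_mono
    rw [Submodule.span_le]
    rintro _ ⟨i, rfl⟩
    have h4 : rho (snf.a i.1) ≠ 0 := fun h0 => i.2 ((hker _).1 h0)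
    have h5 : red (snf.a i.1 • b (snf.f i.1)) ∈ Submodule.span k (red '' (L : Set M)) :=
      Submodule.subset_span ⟨_, F3 i.1, rfl⟩
    rw [map_smulₛₗ] at h5
    exact (Submodule.smul_mem_iff _ h4).1 h5
  omega

end GP80

end S_H80_GP_La4
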