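import Mathlib
import Pool.Agent.H80.M87.G01

/-! MP_87ed0a_ag: this file joins several modules to save build time. -/

section S_H80_GP_Cda

/-!
# Row Cda (MP_87ed0a_GP): coefficientwise derivations and the operator D  (about 150 lines)

`cder δ f` applies the derivation `δ` to all coefficients; `DD der f = ∑ X_i cder (der i) f`.
All statements are formal: start with `coeff_cder`; additivity from it; the product rule on monomials
(`cder δ (monomial m a) = monomial m (δ a)`) and `MvPolynomial.induction_on'`.
`cder_eval` : `δ (f(v)) = (cder δ f)(v) + ∑ (∂_i f)(v) δ(v_i)` (both sides, for fixed `v`, are derivations of `O[X]` into `O`;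
check on `C a` and `X i`, or induction on `f`).
`euler3`: Euler's identity.  `ev_DD` (with `der i (v j) = - [i = j]`): for `f` homogeneous of degree `t`,
`∑ v_i der_i (f(v)) = (DD f)(v) - t f(v)`: by `cder_eval`, `der_i (f(v)) = (cder_i f)(v) - (∂_i f)(v)`; multiply by `v_i`, sum, use Euler.
-/

namespace GP80

open MvPolynomial

variable {O : Type} [CommRing O]

theorem coeff_cder (δ : Derivation ℤ O O) (f : MvPolynomial (Fin 3) O) (m : Fin 3 →₀ ℕ) :
    coeff m (cder δ f) = δ (coeff m f) := by
  classical
  rw [cder, coeff_sum]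
  simp only [coeff_monomial]
  rw [Finset.sum_ite_eq']
  split_ifs with h
  · rfl
  · rw [notMem_support_iff.mp h, map_zero]

theorem cder_add (δ : Derivation ℤ O O) (f g : MvPolynomial (Fin 3) O) :
    cder δ (f + g) = cder δ f + cder δ g := by
  ext m
  rw [coeff_cder, coeff_add, coeff_add, coeff_cder, coeff_cder, map_add]

theorem Cda_mon (δ : Derivation ℤ O O) (m : Fin 3 →₀ ℕ) (a : O) :
    cder δ (monomial m a) = monomial m (δ a) := by
  classical
  ext n
  rw [coeff_cder, coeff_monomial, coeff_monomial]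
  split_ifs
  · rfl
  · rw [map_zero]

theorem cder_mul (δ : Derivation ℤ O O) (f g : MvPolynomial (Fin 3) O) :
    cder δ (f * g) = cder δ f * g + f * cder δ g := by
  induction f using MvPolynomial.induction_on' with
  | monomial m a =>
    induction g using MvPolynomial.induction_on' with
    | monomial n b =>
      rw [monomial_mul, Cda_mon, Cda_mon, Cda_mon, monomial_mul, monomial_mul, ← map_add,
        Derivation.leibniz, smul_eq_mul, smul_eq_mul]
      congr 1
      ring
    | add p q hp hq =>
      rw [mul_add, cder_add, hp, hq, cder_add]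
      ring
  | add p q hp hq =>
    rw [add_mul, cder_add, hp, hq, cder_add]
    ring

theorem cder_C (δ : Derivation ℤ O O) (a : O) :
    cder δ (C a : MvPolynomial (Fin 3) O) = C (δ a) :=
  Cda_mon δ 0 a

theorem cder_X (δ : Derivation ℤ O O) (i : Fin 3) :
    cder δ (X i : MvPolynomial (Fin 3) O) = 0 := by
  rw [X, Cda_mon, Derivation.map_one_eq_zero, map_zero]

theorem cder_homog (δ : Derivation ℤ O O) {f : MvPolynomial (Fin 3) O} {t : ℕ}
    (hf : f.IsHomogeneous t) : (cder δ f).IsHomogeneous t := by
  intro m hm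
  apply hf
  intro h0
  rw [coeff_cder, h0, map_zero] at hm
  exact hm rfl

theorem cder_pderiv (δ : Derivation ℤ O O) (f : MvPolynomial (Fin 3) O) (i : Fin 3) :
    cder δ (pderiv i f) = pderiv i (cder δ f) := by
  induction f using MvPolynomial.induction_on' with
  | monomial m a =>
    rw [Cda_mon, pderiv_monomial, pderiv_monomial, Cda_mon, Derivation.leibniz,
      Derivation.map_natCast, smul_zero, zero_add, smul_eq_mul, mul_comm]
  | add p q hp hq =>
    rw [map_add, cder_add, hp, hq, cder_add, map_add]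

theorem Cda_pX (i j : Fin 3) (v : Fin 3 → O) :
    eval v (pderiv i (X j : MvPolynomial (Fin 3) O)) = if i = j then 1 else 0 := by
  by_cases h : i = j
  · subst h
    rw [pderiv_X_self, map_one, if_pos rfl]
  · rw [pderiv_X_of_ne (Ne.symm h), map_zero, if_neg h]

theorem cder_eval (δ : Derivation ℤ O O) (f : MvPolynomial (Fin 3) O) (v : Fin 3 → O) :
    δ (eval v f) = eval v (cder δ f) + ∑ i, eval v (pderiv i f) * δ (v i) := by
  induction f using MvPolynomial.induction_on with
  | C a =>
    rw [eval_C, cder_C, eval_C]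
    simp [pderiv_C]
  | add p q hp hq =>
    rw [map_add, map_add, hp, hq, cder_add, map_add]
    simp only [map_add, add_mul, Finset.sum_add_distrib]
    ring
  | mul_X p j hp =>
    rw [map_mul, eval_X, Derivation.leibniz, hp, cder_mul, cder_X, mul_zero, add_zero, map_mul,
      eval_X, smul_eq_mul, smul_eq_mul]
    have h : ∑ i, eval v (pderiv i (p * X j)) * δ (v i)
        = v j * ∑ i, eval v (pderiv i p) * δ (v i) + eval v p * δ (v j) := by
      have h1 : ∀ i, eval v (pderiv i (p * X j)) * δ (v i)
          = v j * (eval v (pderiv i p) * δ (v i)) + (if i = j then eval v p * δ (v i) else 0) := by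
        intro i
        rw [pderiv_mul, map_add, map_mul, map_mul, eval_X, Cda_pX]
        split_ifs <;> ring
      simp only [h1]
      rw [Finset.sum_add_distrib, ← Finset.mul_sum, Finset.sum_ite_eq' Finset.univ j,
        if_pos (Finset.mem_univ _)]
    rw [h]
    ring

theorem DD_add (der : Fin 3 → Derivation ℤ O O) (f g : MvPolynomial (Fin 3) O) :
    DD der (f + g) = DD der f + DD der g := by
  rw [DD, DD, DD, ← Finset.sum_add_distrib]
  apply Finset.sum_congr rfl
  intro i _
  rw [cder_add, mul_add]

theorem DD_mul (der : Fin 3 → Derivation ℤ O O) (f g : MvPolynomial (Fin 3) O) :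
    DD der (f * g) = DD der f * g + f * DD der g := by
  rw [DD, DD, DD, Finset.sum_mul, Finset.mul_sum, ← Finset.sum_add_distrib]
  apply Finset.sum_congr rfl
  intro i _
  rw [cder_mul]
  ring

theorem DD_C (der : Fin 3 → Derivation ℤ O O) (a : O) :
    DD der (C a : MvPolynomial (Fin 3) O) = ∑ i, X i * C (der i a) := by
  rw [DD]
  apply Finset.sum_congr rfl
  intro i _
  rw [cder_C]

theorem DD_X (der : Fin 3 → Derivation ℤ O O) (i : Fin 3) :
    DD der (X i : MvPolynomial (Fin 3) O) = 0 := by
  rw [DD]
  apply Finset.sum_eq_zero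
  intro j _
  rw [cder_X, mul_zero]

theorem DD_homog (der : Fin 3 → Derivation ℤ O O) {f : MvPolynomial (Fin 3) O} {t : ℕ}
    (hf : f.IsHomogeneous t) : (DD der f).IsHomogeneous (t + 1) := by
  rw [DD]
  apply IsHomogeneous.sum
  intro i _
  rw [add_comm]
  exact (isHomogeneous_X O i).mul (cder_homog (der i) hf)

theorem DD_pderiv (der : Fin 3 → Derivation ℤ O O) (f : MvPolynomial (Fin 3) O) (j : Fin 3) :
    pderiv j (DD der f) = DD der (pderiv j f) + cder (der j) f := by
  rw [DD, DD, map_sum]
  have h1 : ∀ i, pderiv j (X i * cder (der i) f)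
      = X i * cder (der i) (pderiv j f) + (if i = j then cder (der i) f else 0) := by
    intro i
    rw [pderiv_mul, cder_pderiv]
    split_ifs with h
    · subst h
      rw [pderiv_X_self, one_mul, add_comm]
    · rw [pderiv_X_of_ne h, zero_mul, zero_add, add_zero]
  simp only [h1]
  rw [Finset.sum_add_distrib, Finset.sum_ite_eq' Finset.univ j, if_pos (Finset.mem_univ _)]

theorem euler3 {f : MvPolynomial (Fin 3) O} {t : ℕ} (hf : f.IsHomogeneous t) (v : Fin 3 → O) :
    ∑ i, v i * eval v (pderiv i f) = (t : O) * eval v f := by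
  have h := congrArg (eval v) hf.sum_X_mul_pderiv
  rw [map_sum] at h
  simp only [map_mul, eval_X] at h
  rw [h, nsmul_eq_mul, map_mul, map_natCast]

theorem ev_DD (der : Fin 3 → Derivation ℤ O O) (v : Fin 3 → O)
    (hv : ∀ i j, der i (v j) = if i = j then -1 else 0) {f : MvPolynomial (Fin 3) O} {t : ℕ}
    (hf : f.IsHomogeneous t) :
    ∑ i, v i * der i (eval v f) = eval v (DD der f) - (t : O) * eval v f := by
  rw [← euler3 hf v, DD, map_sum, ← Finset.sum_sub_distrib]
  apply Finset.sum_congr rfl
  intro i _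
  rw [cder_eval, map_mul, eval_X]
  have h : ∑ j, eval v (pderiv j f) * der i (v j) = - eval v (pderiv i f) := by
    simp only [hv]
    have h2 : ∀ j, eval v (pderiv j f) * (if i = j then (-1 : O) else 0)
        = if i = j then -eval v (pderiv j f) else 0 := by
      intro j
      split_ifs <;> ring
    simp only [h2]
    rw [Finset.sum_ite_eq Finset.univ i, if_pos (Finset.mem_univ _)]
  rw [h]
  ring

end GP80

end S_H80_GP_Cda

section S_H80_GP_Cnx

/-!
# Row Cnx (MP_87ed0a_GP): the connection lemma 1.1  (about 90 lines)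

`δ := ∑ v_i der_i`.  If `p DF = M11 F + M12 G`, `p DG = M21 F + M22 G` and `F, G` vanish at `v`, then
`p δ(J) = (M11(v) + M22(v)) J - p (c + d - 1) J`.

Proof.  `a_j = (∂_j F)(v)`, `b_j = (∂_j G)(v)`.
Since `F(v) = 0`: `(cder_i F)(v) = a_i` by `cder_eval` (`der_i (F(v)) = 0`).  By `ev_DD` for `∂_j F` (degree `c-1`)
`δ a_j = (DD ∂_j F)(v) - (c-1) a_j = (∂_j DD F)(v) - (cder_j F)(v) - (c-1) a_j = (∂_j DD F)(v) - c a_j` (`DD_pderiv`; for `c = 0`, `F` constant, `∂_j F = 0`,
everything is trivially true).  Multiply by `p`: `p (∂_j DD F)(v) = M11(v) a_j + M12(v) b_j` because `F(v)=G(v)=0`.  So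
`p δ a_j = (M11(v) - p c) a_j + M12(v) b_j`,  `p δ b_j = M21(v) a_j + (M22(v) - p d) b_j`, and by the product rule
`p δ((a × b)_i) = (M11(v) + M22(v) - p (c+d)) (a × b)_i`.  With `(a × b)_i = J v_i` and `δ v_i = - v_i`:
`p δ(J) v_i - p J v_i = (M11(v) + M22(v) - p (c+d)) J v_i`; cancel `v_i ≠ 0`.
`euler_cross`: gradients are orthogonal to `v`, hence (if some `v i` is a unit) `∇F × ∇G = J v` for some `J`.
-/

namespace GP80

open MvPolynomial

theorem exists_J3 {O : Type} [CommRing O] {F G : MvPolynomial (Fin 3) O} {c d : ℕ}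
    (hF : F.IsHomogeneous c) (hG : G.IsHomogeneous d) {v : Fin 3 → O} (hv : ∃ i, IsUnit (v i))
    (vF : eval v F = 0) (vG : eval v G = 0) : ∃ J, IsJ3 F G v J := by
  have ha := euler3 hF v
  have hb := euler3 hG v
  rw [vF, mul_zero, Fin.sum_univ_three] at ha
  rw [vG, mul_zero, Fin.sum_univ_three] at hb
  set a : Fin 3 → O := grad F v with hadef
  set b : Fin 3 → O := grad G v with hbdef
  have ha' : v 0 * a 0 + v 1 * a 1 + v 2 * a 2 = 0 := ha
  have hb' : v 0 * b 0 + v 1 * b 1 + v 2 * b 2 = 0 := hb
  have x0 : crossProduct a b 0 = a 1 * b 2 - a 2 * b 1 := by rw [cross_apply]; rfl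
  have x1 : crossProduct a b 1 = a 2 * b 0 - a 0 * b 2 := by rw [cross_apply]; rfl
  have x2 : crossProduct a b 2 = a 0 * b 1 - a 1 * b 0 := by rw [cross_apply]; rfl
  have h01 : crossProduct a b 0 * v 1 = crossProduct a b 1 * v 0 := by
    rw [x0, x1]
    linear_combination (b 2) * ha' - (a 2) * hb'
  have h12 : crossProduct a b 1 * v 2 = crossProduct a b 2 * v 1 := by
    rw [x1, x2]
    linear_combination (b 0) * ha' - (a 0) * hb'
  have h20 : crossProduct a b 2 * v 0 = crossProduct a b 0 * v 2 := by
    rw [x0, x2]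
    linear_combination (b 1) * ha' - (a 1) * hb'
  have key : ∀ i j : Fin 3, crossProduct a b i * v j = crossProduct a b j * v i := by
    intro i j
    fin_cases i <;> fin_cases j
    · rfl
    · exact h01
    · exact h20.symm
    · exact h01.symm
    · rfl
    · exact h12
    · exact h20
    · exact h12.symm
    · rfl
  obtain ⟨i0, hi0⟩ := hv
  obtain ⟨u, hu⟩ := hi0.exists_right_inv
  refine ⟨crossProduct a b i0 * u, ?_⟩
  unfold IsJ3
  rw [← hadef, ← hbdef]
  funext j
  rw [Pi.smul_apply, smul_eq_mul]
  linear_combination u * key j i0 - (crossProduct a b j) * hu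

/-- `(cder_i F)(v) = (∂_i F)(v)` if `F(v) = 0`. -/
theorem Cnx_cder {O : Type} [CommRing O] (der : Fin 3 → Derivation ℤ O O)
    {v : Fin 3 → O} (hv : ∀ i j, der i (v j) = if i = j then -1 else 0)
    {F : MvPolynomial (Fin 3) O} (vF : eval v F = 0) (i : Fin 3) :
    eval v (cder (der i) F) = eval v (pderiv i F) := by
  have h := cder_eval (der i) F v
  rw [vF, map_zero] at h
  have h2 : ∑ j, eval v (pderiv j F) * der i (v j) = -eval v (pderiv i F) := by
    rw [Finset.sum_eq_single i]
    · rw [hv, if_pos rfl]; ring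
    · intro j _ hj
      rw [hv, if_neg (Ne.symm hj), mul_zero]
    · intro h3
      exact absurd (Finset.mem_univ i) h3
  rw [h2] at h
  linear_combination -h

/-- The degree factor. -/
theorem Cnx_deg {O : Type} [CommRing O] {F : MvPolynomial (Fin 3) O} {c : ℕ}
    (hF : F.IsHomogeneous c) (v : Fin 3 → O) (j : Fin 3) :
    (1 + ((c - 1 : ℕ) : O)) * eval v (pderiv j F) = (c : O) * eval v (pderiv j F) := by
  rcases Nat.eq_zero_or_pos c with h0 | h1
  · subst h0
    have h2 : F = C (coeff 0 F) := by
      rw [← totalDegree_eq_zero_iff_eq_C]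
      exact (totalDegree_zero_iff_isHomogeneous _).2 hF
    have h3 : pderiv j F = 0 := by
      rw [h2, pderiv_C]
    rw [h3, map_zero, mul_zero, mul_zero]
  · have h2 : (1 + ((c - 1 : ℕ) : O)) = (c : O) := by
      rw [add_comm]
      exact_mod_cast congrArg (Nat.cast : ℕ → O) (Nat.sub_add_cancel h1)
    rw [h2]

/-- `p δ a_j = M11(v) a_j + M12(v) b_j - p c a_j`. -/
theorem Cnx_step {O : Type} [CommRing O] (der : Fin 3 → Derivation ℤ O O)
    {v : Fin 3 → O} (hv : ∀ i j, der i (v j) = if i = j then -1 else 0)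
    {F G H : MvPolynomial (Fin 3) O} {c : ℕ} (hH : H.IsHomogeneous c)
    (vF : eval v F = 0) (vG : eval v G = 0) (vH : eval v H = 0) {p : O}
    {M N : MvPolynomial (Fin 3) O} (h1 : C p * DD der H = M * F + N * G) (j : Fin 3) :
    p * ∑ i, v i * der i (eval v (pderiv j H)) =
      eval v M * eval v (pderiv j F) + eval v N * eval v (pderiv j G) -
        p * (c : O) * eval v (pderiv j H) := by
  have e1 := ev_DD der v hv (hH.pderiv (i := j))
  have e2 := congrArg (eval v) (DD_pderiv der H j)
  rw [map_add, Cnx_cder der hv vH j] at e2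
  have e3 := Cnx_deg hH v j
  have e4 := congrArg (fun P => eval v (pderiv j P)) h1
  simp only [map_add, Derivation.leibniz, smul_eq_mul, map_mul, pderiv_C, mul_zero, add_zero,
    zero_add, eval_C, vF, vG, zero_mul] at e4
  rw [e1]
  linear_combination e4 - p * e2 - p * e3

theorem connection {O : Type} [CommRing O] [IsDomain O] (der : Fin 3 → Derivation ℤ O O)
    {v : Fin 3 → O} (hv : ∀ i j, der i (v j) = if i = j then -1 else 0) (hv0 : ∃ i, v i ≠ 0)
    {F G : MvPolynomial (Fin 3) O} {c d : ℕ} (hF : F.IsHomogeneous c) (hG : G.IsHomogeneous d)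
    (vF : eval v F = 0) (vG : eval v G = 0) {p : O} {M11 M12 M21 M22 : MvPolynomial (Fin 3) O}
    (h1 : C p * DD der F = M11 * F + M12 * G) (h2 : C p * DD der G = M21 * F + M22 * G) {J : O}
    (hJ : IsJ3 F G v J) :
    p * ∑ i, v i * der i J = (eval v M11 + eval v M22) * J - p * ((c : O) + d - 1) * J := by
  have sa := Cnx_step der hv hF vF vG vF h1
  have sb := Cnx_step der hv hG vF vG vG h2
  set a : Fin 3 → O := grad F v with hadef
  set b : Fin 3 → O := grad G v with hbdef
  have ea : ∀ j, eval v (pderiv j F) = a j := fun j => rfl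
  have eb : ∀ j, eval v (pderiv j G) = b j := fun j => rfl
  simp only [ea, eb] at sa sb
  set δ : O → O := fun x => ∑ i, v i * der i x with hδ
  have δmul : ∀ x y, δ (x * y) = δ x * y + x * δ y := by
    intro x y
    simp only [hδ, Derivation.leibniz, smul_eq_mul, Finset.sum_mul, Finset.mul_sum]
    rw [← Finset.sum_add_distrib]
    exact Finset.sum_congr rfl fun i _ => by ring
  have δsub : ∀ x y, δ (x - y) = δ x - δ y := by
    intro x y
    simp only [hδ, map_sub, mul_sub, Finset.sum_sub_distrib]
  have δv : ∀ j, δ (v j) = -v j := by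
    intro j
    show ∑ i, v i * der i (v j) = -v j
    rw [Finset.sum_eq_single j]
    · rw [hv, if_pos rfl]; ring
    · intro i _ hi
      rw [hv, if_neg hi, mul_zero]
    · intro h3
      exact absurd (Finset.mem_univ j) h3
  have sa' : ∀ j, p * δ (a j) = eval v M11 * a j + eval v M12 * b j - p * (c : O) * a j := sa
  have sb' : ∀ j, p * δ (b j) = eval v M21 * a j + eval v M22 * b j - p * (d : O) * b j := sb
  have hmin : ∀ j k, p * δ (a j * b k - a k * b j) =
      (eval v M11 + eval v M22 - p * ((c : O) + d)) * (a j * b k - a k * b j) := by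
    intro j k
    rw [δsub, δmul, δmul]
    linear_combination (b k) * sa' j + (a j) * sb' k - (b j) * sa' k - (a k) * sb' j
  have hcr : ∀ i, p * δ (crossProduct a b i) =
      (eval v M11 + eval v M22 - p * ((c : O) + d)) * crossProduct a b i := by
    intro i
    have x0 : crossProduct a b 0 = a 1 * b 2 - a 2 * b 1 := by rw [cross_apply]; rfl
    have x1 : crossProduct a b 1 = a 2 * b 0 - a 0 * b 2 := by rw [cross_apply]; rfl
    have x2 : crossProduct a b 2 = a 0 * b 1 - a 1 * b 0 := by rw [cross_apply]; rfl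
    fin_cases i
    · show p * δ (crossProduct a b 0) = _ * crossProduct a b 0
      rw [x0]
      exact hmin 1 2
    · show p * δ (crossProduct a b 1) = _ * crossProduct a b 1
      rw [x1]
      exact hmin 2 0
    · show p * δ (crossProduct a b 2) = _ * crossProduct a b 2
      rw [x2]
      exact hmin 0 1
  obtain ⟨i, hi⟩ := hv0
  have hJi : crossProduct a b i = J * v i := by
    have := congrFun hJ i
    rw [Pi.smul_apply, smul_eq_mul] at this
    exact this
  have h3 := hcr i
  rw [hJi, δmul, δv] at h3
  have h4 : (p * δ J) * v i =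
      ((eval v M11 + eval v M22) * J - p * ((c : O) + d - 1) * J) * v i := by
    linear_combination h3
  exact mul_right_cancel₀ hi h4

end GP80

end S_H80_GP_Cnx

section S_H80_GP_Ezr

/-!
# Row Ezr (MP_87ed0a_GP): the forms `E_z`  (1.5, 1.6; about 180 lines)

Everything is for one point `v = S.v z`, which is unimodular (`S.unim z`: some `v i` is a unit of the domain `O`).

* `two_forms`: there are linear forms `u, w` with `u(v) = w(v) = 0`, coefficient vectors `∇u × ∇w = v`, such that every `f` whose restriction to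
  the line `O v` vanishes (`f(T v) = 0` in `O[T]`) is in `(u, w)`, and `A u + B w = 0 → A = r w, B = - r u`.
  Proof.  Say `v 0` is a unit (the other cases by permuting; or use a change of variables in `GL_3(O)` with last column `v`: there is an
  automorphism of `O[X]` taking the line to the `X_2`-axis).  `u = v0 X1 - v1 X0`, `w = X2 - (v2/v0) X0` gives `∇u × ∇w = (-v1, v0, 0) × (-v2/v0, 0, 1) = (v0, v1, v2)`.
  Modulo `(u,w)`: `X1 ≡ (v1/v0) X0`, `X2 ≡ (v2/v0) X0`, so `f ≡ f(X0, (v1/v0) X0, (v2/v0) X0)`, which is zero if `f(T v) = 0` (substitute `T = X0/v0`).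
  Koszul: `w` is monic in `X2` and `u` is a nonzero divisor modulo `w` (domain `O[X0,X1]`); or: both are prime and not associated.
* `exists_Ez`: given the pair `F, G` (forms of degree `c, d`, `c ≥ 2`, vanishing at `v`), with `rho G ≠ 0`, write
  `F = u F1 + w F2`, `G = u G1 + w G2` with forms of degrees `c-1`, `d-1` (take homogeneous components) and `E = F1 G2 - F2 G1`.
  Replacing `F1, F2` by `F1 + w r`, `F2 - u r` (`r` a form of degree `c-2`, e.g. `X 0 ^ (c-2)`) replaces `E` by `E + r G`, whose reduction is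
  `rho E + rho r rho G`; since `rho r ≠ 0`, `rho G ≠ 0` one of the two choices has `rho E ≠ 0`.
  Properties: `E` homogeneous of degree `c + d - 2`; `∇F(v) = F1(v) ∇u + F2(v) ∇w`, same for `G`, so `∇F × ∇G = E(v) ∇u × ∇w = E(v) v` and `IsJ3 F G v J` gives
  `E(v) = J` (cancel a unit coordinate).  At another common zero `v'` of `F, G` where `(u(v'), w(v')) ≠ (0,0)`: `E(v') = 0` (Cramer, domain); this holds for the other points `S.v z'`
  because `u(v') = w(v') = 0` would make `v'` a multiple of `v` modulo `pi` too, contradicting `S.dist`.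
  `E u = G2 F - F2 G`, `E w = F1 G - G1 F` are in `(F, G)`; so `E f ∈ (F,G)` for `f ∈ (u,w)`; and if `pi^m f ∈ (F,G)` then
  `pi^m f(T v) = 0`, so `f(T v) = 0`, `f ∈ (u,w)`.
-/

namespace GP80

open MvPolynomial

variable {O k I : Type} [CommRing O] [IsDomain O] [Field k] [Fintype I] {D0 c d : ℕ}

/-- reduction modulo a substitution -/
theorem Ezr_subst {φ : MvPolynomial (Fin 3) O →ₐ[O] MvPolynomial (Fin 3) O}
    {K : Ideal (MvPolynomial (Fin 3) O)} (h : ∀ m, X m - φ (X m) ∈ K)
    (f : MvPolynomial (Fin 3) O) : f - φ f ∈ K := by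
  have e : (Ideal.Quotient.mkₐ O K) = (Ideal.Quotient.mkₐ O K).comp φ := by
    apply MvPolynomial.algHom_ext
    intro m
    rw [AlgHom.comp_apply, Ideal.Quotient.mkₐ_eq_mk]
    exact Ideal.Quotient.eq.2 (h m)
  have e2 := congrArg (fun g => g f) e
  simp only [AlgHom.comp_apply, Ideal.Quotient.mkₐ_eq_mk] at e2
  exact Ideal.Quotient.eq.1 e2

theorem Ezr_two {v : Fin 3 → O} (hv : ∃ i, IsUnit (v i)) :
    ∃ u w : MvPolynomial (Fin 3) O, u.IsHomogeneous 1 ∧ w.IsHomogeneous 1 ∧ eval v u = 0 ∧
      eval v w = 0 ∧ crossProduct (grad u v) (grad w v) = v ∧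
      (∀ f : MvPolynomial (Fin 3) O,
        aeval (fun i => (Polynomial.C (v i) * Polynomial.X : Polynomial O)) f = 0 →
        ∃ A B, f = u * A + w * B) ∧
      (∀ A B, A * u + B * w = 0 → ∃ r, A = r * w ∧ B = -(r * u)) ∧
      (∀ v' : Fin 3 → O, eval v' u = 0 → eval v' w = 0 → crossProduct v v' = 0) := by
  obtain ⟨i, hi⟩ := hv
  obtain ⟨a, ha⟩ := hi.exists_left_inv
  have hv0 : v i ≠ 0 := by
    intro h
    rw [h, mul_zero] at ha
    exact zero_ne_one ha
  set u : MvPolynomial (Fin 3) O := C (v i) * X (i + 1) - C (v (i + 1)) * X i with hu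
  set w : MvPolynomial (Fin 3) O := X (i + 2) - C (v (i + 2) * a) * X i with hw
  have i1 : i + 1 ≠ i := by fin_cases i <;> decide
  have i2 : i + 2 ≠ i := by fin_cases i <;> decide
  have i3 : i + 1 ≠ i + 2 := by fin_cases i <;> decide
  have hall : ∀ m : Fin 3, m = i ∨ m = i + 1 ∨ m = i + 2 := by
    intro m
    fin_cases i <;> fin_cases m <;> decide
  refine ⟨u, w, ?_, ?_, ?_, ?_, ?_, ?_, ?_, ?_⟩
  · exact (isHomogeneous_C_mul_X _ _).sub (isHomogeneous_C_mul_X _ _)
  · exact (isHomogeneous_X _ _).sub (isHomogeneous_C_mul_X _ _)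
  · rw [hu]
    simp only [map_sub, map_mul, eval_C, eval_X]
    ring
  · rw [hw]
    simp only [map_sub, map_mul, eval_C, eval_X]
    linear_combination (- v (i + 2)) * ha
  · have gu : grad u v = fun m => if m = i + 1 then v i else if m = i then - v (i + 1) else 0 := by
      funext m
      unfold grad
      rw [hu]
      simp only [map_sub, Derivation.leibniz, pderiv_C, pderiv_X, smul_zero, add_zero,
        smul_eq_mul, map_mul, eval_C]
      rcases hall m with h | h | h
      · subst h
        simp [i1, i1.symm]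
      · subst h
        simp [i1, i1.symm]
      · subst h
        simp [i2, i2.symm, i3, i3.symm]
    have gw : grad w v = fun m => if m = i + 2 then 1 else if m = i then - (v (i + 2) * a) else 0 := by
      funext m
      unfold grad
      rw [hw]
      simp only [map_sub, Derivation.leibniz, pderiv_C, pderiv_X, smul_zero, add_zero,
        smul_eq_mul, map_mul, eval_C]
      rcases hall m with h | h | h
      · subst h
        simp [i2, i2.symm]
      · subst h
        simp [i1, i1.symm, i3, i3.symm]
      · subst h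
        simp [i2, i2.symm]
    rw [gu, gw]
    clear_value u w
    have key : ∀ x : O, v i * (x * a) = x := fun x => by linear_combination x * ha
    have i012 : i = 0 ∨ i = 1 ∨ i = 2 := by fin_cases i <;> simp
    rcases i012 with rfl | rfl | rfl
    · funext m
      fin_cases m <;> simp [crossProduct]
      exact key _
    · funext m
      fin_cases m <;> simp [crossProduct]
      exact key _
    · funext m
      fin_cases m <;> simp [crossProduct]
      exact key _
  · intro f hf
    set φ : MvPolynomial (Fin 3) O →ₐ[O] MvPolynomial (Fin 3) O :=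
      aeval (fun m => C (v m) * (C a * X i)) with hφ
    have hmem : f - φ f ∈ Ideal.span {u, w} := by
      apply Ezr_subst
      intro m
      rw [hφ, aeval_X, Ideal.mem_span_pair]
      have hC : (C a * C (v i) : MvPolynomial (Fin 3) O) = 1 := by
        rw [← C_mul, ha, C_1]
      rcases hall m with h | h | h
      · subst h
        refine ⟨0, 0, ?_⟩
        linear_combination (X m) * hC
      · subst h
        refine ⟨C a, 0, ?_⟩
        rw [hu]
        linear_combination (X (i + 1)) * hC
      · subst h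
        refine ⟨0, 1, ?_⟩
        rw [hw, C_mul]
        ring
    have hφf : φ f = 0 := by
      have e : φ = (Polynomial.aeval (C a * X i : MvPolynomial (Fin 3) O)).comp
          (aeval (fun i => (Polynomial.C (v i) * Polynomial.X : Polynomial O))) := by
        apply MvPolynomial.algHom_ext
        intro m
        rw [hφ, aeval_X, AlgHom.comp_apply, aeval_X, map_mul, Polynomial.aeval_C,
          Polynomial.aeval_X]
        rfl
      rw [e, AlgHom.comp_apply, hf, map_zero]
    rw [hφf, sub_zero, Ideal.mem_span_pair] at hmem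
    obtain ⟨A, B, h⟩ := hmem
    exact ⟨A, B, by rw [← h]; ring⟩
  · intro A B hAB
    set σ : MvPolynomial (Fin 3) O →ₐ[O] MvPolynomial (Fin 3) O :=
      aeval (fun m => if m = i + 2 then C (v (i + 2) * a) * X i else X m) with hσ
    have hσw : σ w = 0 := by
      rw [hw, hσ]
      simp only [map_sub, map_mul, aeval_X, aeval_C, if_pos, if_neg i2.symm]
      exact sub_self _
    have hσu : σ u = u := by
      rw [hu, hσ]
      simp only [map_sub, map_mul, aeval_X, aeval_C, if_neg i3, if_neg i2.symm]
      rfl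
    have hu0 : u ≠ 0 := by
      intro h
      have h1 := congrArg (eval (fun m => if m = i + 1 then (1 : O) else 0)) h
      rw [hu] at h1
      simp only [map_sub, map_mul, eval_C, eval_X, if_pos, if_neg i1.symm, mul_one, mul_zero,
        sub_zero, map_zero] at h1
      exact hv0 h1
    have hw0 : w ≠ 0 := by
      intro h
      have h1 := congrArg (eval (fun m => if m = i + 2 then (1 : O) else 0)) h
      rw [hw] at h1
      simp only [map_sub, map_mul, eval_C, eval_X, if_pos, if_neg i2.symm, mul_zero,
        sub_zero, map_zero] at h1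
      exact one_ne_zero h1
    have h1 := congrArg σ hAB
    rw [map_add, map_mul, map_mul, hσw, hσu, mul_zero, add_zero, map_zero] at h1
    have h2 : σ A = 0 := by
      rcases mul_eq_zero.1 h1 with h | h
      · exact h
      · exact absurd h hu0
    have h3 : A - σ A ∈ Ideal.span {w} := by
      apply Ezr_subst
      intro m
      rw [hσ, aeval_X]
      by_cases hm : m = i + 2
      · rw [if_pos hm, hm]
        exact Ideal.subset_span rfl
      · rw [if_neg hm, sub_self]
        exact Ideal.zero_mem _
    rw [h2, sub_zero, Ideal.mem_span_singleton'] at h3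
    obtain ⟨r, hr⟩ := h3
    refine ⟨r, hr.symm, ?_⟩
    apply mul_right_cancel₀ hw0
    rw [← hr] at hAB
    linear_combination hAB
  · intro v' h1 h2
    rw [hu] at h1
    rw [hw] at h2
    simp only [map_sub, map_mul, eval_C, eval_X] at h1 h2
    have h3 : v i * v' (i + 2) - v (i + 2) * v' i = 0 := by
      linear_combination (v i) * h2 + (v (i + 2) * v' i) * ha
    have h4 : v (i + 1) * v' (i + 2) - v (i + 2) * v' (i + 1) = 0 := by
      apply mul_left_cancel₀ hv0
      linear_combination (v (i + 1)) * h3 - (v (i + 2)) * h1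
    clear_value u w
    have i012 : i = 0 ∨ i = 1 ∨ i = 2 := by fin_cases i <;> simp
    rcases i012 with rfl | rfl | rfl
    · have h1' : v 0 * v' 1 - v 1 * v' 0 = 0 := h1
      have h3' : v 0 * v' 2 - v 2 * v' 0 = 0 := h3
      have h4' : v 1 * v' 2 - v 2 * v' 1 = 0 := h4
      funext m
      fin_cases m <;> simp [crossProduct]
      · linear_combination h4'
      · linear_combination - h3'
      · linear_combination h1'
    · have h1' : v 1 * v' 2 - v 2 * v' 1 = 0 := h1
      have h3' : v 1 * v' 0 - v 0 * v' 1 = 0 := h3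
      have h4' : v 2 * v' 0 - v 0 * v' 2 = 0 := h4
      funext m
      fin_cases m <;> simp [crossProduct]
      · linear_combination h1'
      · linear_combination h4'
      · linear_combination - h3'
    · have h1' : v 2 * v' 0 - v 0 * v' 2 = 0 := h1
      have h3' : v 2 * v' 1 - v 1 * v' 2 = 0 := h3
      have h4' : v 0 * v' 1 - v 1 * v' 0 = 0 := h4
      funext m
      fin_cases m <;> simp [crossProduct]
      · linear_combination - h3'
      · linear_combination h1'
      · linear_combination h4'

theorem two_forms {v : Fin 3 → O} (hv : ∃ i, IsUnit (v i)) :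
    ∃ u w : MvPolynomial (Fin 3) O, u.IsHomogeneous 1 ∧ w.IsHomogeneous 1 ∧ eval v u = 0 ∧
      eval v w = 0 ∧ crossProduct (grad u v) (grad w v) = v ∧
      (∀ f : MvPolynomial (Fin 3) O,
        aeval (fun i => (Polynomial.C (v i) * Polynomial.X : Polynomial O)) f = 0 →
        ∃ A B, f = u * A + w * B) ∧
      (∀ A B, A * u + B * w = 0 → ∃ r, A = r * w ∧ B = -(r * u)) := by
  obtain ⟨u, w, h1, h2, h3, h4, h5, h6, h7, -⟩ := Ezr_two hv
  exact ⟨u, w, h1, h2, h3, h4, h5, h6, h7⟩

theorem Ezr_line {F : MvPolynomial (Fin 3) O} (hF : F.IsHomogeneous c) (v : Fin 3 → O) :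
    aeval (fun i => (Polynomial.C (v i) * Polynomial.X : Polynomial O)) F =
      Polynomial.C (eval v F) * Polynomial.X ^ c := by
  rw [aeval_def, eval₂_eq', eval_eq', map_sum, Finset.sum_mul]
  refine Finset.sum_congr rfl fun m hm => ?_
  have h1 : m.degree = c := by
    have h2 := hF (mem_support_iff.1 hm)
    rw [← h2, Finsupp.degree_eq_weight_one]
    rfl
  have h3 : ∑ i, m i = c := by
    rw [← h1, Finsupp.degree_eq_sum]
  rw [Polynomial.algebraMap_eq, map_mul, mul_assoc]
  congr 1
  rw [← h3, map_prod, ← Finset.prod_pow_eq_pow_sum, ← Finset.prod_mul_distrib]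
  refine Finset.prod_congr rfl fun i _ => ?_
  rw [mul_pow, map_pow]

theorem Ezr_hc {u : MvPolynomial (Fin 3) O} (hu : u.IsHomogeneous 1) (n : ℕ)
    (A : MvPolynomial (Fin 3) O) :
    homogeneousComponent (n + 1) (u * A) = u * homogeneousComponent n A := by
  have h1 : ∀ i, homogeneousComponent (n + 1) (u * homogeneousComponent i A) =
      if n = i then u * homogeneousComponent i A else 0 := by
    intro i
    have h2 : (u * homogeneousComponent i A).IsHomogeneous (1 + i) :=
      hu.mul (homogeneousComponent_isHomogeneous i A)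
    rw [homogeneousComponent_of_mem ((mem_homogeneousSubmodule _ _).2 h2)]
    by_cases h : n = i
    · rw [if_pos h, if_pos (by omega)]
    · rw [if_neg h, if_neg (by omega)]
  conv_lhs => rw [← sum_homogeneousComponent A]
  rw [Finset.mul_sum, map_sum, Finset.sum_congr rfl (fun i _ => h1 i), Finset.sum_ite_eq]
  by_cases h : n ∈ Finset.range (A.totalDegree + 1)
  · rw [if_pos h]
  · rw [if_neg h, homogeneousComponent_eq_zero, mul_zero]
    rw [Finset.mem_range] at h
    omega

theorem Ezr_split {u w F : MvPolynomial (Fin 3) O} (hu : u.IsHomogeneous 1) (hw : w.IsHomogeneous 1)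
    (hc : 1 ≤ c) (hF : F.IsHomogeneous c) {v : Fin 3 → O} (hv : eval v F = 0)
    (h6 : ∀ f : MvPolynomial (Fin 3) O,
        aeval (fun i => (Polynomial.C (v i) * Polynomial.X : Polynomial O)) f = 0 →
        ∃ A B, f = u * A + w * B) :
    ∃ F1 F2 : MvPolynomial (Fin 3) O, F1.IsHomogeneous (c - 1) ∧ F2.IsHomogeneous (c - 1) ∧
      F = u * F1 + w * F2 := by
  obtain ⟨A, B, h⟩ := h6 F (by rw [Ezr_line hF, hv, map_zero, zero_mul])
  refine ⟨homogeneousComponent (c - 1) A, homogeneousComponent (c - 1) B,
    homogeneousComponent_isHomogeneous _ _, homogeneousComponent_isHomogeneous _ _, ?_⟩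
  have e : homogeneousComponent (c - 1 + 1) F = F := by
    rw [homogeneousComponent_of_mem ((mem_homogeneousSubmodule _ _).2 hF), if_pos (by omega)]
  conv_lhs => rw [← e, h]
  rw [map_add, Ezr_hc hu, Ezr_hc hw]

theorem Ezr_grad {u w F1 F2 : MvPolynomial (Fin 3) O} {v : Fin 3 → O} (h3 : eval v u = 0)
    (h4 : eval v w = 0) :
    grad (u * F1 + w * F2) v = eval v F1 • grad u v + eval v F2 • grad w v := by
  funext i
  unfold grad
  rw [Pi.add_apply, Pi.smul_apply, Pi.smul_apply, map_add, Derivation.leibniz, Derivation.leibniz]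
  simp only [smul_eq_mul, map_add, map_mul, h3, h4]
  ring

theorem exists_Ez (S : GeoS O k I D0) {F G : MvPolynomial (Fin 3) O} (hp : PairS S c d F G)
    (hc : 2 ≤ c) (hd : 2 ≤ d) (hG : map S.rho G ≠ 0) (z : I) {J : O} (hJ : IsJ3 F G (S.v z) J) :
    ∃ u w F1 F2 G1 G2 : MvPolynomial (Fin 3) O,
      u.IsHomogeneous 1 ∧ w.IsHomogeneous 1 ∧ F1.IsHomogeneous (c - 1) ∧ F2.IsHomogeneous (c - 1) ∧
      G1.IsHomogeneous (d - 1) ∧ G2.IsHomogeneous (d - 1) ∧ eval (S.v z) u = 0 ∧ eval (S.v z) w = 0 ∧
      F = u * F1 + w * F2 ∧ G = u * G1 + w * G2 ∧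
      (∀ A B, A * u + B * w = 0 → ∃ r, A = r * w ∧ B = -(r * u)) ∧
      (F1 * G2 - F2 * G1).IsHomogeneous (c + d - 2) ∧
      eval (S.v z) (F1 * G2 - F2 * G1) = J ∧
      (∀ z', z' ≠ z → eval (S.v z') (F1 * G2 - F2 * G1) = 0) ∧
      map S.rho (F1 * G2 - F2 * G1) ≠ 0 ∧
      (∀ f, InI S F G f → (F1 * G2 - F2 * G1) * f ∈ Ideal.span {F, G}) := by
  obtain ⟨u, w, h1, h2, h3, h4, h5, h6, h7, h8⟩ := Ezr_two (S.unim z)
  obtain ⟨G1, G2, g1, g2, hGs⟩ := Ezr_split h1 h2 (by omega) hp.hG (hp.vG z) h6
  have key : ∃ F1 F2 : MvPolynomial (Fin 3) O, F1.IsHomogeneous (c - 1) ∧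
      F2.IsHomogeneous (c - 1) ∧ F = u * F1 + w * F2 ∧ map S.rho (F1 * G2 - F2 * G1) ≠ 0 := by
    obtain ⟨F1, F2, f1, f2, hFs⟩ := Ezr_split h1 h2 (by omega) hp.hF (hp.vF z) h6
    by_cases hr : map S.rho (F1 * G2 - F2 * G1) = 0
    · set r : MvPolynomial (Fin 3) O := X 0 ^ (c - 2) with hrd
      have hrh : r.IsHomogeneous (c - 2) := isHomogeneous_X_pow _ _
      have hwr : (w * r).IsHomogeneous (c - 1) := by
        have e := h2.mul hrh
        have e2 : 1 + (c - 2) = c - 1 := by omega
        rwa [e2] at e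
      have hur : (u * r).IsHomogeneous (c - 1) := by
        have e := h1.mul hrh
        have e2 : 1 + (c - 2) = c - 1 := by omega
        rwa [e2] at e
      refine ⟨F1 + w * r, F2 - u * r, f1.add hwr, f2.sub hur, by rw [hFs]; ring, ?_⟩
      have e : (F1 + w * r) * G2 - (F2 - u * r) * G1 = (F1 * G2 - F2 * G1) + r * G := by
        rw [hGs]; ring
      rw [e, map_add, hr, zero_add, map_mul]
      refine mul_ne_zero ?_ hG
      rw [hrd, map_pow, map_X]
      exact pow_ne_zero _ (X_ne_zero _)
    · exact ⟨F1, F2, f1, f2, hFs, hr⟩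
  obtain ⟨F1, F2, f1, f2, hFs, hrho⟩ := key
  have hcross : eval (S.v z) (F1 * G2 - F2 * G1) = J := by
    obtain ⟨i, hi⟩ := S.unim z
    have e : crossProduct (grad F (S.v z)) (grad G (S.v z)) = J • S.v z := hJ
    rw [hFs, hGs, Ezr_grad h3 h4, Ezr_grad h3 h4] at e
    have e2 : crossProduct (eval (S.v z) F1 • grad u (S.v z) + eval (S.v z) F2 • grad w (S.v z))
        (eval (S.v z) G1 • grad u (S.v z) + eval (S.v z) G2 • grad w (S.v z)) =
        (eval (S.v z) (F1 * G2 - F2 * G1)) • crossProduct (grad u (S.v z)) (grad w (S.v z)) := by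
      have h9 : crossProduct (grad w (S.v z)) (grad u (S.v z)) =
          - crossProduct (grad u (S.v z)) (grad w (S.v z)) := by
        rw [cross_anticomm]
      simp only [map_add, map_smul, LinearMap.add_apply, LinearMap.smul_apply, cross_self, h9,
        map_sub, map_mul, sub_smul, mul_smul, smul_zero, zero_add, add_zero, smul_neg]
      rw [smul_comm (eval (S.v z) G2), smul_comm (eval (S.v z) G1)]
      abel
    rw [e2, h5] at e
    have e3 := congrFun e i
    simp only [Pi.smul_apply, smul_eq_mul] at e3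
    exact hi.mul_right_cancel e3
  refine ⟨u, w, F1, F2, G1, G2, h1, h2, f1, f2, g1, g2, h3, h4, hFs, hGs, h7, ?_, hcross, ?_, hrho,
    ?_⟩
  · have e1 := f1.mul g2
    have e2 := f2.mul g1
    have e3 : c - 1 + (d - 1) = c + d - 2 := by omega
    rw [e3] at e1 e2
    exact e1.sub e2
  · intro z' hz'
    by_contra hne
    have a1 := hp.vF z'
    have a2 := hp.vG z'
    rw [hFs] at a1
    rw [hGs] at a2
    rw [map_sub, map_mul, map_mul] at hne
    rw [map_add, map_mul, map_mul] at a1 a2
    have b1 : eval (S.v z') u = 0 := by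
      refine (mul_eq_zero.1 ?_).resolve_left hne
      linear_combination (eval (S.v z') G2) * a1 - (eval (S.v z') F2) * a2
    have b2 : eval (S.v z') w = 0 := by
      refine (mul_eq_zero.1 ?_).resolve_left hne
      linear_combination (eval (S.v z') F1) * a2 - (eval (S.v z') G1) * a1
    have b3 := h8 _ b1 b2
    have b4 := crossProduct_ne_zero_iff_linearIndependent.2 (S.dist z z' hz'.symm)
    apply b4
    have b5 := fun i => congrArg S.rho (congrFun b3 i)
    funext i
    have b6 := b5 i
    rw [cross_apply] at b6 ⊢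
    fin_cases i
    · simpa using b6
    · simpa using b6
    · simpa using b6
  · rintro f ⟨m, hm⟩
    rw [Ideal.mem_span_pair] at hm
    obtain ⟨A, B, hAB⟩ := hm
    have hf : aeval (fun i => (Polynomial.C (S.v z i) * Polynomial.X : Polynomial O)) f = 0 := by
      have e := congrArg (aeval (fun i => (Polynomial.C (S.v z i) * Polynomial.X : Polynomial O)))
        hAB
      rw [map_add, map_mul, map_mul, map_mul, Ezr_line hp.hF, Ezr_line hp.hG, hp.vF, hp.vG,
        map_zero, zero_mul, zero_mul, mul_zero, mul_zero, add_zero, aeval_C,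
        Polynomial.algebraMap_eq] at e
      have hpi : (Polynomial.C (S.pi ^ m) : Polynomial O) ≠ 0 := by
        rw [Ne, Polynomial.C_eq_zero]
        exact pow_ne_zero _ S.prime.ne_zero
      exact (mul_eq_zero.1 e.symm).resolve_left hpi
    obtain ⟨A', B', hf'⟩ := h6 f hf
    rw [Ideal.mem_span_pair]
    refine ⟨A' * G2 - B' * G1, B' * F1 - A' * F2, ?_⟩
    rw [hf', hFs, hGs]
    ring

end GP80

end S_H80_GP_Ezr
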