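import Mathlib
import Pool.Agent.H80.M87.G01
import Pool.Agent.H80.M87.G02
import Pool.Agent.H80.M87.G04
import Pool.Agent.H80.M87.G05
import Pool.Agent.H80.M87.G06

/-! MP_87ed0a_ag: this file joins several modules to save build time. -/

section S_H80_GP_Sl2

/-!
# Row Sl2 (MP_87ed0a_GP): E-invariant forms: degree inequality, antisymmetry, commutator  (about 170 lines)

Everything is about `H(P, x) ∈ BB`, bihomogeneous of `P`-degree `f` and `x`-degree `c`; by `MvPolynomial.funext` (`ℂ` infinite) polynomial identities may be checked on values at `(p, y) ∈ ℂ^4 × ℂ^4`.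
* Key identity for `EE H = 0`: `H(Q - ν x, Q) = ν^c H(Q - ν x, x)` for all `Q, x ∈ ℂ^4`, `ν ∈ ℂ`: with `p = Q - ν x`: `Q = ν x + 1 * p`, so by `einv` (`y = ν x`, `μ = 1`) `H(p, Q) = H(p, ν x) = ν^c H(p, x)`.
  For fixed `Q, x` both sides are polynomials in `ν` (take `S = Polynomial ℂ`, `ν = T`, in `einv`): `A(T) := H(Q - T x, Q)` has degree `≤ f` in `T` (`P`-degree `f`), `B(T) := H(Q - T x, x)`, `A = T^c B`.
* `f_ge`: if `f < c`, then `A` has degree `< c` and is divisible by `T^c`, so `A = 0 = B`, and `B(0) = H(Q, x) = 0` for all `Q, x`: `H = 0`.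
* `antisym` (`f = c`): the coefficient of `T^c` in `A` is the top coefficient, `H(-x, Q) = (-1)^c H(x, Q)`; in `T^c B` it is `B(0) = H(Q, x)`.  So `H(Q, x) = (-1)^c H(x, Q)`.
* `EE_DG`: `EE (DG H) + c • H = DG (EE H) + f • H`: `⁅EE, DG⁆` is the derivation with `P_i ↦ P_i`, `x_i ↦ - x_i` (check on generators), which acts on a bihomogeneous polynomial by `f - c` (check on monomials).
* `DG_wx`, `DG_wP`: `DG` raises the `x`-degree by 1 and lowers the `P`-degree by 1 (`f ≥ 1`; for `f = 0`, `DG H = 0`).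
-/

namespace GP80

open MvPolynomial

theorem Sl2_T_prod {S ι : Type} [CommRing S] (s : Finset ι) (q : ι → Polynomial S) (n : ι → ℕ)
    (a : ι → S) (h : ∀ i ∈ s, (q i).natDegree ≤ n i ∧ (q i).coeff (n i) = a i) :
    (∏ i ∈ s, q i).natDegree ≤ ∑ i ∈ s, n i ∧ (∏ i ∈ s, q i).coeff (∑ i ∈ s, n i) = ∏ i ∈ s, a i := by
  classical
  induction s using Finset.induction_on with
  | empty => simp
  | insert b s hb ih =>
    rw [Finset.prod_insert hb, Finset.sum_insert hb, Finset.prod_insert hb]
    obtain ⟨h1, h2⟩ := h b (Finset.mem_insert_self _ _)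
    obtain ⟨h3, h4⟩ := ih fun i hi => h i (Finset.mem_insert_of_mem hi)
    refine ⟨(Polynomial.natDegree_mul_le).trans (add_le_add h1 h3), ?_⟩
    rw [Polynomial.coeff_mul_add_eq_of_natDegree_le h1 h3, h2, h4]

theorem Sl2_T_pow {S : Type} [CommRing S] (q : Polynomial S) (n : ℕ)
    (a : S) (h : q.natDegree ≤ n ∧ q.coeff n = a) (k : ℕ) :
    (q ^ k).natDegree ≤ k * n ∧ (q ^ k).coeff (k * n) = a ^ k := by
  have h1 := Sl2_T_prod (Finset.range k) (fun _ => q) (fun _ => n) (fun _ => a) fun _ _ => h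
  simpa using h1

theorem Sl2_lead {S σ : Type} [CommRing S] [Algebra ℂ S] (w : σ → ℕ) (g' : σ → Polynomial S)
    (g : σ → S) (h : ∀ s, (g' s).natDegree ≤ w s ∧ (g' s).coeff (w s) = g s)
    {H : MvPolynomial σ ℂ} {n : ℕ} (hH : IsWeightedHomogeneous w H n) :
    (aeval g' H).natDegree ≤ n ∧ (aeval g' H).coeff n = aeval g H := by
  have key : ∀ d ∈ H.support, (∏ i ∈ d.support, g' i ^ d i).natDegree ≤ n ∧
      (∏ i ∈ d.support, g' i ^ d i).coeff n = ∏ i ∈ d.support, g i ^ d i := by
    intro d hd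
    have h1 := hH (mem_support_iff.1 hd)
    rw [Finsupp.weight_apply, Finsupp.sum] at h1
    have h2 := Sl2_T_prod d.support (fun i => g' i ^ d i) (fun i => d i * w i)
      (fun i => g i ^ d i) fun i _ => Sl2_T_pow (g' i) (w i) (g i) (h i) (d i)
    simp only [smul_eq_mul] at h1
    rw [h1] at h2
    exact h2
  rw [aeval_def, aeval_def, eval₂_eq, eval₂_eq]
  constructor
  · apply Polynomial.natDegree_sum_le_of_forall_le
    intro d hd
    rw [Polynomial.algebraMap_apply]
    exact (Polynomial.natDegree_C_mul_le _ _).trans (key d hd).1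
  · rw [Polynomial.finsetSum_coeff]
    apply Finset.sum_congr rfl
    intro d hd
    rw [Polynomial.algebraMap_apply, Polynomial.coeff_C_mul, (key d hd).2]

theorem Sl2_scale {S σ : Type} [CommRing S] [Algebra ℂ S] (w : σ → ℕ) (g : σ → S) (a : S)
    {H : MvPolynomial σ ℂ} {n : ℕ} (hH : IsWeightedHomogeneous w H n) :
    aeval (fun s => a ^ w s * g s) H = a ^ n * aeval g H := by
  rw [aeval_def, aeval_def, eval₂_eq, eval₂_eq, Finset.mul_sum]
  apply Finset.sum_congr rfl
  intro d hd
  have h1 := hH (mem_support_iff.1 hd)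
  rw [Finsupp.weight_apply, Finsupp.sum] at h1
  have h2 : ∏ i ∈ d.support, (a ^ w i * g i) ^ d i = a ^ n * ∏ i ∈ d.support, g i ^ d i := by
    rw [← h1, ← Finset.prod_pow_eq_pow_sum, ← Finset.prod_mul_distrib]
    apply Finset.prod_congr rfl
    intro i _
    rw [mul_pow, ← pow_mul, smul_eq_mul, mul_comm (w i)]
  rw [h2]
  ring

theorem Sl2_eval {S σ : Type} [CommRing S] [Algebra ℂ S] (g : σ → Polynomial S) (μ : S)
    (H : MvPolynomial σ ℂ) :
    Polynomial.eval μ (aeval g H) = aeval (fun s => Polynomial.eval μ (g s)) H := by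
  induction H using MvPolynomial.induction_on with
  | C a => rw [algHom_C, algHom_C, Polynomial.algebraMap_apply, Polynomial.eval_C]
  | add f g hf hg => rw [map_add, map_add, Polynomial.eval_add, hf, hg]
  | mul_X f i hf => rw [map_mul, map_mul, Polynomial.eval_mul, hf, aeval_X, aeval_X]

theorem Sl2_scale_x {S : Type} [CommRing S] [Algebra ℂ S] {H : BB} {c : ℕ}
    (hx : IsWeightedHomogeneous wx H c) (p y : Fin 4 → S) (a : S) :
    aeval (Sum.elim p (fun i => a * y i)) H = a ^ c * aeval (Sum.elim p y) H := by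
  rw [← Sl2_scale wx (Sum.elim p y) a hx]
  congr 2
  funext s
  rcases s with i | i <;> simp [wx]

theorem Sl2_scale_P {S : Type} [CommRing S] [Algebra ℂ S] {H : BB} {f : ℕ}
    (hP : IsWeightedHomogeneous wP H f) (p y : Fin 4 → S) (a : S) :
    aeval (Sum.elim (fun i => a * p i) y) H = a ^ f * aeval (Sum.elim p y) H := by
  rw [← Sl2_scale wP (Sum.elim p y) a hP]
  congr 2
  funext s
  rcases s with i | i <;> simp [wP]

theorem Sl2_key {S : Type} [CommRing S] [Algebra ℂ S] {H : BB} {c : ℕ}
    (hx : IsWeightedHomogeneous wx H c) (hE : EE H = 0) (p y : Fin 4 → S) :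
    aeval (Sum.elim p y) H =
      (aeval (Sum.elim (fun i => Polynomial.C (p i) + Polynomial.X * Polynomial.C (-y i))
        (fun i => Polynomial.C (p i))) H).coeff c := by
  have h1 := einv hE (fun i => Polynomial.C (p i) + Polynomial.X * Polynomial.C (-y i))
    (fun i => Polynomial.X * Polynomial.C (y i)) (1 : Polynomial S)
  rw [Sl2_scale_x hx (fun i => Polynomial.C (p i) + Polynomial.X * Polynomial.C (-y i))
    (fun i => Polynomial.C (y i)) Polynomial.X] at h1
  have h2 : (fun i : Fin 4 => (Polynomial.X * Polynomial.C (y i) + 1 *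
      (Polynomial.C (p i) + Polynomial.X * Polynomial.C (-y i)) : Polynomial S)) =
      fun i => Polynomial.C (p i) := by
    funext i
    rw [Polynomial.C_neg]
    ring
  rw [h2] at h1
  rw [h1]
  have h3 := Polynomial.coeff_X_pow_mul (aeval (Sum.elim
    (fun i => Polynomial.C (p i) + Polynomial.X * Polynomial.C (-y i))
    (fun i => Polynomial.C (y i))) H) c 0
  rw [zero_add] at h3
  rw [h3, Polynomial.coeff_zero_eq_eval_zero, Sl2_eval]
  congr 2
  funext s
  rcases s with i | i <;> simp

theorem Sl2_deg {S : Type} [CommRing S] [Algebra ℂ S] {H : BB} {f : ℕ}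
    (hP : IsWeightedHomogeneous wP H f) (p y : Fin 4 → S) :
    (aeval (Sum.elim (fun i => Polynomial.C (p i) + Polynomial.X * Polynomial.C (-y i))
        (fun i => Polynomial.C (p i))) H).natDegree ≤ f ∧
    (aeval (Sum.elim (fun i => Polynomial.C (p i) + Polynomial.X * Polynomial.C (-y i))
        (fun i => Polynomial.C (p i))) H).coeff f = aeval (Sum.elim (fun i => -y i) p) H := by
  apply Sl2_lead wP _ _ _ hP
  intro s
  rcases s with i | i
  · simp only [Sum.elim_inl, wP]
    constructor
    · refine (Polynomial.natDegree_add_le _ _).trans (max_le ?_ ?_)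
      · simp
      · rw [mul_comm]
        exact (Polynomial.natDegree_C_mul_le _ _).trans Polynomial.natDegree_X_le
    · rw [Polynomial.coeff_add, Polynomial.coeff_C_succ, Polynomial.coeff_X_mul,
        Polynomial.coeff_C_zero, zero_add]
  · simp [wP]

theorem f_ge {H : BB} {c f : ℕ} (hx : IsWeightedHomogeneous wx H c) (hP : IsWeightedHomogeneous wP H f)
    (hE : EE H = 0) (h0 : H ≠ 0) : c ≤ f := by
  by_contra hlt
  push Not at hlt
  apply h0
  have h1 := Sl2_key hx hE (fun i => (X (Sum.inl i) : BB)) (fun i => (X (Sum.inr i) : BB))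
  have h2 := (Sl2_deg hP (fun i => (X (Sum.inl i) : BB)) (fun i => (X (Sum.inr i) : BB))).1
  rw [Polynomial.coeff_eq_zero_of_natDegree_lt (lt_of_le_of_lt h2 hlt)] at h1
  have h3 : (Sum.elim (fun i => (X (Sum.inl i) : BB)) (fun i => (X (Sum.inr i) : BB))) = X := by
    funext s
    rcases s with i | i <;> rfl
  rw [h3, aeval_X_left_apply] at h1
  exact h1

theorem antisym {H : BB} {c : ℕ} (hx : IsWeightedHomogeneous wx H c)
    (hP : IsWeightedHomogeneous wP H c) (hE : EE H = 0) {S : Type} [CommRing S] [Algebra ℂ S]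
    (p y : Fin 4 → S) :
    aeval (Sum.elim p y) H = (-1) ^ c * aeval (Sum.elim y p) H := by
  rw [Sl2_key hx hE p y, (Sl2_deg hP p y).2, ← Sl2_scale_P hP y p (-1)]
  congr 2
  funext s
  rcases s with i | i <;> simp

theorem Sl2_DG_eq (H : BB) : DG H = ∑ a, X (Sum.inr a) * pderiv (Sum.inl a) H := by
  induction H using MvPolynomial.induction_on with
  | C c => simp
  | add f g hf hg => simp only [map_add, hf, hg, mul_add, Finset.sum_add_distrib]
  | mul_X f i hf =>
    rw [Derivation.leibniz, hf, smul_eq_mul, smul_eq_mul]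
    simp only [Derivation.leibniz, smul_eq_mul, mul_add, Finset.sum_add_distrib]
    congr 1
    · rcases i with i | i
      · rw [Ga1_DG_inl, Finset.sum_eq_single i]
        · rw [pderiv_X_self]; ring
        · intro b _ hb
          rw [pderiv_X_of_ne (by simpa using hb.symm)]
          simp
        · simp
      · rw [Ga1_DG_inr, mul_zero, Finset.sum_eq_zero]
        intro a _
        rw [pderiv_X_of_ne (by simp)]
        simp
    · rw [Finset.mul_sum]
      exact Finset.sum_congr rfl (fun a _ => by ring)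

theorem Sl2_comm (H : BB) : EE (DG H) - DG (EE H) =
    ∑ a, X (Sum.inl a) * pderiv (Sum.inl a) H - ∑ a, X (Sum.inr a) * pderiv (Sum.inr a) H := by
  induction H using MvPolynomial.induction_on with
  | C c => simp
  | add f g hf hg =>
    simp only [map_add, mul_add, Finset.sum_add_distrib]
    linear_combination hf + hg
  | mul_X f i hf =>
    have e1 : EE (DG (f * X i)) - DG (EE (f * X i)) =
        (EE (DG f) - DG (EE f)) * X i + f * (EE (DG (X i)) - DG (EE (X i))) := by
      simp only [Derivation.leibniz, map_add, smul_eq_mul]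
      ring
    have e2 : ∑ a, X (Sum.inl a) * pderiv (Sum.inl a) (f * X i) -
        ∑ a, X (Sum.inr a) * pderiv (Sum.inr a) (f * X i) =
        (∑ a, X (Sum.inl a) * pderiv (Sum.inl a) f -
          ∑ a, X (Sum.inr a) * pderiv (Sum.inr a) f) * X i +
        f * (∑ a, X (Sum.inl a) * pderiv (Sum.inl a) (X i) -
          ∑ a, X (Sum.inr a) * pderiv (Sum.inr a) (X i)) := by
      simp only [Derivation.leibniz, smul_eq_mul, mul_add, Finset.sum_add_distrib, sub_mul, mul_sub,
        Finset.sum_mul, Finset.mul_sum]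
      have t1 : ∀ a : Fin 4, (X (Sum.inl a) : BB) * (f * pderiv (Sum.inl a) (X i)) =
          f * (X (Sum.inl a) * pderiv (Sum.inl a) (X i)) := fun a => by ring
      have t2 : ∀ a : Fin 4, (X (Sum.inr a) : BB) * (f * pderiv (Sum.inr a) (X i)) =
          f * (X (Sum.inr a) * pderiv (Sum.inr a) (X i)) := fun a => by ring
      have t3 : ∀ a : Fin 4, (X (Sum.inl a) : BB) * (X i * pderiv (Sum.inl a) f) =
          X (Sum.inl a) * pderiv (Sum.inl a) f * X i := fun a => by ring
      have t4 : ∀ a : Fin 4, (X (Sum.inr a) : BB) * (X i * pderiv (Sum.inr a) f) =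
          X (Sum.inr a) * pderiv (Sum.inr a) f * X i := fun a => by ring
      simp only [t1, t2, t3, t4]
      ring
    rw [e1, e2, hf]
    congr 2
    rcases i with i | i
    · rw [Ga1_DG_inl, Ga1_EE_inr, Ga1_EE_inl, map_zero, sub_zero, Finset.sum_eq_single i,
        Finset.sum_eq_zero, pderiv_X_self]
      · ring
      · intro a _
        rw [pderiv_X_of_ne (by simp)]
        simp
      · intro b _ hb
        rw [pderiv_X_of_ne (by simpa using hb.symm)]
        simp
      · simp
    · rw [Ga1_DG_inr, Ga1_EE_inr, Ga1_DG_inl, map_zero, zero_sub, Finset.sum_eq_zero,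
        Finset.sum_eq_single i, pderiv_X_self]
      · ring
      · intro b _ hb
        rw [pderiv_X_of_ne (by simpa using hb.symm)]
        simp
      · simp
      · intro a _
        rw [pderiv_X_of_ne (by simp)]
        simp

theorem EE_DG {H : BB} {c f : ℕ} (hx : IsWeightedHomogeneous wx H c)
    (hP : IsWeightedHomogeneous wP H f) :
    EE (DG H) + (c : BB) * H = DG (EE H) + (f : BB) * H := by
  have h1 := hx.sum_weight_X_mul_pderiv
  have h2 := hP.sum_weight_X_mul_pderiv
  rw [Fintype.sum_sum_type] at h1 h2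
  simp only [wx, wP, Sum.elim_inl, Sum.elim_inr, zero_smul, Finset.sum_const_zero, zero_add,
    add_zero, one_smul, nsmul_eq_mul] at h1 h2
  have h3 := Sl2_comm H
  rw [h1, h2] at h3
  linear_combination h3

theorem DG_wx {H : BB} {c : ℕ} (hx : IsWeightedHomogeneous wx H c) :
    IsWeightedHomogeneous wx (DG H) (c + 1) := by
  rw [Sl2_DG_eq]
  apply IsWeightedHomogeneous.sum
  intro a _
  rw [add_comm c 1]
  refine IsWeightedHomogeneous.mul ?_ ?_
  · have h := isWeightedHomogeneous_X ℂ wx (Sum.inr a)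
    simpa [wx] using h
  · exact IsWeightedHomogeneous.pderiv hx (by simp [wx])

theorem DG_wP {H : BB} {f : ℕ} (hP : IsWeightedHomogeneous wP H (f + 1)) :
    IsWeightedHomogeneous wP (DG H) f := by
  rw [Sl2_DG_eq]
  apply IsWeightedHomogeneous.sum
  intro a _
  rw [← zero_add f]
  refine IsWeightedHomogeneous.mul ?_ ?_
  · have h := isWeightedHomogeneous_X ℂ wP (Sum.inr a)
    simpa [wP] using h
  · exact IsWeightedHomogeneous.pderiv hP (by simp [wP])

end GP80

end S_H80_GP_Sl2

section S_H80_GP_Kos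

/-!
# Row Kos (MP_87ed0a_GP): two generators of the ideal of finitely many points are coprime; points on a line  (about 160 lines)

`k` a field, `w : I → k^3` finitely many vectors.
* `relPrime_of_gen`: if every form vanishing at all `w z` is in the ideal `(F, G)`, `F, G` forms, `(F, G) ≠ (0, 0)`, then `F, G` are coprime (`IsRelPrime`).
  Proof.  Let `H ∣ F`, `H ∣ G`.  `H ≠ 0`, `H` divides a nonzero form, so `H` is a form of some degree `h` (`homog_of_mul`).  If `h = 0`, `H` is a nonzero constant, a unit.  If `h ≥ 1`: all forms of degree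
  `t = card I` vanishing at the points are multiples of `H`; the space of forms of degree `t` vanishing at the points has dimension `≥ nn t - card I` (kernel of `evHom w t`, whose range is in `k^I`),
  and the space `mulSub H t` has dimension `nz (t - h) ≤ nn (t - 1)`; but `nn t - nn (t-1) = t + 1 > card I`.
* `line_dvd`: a form `F` of degree `m` which vanishes at more than `m` pairwise independent vectors `w z`, `z ∈ A`, on the line `λ = 0` (`λ = ∑ h_i X_i`, `h ≠ 0`) is divisible by `λ`.
  Proof.  A linear change of coordinates (or a direct parametrisation: `{λ = 0}` has a basis `p, q`; `g(s, t) = F(s p + t q)` is a binary form of degree `m` with more than `m` pairwise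
  non proportional zeros, so `g = 0`); and a form vanishing identically on `{λ = 0}` is divisible by `λ` when `k` is infinite: say `h_0 ≠ 0`, `h_0^m F = λ (..) + R(X_1, X_2)` (substitute
  `h_0 X_0 = λ - h_1 X_1 - h_2 X_2`), `R(x_1, x_2) = h_0^m F(x) = 0` for all points of the line, so `R = 0` (infinite field) and `λ ∣ h_0^m F`.
* `gen_line`: if all forms vanishing at the points are in `(F, G)`, `deg F = c ≤ deg G = d`, `1 ≤ c`, then at most `d` of the (pairwise independent) vectors `w z` are on a line: otherwise `λ ∣ F`, `λ ∣ G`,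
  but they are coprime.
-/

namespace GP80

open MvPolynomial

/-- linear form with given coefficients. -/
noncomputable def Kos_L {k : Type} [Field k] (b : Fin 3 → k) : MvPolynomial (Fin 3) k :=
  ∑ i, C (b i) * X i

theorem Kos_L_eval {k : Type} [Field k] (b x : Fin 3 → k) :
    eval x (Kos_L b) = ∑ i, b i * x i := by
  simp [Kos_L]

theorem Kos_L_hom {k : Type} [Field k] (b : Fin 3 → k) : (Kos_L b).IsHomogeneous 1 := by
  rw [Kos_L]
  apply IsHomogeneous.sum
  intro i _
  have h := (isHomogeneous_C (Fin 3) (b i)).mul (isHomogeneous_X k i)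
  rwa [zero_add] at h

theorem Kos_L_coeff {k : Type} [Field k] (b : Fin 3 → k) (i : Fin 3) :
    eval (Pi.single i 1) (Kos_L b) = b i := by
  rw [Kos_L_eval, Finset.sum_eq_single i]
  · rw [Pi.single_eq_same, mul_one]
  · intro j _ hj
    rw [Pi.single_eq_of_ne hj, mul_zero]
  · intro h
    exact absurd (Finset.mem_univ i) h

theorem Kos_L_ne {k : Type} [Field k] {b : Fin 3 → k} (hb : b ≠ 0) : Kos_L b ≠ 0 := by
  intro h
  apply hb
  funext i
  rw [← Kos_L_coeff b i, h, map_zero]
  rfl

/-- a vector orthogonal to `v` and not proportional to `a`. -/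
theorem Kos_choose {k : Type} [Field k] (v a : Fin 3 → k) :
    ∃ b : Fin 3 → k, b ∉ Submodule.span k {a} ∧ ∑ i, b i * v i = 0 := by
  classical
  obtain ⟨φ, hφ⟩ : ∃ φ : (Fin 3 → k) →ₗ[k] k, ∀ b, φ b = ∑ i, b i * v i := by
    refine ⟨{ toFun := fun b => ∑ i, b i * v i, map_add' := ?_, map_smul' := ?_ }, fun b => rfl⟩
    · intro x y
      simp [add_mul, Finset.sum_add_distrib]
    · intro c x
      simp [Finset.mul_sum, mul_assoc]
  have hrank : Module.finrank k (LinearMap.range φ) + Module.finrank k (LinearMap.ker φ)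
      = Module.finrank k (Fin 3 → k) := LinearMap.finrank_range_add_finrank_ker φ
  have h3 : Module.finrank k (Fin 3 → k) = 3 := by simp
  have h1 : Module.finrank k (LinearMap.range φ) ≤ 1 := by
    have := Submodule.finrank_le (LinearMap.range φ)
    rwa [Module.finrank_self] at this
  have h2 : ¬ LinearMap.ker φ ≤ Submodule.span k {a} := by
    intro hle
    have h4 := Submodule.finrank_mono hle
    have h5 : Module.finrank k (Submodule.span k {a}) ≤ 1 := by
      have := finrank_span_le_card (R := k) ({a} : Set (Fin 3 → k))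
      simpa using this
    omega
  obtain ⟨b, hb, hb'⟩ := Set.not_subset.mp h2
  refine ⟨b, hb', ?_⟩
  rw [← hφ]
  exact hb

theorem Kos_const {k : Type} [Field k] {P Q : MvPolynomial (Fin 3) k} (hP0 : P ≠ 0)
    (hPu : ¬ IsUnit P) {b : Fin 3 → k} (hb : b ≠ 0) (h : Kos_L b = P * Q) :
    ∃ c : k, c ≠ 0 ∧ Q = C c := by
  have hQ0 : Q ≠ 0 := by
    rintro rfl
    rw [mul_zero] at h
    exact Kos_L_ne hb h
  have h1 : (Kos_L b).totalDegree ≤ 1 := (Kos_L_hom b).totalDegree_le
  rw [h, totalDegree_mul_of_isDomain hP0 hQ0] at h1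
  have hP1 : P.totalDegree ≠ 0 := by
    intro h0
    apply hPu
    rw [isUnit_iff_totalDegree_of_isReduced]
    refine ⟨?_, h0⟩
    rw [isUnit_iff_ne_zero]
    intro hc
    rw [totalDegree_eq_zero_iff_eq_C.mp h0, hc, C_0] at hP0
    exact hP0 rfl
  have hQ1 : Q.totalDegree = 0 := by omega
  have hQC := totalDegree_eq_zero_iff_eq_C.mp hQ1
  refine ⟨coeff 0 Q, ?_, hQC⟩
  intro hc
  rw [hQC, hc, C_0] at hQ0
  exact hQ0 rfl

theorem relPrime_of_gen {k I : Type} [Field k] [Fintype I] (w : I → Fin 3 → k) {c d : ℕ}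
    {F G : MvPolynomial (Fin 3) k} (hF : F.IsHomogeneous c) (hG : G.IsHomogeneous d)
    (gen : ∀ t f, MvPolynomial.IsHomogeneous f t → (∀ z, eval (w z) f = 0) → f ∈ Ideal.span {F, G}) :
    IsRelPrime F G := by
  classical
  intro H hHF hHG
  by_contra hu
  have hdvd : ∀ b : I → Fin 3 → k, (∀ z, ∑ i, b z i * w z i = 0) → H ∣ ∏ z, Kos_L (b z) := by
    intro b hb
    have hhom : (∏ z, Kos_L (b z)).IsHomogeneous (∑ _z : I, 1) :=
      IsHomogeneous.prod _ _ _ (fun z _ => Kos_L_hom (b z))
    have hm := gen _ _ hhom (by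
      intro z
      rw [map_prod]
      apply Finset.prod_eq_zero (Finset.mem_univ z)
      rw [Kos_L_eval]
      exact hb z)
    obtain ⟨x, y, hxy⟩ := Ideal.mem_span_pair.mp hm
    rw [← hxy]
    exact dvd_add (Dvd.dvd.mul_left hHF x) (Dvd.dvd.mul_left hHG y)
  choose b hb1 hb2 using fun z : I => Kos_choose (w z) 0
  have hb0 : ∀ z, b z ≠ 0 := by
    intro z h
    apply hb1 z
    rw [h]
    exact Submodule.zero_mem _
  have hH0 : H ≠ 0 := by
    rintro rfl
    have h := zero_dvd_iff.mp (hdvd b hb2)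
    rw [Finset.prod_eq_zero_iff] at h
    obtain ⟨z, _, hz⟩ := h
    exact Kos_L_ne (hb0 z) hz
  obtain ⟨P, hP, hPH⟩ := WfDvdMonoid.exists_irreducible_factor hu hH0
  have hPp : Prime P := hP.prime
  obtain ⟨z0, _, hz0⟩ := hPp.exists_mem_finset_dvd (hPH.trans (hdvd b hb2))
  choose b' hb1' hb2' using fun z : I => Kos_choose (w z) (b z0)
  have hb0' : ∀ z, b' z ≠ 0 := by
    intro z h
    apply hb1' z
    rw [h]
    exact Submodule.zero_mem _
  obtain ⟨z1, _, hz1⟩ := hPp.exists_mem_finset_dvd (hPH.trans (hdvd b' hb2'))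
  obtain ⟨Q, hQ⟩ := hz0
  obtain ⟨Q', hQ'⟩ := hz1
  obtain ⟨e, he0, he⟩ := Kos_const hP.ne_zero hP.not_isUnit (hb0 z0) hQ
  obtain ⟨e', he0', he'⟩ := Kos_const hP.ne_zero hP.not_isUnit (hb0' z1) hQ'
  apply hb1' z1
  rw [Submodule.mem_span_singleton]
  refine ⟨e' / e, ?_⟩
  funext i
  have h1 := Kos_L_coeff (b z0) i
  have h2 := Kos_L_coeff (b' z1) i
  rw [hQ, he, map_mul, eval_C] at h1
  rw [hQ', he', map_mul, eval_C] at h2
  rw [Pi.smul_apply, smul_eq_mul, ← h1, ← h2]
  field_simp

theorem Kos_scale {k : Type} [Field k] {m : ℕ} {F : MvPolynomial (Fin 3) k}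
    (hF : F.IsHomogeneous m) (c : k) (v : Fin 3 → k) : eval (c • v) F = c ^ m * eval v F := by
  rw [eval_eq', eval_eq', Finset.mul_sum]
  apply Finset.sum_congr rfl
  intro e he
  have h1 : e.weight 1 = m := hF (mem_support_iff.mp he)
  have h2 : ∑ i, e i = m := by
    rw [← h1]
    simp [Finsupp.weight_apply, Finsupp.sum_fintype]
  have h3 : ∏ i, (c • v) i ^ e i = c ^ m * ∏ i, v i ^ e i := by
    simp only [Pi.smul_apply, smul_eq_mul, mul_pow]
    rw [Finset.prod_mul_distrib, Finset.prod_pow_eq_pow_sum, h2]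
  rw [h3]
  ring

theorem Kos_aeval {k : Type} [Field k] (F : MvPolynomial (Fin 3) k) (f : Fin 3 → Polynomial k)
    (T : k) : (aeval f F).eval T = eval (fun i => (f i).eval T) F := by
  induction F using MvPolynomial.induction_on with
  | C a => simp
  | add p q hp hq => rw [map_add, Polynomial.eval_add, hp, hq, map_add]
  | mul_X p i hp => rw [map_mul, Polynomial.eval_mul, hp, aeval_X, map_mul, eval_X]

/-- three vectors on a line are dependent. -/
theorem Kos_dep {k : Type} [Field k] (h p y x : Fin 3 → k) (hh : h ≠ 0)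
    (hp : ∑ i, h i * p i = 0) (hy : ∑ i, h i * y i = 0) (hx : ∑ i, h i * x i = 0)
    (hind : ∀ a b : k, a • p + b • y = 0 → a = 0 ∧ b = 0) :
    ∃ s t : k, x = s • p + t • y := by
  have hdet : (Matrix.of ![x, p, y] : Matrix (Fin 3) (Fin 3) k).det = 0 := by
    rw [← Matrix.exists_mulVec_eq_zero_iff]
    refine ⟨h, hh, ?_⟩
    funext i
    fin_cases i
    · simp only [Matrix.mulVec, dotProduct, Fin.zero_eta, Matrix.of_apply, Matrix.cons_val_zero,
        Pi.zero_apply]
      rw [← hx]
      exact Finset.sum_congr rfl (fun i _ => mul_comm _ _)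
    · simp only [Matrix.mulVec, dotProduct, Fin.mk_one, Matrix.of_apply, Matrix.cons_val_one,
        Matrix.cons_val_zero, Pi.zero_apply]
      rw [← hp]
      exact Finset.sum_congr rfl (fun i _ => mul_comm _ _)
    · simp only [Matrix.mulVec, dotProduct, Fin.reduceFinMk, Matrix.of_apply, Matrix.cons_val,
        Pi.zero_apply]
      rw [← hy]
      exact Finset.sum_congr rfl (fun i _ => mul_comm _ _)
  rw [← Matrix.exists_vecMul_eq_zero_iff] at hdet
  obtain ⟨v, hv0, hv⟩ := hdet
  have hrel : ∀ i, v 0 * x i + v 1 * p i + v 2 * y i = 0 := by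
    intro i
    have h1 := congrFun hv i
    simpa [Matrix.vecMul, dotProduct, Fin.sum_univ_three] using h1
  by_cases h0 : v 0 = 0
  · exfalso
    apply hv0
    have h1 := hind (v 1) (v 2) (by
      funext i
      have := hrel i
      rw [h0, zero_mul, zero_add] at this
      simpa using this)
    funext i
    fin_cases i
    · exact h0
    · exact h1.1
    · exact h1.2
  · refine ⟨-(v 1 / v 0), -(v 2 / v 0), ?_⟩
    funext i
    have h1 := hrel i
    simp only [Pi.add_apply, Pi.smul_apply, smul_eq_mul]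
    field_simp
    linear_combination h1

theorem Kos_plane {k I : Type} [Field k] [Infinite k] (w : I → Fin 3 → k) (A : Finset I)
    (hw : ∀ z ∈ A, ∀ z' ∈ A, z ≠ z' → LinearIndependent k ![w z, w z']) {m : ℕ}
    {F : MvPolynomial (Fin 3) k} (hF : F.IsHomogeneous m) (h : Fin 3 → k) (hh : h ≠ 0)
    (hA : ∀ z ∈ A, ∑ i, h i * w z i = 0) (hv : ∀ z ∈ A, eval (w z) F = 0) (hm : m < A.card)
    (y : Fin 3 → k) (hy : ∑ i, h i * y i = 0) : eval y F = 0 := by
  classical
  by_cases hcase : ∃ z ∈ A, ∃ c : k, y = c • w z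
  · obtain ⟨z, hz, c, rfl⟩ := hcase
    rw [Kos_scale hF, hv z hz, mul_zero]
  push Not at hcase
  obtain ⟨z0, hz0⟩ : A.Nonempty := Finset.card_pos.mp (by omega)
  rcases Nat.eq_zero_or_pos m with hm0 | hm0
  · subst hm0
    have h1 := Kos_scale hF 0 y
    have h2 := Kos_scale hF 0 (w z0)
    rw [zero_smul, pow_zero, one_mul] at h1 h2
    rw [← h1, h2, hv z0 hz0]
  have hw0 : ∀ z ∈ A, w z ≠ 0 := by
    intro z hz h0
    obtain ⟨z', hz', hne⟩ := Finset.exists_mem_ne (by omega : 1 < A.card) z
    have h1 := hw z hz z' hz' hne.symm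
    exact h1.ne_zero 0 (by simpa using h0)
  have hind : ∀ a b : k, a • w z0 + b • y = 0 → a = 0 ∧ b = 0 := by
    intro a b hab
    have hb : b = 0 := by
      by_contra hb
      apply hcase z0 hz0 (-(a / b))
      funext i
      have h1 := congrFun hab i
      simp only [Pi.add_apply, Pi.smul_apply, smul_eq_mul, Pi.zero_apply] at h1 ⊢
      field_simp
      linear_combination h1
    subst hb
    rw [zero_smul, add_zero] at hab
    rcases smul_eq_zero.mp hab with h1 | h1
    · exact ⟨h1, rfl⟩
    · exact absurd h1 (hw0 z0 hz0)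
  have hst : ∀ z ∈ A, ∃ s t : k, s ≠ 0 ∧ w z = s • w z0 + t • y := by
    intro z hz
    obtain ⟨s, t, hst⟩ := Kos_dep h (w z0) y (w z) hh (hA z0 hz0) hy (hA z hz) hind
    refine ⟨s, t, ?_, hst⟩
    rintro rfl
    rw [zero_smul, zero_add] at hst
    have ht : t ≠ 0 := by
      rintro rfl
      rw [zero_smul] at hst
      exact hw0 z hz hst
    apply hcase z hz t⁻¹
    rw [hst, smul_smul, inv_mul_cancel₀ ht, one_smul]
  choose! s t hs hst using hst
  obtain ⟨G, hG⟩ : ∃ G : Polynomial k, G = aeval (fun i => Polynomial.C (w z0 i) +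
      Polynomial.C (y i) * Polynomial.X) F := ⟨_, rfl⟩
  have hGe : ∀ T : k, G.eval T = eval (w z0 + T • y) F := by
    intro T
    rw [hG, Kos_aeval]
    congr 2
    funext i
    simp
    ring
  have hG0 : G = 0 := by
    apply Polynomial.eq_zero_of_natDegree_lt_card_of_eval_eq_zero' G
      (A.image (fun z => t z / s z))
    · intro T hT
      rw [Finset.mem_image] at hT
      obtain ⟨z, hz, rfl⟩ := hT
      rw [hGe]
      have h1 : w z0 + (t z / s z) • y = (s z)⁻¹ • w z := by
        rw [hst z hz, smul_add, smul_smul, smul_smul, inv_mul_cancel₀ (hs z hz), one_smul]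
        congr 2
        field_simp
      rw [h1, Kos_scale hF, hv z hz, mul_zero]
    · rw [Finset.card_image_of_injOn]
      · have h1 : G.natDegree ≤ m * 1 := by
          rw [hG]
          apply aeval_natDegree_le F hF.totalDegree_le
          intro i
          refine (Polynomial.natDegree_add_le _ _).trans ?_
          rw [Polynomial.natDegree_C]
          exact max_le (by omega) ((Polynomial.natDegree_C_mul_le _ _).trans
            Polynomial.natDegree_X_le)
        omega
      · intro z hz z' hz' hzz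
        by_contra hne
        have h1 := hw z hz z' hz' hne
        rw [LinearIndependent.pair_iff] at h1
        have h2 := h1 (s z') (-(s z)) (by
          have hz1 : t z = (t z / s z) * s z := by
            rw [div_mul_cancel₀ _ (hs z hz)]
          have hz2 : t z' = (t z / s z) * s z' := by
            have : t z / s z = t z' / s z' := hzz
            rw [this, div_mul_cancel₀ _ (hs z' hz')]
          rw [hst z hz, hst z' hz']
          funext i
          simp only [Pi.add_apply, Pi.smul_apply, smul_eq_mul, Pi.zero_apply]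
          rw [hz2]
          field_simp [hs z hz]
          ring)
        exact hs z' hz' h2.1
  obtain ⟨H, hH⟩ : ∃ H : Polynomial k, H = aeval (fun i => Polynomial.C (y i) +
      Polynomial.C (w z0 i) * Polynomial.X) F := ⟨_, rfl⟩
  have hHe : ∀ T : k, H.eval T = eval (y + T • w z0) F := by
    intro T
    rw [hH, Kos_aeval]
    congr 2
    funext i
    simp
    ring
  have hH0 : H = 0 := by
    apply Polynomial.eq_zero_of_infinite_isRoot
    apply ((Set.finite_singleton (0 : k)).infinite_compl).mono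
    intro T hT
    have hT0 : T ≠ 0 := hT
    change H.eval T = 0
    rw [hHe]
    have h1 : y + T • w z0 = T • (w z0 + T⁻¹ • y) := by
      rw [smul_add, smul_smul, mul_inv_cancel₀ hT0, one_smul, add_comm]
    rw [h1, Kos_scale hF, ← hGe, hG0, Polynomial.eval_zero, mul_zero]
  have hfin := hHe 0
  rw [hH0, Polynomial.eval_zero, zero_smul, add_zero] at hfin
  exact hfin.symm

theorem line_dvd {k I : Type} [Field k] [Infinite k] (w : I → Fin 3 → k) (A : Finset I)
    (hw : ∀ z ∈ A, ∀ z' ∈ A, z ≠ z' → LinearIndependent k ![w z, w z']) {m : ℕ}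
    {F : MvPolynomial (Fin 3) k} (hF : F.IsHomogeneous m) (h : Fin 3 → k) (hh : h ≠ 0)
    (hA : ∀ z ∈ A, ∑ i, h i * w z i = 0) (hv : ∀ z ∈ A, eval (w z) F = 0) (hm : m < A.card) :
    (∑ i, C (h i) * X i : MvPolynomial (Fin 3) k) ∣ F := by
  classical
  change Kos_L h ∣ F
  have hpl := Kos_plane w A hw hF h hh hA hv hm
  obtain ⟨j, hj⟩ : ∃ j, h j ≠ 0 := by
    by_contra hcon
    push Not at hcon
    exact hh (funext hcon)
  obtain ⟨g, hg⟩ : ∃ g : Fin 3 → MvPolynomial (Fin 3) k, g = fun i =>
      X i - C (if i = j then (h j)⁻¹ else 0) * Kos_L h := ⟨_, rfl⟩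
  have hdvd : ∀ P : MvPolynomial (Fin 3) k, Kos_L h ∣ P - aeval g P := by
    intro P
    induction P using MvPolynomial.induction_on with
    | C a => simp
    | add p q hp hq =>
      rw [map_add, add_sub_add_comm]
      exact dvd_add hp hq
    | mul_X p i hp =>
      rw [map_mul, aeval_X]
      have h1 : p * X i - aeval g p * g i = (p - aeval g p) * X i + aeval g p * (X i - g i) := by
        ring
      rw [h1]
      apply dvd_add (Dvd.dvd.mul_right hp _)
      apply Dvd.dvd.mul_left
      rw [hg]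
      simp only [sub_sub_cancel]
      exact Dvd.intro_left _ rfl
  have hzero : aeval g F = 0 := by
    apply MvPolynomial.funext
    intro x
    rw [map_zero]
    have h1 : eval x (aeval g F) = eval (fun i => eval x (g i)) F := by
      have hgen : ∀ P : MvPolynomial (Fin 3) k,
          eval x (aeval g P) = eval (fun i => eval x (g i)) P := by
        intro P
        induction P using MvPolynomial.induction_on with
        | C a => simp
        | add p q hp hq => rw [map_add, map_add, hp, hq, map_add]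
        | mul_X p i hp => rw [map_mul, map_mul, hp, aeval_X, map_mul, eval_X]
      exact hgen F
    rw [h1]
    apply hpl
    have h2 : ∀ i, eval x (g i) = x i - (if i = j then (h j)⁻¹ else 0) * eval x (Kos_L h) := by
      intro i
      rw [hg]
      simp
    simp only [h2, Kos_L_eval, mul_sub, Finset.sum_sub_distrib]
    have h3 : ∑ i, h i * ((if i = j then (h j)⁻¹ else 0) * ∑ l, h l * x l)
        = ∑ l, h l * x l := by
      rw [Finset.sum_eq_single j]
      · rw [if_pos rfl, ← mul_assoc, mul_inv_cancel₀ hj, one_mul]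
      · intro i _ hi
        rw [if_neg hi, zero_mul, mul_zero]
      · intro hi
        exact absurd (Finset.mem_univ j) hi
    rw [h3, sub_self]
  have h4 := hdvd F
  rwa [hzero, sub_zero] at h4

theorem gen_line {k I : Type} [Field k] [Infinite k] [Fintype I] (w : I → Fin 3 → k)
    (hw : ∀ z z', z ≠ z' → LinearIndependent k ![w z, w z']) {c d : ℕ} (hcd : c ≤ d)
    {F G : MvPolynomial (Fin 3) k} (hF : F.IsHomogeneous c) (hG : G.IsHomogeneous d)
    (vF : ∀ z, eval (w z) F = 0) (vG : ∀ z, eval (w z) G = 0)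
    (gen : ∀ t f, MvPolynomial.IsHomogeneous f t → (∀ z, eval (w z) f = 0) → f ∈ Ideal.span {F, G})
    (h : Fin 3 → k) (hh : h ≠ 0) : Nat.card {z : I // ∑ i, h i * w z i = 0} ≤ d := by
  classical
  by_contra hcon
  push Not at hcon
  obtain ⟨A, hA⟩ : ∃ A : Finset I, A = Finset.univ.filter (fun z => ∑ i, h i * w z i = 0) :=
    ⟨_, rfl⟩
  have hcard : Nat.card {z : I // ∑ i, h i * w z i = 0} = A.card := by
    rw [Nat.card_eq_fintype_card, Fintype.card_subtype, hA]
  rw [hcard] at hcon
  have hAm : ∀ z ∈ A, ∑ i, h i * w z i = 0 := by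
    intro z hz
    rw [hA, Finset.mem_filter] at hz
    exact hz.2
  have h1 := line_dvd w A (fun z _ z' _ hne => hw z z' hne) hF h hh hAm (fun z _ => vF z)
    (by omega)
  have h2 := line_dvd w A (fun z _ z' _ hne => hw z z' hne) hG h hh hAm (fun z _ => vG z) hcon
  have h3 := relPrime_of_gen w hF hG gen h1 h2
  have h4 := h3.map (eval (0 : Fin 3 → k))
  rw [show (∑ i, C (h i) * X i : MvPolynomial (Fin 3) k) = Kos_L h from rfl, Kos_L_eval] at h4
  simp at h4

end GP80

end S_H80_GP_Kos

section S_H80_GP_Kgn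

/-!
# Row Kgn (MP_87ed0a_GP): generation over localizations, over the fraction field; collinear points  (about 170 lines)

`O` a localization of `RR` at `M ≤ nonZeroDivisors`, `P_i` a unit of `O`, `z_i ≠ 0` for all points.
* `vz_eval_zero`: `chartH O i H` vanishes at `vz O i (z s)` if `EE H = 0`, `H` `x`-homogeneous, `atz (z s) H = 0` (`chart_eval`; `O` a domain or: `C (z_i^t)` maps to a unit).
* `lift_form`: a form `f` of degree `t` over `O` vanishing at the points: there are `u ∈ M` and an `E`-invariant `H ∈ BB`, `x`-homogeneous of degree `t`, `atz (z s) H = 0` for all `s`,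
  with `chartH O i H = C (algebraMap (u X_i^t)) * f`.  Proof: `clear_den` gives `u`, `f0`; `H := hlift i f0`; `atz_hlift`: `atz z H = f0(P_i z' - z_i P')`, whose image in `O` is
  `f0(P_i z_i v) = (P_i z_i)^t f0(v) = 0` (`vz_scale`), and `algebraMap` is injective; `chart_hlift`.
* `gen_O`: with `Glob`, for such `f`: there is `r ∈ RR`, `r ≠ 0`, with `C (algebraMap r) * f ∈ span {chartH O i F, chartH O i G}`: apply `gen` to `H` and then the ring hom `chartH O i`
  (`chart_inP`; the image of `span {F, G}` is in `span` of the images): `r := r' u X_i^t`.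
* `gen_K`: `O = K = FractionRing RR`: every form vanishing at the points is in the ideal, so (`relPrime_of_gen`) the two forms are coprime in `K[X]`.
* `indep_K`: the vectors `vz K i (z s)` are pairwise independent, given `Geom`: a relation `a v + a' v' = 0`, `(a,a') ≠ 0`, multiply by `P_i`, get `P ∈ span_K (z, z')` with `z = z s`, `z' = z s'` in `K^4`,
  so all `3 × 3` minors of `(z, z', P)` vanish; a linear form in `P`: `det` of the `3 × 3` minors is `∑ ± (2 × 2 minor of z, z') P_l`, some `2 × 2` minor is nonzero: contradiction with the independence of the `P_l`.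
* `col_bound`: `ColB z d`.  The points `z t` in the span of `z s, z s'` satisfy `h(v_t) = 0`, `h := v_s × v_s'` (cross product over `K`; `v_t` is in the span of `v_s, v_s'` because the map `z ↦ z_i v_z` is linear in `z`);
  `h ≠ 0` by independence; `gen_line`.
-/

namespace GP80

open MvPolynomial

private theorem Kgn_scale {O : Type} [CommRing O] (c : O) (v : Fin 3 → O) {t : ℕ}
    (f : MvPolynomial (Fin 3) O) (hf : f.IsHomogeneous t) :
    eval (fun j => c * v j) f = c ^ t * eval v f := by
  rw [eval_eq, eval_eq, Finset.mul_sum]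
  refine Finset.sum_congr rfl fun d hd => ?_
  have h1 : d.degree = t := by
    have := hf (mem_support_iff.1 hd)
    rw [Finsupp.degree_eq_weight_one]
    exact this
  have h2 : ∏ i ∈ d.support, (c * v i) ^ d i = c ^ t * ∏ i ∈ d.support, v i ^ d i := by
    simp only [mul_pow]
    rw [Finset.prod_mul_distrib, Finset.prod_pow_eq_pow_sum]
    congr 2
  rw [h2]
  ring

private theorem Kgn_third : ∀ i m : Fin 4, ∃ n : Fin 4, n ≠ i ∧ n ≠ m := by decide

private theorem Kgn_minor {i : Fin 4} {z z' : Fin 4 → ℂ} (h : LinearIndependent ℂ ![z, z'])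
    (hz : z i ≠ 0) : ∃ m, z i * z' m - z m * z' i ≠ 0 := by
  by_contra hcon
  push Not at hcon
  rw [LinearIndependent.pair_iff] at h
  have := h (- z' i) (z i) (by
    funext m
    simp only [Pi.add_apply, Pi.smul_apply, smul_eq_mul, Pi.zero_apply]
    linear_combination hcon m)
  exact hz this.2

theorem vz_eval_zero (O : Type) [CommRing O] [Algebra RR O] (i : Fin 4)
    (hu : IsUnit (algebraMap RR O (X i))) {H : BB} {t : ℕ} (h : IsWeightedHomogeneous wx H t)
    (hE : EE H = 0) {z : Fin 4 → ℂ} (hz : z i ≠ 0) (h0 : atz z H = 0) :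
    eval (vz O i z) (chartH O i H) = 0 := by
  have hc := chart_eval O i hu h hE hz
  rw [h0, map_zero] at hc
  have hun : IsUnit (algebraMap RR O (C (z i ^ t))) := by
    have : IsUnit (C (z i ^ t) : RR) := (isUnit_iff_ne_zero.2 (pow_ne_zero t hz)).map (C : ℂ →+* RR)
    exact this.map (algebraMap RR O)
  have := hc.symm
  exact (hun.mul_right_eq_zero).1 this

theorem lift_form {O I : Type} [CommRing O] [IsDomain O] [Algebra RR O] (M : Submonoid RR)
    [IsLocalization M O] (hM : M ≤ nonZeroDivisors RR) (i : Fin 4) (hu : IsUnit (algebraMap RR O (X i)))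
    (z : I → Fin 4 → ℂ) (hz : ∀ s, z s i ≠ 0) {t : ℕ} {f : MvPolynomial (Fin 3) O}
    (hf : f.IsHomogeneous t) (h0 : ∀ s, eval (vz O i (z s)) f = 0) :
    ∃ u ∈ M, ∃ H : BB, IsWeightedHomogeneous wx H t ∧ EE H = 0 ∧ (∀ s, atz (z s) H = 0) ∧
      chartH O i H = C (algebraMap RR O (u * X i ^ t)) * f := by
  obtain ⟨u, huM, f0, hf0, hhom⟩ := clear_den M hM f
  refine ⟨u, huM, hlift i f0, hlift_wx i (hhom t hf), hlift_EE i f0, ?_, ?_⟩
  · intro s
    apply IsLocalization.injective O hM
    rw [map_zero, atz_hlift, eval₂_comp, ← eval_map, ← hf0]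
    have e1 : (algebraMap RR O ∘ fun j => X i * C (z s (i.succAbove j)) - C (z s i) * X (i.succAbove j)) =
        fun j => algebraMap RR O (X i * C (z s i)) * vz O i (z s) j := by
      funext j
      exact vz_scale O i hu (hz s) j
    rw [e1, hf0, Kgn_scale _ _ _ ((hhom t hf).map _), ← hf0, (eval _).map_mul, h0 s, mul_zero, mul_zero]
  · rw [chart_hlift O i (hhom t hf), ← hf0, map_mul, C_mul]
    ring

theorem gen_O {O I : Type} [CommRing O] [IsDomain O] [Algebra RR O] (M : Submonoid RR)
    [IsLocalization M O] (hM : M ≤ nonZeroDivisors RR) (i : Fin 4) (hu : IsUnit (algebraMap RR O (X i)))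
    [Fintype I] (z : I → Fin 4 → ℂ) (hz : ∀ s, z s i ≠ 0) {c d f f' : ℕ} {F G : BB}
    (h : Glob z c d f f' F G) {t : ℕ} {g : MvPolynomial (Fin 3) O}
    (hg : g.IsHomogeneous t) (h0 : ∀ s, eval (vz O i (z s)) g = 0) :
    ∃ r : RR, r ≠ 0 ∧ C (algebraMap RR O r) * g ∈ Ideal.span {chartH O i F, chartH O i G} := by
  obtain ⟨u, huM, H, hHx, hHE, hHz, hHc⟩ := lift_form M hM i hu z hz hg h0
  obtain ⟨r', hr', hmem⟩ := h.gen t H hHx hHE hHz
  refine ⟨r' * (u * X i ^ t), ?_, ?_⟩
  · have hu0 : u ≠ 0 := nonZeroDivisors.ne_zero (hM huM)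
    exact mul_ne_zero hr' (mul_ne_zero hu0 (pow_ne_zero t (X_ne_zero i)))
  · have h1 := Ideal.mem_map_of_mem (chartH O i) hmem
    rw [Ideal.map_span, Set.image_pair, map_mul, chart_inP, hHc, ← mul_assoc, ← C_mul, ← map_mul] at h1
    exact h1

theorem gen_K {I : Type} [Fintype I] (i : Fin 4) (z : I → Fin 4 → ℂ) (hz : ∀ s, z s i ≠ 0)
    {c d f f' : ℕ} {F G : BB} (h : Glob z c d f f' F G) {t : ℕ}
    {g : MvPolynomial (Fin 3) (FractionRing RR)} (hg : g.IsHomogeneous t)
    (h0 : ∀ s, eval (vz (FractionRing RR) i (z s)) g = 0) :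
    g ∈ Ideal.span {chartH (FractionRing RR) i F, chartH (FractionRing RR) i G} := by
  have hu : IsUnit (algebraMap RR (FractionRing RR) (X i)) := by
    rw [isUnit_iff_ne_zero]
    exact (map_ne_zero_iff _ (IsFractionRing.injective RR (FractionRing RR))).2 (X_ne_zero i)
  obtain ⟨r, hr, hmem⟩ := gen_O (O := FractionRing RR) (nonZeroDivisors RR) le_rfl i hu z hz h hg h0
  have hr2 : IsUnit (C (algebraMap RR (FractionRing RR) r) : MvPolynomial (Fin 3) (FractionRing RR)) := by
    have : IsUnit (algebraMap RR (FractionRing RR) r) := by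
      rw [isUnit_iff_ne_zero]
      exact (map_ne_zero_iff _ (IsFractionRing.injective RR (FractionRing RR))).2 hr
    exact this.map (C : FractionRing RR →+* MvPolynomial (Fin 3) (FractionRing RR))
  exact (Ideal.unit_mul_mem_iff_mem _ hr2).1 hmem

theorem cop_K {I : Type} [Fintype I] (i : Fin 4) (z : I → Fin 4 → ℂ) (hz : ∀ s, z s i ≠ 0)
    {c d f f' : ℕ} {F G : BB} (h : Glob z c d f f' F G) :
    IsRelPrime (chartH (FractionRing RR) i F) (chartH (FractionRing RR) i G) := by
  exact relPrime_of_gen (fun s => vz (FractionRing RR) i (z s)) (chart_homog _ i h.Fx)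
    (chart_homog _ i h.Gx) (fun t f hf h0 => gen_K i z hz h hf h0)

theorem indep_K (i : Fin 4) {z z' : Fin 4 → ℂ} (hz : z i ≠ 0) (hz' : z' i ≠ 0)
    (h : LinearIndependent ℂ ![z, z']) :
    LinearIndependent (FractionRing RR) ![vz (FractionRing RR) i z, vz (FractionRing RR) i z'] := by
  rw [LinearIndependent.pair_iff]
  intro a b hab
  have inj := IsFractionRing.injective RR (FractionRing RR)
  have hX : ∀ l : Fin 4, algebraMap RR (FractionRing RR) (X l) ≠ 0 := fun l =>
    (map_ne_zero_iff _ inj).2 (X_ne_zero l)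
  set φ : ℂ →+* FractionRing RR := (algebraMap RR (FractionRing RR)).comp (C : ℂ →+* RR) with hφ
  have hφi : Function.Injective φ := φ.injective
  -- full coordinates
  have key : ∀ l : Fin 4, a * (φ (z l) / φ (z i)) + b * (φ (z' l) / φ (z' i)) =
      (a + b) * (algebraMap RR (FractionRing RR) (X l) / algebraMap RR (FractionRing RR) (X i)) := by
    intro l
    by_cases hl : l = i
    · subst hl
      rw [div_self ((map_ne_zero_iff _ hφi).2 hz), div_self ((map_ne_zero_iff _ hφi).2 hz'),
        div_self (hX l)]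
      ring
    · obtain ⟨j, rfl⟩ := Fin.exists_succAbove_eq hl
      have h1 := congrFun hab j
      simp only [Pi.add_apply, Pi.smul_apply, smul_eq_mul, Pi.zero_apply, vz] at h1
      rw [Ring.inverse_eq_inv'] at h1
      have e1 : algebraMap RR (FractionRing RR) (C (z (i.succAbove j) / z i)) =
          φ (z (i.succAbove j)) / φ (z i) := by
        rw [← map_div₀]; rfl
      have e2 : algebraMap RR (FractionRing RR) (C (z' (i.succAbove j) / z' i)) =
          φ (z' (i.succAbove j)) / φ (z' i) := by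
        rw [← map_div₀]; rfl
      rw [e1, e2] at h1
      rw [div_eq_mul_inv (algebraMap RR (FractionRing RR) (X (i.succAbove j)))]
      linear_combination h1
  obtain ⟨m, hm⟩ := Kgn_minor h hz
  set D : ℂ := z i * z' m - z m * z' i with hD
  have hmi : m ≠ i := by
    rintro rfl
    apply hm
    rw [hD]; ring
  have hφD : φ D ≠ 0 := (map_ne_zero_iff _ hφi).2 hm
  have hφz : φ (z i) ≠ 0 := (map_ne_zero_iff _ hφi).2 hz
  have hφz' : φ (z' i) ≠ 0 := (map_ne_zero_iff _ hφi).2 hz'
  have hφDe : φ D = φ (z i) * φ (z' m) - φ (z m) * φ (z' i) := by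
    rw [hD, map_sub, map_mul, map_mul]
  by_cases hγ : a + b = 0
  · have hb : b = - a := by linear_combination hγ
    have h1 := key m
    rw [hγ, zero_mul, hb] at h1
    field_simp at h1
    have h2 : a * φ D = 0 := by
      rw [hφDe]
      linear_combination (-1 : FractionRing RR) * h1
    have ha : a = 0 := by
      rcases mul_eq_zero.1 h2 with h3 | h3
      · exact h3
      · exact absurd h3 hφD
    exact ⟨ha, by rw [hb, ha, neg_zero]⟩
  · exfalso
    obtain ⟨n, hni, hnm⟩ : ∃ n : Fin 4, n ≠ i ∧ n ≠ m := Kgn_third i m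
    have k0 := key i
    have k1 := key m
    have k2 := key n
    set x : Fin 4 → FractionRing RR := fun l => algebraMap RR (FractionRing RR) (X l) with hx
    have hxi : x i ≠ 0 := hX i
    have kk : ∀ l, a / φ (z i) * φ (z l) + b / φ (z' i) * φ (z' l) = (a + b) / x i * x l := by
      intro l
      have := key l
      have e : (a + b) / x i * x l = (a + b) * (algebraMap RR (FractionRing RR) (X l) /
        algebraMap RR (FractionRing RR) (X i)) := by
        simp only [hx]
        ring
      rw [e, ← this]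
      ring
    have hdet : (a + b) / x i * (x i * (φ (z m) * φ (z' n) - φ (z n) * φ (z' m)) -
        x m * (φ (z i) * φ (z' n) - φ (z n) * φ (z' i)) +
        x n * (φ (z i) * φ (z' m) - φ (z m) * φ (z' i))) = 0 := by
      have a1 := kk i
      have a2 := kk m
      have a3 := kk n
      linear_combination (-(φ (z m) * φ (z' n) - φ (z n) * φ (z' m))) * a1 +
        (φ (z i) * φ (z' n) - φ (z n) * φ (z' i)) * a2 -
        (φ (z i) * φ (z' m) - φ (z m) * φ (z' i)) * a3
    have hdet2 : x i * (φ (z m) * φ (z' n) - φ (z n) * φ (z' m)) -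
        x m * (φ (z i) * φ (z' n) - φ (z n) * φ (z' i)) +
        x n * (φ (z i) * φ (z' m) - φ (z m) * φ (z' i)) = 0 := by
      rcases mul_eq_zero.1 hdet with h3 | h3
      · exact absurd h3 (div_ne_zero hγ hxi)
      · exact h3
    have hpoly : (X i * C (z m * z' n - z n * z' m) - X m * C (z i * z' n - z n * z' i) +
        X n * C D : RR) = 0 := by
      apply inj
      rw [map_zero, ← hdet2]
      simp only [hx, hφ, hD, map_add, map_sub, map_mul, RingHom.comp_apply]
    have hev := congrArg (eval (Pi.single n (1 : ℂ))) hpoly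
    simp only [map_add, map_sub, map_mul, eval_X, eval_C, map_zero] at hev
    rw [Pi.single_eq_of_ne hni.symm, Pi.single_eq_of_ne hnm.symm, Pi.single_eq_same] at hev
    apply hm
    linear_combination hev

theorem col_bound {I : Type} [Fintype I] (z : I → Fin 4 → ℂ) (hz : Geom z)
    {c d f f' : ℕ} {F G : BB} (h : Glob z c d f f' F G) : ColB z d := by
  intro s s' hss
  set w : I → Fin 3 → FractionRing RR := fun t => vz (FractionRing RR) 0 (z t) with hw
  have hco : ∀ s, z s 0 ≠ 0 := fun s => hz.co s 0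
  have hind : ∀ t t', t ≠ t' → LinearIndependent (FractionRing RR) ![w t, w t'] := fun t t' htt =>
    indep_K 0 (hco t) (hco t') (hz.ind t t' htt)
  have hinf : Infinite (FractionRing RR) :=
    Infinite.of_injective _ (IsFractionRing.injective RR (FractionRing RR))
  have hu : IsUnit (algebraMap RR (FractionRing RR) (X 0)) := by
    rw [isUnit_iff_ne_zero]
    exact (map_ne_zero_iff _ (IsFractionRing.injective RR (FractionRing RR))).2 (X_ne_zero 0)
  have hne : crossProduct (w s) (w s') ≠ 0 :=
    crossProduct_ne_zero_iff_linearIndependent.2 (hind s s' hss)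
  have hle := gen_line w hind h.cd (chart_homog (FractionRing RR) 0 h.Fx)
    (chart_homog (FractionRing RR) 0 h.Gx)
    (fun t => vz_eval_zero _ 0 hu h.Fx h.FE (hco t) (h.Fz t))
    (fun t => vz_eval_zero _ 0 hu h.Gx h.GE (hco t) (h.Gz t))
    (fun t f hf h0 => gen_K 0 z hco h hf h0) (crossProduct (w s) (w s')) hne
  refine le_trans ?_ hle
  have hsub : ∀ t : I, z t ∈ Submodule.span ℂ {z s, z s'} →
      ∑ j, (crossProduct (w s) (w s')) j * w t j = 0 := by
    intro t ht
    obtain ⟨a, b, hab⟩ := Submodule.mem_span_pair.1 ht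
    have hs : ∀ (r : I) (j : Fin 3), algebraMap RR (FractionRing RR) (X 0 * C (z r (Fin.succAbove 0 j)) -
        C (z r 0) * X (Fin.succAbove 0 j)) = algebraMap RR (FractionRing RR) (X 0 * C (z r 0)) * w r j :=
      fun r j => vz_scale _ 0 hu (hco r) j
    set c : I → FractionRing RR := fun r => algebraMap RR (FractionRing RR) (X 0 * C (z r 0)) with hc
    have hc0 : ∀ r, c r ≠ 0 := by
      intro r
      refine (map_ne_zero_iff _ (IsFractionRing.injective RR (FractionRing RR))).2 ?_
      exact mul_ne_zero (X_ne_zero 0) ((map_ne_zero_iff _ (C_injective _ _)).2 (hco r))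
    have hlin : ∀ j, c t * w t j = algebraMap RR (FractionRing RR) (C a) * (c s * w s j) +
        algebraMap RR (FractionRing RR) (C b) * (c s' * w s' j) := by
      intro j
      rw [hc]
      simp only []
      rw [← hs t j, ← hs s j, ← hs s' j, ← map_mul, ← map_mul, ← map_add, ← hab]
      congr 1
      simp only [Pi.add_apply, Pi.smul_apply, smul_eq_mul, map_add, map_mul]
      ring
    have h1 : c t * ∑ j, (crossProduct (w s) (w s')) j * w t j = 0 := by
      have d1 := dot_cross_self (w s) (w s')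
      have d2 := dot_self_cross (w s) (w s')
      simp only [dotProduct] at d1 d2
      rw [Finset.mul_sum]
      calc ∑ j, c t * ((crossProduct (w s) (w s')) j * w t j)
          = algebraMap RR (FractionRing RR) (C a) * c s * ∑ j, w s j * (crossProduct (w s) (w s')) j +
            algebraMap RR (FractionRing RR) (C b) * c s' * ∑ j, w s' j * (crossProduct (w s) (w s')) j := by
            rw [Finset.mul_sum, Finset.mul_sum, ← Finset.sum_add_distrib]
            refine Finset.sum_congr rfl fun j _ => ?_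
            linear_combination (crossProduct (w s) (w s')) j * hlin j
        _ = 0 := by rw [d1, d2]; ring
    rcases mul_eq_zero.1 h1 with h2 | h2
    · exact absurd h2 (hc0 t)
    · exact h2
  exact Nat.card_le_card_of_injective
    (fun t : {t : I // z t ∈ Submodule.span ℂ {z s, z s'}} =>
      (⟨t.1, hsub t.1 t.2⟩ : {t : I // ∑ j, (crossProduct (w s) (w s')) j * w t j = 0}))
    (fun t t' htt => Subtype.ext (congrArg (fun x => x.1) htt))

end GP80

end S_H80_GP_Kgn

section S_H80_GP_Jac

/-!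
# Row Jac (MP_87ed0a_GP): the global Jacobian  (about 180 lines)

`a_l := atz z (∂_(x_l) F)`, `b_l := atz z (∂_(x_l) G)`, `l : Fin 4`, elements of `RR`.  Relations: `∑ P_l a_l = 0`, `∑ z_l a_l = c atz z F = 0` (`atz_EE`, `atz_euler`), same for `b`.
* `jac_exists`: there is `J` with `IsJac 0 F G z J`.  In chart `i` put `q_j = P_i z_(s j) - z_i P_(s j)`.  From the relations `∑_j q_j a_(s j) = P_i (∑_j z_(s j) a_(s j)) - z_i (∑_j P_(s j) a_(s j)) =
  P_i (- z_i a_i) - z_i (- P_i a_i) = 0`, same for `b`.  So `q` is orthogonal to `a' = (a_(s j))` and `b'`, hence `q × (a' × b') = 0` (`a (q·b) - b (q·a)`, triple product), i.e.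
  `q_j (a' × b')_l = q_l (a' × b')_j`.  `q_0, q_1` are non associated primes of `RR` (linear forms `P_i z_(s j) - z_i P_(s j)`, `z_i ≠ 0`; a nonzero linear form is prime: it generates the kernel of a surjection onto a
  polynomial ring, or use irreducibility by degree + UFD), so `q_0 ∣ (a' × b')_0`; put `J` = quotient; then `(a' × b')_j = J q_j` for all `j` (cancel `q_0 ≠ 0`).
* `jac_one`: `IsJac 0 F G z J` implies `IsJac 1 F G z (-J)` (`i = 1`, `s = (0, 2, 3)`): by `jac_exists` (for `i = 1`) there is `J1`; compare the component `a_2 b_3 - a_3 b_2`: it is the first component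
  (`j = 0`) in both charts: `J (P_0 z_1 - z_0 P_1) = J1 (P_1 z_0 - z_1 P_0)`, so `J1 = - J`.
* `jac_homog`: `J` is homogeneous of degree `f + f' - 1` (`a_l`, `b_l` homogeneous of degrees `f`, `f'` by `pderiv_wP`, `atz_wP`; `J q_0` homogeneous of degree `f + f'`, `q_0` of degree 1, nonzero;
  use `homog_of_mul_left` of Kp2; if `J = 0` trivial).
* `j3_of_jac`: over an `RR`-algebra `O` in which `P_i` is a unit.  `grad (chartH O i F) v_j = eval v (chartH O i (∂_(x_(s j)) F))` (`chart_pderiv`) and by `chart_eval` (for `∂_(x_(s j)) F`, `E`-invariant by `EE_pderiv`,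
  `x`-homogeneous of degree `c - 1`) `algebraMap a_(s j) = z_i^(c-1) grad_j`.  So `z_i^(c+d-2) (grad F × grad G) = algebraMap (J q) = algebraMap (J P_i z_i) v` (`vz_scale`), i.e.
  `grad F × grad G = (J P_i z_i^3 / z_i^(c+d)) v`.
-/

namespace GP80

open MvPolynomial

/-- the linear form `P_i z_j - z_i P_j`. -/
noncomputable def Jac_q (z : Fin 4 → ℂ) (i j : Fin 4) : RR := X i * C (z j) - C (z i) * X j

theorem Jac_q_hom (z : Fin 4 → ℂ) (i j : Fin 4) : (Jac_q z i j).IsHomogeneous 1 := by
  unfold Jac_q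
  have h1 : (X i * C (z j) : RR).IsHomogeneous (1 + 0) :=
    (isHomogeneous_X ℂ i).mul (isHomogeneous_C _ _)
  have h2 : (C (z i) * X j : RR).IsHomogeneous (0 + 1) :=
    (isHomogeneous_C _ _).mul (isHomogeneous_X ℂ j)
  exact h1.sub h2

theorem Jac_q_eval (z p : Fin 4 → ℂ) (i j : Fin 4) :
    eval p (Jac_q z i j) = p i * z j - z i * p j := by
  unfold Jac_q
  simp

theorem Jac_q_ne {z : Fin 4 → ℂ} {i j : Fin 4} (hz : z i ≠ 0) (hij : j ≠ i) : Jac_q z i j ≠ 0 := by
  intro h
  have h1 := congrArg (eval (Pi.single j 1 : Fin 4 → ℂ)) h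
  rw [Jac_q_eval, map_zero, Pi.single_eq_same, Pi.single_eq_of_ne hij.symm] at h1
  apply hz
  linear_combination -h1

theorem Jac_q_prime {z : Fin 4 → ℂ} {i j : Fin 4} (hz : z i ≠ 0) (hij : j ≠ i) :
    Prime (Jac_q z i j) := by
  have hne := Jac_q_ne hz hij
  have h1 : Irreducible (Jac_q z i j) := by
    refine irreducible_of_totalDegree_eq_one ((Jac_q_hom z i j).totalDegree hne) ?_
    intro x hx
    rw [isUnit_iff_ne_zero]
    intro h0
    apply hne
    ext m
    rw [coeff_zero]
    have := hx m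
    rw [h0] at this
    exact zero_dvd_iff.1 this
  exact h1.prime

theorem Jac_q_ndvd {z : Fin 4 → ℂ} {i j k : Fin 4} (hz : z i ≠ 0) (hij : j ≠ i) (hik : k ≠ i)
    (hjk : j ≠ k) : ¬ Jac_q z i j ∣ Jac_q z i k := by
  rintro ⟨w, hw⟩
  have h1 := congrArg (eval (z + Pi.single k 1 : Fin 4 → ℂ)) hw
  rw [map_mul, Jac_q_eval, Jac_q_eval] at h1
  simp only [Pi.add_apply, Pi.single_eq_same, Pi.single_eq_of_ne hik.symm,
    Pi.single_eq_of_ne hjk] at h1
  apply hz
  linear_combination -h1

theorem Jac_cross {O : Type} [CommRing O] {a b q : Fin 3 → O}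
    (ha' : q 0 * a 0 + q 1 * a 1 + q 2 * a 2 = 0) (hb' : q 0 * b 0 + q 1 * b 1 + q 2 * b 2 = 0) :
    ∀ i j : Fin 3, crossProduct a b i * q j = crossProduct a b j * q i := by
  have x0 : crossProduct a b 0 = a 1 * b 2 - a 2 * b 1 := by rw [cross_apply]; rfl
  have x1 : crossProduct a b 1 = a 2 * b 0 - a 0 * b 2 := by rw [cross_apply]; rfl
  have x2 : crossProduct a b 2 = a 0 * b 1 - a 1 * b 0 := by rw [cross_apply]; rfl
  have h01 : crossProduct a b 0 * q 1 = crossProduct a b 1 * q 0 := by
    rw [x0, x1]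
    linear_combination (b 2) * ha' - (a 2) * hb'
  have h12 : crossProduct a b 1 * q 2 = crossProduct a b 2 * q 1 := by
    rw [x1, x2]
    linear_combination (b 0) * ha' - (a 0) * hb'
  have h20 : crossProduct a b 2 * q 0 = crossProduct a b 0 * q 2 := by
    rw [x0, x2]
    linear_combination (b 1) * ha' - (a 1) * hb'
  intro i j
  fin_cases i <;> fin_cases j
  · rfl
  · exact h01
  · exact h20.symm
  · exact h01.symm
  · rfl
  · exact h12
  · exact h20
  · exact h12.symm
  · rfl

theorem Jac_orth (i : Fin 4) {F : BB} {c : ℕ} (hF : IsWeightedHomogeneous wx F c) (eF : EE F = 0)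
    {z : Fin 4 → ℂ} (vF : atz z F = 0) :
    ∑ j : Fin 3, Jac_q z i (i.succAbove j) * atz z (pderiv (Sum.inr (i.succAbove j)) F) = 0 := by
  have h1 := atz_euler hF z
  have h2 := atz_EE eF z
  rw [vF, mul_zero, Fin.sum_univ_succAbove _ i] at h1
  rw [Fin.sum_univ_succAbove _ i] at h2
  have h3 : ∑ j : Fin 3, Jac_q z i (i.succAbove j) * atz z (pderiv (Sum.inr (i.succAbove j)) F) =
      X i * ∑ j : Fin 3, C (z (i.succAbove j)) * atz z (pderiv (Sum.inr (i.succAbove j)) F) -
      C (z i) * ∑ j : Fin 3, X (i.succAbove j) * atz z (pderiv (Sum.inr (i.succAbove j)) F) := by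
    rw [Finset.mul_sum, Finset.mul_sum, ← Finset.sum_sub_distrib]
    refine Finset.sum_congr rfl fun j _ => ?_
    unfold Jac_q
    ring
  rw [h3]
  linear_combination (X i : RR) * h1 - (C (z i) : RR) * h2

theorem jac_exists (i : Fin 4) {F G : BB} {c d : ℕ} (hF : IsWeightedHomogeneous wx F c)
    (hG : IsWeightedHomogeneous wx G d) (eF : EE F = 0) (eG : EE G = 0) {z : Fin 4 → ℂ}
    (hz : ∀ l, z l ≠ 0) (vF : atz z F = 0) (vG : atz z G = 0) : ∃ J, IsJac i F G z J := by
  obtain ⟨q, hq⟩ : ∃ q : Fin 3 → RR, q = fun j => Jac_q z i (i.succAbove j) := ⟨_, rfl⟩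
  obtain ⟨a, ha⟩ : ∃ a : Fin 3 → RR, a = fun j => atz z (pderiv (Sum.inr (i.succAbove j)) F) :=
    ⟨_, rfl⟩
  obtain ⟨b, hb⟩ : ∃ b : Fin 3 → RR, b = fun j => atz z (pderiv (Sum.inr (i.succAbove j)) G) :=
    ⟨_, rfl⟩
  have h1 := Jac_orth i hF eF vF
  have h2 := Jac_orth i hG eG vG
  rw [Fin.sum_univ_three] at h1 h2
  have ha' : q 0 * a 0 + q 1 * a 1 + q 2 * a 2 = 0 := by rw [hq, ha]; exact h1
  have hb' : q 0 * b 0 + q 1 * b 1 + q 2 * b 2 = 0 := by rw [hq, hb]; exact h2
  have key := Jac_cross ha' hb'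
  have hne : ∀ j : Fin 3, i.succAbove j ≠ i := fun j => Fin.succAbove_ne i j
  have hpr : Prime (q 0) := by rw [hq]; exact Jac_q_prime (hz i) (hne 0)
  have hnd : ¬ q 0 ∣ q 1 := by
    rw [hq]
    refine Jac_q_ndvd (hz i) (hne 0) (hne 1) ?_
    intro h
    exact absurd (Fin.succAbove_right_injective h) (by decide)
  have hdv : q 0 ∣ crossProduct a b 0 := by
    have h3 : q 0 ∣ crossProduct a b 0 * q 1 := ⟨crossProduct a b 1, by rw [key 0 1, mul_comm]⟩
    exact (hpr.dvd_or_dvd h3).resolve_right hnd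
  obtain ⟨J, hJ⟩ := hdv
  refine ⟨J, ?_⟩
  unfold IsJac
  rw [← ha, ← hb]
  funext j
  have h4 : crossProduct a b j = J * q j := by
    refine mul_left_cancel₀ hpr.ne_zero ?_
    have := key j 0
    rw [hJ] at this
    linear_combination this
  rw [h4, hq]
  rfl

theorem Jac_apply {i : Fin 4} {F G : BB} {z : Fin 4 → ℂ} {J : RR} (hJ : IsJac i F G z J) :
    atz z (pderiv (Sum.inr (i.succAbove 1)) F) * atz z (pderiv (Sum.inr (i.succAbove 2)) G) -
      atz z (pderiv (Sum.inr (i.succAbove 2)) F) * atz z (pderiv (Sum.inr (i.succAbove 1)) G) =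
      J * Jac_q z i (i.succAbove 0) := by
  have h := congrFun hJ 0
  rw [cross_apply] at h
  exact h

theorem jac_one {F G : BB} {c d : ℕ} (hF : IsWeightedHomogeneous wx F c)
    (hG : IsWeightedHomogeneous wx G d) (eF : EE F = 0) (eG : EE G = 0) {z : Fin 4 → ℂ}
    (hz : ∀ l, z l ≠ 0) (vF : atz z F = 0) (vG : atz z G = 0) {J : RR} (hJ : IsJac 0 F G z J) :
    IsJac 1 F G z (-J) := by
  obtain ⟨J1, h1⟩ := jac_exists 1 hF hG eF eG hz vF vG
  have e0 := Jac_apply hJ
  have e1 := Jac_apply h1
  have s01 : (0 : Fin 4).succAbove 1 = 2 := by decide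
  have s02 : (0 : Fin 4).succAbove 2 = 3 := by decide
  have s00 : (0 : Fin 4).succAbove 0 = 1 := by decide
  have s11 : (1 : Fin 4).succAbove 1 = 2 := by decide
  have s12 : (1 : Fin 4).succAbove 2 = 3 := by decide
  have s10 : (1 : Fin 4).succAbove 0 = 0 := by decide
  rw [s01, s02, s00] at e0
  rw [s11, s12, s10] at e1
  have hq : Jac_q z 1 0 = - Jac_q z 0 1 := by
    unfold Jac_q
    ring
  rw [e0, hq] at e1
  have hne : Jac_q z 0 1 ≠ 0 := Jac_q_ne (hz 0) (by decide)
  have h3 : -J = J1 := by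
    refine mul_right_cancel₀ hne ?_
    linear_combination -e1
  rw [h3]
  exact h1

theorem jac_homog {F G : BB} {f f' : ℕ} (hF : IsWeightedHomogeneous wP F f)
    (hG : IsWeightedHomogeneous wP G f') {z : Fin 4 → ℂ} (hz : ∀ l, z l ≠ 0) {J : RR}
    (hJ : IsJac 0 F G z J) : J.IsHomogeneous (f + f' - 1) := by
  have e0 := Jac_apply hJ
  have hne : Jac_q z 0 ((0 : Fin 4).succAbove 0) ≠ 0 := Jac_q_ne (hz 0) (by decide)
  by_cases h0 : J = 0
  · rw [h0]
    exact isHomogeneous_zero _ _ _
  have h1 : (Jac_q z 0 ((0 : Fin 4).succAbove 0) * J).IsHomogeneous (f + f') := by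
    rw [mul_comm, ← e0]
    refine IsHomogeneous.sub ?_ ?_
    · exact (atz_wP (pderiv_wP hF _) z).mul (atz_wP (pderiv_wP hG _) z)
    · exact (atz_wP (pderiv_wP hF _) z).mul (atz_wP (pderiv_wP hG _) z)
  exact (homog_of_mul_left h1 (Jac_q_hom z 0 _) (mul_ne_zero hne h0)).2

theorem Jac_pc (O : Type) [CommRing O] [Algebra RR O] (i : Fin 4)
    (hu : IsUnit (algebraMap RR O (X i))) {F : BB} {c : ℕ} (hF : IsWeightedHomogeneous wx F c)
    (eF : EE F = 0) {z : Fin 4 → ℂ} (hz : z i ≠ 0) (j : Fin 3) :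
    algebraMap RR O (atz z (pderiv (Sum.inr (i.succAbove j)) F)) =
      algebraMap RR O (C (z i ^ (c - 1))) * grad (chartH O i F) (vz O i z) j := by
  rw [chart_eval O i hu (pderiv_wx hF (i.succAbove j)) (by rw [EE_pderiv, eF, map_zero]) hz]
  unfold grad
  rw [chart_pderiv]

theorem Jac_cross_smul {O : Type} [CommRing O] (s t : O) (a b : Fin 3 → O) (j : Fin 3) :
    crossProduct (fun l => s * a l) (fun l => t * b l) j = s * t * crossProduct a b j := by
  rw [cross_apply, cross_apply]
  fin_cases j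
  · show s * a 1 * (t * b 2) - s * a 2 * (t * b 1) = s * t * (a 1 * b 2 - a 2 * b 1)
    ring
  · show s * a 2 * (t * b 0) - s * a 0 * (t * b 2) = s * t * (a 2 * b 0 - a 0 * b 2)
    ring
  · show s * a 0 * (t * b 1) - s * a 1 * (t * b 0) = s * t * (a 0 * b 1 - a 1 * b 0)
    ring

theorem Jac_cross_map {R O : Type} [CommRing R] [CommRing O] (φ : R →+* O) (a b : Fin 3 → R)
    (j : Fin 3) :
    φ (crossProduct a b j) = crossProduct (fun l => φ (a l)) (fun l => φ (b l)) j := by
  rw [cross_apply, cross_apply]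
  fin_cases j
  · show φ (a 1 * b 2 - a 2 * b 1) = φ (a 1) * φ (b 2) - φ (a 2) * φ (b 1)
    rw [map_sub, map_mul, map_mul]
  · show φ (a 2 * b 0 - a 0 * b 2) = φ (a 2) * φ (b 0) - φ (a 0) * φ (b 2)
    rw [map_sub, map_mul, map_mul]
  · show φ (a 0 * b 1 - a 1 * b 0) = φ (a 0) * φ (b 1) - φ (a 1) * φ (b 0)
    rw [map_sub, map_mul, map_mul]

theorem j3_of_jac (O : Type) [CommRing O] [Algebra RR O] (i : Fin 4)
    (hu : IsUnit (algebraMap RR O (X i))) {F G : BB} {c d : ℕ} (hc : 1 ≤ c) (hd : 1 ≤ d)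
    (hF : IsWeightedHomogeneous wx F c)
    (hG : IsWeightedHomogeneous wx G d) (eF : EE F = 0) (eG : EE G = 0) {z : Fin 4 → ℂ}
    (hz : ∀ l, z l ≠ 0) {J : RR} (hJ : IsJac i F G z J) :
    IsJ3 (chartH O i F) (chartH O i G) (vz O i z)
      (algebraMap RR O (J * X i * C (z i ^ 3 / z i ^ (c + d)))) := by
  unfold IsJ3
  funext j
  have h := congrArg (algebraMap RR O) (congrFun hJ j)
  rw [Jac_cross_map] at h
  simp only [Jac_pc O i hu hF eF (hz i), Jac_pc O i hu hG eG (hz i)] at h
  rw [Jac_cross_smul, map_mul, vz_scale O i hu (hz i)] at h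
  rw [Pi.smul_apply, smul_eq_mul]
  have hzc : IsUnit (algebraMap RR O (C (z i ^ (c - 1))) * algebraMap RR O (C (z i ^ (d - 1)))) := by
    rw [← map_mul, ← C_mul]
    refine IsUnit.map _ (IsUnit.map _ ?_)
    rw [isUnit_iff_ne_zero]
    exact mul_ne_zero (pow_ne_zero _ (hz i)) (pow_ne_zero _ (hz i))
  refine hzc.mul_left_cancel ?_
  have hfin : (C (z i ^ (c - 1)) * C (z i ^ (d - 1)) * (J * X i * C (z i ^ 3 / z i ^ (c + d))) : RR) =
      J * (X i * C (z i)) := by
    have e1 : z i ^ (c - 1) * z i ^ (d - 1) * (z i ^ 3 / z i ^ (c + d)) = z i := by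
      obtain ⟨c', hc'⟩ : ∃ c', c = c' + 1 := ⟨c - 1, by omega⟩
      obtain ⟨d', hd'⟩ : ∃ d', d = d' + 1 := ⟨d - 1, by omega⟩
      have hzi := hz i
      have hp : z i ^ (c + d) ≠ 0 := pow_ne_zero _ hzi
      rw [hc', hd', Nat.add_sub_cancel, Nat.add_sub_cancel]
      have e2 : z i ^ c' * z i ^ d' * z i ^ 3 = z i * z i ^ (c' + 1 + (d' + 1)) := by ring
      rw [← mul_div_assoc, e2, mul_div_assoc, div_self (by rw [hc', hd'] at hp; exact hp), mul_one]
    have e3 : (C (z i ^ (c - 1)) * C (z i ^ (d - 1)) * C (z i ^ 3 / z i ^ (c + d)) : RR) =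
        C (z i) := by
      rw [← C_mul, ← C_mul, e1]
    linear_combination (J * X i) * e3
  have h5 := congrArg (algebraMap RR O) hfin
  rw [map_mul, map_mul] at h5
  rw [map_mul (algebraMap RR O) J] at h5
  calc algebraMap RR O (C (z i ^ (c - 1))) * algebraMap RR O (C (z i ^ (d - 1))) *
        crossProduct (grad (chartH O i F) (vz O i z)) (grad (chartH O i G) (vz O i z)) j
      = algebraMap RR O J * (algebraMap RR O (X i * C (z i)) * vz O i z j) := h
    _ = (algebraMap RR O J * algebraMap RR O (X i * C (z i))) * vz O i z j := by ring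
    _ = _ := by rw [← h5]; ring

end GP80

end S_H80_GP_Jac

section S_H80_GP_Prg

/-!
# Row Prg (MP_87ed0a_GP): the local pair at a prime  (about 130 lines)

* `pair_of_glob`: `hF, hG` by `chart_homog`; `vF, vG` by `vz_eval_zero` (`P_i` is a unit of `OO π` because `π ∤ P_i`, `OO_unit`).
  `gen`: `gen_O` gives `r ≠ 0` with `C(r) g ∈ span`; in `OO π`, `r = π^m u`, `u` a unit (`r = π^m r'` in `RR`, `π ∤ r'`): multiply by `C (u⁻¹)`.
  `kos`: let `A F0 + B G0 = 0` in `O[X]`, `F0 = chartH O i F` etc.  Let `K' = FractionRing (OO π)`; the images of `F0, G0` in `K'[X]` are coprime: apply `relPrime_of_gen` over `K'` to the vectors `vz`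
  mapped to `K'` (a form over `K'` vanishing at the points, times a common denominator, is a form over `O` vanishing at the points, so is in the ideal after multiplication by a power of `π`).
  `F0 ∣ B G0` in `K'[X]`, so `F0 ∣ B` (`IsRelPrime.dvd_of_dvd_mul_right`), `B = - r F0`, then `A = r G0` (`F0 ≠ 0`: if `F0 = 0`, then `hlift_chart` gives `F = 0`; hence `G0 ∣ 1`.. simpler: `F0 = 0` implies `G0` a unit by coprimality, but
  `deg G0 = d ≥ 2` and `G0 ≠ 0` homogeneous: contradiction).  `r ∈ K'[X]` has a common denominator `π^m` up to units (a nonzero element of the DVR `OO π`): `π^m r ∈ O[X]` (`O[X] → K'[X]` is injective).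
* `red_ne_zero`: for `c < d` the reduction of `chartH (OO π) i F` modulo `π` is nonzero: otherwise all coefficients of `chartH RR i F` are divisible by `π` (`chart_map`, `OO_dvd`, `OO_ker`), so `chartH RR i F = C π * f`,
  `P_i^c F = hlift i (chartH RR i F) = inP π * hlift i f`; `inP π` is prime (`inP_prime`) and does not divide `inP (P_i^c)` (injectivity on `RR`: apply `atz` with any `z`, or the substitution `x = 0`), so
  `inP π ∣ F`, contradicting `prim`.
-/

namespace GP80

open MvPolynomial

theorem Prg_factor {π : RR} (hπ : Prime π) {r : RR} (hr : r ≠ 0) :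
    ∃ (m : ℕ) (r' : RR), ¬ π ∣ r' ∧ r = π ^ m * r' := by
  have hfin : FiniteMultiplicity π r := FiniteMultiplicity.of_not_isUnit hπ.not_isUnit hr
  obtain ⟨c, hc, hnd⟩ := hfin.exists_eq_pow_mul_and_not_dvd
  exact ⟨_, c, hnd, hc⟩

theorem Prg_unit {π : RR} [hpi : (Ideal.span {π} : Ideal RR).IsPrime] (hπ : Prime π) {r : RR}
    (hr : r ≠ 0) : ∃ (m : ℕ) (u : OO π), IsUnit u ∧
      algebraMap RR (OO π) r = algebraMap RR (OO π) π ^ m * u := by
  obtain ⟨m, r', h1, h2⟩ := Prg_factor hπ hr
  refine ⟨m, algebraMap RR (OO π) r', (OO_unit r').2 h1, ?_⟩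
  rw [h2, map_mul, map_pow]

theorem pair_of_glob {I : Type} [Fintype I] (z : I → Fin 4 → ℂ) (hz : Geom z) {c d f f' : ℕ} {F G : BB}
    (h : Glob z c d f f' F G) {π : RR} [hpi : (Ideal.span {π} : Ideal RR).IsPrime] (hπ : Prime π)
    (i : Fin 4) (hi : ¬ π ∣ X i) {D0 : ℕ}
    (S : GeoS (OO π) (IsLocalRing.ResidueField (OO π)) I D0)
    (hS1 : S.pi = algebraMap RR (OO π) π) (hS4 : ∀ s, S.v s = vz (OO π) i (z s)) :
    PairS S c d (chartH (OO π) i F) (chartH (OO π) i G) := by
  have hdom : IsDomain (OO π) := OO_domain π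
  have hM : (Ideal.span {π} : Ideal RR).primeCompl ≤ nonZeroDivisors RR :=
    Ideal.primeCompl_le_nonZeroDivisors _
  have hu : IsUnit (algebraMap RR (OO π) (X i)) := (OO_unit (X i)).2 hi
  refine ⟨chart_homog (OO π) i h.Fx, chart_homog (OO π) i h.Gx, ?_, ?_, ?_, ?_⟩
  · intro s
    rw [hS4]
    exact vz_eval_zero (OO π) i hu h.Fx h.FE (hz.co s i) (h.Fz s)
  · intro s
    rw [hS4]
    exact vz_eval_zero (OO π) i hu h.Gx h.GE (hz.co s i) (h.Gz s)
  · intro t g hg h0
    obtain ⟨r, hr, hmem⟩ := gen_O (Ideal.span {π} : Ideal RR).primeCompl hM i hu z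
      (fun s => hz.co s i) h hg (fun s => by rw [← hS4]; exact h0 s)
    obtain ⟨m, u, hu1, hu2⟩ := Prg_unit hπ hr
    obtain ⟨v, hv⟩ := hu1.exists_left_inv
    refine ⟨m, ?_⟩
    have h1 : C (S.pi ^ m) * g = C v * (C (algebraMap RR (OO π) r) * g) := by
      rw [hS1, hu2, ← mul_assoc, ← C_mul]
      congr 2
      calc algebraMap RR (OO π) π ^ m = (v * u) * algebraMap RR (OO π) π ^ m := by rw [hv, one_mul]
        _ = v * (algebraMap RR (OO π) π ^ m * u) := by ring
    rw [h1]
    exact Ideal.mul_mem_left _ _ hmem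
  · intro A B hAB
    have hunits : ∀ y : (Ideal.span {π} : Ideal RR).primeCompl,
        IsUnit (algebraMap RR (FractionRing RR) y) := by
      intro y
      apply IsUnit.mk0
      intro h0
      have h1 : (y : RR) = 0 := by
        apply IsFractionRing.injective RR (FractionRing RR)
        rw [h0, map_zero]
      exact nonZeroDivisors.ne_zero (hM y.2) h1
    let φ : OO π →+* FractionRing RR :=
      IsLocalization.lift (M := (Ideal.span {π} : Ideal RR).primeCompl) hunits
    have hφ : ∀ r : RR, φ (algebraMap RR (OO π) r) = algebraMap RR (FractionRing RR) r :=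
      fun r => IsLocalization.lift_eq hunits r
    have hφc : φ.comp (algebraMap RR (OO π)) = algebraMap RR (FractionRing RR) :=
      RingHom.ext hφ
    have hφinj : Function.Injective φ := by
      rw [injective_iff_map_eq_zero]
      intro a ha
      obtain ⟨r, s, rfl⟩ := IsLocalization.exists_mk'_eq (Ideal.span {π} : Ideal RR).primeCompl a
      have h1 : φ (algebraMap RR (OO π) r) = 0 := by
        have h2 := IsLocalization.mk'_spec (OO π) r s
        rw [← h2, map_mul, ha, zero_mul]
      rw [hφ] at h1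
      have h3 : r = 0 := by
        apply IsFractionRing.injective RR (FractionRing RR)
        rw [h1, map_zero]
      rw [h3, IsLocalization.mk'_zero]
    have hmapinj : Function.Injective (map φ : MvPolynomial (Fin 3) (OO π) →+* _) :=
      map_injective φ hφinj
    have hchart : ∀ H : BB, map φ (chartH (OO π) i H) = chartH (FractionRing RR) i H := by
      intro H
      rw [chart_map (OO π) i H, chart_map (FractionRing RR) i H, map_map, hφc]
    have hcop := cop_K i z (fun s => hz.co s i) h
    set FK := chartH (FractionRing RR) i F with hFK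
    set GK := chartH (FractionRing RR) i G with hGK
    have hAB' : map φ A * FK + map φ B * GK = 0 := by
      rw [hFK, hGK, ← hchart, ← hchart, ← map_mul, ← map_mul, ← map_add, hAB, map_zero]
    have hFne : FK ≠ 0 := by
      intro h0
      rw [h0, isRelPrime_zero_left] at hcop
      have h1 : IsUnit (constantCoeff GK) := hcop.map constantCoeff
      have h2 : GK.IsHomogeneous d := chart_homog (FractionRing RR) i h.Gx
      have h3 : constantCoeff GK = 0 := by
        rw [constantCoeff_eq]
        apply h2.coeff_eq_zero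
        have hc2 := h.c2
        have hcd := h.cd
        simp only [map_zero]
        omega
      rw [h3] at h1
      exact not_isUnit_zero h1
    have hdvd : FK ∣ map φ B * GK := by
      refine ⟨-(map φ A), ?_⟩
      linear_combination hAB'
    obtain ⟨q, hq⟩ := hcop.dvd_of_dvd_mul_right hdvd
    have hA : map φ A = (-q) * GK := by
      apply mul_right_cancel₀ hFne
      rw [hq] at hAB'
      linear_combination hAB'
    obtain ⟨s, hs, r0, hr0, -⟩ := clear_den (nonZeroDivisors RR) le_rfl (-q)
    obtain ⟨m, u, hu1, hu2⟩ := Prg_unit hπ (nonZeroDivisors.ne_zero hs)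
    obtain ⟨v, hv⟩ := hu1.exists_left_inv
    have hpm : φ v * algebraMap RR (FractionRing RR) s = φ (S.pi ^ m) := by
      rw [← hφ, ← map_mul, hu2, hS1]
      congr 1
      calc v * (algebraMap RR (OO π) π ^ m * u) = (v * u) * algebraMap RR (OO π) π ^ m := by ring
        _ = _ := by rw [hv, one_mul]
    have hr : map φ (C v * map (algebraMap RR (OO π)) r0) = C (φ (S.pi ^ m)) * (-q) := by
      rw [map_mul, map_C, map_map, hφc, ← hr0, ← mul_assoc, ← C_mul, hpm]
    refine ⟨m, C v * map (algebraMap RR (OO π)) r0, ?_, ?_⟩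
    · apply hmapinj
      rw [map_mul, map_C, hA, map_mul, hchart, hr, mul_assoc]
    · apply hmapinj
      rw [map_mul, map_C, hq, map_neg, map_mul, hchart, hr]
      ring

theorem red_ne_zero {I : Type} [Fintype I] (z : I → Fin 4 → ℂ) {c d f f' : ℕ} {F G : BB}
    (h : Glob z c d f f' F G) (hcd : c < d) {π : RR} [hpi : (Ideal.span {π} : Ideal RR).IsPrime]
    (hπ : Prime π) (i : Fin 4) (hi : ¬ π ∣ X i) :
    map (IsLocalRing.residue (OO π)) (chartH (OO π) i F) ≠ 0 := by
  intro h0
  have h1 : C π ∣ chartH RR i F := by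
    rw [C_dvd_iff_dvd_coeff]
    intro e
    rw [← OO_dvd, ← OO_ker]
    have h2 := congrArg (coeff e) h0
    rw [coeff_map, chart_map, coeff_map, coeff_zero] at h2
    exact h2
  obtain ⟨g, hg⟩ := h1
  have h2 := hlift_chart i h.Fx h.FE
  have h3 : hlift i (C π) = inP π := by
    unfold hlift
    rw [coe_eval₂Hom, eval₂_C]
  rw [hg, map_mul, h3] at h2
  have hp := inP_prime hπ
  have h4 : inP π ∣ inP (X i ^ c) * F := ⟨hlift i g, h2.symm⟩
  rcases hp.dvd_or_dvd h4 with h5 | h5
  · obtain ⟨w, hw⟩ := h5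
    have h6 := congrArg (atz 0) hw
    rw [atz_inP, map_mul, atz_inP] at h6
    exact hi (hπ.dvd_of_dvd_pow ⟨_, h6⟩)
  · exact h.prim hcd π hπ h5

end GP80

end S_H80_GP_Prg

section S_H80_GP_Fac

/-!
# Row Fac (MP_87ed0a_GP): factorisations in `RR = ℂ[P]`  (about 150 lines)

* `exists_primes`: for `h ≠ 0` a finite set `T` of pairwise non associated primes dividing `h`, every prime divisor of `h` is associated to one of them
  (`UniqueFactorizationMonoid.factors h`, choose representatives of the classes: e.g. `Associates`, or `normalizedFactors` with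
  `letI := UniqueFactorizationMonoid.toNormalizationMonoid`, `toFinset`); moreover one may extend a given such set `T0`.
* `fac_prod`: `g ≠ 0` all of whose prime divisors are associated to elements of `T`: `g = C u * ∏ π ^ multiplicity π g`.  Proof: by `∏ π^(mult) ∣ g` (pairwise coprime prime powers,
  `Finset.prod_dvd_of_isRelPrime`/`Finset.prod_primes_dvd`-like induction), the quotient has no prime factor (a prime factor `q ~ π` would give `π^(mult+1) ∣ g`), so it is a unit of `RR`, i.e. a nonzero constant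
  (`MvPolynomial.isUnit_iff_eq_C_of_isReduced` or totalDegree).
* `homog_of_dvd`: a divisor of a nonzero homogeneous polynomial is homogeneous (`homog_of_mul`).
* `sum_deg`: degrees: for `g` homogeneous of degree `m`, `g ≠ 0`, covered by `T`, `∑_{π ∈ T} dl π * multiplicity π g = m` (degree of a product; a nonzero polynomial has at most one degree, `IsHomogeneous.inj_right`);
  `sum_deg_le`: without the covering hypothesis `≤ m` (the product divides `g`, the quotient is homogeneous, degrees add).
-/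

namespace GP80

open MvPolynomial

/-- a finite set of pairwise non associated primes -/
def PSet (T : Finset RR) : Prop :=
  (∀ π ∈ T, Prime π) ∧ ∀ π ∈ T, ∀ π' ∈ T, Associated π π' → π = π'

private theorem Fac_ms (T0 : Finset RR) (h0 : PSet T0) (h : RR) (s : Multiset RR)
    (hs : ∀ q ∈ s, Prime q ∧ q ∣ h) :
    ∃ T : Finset RR, T0 ⊆ T ∧ PSet T ∧ (∀ π ∈ T, π ∉ T0 → π ∣ h) ∧
      ∀ q ∈ s, ∃ π ∈ T, Associated q π := by
  classical
  induction s using Multiset.induction_on with
  | empty =>
    exact ⟨T0, Finset.Subset.refl _, h0, fun π h1 h2 => absurd h1 h2,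
      fun q hq => absurd hq (Multiset.notMem_zero q)⟩
  | cons a s ih =>
    obtain ⟨T, h1, h2, h3, h4⟩ := ih fun q hq => hs q (Multiset.mem_cons_of_mem hq)
    obtain ⟨h5, h6⟩ := hs a (Multiset.mem_cons_self a s)
    by_cases h7 : ∃ π ∈ T, Associated a π
    · refine ⟨T, h1, h2, h3, fun q hq => ?_⟩
      rcases Multiset.mem_cons.1 hq with rfl | hq
      · exact h7
      · exact h4 q hq
    · refine ⟨insert a T, h1.trans (Finset.subset_insert _ _), ⟨?_, ?_⟩, ?_, ?_⟩
      · intro π hπ
        rcases Finset.mem_insert.1 hπ with rfl | hπ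
        · exact h5
        · exact h2.1 π hπ
      · intro π hπ π' hπ' hass
        rcases Finset.mem_insert.1 hπ with e1 | e1 <;>
          rcases Finset.mem_insert.1 hπ' with e2 | e2
        · rw [e1, e2]
        · rw [e1] at hass
          exact absurd ⟨π', e2, hass⟩ h7
        · rw [e2] at hass
          exact absurd ⟨π, e1, hass.symm⟩ h7
        · exact h2.2 π e1 π' e2 hass
      · intro π hπ h8
        rcases Finset.mem_insert.1 hπ with rfl | hπ
        · exact h6
        · exact h3 π hπ h8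
      · intro q hq
        rcases Multiset.mem_cons.1 hq with rfl | hq
        · exact ⟨q, Finset.mem_insert_self _ _, Associated.refl q⟩
        · obtain ⟨π, h8, h9⟩ := h4 q hq
          exact ⟨π, Finset.mem_insert_of_mem h8, h9⟩

theorem exists_primes (T0 : Finset RR) (h0 : PSet T0) {h : RR} (hh : h ≠ 0) :
    ∃ T : Finset RR, T0 ⊆ T ∧ PSet T ∧ (∀ π ∈ T, π ∉ T0 → π ∣ h) ∧
      ∀ q, Prime q → q ∣ h → ∃ π ∈ T, Associated q π := by
  obtain ⟨T, h1, h2, h3, h4⟩ := Fac_ms T0 h0 h (UniqueFactorizationMonoid.factors h)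
    (fun q hq => ⟨UniqueFactorizationMonoid.prime_of_factor q hq,
      UniqueFactorizationMonoid.dvd_of_mem_factors hq⟩)
  refine ⟨T, h1, h2, h3, fun q hq hd => ?_⟩
  obtain ⟨p, h5, h6⟩ := UniqueFactorizationMonoid.exists_mem_factors_of_dvd hh hq.irreducible hd
  obtain ⟨π, h7, h8⟩ := h4 p h5
  exact ⟨π, h7, h6.trans h8⟩

private theorem Fac_dvd {T : Finset RR} (hT : PSet T) (g : RR) :
    ∏ π ∈ T, π ^ multiplicity π g ∣ g := by
  refine Finset.prod_dvd_of_isRelPrime ?_ fun π _ => pow_multiplicity_dvd π g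
  intro π hπ π' hπ' hne
  have h1 : IsRelPrime π π' := by
    rw [(hT.1 π hπ).irreducible.isRelPrime_iff_not_dvd]
    intro h2
    exact hne (hT.2 π hπ π' hπ' ((hT.1 π hπ).associated_of_dvd (hT.1 π' hπ') h2))
  exact IsRelPrime.pow h1

private theorem Fac_unit {k : RR} (hk : IsUnit k) : ∃ u : ℂ, u ≠ 0 ∧ k = C u := by
  obtain ⟨u, h1, h2⟩ := MvPolynomial.isUnit_iff_eq_C_of_isReduced.1 hk
  exact ⟨u, h1.ne_zero, h2⟩

theorem fac_prod {T : Finset RR} (hT : PSet T) {g : RR} (hg : g ≠ 0)
    (hc : ∀ q, Prime q → q ∣ g → ∃ π ∈ T, Associated q π) :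
    ∃ u : ℂ, u ≠ 0 ∧ g = C u * ∏ π ∈ T, π ^ multiplicity π g := by
  classical
  obtain ⟨k, hk⟩ := Fac_dvd hT g
  have hk0 : k ≠ 0 := by
    rintro rfl
    rw [mul_zero] at hk
    exact hg hk
  have hu : IsUnit k := by
    by_contra h1
    obtain ⟨q, h2, h3⟩ := WfDvdMonoid.exists_irreducible_factor h1 hk0
    have h4 : Prime q := UniqueFactorizationMonoid.irreducible_iff_prime.1 h2
    obtain ⟨π, h5, h6⟩ := hc q h4 (h3.trans (Dvd.intro_left _ hk.symm))
    have h7 : π ∣ k := (h6.symm.dvd).trans h3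
    have h8 : π ^ (multiplicity π g + 1) ∣ g := by
      have h9 : π ^ multiplicity π g ∣ ∏ π ∈ T, π ^ multiplicity π g :=
        Finset.dvd_prod_of_mem (fun π => π ^ multiplicity π g) h5
      rw [pow_succ]
      exact (mul_dvd_mul h9 h7).trans (dvd_of_eq hk.symm)
    exact (FiniteMultiplicity.of_prime_left (hT.1 π h5) hg).not_pow_dvd_of_multiplicity_lt
      (Nat.lt_succ_self _) h8
  obtain ⟨u, h1, h2⟩ := Fac_unit hu
  refine ⟨u, h1, ?_⟩
  rw [← h2, mul_comm]
  exact hk

theorem homog_of_dvd {p g : RR} {m : ℕ} (hg : g.IsHomogeneous m) (h0 : g ≠ 0) (hd : p ∣ g) :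
    ∃ δ, δ ≤ m ∧ p.IsHomogeneous δ := by
  obtain ⟨k, rfl⟩ := hd
  obtain ⟨a, b, h1, h2, _⟩ := homog_of_mul hg h0
  exact ⟨a, by omega, h2⟩

private theorem Fac_hom {T : Finset RR} (dl : RR → ℕ) (hdl : ∀ π ∈ T, π.IsHomogeneous (dl π))
    (e : RR → ℕ) : (∏ π ∈ T, π ^ e π).IsHomogeneous (∑ π ∈ T, dl π * e π) :=
  MvPolynomial.IsHomogeneous.prod T _ _ fun π hπ => (hdl π hπ).pow (e π)

theorem sum_deg {T : Finset RR} (hT : PSet T) (dl : RR → ℕ) (hdl : ∀ π ∈ T, π.IsHomogeneous (dl π))
    {g : RR} {m : ℕ} (hg : g ≠ 0) (hm : g.IsHomogeneous m)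
    (hc : ∀ q, Prime q → q ∣ g → ∃ π ∈ T, Associated q π) :
    ∑ π ∈ T, dl π * multiplicity π g = m := by
  obtain ⟨u, _, h1⟩ := fac_prod hT hg hc
  have h2 : g.IsHomogeneous (∑ π ∈ T, dl π * multiplicity π g) := by
    have h3 := (Fac_hom dl hdl (fun π => multiplicity π g)).C_mul u
    rwa [← h1] at h3
  exact h2.inj_right hm hg

theorem sum_deg_le {T : Finset RR} (hT : PSet T) (dl : RR → ℕ)
    (hdl : ∀ π ∈ T, π.IsHomogeneous (dl π)) {g : RR} {m : ℕ} (hg : g ≠ 0) (hm : g.IsHomogeneous m) :
    ∑ π ∈ T, dl π * multiplicity π g ≤ m := by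
  obtain ⟨k, hk⟩ := Fac_dvd hT g
  rw [hk] at hm hg
  exact (homog_of_mul_left hm (Fac_hom dl hdl (fun π => multiplicity π g)) hg).1

theorem mult_mul {π g g' : RR} (hπ : Prime π) (hg : g ≠ 0) (hg' : g' ≠ 0) :
    multiplicity π (g * g') = multiplicity π g + multiplicity π g' :=
  multiplicity_mul hπ (FiniteMultiplicity.of_prime_left hπ (mul_ne_zero hg hg'))

theorem mult_zero_iff {π g : RR} (hπ : Prime π) (hg : g ≠ 0) : multiplicity π g = 0 ↔ ¬ π ∣ g :=
  multiplicity_eq_zero

/-- a homogeneous prime has degree at least one -/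
theorem prime_deg {π : RR} (hπ : Prime π) {δ : ℕ} (hδ : π.IsHomogeneous δ) : 1 ≤ δ := by
  by_contra h1
  have h2 : δ = 0 := by omega
  subst h2
  have h3 := (MvPolynomial.totalDegree_zero_iff_isHomogeneous _).2 hδ
  rw [MvPolynomial.totalDegree_eq_zero_iff_eq_C] at h3
  apply hπ.not_isUnit
  rw [h3]
  refine IsUnit.map C (IsUnit.mk0 _ ?_)
  intro h4
  rw [h4, C_0] at h3
  exact hπ.ne_zero h3

end GP80

end S_H80_GP_Fac
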