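import Mathlib
import Pool.Agent.H3.GP.Defs
import Pool.Agent.H80.M87.G02
import Pool.Agent.H80.M87.G03
import Pool.Agent.H80.M87.G04
import Pool.Agent.H80.M87.G07

/-! MP_87ed0a_ag: this file joins several modules to save build time. -/

section S_H3_GP_UNP

/-!
# UNP (MP_87ed0a_ag): unpacking a grid

PROOF. Take `A, B` from `h`.  For `(k, j)` the subspace `A k ⊓ B j` is a line `span {v}`, the point
`p = mk v` satisfies `p.submodule = A k ⊓ B j`, so `p ∈ pts z`: there is `e (k, j) : Fin (a * b)`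
with `z (e (k, j)) ≠ 0` and `span {z (e (k, j))} = A k ⊓ B j`.  `e` is injective: if
`A k ⊓ B j = A k' ⊓ B j' ≠ ⊥` then `A k ⊓ A k' ≠ ⊥` so `k = k'`, and `j = j'`.  Cardinalities: `e`
is bijective (`Fintype.bijective_iff_injective_and_card`), get the equivalence.
`GridVec`: `ind`: for `k ≠ k'`, `j ≠ j'` the vectors `x k j, x k j'` lie in `A k`, are nonzero and
lie in `B j`, `B j'` with `B j ⊓ B j' = ⊥`, so they are independent; the same for `k'`; and
`A k ⊓ A k' = ⊥`, so the four vectors are independent.  `col`: `x k j₀, x k j₁` are two independent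
vectors of the 2-dimensional `A k`, so they span it and `x k j ∈ A k`.  `row`: the same in `B j`
(`a ≥ 2` is not needed).
-/

namespace Pool.Agent.H3.GP

private theorem UNP_pair {S T : Submodule ℂ (Fin 4 → ℂ)} (hST : S ⊓ T = ⊥) {v w : Fin 4 → ℂ}
    (hv : v ∈ S) (hw : w ∈ T) (h : v + w = 0) : v = 0 ∧ w = 0 := by
  have h1 : v = -w := eq_neg_of_add_eq_zero_left h
  have h2 : v ∈ S ⊓ T := ⟨hv, by rw [h1]; exact T.neg_mem hw⟩
  rw [hST, Submodule.mem_bot] at h2
  refine ⟨h2, ?_⟩
  rwa [h2, zero_add] at h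

private theorem UNP_indep {S T : Submodule ℂ (Fin 4 → ℂ)} (hST : S ⊓ T = ⊥) {v w : Fin 4 → ℂ}
    (hv : v ∈ S) (hw : w ∈ T) (hv0 : v ≠ 0) (hw0 : w ≠ 0) (s t : ℂ) (h : s • v + t • w = 0) :
    s = 0 ∧ t = 0 := by
  obtain ⟨h1, h2⟩ := UNP_pair hST (S.smul_mem s hv) (T.smul_mem t hw) h
  exact ⟨(smul_eq_zero.1 h1).resolve_right hv0, (smul_eq_zero.1 h2).resolve_right hw0⟩

private theorem UNP_span {S : Submodule ℂ (Fin 4 → ℂ)} (hS : Module.finrank ℂ S = 2)
    {v w x : Fin 4 → ℂ} (hv : v ∈ S) (hw : w ∈ S) (hx : x ∈ S)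
    (hi : ∀ s t : ℂ, s • v + t • w = 0 → s = 0 ∧ t = 0) :
    x ∈ Submodule.span ℂ {v, w} := by
  have h1 : LinearIndependent ℂ ![v, w] := LinearIndependent.pair_iff.2 hi
  have h2 := finrank_span_eq_card h1
  have h3 : Set.range ![v, w] = {v, w} := by
    simp [Matrix.range_cons, Matrix.range_empty, Set.pair_comm]
  rw [h3, Fintype.card_fin] at h2
  have h4 : Submodule.span ℂ {v, w} ≤ S := by
    rw [Submodule.span_le]
    rintro y (rfl | rfl)
    · exact hv
    · exact hw
  have h5 : Submodule.span ℂ {v, w} = S :=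
    Submodule.eq_of_le_of_finrank_eq h4 (h2.trans hS.symm)
  rw [h5]
  exact hx

theorem UNP (a b : ℕ) (z : Fin (a * b) → Fin 4 → ℂ) (h : IsGrid a b (pts z)) :
    ∃ e : Fin a × Fin b ≃ Fin (a * b), GridVec a b (fun k j => z (e (k, j))) := by
  classical
  obtain ⟨ha, hab, A, B, hA, hB, sA, sB, hAB, hZ⟩ := h
  have hex : ∀ kj : Fin a × Fin b, ∃ i : Fin (a * b), z i ≠ 0 ∧
      Submodule.span ℂ {z i} = A kj.1 ⊓ B kj.2 := by
    intro kj
    have h1 : Projectivization.mk'' (A kj.1 ⊓ B kj.2) (hAB kj.1 kj.2) ∈ pts z := by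
      rw [hZ]
      exact ⟨kj.1, kj.2, Projectivization.submodule_mk'' _ _⟩
    obtain ⟨i, hi, h2⟩ := h1
    refine ⟨i, hi, ?_⟩
    have h3 := congrArg Projectivization.submodule h2
    rw [Projectivization.submodule_mk'', Projectivization.submodule_mk] at h3
    exact h3.symm
  choose e0 he1 he2 using hex
  have hmemA : ∀ kj, z (e0 kj) ∈ A kj.1 := fun kj => by
    have h1 : z (e0 kj) ∈ Submodule.span ℂ {z (e0 kj)} := Submodule.mem_span_singleton_self _
    rw [he2] at h1
    exact h1.1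
  have hmemB : ∀ kj, z (e0 kj) ∈ B kj.2 := fun kj => by
    have h1 : z (e0 kj) ∈ Submodule.span ℂ {z (e0 kj)} := Submodule.mem_span_singleton_self _
    rw [he2] at h1
    exact h1.2
  have hinj : Function.Injective e0 := by
    intro x y hxy
    have h1 : x.1 = y.1 := by
      by_contra hne
      have h2 : z (e0 x) ∈ A x.1 ⊓ A y.1 := ⟨hmemA x, by rw [hxy]; exact hmemA y⟩
      rw [sA _ _ hne, Submodule.mem_bot] at h2
      exact he1 x h2
    have h2 : x.2 = y.2 := by
      by_contra hne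
      have h2 : z (e0 x) ∈ B x.2 ⊓ B y.2 := ⟨hmemB x, by rw [hxy]; exact hmemB y⟩
      rw [sB _ _ hne, Submodule.mem_bot] at h2
      exact he1 x h2
    exact Prod.ext h1 h2
  have hbij : Function.Bijective e0 := by
    rw [Fintype.bijective_iff_injective_and_card]
    refine ⟨hinj, ?_⟩
    rw [Fintype.card_prod, Fintype.card_fin, Fintype.card_fin, Fintype.card_fin]
  refine ⟨Equiv.ofBijective e0 hbij, ?_, ?_, ?_⟩
  · intro k k' j j' hk hj
    rw [Fintype.linearIndependent_iff]
    intro g hg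
    simp only [Equiv.ofBijective_apply, Fin.sum_univ_four, Matrix.cons_val_zero,
      Matrix.cons_val_one, Matrix.cons_val_two, Matrix.cons_val_three] at hg
    have h1 : (g 0 • z (e0 (k, j)) + g 1 • z (e0 (k, j'))) +
        (g 2 • z (e0 (k', j)) + g 3 • z (e0 (k', j'))) = 0 := by
      rw [← hg]
      abel
    obtain ⟨h2, h3⟩ := UNP_pair (sA k k' hk)
      ((A k).add_mem ((A k).smul_mem _ (hmemA (k, j))) ((A k).smul_mem _ (hmemA (k, j'))))
      ((A k').add_mem ((A k').smul_mem _ (hmemA (k', j))) ((A k').smul_mem _ (hmemA (k', j')))) h1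
    obtain ⟨g0, g1⟩ := UNP_indep (sB j j' hj) (hmemB (k, j)) (hmemB (k, j')) (he1 _) (he1 _) _ _ h2
    obtain ⟨g2, g3⟩ := UNP_indep (sB j j' hj) (hmemB (k', j)) (hmemB (k', j')) (he1 _) (he1 _) _ _
      h3
    intro i
    fin_cases i
    · exact g0
    · exact g1
    · exact g2
    · exact g3
  · intro k j₀ j₁ j hne
    exact UNP_span (hA k) (hmemA (k, j₀)) (hmemA (k, j₁)) (hmemA (k, j))
      (UNP_indep (sB j₀ j₁ hne) (hmemB (k, j₀)) (hmemB (k, j₁)) (he1 _) (he1 _))
  · intro j k₀ k₁ k hne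
    exact UNP_span (hB j) (hmemB (k₀, j)) (hmemB (k₁, j)) (hmemB (k, j))
      (UNP_indep (sA k₀ k₁ hne) (hmemA (k₀, j)) (hmemA (k₁, j)) (he1 _) (he1 _))

end Pool.Agent.H3.GP

end S_H3_GP_UNP

section S_H80_GP_Cm4

/-!
# Row Cm4 (MP_87ed0a_GP): arithmetic  (about 180 lines)

All statements over `ℤ` (checked numerically in 2.5 million cases).  `D0 = c + d - 1`.
* `ar_kappa`: `a (a + b - c - d) = (c - a)(d - a)` because `c d = a b`; the right side is positive, so `a + b - c - d ≥ 1`.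
* `ar1`: `(K-1)(D0-K) = K(c+d-K) - D0 ≤ a + b - c - d`, so `a (K-1)(D0-K) ≤ (c-a)(d-a)`.  If `c ≤ K a` then `c - a ≤ (K-1) a`, so `(K-1) a (D0 - K) ≤ (K-1) a (d-a)` (`(K-1) a > 0`, `d - a > 0`), `D0 - K ≤ d - a`, i.e. `c + a ≤ K + 1`, contradiction
  with `K ≤ c - 1`, `a ≥ 2`... (`c + a - 1 ≤ K ≤ c - 1`).  So `c ≥ K a + 1 ≥ 2 a + 1`, `d ≥ c`, `a b = c d ≥ (2a+1)^2 = 4a^2 + 4a + 1`, so `b ≥ 4a + 5` (`a b > a (4 a + 4)`).
* `ar2`: `(D0-K)(c-1+x) - K(d-x) = D0 (c-1+x-K)` exactly.  So the claim is `(b-a)(c-x) D0 (c-1+x-K) > K D0 (2b-1)`.  `c - 1 - K ≥ K(a-1)`.  `(c-x)(x + K(a-1)) ≥ K(2a-1)` for `1 ≤ x ≤ c-1` (concave in `x`: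
  `(c-x)(x+K(a-1)) - (c - 1 + K (a-1)) = (c-1-x)(x - 1 + K(a-1)) ≥ 0`, and `c-1+K(a-1) ≥ K a + K(a-1)`).  `(b-a)(2a-1) > 2b-1` from `b ≥ 4a+5`, `a ≥ 2`: `b(2a-3) > 2a^2-a-1`.
* `ar3`: `(c-x)(c-1+x) ≥ 2(c-1)` for `1 ≤ x ≤ c - 1` (`(c-x)(c-1+x) - 2(c-1) = (c-1-x)(c-2+x) + ...`: exactly `(c-x)(c-1+x) - (2c-2) = (c-1-x)(c - 2 + x)`; check: at `x = c-1` both are 0).  So left side
  `≥ 2 (b-a)(D0-K)(c-1) ≥ 2 (b-a)(D0-K) a K` (`c - 1 ≥ aK`).  `a (D0 - K) ≥ a D0 - (c-1)`, `2(c-1) ≤ D0 - 1`, so `2a(D0-K) ≥ (2a-1) D0 + 1`.  Then `(b-a)((2a-1) D0 + 1) > D0 (ab+1) + b - a` iff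
  `(b-a)(2a-1) > ab + 1` (times `D0 > 0`) iff `b(a-1) > 2a^2 - a + 1`, true for `b ≥ 4a+5`, `a ≥ 2`.
* `ar4` (`d = c + 1`, `D0 = 2c`, `a b = c(c+1)`): `a(K-1)(2c-K) ≤ (c-a)(c+1-a)` (from ar1).  (i) `3a ≤ c`: `(K-1)(2c-K) ≥ 2c-2` (`2 ≤ K ≤ c-1`), if `3a ≥ c+1` then `a(2c-2) ≥ (c+1)(2c-2)/3 > (2c-1)(2c+2)/9 ≥ (c-a)(c+1-a)`.
  (ii) `3K ≤ c`: `2(K-1)(2c-K) ≤ (c-2)(c-1)`; if `3K ≥ c+1` then `2(K-1)(2c-K) ≥ 2 (c-2)(5c-1)/9 > (c-2)(c-1)` (`(K-1)(2c-K)` is increasing in `K ≤ c`).
  (iii) `aK(2c-K) = a(K-1)(2c-K) + a(2c-K) ≤ (c-a)(c+1-a) + a(2c-K) = c^2 + c + a(a-1-K)`, and `a(a-1-K) ≤ a(a-3) ≤ c^2/9 - c` (`2 ≤ a ≤ c/3`, `x(x-3)` increasing for `x ≥ 3/2`).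
  `2c(c+1) * (10/9) c^2 ≤ (25/9) c^2 * ((8/9) c^2 + c) ≤ (2c-K)^2 (c^2 + c - a^2)`.  So `2c(c+1) a K (2c-K) ≤ (2c-K)^2 (c^2+c-a^2)`; cancel `2c-K > 0`: `2c(c+1) a K ≤ (2c-K)(ab - a^2)`; cancel `a`: `2 K (a b) ≤ (b-a)(2c-K)`.
-/

namespace GP80

theorem ar_kappa {a b c d : ℤ} (ha : 2 ≤ a) (hac : a < c) (hcd : c ≤ d) (hN : c * d = a * b) :
    a * (a + b - c - d) = (c - a) * (d - a) ∧ 1 ≤ a + b - c - d := by
  have h1 : a * (a + b - c - d) = (c - a) * (d - a) := by linear_combination -hN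
  refine ⟨h1, ?_⟩
  by_contra hcon
  push Not at hcon
  have h2 : 0 < (c - a) * (d - a) := mul_pos (by linarith) (by linarith)
  have h3 : a * (a + b - c - d) ≤ a * 0 := mul_le_mul_of_nonneg_left (by linarith) (by linarith)
  linarith

theorem Cm4_base {a b c d K : ℤ} (ha : 2 ≤ a) (hN : c * d = a * b)
    (h : K * (c + d - K) ≤ a + b - 1) :
    a * ((K - 1) * (c + d - 1 - K)) ≤ (c - a) * (d - a) := by
  have h1 : (K - 1) * (c + d - 1 - K) ≤ a + b - c - d := by
    have : (K - 1) * (c + d - 1 - K) = K * (c + d - K) - (c + d - 1) := by ring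
    linarith
  have h2 := mul_le_mul_of_nonneg_left h1 (by linarith : 0 ≤ a)
  have h3 : a * (a + b - c - d) = (c - a) * (d - a) := by linear_combination -hN
  linarith

theorem ar1 {a b c d K : ℤ} (ha : 2 ≤ a) (hac : a < c) (hcd : c ≤ d) (hN : c * d = a * b)
    (hK : 2 ≤ K) (hKc : K < c) (h : K * (c + d - K) ≤ a + b - 1) : K * a + 1 ≤ c ∧ 4 * a + 5 ≤ b := by
  have h1 := Cm4_base ha hN h
  have hc : K * a + 1 ≤ c := by
    by_contra hcon
    push Not at hcon
    have h2 : c - a ≤ (K - 1) * a := by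
      have : (K - 1) * a = K * a - a := by ring
      linarith
    have h3 : (c - a) * (d - a) ≤ ((K - 1) * a) * (d - a) :=
      mul_le_mul_of_nonneg_right h2 (by linarith)
    have h4 : ((K - 1) * a) * (c + d - 1 - K) ≤ ((K - 1) * a) * (d - a) := by
      have : a * ((K - 1) * (c + d - 1 - K)) = ((K - 1) * a) * (c + d - 1 - K) := by ring
      linarith
    have h5 : c + d - 1 - K ≤ d - a :=
      le_of_mul_le_mul_left h4 (mul_pos (by linarith) (by linarith))
    linarith
  refine ⟨hc, ?_⟩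
  have h2 : 2 * a + 1 ≤ c := by
    have : 2 * a ≤ K * a := mul_le_mul_of_nonneg_right hK (by linarith)
    linarith
  have h3 : (2 * a + 1) * (2 * a + 1) ≤ c * d :=
    mul_le_mul h2 (by linarith) (by linarith) (by linarith)
  by_contra hcon
  push Not at hcon
  have h4 : a * b ≤ a * (4 * a + 4) := mul_le_mul_of_nonneg_left (by linarith) (by linarith)
  rw [hN] at h3
  have : (2 * a + 1) * (2 * a + 1) = a * (4 * a + 4) + 1 := by ring
  linarith

theorem ar2 {a b c d K x : ℤ} (ha : 2 ≤ a) (hac : a < c) (hcd : c ≤ d) (hN : c * d = a * b)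
    (hK : 2 ≤ K) (hKc : K < c) (h : K * (c + d - K) ≤ a + b - 1) (hx : 1 ≤ x) (hxc : x < c) :
    K * (c + d - 1) * (2 * b - 1) + K * (b - a) * ((c - x) * (d - x)) + 1 ≤
      (b - a) * (c + d - 1 - K) * ((c - x) * (c - 1 + x)) := by
  obtain ⟨h1, h2⟩ := ar1 ha hac hcd hN hK hKc h
  have hD : 1 ≤ c + d - 1 := by linarith
  have e1 : (b - a) * (c + d - 1 - K) * ((c - x) * (c - 1 + x)) -
      K * (b - a) * ((c - x) * (d - x)) =
      (b - a) * (c + d - 1) * ((c - x) * (c - 1 + x - K)) := by ring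
  have e2 : K * (2 * a - 1) ≤ (c - x) * (c - 1 + x - K) := by
    have f1 : (c - x) * (x + K * (a - 1)) ≤ (c - x) * (c - 1 + x - K) := by
      refine mul_le_mul_of_nonneg_left ?_ (by linarith)
      have : K * (a - 1) = K * a - K := by ring
      linarith
    have f2 : (c - x) * (x + K * (a - 1)) = (c - 1 + K * (a - 1)) +
        (c - 1 - x) * (x - 1 + K * (a - 1)) := by ring
    have f3 : 0 ≤ K * (a - 1) := mul_nonneg (by linarith) (by linarith)
    have f4 : 0 ≤ (c - 1 - x) * (x - 1 + K * (a - 1)) := mul_nonneg (by linarith) (by linarith)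
    have f5 : K * (2 * a - 1) = K * a + K * (a - 1) := by ring
    linarith
  have hba : 0 ≤ b - a := by linarith
  have e3 : (b - a) * (c + d - 1) * (K * (2 * a - 1)) ≤
      (b - a) * (c + d - 1) * ((c - x) * (c - 1 + x - K)) :=
    mul_le_mul_of_nonneg_left e2 (mul_nonneg hba (by linarith))
  have e4 : 1 ≤ (b - a) * (2 * a - 1) - (2 * b - 1) := by
    have f1 : (b - a) * (2 * a - 1) - (2 * b - 1) = b * (2 * a - 3) - 2 * a * a + a + 1 := by ring
    have f2 : (4 * a + 5) * (2 * a - 3) ≤ b * (2 * a - 3) :=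
      mul_le_mul_of_nonneg_right h2 (by linarith)
    have f3 : (4 * a + 5) * (2 * a - 3) - 2 * a * a + a + 1 = 6 * (a * a) - a - 14 := by ring
    have f4 : 2 * a ≤ a * a := mul_le_mul_of_nonneg_right ha (by linarith)
    linarith
  have e5 : 1 ≤ K * (c + d - 1) * ((b - a) * (2 * a - 1) - (2 * b - 1)) := by
    have f1 : 1 ≤ K * (c + d - 1) := by
      have := mul_le_mul (by linarith : (1 : ℤ) ≤ K) hD (by norm_num) (by linarith)
      linarith
    have f2 := mul_le_mul f1 e4 (by norm_num) (by linarith)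
    linarith
  have e6 : K * (c + d - 1) * ((b - a) * (2 * a - 1) - (2 * b - 1)) =
      (b - a) * (c + d - 1) * (K * (2 * a - 1)) - K * (c + d - 1) * (2 * b - 1) := by ring
  linarith

theorem ar3 {a b c d K x : ℤ} (ha : 2 ≤ a) (hac : a < c) (hcd : c ≤ d) (hN : c * d = a * b)
    (hK : 2 ≤ K) (hKc : K < c) (h : K * (c + d - K) ≤ a + b - 1) (hx : 1 ≤ x) (hxc : x < c) :
    K * ((c + d - 1) * (a * b + 1) + b - a) + 1 ≤
      (b - a) * (c + d - 1 - K) * ((c - x) * (c - 1 + x)) := by
  obtain ⟨h1, h2⟩ := ar1 ha hac hcd hN hK hKc h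
  have hD : 1 ≤ c + d - 1 := by linarith
  have hba : 0 ≤ b - a := by linarith
  have hDK : 0 ≤ c + d - 1 - K := by linarith
  have e1 : 2 * (c - 1) ≤ (c - x) * (c - 1 + x) := by
    have f1 : (c - x) * (c - 1 + x) = 2 * (c - 1) + (c - 1 - x) * (c - 2 + x) := by ring
    have f2 : 0 ≤ (c - 1 - x) * (c - 2 + x) := mul_nonneg (by linarith) (by linarith)
    linarith
  have e2 : (b - a) * (c + d - 1 - K) * (2 * (K * a)) ≤
      (b - a) * (c + d - 1 - K) * ((c - x) * (c - 1 + x)) :=
    mul_le_mul_of_nonneg_left (by linarith) (mul_nonneg hba hDK)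
  have e3 : (2 * a - 1) * (c + d - 1) + 1 ≤ 2 * a * (c + d - 1 - K) := by
    have f1 : 2 * a * (c + d - 1 - K) = (2 * a - 1) * (c + d - 1) + (c + d - 1) - 2 * (K * a) := by
      ring
    linarith
  have e4 : K * (b - a) * ((2 * a - 1) * (c + d - 1) + 1) ≤
      K * (b - a) * (2 * a * (c + d - 1 - K)) :=
    mul_le_mul_of_nonneg_left e3 (mul_nonneg (by linarith) hba)
  have e5 : K * (b - a) * (2 * a * (c + d - 1 - K)) =
      (b - a) * (c + d - 1 - K) * (2 * (K * a)) := by ring
  have e6 : 1 ≤ (b - a) * (2 * a - 1) - (a * b + 1) := by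
    have f1 : (b - a) * (2 * a - 1) - (a * b + 1) = b * (a - 1) - 2 * (a * a) + a - 1 := by ring
    have f2 : (4 * a + 5) * (a - 1) ≤ b * (a - 1) :=
      mul_le_mul_of_nonneg_right h2 (by linarith)
    have f3 : (4 * a + 5) * (a - 1) = 4 * (a * a) + a - 5 := by ring
    have f4 : 2 * a ≤ a * a := mul_le_mul_of_nonneg_right ha (by linarith)
    linarith
  have e7 : 1 ≤ K * (c + d - 1) * ((b - a) * (2 * a - 1) - (a * b + 1)) := by
    have f1 : 1 ≤ K * (c + d - 1) := by
      have := mul_le_mul (by linarith : (1 : ℤ) ≤ K) hD (by norm_num) (by linarith)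
      linarith
    have f2 := mul_le_mul f1 e6 (by norm_num) (by linarith)
    linarith
  have e8 : K * (c + d - 1) * ((b - a) * (2 * a - 1) - (a * b + 1)) =
      K * (b - a) * ((2 * a - 1) * (c + d - 1) + 1) - K * ((c + d - 1) * (a * b + 1) + b - a) := by
    ring
  linarith

theorem ar4 {a b c d K : ℤ} (ha : 2 ≤ a) (hac : a < c) (hcd : d = c + 1) (hN : c * d = a * b)
    (hK : 2 ≤ K) (hKc : K < c) (h : K * (c + d - K) ≤ a + b - 1) :
    2 * K * (a * b) ≤ (b - a) * (c + d - 1 - K) := by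
  have h1 := Cm4_base ha hN h
  subst hcd
  have e0 : c + (c + 1) - 1 - K = 2 * c - K := by ring
  rw [e0] at h1 ⊢
  have hc3 : 3 ≤ c := by linarith
  have h3a : 3 * a ≤ c := by
    by_contra hcon
    push Not at hcon
    have f1 : (K - 1) * (2 * c - K) = (2 * c - 2) + (K - 2) * (2 * c - K - 1) := by ring
    have f2 : 0 ≤ (K - 2) * (2 * c - K - 1) := mul_nonneg (by linarith) (by linarith)
    have f3 : a * (2 * c - 2) ≤ a * ((K - 1) * (2 * c - K)) :=
      mul_le_mul_of_nonneg_left (by linarith) (by linarith)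
    have f4 : (3 * c - 3 * a) * (3 * c + 3 - 3 * a) ≤ (2 * c - 1) * (2 * c + 2) :=
      mul_le_mul (by linarith) (by linarith) (by linarith) (by linarith)
    have f5 : (3 * c - 3 * a) * (3 * c + 3 - 3 * a) = 9 * ((c - a) * (c + 1 - a)) := by ring
    have f6 : (c + 1) * (6 * c - 6) ≤ (3 * a) * (6 * c - 6) :=
      mul_le_mul_of_nonneg_right (by linarith) (by linarith)
    have f7 : (3 * a) * (6 * c - 6) = 9 * (a * (2 * c - 2)) := by ring
    have f8 : (c + 1) * (6 * c - 6) ≤ (c + 1) * (4 * c - 2) := by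
      have : (2 * c - 1) * (2 * c + 2) = (c + 1) * (4 * c - 2) := by ring
      linarith
    have f9 := le_of_mul_le_mul_left f8 (by linarith)
    linarith
  have h3K : 3 * K ≤ c := by
    by_contra hcon
    push Not at hcon
    have f0 : 0 ≤ (K - 1) * (2 * c - K) := mul_nonneg (by linarith) (by linarith)
    have f1 : 2 * ((K - 1) * (2 * c - K)) ≤ a * ((K - 1) * (2 * c - K)) :=
      mul_le_mul_of_nonneg_right ha f0
    have f2 : (c - a) * (c + 1 - a) ≤ (c - 2) * (c - 1) :=
      mul_le_mul (by linarith) (by linarith) (by linarith) (by linarith)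
    have f3 : 9 * ((K - 1) * (2 * c - K)) = (c - 2) * (5 * c - 1) +
        (3 * K - c - 1) * (5 * c + 2 - 3 * K) := by ring
    have f4 : 0 ≤ (3 * K - c - 1) * (5 * c + 2 - 3 * K) := mul_nonneg (by linarith) (by linarith)
    have f5 : (c - 2) * (10 * c - 2) ≤ (c - 2) * (9 * c - 9) := by
      have g1 : (c - 2) * (10 * c - 2) = 2 * ((c - 2) * (5 * c - 1)) := by ring
      have g2 : (c - 2) * (9 * c - 9) = 9 * ((c - 2) * (c - 1)) := by ring
      linarith
    have f6 := le_of_mul_le_mul_left f5 (by linarith)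
    linarith
  have hKey : 9 * (a * K * (2 * c - K)) ≤ 10 * (c * c) := by
    have f1 : a * K * (2 * c - K) = a * ((K - 1) * (2 * c - K)) + a * (2 * c - K) := by ring
    have f2 : (c - a) * (c + 1 - a) + a * (2 * c - K) = c * c + c + a * (a - 1 - K) := by ring
    have f3 : a * (a - 1 - K) ≤ a * (a - 3) := mul_le_mul_of_nonneg_left (by linarith) (by linarith)
    have f4 : c * (c - 9) = 9 * (a * (a - 3)) + (c - 3 * a) * (c + 3 * a - 9) := by ring
    have f5 : 0 ≤ (c - 3 * a) * (c + 3 * a - 9) := mul_nonneg (by linarith) (by linarith)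
    have f6 : c * (c - 9) = c * c - 9 * c := by ring
    have h1' : a * ((K - 1) * (2 * c - K)) ≤ (c - a) * (c + 1 - a) := h1
    linarith
  have hcc : 0 < c * c := mul_pos (by linarith) (by linarith)
  have g1 : 2 * (c * (c + 1)) * (9 * (a * K * (2 * c - K))) ≤
      2 * (c * (c + 1)) * (10 * (c * c)) :=
    mul_le_mul_of_nonneg_left hKey (by
      have := mul_nonneg (by linarith : 0 ≤ c) (by linarith : 0 ≤ c + 1)
      linarith)
  have g2 : 25 * (c * c) ≤ 9 * ((2 * c - K) * (2 * c - K)) := by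
    have f1 : (5 * c) * (5 * c) ≤ (6 * c - 3 * K) * (6 * c - 3 * K) :=
      mul_le_mul (by linarith) (by linarith) (by linarith) (by linarith)
    have f2 : (6 * c - 3 * K) * (6 * c - 3 * K) = 9 * ((2 * c - K) * (2 * c - K)) := by ring
    have f3 : (5 * c) * (5 * c) = 25 * (c * c) := by ring
    linarith
  have g3 : 8 * (c * c) + 9 * c ≤ 9 * (c * (c + 1) - a * a) := by
    have f1 : (3 * a) * (3 * a) ≤ c * c := mul_le_mul h3a h3a (by linarith) (by linarith)
    have f2 : (3 * a) * (3 * a) = 9 * (a * a) := by ring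
    have f3 : c * (c + 1) = c * c + c := by ring
    linarith
  have g4 : (25 * (c * c)) * (8 * (c * c) + 9 * c) ≤
      (9 * ((2 * c - K) * (2 * c - K))) * (9 * (c * (c + 1) - a * a)) :=
    mul_le_mul g2 g3 (by linarith) (by
      have := mul_nonneg (by linarith : 0 ≤ 2 * c - K) (by linarith : 0 ≤ 2 * c - K)
      linarith)
  have g5 : 9 * (2 * (c * (c + 1)) * (10 * (c * c))) ≤ (25 * (c * c)) * (8 * (c * c) + 9 * c) := by
    have f1 : (25 * (c * c)) * (8 * (c * c) + 9 * c) - 9 * (2 * (c * (c + 1)) * (10 * (c * c))) =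
        (c * c) * (20 * (c * c) + 45 * c) := by ring
    have f2 : 0 ≤ (c * c) * (20 * (c * c) + 45 * c) := mul_nonneg hcc.le (by linarith)
    linarith
  have g6 : (2 * c - K) * (a * (2 * K * (a * b))) ≤ (2 * c - K) * (a * ((b - a) * (2 * c - K))) := by
    have f1 : 81 * ((2 * c - K) * (a * (2 * K * (a * b)))) =
        9 * (2 * (c * (c + 1)) * (9 * (a * K * (2 * c - K)))) := by
      rw [hN]
      ring
    have f2 : (9 * ((2 * c - K) * (2 * c - K))) * (9 * (c * (c + 1) - a * a)) =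
        81 * ((2 * c - K) * (a * ((b - a) * (2 * c - K)))) := by
      rw [hN]
      ring
    linarith
  have g7 := le_of_mul_le_mul_left g6 (by linarith)
  exact le_of_mul_le_mul_left g7 (by linarith)

end GP80

end S_H80_GP_Cm4

section S_H80_GP_Cm2

/-!
# Row Cm2 (MP_87ed0a_GP): weight inequality, nonplanes  (about 120 lines)

* `nonplane_n`: if `dl p ≠ 1` then `n p = g p`: otherwise `tail` gives `m * (c + d - m) ≤ card ≤ 1` with `1 ≤ m = lam p (g p + 1) < c`, but `m (c + d - m) ≥ c + d - 1 ≥ 2` (for `1 ≤ m ≤ c + d - 1`).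
* `card_vt`: `card (vt p) ≤ a + b - 1` for planes: first alternative: subset of a row and a column sharing one point (`a + b - 1` points); second: `card ≤ a`.
* `weight_ineq` (all `p`): `∑_s om p s = ∑_{s ∈ vt p} om p s + (a b - card (vt p)) g p` (`nv`), and
  `∑_{i=1}^n lam i (c + d - lam i) = ∑_{i ≤ g} (c d - (c - lam i)(d - lam i)) + ∑_{g < i ≤ n} ((c + d - 1) + (lam i - 1)(c + d - 1 - lam i))` `= g a b - HH + (n - g)(c + d - 1) + XX`.
-/

namespace GP80

open Finset

theorem nonplane_n {a b c d : ℕ} {P : Type} [Fintype P] {dl g n jj : P → ℕ} {lam : P → ℕ → ℕ}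
    {om : P → Fin a × Fin b → ℕ} {vt : P → Finset (Fin a × Fin b)}
    {oL : P → (Fin a × Fin b) → (Fin a × Fin b) → ℕ} {eF : ℕ}
    (h : CombD a b c d dl g n jj lam om vt oL eF) (p : P) (hp : dl p ≠ 1) : n p = g p := by
  by_contra hne
  have hlt : g p < n p := lt_of_le_of_ne (h.gn p) (fun e => hne e.symm)
  have h1 := h.tail p hlt
  have h2 := h.nonpl p hp
  have h3 := h.pos p (g p + 1) (by omega) (by omega)
  have h4 := h.up p (g p + 1) (by omega)
  have h5 := h.cd
  have h6 := h.a2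
  have h7 := h.ac
  have h8 : 2 ≤ c + d - lam p (g p + 1) := by omega
  have h9 : 1 * 2 ≤ lam p (g p + 1) * (c + d - lam p (g p + 1)) := Nat.mul_le_mul h3 h8
  omega

theorem card_vt {a b c d : ℕ} {P : Type} [Fintype P] {dl g n jj : P → ℕ} {lam : P → ℕ → ℕ}
    {om : P → Fin a × Fin b → ℕ} {vt : P → Finset (Fin a × Fin b)}
    {oL : P → (Fin a × Fin b) → (Fin a × Fin b) → ℕ} {eF : ℕ}
    (h : CombD a b c d dl g n jj lam om vt oL eF) (p : P) (hp : dl p = 1) :
    (vt p).card ≤ a + b - 1 := by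
  classical
  have ha := h.a2
  have hac := h.ac
  have hcd := h.cd
  have hdb := h.db
  rcases h.plane p hp with ⟨l, j, hlj⟩ | hinj
  · have hsub : vt p ⊆ (univ : Finset (Fin b)).image (fun y => (l, y)) ∪
        ((univ : Finset (Fin a)).erase l).image (fun x => (x, j)) := by
      intro s hs
      rw [mem_union, mem_image, mem_image]
      by_cases h1 : s.1 = l
      · left
        exact ⟨s.2, mem_univ _, by rw [← h1]⟩
      · right
        rcases hlj s hs with h2 | h2
        · exact absurd h2 h1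
        · exact ⟨s.1, mem_erase.2 ⟨h1, mem_univ _⟩, by rw [← h2]⟩
    have h1 := card_le_card hsub
    have h2 := card_union_le ((univ : Finset (Fin b)).image (fun y => (l, y)))
      (((univ : Finset (Fin a)).erase l).image (fun x => (x, j)))
    have h3 : ((univ : Finset (Fin b)).image (fun y => (l, y))).card ≤ b := by
      refine le_trans card_image_le ?_
      rw [card_univ, Fintype.card_fin]
    have h4 : (((univ : Finset (Fin a)).erase l).image (fun x => (x, j))).card ≤ a - 1 := by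
      refine le_trans card_image_le ?_
      rw [card_erase_of_mem (mem_univ _), card_univ, Fintype.card_fin]
    omega
  · have h1 : (vt p).card ≤ (univ : Finset (Fin a)).card := by
      refine card_le_card_of_injOn Prod.fst (fun _ _ => mem_coe.2 (mem_univ _)) ?_
      intro s hs s' hs' he
      by_contra hne
      exact (hinj s (mem_coe.1 hs) s' (mem_coe.1 hs') hne).1 he
    rw [card_univ, Fintype.card_fin] at h1
    omega

theorem weight_ineq {a b c d : ℕ} {P : Type} [Fintype P] {dl g n jj : P → ℕ} {lam : P → ℕ → ℕ}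
    {om : P → Fin a × Fin b → ℕ} {vt : P → Finset (Fin a × Fin b)}
    {oL : P → (Fin a × Fin b) → (Fin a × Fin b) → ℕ} {eF : ℕ}
    (h : CombD a b c d dl g n jj lam om vt oL eF) (p : P) :
    (g p : ℤ) * (vt p).card - HHz c d (g p) (lam p) + ((n p : ℤ) - g p) * ((c : ℤ) + d - 1) +
      XXz c d (g p) (n p) (lam p) ≤ ∑ s ∈ vt p, (om p s : ℤ) := by
  classical
  have hgn := h.gn p
  have hsum := h.sum p
  have e0 : ∀ m : ℕ, Icc 1 m = Ioc 0 m := by
    intro m
    ext i
    rw [mem_Icc, mem_Ioc]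
    omega
  have hsplit : ∑ s, (om p s : ℤ) = ∑ s ∈ vt p, (om p s : ℤ) +
      ((a : ℤ) * b - (vt p).card) * g p := by
    rw [← sum_add_sum_compl (vt p)]
    congr 1
    rw [sum_congr rfl (fun s hs => by rw [h.nv p s (mem_compl.1 hs)] : ∀ s ∈ (vt p)ᶜ,
      (om p s : ℤ) = (g p : ℤ)), sum_const, card_compl, nsmul_eq_mul, Fintype.card_prod,
      Fintype.card_fin, Fintype.card_fin, Nat.cast_sub, Nat.cast_mul]
    have h1 := card_le_univ (vt p)
    rw [Fintype.card_prod, Fintype.card_fin, Fintype.card_fin] at h1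
    exact h1
  have hcast : ∀ i, 1 ≤ i → ((lam p i * (c + d - lam p i) : ℕ) : ℤ) =
      (lam p i : ℤ) * ((c : ℤ) + d - lam p i) := by
    intro i hi
    have h1 := h.up p i hi
    rw [Nat.cast_mul, Nat.cast_sub (by omega), Nat.cast_add]
  have hs2 : ∑ i ∈ Ioc 0 (n p), (lam p i : ℤ) * ((c : ℤ) + d - lam p i) ≤ ∑ s, (om p s : ℤ) := by
    have h1 : ((∑ i ∈ Icc 1 (n p), lam p i * (c + d - lam p i) : ℕ) : ℤ) ≤
        ((∑ s, om p s : ℕ) : ℤ) := by exact_mod_cast hsum
    rw [Nat.cast_sum, Nat.cast_sum, e0] at h1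
    rw [sum_congr rfl (fun i hi => hcast i (by
      rw [mem_Ioc] at hi
      omega))] at h1
    exact h1
  rw [← sum_Ioc_consecutive _ (Nat.zero_le (g p)) hgn] at hs2
  have hA : ∑ i ∈ Ioc 0 (g p), (lam p i : ℤ) * ((c : ℤ) + d - lam p i) =
      (g p : ℤ) * ((a : ℤ) * b) - HHz c d (g p) (lam p) := by
    have hN : (c : ℤ) * d = (a : ℤ) * b := by exact_mod_cast h.N
    rw [HHz, e0, ← hN, eq_sub_iff_add_eq, ← sum_add_distrib,
      sum_congr rfl (fun i _ => by ring : ∀ i ∈ Ioc 0 (g p),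
        (lam p i : ℤ) * ((c : ℤ) + d - lam p i) + ((c : ℤ) - lam p i) * ((d : ℤ) - lam p i) =
          (c : ℤ) * d), sum_const, Nat.card_Ioc, nsmul_eq_mul, Nat.sub_zero]
  have hB : ∑ i ∈ Ioc (g p) (n p), (lam p i : ℤ) * ((c : ℤ) + d - lam p i) =
      ((n p : ℤ) - g p) * ((c : ℤ) + d - 1) + XXz c d (g p) (n p) (lam p) := by
    rw [XXz, sum_congr rfl (fun i _ => by ring : ∀ i ∈ Ioc (g p) (n p),
        (lam p i : ℤ) * ((c : ℤ) + d - lam p i) =
          ((c : ℤ) + d - 1) + ((lam p i : ℤ) - 1) * ((c : ℤ) + d - 1 - lam p i)),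
      sum_add_distrib, sum_const, Nat.card_Ioc, nsmul_eq_mul, Nat.cast_sub hgn]
  rw [hA, hB, hsplit] at hs2
  linarith

end GP80

end S_H80_GP_Cm2

section S_H80_GP_Cm3

/-!
# Row Cm3 (MP_87ed0a_GP): the inequality (P)  (about 180 lines)

`N = a b`, `D0 = c + d - 1`, `pl` = the planes (`dl p = 1`), `np` = the others.  `T p = ∑_{s ∈ vt p} om p s`.  Work in `ℤ`.
1. Sum `chord` over the ordered generic pairs `(s, s')` (`s.1 ≠ s'.1`, `s.2 ≠ s'.2`; there are `a b (a-1)(b-1)` of them), exchange sums: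
   `2 N (a-1)(b-1) ≤ ∑_p ∑_pairs om p s * oL + ∑_p jj p ∑_pairs oL`.  Planes: `plane_pairs`.  Nonplanes: `om p s ≤ n p = g p` (`nonplane_n`), `surf`: `≤ g p (a-1) N dl p`.  `jj`: `surf`.  Divide by `a - 1 ≥ 1`:
   `2 N (b-1) ≤ ∑_pl (T p + (b-a) n p) + N ∑_np dl p g p + N ∑_p dl p jj p`.
2. Sum `G1` over the `N` points: `∑_p dl p ∑_s om p s = N D0 + N ∑_p dl p g p`.  Planes: `∑_s om p s = T p + (N - card vt) g p`.  Nonplanes: `∑_s om p s ≥ (N - 1) g p` (`nv`, `nonpl`).  Hence
   `∑_pl T p ≤ N D0 + ∑_pl card(vt p) g p + ∑_np dl p g p`.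
3. `weight_ineq`: `D0 n p ≤ T p - g p card(vt p) + HH p + g p D0 - XX p`.
4. `D0` times 1., insert 3. multiplied by `(b - a) ≥ 0`, then 2. multiplied by `D0` and by `(b-a)`:
   `2 N (b-1) D0 ≤ D0 ∑_pl T + (b-a) [∑_pl T - ∑_pl g card + ∑_pl HH + D0 ∑_pl g - ∑_pl XX] + N D0 ∑_np dl g + N D0 ∑ dl jj`
   `≤ D0 (N D0 + ∑_pl card g + ∑_np dl g) + (b-a)(N D0 + ∑_np dl g) + (b-a)(∑_pl HH + D0 ∑_pl g - ∑_pl XX) + N D0 ∑_np dl g + N D0 ∑ dl jj`,
   which is the claim, since `2(b-1) - D0 - (b-a) = a + b - c - d - 1`.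
-/

namespace GP80

open Finset

theorem Cm3_count {a b : ℕ} (s : Fin a × Fin b) :
    (univ.filter (fun s' : Fin a × Fin b => s.1 ≠ s'.1 ∧ s.2 ≠ s'.2)).card =
      (a - 1) * (b - 1) := by
  have h : univ.filter (fun s' : Fin a × Fin b => s.1 ≠ s'.1 ∧ s.2 ≠ s'.2) =
      (univ.erase s.1) ×ˢ (univ.erase s.2) := by
    ext ⟨x, y⟩
    simp only [mem_filter, mem_univ, true_and, mem_product, mem_erase, and_true]
    constructor
    · rintro ⟨h1, h2⟩
      exact ⟨fun e => h1 e.symm, fun e => h2 e.symm⟩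
    · rintro ⟨h1, h2⟩
      exact ⟨fun e => h1 e.symm, fun e => h2 e.symm⟩
  rw [h, card_product, card_erase_of_mem (mem_univ _), card_erase_of_mem (mem_univ _),
    card_univ, card_univ, Fintype.card_fin, Fintype.card_fin]

theorem Cm3_swap {α P : Type} [Fintype α] [Fintype P] (R : α → α → Prop)
    [∀ s s', Decidable (R s s')] (F : P → α → α → ℕ) :
    ∑ s, ∑ s', (if R s s' then ∑ p, F p s s' else 0) =
      ∑ p, ∑ s, ∑ s', (if R s s' then F p s s' else 0) := by
  symm
  rw [Finset.sum_comm]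
  refine sum_congr rfl fun s _ => ?_
  rw [Finset.sum_comm]
  refine sum_congr rfl fun s' _ => ?_
  split_ifs with h
  · rfl
  · exact sum_const_zero

theorem Cm3_split {α : Type} [Fintype α] (R : α → α → Prop)
    [∀ s s', Decidable (R s s')] (o : α → ℕ) (j : ℕ) (F : α → α → ℕ) :
    ∑ s, ∑ s', (if R s s' then (o s + j) * F s s' else 0) =
      ∑ s, ∑ s', (if R s s' then o s * F s s' else 0) +
        j * ∑ s, ∑ s', (if R s s' then F s s' else 0) := by
  rw [mul_sum, ← sum_add_distrib]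
  refine sum_congr rfl fun s _ => ?_
  rw [mul_sum, ← sum_add_distrib]
  refine sum_congr rfl fun s' _ => ?_
  split_ifs with h
  · ring
  · simp

theorem Cm3_bd {α : Type} [Fintype α] (R : α → α → Prop)
    [∀ s s', Decidable (R s s')] (o : α → ℕ) (j : ℕ) (ho : ∀ s, o s ≤ j) (F : α → α → ℕ) :
    ∑ s, ∑ s', (if R s s' then o s * F s s' else 0) ≤
        j * ∑ s, ∑ s', (if R s s' then F s s' else 0) := by
  rw [mul_sum]
  refine sum_le_sum fun s _ => ?_
  rw [mul_sum]
  refine sum_le_sum fun s' _ => ?_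
  split_ifs with h
  · exact Nat.mul_le_mul_right _ (ho s)
  · simp

theorem Cm3_one {a b c d : ℕ} {P : Type} [Fintype P] {dl g n jj : P → ℕ} {lam : P → ℕ → ℕ}
    {om : P → Fin a × Fin b → ℕ} {vt : P → Finset (Fin a × Fin b)}
    {oL : P → (Fin a × Fin b) → (Fin a × Fin b) → ℕ} {eF : ℕ}
    (h : CombD a b c d dl g n jj lam om vt oL eF) :
    2 * (a * b) * (b - 1) ≤
      (∑ p ∈ univ.filter (fun p => dl p = 1), (∑ s ∈ vt p, om p s + (b - a) * n p)) +
      (a * b) * ∑ p ∈ univ.filter (fun p => ¬ dl p = 1), dl p * g p +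
      (a * b) * ∑ p, dl p * jj p := by
  have h1 : ∑ s : Fin a × Fin b, ∑ s' : Fin a × Fin b,
      (if s.1 ≠ s'.1 ∧ s.2 ≠ s'.2 then 2 else 0) ≤
      ∑ s : Fin a × Fin b, ∑ s' : Fin a × Fin b,
        (if s.1 ≠ s'.1 ∧ s.2 ≠ s'.2 then ∑ p, (om p s + jj p) * oL p s s' else 0) := by
    refine sum_le_sum fun s _ => sum_le_sum fun s' _ => ?_
    split_ifs with hh
    · exact h.chord s s' hh.1 hh.2
    · exact le_rfl
  have h2 : ∑ s : Fin a × Fin b, ∑ s' : Fin a × Fin b,
      (if s.1 ≠ s'.1 ∧ s.2 ≠ s'.2 then 2 else 0) = (a - 1) * (2 * (a * b) * (b - 1)) := by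
    have h3 : ∀ s : Fin a × Fin b, ∑ s' : Fin a × Fin b,
      (if s.1 ≠ s'.1 ∧ s.2 ≠ s'.2 then 2 else 0) = ((a - 1) * (b - 1)) * 2 := by
      intro s
      rw [← sum_filter, sum_const, Cm3_count, smul_eq_mul]
    rw [sum_congr rfl fun s _ => h3 s, sum_const, card_univ, Fintype.card_prod, Fintype.card_fin,
      Fintype.card_fin, smul_eq_mul]
    ring
  rw [h2, Cm3_swap (fun s s' : Fin a × Fin b => s.1 ≠ s'.1 ∧ s.2 ≠ s'.2)
    (fun p s s' => (om p s + jj p) * oL p s s')] at h1
  have h4 : ∀ p ∈ (univ : Finset P), ∑ s : Fin a × Fin b, ∑ s' : Fin a × Fin b,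
      (if s.1 ≠ s'.1 ∧ s.2 ≠ s'.2 then (om p s + jj p) * oL p s s' else 0) ≤
      (a - 1) * ((if dl p = 1 then (∑ s ∈ vt p, om p s + (b - a) * n p) else
        (a * b) * (dl p * g p)) + (a * b) * (dl p * jj p)) := by
    intro p _
    rw [Cm3_split (fun s s' : Fin a × Fin b => s.1 ≠ s'.1 ∧ s.2 ≠ s'.2), mul_add]
    refine add_le_add ?_ ?_
    · split_ifs with hp
      · exact plane_pairs h p hp
      · refine (Cm3_bd (fun s s' : Fin a × Fin b => s.1 ≠ s'.1 ∧ s.2 ≠ s'.2) (om p) (g p)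
          (fun s => (h.omn p s).trans (nonplane_n h p hp).le) (oL p)).trans ?_
        calc g p * _ ≤ g p * ((a - 1) * (a * b) * dl p) := Nat.mul_le_mul_left _ (h.surf p)
          _ = _ := by ring
    · calc jj p * _ ≤ jj p * ((a - 1) * (a * b) * dl p) := Nat.mul_le_mul_left _ (h.surf p)
        _ = _ := by ring
  have h5 := h1.trans (sum_le_sum h4)
  rw [← mul_sum] at h5
  have ha := h.a2
  have h6 := Nat.le_of_mul_le_mul_left h5 (by omega)
  rwa [sum_add_distrib, sum_ite, ← mul_sum, ← mul_sum] at h6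

theorem Cm3_two {a b c d : ℕ} {P : Type} [Fintype P] {dl g n jj : P → ℕ} {lam : P → ℕ → ℕ}
    {om : P → Fin a × Fin b → ℕ} {vt : P → Finset (Fin a × Fin b)}
    {oL : P → (Fin a × Fin b) → (Fin a × Fin b) → ℕ} {eF : ℕ}
    (h : CombD a b c d dl g n jj lam om vt oL eF) :
    ∑ p ∈ univ.filter (fun p => dl p = 1), ∑ s ∈ vt p, (om p s : ℤ) ≤
      ((a : ℤ) * b) * (c + d - 1) +
      ∑ p ∈ univ.filter (fun p => dl p = 1), (g p : ℤ) * (vt p).card +
      ∑ p ∈ univ.filter (fun p => ¬ dl p = 1), (dl p : ℤ) * g p := by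
  have h1 : ∑ s : Fin a × Fin b, (∑ p, (dl p : ℤ) * om p s + 1) =
      ∑ s : Fin a × Fin b, ((c : ℤ) + d + ∑ p, (dl p : ℤ) * g p) := by
    refine sum_congr rfl fun s _ => ?_
    have h2 := h.G1 s
    exact_mod_cast h2
  rw [sum_add_distrib, sum_const, sum_const, card_univ, Fintype.card_prod, Fintype.card_fin,
    Fintype.card_fin, Finset.sum_comm] at h1
  have h2 : ∀ p, ∑ s, (om p s : ℤ) =
      ∑ s ∈ vt p, (om p s : ℤ) + ((a : ℤ) * b - (vt p).card) * g p := by
    intro p
    rw [← Finset.sum_add_sum_compl (vt p)]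
    congr 1
    have h3 : ∑ s ∈ (vt p)ᶜ, (om p s : ℤ) = ∑ s ∈ (vt p)ᶜ, (g p : ℤ) := by
      refine sum_congr rfl fun s hs => ?_
      rw [h.nv p s (mem_compl.1 hs)]
    have h4 : (vt p).card ≤ a * b := by
      have h5 := card_le_univ (vt p)
      rwa [Fintype.card_prod, Fintype.card_fin, Fintype.card_fin] at h5
    rw [h3, sum_const, card_compl, Fintype.card_prod, Fintype.card_fin, Fintype.card_fin,
      nsmul_eq_mul, Nat.cast_sub h4, Nat.cast_mul]
  have h3 : ∀ p ∈ (univ : Finset P),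
      (if dl p = 1 then ∑ s ∈ vt p, (om p s : ℤ) - (g p : ℤ) * (vt p).card else
        - ((dl p : ℤ) * g p)) ≤
      ∑ s, (dl p : ℤ) * om p s - ((a : ℤ) * b) * ((dl p : ℤ) * g p) := by
    intro p _
    rw [← mul_sum, h2 p]
    split_ifs with hp
    · rw [hp]
      push_cast
      linarith
    · have h4 : (0 : ℤ) ≤ ∑ s ∈ vt p, (om p s : ℤ) := sum_nonneg fun s _ => Int.natCast_nonneg _
      have h5 : ((vt p).card : ℤ) ≤ 1 := by exact_mod_cast h.nonpl p hp
      have h6 : (0 : ℤ) ≤ (dl p : ℤ) := Int.natCast_nonneg _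
      have h7 : (0 : ℤ) ≤ (g p : ℤ) := Int.natCast_nonneg _
      have h8 := mul_nonneg h6 h4
      have h9 := mul_le_mul_of_nonneg_left h5 (mul_nonneg h6 h7)
      linarith
  have h4 := sum_le_sum h3
  rw [sum_ite, sum_sub_distrib, sum_sub_distrib, ← mul_sum] at h4
  rw [sum_neg_distrib] at h4
  rw [nsmul_eq_mul, nsmul_eq_mul, Nat.cast_mul] at h1
  linarith

theorem P_ineq {a b c d : ℕ} {P : Type} [Fintype P] {dl g n jj : P → ℕ} {lam : P → ℕ → ℕ}
    {om : P → Fin a × Fin b → ℕ} {vt : P → Finset (Fin a × Fin b)}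
    {oL : P → (Fin a × Fin b) → (Fin a × Fin b) → ℕ} {eF : ℕ}
    (h : CombD a b c d dl g n jj lam om vt oL eF) :
    ((c : ℤ) + d - 1) * (a * b) * ((a : ℤ) + b - c - d - 1) +
        ((b : ℤ) - a) * ∑ p ∈ univ.filter (fun p => dl p = 1), XXz c d (g p) (n p) (lam p) ≤
      ((c : ℤ) + d - 1) * (a * b) * ∑ p, (dl p : ℤ) * jj p +
      ((c : ℤ) + d - 1) * ∑ p ∈ univ.filter (fun p => dl p = 1), (g p : ℤ) * ((vt p).card + b - a) +
      ((b : ℤ) - a) * ∑ p ∈ univ.filter (fun p => dl p = 1), HHz c d (g p) (lam p) +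
      ∑ p ∈ univ.filter (fun p => dl p ≠ 1), (dl p : ℤ) * g p *
        (((c : ℤ) + d - 1) * (a * b + 1) + b - a) := by
  have ha := h.ac
  have hc := h.cd
  have hb := h.db
  have h2a := h.a2
  have e1 := Cm3_one h
  have e2 := Cm3_two h
  have e3 : ∀ p ∈ univ.filter (fun p => dl p = 1), ((c : ℤ) + d - 1) * (n p : ℤ) ≤
      (∑ s ∈ vt p, (om p s : ℤ)) - (g p : ℤ) * (vt p).card + HHz c d (g p) (lam p) +
        ((c : ℤ) + d - 1) * g p - XXz c d (g p) (n p) (lam p) := by
    intro p _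
    have h1 := weight_ineq h p
    linarith
  have e4 := sum_le_sum e3
  rw [← mul_sum, sum_sub_distrib, sum_add_distrib, sum_add_distrib, sum_sub_distrib,
    ← mul_sum] at e4
  have e5 : (2 : ℤ) * (a * b) * ((b : ℤ) - 1) ≤
      (∑ p ∈ univ.filter (fun p => dl p = 1), ∑ s ∈ vt p, (om p s : ℤ)) +
        ((b : ℤ) - a) * (∑ p ∈ univ.filter (fun p => dl p = 1), (n p : ℤ)) +
      (a * b) * ∑ p ∈ univ.filter (fun p => ¬ dl p = 1), (dl p : ℤ) * g p +
      (a * b) * ∑ p, (dl p : ℤ) * jj p := by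
    rw [sum_add_distrib, ← mul_sum] at e1
    have h1 : ((b - 1 : ℕ) : ℤ) = (b : ℤ) - 1 := by
      rw [Nat.cast_sub (by omega)]
      rfl
    have h2 : ((b - a : ℕ) : ℤ) = (b : ℤ) - a := Nat.cast_sub (by omega)
    rw [← h1, ← h2]
    exact_mod_cast e1
  have e6 : ∑ p ∈ univ.filter (fun p => dl p = 1), (g p : ℤ) * ((vt p).card + b - a) =
      ∑ p ∈ univ.filter (fun p => dl p = 1), (g p : ℤ) * (vt p).card +
        ((b : ℤ) - a) * ∑ p ∈ univ.filter (fun p => dl p = 1), (g p : ℤ) := by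
    rw [mul_sum, ← sum_add_distrib]
    refine sum_congr rfl fun p _ => ?_
    ring
  have e7 : ∑ p ∈ univ.filter (fun p => dl p ≠ 1), (dl p : ℤ) * g p *
        (((c : ℤ) + d - 1) * (a * b + 1) + b - a) =
      (∑ p ∈ univ.filter (fun p => ¬ dl p = 1), (dl p : ℤ) * g p) *
        (((c : ℤ) + d - 1) * (a * b + 1) + b - a) := by
    rw [sum_mul]
  rw [e6, e7]
  have hD : (0 : ℤ) ≤ (c : ℤ) + d - 1 := by omega
  have hba : (0 : ℤ) ≤ (b : ℤ) - a := by omega
  have f1 := mul_le_mul_of_nonneg_left e5 hD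
  have f2 := mul_le_mul_of_nonneg_left e2 (add_nonneg hD hba)
  have f3 := mul_le_mul_of_nonneg_left e4 hba
  generalize (∑ p ∈ univ.filter (fun p => dl p = 1), ∑ s ∈ vt p, (om p s : ℤ)) = ST at *
  generalize (∑ p ∈ univ.filter (fun p => dl p = 1), (n p : ℤ)) = Sn at *
  generalize (∑ p ∈ univ.filter (fun p => ¬ dl p = 1), (dl p : ℤ) * g p) = G' at *
  generalize (∑ p, (dl p : ℤ) * jj p) = J at *
  generalize (∑ p ∈ univ.filter (fun p => dl p = 1), (g p : ℤ) * (vt p).card) = Scg at *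
  generalize (∑ p ∈ univ.filter (fun p => dl p = 1), (g p : ℤ)) = Sg at *
  generalize (∑ p ∈ univ.filter (fun p => dl p = 1), HHz c d (g p) (lam p)) = SH at *
  generalize (∑ p ∈ univ.filter (fun p => dl p = 1), XXz c d (g p) (n p) (lam p)) = SX at *
  nlinarith [f1, f2, f3]

end GP80

end S_H80_GP_Cm3

section S_H80_GP_Ord

/-!
# Row Ord (MP_87ed0a_GP): the order of vanishing along a line  (about 200 lines)

`lineH z z' h = h(s z + t z' + ε w)` with variables `s, t` (`X (inl 0)`, `X (inl 1)`), `w_l` (`X (inr l)`), a polynomial in `ε`; `ordL z z' h` its trailing degree.  No hypothesis on `z, z'` unless stated.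
* `lineH_injective`: substituting `s = t = 0`, `ε = 1`, `w_l = P_l` gives back `h`.
* `ordL_mul`, `ordL_pow`, `ordL_prod`, `ordL_C`: `Polynomial.natTrailingDegree_mul` (domain), nonzero by injectivity.
* `pL_iff`: `h ∈ pL z z'` iff `h = 0 ∨ 1 ≤ ordL z z' h`: the coefficient of `ε^0` of `lineH h` is `h(s z + t z')` (as a polynomial in `s, t`; `MvPolynomial (Fin 2)` embedded by `rename inl` in `MvPolynomial (Fin 2 ⊕ Fin 4)`).
* `ordL_sq`: `h ∈ pL^2`, `h ≠ 0` implies `2 ≤ ordL h` (`pL` maps into the ideal `(ε)`, so `pL^2` into `(ε^2)`; `X^2 ∣ p` and `p ≠ 0` gives trailing degree `≥ 2`, `Polynomial.X_pow_dvd_iff`/`le_natTrailingDegree`).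
* `ordL_lin`: `z, z'` arbitrary, `h` homogeneous of degree 1, `h ≠ 0`: `lineH h = s h(z) + t h(z') + ε h(w)`; so `ordL h = 1` if `h(z) = h(z') = 0`, and `0` otherwise.
* `ordL_le`: `h` homogeneous of degree `δ`, `h ≠ 0`: `ordL h ≤ δ` (the degree in `ε` of `lineH h` is `≤ δ`).
* `vertex`: `π` a homogeneous prime of degree `≥ 2`, `z, z'` linearly independent: not both `dz z π = 0` and `dz z' π = 0`.  Proof: otherwise `π(p + a z + b z') = π(p)` for all `p, a, b` (Taylor, characteristic 0: the polynomial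
  `a ↦ π(p + a z)` has derivative `(dz z π)(p + a z) = 0`).  Choose a basis `z, z', e, e'` of `ℂ^4` with dual basis `α, α', η, η'` (linear forms); then `π(p) = π(η(p) e + η'(p) e') = q(η(p), η'(p))` with `q` a binary form of degree `δ ≥ 2` over
  `ℂ`; `q` has a linear factor (algebraically closed: binary forms have zeros `(x0 : y0)`, and then `y0 X - x0 Y ∣ q`), so the nonzero linear form `y0 η - x0 η'` divides `π`, of degree `1 < δ`: contradiction with primality (irreducibility).
-/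

namespace GP80

open MvPolynomial

theorem Ord_lineH_C (z z' : Fin 4 → ℂ) (a : ℂ) :
    lineH z z' (C a) = Polynomial.C (C a) := by
  rw [lineH, coe_eval₂Hom, eval₂_C]
  rfl

theorem Ord_lineH_X (z z' : Fin 4 → ℂ) (i : Fin 4) :
    lineH z z' (X i) = Polynomial.C (X (Sum.inl 0) * C (z i) + X (Sum.inl 1) * C (z' i)) +
      Polynomial.X * Polynomial.C (X (Sum.inr i)) := by
  rw [lineH, coe_eval₂Hom, eval₂_X]

theorem lineH_injective (z z' : Fin 4 → ℂ) : Function.Injective (lineH z z') := by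
  obtain ⟨σ, hσ⟩ : ∃ σ : MvPolynomial (Fin 2 ⊕ Fin 4) ℂ →+* RR,
      σ = eval₂Hom (C : ℂ →+* RR) (Sum.elim (fun _ => 0) X) := ⟨_, rfl⟩
  have hσC : ∀ a, σ (C a) = C a := by
    intro a
    rw [hσ, coe_eval₂Hom, eval₂_C]
  have hσl : ∀ j, σ (X (Sum.inl j)) = 0 := by
    intro j
    rw [hσ, coe_eval₂Hom, eval₂_X]
    rfl
  have hσr : ∀ j, σ (X (Sum.inr j)) = X j := by
    intro j
    rw [hσ, coe_eval₂Hom, eval₂_X]
    rfl
  have h : (Polynomial.eval₂RingHom σ 1).comp (lineH z z') = RingHom.id RR := by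
    apply MvPolynomial.ringHom_ext
    · intro a
      rw [RingHom.comp_apply, Ord_lineH_C, Polynomial.coe_eval₂RingHom, Polynomial.eval₂_C, hσC]
      rfl
    · intro i
      rw [RingHom.comp_apply, Ord_lineH_X, Polynomial.coe_eval₂RingHom, Polynomial.eval₂_add,
        Polynomial.eval₂_mul, Polynomial.eval₂_C, Polynomial.eval₂_C, Polynomial.eval₂_X,
        map_add, map_mul, map_mul, hσl, hσl, hσr]
      simp
  intro a b hab
  have h2 := congrArg (Polynomial.eval₂RingHom σ 1) hab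
  have h3 := RingHom.congr_fun h a
  have h4 := RingHom.congr_fun h b
  rw [RingHom.comp_apply] at h3 h4
  rw [h3, h4] at h2
  exact h2

theorem Ord_ne (z z' : Fin 4 → ℂ) {h : RR} (hh : h ≠ 0) : lineH z z' h ≠ 0 := by
  intro h0
  apply hh
  apply lineH_injective z z'
  rw [h0, map_zero]

theorem ordL_mul (z z' : Fin 4 → ℂ) {g h : RR} (hg : g ≠ 0) (hh : h ≠ 0) :
    ordL z z' (g * h) = ordL z z' g + ordL z z' h := by
  rw [ordL, ordL, ordL, map_mul, Polynomial.natTrailingDegree_mul (Ord_ne z z' hg) (Ord_ne z z' hh)]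

theorem Ord_C (z z' : Fin 4 → ℂ) (u : ℂ) : ordL z z' (C u) = 0 := by
  rw [ordL, Ord_lineH_C, Polynomial.natTrailingDegree_C]

theorem Ord_pow (z z' : Fin 4 → ℂ) {g : RR} (hg : g ≠ 0) (n : ℕ) :
    ordL z z' (g ^ n) = n * ordL z z' g := by
  induction n with
  | zero =>
    rw [pow_zero, zero_mul, ← C_1]
    exact Ord_C z z' 1
  | succ n ih =>
    rw [pow_succ, ordL_mul z z' (pow_ne_zero n hg) hg, ih]
    ring

theorem ordL_prod (z z' : Fin 4 → ℂ) (T : Finset RR) (hT : ∀ π ∈ T, π ≠ 0) (m : RR → ℕ) {u : ℂ}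
    (hu : u ≠ 0) : ordL z z' (C u * ∏ π ∈ T, π ^ m π) = ∑ π ∈ T, m π * ordL z z' π := by
  classical
  have hCu : (C u : RR) ≠ 0 := by
    intro h
    exact hu (C_injective (Fin 4) ℂ (by rw [h, C_0]))
  induction T using Finset.induction_on with
  | empty =>
    rw [Finset.prod_empty, mul_one, Finset.sum_empty]
    exact Ord_C z z' u
  | insert a s ha ih =>
    rw [Finset.prod_insert ha, Finset.sum_insert ha]
    have ha0 : a ≠ 0 := hT a (Finset.mem_insert_self a s)
    have hs : ∀ π ∈ s, π ≠ 0 := fun π hπ => hT π (Finset.mem_insert_of_mem hπ)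
    have h1 : C u * (a ^ m a * ∏ π ∈ s, π ^ m π) = a ^ m a * (C u * ∏ π ∈ s, π ^ m π) := by ring
    have h2 : C u * ∏ π ∈ s, π ^ m π ≠ 0 :=
      mul_ne_zero hCu (Finset.prod_ne_zero_iff.mpr (fun π hπ => pow_ne_zero _ (hs π hπ)))
    rw [h1, ordL_mul z z' (pow_ne_zero _ ha0) h2, Ord_pow z z' ha0, ih hs]

theorem Ord_coeff0 (z z' : Fin 4 → ℂ) (h : RR) :
    (lineH z z' h).coeff 0 = rename (Sum.inl : Fin 2 → Fin 2 ⊕ Fin 4)
      ((eval₂Hom (C : ℂ →+* MvPolynomial (Fin 2) ℂ) (fun i => X 0 * C (z i) + X 1 * C (z' i)) :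
        RR →+* MvPolynomial (Fin 2) ℂ) h) := by
  have h1 : (Polynomial.constantCoeff).comp (lineH z z') =
      ((rename (Sum.inl : Fin 2 → Fin 2 ⊕ Fin 4) :
        MvPolynomial (Fin 2) ℂ →ₐ[ℂ] MvPolynomial (Fin 2 ⊕ Fin 4) ℂ).toRingHom).comp
      (eval₂Hom (C : ℂ →+* MvPolynomial (Fin 2) ℂ) (fun i => X 0 * C (z i) + X 1 * C (z' i)) :
        RR →+* MvPolynomial (Fin 2) ℂ) := by
    apply MvPolynomial.ringHom_ext
    · intro a
      rw [RingHom.comp_apply, RingHom.comp_apply, Ord_lineH_C, coe_eval₂Hom, eval₂_C]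
      simp
    · intro i
      rw [RingHom.comp_apply, RingHom.comp_apply, Ord_lineH_X, coe_eval₂Hom, eval₂_X]
      simp
  exact RingHom.congr_fun h1 h

theorem Ord_mem (z z' : Fin 4 → ℂ) (h : RR) : h ∈ pL z z' ↔ (lineH z z' h).coeff 0 = 0 := by
  rw [Ord_coeff0, pL, RingHom.mem_ker]
  constructor
  · intro h1
    rw [h1, map_zero]
  · intro h1
    apply rename_injective (Sum.inl : Fin 2 → Fin 2 ⊕ Fin 4) Sum.inl_injective
    rw [h1, map_zero]

theorem pL_iff (z z' : Fin 4 → ℂ) (h : RR) : h ∈ pL z z' ↔ h = 0 ∨ 1 ≤ ordL z z' h := by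
  rw [Ord_mem]
  by_cases h0 : h = 0
  · subst h0
    simp
  · have hne := Ord_ne z z' h0
    rw [ordL, Nat.one_le_iff_ne_zero, Ne, Polynomial.natTrailingDegree_eq_zero]
    constructor
    · intro h1
      right
      rintro (h2 | h2)
      · exact hne h2
      · exact h2 h1
    · rintro (h1 | h1)
      · exact absurd h1 h0
      · by_contra h2
        exact h1 (Or.inr h2)

theorem ordL_sq (z z' : Fin 4 → ℂ) {h : RR} (hh : h ∈ pL z z' ^ 2) (h0 : h ≠ 0) :
    2 ≤ ordL z z' h := by
  have h1 : pL z z' ≤ Ideal.comap (lineH z z')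
      (Ideal.span {(Polynomial.X : Polynomial (MvPolynomial (Fin 2 ⊕ Fin 4) ℂ))}) := by
    intro g hg
    rw [Ideal.mem_comap, Ideal.mem_span_singleton, Polynomial.X_dvd_iff]
    exact (Ord_mem z z' g).mp hg
  have h2 := Ideal.le_comap_pow (lineH z z') 2 (Ideal.pow_right_mono h1 2 hh)
  rw [Ideal.mem_comap, Ideal.span_singleton_pow, Ideal.mem_span_singleton,
    Polynomial.X_pow_dvd_iff] at h2
  exact Polynomial.le_natTrailingDegree (Ord_ne z z' h0) h2

theorem ordL_le (z z' : Fin 4 → ℂ) {h : RR} {δ : ℕ} (hh : h.IsHomogeneous δ) (h0 : h ≠ 0) :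
    ordL z z' h ≤ δ := by
  refine (Polynomial.natTrailingDegree_le_natDegree _).trans ?_
  rw [lineH, coe_eval₂Hom, eval₂_eq']
  apply Polynomial.natDegree_sum_le_of_forall_le
  intro d hd
  refine (Polynomial.natDegree_C_mul_le _ _).trans ?_
  refine (Polynomial.natDegree_prod_le _ _).trans ?_
  have h2 : ∑ i, d i = δ := by
    have h1 : d.weight 1 = δ := hh (mem_support_iff.mp hd)
    rw [← h1]
    simp [Finsupp.weight_apply, Finsupp.sum_fintype]
  rw [← h2]
  apply Finset.sum_le_sum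
  intro i _
  refine Polynomial.natDegree_pow_le.trans ?_
  have h3 : (Polynomial.C (X (Sum.inl 0) * C (z i) + X (Sum.inl 1) * C (z' i)) +
      Polynomial.X * Polynomial.C (X (Sum.inr i)) :
        Polynomial (MvPolynomial (Fin 2 ⊕ Fin 4) ℂ)).natDegree ≤ 1 := by
    refine (Polynomial.natDegree_add_le _ _).trans ?_
    rw [Polynomial.natDegree_C]
    apply max_le (by omega)
    rw [mul_comm]
    exact (Polynomial.natDegree_C_mul_le _ _).trans Polynomial.natDegree_X_le
  calc d i * _ ≤ d i * 1 := Nat.mul_le_mul_left _ h3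
    _ = d i := mul_one _

theorem Ord_linrep {h : RR} (hh : h.IsHomogeneous 1) : ∃ a : Fin 4 → ℂ, h = ∑ i, C (a i) * X i := by
  have h1 := hh.sum_X_mul_pderiv
  have h2 : ∀ i, ∃ a : ℂ, pderiv i h = C a := by
    intro i
    have h3 : (pderiv i h).IsHomogeneous (1 - 1) := hh.pderiv
    have h4 : (pderiv i h).totalDegree = 0 := Nat.le_zero.mp h3.totalDegree_le
    exact ⟨_, totalDegree_eq_zero_iff_eq_C.mp h4⟩
  choose a ha using h2
  refine ⟨a, ?_⟩
  rw [one_smul] at h1
  rw [← h1]
  apply Finset.sum_congr rfl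
  intro i _
  rw [ha, mul_comm]

theorem ordL_lin (z z' : Fin 4 → ℂ) {h : RR} (hh : h.IsHomogeneous 1) (h0 : h ≠ 0) :
    ordL z z' h = if eval z h = 0 ∧ eval z' h = 0 then 1 else 0 := by
  classical
  have hle := ordL_le z z' hh h0
  have hmem : h ∈ pL z z' ↔ (eval z h = 0 ∧ eval z' h = 0) := by
    obtain ⟨a, ha⟩ := Ord_linrep hh
    have he : ∀ x : Fin 4 → ℂ, eval x h = ∑ i, a i * x i := by
      intro x
      rw [ha]
      simp
    have hev : (eval₂Hom (C : ℂ →+* MvPolynomial (Fin 2) ℂ) (fun i => X 0 * C (z i) + X 1 * C (z' i)) :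
        RR →+* MvPolynomial (Fin 2) ℂ) h = X 0 * C (eval z h) + X 1 * C (eval z' h) := by
      rw [he, he, ha, map_sum, map_sum, map_sum, Finset.mul_sum, Finset.mul_sum,
        ← Finset.sum_add_distrib]
      apply Finset.sum_congr rfl
      intro i _
      rw [map_mul, coe_eval₂Hom, eval₂_C, eval₂_X, C_mul, C_mul]
      ring
    rw [pL, RingHom.mem_ker, hev]
    constructor
    · intro h1
      constructor
      · have h2 := congrArg (eval (fun i : Fin 2 => if i = 0 then (1 : ℂ) else 0)) h1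
        simpa using h2
      · have h2 := congrArg (eval (fun i : Fin 2 => if i = 0 then (0 : ℂ) else 1)) h1
        simpa using h2
    · rintro ⟨h1, h2⟩
      rw [h1, h2]
      simp
  have h5 := pL_iff z z' h
  rw [hmem] at h5
  split_ifs with hc
  · rcases h5.mp hc with h6 | h6
    · exact absurd h6 h0
    · omega
  · by_contra h6
    exact hc (h5.mpr (Or.inr (by omega)))

theorem Ord_dzC (v : Fin 4 → ℂ) (a : ℂ) : dz v (C a) = 0 := by
  rw [← MvPolynomial.algebraMap_eq]
  exact Derivation.map_algebraMap _ _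

theorem dz_lin (z : Fin 4 → ℂ) {h : RR} (hh : h.IsHomogeneous 1) : dz z h = C (eval z h) := by
  obtain ⟨a, ha⟩ := Ord_linrep hh
  have he : eval z h = ∑ i, a i * z i := by
    rw [ha]
    simp
  rw [he, ha, map_sum, map_sum]
  apply Finset.sum_congr rfl
  intro i _
  rw [Derivation.leibniz, Ord_dzC, smul_zero, add_zero, smul_eq_mul, dz, mkDerivation_X, C_mul]

theorem Ord_scale {m : ℕ} {F : RR} (hF : F.IsHomogeneous m) (c : ℂ) (v : Fin 4 → ℂ) :
    eval (c • v) F = c ^ m * eval v F := by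
  rw [eval_eq', eval_eq', Finset.mul_sum]
  apply Finset.sum_congr rfl
  intro e he
  have h1 : e.weight 1 = m := hF (mem_support_iff.mp he)
  have h2 : ∑ i, e i = m := by
    rw [← h1]
    simp [Finsupp.weight_apply, Finsupp.sum_fintype]
  have h3 : ∏ i, (c • v) i ^ e i = c ^ m * ∏ i, v i ^ e i := by
    simp only [Pi.smul_apply, smul_eq_mul, mul_pow]
    rw [Finset.prod_mul_distrib, Finset.prod_pow_eq_pow_sum, h2]
  rw [h3]
  ring

/-- restriction to the line `p + T v`. -/
noncomputable def Ord_u (p v : Fin 4 → ℂ) : RR →ₐ[ℂ] Polynomial ℂ :=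
  aeval (fun i => Polynomial.C (p i) + Polynomial.C (v i) * Polynomial.X)

theorem Ord_u_eval (p v : Fin 4 → ℂ) (F : RR) (T : ℂ) :
    (Ord_u p v F).eval T = eval (p + T • v) F := by
  induction F using MvPolynomial.induction_on with
  | C a => simp [Ord_u]
  | add f g hf hg => rw [map_add, Polynomial.eval_add, hf, hg, map_add]
  | mul_X f i hf =>
    have h1 : (Polynomial.C (p i) + Polynomial.C (v i) * Polynomial.X).eval T = (p + T • v) i := by
      rw [Polynomial.eval_add, Polynomial.eval_mul, Polynomial.eval_C, Polynomial.eval_C,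
        Polynomial.eval_X, Pi.add_apply, Pi.smul_apply, smul_eq_mul, mul_comm T]
    rw [map_mul, Polynomial.eval_mul, hf, map_mul, eval_X, Ord_u, aeval_X, h1]

theorem Ord_u_der (p v : Fin 4 → ℂ) (F : RR) :
    Polynomial.derivative (Ord_u p v F) = Ord_u p v (dz v F) := by
  induction F using MvPolynomial.induction_on with
  | C a =>
    rw [Ord_dzC, map_zero, Ord_u, aeval_C]
    exact Polynomial.derivative_C
  | add f g hf hg => rw [map_add, map_add, hf, hg, map_add, map_add]
  | mul_X f i hf =>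
    have h1 : Polynomial.derivative (Ord_u p v (X i)) = Polynomial.C (v i) := by
      rw [Ord_u, aeval_X]
      simp
    have h2 : dz v (X i) = C (v i) := by rw [dz, mkDerivation_X]
    have h3 : Ord_u p v (C (v i)) = Polynomial.C (v i) := by
      rw [Ord_u, aeval_C]
      rfl
    rw [map_mul, Polynomial.derivative_mul, hf, h1, Derivation.leibniz, smul_eq_mul, smul_eq_mul,
      map_add, map_mul, map_mul, h2, h3]
    ring

theorem Ord_inv (v : Fin 4 → ℂ) {F : RR} (hF : dz v F = 0) (p : Fin 4 → ℂ) (a : ℂ) :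
    eval (p + a • v) F = eval p F := by
  have h1 := Ord_u_der p v F
  rw [hF, map_zero] at h1
  have h2 := Polynomial.natDegree_eq_zero_of_derivative_eq_zero h1
  have h3 := Polynomial.eq_C_of_natDegree_eq_zero h2
  have h4 := Ord_u_eval p v F a
  have h5 := Ord_u_eval p v F 0
  rw [zero_smul, add_zero] at h5
  rw [← h4, ← h5, h3, Polynomial.eval_C, Polynomial.eval_C]

theorem Ord_hyper (a : Fin 4 → ℂ) (ha : a ≠ 0) {F : RR}
    (hpl : ∀ x : Fin 4 → ℂ, ∑ i, a i * x i = 0 → eval x F = 0) :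
    (∑ i, C (a i) * X i : RR) ∣ F := by
  classical
  obtain ⟨L, hL⟩ : ∃ L : RR, L = ∑ i, C (a i) * X i := ⟨_, rfl⟩
  rw [← hL]
  have hLe : ∀ x : Fin 4 → ℂ, eval x L = ∑ i, a i * x i := by
    intro x
    rw [hL]
    simp
  obtain ⟨j, hj⟩ : ∃ j, a j ≠ 0 := by
    by_contra hcon
    push Not at hcon
    exact ha (funext hcon)
  obtain ⟨g, hg⟩ : ∃ g : Fin 4 → RR, g = fun i =>
      X i - C (if i = j then (a j)⁻¹ else 0) * L := ⟨_, rfl⟩
  have hdvd : ∀ P : RR, L ∣ P - aeval g P := by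
    intro P
    induction P using MvPolynomial.induction_on with
    | C a => simp
    | add p q hp hq =>
      rw [map_add, add_sub_add_comm]
      exact dvd_add hp hq
    | mul_X p i hp =>
      rw [map_mul, aeval_X]
      have h1 : p * X i - aeval g p * g i = (p - aeval g p) * X i + aeval g p * (X i - g i) := by
        ring
      rw [h1]
      apply dvd_add (Dvd.dvd.mul_right hp _)
      apply Dvd.dvd.mul_left
      rw [hg]
      simp only [sub_sub_cancel]
      exact Dvd.intro_left _ rfl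
  have hzero : aeval g F = 0 := by
    apply MvPolynomial.funext
    intro x
    rw [map_zero]
    have hgen : ∀ P : RR, eval x (aeval g P) = eval (fun i => eval x (g i)) P := by
      intro P
      induction P using MvPolynomial.induction_on with
      | C a => simp
      | add p q hp hq => rw [map_add, map_add, hp, hq, map_add]
      | mul_X p i hp => rw [map_mul, map_mul, hp, aeval_X, map_mul, eval_X]
    rw [hgen]
    apply hpl
    have h2 : ∀ i, eval x (g i) = x i - (if i = j then (a j)⁻¹ else 0) * eval x L := by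
      intro i
      rw [hg]
      simp
    simp only [h2, hLe, mul_sub, Finset.sum_sub_distrib]
    have h3 : ∑ i, a i * ((if i = j then (a j)⁻¹ else 0) * ∑ l, a l * x l)
        = ∑ l, a l * x l := by
      rw [Finset.sum_eq_single j]
      · rw [if_pos rfl, ← mul_assoc, mul_inv_cancel₀ hj, one_mul]
      · intro i _ hi
        rw [if_neg hi, zero_mul, mul_zero]
      · intro hi
        exact absurd (Finset.mem_univ j) hi
    rw [h3, sub_self]
  have h4 := hdvd F
  rwa [hzero, sub_zero] at h4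

/-- a zero outside the plane spanned by `z`, `z'`. -/
theorem Ord_zero (z z' : Fin 4 → ℂ) {F : RR} {δ : ℕ} (hδ : F.IsHomogeneous δ) (h2 : 1 ≤ δ) :
    ∃ p : Fin 4 → ℂ, p ∉ Submodule.span ℂ {z, z'} ∧ eval p F = 0 := by
  have hsp : ∀ S : Finset (Fin 4 → ℂ), S.card ≤ 3 →
      ∃ e : Fin 4 → ℂ, e ∉ Submodule.span ℂ (S : Set (Fin 4 → ℂ)) := by
    intro S hS
    by_contra hcon
    push Not at hcon
    have h1 : Submodule.span ℂ (S : Set (Fin 4 → ℂ)) = ⊤ := by
      rw [eq_top_iff]
      intro x _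
      exact hcon x
    have h3 := finrank_span_finset_le_card (R := ℂ) S
    rw [Set.finrank, h1, finrank_top, Module.finrank_fin_fun] at h3
    omega
  classical
  obtain ⟨e, he⟩ := hsp {z, z'} (Finset.card_le_two.trans (by norm_num))
  obtain ⟨e', he'⟩ := hsp {z, z', e} (Finset.card_le_three)
  have hset2 : (({z, z'} : Finset (Fin 4 → ℂ)) : Set (Fin 4 → ℂ)) = {z, z'} := by simp
  have hset3 : (({z, z', e} : Finset (Fin 4 → ℂ)) : Set (Fin 4 → ℂ)) = {z, z', e} := by simp
  rw [hset2] at he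
  rw [hset3] at he'
  by_cases hFe : eval e F = 0
  · exact ⟨e, he, hFe⟩
  obtain ⟨T, hT⟩ : ∃ T : ℂ, eval (e' + T • e) F = 0 := by
    by_contra hcon
    push Not at hcon
    have hdeg : (Ord_u e' e F).degree = 0 := by
      by_contra hne
      obtain ⟨T, hT⟩ := IsAlgClosed.exists_root (Ord_u e' e F) hne
      apply hcon T
      rw [← Ord_u_eval]
      exact hT
    have hc := Polynomial.eq_C_of_degree_eq_zero hdeg
    have hS : Ord_u e e' F = Polynomial.C ((Ord_u e' e F).coeff 0) * Polynomial.X ^ δ := by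
      rw [← sub_eq_zero]
      apply Polynomial.eq_zero_of_infinite_isRoot
      apply ((Set.finite_singleton (0 : ℂ)).infinite_compl).mono
      intro S hS
      have hS0 : S ≠ 0 := hS
      change Polynomial.eval S _ = 0
      rw [Polynomial.eval_sub, Ord_u_eval, Polynomial.eval_mul, Polynomial.eval_C,
        Polynomial.eval_pow, Polynomial.eval_X]
      have h1 : e + S • e' = S • (e' + S⁻¹ • e) := by
        rw [smul_add, smul_smul, mul_inv_cancel₀ hS0, one_smul, add_comm]
      rw [h1, Ord_scale hδ, ← Ord_u_eval, hc, Polynomial.eval_C, Polynomial.coeff_C_zero]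
      ring
    have h3 := Ord_u_eval e e' F 0
    rw [hS, zero_smul, add_zero, Polynomial.eval_mul, Polynomial.eval_pow, Polynomial.eval_X,
      zero_pow (by omega), mul_zero] at h3
    exact hFe h3.symm
  refine ⟨e' + T • e, ?_, hT⟩
  intro hmem
  apply he'
  have h1 : Submodule.span ℂ {z, z'} ≤ Submodule.span ℂ ({z, z', e} : Set (Fin 4 → ℂ)) := by
    apply Submodule.span_mono
    intro x hx
    rcases hx with hx | hx
    · exact Or.inl hx
    · exact Or.inr (Or.inl hx)
  have h3 : e ∈ Submodule.span ℂ ({z, z', e} : Set (Fin 4 → ℂ)) :=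
    Submodule.subset_span (Or.inr (Or.inr rfl))
  have h4 := Submodule.sub_mem _ (h1 hmem) (Submodule.smul_mem _ T h3)
  rwa [add_sub_cancel_right] at h4

theorem vertex {z z' : Fin 4 → ℂ} (hz : LinearIndependent ℂ ![z, z']) {π : RR} (hπ : Prime π) {δ : ℕ}
    (hδ : π.IsHomogeneous δ) (h2 : 2 ≤ δ) (h1 : dz z π = 0) (h1' : dz z' π = 0) : False := by
  obtain ⟨p, hp, hp0⟩ := Ord_zero z z' hδ (by omega)
  have hpi := LinearIndependent.pair_iff.mp hz
  have hdet0 : (Matrix.of ![z, z', p, 0] : Matrix (Fin 4) (Fin 4) ℂ).det = 0 := by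
    apply Matrix.det_eq_zero_of_row_eq_zero 3
    intro j
    rfl
  obtain ⟨a, ha0, ha⟩ := Matrix.exists_mulVec_eq_zero_iff.mpr hdet0
  have haz : ∑ i, a i * z i = 0 :=
    (Finset.sum_congr rfl (fun i _ => mul_comm _ _)).trans (congrFun ha 0)
  have haz' : ∑ i, a i * z' i = 0 :=
    (Finset.sum_congr rfl (fun i _ => mul_comm _ _)).trans (congrFun ha 1)
  have hap : ∑ i, a i * p i = 0 :=
    (Finset.sum_congr rfl (fun i _ => mul_comm _ _)).trans (congrFun ha 2)
  have hvan : ∀ x : Fin 4 → ℂ, ∑ i, a i * x i = 0 → eval x π = 0 := by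
    intro x hx
    have hdet : (Matrix.of ![x, z, z', p] : Matrix (Fin 4) (Fin 4) ℂ).det = 0 := by
      rw [← Matrix.exists_mulVec_eq_zero_iff]
      refine ⟨a, ha0, ?_⟩
      funext i
      fin_cases i
      · change ∑ i, x i * a i = 0
        rw [← hx]
        exact Finset.sum_congr rfl (fun i _ => mul_comm _ _)
      · change ∑ i, z i * a i = 0
        rw [← haz]
        exact Finset.sum_congr rfl (fun i _ => mul_comm _ _)
      · change ∑ i, z' i * a i = 0
        rw [← haz']
        exact Finset.sum_congr rfl (fun i _ => mul_comm _ _)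
      · change ∑ i, p i * a i = 0
        rw [← hap]
        exact Finset.sum_congr rfl (fun i _ => mul_comm _ _)
    obtain ⟨v, hv0, hv⟩ := Matrix.exists_vecMul_eq_zero_iff.mpr hdet
    have hrel : ∀ i, v 0 * x i + v 1 * z i + v 2 * z' i + v 3 * p i = 0 := by
      intro i
      have h3 := congrFun hv i
      simpa [Matrix.vecMul, dotProduct, Fin.sum_univ_four] using h3
    by_cases hv00 : v 0 = 0
    · exfalso
      by_cases hv3 : v 3 = 0
      · have h4 := hpi (v 1) (v 2) (by
          funext i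
          have := hrel i
          rw [hv00, hv3, zero_mul, zero_mul, zero_add, add_zero] at this
          simpa using this)
        apply hv0
        funext i
        fin_cases i
        · exact hv00
        · exact h4.1
        · exact h4.2
        · exact hv3
      · apply hp
        have h5 : p = (-(v 1 / v 3)) • z + (-(v 2 / v 3)) • z' := by
          funext i
          have h6 := hrel i
          rw [hv00] at h6
          simp only [Pi.add_apply, Pi.smul_apply, smul_eq_mul]
          field_simp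
          linear_combination h6
        rw [h5]
        apply Submodule.add_mem
        · exact Submodule.smul_mem _ _ (Submodule.subset_span (Or.inl rfl))
        · exact Submodule.smul_mem _ _ (Submodule.subset_span (Or.inr rfl))
    · have h5 : x = ((-(v 3 / v 0)) • p + (-(v 1 / v 0)) • z) + (-(v 2 / v 0)) • z' := by
        funext i
        have h6 := hrel i
        simp only [Pi.add_apply, Pi.smul_apply, smul_eq_mul]
        field_simp
        linear_combination h6
      rw [h5, Ord_inv z' h1', Ord_inv z h1, Ord_scale hδ, hp0, mul_zero]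
  obtain ⟨Q, hQ⟩ := Ord_hyper a ha0 hvan
  have hLu : ¬ IsUnit (∑ i, C (a i) * X i : RR) := by
    intro hu
    have h3 := hu.map (eval (0 : Fin 4 → ℂ))
    simp at h3
  rcases hπ.irreducible.isUnit_or_isUnit hQ with hu | hu
  · exact hLu hu
  · have hQ0 : Q ≠ 0 := hu.ne_zero
    have hL0 : (∑ i, C (a i) * X i : RR) ≠ 0 := by
      intro h0
      rw [h0, zero_mul] at hQ
      exact hπ.ne_zero hQ
    have hdQ : Q.totalDegree = 0 := (isUnit_iff_totalDegree_of_isReduced.mp hu).2
    have hdL : (∑ i, C (a i) * X i : RR).totalDegree ≤ 1 := by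
      have hLh : (∑ i, C (a i) * X i : RR).IsHomogeneous 1 := by
        apply IsHomogeneous.sum
        intro i _
        have h := (isHomogeneous_C (Fin 4) (a i)).mul (isHomogeneous_X ℂ i)
        rwa [zero_add] at h
      exact hLh.totalDegree_le
    have hdπ := hδ.totalDegree hπ.ne_zero
    rw [hQ, totalDegree_mul_of_isDomain hL0 hQ0, hdQ] at hdπ
    omega

end GP80

end S_H80_GP_Ord

section S_H80_GP_Pli

/-!
# Row Pli (MP_87ed0a_GP): the local ring of a line  (about 150 lines)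

`z, z'` linearly independent.  `pL z z'` is the kernel of `φ : ℂ[P] → ℂ[S, T]`, `P_l ↦ S z_l + T z'_l`.
Choose indices `a ≠ b` with `z_a z'_b - z_b z'_a ≠ 0`, and let `k, k'` be the other two indices.  There are `α, β, α', β' ∈ ℂ` with `z_k = α z_a + β z_b`, `z'_k = α z'_a + β z'_b`, same for `k'`; put
`h1 = P_k - α P_a - β P_b`, `h2 = P_k' - α' P_a - β' P_b`.
Claim: `pL z z' = span {h1, h2}`.  `⊇` clear.  `⊆`: modulo `(h1, h2)` every polynomial `h` is congruent to `h~(P_a, P_b)`; `φ` restricted to `ℂ[P_a, P_b]` is injective (invertible linear substitution); so `h ∈ pL` gives `h~ = 0`.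
`h1` is prime in `ℂ[P]`: the quotient by a linear form is a polynomial ring: e.g. `h1` generates the kernel of the substitution `P_k ↦ α P_a + β P_b` (identity on the other variables) into the domain `ℂ[P]`.
In `AL z z'` (localization at `pL z z'`): the maximal ideal is generated by the images of `h1, h2` (`Localization.AtPrime.map_eq_maximalIdeal`), the image of `h1` is prime
(`IsLocalization.prime..`: a prime element contained in the prime ideal stays prime; or: the quotient of `AL` by it is a localization of the domain `ℂ[P]/(h1)`), `AL` is Noetherian.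
-/

namespace GP80

open MvPolynomial

theorem Pli_data {z z' : Fin 4 → ℂ} (hz : LinearIndependent ℂ ![z, z']) :
    ∃ b c : Fin 4 → Fin 4 → ℂ, b 2 = z ∧ b 3 = z' ∧
      (∀ l l', (if l' = l then (1 : ℂ) else 0) = ∑ m, c m l' * b m l) ∧
      (∀ m m', ∑ l, b m' l * c m l = if m' = m then 1 else 0) := by
  obtain ⟨w, hw⟩ := exists_linearIndependent_cons_of_lt_finrank hz (by simp)
  obtain ⟨w', hw'⟩ := exists_linearIndependent_cons_of_lt_finrank hw (by simp)
  obtain ⟨B, hB⟩ : ∃ B : Module.Basis (Fin 4) ℂ (Fin 4 → ℂ),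
      (B : Fin 4 → Fin 4 → ℂ) = Fin.cons w' (Fin.cons w ![z, z']) :=
    ⟨basisOfLinearIndependentOfCardEqFinrank hw' (by simp), by simp⟩
  refine ⟨B, fun m l => B.coord m (fun j => if l = j then 1 else 0), ?_, ?_, ?_, ?_⟩
  · rw [hB]
    rfl
  · rw [hB]
    rfl
  · intro l l'
    have h1 := B.sum_repr (fun j => if l' = j then (1 : ℂ) else 0)
    have h2 := congrFun h1 l
    rw [Finset.sum_apply] at h2
    rw [← h2]
    rfl
  · intro m m'
    have h1 := LinearMap.pi_apply_eq_sum_univ (B.coord m) (B m')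
    simp only [smul_eq_mul] at h1
    rw [← h1, Module.Basis.coord_apply, Module.Basis.repr_self, Finsupp.single_apply]

/-- the linear form with coefficients `c` -/
noncomputable def Pli_H (c : Fin 4 → ℂ) : RR := ∑ l, C (c l) * X l

theorem Pli_X {b c : Fin 4 → Fin 4 → ℂ}
    (h : ∀ l l', (if l' = l then (1 : ℂ) else 0) = ∑ m, c m l' * b m l) (l : Fin 4) :
    (X l : RR) = ∑ m, C (b m l) * Pli_H (c m) := by
  unfold Pli_H
  simp only [Finset.mul_sum]
  rw [Finset.sum_comm]
  have h1 : ∀ l' : Fin 4, ∑ m, C (b m l) * (C (c m l') * X l') =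
      (C (if l' = l then (1 : ℂ) else 0) * X l' : RR) := by
    intro l'
    rw [h l l', map_sum, Finset.sum_mul]
    refine Finset.sum_congr rfl fun m _ => ?_
    rw [C_mul]
    ring
  rw [Finset.sum_congr rfl fun l' _ => h1 l']
  rw [Finset.sum_eq_single l]
  · rw [if_pos rfl, C_1, one_mul]
  · intro j _ hj
    rw [if_neg hj, C_0, zero_mul]
  · intro hl
    exact absurd (Finset.mem_univ l) hl

theorem Pli_pL {z z' : Fin 4 → ℂ} {b c : Fin 4 → Fin 4 → ℂ} (h2 : b 2 = z) (h3 : b 3 = z')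
    (h : ∀ l l', (if l' = l then (1 : ℂ) else 0) = ∑ m, c m l' * b m l)
    (h' : ∀ m m', ∑ l, b m' l * c m l = if m' = m then 1 else 0) :
    pL z z' = Ideal.span {Pli_H (c 0), Pli_H (c 1)} := by
  obtain ⟨φ, hφ⟩ : ∃ φ : RR →+* MvPolynomial (Fin 2) ℂ, φ =
      (eval₂Hom (C : ℂ →+* MvPolynomial (Fin 2) ℂ) (fun i => X 0 * C (z i) + X 1 * C (z' i)) :
        RR →+* MvPolynomial (Fin 2) ℂ) := ⟨_, rfl⟩
  have hφC : ∀ a, φ (C a) = C a := fun a => by rw [hφ, eval₂Hom_C]
  have hφX : ∀ l, φ (X l) = X 0 * C (z l) + X 1 * C (z' l) := fun l => by rw [hφ, eval₂Hom_X']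
  have hφH : ∀ m, m ≠ 2 → m ≠ 3 → φ (Pli_H (c m)) = 0 := by
    intro m hm2 hm3
    have e1 : φ (Pli_H (c m)) = X 0 * C (∑ l, z l * c m l) + X 1 * C (∑ l, z' l * c m l) := by
      unfold Pli_H
      rw [map_sum, map_sum, map_sum, Finset.mul_sum, Finset.mul_sum, ← Finset.sum_add_distrib]
      refine Finset.sum_congr rfl fun l _ => ?_
      rw [map_mul, hφC, hφX, C_mul, C_mul]
      ring
    have e2 := h' m 2
    have e3 := h' m 3
    rw [h2, if_neg (Ne.symm hm2)] at e2
    rw [h3, if_neg (Ne.symm hm3)] at e3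
    rw [e1, e2, e3, C_0, mul_zero, mul_zero, add_zero]
  have hpL : pL z z' = RingHom.ker φ := by
    rw [hφ]
    rfl
  rw [hpL]
  apply le_antisymm
  · intro x hx
    obtain ⟨ψ, hψ⟩ : ∃ ψ : MvPolynomial (Fin 2) ℂ →+* RR, ψ =
        eval₂Hom (C : ℂ →+* RR) ![Pli_H (c 2), Pli_H (c 3)] := ⟨_, rfl⟩
    have hψC : ∀ a, ψ (C a) = C a := fun a => by rw [hψ, eval₂Hom_C]
    have hψ0 : ψ (X 0) = Pli_H (c 2) := by rw [hψ, eval₂Hom_X']; rfl
    have hψ1 : ψ (X 1) = Pli_H (c 3) := by rw [hψ, eval₂Hom_X']; rfl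
    have hcomp : (Ideal.Quotient.mk (Ideal.span {Pli_H (c 0), Pli_H (c 1)})).comp (ψ.comp φ) =
        Ideal.Quotient.mk (Ideal.span {Pli_H (c 0), Pli_H (c 1)}) := by
      apply MvPolynomial.ringHom_ext
      · intro a
        simp only [RingHom.comp_apply]
        rw [hφC, hψC]
      · intro l
        simp only [RingHom.comp_apply]
        rw [eq_comm, Ideal.Quotient.eq, hφX, map_add, map_mul, map_mul, hψC, hψC, hψ0, hψ1]
        have e := Pli_X h l
        rw [Fin.sum_univ_four, h2, h3] at e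
        have e' : (X l : RR) - (Pli_H (c 2) * C (z l) + Pli_H (c 3) * C (z' l)) =
            C (b 0 l) * Pli_H (c 0) + C (b 1 l) * Pli_H (c 1) := by
          linear_combination e
        rw [e']
        exact Ideal.add_mem _ (Ideal.mul_mem_left _ _ (Ideal.subset_span (by simp)))
          (Ideal.mul_mem_left _ _ (Ideal.subset_span (by simp)))
    have hx' : φ x = 0 := hx
    have h4 := congrArg (fun f : RR →+* _ => f x) hcomp
    simp only [RingHom.comp_apply] at h4
    rw [hx', map_zero, map_zero] at h4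
    exact Ideal.Quotient.eq_zero_iff_mem.1 h4.symm
  · rw [Ideal.span_le]
    rintro x hx
    rcases hx with rfl | hx
    · exact hφH 0 (by decide) (by decide)
    · rw [Set.mem_singleton_iff.1 hx]
      exact hφH 1 (by decide) (by decide)

theorem Pli_prime {b c : Fin 4 → Fin 4 → ℂ}
    (h' : ∀ m m', ∑ l, b m' l * c m l = if m' = m then 1 else 0) : Prime (Pli_H (c 0)) := by
  have hne : Pli_H (c 0) ≠ 0 := by
    intro h0
    have h1 := congrArg (eval (b 0)) h0
    unfold Pli_H at h1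
    rw [map_sum, map_zero] at h1
    simp only [map_mul, eval_C, eval_X] at h1
    have h2 := h' 0 0
    rw [if_pos rfl] at h2
    have h3 : ∑ l, c 0 l * b 0 l = 1 := by
      rw [← h2]
      exact Finset.sum_congr rfl fun l _ => mul_comm _ _
    rw [h3] at h1
    exact one_ne_zero h1
  rw [← Ideal.span_singleton_prime hne]
  obtain ⟨θ, hθ⟩ : ∃ θ : RR →+* RR, θ =
      eval₂Hom (C : ℂ →+* RR) (fun l => X l - C (b 0 l) * Pli_H (c 0)) := ⟨_, rfl⟩
  have hθC : ∀ a, θ (C a) = C a := fun a => by rw [hθ, eval₂Hom_C]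
  have hθX : ∀ l, θ (X l) = X l - C (b 0 l) * Pli_H (c 0) := fun l => by rw [hθ, eval₂Hom_X']
  have hθH : θ (Pli_H (c 0)) = 0 := by
    have h2 := h' 0 0
    rw [if_pos rfl] at h2
    have e1 : θ (Pli_H (c 0)) = Pli_H (c 0) - C (∑ l, b 0 l * c 0 l) * Pli_H (c 0) := by
      conv_lhs => unfold Pli_H
      rw [map_sum, map_sum, Finset.sum_mul]
      conv_rhs => rw [show Pli_H (c 0) - ∑ i, C (b 0 i * c 0 i) * Pli_H (c 0) =
        ∑ i, (C (c 0 i) * X i - C (b 0 i * c 0 i) * Pli_H (c 0)) from by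
          rw [Finset.sum_sub_distrib]
          rfl]
      refine Finset.sum_congr rfl fun l _ => ?_
      rw [map_mul, hθC, hθX, C_mul]
      ring
    rw [e1, h2, C_1, one_mul, sub_self]
  have hker : RingHom.ker θ = Ideal.span {Pli_H (c 0)} := by
    apply le_antisymm
    · intro x hx
      have hcomp : (Ideal.Quotient.mk (Ideal.span {Pli_H (c 0)})).comp θ =
          Ideal.Quotient.mk (Ideal.span {Pli_H (c 0)}) := by
        apply MvPolynomial.ringHom_ext
        · intro a
          simp only [RingHom.comp_apply]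
          rw [hθC]
        · intro l
          simp only [RingHom.comp_apply]
          rw [eq_comm, Ideal.Quotient.eq, hθX]
          have e : (X l : RR) - (X l - C (b 0 l) * Pli_H (c 0)) = C (b 0 l) * Pli_H (c 0) := by ring
          rw [e]
          exact Ideal.mul_mem_left _ _ (Ideal.subset_span rfl)
      have hx' : θ x = 0 := hx
      have h4 := congrArg (fun f : RR →+* _ => f x) hcomp
      simp only [RingHom.comp_apply] at h4
      rw [hx', map_zero] at h4
      exact Ideal.Quotient.eq_zero_iff_mem.1 h4.symm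
    · rw [Ideal.span_le]
      rintro x hx
      rw [Set.mem_singleton_iff.1 hx]
      exact hθH
  rw [← hker]
  exact RingHom.ker_isPrime θ

theorem AL_noetherian (z z' : Fin 4 → ℂ) : IsNoetherianRing (AL z z') :=
  IsLocalization.isNoetherianRing (pL z z').primeCompl (AL z z') inferInstance

theorem AL_max {z z' : Fin 4 → ℂ} (hz : LinearIndependent ℂ ![z, z']) :
    ∃ l1 l2 : AL z z', Prime l1 ∧ IsLocalRing.maximalIdeal (AL z z') = Ideal.span {l1, l2} := by
  obtain ⟨b, c, h2, h3, h, h'⟩ := Pli_data hz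
  have hpL := Pli_pL h2 h3 h h'
  have hpr := Pli_prime h'
  have hinj : Function.Injective (algebraMap RR (AL z z')) :=
    IsLocalization.injective _ (Ideal.primeCompl_le_nonZeroDivisors (pL z z'))
  refine ⟨algebraMap RR (AL z z') (Pli_H (c 0)), algebraMap RR (AL z z') (Pli_H (c 1)), ?_, ?_⟩
  · have hne : algebraMap RR (AL z z') (Pli_H (c 0)) ≠ 0 := by
      intro h0
      exact hpr.ne_zero ((_root_.map_eq_zero_iff _ hinj).1 h0)
    rw [← Ideal.span_singleton_prime hne]
    have h4 : Ideal.span {algebraMap RR (AL z z') (Pli_H (c 0))} =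
        Ideal.map (algebraMap RR (AL z z')) (Ideal.span {Pli_H (c 0)}) := by
      rw [Ideal.map_span, Set.image_singleton]
    rw [h4]
    refine IsLocalization.isPrime_of_isPrime_disjoint (pL z z').primeCompl _ _
      ((Ideal.span_singleton_prime hpr.ne_zero).2 hpr) ?_
    rw [Set.disjoint_left]
    intro x hx hx'
    apply hx
    have h5 : (Ideal.span {Pli_H (c 0)} : Ideal RR) ≤ pL z z' := by
      rw [hpL]
      exact Ideal.span_mono (by simp)
    exact h5 hx'
  · have h6 : Ideal.map (algebraMap RR (AL z z')) (pL z z') =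
        Ideal.span {algebraMap RR (AL z z') (Pli_H (c 0)), algebraMap RR (AL z z') (Pli_H (c 1))} :=
      (congrArg (Ideal.map (algebraMap RR (AL z z'))) hpL).trans
        (by rw [Ideal.map_span, Set.image_pair])
    exact (Localization.AtPrime.map_eq_maximalIdeal).symm.trans h6

/-- an element of `RR` is in the maximal ideal iff it is in `pL` -/
theorem AL_mem_max (z z' : Fin 4 → ℂ) (r : RR) :
    algebraMap RR (AL z z') r ∈ IsLocalRing.maximalIdeal (AL z z') ↔ r ∈ pL z z' :=
  IsLocalization.AtPrime.to_map_mem_maximal_iff (AL z z') (pL z z') r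

/-- an element of `RR` is in the square of the maximal ideal iff a multiple by an element outside `pL` is in `pL^2` -/
theorem AL_mem_sq (z z' : Fin 4 → ℂ) (r : RR)
    (h : algebraMap RR (AL z z') r ∈ IsLocalRing.maximalIdeal (AL z z') ^ 2) :
    ∃ t : RR, t ∉ pL z z' ∧ t * r ∈ pL z z' ^ 2 := by
  have hinj : Function.Injective (algebraMap RR (AL z z')) :=
    IsLocalization.injective _ (Ideal.primeCompl_le_nonZeroDivisors (pL z z'))
  rw [← Localization.AtPrime.map_eq_maximalIdeal, ← Ideal.map_pow,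
    IsLocalization.mem_map_algebraMap_iff (pL z z').primeCompl] at h
  obtain ⟨⟨x, t⟩, hx⟩ := h
  refine ⟨t, t.2, ?_⟩
  have h1 : (t : RR) * r = x := by
    apply hinj
    rw [map_mul, mul_comm]
    exact hx
  rw [h1]
  exact x.2

theorem X0_not_mem {z z' : Fin 4 → ℂ} (hz : z 0 ≠ 0) : (X 0 : RR) ∉ pL z z' := by
  intro h
  have h1 : (eval₂Hom (C : ℂ →+* MvPolynomial (Fin 2) ℂ) (fun i => X 0 * C (z i) + X 1 * C (z' i)) :
      RR →+* MvPolynomial (Fin 2) ℂ) (X 0) = 0 := h
  rw [eval₂Hom_X'] at h1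
  have h2 := congrArg (eval ![(1 : ℂ), 0]) h1
  simp at h2
  exact hz h2

/-- for a prime `π ∈ pL z z'` the localization map `AL z z' → OO π` -/
theorem AL_to_OO (z z' : Fin 4 → ℂ) {π : RR} [hp : (Ideal.span {π} : Ideal RR).IsPrime]
    (hπ : π ∈ pL z z') : ∃ φ : AL z z' →+* OO π, ∀ r : RR, φ (algebraMap RR (AL z z') r) = algebraMap RR (OO π) r := by
  have hg : ∀ y : (pL z z').primeCompl, IsUnit (algebraMap RR (OO π) y) := by
    intro y
    refine (IsLocalization.AtPrime.isUnit_to_map_iff (OO π) (Ideal.span {π} : Ideal RR) (y : RR)).2 ?_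
    intro hy
    apply y.2
    have h1 : (Ideal.span {π} : Ideal RR) ≤ pL z z' := by
      rw [Ideal.span_singleton_le_iff_mem]
      exact hπ
    exact h1 hy
  exact ⟨IsLocalization.lift hg, fun r => IsLocalization.lift_eq hg r⟩

end GP80

end S_H80_GP_Pli

section S_H80_GP_Bet

/-!
# Row Bet (MP_87ed0a_GP): the auxiliary forms `b` and degrees of determinants  (about 180 lines)

`t = c + d - 2`.
* `exists_beta`: `K = FractionRing RR`, chart 0.  The evaluation map `ev : HS K t → K^I` (`evHom`) at the points `vz K 0 (z s)` is surjective: its kernel consists of the forms of degree `t` in `(F0, G0)` (`gen_K`), i.e. (take components) of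
  the `A F0 + B G0`, `A ∈ HS (d-2)`, `B ∈ HS (c-2)`: dimension `≤ nn (d-2) + nn (c-2)`, and `nn t = nn (d-2) + nn (c-2) + c d` (`ari_card` in Ari; `finrank_hs` in Kp1), so the rank is `≥ c d = card I`.
  So there are `card I` monomials of degree `t` whose evaluation vectors form a basis of `K^I` (a spanning set contains a basis; `exists_linearIndependent`/`Basis` extraction), i.e. `μ : I → Mon t` with
  `det (μ_r (v_s)) ≠ 0`.  Put `b r := hlift 0 (monomial μ_r 1)`: `E`-invariant, `x`-degree `t`, `wP`-degree `t` (`hlift_wP` with `m = 0`), `atz (z s) (b r) = μ_r(P_0 z' - z_0 P')`, whose image in `K` is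
  `(P_0 z_0)^t μ_r(v_s)` (`vz_scale`): the determinant is nonzero (a column is multiplied by `(P_0 z_0)^t`).
  The bijection `e` exists by the equality of cardinalities (`card_Mon`, `Fintype.equivOfCardEq`).
* `bigDet_homog`: every entry of row `m F` is homogeneous of degree `f` (`chart_coeff_wP`; multiplication by a monomial of `ℂ[X]` permutes coefficients), row `m G`: `f'`, row `b r`: `t`; a determinant whose row `r` consists of homogeneous
  elements of degree `w r` is homogeneous of degree `∑ w r` (`Matrix.det_apply`, `IsHomogeneous.sum`, `IsHomogeneous.prod`).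
* `det_atz_homog`: same with all degrees `t`.
-/

namespace GP80

open MvPolynomial

theorem Bet_comp_mul {O : Type} [CommRing O] {c : ℕ} {u : MvPolynomial (Fin 3) O}
    (hu : u.IsHomogeneous c) (n : ℕ) (A : MvPolynomial (Fin 3) O) :
    homogeneousComponent (n + c) (A * u) = homogeneousComponent n A * u := by
  have h1 : ∀ i, homogeneousComponent (n + c) (homogeneousComponent i A * u) =
      if n = i then homogeneousComponent i A * u else 0 := by
    intro i
    have h2 : (homogeneousComponent i A * u).IsHomogeneous (i + c) :=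
      (homogeneousComponent_isHomogeneous i A).mul hu
    rw [homogeneousComponent_of_mem ((mem_homogeneousSubmodule _ _).2 h2)]
    by_cases h : n = i
    · rw [if_pos h, if_pos (by omega)]
    · rw [if_neg h, if_neg (by omega)]
  conv_lhs => rw [← sum_homogeneousComponent A]
  rw [Finset.sum_mul, map_sum, Finset.sum_congr rfl fun i _ => h1 i, Finset.sum_ite_eq]
  by_cases h : n ∈ Finset.range (A.totalDegree + 1)
  · rw [if_pos h]
  · rw [if_neg h, homogeneousComponent_eq_zero, zero_mul]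
    have := mt Finset.mem_range.2 h
    omega

/-- evaluation is surjective over the fraction field -/
theorem Bet_surj {K I : Type} [Field K] [Fintype I] {c d : ℕ} (hc : 2 ≤ c) (hcd : c ≤ d)
    (hN : Fintype.card I = c * d) (v : I → Fin 3 → K) {F G : MvPolynomial (Fin 3) K}
    (hF : F.IsHomogeneous c) (hG : G.IsHomogeneous d)
    (hgen : ∀ g : MvPolynomial (Fin 3) K, g.IsHomogeneous (c + d - 2) → (∀ s, eval (v s) g = 0) →
      g ∈ Ideal.span {F, G}) : Function.Surjective (evHom v (c + d - 2)) := by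
  let φ : (HS K (d - 2) × HS K (c - 2)) →ₗ[K] HS K (c + d - 2) :=
    { toFun := fun p => HS.mk (p.1.val * F + p.2.val * G) (by
        have h1 := p.1.prop.mul hF
        have h2 := p.2.prop.mul hG
        have e1 : d - 2 + c = c + d - 2 := by omega
        have e2 : c - 2 + d = c + d - 2 := by omega
        rw [e1] at h1
        rw [e2] at h2
        exact h1.add h2)
      map_add' := fun p q => by
        apply HS.ext
        simp only [HS.val_mk, HS.val_add, Prod.fst_add, Prod.snd_add]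
        ring
      map_smul' := fun a p => by
        apply HS.ext
        simp only [HS.val_mk, HS.val_smul, Prod.smul_fst, Prod.smul_snd, RingHom.id_apply]
        ring }
  have hker : LinearMap.ker (evHom v (c + d - 2)) ≤ LinearMap.range φ := by
    intro x hx
    have hx0 : ∀ s, eval (v s) x.val = 0 := fun s => congrFun (LinearMap.mem_ker.1 hx) s
    obtain ⟨A, B, hAB⟩ := Ideal.mem_span_pair.1 (hgen x.val x.prop hx0)
    refine ⟨(HS.mk _ (homogeneousComponent_isHomogeneous (d - 2) A),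
      HS.mk _ (homogeneousComponent_isHomogeneous (c - 2) B)), ?_⟩
    apply HS.ext
    change homogeneousComponent (d - 2) A * F + homogeneousComponent (c - 2) B * G = x.val
    rw [← Bet_comp_mul hF, ← Bet_comp_mul hG]
    have e1 : d - 2 + c = c + d - 2 := by omega
    have e2 : c - 2 + d = c + d - 2 := by omega
    rw [e1, e2, ← map_add, hAB]
    exact homogeneousComponent_eq_self x.prop
  have h1 : Module.finrank K (LinearMap.ker (evHom v (c + d - 2))) ≤ nn (d - 2) + nn (c - 2) := by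
    refine le_trans (Submodule.finrank_mono hker) ?_
    refine le_trans (LinearMap.finrank_range_le φ) ?_
    rw [Module.finrank_prod, finrank_hs, finrank_hs]
  have h2 := LinearMap.finrank_range_add_finrank_ker (evHom v (c + d - 2))
  rw [finrank_hs] at h2
  have h3 := ari_card c d hc hcd
  rw [← LinearMap.range_eq_top]
  apply Submodule.eq_top_of_finrank_eq
  rw [Module.finrank_fintype_fun_eq_card, hN]
  have h4 := Submodule.finrank_le (LinearMap.range (evHom v (c + d - 2)))
  rw [Module.finrank_fintype_fun_eq_card, hN] at h4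
  omega

theorem Bet_mu {K I : Type} [Field K] [Fintype I] [DecidableEq I] {t : ℕ} (v : I → Fin 3 → K)
    (hs : Function.Surjective (evHom v t)) :
    ∃ μ : I → Mon t, Matrix.det (Matrix.of fun r s => eval (v s) (monomial (μ r).1 (1 : K))) ≠ 0 := by
  classical
  obtain ⟨b, hb, -⟩ := exists_basisMon K t
  let w : Mon t → (I → K) := fun m => evHom v t (b m)
  have hspan : Submodule.span K (Set.range w) = ⊤ := by
    have h1 : Set.range w = (evHom v t) '' (Set.range b) := by
      rw [← Set.range_comp]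
      rfl
    rw [h1, Submodule.span_image, b.span_eq, Submodule.map_top, LinearMap.range_eq_top]
    exact hs
  obtain ⟨κ, a, ha, hsp, hli⟩ := exists_linearIndependent' K w
  rw [hspan] at hsp
  let B := Module.Basis.mk hli hsp.ge
  have hfin : Finite κ := Module.Finite.finite_basis B
  have hfint : Fintype κ := Fintype.ofFinite κ
  have hcard : Fintype.card I = Fintype.card κ := by
    rw [← Module.finrank_eq_card_basis B, Module.finrank_fintype_fun_eq_card]
  let e : I ≃ κ := Fintype.equivOfCardEq hcard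
  refine ⟨fun r => a (e r), ?_⟩
  have hli2 : LinearIndependent K (fun r : I => (w ∘ a) (e r)) := hli.comp e e.injective
  have hA : LinearIndependent K
      (Matrix.of fun r s => eval (v s) (monomial (a (e r)).1 (1 : K))).row := by
    have h1 : (Matrix.of fun r s => eval (v s) (monomial (a (e r)).1 (1 : K))).row =
        fun r : I => (w ∘ a) (e r) := by
      funext r s
      change eval (v s) (monomial (a (e r)).1 (1 : K)) = eval (v s) (b (a (e r))).val
      rw [hb]
    rw [h1]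
    exact hli2
  have hU := Matrix.linearIndependent_rows_iff_isUnit.1 hA
  exact ((Matrix.isUnit_iff_isUnit_det _).1 hU).ne_zero

theorem exists_beta {I : Type} [Fintype I] [DecidableEq I] (z : I → Fin 4 → ℂ) (hz : Geom z)
    {c d f f' : ℕ} {F G : BB} (h : Glob z c d f f' F G) :
    ∃ (_ : (Mon (d - 2) ⊕ Mon (c - 2)) ⊕ I ≃ Mon (c + d - 2)) (b : I → BB),
      (∀ r, IsWeightedHomogeneous wx (b r) (c + d - 2)) ∧ (∀ r, EE (b r) = 0) ∧
      (∀ r, IsWeightedHomogeneous wP (b r) (c + d - 2)) ∧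
      Matrix.det (Matrix.of fun r s => atz (z s) (b r)) ≠ 0 := by
  classical
  have hz0 : ∀ s, z s 0 ≠ 0 := fun s => hz.co s 0
  have hinj : Function.Injective (algebraMap RR (FractionRing RR)) :=
    IsFractionRing.injective RR (FractionRing RR)
  have hu : IsUnit (algebraMap RR (FractionRing RR) (X 0)) := by
    apply IsUnit.mk0
    intro h0
    rw [← map_zero (algebraMap RR (FractionRing RR))] at h0
    exact X_ne_zero _ (hinj h0)
  have hsurj := Bet_surj h.c2 h.cd h.N (fun s => vz (FractionRing RR) 0 (z s))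
    (chart_homog (FractionRing RR) 0 h.Fx) (chart_homog (FractionRing RR) 0 h.Gx)
    (fun g hg hg0 => gen_K 0 z hz0 h hg hg0)
  obtain ⟨μ, hμ⟩ := Bet_mu _ hsurj
  have hcard : Fintype.card ((Mon (d - 2) ⊕ Mon (c - 2)) ⊕ I) =
      Fintype.card (Mon (c + d - 2)) := by
    rw [Fintype.card_sum, Fintype.card_sum, card_Mon, card_Mon, card_Mon, h.N]
    exact ari_card c d h.c2 h.cd
  have hhom : ∀ r, (monomial (μ r).1 (1 : RR)).IsHomogeneous (c + d - 2) := by
    intro r
    apply isHomogeneous_monomial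
    exact (Finsupp.degree_eq_sum _).trans (Finset.mem_finsuppAntidiag.1 (μ r).2).1
  refine ⟨Fintype.equivOfCardEq hcard, fun r => hlift 0 (monomial (μ r).1 1),
    fun r => hlift_wx 0 (hhom r), fun r => hlift_EE 0 _, fun r => ?_, ?_⟩
  · have h1 := hlift_wP 0 (m := 0) (hhom r) (fun e => by
      rw [coeff_monomial]
      split_ifs
      · exact isHomogeneous_one _ _
      · exact isHomogeneous_zero _ _ _)
    rw [zero_add] at h1
    exact h1
  · intro h0
    apply hμ
    have h1 := congrArg (algebraMap RR (FractionRing RR)) h0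
    rw [map_zero, RingHom.map_det] at h1
    have h2 : (algebraMap RR (FractionRing RR)).mapMatrix
        (Matrix.of fun r s => atz (z s) (hlift 0 (monomial (μ r).1 (1 : RR)))) =
        Matrix.of fun r s => (algebraMap RR (FractionRing RR) (X 0 * C (z s 0))) ^ (c + d - 2) *
          (Matrix.of fun r s => eval (vz (FractionRing RR) 0 (z s))
            (monomial (μ r).1 (1 : FractionRing RR))) r s := by
      ext r s
      change algebraMap RR (FractionRing RR) (atz (z s) (hlift 0 (monomial (μ r).1 (1 : RR)))) =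
        (algebraMap RR (FractionRing RR) (X 0 * C (z s 0))) ^ (c + d - 2) *
          eval (vz (FractionRing RR) 0 (z s)) (monomial (μ r).1 (1 : FractionRing RR))
      rw [atz_hlift, eval_monomial, eval_monomial, one_mul, one_mul,
        Finsupp.prod_fintype _ _ (fun _ => pow_zero _),
        Finsupp.prod_fintype _ _ (fun _ => pow_zero _), map_prod]
      have h3 : ∀ j : Fin 3, algebraMap RR (FractionRing RR)
          ((X 0 * C (z s (Fin.succAbove 0 j)) - C (z s 0) * X (Fin.succAbove 0 j)) ^ (μ r).1 j) =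
          (algebraMap RR (FractionRing RR) (X 0 * C (z s 0))) ^ (μ r).1 j *
            (vz (FractionRing RR) 0 (z s) j) ^ (μ r).1 j := by
        intro j
        rw [map_pow, vz_scale (FractionRing RR) 0 hu (hz0 s), mul_pow]
      rw [Finset.prod_congr rfl fun j _ => h3 j, Finset.prod_mul_distrib, Finset.prod_pow_eq_pow_sum]
      congr 2
      exact (Finset.mem_finsuppAntidiag.1 (μ r).2).1
    rw [h2, Matrix.det_mul_row] at h1
    rcases mul_eq_zero.1 h1 with h3 | h3
    · exfalso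
      obtain ⟨s, -, hs⟩ := Finset.prod_eq_zero_iff.1 h3
      have h4 := eq_zero_of_pow_eq_zero hs
      rw [← map_zero (algebraMap RR (FractionRing RR))] at h4
      have h5 := hinj h4
      rcases mul_eq_zero.1 h5 with h6 | h6
      · exact X_ne_zero _ h6
      · rw [C_eq_zero] at h6
        exact hz0 s h6
    · exact h3

theorem Bet_det {J : Type} [Fintype J] [DecidableEq J] (A : Matrix J J RR) (w : J → ℕ)
    (h : ∀ r s, (A r s).IsHomogeneous (w r)) : A.det.IsHomogeneous (∑ r, w r) := by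
  rw [Matrix.det_apply]
  refine IsHomogeneous.sum _ _ _ fun σ _ => ?_
  have h1 : (∏ i, A (σ i) i).IsHomogeneous (∑ r, w r) := by
    rw [← Equiv.sum_comp σ w]
    exact IsHomogeneous.prod _ _ _ fun i _ => h _ _
  rcases Int.units_eq_one_or (Equiv.Perm.sign σ) with hs | hs
  · rw [hs, one_smul]
    exact h1
  · rw [hs, Units.neg_smul, one_smul]
    exact h1.neg

theorem bigDet_homog {I : Type} [Fintype I] [DecidableEq I] {c d f f' m : ℕ}
    (e : (Mon (d - 2) ⊕ Mon (c - 2)) ⊕ I ≃ Mon (c + d - 2)) {F G : BB} (b : I → BB)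
    (hF : IsWeightedHomogeneous wP F f) (hG : IsWeightedHomogeneous wP G f')
    (hb : ∀ r, IsWeightedHomogeneous wP (b r) m) (i : Fin 4) :
    (bigDet e (chartH RR i F) (chartH RR i G) (fun r => chartH RR i (b r))).IsHomogeneous
      (f * nn (d - 2) + f' * nn (c - 2) + m * Fintype.card I) := by
  classical
  have hmul : ∀ (g : ℕ) (H : BB), IsWeightedHomogeneous wP H g → ∀ (u x : Fin 3 →₀ ℕ),
      (coeff x (monomial u (1 : RR) * chartH RR i H)).IsHomogeneous g := by
    intro g H hH u x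
    rw [coeff_monomial_mul']
    split_ifs
    · rw [one_mul]
      exact chart_coeff_wP i hH _
    · exact isHomogeneous_zero _ _ _
  have h1 := Bet_det (Matrix.of fun r s : (Mon (d - 2) ⊕ Mon (c - 2)) ⊕ I =>
    coeff (e s).1
      (Sum.elim (Sum.elim (fun m => monomial m.1 (1 : RR) * chartH RR i F)
        (fun m => monomial m.1 (1 : RR) * chartH RR i G)) (fun r => chartH RR i (b r)) r))
    (Sum.elim (Sum.elim (fun _ => f) (fun _ => f')) (fun _ => m)) (by
      rintro ((r | r) | r) s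
      · exact hmul f F hF _ _
      · exact hmul f' G hG _ _
      · exact chart_coeff_wP i (hb r) _)
  have h2 : ∑ r : (Mon (d - 2) ⊕ Mon (c - 2)) ⊕ I,
      (Sum.elim (Sum.elim (fun _ => f) (fun _ => f')) (fun _ => m) :
        (Mon (d - 2) ⊕ Mon (c - 2)) ⊕ I → ℕ) r =
      f * nn (d - 2) + f' * nn (c - 2) + m * Fintype.card I := by
    rw [Fintype.sum_sum_type, Fintype.sum_sum_type]
    simp only [Sum.elim_inl, Sum.elim_inr, Finset.sum_const, Finset.card_univ, card_Mon,
      smul_eq_mul]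
    ring
  rw [h2] at h1
  exact h1

theorem det_atz_homog {I : Type} [Fintype I] [DecidableEq I] (z : I → Fin 4 → ℂ) {m : ℕ} (b : I → BB)
    (hb : ∀ r, IsWeightedHomogeneous wP (b r) m) :
    (Matrix.det (Matrix.of fun r s => atz (z s) (b r))).IsHomogeneous (m * Fintype.card I) := by
  have h1 := Bet_det (Matrix.of fun r s => atz (z s) (b r)) (fun _ => m)
    (fun r s => atz_wP (hb r) (z s))
  rw [Finset.sum_const, Finset.card_univ, smul_eq_mul, mul_comm] at h1
  exact h1

end GP80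

end S_H80_GP_Bet

section S_H80_GP_Nr1

/-!
# Row Nr1 (MP_87ed0a_GP): planes near a grid  (about 180 lines)

`GridVec a b x0` (structure in Pool/Agent/H3/GP/Defs.lean): `ind` four vectors of two rows and two columns are independent, `col`/`row`: vectors of a row (column) are in the span of any two of the row (column).
Exact grid: for `h ≠ 0` let `W = {y | ∑ h_i y_i = 0}`, of dimension 3.  (i) If `W` contains `x0 k j0, x0 k j1`, `j0 ≠ j1`, it contains the whole row `k` (`col`).  Let `(k', m)`, `k' ≠ k`, be in `W`: then (`row`, with `x0 k m ∈ W`) the whole column `m` is in `W`.  If also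
`(k'', m') ∈ W`, `k'' ≠ k`, `m' ≠ m`, then the column `m'` is in `W` too, so `x0 k m, x0 k m', x0 k' m, x0 k' m' ∈ W`: four independent vectors, contradiction.  So everything in `W` is in row `k` or in one column: first alternative.
(ii) Symmetric if `W` contains two points of a column.  (iii) Otherwise second alternative.
Openness: call a set `S` of indices bad if neither alternative holds for `S` (`¬ ∃ l j, ∀ s ∈ S, s.1 = l ∨ s.2 = j` and `¬` pairwise different rows and columns); subsets of non-bad sets are non-bad.  For bad `S` the set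
`C_S = {x | ∃ h, ‖h‖ = 1 ∧ ∀ s ∈ S, ∑ h_i x_s_i = 0}` is closed (projection along the compact sphere: `IsClosed` of the projection of a closed subset of `(compact) × X`, `isClosedMap_snd_of_compactSpace`, or sequences) and does not contain `x0`.
There are finitely many `S`.  For `x` in the intersection of the complements and `h ≠ 0` (normalise `h`) the set of `s` with `∑ h_i x_s_i = 0` is not bad.
-/

open Filter Topology Pool.Agent.H3.GP

namespace GP80

theorem Nr1_four {h : Fin 4 → ℂ} {v : Fin 4 → Fin 4 → ℂ} (hv : LinearIndependent ℂ v)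
    (h0 : ∀ t, ∑ i, h i * v t i = 0) : h = 0 := by
  have h1 : LinearIndependent ℂ (Matrix.of v).row := hv
  rw [Matrix.linearIndependent_rows_iff_isUnit] at h1
  have h2 := Matrix.mulVec_injective_of_isUnit h1
  apply h2
  rw [Matrix.mulVec_zero]
  funext t
  have h3 := h0 t
  simp only [Matrix.mulVec, dotProduct, Matrix.of_apply, Pi.zero_apply]
  rw [← h3]
  exact Finset.sum_congr rfl fun i _ => mul_comm _ _

theorem Nr1_span {h u v w : Fin 4 → ℂ} (hw : w ∈ Submodule.span ℂ {u, v})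
    (hu : ∑ i, h i * u i = 0) (hv : ∑ i, h i * v i = 0) : ∑ i, h i * w i = 0 := by
  obtain ⟨r, t, rfl⟩ := Submodule.mem_span_pair.1 hw
  have h1 : ∑ i, h i * (r • u + t • v) i = r * ∑ i, h i * u i + t * ∑ i, h i * v i := by
    rw [Finset.mul_sum, Finset.mul_sum, ← Finset.sum_add_distrib]
    refine Finset.sum_congr rfl fun i _ => ?_
    simp only [Pi.add_apply, Pi.smul_apply, smul_eq_mul]
    ring
  rw [h1, hu, hv, mul_zero, mul_zero, add_zero]

/-- the two alternatives -/
def Nr1_ok {a b : ℕ} (S : Fin a → Fin b → Prop) : Prop :=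
  (∃ l j, ∀ k m, S k m → k = l ∨ m = j) ∨
    (∀ k m k' m', S k m → S k' m' → (k, m) ≠ (k', m') → k ≠ k' ∧ m ≠ m')

theorem Nr1_mono {a b : ℕ} {S T : Fin a → Fin b → Prop} (h : ∀ k m, S k m → T k m)
    (hT : Nr1_ok T) : Nr1_ok S := by
  rcases hT with ⟨l, j, h1⟩ | h1
  · exact Or.inl ⟨l, j, fun k m hS => h1 k m (h k m hS)⟩
  · exact Or.inr fun k m k' m' h2 h3 => h1 k m k' m' (h k m h2) (h k' m' h3)

theorem Nr1_exact {a b : ℕ} (x0 : Fin a → Fin b → Fin 4 → ℂ) (h0 : GridVec a b x0)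
    {h : Fin 4 → ℂ} (hh : h ≠ 0) :
    Nr1_ok (fun k m => ∑ i, h i * x0 k m i = 0) := by
  have four : ∀ k k' m m', k ≠ k' → m ≠ m' → ∑ i, h i * x0 k m i = 0 → ∑ i, h i * x0 k m' i = 0 →
      ∑ i, h i * x0 k' m i = 0 → ∑ i, h i * x0 k' m' i = 0 → False := by
    intro k k' m m' hk hm h1 h2 h3 h4
    refine hh (Nr1_four (h0.ind k k' m m' hk hm) fun t => ?_)
    fin_cases t
    · exact h1
    · exact h2
    · exact h3
    · exact h4
  by_cases hrow : ∃ k j0 j1, j0 ≠ j1 ∧ ∑ i, h i * x0 k j0 i = 0 ∧ ∑ i, h i * x0 k j1 i = 0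
  · obtain ⟨k, j0, j1, hj, h1, h2⟩ := hrow
    have h3 : ∀ j, ∑ i, h i * x0 k j i = 0 := fun j => Nr1_span (h0.col k j0 j1 j hj) h1 h2
    by_cases hall : ∀ k' m, ∑ i, h i * x0 k' m i = 0 → k' = k
    · exact Or.inl ⟨k, j0, fun k' m hz => Or.inl (hall k' m hz)⟩
    · push Not at hall
      obtain ⟨k', m, h4, h5⟩ := hall
      refine Or.inl ⟨k, m, fun k2 m2 hz => ?_⟩
      by_contra hcon
      push Not at hcon
      have h6 : ∑ i, h i * x0 k2 m i = 0 := Nr1_span (h0.row m k k' k2 h5.symm) (h3 m) h4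
      exact four k k2 m m2 hcon.1.symm hcon.2.symm (h3 m) (h3 m2) h6 hz
  · by_cases hcol : ∃ m k0 k1, k0 ≠ k1 ∧ ∑ i, h i * x0 k0 m i = 0 ∧ ∑ i, h i * x0 k1 m i = 0
    · obtain ⟨m, k0, k1, hk, h1, h2⟩ := hcol
      have h3 : ∀ k, ∑ i, h i * x0 k m i = 0 := fun k => Nr1_span (h0.row m k0 k1 k hk) h1 h2
      by_cases hall : ∀ k m', ∑ i, h i * x0 k m' i = 0 → m' = m
      · exact Or.inl ⟨k0, m, fun k m' hz => Or.inr (hall k m' hz)⟩
      · push Not at hall
        obtain ⟨k', m', h4, h5⟩ := hall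
        refine Or.inl ⟨k', m, fun k2 m2 hz => ?_⟩
        by_contra hcon
        push Not at hcon
        have h6 : ∑ i, h i * x0 k' m2 i = 0 := Nr1_span (h0.col k' m m' m2 h5.symm) (h3 k') h4
        exact four k' k2 m m2 hcon.1.symm hcon.2.symm (h3 k') h6 (h3 k2) hz
    · refine Or.inr fun k m k' m' h1 h2 hne => ⟨fun hk => ?_, fun hm => ?_⟩
      · subst hk
        exact hrow ⟨k, m, m', fun e => hne (by rw [e]), h1, h2⟩
      · subst hm
        exact hcol ⟨m, k, k', fun e => hne (by rw [e]), h1, h2⟩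

theorem near_planes {a b : ℕ} (ha : 2 ≤ a) (hb : 2 ≤ b) (x0 : Fin a → Fin b → Fin 4 → ℂ)
    (h0 : GridVec a b x0) : ∀ᶠ x in 𝓝 x0, ∀ h : Fin 4 → ℂ, h ≠ 0 →
      (∃ l j, ∀ k m, ∑ i, h i * x k m i = 0 → k = l ∨ m = j) ∨
      (∀ k m k' m', ∑ i, h i * x k m i = 0 → ∑ i, h i * x k' m' i = 0 → (k, m) ≠ (k', m') →
        k ≠ k' ∧ m ≠ m') := by
  have hK : IsCompact (Metric.sphere (0 : Fin 4 → ℂ) 1) := isCompact_sphere _ _
  have h1 : ∀ᶠ x in 𝓝 x0, ∀ h ∈ Metric.sphere (0 : Fin 4 → ℂ) 1,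
      Nr1_ok (fun k m => ∑ i, h i * x k m i = 0) := by
    refine hK.eventually_forall_of_forall_eventually fun h hh => ?_
    have hne : h ≠ 0 := by
      rintro rfl
      simp at hh
    have h2 : ∀ᶠ z : (Fin a → Fin b → Fin 4 → ℂ) × (Fin 4 → ℂ) in 𝓝 (x0, h), ∀ k m,
        ∑ i, h i * x0 k m i ≠ 0 → ∑ i, z.2 i * z.1 k m i ≠ 0 := by
      rw [Filter.eventually_all]
      intro k
      rw [Filter.eventually_all]
      intro m
      by_cases h3 : ∑ i, h i * x0 k m i = 0
      · exact Filter.Eventually.of_forall fun z h4 => absurd h3 h4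
      · have hc : Continuous (fun z : (Fin a → Fin b → Fin 4 → ℂ) × (Fin 4 → ℂ) =>
            ∑ i, z.2 i * z.1 k m i) := by fun_prop
        have h4 := hc.continuousAt.eventually_ne (x := (x0, h)) h3
        exact h4.mono fun z hz _ => hz
    refine h2.mono fun z hz => ?_
    refine Nr1_mono (fun k m h3 => ?_) (Nr1_exact x0 h0 hne)
    by_contra h4
    exact hz k m h4 h3
  refine h1.mono fun x hx h hh => ?_
  have h2 : ‖(‖h‖⁻¹ : ℂ) • h‖ = 1 := norm_smul_inv_norm hh
  have h3 := hx ((‖h‖⁻¹ : ℂ) • h) (by rw [mem_sphere_zero_iff_norm, h2])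
  refine Nr1_mono (S := fun k m => ∑ i, h i * x k m i = 0) (fun k m h4 => ?_) h3
  have h5 : ∑ i, ((‖h‖⁻¹ : ℂ) • h) i * x k m i = (‖h‖⁻¹ : ℂ) * ∑ i, h i * x k m i := by
    rw [Finset.mul_sum]
    refine Finset.sum_congr rfl fun i _ => ?_
    simp only [Pi.smul_apply, smul_eq_mul]
    ring
  show ∑ i, ((‖h‖⁻¹ : ℂ) • h) i * x k m i = 0
  rw [h5]
  rw [show ∑ i, h i * x k m i = 0 from h4, mul_zero]

end GP80

end S_H80_GP_Nr1

section S_H80_GP_Gct

/-!
# Row Gct (MP_87ed0a_GP): the planes of type (l, j) without the corner give a contradiction  (about 150 lines)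

For all `(l, j)` there is a plane `h ≠ 0` containing all points of row `l` and column `j` except possibly the corner `(l, j)`.  `b ≥ 5`, and every line contains at most `m < b` points.  Contradiction:
Fix a row `l` (`a ≥ 2`), `l' ≠ l`; let `h_j` be the plane for `(l, j)`.
1. For `j ≠ j'` the planes `h_j`, `h_j'` are not proportional: otherwise `h_j` vanishes on the whole row `l` (row `l` minus `(l,j)` and row `l` minus `(l,j')`), and at `(l', j)`, `(l', j')`.  By `pl`: the second alternative is impossible (two points of row `l`); first alternative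
   with `(l0, j0)`: if `l0 ≠ l` then all points of row `l` are in column `j0`, impossible (`b ≥ 2`); so `l0 = l`, and `(l', j)`, `(l', j')` are in column `j0`: `j = j'`.
2. So `W = {h_j = 0} ∩ {h_j' = 0}` has dimension 2, and contains `x l m` for `m ≠ j, j'`.
3. Let `m` be any column, choose two different `j, j'` not in `{0, 1, m}` (`b ≥ 5`): `x l 0, x l 1, x l m ∈ W`, and `x l 0, x l 1` are independent, so they span `W` and `x l m ∈ span {x l 0, x l 1}`.
4. So all `b` points of row `l` are in the span of `x l 0, x l 1`: `b ≤ m` by `ColB`, contradiction.  (`0, 1 : Fin b` exist as `b ≥ 5`; use `⟨0, _⟩`, `⟨1, _⟩`.)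
-/

namespace GP80

theorem Gct_span {u v : Fin 4 → ℂ} (huv : LinearIndependent ℂ ![u, v]) {p q w : Fin 4 → ℂ}
    (hpq : LinearIndependent ℂ ![p, q]) (hup : ∑ i, u i * p i = 0) (huq : ∑ i, u i * q i = 0)
    (huw : ∑ i, u i * w i = 0) (hvp : ∑ i, v i * p i = 0) (hvq : ∑ i, v i * q i = 0)
    (hvw : ∑ i, v i * w i = 0) : w ∈ Submodule.span ℂ {p, q} := by
  obtain ⟨M, hM⟩ : ∃ M : Matrix (Fin 2) (Fin 4) ℂ, M = Matrix.of ![u, v] := ⟨_, rfl⟩
  have hker : ∀ y : Fin 4 → ℂ, ∑ i, u i * y i = 0 → ∑ i, v i * y i = 0 →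
      y ∈ LinearMap.ker M.mulVecLin := by
    intro y h1 h2
    rw [LinearMap.mem_ker, Matrix.mulVecLin_apply, hM]
    funext i
    fin_cases i
    · exact h1
    · exact h2
  have hrank : M.rank = 2 := by
    have h1 := LinearIndependent.rank_matrix (M := M) (by rw [hM]; exact huv)
    rw [h1, Fintype.card_fin]
  have hfk : Module.finrank ℂ (LinearMap.ker M.mulVecLin) = 2 := by
    have h1 := LinearMap.finrank_range_add_finrank_ker M.mulVecLin
    have h2 : Module.finrank ℂ (LinearMap.range M.mulVecLin) = 2 := hrank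
    rw [h2, Module.finrank_fin_fun] at h1
    omega
  have hfs : Module.finrank ℂ (Submodule.span ℂ ({p, q} : Set (Fin 4 → ℂ))) = 2 := by
    have h1 := finrank_span_eq_card hpq
    rwa [Matrix.range_cons_cons_empty, Fintype.card_fin] at h1
  have hle : Submodule.span ℂ ({p, q} : Set (Fin 4 → ℂ)) ≤ LinearMap.ker M.mulVecLin := by
    rw [Submodule.span_le]
    rintro y (rfl | rfl)
    · exact hker _ hup hvp
    · exact hker _ huq hvq
  have heq := Submodule.eq_of_le_of_finrank_eq hle (by rw [hfs, hfk])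
  rw [heq]
  exact hker _ huw hvw

theorem Gct_two {b : ℕ} (hb : 5 ≤ b) (s : Finset (Fin b)) (hs : s.card ≤ 3) :
    ∃ j j', j ≠ j' ∧ j ∉ s ∧ j' ∉ s := by
  have h1 : s.card < (Finset.univ : Finset (Fin b)).card := by
    rw [Finset.card_univ, Fintype.card_fin]
    omega
  obtain ⟨j, -, hj⟩ := Finset.exists_mem_notMem_of_card_lt_card h1
  have h2 : (insert j s).card < (Finset.univ : Finset (Fin b)).card := by
    rw [Finset.card_univ, Fintype.card_fin]
    exact lt_of_le_of_lt (Finset.card_insert_le _ _) (by omega)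
  obtain ⟨j', -, hj'⟩ := Finset.exists_mem_notMem_of_card_lt_card h2
  rw [Finset.mem_insert, not_or] at hj'
  exact ⟨j, j', Ne.symm hj'.1, hj, hj'.2⟩

theorem grid_contra {a b Bd m : ℕ} (ha : 2 ≤ a) (hb : 5 ≤ b) (hm : m < b)
    {x : Fin a → Fin b → Fin 4 → ℂ} (hx : NearOK a b x Bd)
    (hcol : ColB (fun s : Fin a × Fin b => x s.1 s.2) m)
    (hW : ∀ (l : Fin a) (j : Fin b), ∃ h : Fin 4 → ℂ, h ≠ 0 ∧
      ∀ s : Fin a × Fin b, (s.1 = l ∨ s.2 = j) → s ≠ (l, j) → ∑ i, h i * x s.1 s.2 i = 0) :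
    False := by
  classical
  obtain ⟨l, hl⟩ : ∃ l : Fin a, l = ⟨0, by omega⟩ := ⟨_, rfl⟩
  obtain ⟨l', hl'⟩ : ∃ l' : Fin a, l' = ⟨1, by omega⟩ := ⟨_, rfl⟩
  have hll : l' ≠ l := by
    rw [hl, hl']
    intro h
    have := congrArg Fin.val h
    simp at this
  obtain ⟨c0, hc0⟩ : ∃ c0 : Fin b, c0 = ⟨0, by omega⟩ := ⟨_, rfl⟩
  obtain ⟨c1, hc1⟩ : ∃ c1 : Fin b, c1 = ⟨1, by omega⟩ := ⟨_, rfl⟩
  have hcc : c0 ≠ c1 := by
    rw [hc0, hc1]
    intro h
    have := congrArg Fin.val h
    simp at this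
  choose h hh0 hh using fun j => hW l j
  have hli : ∀ j j', j ≠ j' → LinearIndependent ℂ ![h j, h j'] := by
    intro j j' hjj
    rw [linearIndependent_fin2]
    refine ⟨hh0 j', fun t ht => ?_⟩
    have ht' : t • h j' = h j := ht
    have hz : ∀ y : Fin 4 → ℂ, ∑ i, h j' i * y i = 0 → ∑ i, h j i * y i = 0 := by
      intro y hy
      rw [← ht']
      have h1 : ∑ i, (t • h j') i * y i = t * ∑ i, h j' i * y i := by
        rw [Finset.mul_sum]
        refine Finset.sum_congr rfl fun i _ => ?_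
        rw [Pi.smul_apply, smul_eq_mul, mul_assoc]
      rw [h1, hy, mul_zero]
    have hrow : ∀ q, ∑ i, h j i * x l q i = 0 := by
      intro q
      by_cases hq : q = j
      · subst hq
        exact hz _ (hh j' (l, q) (Or.inl rfl) (fun e => hjj (congrArg Prod.snd e)))
      · exact hh j (l, q) (Or.inl rfl) (fun e => hq (congrArg Prod.snd e))
    have hp1 : ∑ i, h j i * x l' j i = 0 :=
      hh j (l', j) (Or.inr rfl) (fun e => hll (congrArg Prod.fst e))
    have hp2 : ∑ i, h j i * x l' j' i = 0 :=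
      hz _ (hh j' (l', j') (Or.inr rfl) (fun e => hll (congrArg Prod.fst e)))
    rcases hx.pl (h j) (hh0 j) with ⟨l0, j0, h1⟩ | h1
    · have hl0 : l = l0 := by
        by_contra hne
        have h2 := (h1 l j (hrow j)).resolve_left hne
        have h3 := (h1 l j' (hrow j')).resolve_left hne
        exact hjj (h2.trans h3.symm)
      have h2 := (h1 l' j hp1).resolve_left (fun e => hll (e.trans hl0.symm))
      have h3 := (h1 l' j' hp2).resolve_left (fun e => hll (e.trans hl0.symm))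
      exact hjj (h2.trans h3.symm)
    · exact (h1 l j l j' (hrow j) (hrow j') (fun e => hjj (congrArg Prod.snd e))).1 rfl
  have hpq : LinearIndependent ℂ ![x l c0, x l c1] := by
    have h1 := hx.ind l l' c0 c1 (Ne.symm hll) hcc
    have h2 := h1.comp ![(0 : Fin 4), 1] (by
      intro i j hij
      fin_cases i <;> fin_cases j <;> simp_all)
    convert h2 using 1
    funext i
    fin_cases i <;> rfl
  have hspan : ∀ q, x l q ∈ Submodule.span ℂ {x l c0, x l c1} := by
    intro q
    obtain ⟨j, j', hjj, hj, hj'⟩ := Gct_two hb {c0, c1, q} Finset.card_le_three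
    simp only [Finset.mem_insert, Finset.mem_singleton, not_or] at hj hj'
    have hz : ∀ j q', q' ≠ j → ∑ i, h j i * x l q' i = 0 := fun j q' hne =>
      hh j (l, q') (Or.inl rfl) (fun e => hne (congrArg Prod.snd e))
    exact Gct_span (hli j j' hjj) hpq (hz j c0 (Ne.symm hj.1)) (hz j c1 (Ne.symm hj.2.1))
      (hz j q (Ne.symm hj.2.2)) (hz j' c0 (Ne.symm hj'.1)) (hz j' c1 (Ne.symm hj'.2.1))
      (hz j' q (Ne.symm hj'.2.2))
  have hcard := hcol (l, c0) (l, c1) (fun e => hcc (congrArg Prod.snd e))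
  have hge : Nat.card (Fin b) ≤ Nat.card {t : Fin a × Fin b //
      (fun s : Fin a × Fin b => x s.1 s.2) t ∈ Submodule.span ℂ
        {(fun s : Fin a × Fin b => x s.1 s.2) (l, c0),
          (fun s : Fin a × Fin b => x s.1 s.2) (l, c1)}} := by
    refine Nat.card_le_card_of_injective (fun q => ⟨(l, q), hspan q⟩) ?_
    intro q q' hqq
    exact congrArg (fun t => t.1.2) hqq
  rw [Nat.card_eq_fintype_card, Fintype.card_fin] at hge
  omega

end GP80

end S_H80_GP_Gct
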