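import Mathlib
import Pool.Agent.H80.M87.G01
import Pool.Agent.H80.M87.G02
import Pool.Agent.H80.M87.G04
import Pool.Agent.H80.M87.G05
import Pool.Agent.H80.M87.G06

/-! MP_87ed0a_ag: this file joins several modules to save build time. -/

section S_H80_GP_SDefs

/-! Definitions for the saturation block (MP_87ed0a_GP). -/

namespace GP80

open MvPolynomial

/-- `(F, G)` is obtained from `(F1, G1)` by a transition of determinant `α` -/
def Trans {O : Type} [CommRing O] (c d : ℕ) (F G F1 G1 : MvPolynomial (Fin 3) O) (α : O) : Prop :=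
  (c < d ∧ F = F1 ∧ ∃ H : MvPolynomial (Fin 3) O, H.IsHomogeneous (d - c) ∧ G = C α * G1 + H * F1) ∨
  (c = d ∧ ∃ m11 m12 m21 m22 : O, F = C m11 * F1 + C m12 * G1 ∧ G = C m21 * F1 + C m22 * G1 ∧
    α = m11 * m22 - m12 * m21)

/-- every form of degree `d` vanishing at the points `v` is `U F + a G` -/
def DegGen {O I : Type} [CommRing O] (v : I → Fin 3 → O) (c d : ℕ) (F G : MvPolynomial (Fin 3) O) : Prop :=
  ∀ H : MvPolynomial (Fin 3) O, H.IsHomogeneous d → (∀ z, eval (v z) H = 0) →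
    ∃ (U : MvPolynomial (Fin 3) O) (a : O), U.IsHomogeneous (d - c) ∧ H = U * F + C a * G

end GP80

end S_H80_GP_SDefs

section S_H80_GP_PDefs

/-! Definitions for the output at a prime of `ℂ[P]` (MP_87ed0a_GP). -/

namespace GP80

open MvPolynomial

/-- numerical output at a prime `π`: `om` = order of the local Jacobians, `jj` = order of the transition determinant -/
structure PrimeOut {I : Type} [Fintype I] (z : I → Fin 4 → ℂ) (c d : ℕ) (J : I → RR) (π : RR)
    (om : I → ℕ) (jj g n : ℕ) (lam : ℕ → ℕ) : Prop where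
  mult : ∀ s, multiplicity π (J s) = om s + jj
  ne : ∀ s, J s ≠ 0
  nv : ∀ s, dz (z s) π ≠ 0 → om s = g
  gn : g ≤ n
  tail : g < n → lam (g + 1) * (c + d - lam (g + 1)) ≤ Nat.card {s : I // dz (z s) π = 0}
  omn : ∀ s, om s ≤ n
  sum : ∑ i ∈ Finset.Icc 1 n, lam i * (c + d - lam i) ≤ ∑ s, om s
  pos : ∀ i, 1 ≤ i → i ≤ n → 1 ≤ lam i
  up : ∀ i, 1 ≤ i → lam i < c
  anti : ∀ i j, 1 ≤ i → i ≤ j → lam j ≤ lam i

/-- the inequality for the big determinant in the chart `i` -/
def DetOut {I : Type} [Fintype I] [DecidableEq I] (z : I → Fin 4 → ℂ) (c d : ℕ) (F G : BB)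
    (i : Fin 4) (π : RR) (jj n : ℕ) (lam : ℕ → ℕ) : Prop :=
  ∀ (e : (Mon (d - 2) ⊕ Mon (c - 2)) ⊕ I ≃ Mon (c + d - 2)) (b : I → BB),
    (∀ r, IsWeightedHomogeneous wx (b r) (c + d - 2) ∧ EE (b r) = 0) →
    Matrix.det (Matrix.of fun r s => atz (z s) (b r)) ≠ 0 →
    bigDet e (chartH RR i F) (chartH RR i G) (fun r => chartH RR i (b r)) ≠ 0 ∧
      multiplicity π (bigDet e (chartH RR i F) (chartH RR i G) (fun r => chartH RR i (b r))) ≤
        multiplicity π (Matrix.det (Matrix.of fun r s => atz (z s) (b r))) +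
          ∑ i ∈ Finset.Icc 1 n, (lam i).choose 2 + jj * c.choose 2

/-- every pair over `OO π` which generates in degree `d` (and has the same `F` if `c < d`) has Jacobians of order `om` -/
def JUniq {I : Type} (z : I → Fin 4 → ℂ) (c d : ℕ) (F : BB) (π : RR) (om : I → ℕ) : Prop :=
  ∀ [hp : (Ideal.span {π} : Ideal RR).IsPrime] (F2 G2 : MvPolynomial (Fin 3) (OO π)),
    F2.IsHomogeneous c → G2.IsHomogeneous d →
    (∀ s, eval (vz (OO π) 0 (z s)) F2 = 0) → (∀ s, eval (vz (OO π) 0 (z s)) G2 = 0) →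
    DegGen (fun s => vz (OO π) 0 (z s)) c d F2 G2 → (c < d → F2 = chartH (OO π) 0 F) →
    ∀ s J2, IsJ3 F2 G2 (vz (OO π) 0 (z s)) J2 →
      multiplicity (algebraMap RR (OO π) π) J2 = om s

/-- the outputs at all homogeneous primes -/
structure GlobOut {I : Type} [Fintype I] [DecidableEq I] (z : I → Fin 4 → ℂ) (c d : ℕ) (F G : BB)
    (J : I → RR) (om : RR → I → ℕ) (jj g n : RR → ℕ) (lam : RR → ℕ → ℕ) : Prop where
  po : ∀ π, Prime π → (∃ δ, π.IsHomogeneous δ) → PrimeOut z c d J π (om π) (jj π) (g π) (n π) (lam π)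
  dt0 : ∀ π, Prime π → (∃ δ, π.IsHomogeneous δ) → ¬ π ∣ X 0 →
    DetOut z c d F G 0 π (jj π) (n π) (lam π)
  dt1 : ∀ π, Prime π → (∃ δ, π.IsHomogeneous δ) → π ∣ X 0 →
    DetOut z c d F G 1 π (jj π) (n π) (lam π)
  uq : ∀ π, Prime π → (∃ δ, π.IsHomogeneous δ) → ¬ π ∣ X 0 → JUniq z c d F π (om π)

end GP80

end S_H80_GP_PDefs

section S_H80_GP_Sa1

/-!
# Row Sa1 (MP_87ed0a_GP): transitions and Jacobians; uniqueness  (about 120 lines)

* `trans_J`: if `(F, G)` comes from `(F1, G1)` by a transition of determinant `α`, all vanish at `v`, and `J1` is the Jacobian of `(F1, G1)` at `v`, then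
  `α J1` is the Jacobian of `(F, G)`.  Proof: `grad (A * B) v = eval v A • grad B v + eval v B • grad A v`, so with `F1(v) = G1(v) = 0`:
  `grad (C a * G1) v = a • grad G1 v`, `grad (H * F1) v = H(v) • grad F1 v`; bilinearity of the cross product, `w × w = 0`, `w × w' = - w' × w`.
* `trans_compose` is not needed.
* `jac_unique`: two pairs `(F1, G1)`, `(F2, G2)` which both satisfy `DegGen` and vanish at the points (with `F1 = F2` if `c < d`) have associated Jacobians at every point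
  (`v z ≠ 0` for cancellation; `J1, J2` the Jacobians at `v z`).  Proof.  `c < d`: `G2 = U F1 + a G1`, `G1 = U' F1 + a' G2`, so (as in `trans_J`) `J2 v = a J1 v`, `J1 v = a' J2 v`.
  `c = d`: `U` is homogeneous of degree 0, a constant `C u` (`isHomogeneous_zero..`/`totalDegree_eq_zero_iff_eq_C`), `F2 = u F1 + a G1`, `G2 = u' F1 + a' G1`, `J2 = (u a' - a u') J1`, and
  conversely.  Two elements dividing each other in a domain are associated, so the multiplicities of the prime `p` agree (`multiplicity_eq_of_associated_right` or via `emultiplicity`).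
-/

namespace GP80

open MvPolynomial

theorem Sa1_grad {O : Type} [CommRing O] {F U F1 G1 : MvPolynomial (Fin 3) O} {a : O}
    (h : F = U * F1 + C a * G1) {v : Fin 3 → O} (h1 : eval v F1 = 0) (h2 : eval v G1 = 0) :
    grad F v = eval v U • grad F1 v + a • grad G1 v := by
  funext i
  simp only [grad, Pi.add_apply, Pi.smul_apply, smul_eq_mul]
  rw [h, map_add, pderiv_mul, pderiv_mul, pderiv_C]
  simp only [map_add, map_mul, eval_C, h1, h2]
  ring

theorem Sa1_cross {O : Type} [CommRing O] (x y : Fin 3 → O) (a b c d : O) :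
    crossProduct (a • x + b • y) (c • x + d • y) = (a * d - b * c) • crossProduct x y := by
  ext i
  fin_cases i <;>
    simp [cross_apply] <;> ring

theorem Sa1_J {O : Type} [CommRing O] {F G F1 G1 : MvPolynomial (Fin 3) O} {v : Fin 3 → O}
    {a b c d : O} (hF : grad F v = a • grad F1 v + b • grad G1 v)
    (hG : grad G v = c • grad F1 v + d • grad G1 v) {J1 : O}
    (hJ : IsJ3 F1 G1 v J1) : IsJ3 F G v ((a * d - b * c) * J1) := by
  unfold IsJ3 at hJ ⊢
  rw [hF, hG, Sa1_cross, hJ, smul_smul]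

theorem trans_J {O : Type} [CommRing O] {c d : ℕ} {F G F1 G1 : MvPolynomial (Fin 3) O} {α : O}
    (ht : Trans c d F G F1 G1 α) {v : Fin 3 → O} (h1 : eval v F1 = 0) (h2 : eval v G1 = 0) {J1 : O}
    (hJ : IsJ3 F1 G1 v J1) : IsJ3 F G v (α * J1) := by
  rcases ht with ⟨_, rfl, H, _, hG⟩ | ⟨_, m11, m12, m21, m22, hF, hG, rfl⟩
  · have e1 : grad F v = (1 : O) • grad F v + (0 : O) • grad G1 v := by simp
    have e2 : grad G v = eval v H • grad F v + α • grad G1 v :=
      Sa1_grad (by rw [hG, add_comm]) h1 h2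
    have := Sa1_J e1 e2 hJ
    simpa using this
  · have e1 : grad F v = m11 • grad F1 v + m12 • grad G1 v := by
      have := Sa1_grad hF h1 h2
      simpa using this
    have e2 : grad G v = m21 • grad F1 v + m22 • grad G1 v := by
      have := Sa1_grad hG h1 h2
      simpa using this
    exact Sa1_J e1 e2 hJ

theorem Sa1_unique {O : Type} [CommRing O] [IsDomain O] {F G : MvPolynomial (Fin 3) O} {v : Fin 3 → O}
    (hv : v ≠ 0) {J J' : O} (h : IsJ3 F G v J) (h' : IsJ3 F G v J') : J = J' := by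
  obtain ⟨i, hi⟩ := Function.ne_iff.mp hv
  have e : J • v = J' • v := by rw [← h, ← h']
  have e2 := congrFun e i
  simp only [Pi.smul_apply, smul_eq_mul] at e2
  exact mul_right_cancel₀ hi e2

theorem Sa1_dvd {O I : Type} [CommRing O] [IsDomain O] {c d : ℕ} (hcd : c ≤ d) (v : I → Fin 3 → O)
    {F1 G1 F2 G2 : MvPolynomial (Fin 3) O}
    (hF2 : F2.IsHomogeneous c) (hG2 : G2.IsHomogeneous d)
    (v1 : ∀ z, eval (v z) F1 = 0) (w1 : ∀ z, eval (v z) G1 = 0)
    (v2 : ∀ z, eval (v z) F2 = 0) (w2 : ∀ z, eval (v z) G2 = 0)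
    (g1 : DegGen v c d F1 G1) (heq : c < d → F1 = F2) (z : I)
    (hv : v z ≠ 0) {J1 J2 : O} (hJ1 : IsJ3 F1 G1 (v z) J1) (hJ2 : IsJ3 F2 G2 (v z) J2) :
    J1 ∣ J2 := by
  obtain ⟨U, a, _, hU⟩ := g1 G2 hG2 w2
  have eG := Sa1_grad hU (v1 z) (w1 z)
  rcases hcd.lt_or_eq with h | h
  · have hF := heq h
    have eF : grad F2 (v z) = (1 : O) • grad F1 (v z) + (0 : O) • grad G1 (v z) := by
      rw [hF]; simp
    have := Sa1_unique hv hJ2 (Sa1_J eF eG hJ1)
    exact ⟨_, by rw [this, mul_comm]⟩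
  · subst h
    obtain ⟨U', a', _, hU'⟩ := g1 F2 hF2 v2
    have eF := Sa1_grad hU' (v1 z) (w1 z)
    have := Sa1_unique hv hJ2 (Sa1_J eF eG hJ1)
    exact ⟨_, by rw [this, mul_comm]⟩

theorem jac_unique {O I : Type} [CommRing O] [IsDomain O] {c d : ℕ} (hcd : c ≤ d) (v : I → Fin 3 → O)
    {F1 G1 F2 G2 : MvPolynomial (Fin 3) O} (hF1 : F1.IsHomogeneous c) (hG1 : G1.IsHomogeneous d)
    (hF2 : F2.IsHomogeneous c) (hG2 : G2.IsHomogeneous d)
    (v1 : ∀ z, eval (v z) F1 = 0) (w1 : ∀ z, eval (v z) G1 = 0)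
    (v2 : ∀ z, eval (v z) F2 = 0) (w2 : ∀ z, eval (v z) G2 = 0)
    (g1 : DegGen v c d F1 G1) (g2 : DegGen v c d F2 G2) (heq : c < d → F1 = F2) (z : I)
    (hv : v z ≠ 0) {J1 J2 : O} (hJ1 : IsJ3 F1 G1 (v z) J1) (hJ2 : IsJ3 F2 G2 (v z) J2) :
    Associated J1 J2 :=
  associated_of_dvd_dvd
    (Sa1_dvd hcd v hF2 hG2 v1 w1 v2 w2 g1 heq z hv hJ1 hJ2)
    (Sa1_dvd hcd v hF1 hG1 v2 w2 v1 w1 g2 (fun h => (heq h).symm) z hv hJ2 hJ1)

theorem unique_J3 {O : Type} [CommRing O] [IsDomain O] {F G : MvPolynomial (Fin 3) O} {v : Fin 3 → O}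
    (hv : v ≠ 0) {J J' : O} (h : IsJ3 F G v J) (h' : IsJ3 F G v J') : J = J' :=
  Sa1_unique hv h h'

end GP80

end S_H80_GP_Sa1

section S_H80_GP_Sa3

/-!
# Row Sa3 (MP_87ed0a_GP): the big determinant under a transition  (about 150 lines)

Claim: `bigDet e F G β = α ^ nn (c - 2) * bigDet e F1 G1 β`.

Proof.  Write the matrix of `bigDet e F G β` as `T * (matrix of bigDet e F1 G1 β)`, `T` a square matrix with index set `(Mon (d-2) ⊕ Mon (c-2)) ⊕ I`
(`Matrix.det_mul`; entries are coefficients of the polynomials of the rows, which are linear in the rows).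
Case `c < d`: row `m F = m F1` (`T` = identity there), row `m G = α (m G1) + ∑_{m'} coeff_{m'}(m H) (m' F1)` with `m'` running over `Mon (d-2)` (`m H` is homogeneous of degree
`(c-2) + (d-c) = d-2`, `c ≥ 2`), row `β i` unchanged.  `T` is block lower triangular with diagonal blocks `1`, `α • 1` (of size `card (Mon (c-2)) = nn (c-2)` by `card_Mon`), `1`:
`Matrix.det_fromBlocks_zero₁₂` etc.
Case `c = d` (`subst`): `m F = m11 (m F1) + m12 (m G1)`, `m G = m21 (m F1) + m22 (m G1)`; `T = fromBlocks (fromBlocks (m11 • 1) (m12 • 1) (m21 • 1) (m22 • 1)) 0 0 1`; the determinant of the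
`2 × 2` block matrix of scalar matrices is `(m11 m22 - m12 m21)^card` (`Matrix.det_fromBlocks` needs invertibility; instead: it is the Kronecker product of a `2 × 2` matrix with `1`
after reindexing, `Matrix.det_kronecker`; or `Matrix.det_fromBlocks_of_comm`-type lemma; or: both sides are polynomials in `m11`, reduce to the generic case over the
fraction field of `ℤ[m11, m12, m21, m22]`).
-/

namespace GP80

open MvPolynomial

theorem Sa3_exp {O : Type} [CommRing O] {t : ℕ} {f : MvPolynomial (Fin 3) O}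
    (hf : f.IsHomogeneous t) : ∑ m : Mon t, C (coeff m.1 f) * monomial m.1 (1 : O) = f := by
  obtain ⟨b, hb, hr⟩ := exists_basisMon O t
  have h1 := b.sum_repr (HS.mk f hf)
  have h2 := congrArg HS.val h1
  rw [HS.val_sum] at h2
  rw [HS.val_mk] at h2
  refine Eq.trans ?_ h2
  refine Finset.sum_congr rfl fun m _ => ?_
  rw [HS.val_smul, hb, hr, HS.val_mk]

theorem Sa3_hom {O : Type} [CommRing O] {t : ℕ} (m : Mon t) :
    (monomial m.1 (1 : O)).IsHomogeneous t := by
  obtain ⟨b, hb, -⟩ := exists_basisMon O t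
  rw [← hb m]
  exact (b m).prop

/-- the rows of the big determinant -/
noncomputable def Sa3_row {O I : Type} [CommRing O] {a b : ℕ} (F G : MvPolynomial (Fin 3) O)
    (β : I → MvPolynomial (Fin 3) O) : (Mon a ⊕ Mon b) ⊕ I → MvPolynomial (Fin 3) O :=
  Sum.elim (Sum.elim (fun m => monomial m.1 (1 : O) * F) (fun m => monomial m.1 (1 : O) * G)) β

theorem Sa3_mul {O I : Type} [CommRing O] [Fintype I] [DecidableEq I] {c d : ℕ}
    (e : (Mon (d - 2) ⊕ Mon (c - 2)) ⊕ I ≃ Mon (c + d - 2))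
    {F G F1 G1 : MvPolynomial (Fin 3) O} (β : I → MvPolynomial (Fin 3) O)
    (T : Matrix ((Mon (d - 2) ⊕ Mon (c - 2)) ⊕ I) ((Mon (d - 2) ⊕ Mon (c - 2)) ⊕ I) O)
    (hT : ∀ r, Sa3_row (a := d - 2) (b := c - 2) F G β r = ∑ r', C (T r r') * Sa3_row F1 G1 β r') :
    bigDet e F G β = T.det * bigDet e F1 G1 β := by
  unfold bigDet
  rw [← Matrix.det_mul]
  congr 1
  ext r s
  rw [Matrix.mul_apply]
  show coeff (e s).1 (Sa3_row F G β r) = ∑ r', T r r' * coeff (e s).1 (Sa3_row F1 G1 β r')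
  rw [hT r, coeff_sum]
  exact Finset.sum_congr rfl fun r' _ => coeff_C_mul _ _ _

theorem Sa3_one {O R n : Type} [CommRing O] [CommRing R] [Fintype n] [DecidableEq n] (φ : O →+* R)
    (a : O) (f : n → R) (m : n) :
    ∑ m', φ ((a • (1 : Matrix n n O)) m m') * f m' = φ a * f m := by
  rw [Finset.sum_eq_single m]
  · simp
  · intro m' _ hm
    simp [Matrix.one_apply, Ne.symm hm]
  · intro h
    exact absurd (Finset.mem_univ m) h

theorem Sa3_one' {O R n : Type} [CommRing O] [CommRing R] [Fintype n] [DecidableEq n] (φ : O →+* R)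
    (f : n → R) (m : n) :
    ∑ m', φ ((1 : Matrix n n O) m m') * f m' = f m := by
  have h := Sa3_one φ 1 f m
  rwa [one_smul, map_one, one_mul] at h

theorem Sa3_zero {O R n n' : Type} [CommRing O] [CommRing R] [Fintype n] (φ : O →+* R)
    (f : n → R) (m : n') : ∑ m', φ ((0 : Matrix n' n O) m m') * f m' = 0 :=
  Finset.sum_eq_zero fun m' _ => by rw [Matrix.zero_apply, map_zero, zero_mul]

theorem Sa3_T1 {O R A B I : Type} [CommRing O] [CommRing R] [Fintype A] [DecidableEq A] [Fintype B]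
    [DecidableEq B] [Fintype I] [DecidableEq I] (φ : O →+* R) (f : A → R) (g : B → R) (β : I → R)
    (α : O) (Bm : Matrix B A O) (r : (A ⊕ B) ⊕ I) :
    Sum.elim (Sum.elim f (fun m => φ α * g m + ∑ m', φ (Bm m m') * f m')) β r =
      ∑ r', φ ((Matrix.fromBlocks (Matrix.fromBlocks 1 0 Bm (α • 1)) 0 0 1 :
        Matrix ((A ⊕ B) ⊕ I) ((A ⊕ B) ⊕ I) O) r r') * Sum.elim (Sum.elim f g) β r' := by
  rw [Fintype.sum_sum_type, Fintype.sum_sum_type]
  rcases r with (m | m) | i
  · simp only [Sum.elim_inl, Sum.elim_inr, Matrix.fromBlocks_apply₁₁,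
      Matrix.fromBlocks_apply₂₁, Matrix.fromBlocks_apply₂₂, Matrix.fromBlocks_apply₁₂, Sa3_one,
      Sa3_one', Sa3_zero, add_zero, zero_add]
  · simp only [Sum.elim_inl, Sum.elim_inr, Matrix.fromBlocks_apply₁₁,
      Matrix.fromBlocks_apply₂₁, Matrix.fromBlocks_apply₂₂, Matrix.fromBlocks_apply₁₂, Sa3_one,
      Sa3_one', Sa3_zero, add_zero, zero_add]
    rw [add_comm]
  · simp only [Sum.elim_inl, Sum.elim_inr, Matrix.fromBlocks_apply₁₁,
      Matrix.fromBlocks_apply₂₁, Matrix.fromBlocks_apply₂₂, Matrix.fromBlocks_apply₁₂, Sa3_one,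
      Sa3_one', Matrix.zero_apply, map_zero, zero_mul, Finset.sum_const_zero, add_zero, zero_add]

theorem Sa3_T2 {O R A I : Type} [CommRing O] [CommRing R] [Fintype A] [DecidableEq A]
    [Fintype I] [DecidableEq I] (φ : O →+* R) (f : A → R) (g : A → R) (β : I → R)
    (a b c d : O) (r : (A ⊕ A) ⊕ I) :
    Sum.elim (Sum.elim (fun m => φ a * f m + φ b * g m) (fun m => φ c * f m + φ d * g m)) β r =
      ∑ r', φ ((Matrix.fromBlocks (Matrix.fromBlocks (a • 1) (b • 1) (c • 1) (d • 1)) 0 0 1 :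
        Matrix ((A ⊕ A) ⊕ I) ((A ⊕ A) ⊕ I) O) r r') * Sum.elim (Sum.elim f g) β r' := by
  rw [Fintype.sum_sum_type, Fintype.sum_sum_type]
  rcases r with (m | m) | i
  · simp only [Sum.elim_inl, Sum.elim_inr, Matrix.fromBlocks_apply₁₁,
      Matrix.fromBlocks_apply₂₁, Matrix.fromBlocks_apply₂₂, Matrix.fromBlocks_apply₁₂, Sa3_one,
      Matrix.zero_apply, map_zero, zero_mul, Finset.sum_const_zero, add_zero]
  · simp only [Sum.elim_inl, Sum.elim_inr, Matrix.fromBlocks_apply₁₁,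
      Matrix.fromBlocks_apply₂₁, Matrix.fromBlocks_apply₂₂, Matrix.fromBlocks_apply₁₂, Sa3_one,
      Matrix.zero_apply, map_zero, zero_mul, Finset.sum_const_zero, add_zero]
  · simp only [Sum.elim_inl, Sum.elim_inr, Matrix.fromBlocks_apply₁₁,
      Matrix.fromBlocks_apply₂₁, Matrix.fromBlocks_apply₂₂, Matrix.fromBlocks_apply₁₂,
      Sa3_one', Matrix.zero_apply, map_zero, zero_mul, Finset.sum_const_zero, add_zero, zero_add]

/-- the equivalence of indices -/
def Sa3_e (n : Type) : n ⊕ n ≃ Fin 2 × n where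
  toFun := Sum.elim (fun i => (0, i)) (fun i => (1, i))
  invFun := fun p => if p.1 = 0 then Sum.inl p.2 else Sum.inr p.2
  left_inv := by
    rintro (i | i) <;> simp
  right_inv := by
    rintro ⟨j, i⟩
    fin_cases j <;> simp

open Kronecker in
theorem Sa3_det2 {O n : Type} [CommRing O] [Fintype n] [DecidableEq n] (a b c d : O) :
    (Matrix.fromBlocks (a • (1 : Matrix n n O)) (b • (1 : Matrix n n O)) (c • (1 : Matrix n n O))
      (d • (1 : Matrix n n O))).det = (a * d - b * c) ^ Fintype.card n := by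
  have h1 : Matrix.fromBlocks (a • (1 : Matrix n n O)) (b • (1 : Matrix n n O))
      (c • (1 : Matrix n n O)) (d • (1 : Matrix n n O)) =
      ((!![a, b; c, d] : Matrix (Fin 2) (Fin 2) O) ⊗ₖ (1 : Matrix n n O)).submatrix
        (Sa3_e n) (Sa3_e n) := by
    ext i j
    rcases i with i | i <;> rcases j with j | j <;>
      simp [Sa3_e, Matrix.kroneckerMap_apply]
  rw [h1, Matrix.det_submatrix_equiv_self, Matrix.det_kronecker, Matrix.det_one, one_pow, mul_one,
    Matrix.det_fin_two_of]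

theorem trans_bigDet {O I : Type} [CommRing O] [Fintype I] [DecidableEq I] {c d : ℕ} (hc : 2 ≤ c)
    (hcd : c ≤ d) (e : (Mon (d - 2) ⊕ Mon (c - 2)) ⊕ I ≃ Mon (c + d - 2))
    {F G F1 G1 : MvPolynomial (Fin 3) O} {α : O} (ht : Trans c d F G F1 G1 α)
    (β : I → MvPolynomial (Fin 3) O) :
    bigDet e F G β = α ^ nn (c - 2) * bigDet e F1 G1 β := by
  rcases ht with ⟨hlt, hF, H, hH, hG⟩ | ⟨heq, m11, m12, m21, m22, hF, hG, hα⟩
  · subst hF
    have h1 := Sa3_mul (c := c) (d := d) e (F := F) (G := G) (F1 := F) (G1 := G1) β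
      (Matrix.fromBlocks (Matrix.fromBlocks 1 0
        (Matrix.of fun (m : Mon (c - 2)) (m' : Mon (d - 2)) => coeff m'.1 (monomial m.1 (1 : O) * H))
        (α • 1)) 0 0 1) ?_
    · rw [h1, Matrix.det_fromBlocks_zero₁₂, Matrix.det_fromBlocks_zero₁₂, Matrix.det_one, one_mul,
        Matrix.det_one, mul_one, Matrix.det_smul, Matrix.det_one, mul_one, card_Mon]
    · intro r
      refine Eq.trans ?_ (Sa3_T1 C (fun m : Mon (d - 2) => monomial m.1 (1 : O) * F)
        (fun m : Mon (c - 2) => monomial m.1 (1 : O) * G1) β α _ r)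
      unfold Sa3_row
      congr 2
      funext m
      have h2 : (monomial m.1 (1 : O) * H).IsHomogeneous (d - 2) := by
        have h3 := (Sa3_hom (O := O) m).mul hH
        have h4 : c - 2 + (d - c) = d - 2 := by omega
        rwa [h4] at h3
      have h6 : (∑ m' : Mon (d - 2), C (coeff m'.1 (monomial m.1 (1 : O) * H)) *
          monomial m'.1 (1 : O)) * F = ∑ m' : Mon (d - 2),
          C (coeff m'.1 (monomial m.1 (1 : O) * H)) * (monomial m'.1 (1 : O) * F) := by
        rw [Finset.sum_mul]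
        exact Finset.sum_congr rfl fun _ _ => by ring
      rw [Sa3_exp h2] at h6
      refine Eq.trans ?_ (congrArg (fun z => C α * (monomial m.1 (1 : O) * G1) + z) h6)
      rw [hG]
      ring
  · subst heq
    have h1 := Sa3_mul (c := c) (d := c) e (F := F) (G := G) (F1 := F1) (G1 := G1) β
      (Matrix.fromBlocks (Matrix.fromBlocks (m11 • 1) (m12 • 1) (m21 • 1) (m22 • 1)) 0 0 1) ?_
    · rw [h1, Matrix.det_fromBlocks_zero₁₂, Matrix.det_one, mul_one, Sa3_det2, card_Mon, hα]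
    · intro r
      refine Eq.trans ?_ (Sa3_T2 C (fun m : Mon (c - 2) => monomial m.1 (1 : O) * F1)
        (fun m : Mon (c - 2) => monomial m.1 (1 : O) * G1) β m11 m12 m21 m22 r)
      unfold Sa3_row
      congr 2
      · funext m
        rw [hF]
        ring
      · funext m
        rw [hG]
        ring

end GP80

end S_H80_GP_Sa3

section S_H80_GP_Pol

/-!
# Row Pol (MP_87ed0a_GP): the connection has at most a simple pole (1.1)  (about 180 lines)

Claim: `pi DF, pi DG ∈ (F,G)`, with homogeneous coefficients; `CharZero k` is assumed.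

Proof.  `DF`, `DG` are homogeneous of degrees `c+1`, `d+1` (`DD_homog`) and vanish at the points (`ev_DD` with `F(v)=0`; `der 0 = 0`).  So by `gen` there is `m` with
`pi^m DF, pi^m DG ∈ (F,G)`; take `m` minimal and suppose `m ≥ 2`.  By `rel_exists_hom` there are `q1, q2` with
`Rel m (DF) q1`, `Rel m (DG) q2`, homogeneous of degrees `1 + kk - d`, `1 + kk - c` resp. (zero if negative).  They are not both divisible by
`Γ` (`rel_down` would lower `m`), in particular not both zero.  `kk < c ≤ d`: if `q2 ≠ 0` then `kk = c - 1` and `q2` is a constant; if `q1 ≠ 0` then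
`kk ≥ d - 1`, so `c = d`, `kk = c - 1`, `q1` constant.  Let `M11, .., M22` be the (homogeneous; M11, M22 of degree 1) coefficients of `pi^m DF = M11 F + M12 G`, `pi^m DG = M21 F + M22 G`
with reductions `M11 = q1 G'`, `M12 = - q1 F'`, `M21 = q2 G'`, `M22 = -q2 F'`.  The form `T := rho (M11 + M22) = q1 G' - q2 F'` is not zero: if
`c < d`, `q1 = 0`, `T = -q2 F' ≠ 0`; if `c = d` and `T = 0`: `q1 G' = q2 F'` with constants, `F', G'` of degree `1` and coprime forces `q1 = q2 = 0`.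
By `connection` with `p = pi^m` and `J = J_z = pi^w e` (`w = multiplicity`, `e` unit or just not divisible by `pi`; `J ≠ 0`): `δ J = w pi^(w-1) δ(pi) e + pi^w δ(e)`, so
`(M11+M22)(v) e = pi^(m-1) (w δ(pi) e + pi δ(e)) + pi^m (c+d-1) e` is divisible by `pi` (`m ≥ 2`), i.e. `T(rho v_z) = 0` for every `z`.  The
reduced points span `k^3` (`S.span`), so the linear form `T` is `0`.  Contradiction.  So `m ≤ 1`.

`theta_z` (second statement): with `m = 1`, dividing by `pi^w`: `(M11 + M22)(v) e = w δ(pi) e + pi (...)`, so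
`T(rho v_z) = w * Lz z`, where `Lz z = rho (δ pi)`.
-/

namespace GP80

open MvPolynomial

variable {O k I : Type} [CommRing O] [IsDomain O] [IsDiscreteValuationRing O] [Field k] [CharZero k]
  [Fintype I] {D0 c d kk : ℕ}

section Pol_general
variable {R : Type} [CommRing R]

theorem Pol_comp_mul (A F : MvPolynomial (Fin 3) R) {c : ℕ} (hF : F.IsHomogeneous c) (t : ℕ) :
    homogeneousComponent t (A * F) =
      if c ≤ t then homogeneousComponent (t - c) A * F else 0 := by
  classical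
  conv_lhs => rw [← sum_homogeneousComponent A, Finset.sum_mul, map_sum]
  have h1 : ∀ i, homogeneousComponent t (homogeneousComponent i A * F) =
      if i + c = t then homogeneousComponent i A * F else 0 := by
    intro i
    have h2 : (homogeneousComponent i A * F) ∈ homogeneousSubmodule (Fin 3) R (i + c) :=
      (homogeneousComponent_isHomogeneous i A).mul hF
    rw [homogeneousComponent_of_mem h2]
    exact if_congr eq_comm rfl rfl
  rw [Finset.sum_congr rfl fun i _ => h1 i]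
  split_ifs with hct
  · by_cases hr : t - c ∈ Finset.range (A.totalDegree + 1)
    · rw [Finset.sum_eq_single_of_mem (t - c) hr]
      · rw [if_pos (Nat.sub_add_cancel hct)]
      · intro b _ hb
        rw [if_neg]
        omega
    · have h3 : homogeneousComponent (t - c) A = 0 := by
        apply homogeneousComponent_eq_zero
        rw [Finset.mem_range] at hr
        omega
      rw [h3, zero_mul]
      refine Finset.sum_eq_zero fun i hi => ?_
      rw [if_neg]
      rintro h4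
      apply hr
      have h5 : t - c = i := by omega
      rw [h5]
      exact hi
  · refine Finset.sum_eq_zero fun i _ => ?_
    rw [if_neg]
    omega

/-- homogeneous coefficients -/
theorem Pol_hom {p : R} {h F G A B : MvPolynomial (Fin 3) R} {t c d : ℕ}
    (hh : h.IsHomogeneous t) (hF : F.IsHomogeneous c) (hG : G.IsHomogeneous d)
    (e : C p * h = A * F + B * G) :
    ∃ A' B' : MvPolynomial (Fin 3) R, A'.IsHomogeneous (t - c) ∧ B'.IsHomogeneous (t - d) ∧
      C p * h = A' * F + B' * G := by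
  refine ⟨if c ≤ t then homogeneousComponent (t - c) A else 0,
    if d ≤ t then homogeneousComponent (t - d) B else 0, ?_, ?_, ?_⟩
  · split_ifs
    · exact homogeneousComponent_isHomogeneous _ _
    · exact isHomogeneous_zero _ _ _
  · split_ifs
    · exact homogeneousComponent_isHomogeneous _ _
    · exact isHomogeneous_zero _ _ _
  · have h1 := congrArg (homogeneousComponent t) e
    rw [homogeneousComponent_C_mul, homogeneousComponent_eq_self hh, map_add,
      Pol_comp_mul A F hF, Pol_comp_mul B G hG] at h1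
    rw [h1]
    congr 1
    · split_ifs <;> simp
    · split_ifs <;> simp

end Pol_general

section Pol_field
variable {k : Type} [Field k]

/-- a linear form which vanishes on a spanning set -/
theorem Pol_lin {I : Type} {T : MvPolynomial (Fin 3) k} (hT : T.IsHomogeneous 1)
    (w : I → Fin 3 → k) (hs : Submodule.span k (Set.range w) = ⊤) (h0 : ∀ z, eval (w z) T = 0) :
    T = 0 := by
  have h1 : ∀ i, ∃ a : k, pderiv i T = C a := fun i => by
    have h2 := hT.pderiv (i := i)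
    rw [Nat.sub_self, ← totalDegree_zero_iff_isHomogeneous, totalDegree_eq_zero_iff_eq_C] at h2
    exact ⟨_, h2⟩
  choose a ha using h1
  have hTe : T = ∑ i, X i * C (a i) := by
    have h2 := hT.sum_X_mul_pderiv
    rw [one_smul] at h2
    rw [← h2]
    exact Finset.sum_congr rfl fun i _ => by rw [ha]
  have hev : ∀ u : Fin 3 → k, eval u T = ∑ i, u i * a i := by
    intro u
    rw [hTe, map_sum]
    exact Finset.sum_congr rfl fun i _ => by simp
  let L : (Fin 3 → k) →ₗ[k] k :=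
    { toFun := fun u => ∑ i, u i * a i
      map_add' := fun x y => by simp [add_mul, Finset.sum_add_distrib]
      map_smul' := fun r x => by simp [Finset.mul_sum, mul_assoc] }
  have hL : (⊤ : Submodule k (Fin 3 → k)) ≤ LinearMap.ker L := by
    rw [← hs, Submodule.span_le]
    rintro _ ⟨z, rfl⟩
    rw [SetLike.mem_coe, LinearMap.mem_ker]
    exact (hev (w z)).symm.trans (h0 z)
  have ha0 : ∀ i, a i = 0 := by
    intro i
    have h3 : L (Pi.single i 1) = 0 := hL (Submodule.mem_top)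
    have h4 : L (Pi.single i 1) = a i := by
      change ∑ j, (Pi.single i 1 : Fin 3 → k) j * a j = a i
      rw [Finset.sum_eq_single i]
      · simp
      · intro b _ hb
        simp [hb]
      · intro h
        exact absurd (Finset.mem_univ i) h
    rw [← h4, h3]
  rw [hTe]
  exact Finset.sum_eq_zero fun i _ => by rw [ha0 i, C_0, mul_zero]

/-- the algebra of the reduced relations -/
theorem Pol_alg {F' G' A1 B1 A2 B2 : MvPolynomial (Fin 3) k} {u v : ℕ} (hF' : F'.IsHomogeneous u)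
    (hG' : G'.IsHomogeneous v) (huv : 2 ≤ u + v) (nF : F' ≠ 0) (nG : G' ≠ 0)
    (cop : IsRelPrime F' G') (e1 : A1 * F' + B1 * G' = 0) (e2 : A2 * F' + B2 * G' = 0)
    (hA1 : A1.IsHomogeneous 1) (hT : A1 + B2 = 0) : A1 = 0 ∧ B1 = 0 ∧ A2 = 0 ∧ B2 = 0 := by
  have d1 : G' ∣ A1 := by
    refine IsRelPrime.dvd_of_dvd_mul_right cop.symm ?_
    exact ⟨-B1, by linear_combination e1⟩
  obtain ⟨q1, rfl⟩ := d1
  have d2 : F' ∣ B2 := by
    refine IsRelPrime.dvd_of_dvd_mul_right cop ?_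
    exact ⟨-A2, by linear_combination e2⟩
  obtain ⟨r2, rfl⟩ := d2
  have hB1 : B1 = -(q1 * F') := by
    have h3 : G' * (B1 + q1 * F') = 0 := by linear_combination e1
    rcases mul_eq_zero.1 h3 with h4 | h4
    · exact absurd h4 nG
    · linear_combination h4
  have hA2 : A2 = -(r2 * G') := by
    have h3 : F' * (A2 + r2 * G') = 0 := by linear_combination e2
    rcases mul_eq_zero.1 h3 with h4 | h4
    · exact absurd h4 nF
    · linear_combination h4
  have d3 : F' ∣ q1 := by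
    refine IsRelPrime.dvd_of_dvd_mul_left cop ?_
    exact ⟨-r2, by linear_combination hT⟩
  obtain ⟨s, rfl⟩ := d3
  have hs : s = 0 := by
    by_contra hs
    have hFs : F' * s ≠ 0 := mul_ne_zero nF hs
    have h5 := hA1.totalDegree (mul_ne_zero nG hFs)
    rw [totalDegree_mul_of_isDomain nG hFs, totalDegree_mul_of_isDomain nF hs,
      hF'.totalDegree nF, hG'.totalDegree nG] at h5
    omega
  subst hs
  have hr : F' * r2 = 0 := by linear_combination hT
  have hr2 : r2 = 0 := (mul_eq_zero.1 hr).resolve_left nF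
  subst hr2
  refine ⟨by ring, ?_, ?_, by ring⟩
  · rw [hB1]; ring
  · rw [hA2]; ring

end Pol_field

theorem Pol_eval_map {O k : Type} [CommRing O] [Field k] (ρ : O →+* k) (v : Fin 3 → O)
    (M : MvPolynomial (Fin 3) O) : eval (fun i => ρ (v i)) (map ρ M) = ρ (eval v M) := by
  induction M using MvPolynomial.induction_on with
  | C a => simp
  | add p q hp hq => rw [map_add, map_add, map_add, map_add, hp, hq]
  | mul_X p i hp => rw [map_mul, map_mul, map_mul, map_mul, hp]; simp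

section Pol_main
variable {O k I : Type} [CommRing O] [IsDomain O] [IsDiscreteValuationRing O] [Field k]
  [Fintype I] {D0 c d kk : ℕ}

/-- the connection at a point, reduced -/
theorem Pol_key (S : GeoS O k I D0) {F G : MvPolynomial (Fin 3) O} (h : PairS S c d F G)
    (z : I) {j : O} (hJ : IsJ3 F G (S.v z) j) (hJ0 : j ≠ 0) (m : ℕ)
    {M11 M12 M21 M22 : MvPolynomial (Fin 3) O}
    (h1 : C (S.pi ^ (m + 1)) * DD S.der F = M11 * F + M12 * G)
    (h2 : C (S.pi ^ (m + 1)) * DD S.der G = M21 * F + M22 * G) :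
    eval (S.vb z) (map S.rho (M11 + M22)) =
      S.rho (S.pi ^ m) * ((multiplicity S.pi j : k) * S.Lz z) := by
  have hv0 : ∃ i, S.v z i ≠ 0 := by
    obtain ⟨i, hi⟩ := S.unim z
    exact ⟨i, hi.ne_zero⟩
  have hc := connection S.der (fun i l => S.hder i z l) hv0 h.hF h.hG (h.vF z) (h.vG z) h1 h2 hJ
  have hfin : FiniteMultiplicity S.pi j := FiniteMultiplicity.of_prime_left S.prime hJ0
  obtain ⟨e, he, hne⟩ := hfin.exists_eq_pow_mul_and_not_dvd
  set w := multiplicity S.pi j with hw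
  have hρe : S.rho e ≠ 0 := fun h3 => hne ((S.ker e).1 h3)
  have hρpi : S.rho S.pi = 0 := (S.ker S.pi).2 dvd_rfl
  have hpi0 : S.pi ≠ 0 := S.prime.ne_zero
  -- the derivatives of `j`
  have hder : ∀ i, S.pi * S.der i j = (w : O) * S.pi ^ w * e * S.der i S.pi +
      S.pi ^ (w + 1) * S.der i e := by
    intro i
    rw [he, Derivation.leibniz, Derivation.leibniz_pow]
    simp only [smul_eq_mul, nsmul_eq_mul]
    rcases Nat.eq_zero_or_pos w with h0 | h0
    · rw [h0]
      simp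
    · obtain ⟨w', hw'⟩ : ∃ w', w = w' + 1 := ⟨w - 1, by omega⟩
      rw [hw', Nat.add_sub_cancel]
      push_cast
      ring
  have hsum : S.pi * ∑ i, S.v z i * S.der i j = S.pi ^ w *
      ((w : O) * e * (∑ i, S.v z i * S.der i S.pi) + S.pi * ∑ i, S.v z i * S.der i e) := by
    rw [Finset.mul_sum, Finset.mul_sum, Finset.mul_sum, ← Finset.sum_add_distrib, Finset.mul_sum]
    refine Finset.sum_congr rfl fun i _ => ?_
    have h3 := hder i
    linear_combination (S.v z i) * h3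
  have hfact : S.pi * S.pi ^ w * ((eval (S.v z) M11 + eval (S.v z) M22) * e) =
      S.pi * S.pi ^ w * (S.pi ^ m * ((w : O) * e * (∑ i, S.v z i * S.der i S.pi) +
        S.pi * ∑ i, S.v z i * S.der i e + S.pi * ((c : O) + d - 1) * e)) := by
    have h3 : S.pi * (S.pi ^ (m + 1) * ∑ i, S.v z i * S.der i j) =
        S.pi * ((eval (S.v z) M11 + eval (S.v z) M22) * j -
          S.pi ^ (m + 1) * ((c : O) + d - 1) * j) := by rw [hc]
    have h4 : j = S.pi ^ w * e := he
    rw [h4] at h3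
    rw [h4] at hsum
    linear_combination -h3 + S.pi ^ (m + 1) * hsum
  have hcan := mul_left_cancel₀ (mul_ne_zero hpi0 (pow_ne_zero w hpi0)) hfact
  have hρ := congrArg S.rho hcan
  simp only [map_mul, map_add, map_sum, hρpi, zero_mul, add_zero, map_natCast] at hρ
  have hgoal : eval (S.vb z) (map S.rho (M11 + M22)) =
      S.rho (eval (S.v z) M11) + S.rho (eval (S.v z) M22) := by
    unfold GeoS.vb
    rw [Pol_eval_map, map_add, map_add]
  rw [hgoal]
  apply mul_right_cancel₀ hρe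
  rw [hρ]
  unfold GeoS.Lz
  ring

/-- descent -/
theorem Pol_step (S : GeoS O k I D0) {F G : MvPolynomial (Fin 3) O}
    {Γ F' G' : MvPolynomial (Fin 3) k} (h : SatS S c d F G Γ F' G' kk) (hcd : c ≤ d)
    (J : I → O) (hJ : ∀ z, IsJ3 F G (S.v z) (J z)) (hJ0 : ∀ z, J z ≠ 0) (m : ℕ)
    (h1 : C (S.pi ^ (m + 2)) * DD S.der F ∈ Ideal.span {F, G})
    (h2 : C (S.pi ^ (m + 2)) * DD S.der G ∈ Ideal.span {F, G}) :
    C (S.pi ^ (m + 1)) * DD S.der F ∈ Ideal.span {F, G} ∧
      C (S.pi ^ (m + 1)) * DD S.der G ∈ Ideal.span {F, G} := by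
  obtain ⟨a1, b1, e1⟩ := Ideal.mem_span_pair.1 h1
  obtain ⟨a2, b2, e2⟩ := Ideal.mem_span_pair.1 h2
  obtain ⟨A1, B1, hA1, -, E1⟩ := Pol_hom (DD_homog S.der h.pair.hF) h.pair.hF h.pair.hG e1.symm
  obtain ⟨A2, B2, -, hB2, E2⟩ := Pol_hom (DD_homog S.der h.pair.hG) h.pair.hF h.pair.hG e2.symm
  rw [Nat.add_sub_cancel_left] at hA1 hB2
  have hρpi : S.rho S.pi = 0 := (S.ker S.pi).2 dvd_rfl
  have hT : map S.rho (A1 + B2) = 0 := by
    refine Pol_lin ((hA1.add hB2).map S.rho) (fun z => (fun i => S.rho (S.v z i))) S.span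
      fun z => ?_
    have h3 := Pol_key S h.pair z (hJ z) (hJ0 z) (m + 1) E1 E2
    have h4 : S.rho (S.pi ^ (m + 1)) = 0 := by
      rw [map_pow, hρpi, zero_pow (Nat.succ_ne_zero m)]
    rw [h4, zero_mul] at h3
    exact h3
  have hred : ∀ {f A B : MvPolynomial (Fin 3) O}, C (S.pi ^ (m + 2)) * f = A * F + B * G →
      map S.rho A * F' + map S.rho B * G' = 0 := by
    intro f A B e
    have h3 := congrArg (map S.rho) e
    rw [map_mul, map_C, map_pow, hρpi, zero_pow (Nat.succ_ne_zero _), C_0, zero_mul, map_add,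
      map_mul, map_mul, h.eF, h.eG] at h3
    have h4 : Γ * (map S.rho A * F' + map S.rho B * G') = 0 := by linear_combination -h3
    exact (mul_eq_zero.1 h4).resolve_left h.nzΓ
  have hlt := h.lt
  obtain ⟨z1, z2, z3, z4⟩ := Pol_alg h.hF' h.hG' (by omega) h.nzF h.nzG h.cop (hred E1) (hred E2)
    (hA1.map S.rho) (by rw [← map_add]; exact hT)
  have hpc : (C S.pi : MvPolynomial (Fin 3) O) ≠ 0 := (C_pi_prime S).ne_zero
  have hfin : ∀ {f A B : MvPolynomial (Fin 3) O}, C (S.pi ^ (m + 2)) * f = A * F + B * G →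
      map S.rho A = 0 → map S.rho B = 0 → C (S.pi ^ (m + 1)) * f ∈ Ideal.span {F, G} := by
    intro f A B e hA hB
    obtain ⟨x, rfl⟩ := (map_eq_zero_iff S A).1 hA
    obtain ⟨y, rfl⟩ := (map_eq_zero_iff S B).1 hB
    refine Ideal.mem_span_pair.2 ⟨x, y, ?_⟩
    apply mul_left_cancel₀ hpc
    rw [pow_succ, C_mul] at e
    linear_combination -e
  exact ⟨hfin E1 z1 z2, hfin E2 z3 z4⟩

theorem Pol_sat (S : GeoS O k I D0) {F G : MvPolynomial (Fin 3) O} (h : PairS S c d F G)
    {f : MvPolynomial (Fin 3) O} {t : ℕ} (hf : f.IsHomogeneous t)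
    (h0 : ∀ z, eval (S.v z) f = 0) :
    ∃ m : ℕ, C (S.pi ^ m) * DD S.der f ∈ Ideal.span {F, G} := by
  refine h.gen (t + 1) _ (DD_homog S.der hf) fun z => ?_
  have h1 := ev_DD S.der (S.v z) (fun i l => S.hder i z l) hf
  rw [h0 z] at h1
  simp only [map_zero, mul_zero, Finset.sum_const_zero, sub_zero] at h1
  exact h1.symm

theorem Pol_up (S : GeoS O k I D0) {F G f : MvPolynomial (Fin 3) O} {m n : ℕ} (hmn : m ≤ n)
    (h : C (S.pi ^ m) * f ∈ Ideal.span {F, G}) : C (S.pi ^ n) * f ∈ Ideal.span {F, G} := by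
  obtain ⟨l, rfl⟩ := Nat.exists_eq_add_of_le hmn
  rw [pow_add, C_mul, mul_comm (C (S.pi ^ m)), mul_assoc]
  exact Ideal.mul_mem_left _ _ h

theorem Pol_down (S : GeoS O k I D0) {F G : MvPolynomial (Fin 3) O}
    {Γ F' G' : MvPolynomial (Fin 3) k} (h : SatS S c d F G Γ F' G' kk) (hcd : c ≤ d)
    (J : I → O) (hJ : ∀ z, IsJ3 F G (S.v z) (J z)) (hJ0 : ∀ z, J z ≠ 0) (m : ℕ)
    (h1 : C (S.pi ^ (m + 1)) * DD S.der F ∈ Ideal.span {F, G})
    (h2 : C (S.pi ^ (m + 1)) * DD S.der G ∈ Ideal.span {F, G}) :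
    C (S.pi ^ 1) * DD S.der F ∈ Ideal.span {F, G} ∧
      C (S.pi ^ 1) * DD S.der G ∈ Ideal.span {F, G} := by
  induction m with
  | zero => exact ⟨h1, h2⟩
  | succ m ih =>
    obtain ⟨h3, h4⟩ := Pol_step S h hcd J hJ hJ0 m h1 h2
    exact ih h3 h4

end Pol_main

theorem simple_pole (S : GeoS O k I D0) {F G : MvPolynomial (Fin 3) O}
    {Γ F' G' : MvPolynomial (Fin 3) k} (h : SatS S c d F G Γ F' G' kk) (hc : 2 ≤ c) (hcd : c ≤ d)
    (J : I → O) (hJ : ∀ z, IsJ3 F G (S.v z) (J z)) (hJ0 : ∀ z, J z ≠ 0) :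
    ∃ M11 M12 M21 M22 : MvPolynomial (Fin 3) O, M11.IsHomogeneous 1 ∧ M22.IsHomogeneous 1 ∧
      C S.pi * DD S.der F = M11 * F + M12 * G ∧ C S.pi * DD S.der G = M21 * F + M22 * G := by
  have _ := hc
  obtain ⟨m1, hm1⟩ := Pol_sat S h.pair h.pair.hF h.pair.vF
  obtain ⟨m2, hm2⟩ := Pol_sat S h.pair h.pair.hG h.pair.vG
  obtain ⟨h1, h2⟩ := Pol_down S h hcd J hJ hJ0 (m1 + m2) (Pol_up S (by omega) hm1)
    (Pol_up S (by omega) hm2)
  rw [pow_one] at h1 h2
  obtain ⟨a1, b1, e1⟩ := Ideal.mem_span_pair.1 h1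
  obtain ⟨a2, b2, e2⟩ := Ideal.mem_span_pair.1 h2
  obtain ⟨A1, B1, hA1, -, E1⟩ := Pol_hom (DD_homog S.der h.pair.hF) h.pair.hF h.pair.hG e1.symm
  obtain ⟨A2, B2, -, hB2, E2⟩ := Pol_hom (DD_homog S.der h.pair.hG) h.pair.hF h.pair.hG e2.symm
  rw [Nat.add_sub_cancel_left] at hA1 hB2
  exact ⟨A1, B1, A2, B2, hA1, hB2, E1, E2⟩

theorem theta_z (S : GeoS O k I D0) {F G : MvPolynomial (Fin 3) O}
    {Γ F' G' : MvPolynomial (Fin 3) k} (h : SatS S c d F G Γ F' G' kk)
    (J : I → O) (hJ : ∀ z, IsJ3 F G (S.v z) (J z)) (hJ0 : ∀ z, J z ≠ 0)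
    {M11 M12 M21 M22 : MvPolynomial (Fin 3) O}
    (h1 : C S.pi * DD S.der F = M11 * F + M12 * G) (h2 : C S.pi * DD S.der G = M21 * F + M22 * G)
    (z : I) : eval (S.vb z) (map S.rho (M11 + M22)) = (multiplicity S.pi (J z) : k) * S.Lz z := by
  have h3 := Pol_key S h.pair z (hJ z) (hJ0 z) 0 (by rw [zero_add, pow_one]; exact h1)
    (by rw [zero_add, pow_one]; exact h2)
  rw [h3, pow_zero, map_one, one_mul]

end GP80

end S_H80_GP_Pol

section S_H80_GP_Tht

/-!
# Row Tht (MP_87ed0a_GP): D acts on the layers, formula (1) of 1.1  (about 90 lines)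

Given `pi DF = M11 F + M12 G`, `pi DG = M21 F + M22 G`, put `Θ = rho (M11 + M22)`.
Then `Rel i h q` (`i ≥ 1`) implies `Rel (i+1) (DD h) ((Θ - i L) q)`.

Proof.  `pi^i h = A F + B G`.  `D` is a derivation (`DD_mul`), `D (C (pi^i)) = i pi^(i-1) D(C pi)`, so
`pi^(i+1) Dh = pi D(pi^i h) - i (D pi) pi^i h = (pi DA + A M11 + B M21 - i (D pi) A) F + (pi DB + A M12 + B M22 - i (D pi) B) G`.
Reduce the two coefficients: `rho A = q G'`, `rho B = - q F'`, and, reducing `pi DF = ...`, `rho M11 * Γ F' + rho M12 * Γ G' = 0`, so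
`rho M11 = r1 G'`, `rho M12 = - r1 F'` and similarly `rho M21 = r2 G'`, `rho M22 = - r2 F'` (as in `rel_exists`).  So
`Θ = r1 G' - r2 F'` and
`rho(first) = q G' r1 G' - q F' r2 G' - i L q G' = (Θ - i L) q G'`,
`rho(second) = - q G' r1 F' + q F' r2 F' + i L q F' = - (Θ - i L) q F'`.
(`rho (D (C pi)) = L = S.LL` by `DD_C`.)
-/

namespace GP80

open MvPolynomial

private theorem Tht_pow {O : Type} [CommRing O] (der : Fin 3 → Derivation ℤ O O) (a : O) (j : ℕ) :
    DD der (C (a ^ (j + 1)) : MvPolynomial (Fin 3) O) =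
      ((j + 1 : ℕ) : MvPolynomial (Fin 3) O) * C (a ^ j) * DD der (C a) := by
  induction j with
  | zero =>
    rw [zero_add, pow_one, pow_zero, C_1, Nat.cast_one, one_mul, one_mul]
  | succ j ih =>
    rw [pow_succ a (j + 1), C_mul, DD_mul, ih, Nat.cast_succ (j + 1)]
    rw [pow_succ a j, C_mul]
    ring

theorem rel_DD {O k I : Type} [CommRing O] [IsDomain O] [Field k] [Fintype I] {D0 c d kk : ℕ}
    {S : GeoS O k I D0} {F G : MvPolynomial (Fin 3) O}
    {Γ F' G' : MvPolynomial (Fin 3) k} (h : SatS S c d F G Γ F' G' kk)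
    {M11 M12 M21 M22 : MvPolynomial (Fin 3) O}
    (h1 : C S.pi * DD S.der F = M11 * F + M12 * G) (h2 : C S.pi * DD S.der G = M21 * F + M22 * G)
    {i : ℕ} (hi : 1 ≤ i) {f : MvPolynomial (Fin 3) O} {q : MvPolynomial (Fin 3) k}
    (hf : Rel S F G F' G' i f q) :
    Rel S F G F' G' (i + 1) (DD S.der f) ((map S.rho (M11 + M22) - (i : MvPolynomial (Fin 3) k) * S.LL) * q) := by
  obtain ⟨A, B, a1, a2, a3⟩ := hf
  obtain ⟨r1, b1, b2⟩ := Rla_coprime h le_rfl (DD S.der F) M11 M12 (by rw [pow_one, h1])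
  obtain ⟨r2, c1, c2⟩ := Rla_coprime h le_rfl (DD S.der G) M21 M22 (by rw [pow_one, h2])
  obtain ⟨j, rfl⟩ : ∃ j, i = j + 1 := ⟨i - 1, by omega⟩
  have hz : map S.rho (C S.pi : MvPolynomial (Fin 3) O) = 0 :=
    (map_eq_zero_iff S _).2 dvd_rfl
  have hL : map S.rho (DD S.der (C S.pi)) = S.LL := by
    rw [DD_C, map_sum]
    refine Finset.sum_congr rfl fun i _ => ?_
    rw [map_mul, map_X, map_C]
  have e1 : DD S.der (C (S.pi ^ (j + 1)) * f) = DD S.der (A * F + B * G) := by rw [a1]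
  rw [DD_mul, DD_add, DD_mul, DD_mul, Tht_pow] at e1
  refine ⟨C S.pi * DD S.der A + A * M11 + B * M21 -
      ((j + 1 : ℕ) : MvPolynomial (Fin 3) O) * DD S.der (C S.pi) * A,
    C S.pi * DD S.der B + A * M12 + B * M22 -
      ((j + 1 : ℕ) : MvPolynomial (Fin 3) O) * DD S.der (C S.pi) * B, ?_, ?_, ?_⟩
  · rw [pow_succ S.pi (j + 1), C_mul]
    rw [pow_succ S.pi j, C_mul] at a1 e1 ⊢
    linear_combination C S.pi * e1 -
      ((j + 1 : ℕ) : MvPolynomial (Fin 3) O) * DD S.der (C S.pi) * a1 + A * h1 + B * h2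
  · rw [map_sub, map_add, map_add, map_mul, map_mul, map_mul, map_mul, map_mul, hz, hL, a2, a3,
      b1, c1, map_add, b1, c2, map_natCast]
    ring
  · rw [map_sub, map_add, map_add, map_mul, map_mul, map_mul, map_mul, map_mul, hz, hL, a2, a3,
      b2, c2, map_add, b1, c2, map_natCast]
    ring

end GP80

end S_H80_GP_Tht

section S_H80_GP_Lst

/-!
# Row Lst (MP_87ed0a_GP): many points on a line annihilating the last layer (1.2)  (about 200 lines)

Let `n ≥ 1` be the last layer and `H` a nonzero linear form over `k` with `Γ ∣ H q` whenever `Rel n h q`.  Then at least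
`c + d - 1` of the reduced points `vb z` lie on `H = 0`.  Here `card I = c d`, `k` is infinite.

Proof.  Let `s` be that number, `N = card I`.
(a) There are `h*, q*` with `Rel n h* q*`, `¬ Γ ∣ q*` (`last_rel`).  `H` is irreducible (linear); if `H ∤ Γ`, then `Γ, H` are coprime and `Γ ∣ H q*` gives `Γ ∣ q*`;
so `Γ = H Γ1` and `Γ1 ∣ q` for all `Rel n h q`; write `q = Γ1 φ`; `Γ ∣ q` iff `H ∣ φ`.
(b) If `Rel n h q`, `Rel n h' q'` then `Rel n (h h') (rho h q')` and `Rel n (h h') (rho h' q)` (`rel_smul`), so `Γ ∣ rho h q' - rho h' q` (`rel_uniq`), i.e.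
`H ∣ rho h φ' - rho h' φ`.                                                                    (*)
(c) Choose a basis `u1, u2` of the plane `{x ∈ k^3 : ∑ H_i x_i = 0}` and let `res : k[X] → k[s,t]` (`MvPolynomial (Fin 2) k`), `f ↦ f(s u1 + t u2)`; `res f = 0` iff
`H ∣ f`.  Choose two non proportional linear forms `l1, l2` of `k[s,t]` (`X 0`, `X 1`).  For every `z` choose linear forms `e1_z, e2_z` over `O` vanishing at
`v z` with: if `vb z` is not on `H=0`: `res (rho ej_z) = lj` (possible: linear forms on `k^3` vanishing at `vb z` restrict isomorphically to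
the plane `H=0`; lift the coefficients to `O` and correct so that the form vanishes at `v z` exactly: `v z` has a unit coordinate); if `vb z` is on `H=0`: `res (rho ej_z) = ` the linear form `m_z` on the plane
vanishing at `vb z` (nonzero), the same for `j = 1, 2` (take `e1_z = e2_z`).
`h_j := ∏_z ej_z`, homogeneous of degree `N`, vanishing at all points, so `InI`, hence `pi^n h_j ∈ (F,G)` and `Rel n h_j q_j` with `q_j`
homogeneous of degree `N + kk - (c+d)` (`rel_exists_hom`; `N = cd ≥ c+d-...`, if the degree is negative `q_j = 0`), `q_j = Γ1 φ_j`,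
`φ_j` homogeneous of degree `N - (c+d-1)` (`deg Γ1 = kk - 1`).  `res (rho h_j) = m * l_j^(N-s)` with `m = ∏_{z on H} m_z ≠ 0`.
(*) for `h_1, h_2`: `m l1^(N-s) res φ2 = m l2^(N-s) res φ1`, so `l1^(N-s) ∣ res φ1`.
(d) If `res φ1 = 0`: by (*) with `h*`: `res (rho h_1) res φ* = 0`, so `res φ* = 0`, `Γ ∣ q*`, contradiction.  So `res φ1 ≠ 0` is
homogeneous of degree `N - (c+d-1)` (in particular `c+d-1 ≤ N`) and divisible by `l1^(N-s)`: `N - s ≤ N - (c+d-1)`, i.e. `s ≥ c+d-1`.
-/

namespace GP80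

open MvPolynomial

section Lst_aux

variable {k : Type} [Field k]

theorem Lst_sum3 {M : Type} [AddCommMonoid M] (f : Fin 3 → M) {j0 j1 j2 : Fin 3}
    (h01 : j0 ≠ j1) (h02 : j0 ≠ j2) (h12 : j1 ≠ j2) : ∑ i, f i = f j0 + (f j1 + f j2) := by
  have huniv : (Finset.univ : Finset (Fin 3)) = {j0, j1, j2} := by
    symm
    apply Finset.eq_univ_of_card
    rw [Finset.card_eq_three.2 ⟨j0, j1, j2, h01, h02, h12, rfl⟩]
    rfl
  rw [huniv, Finset.sum_insert, Finset.sum_insert, Finset.sum_singleton]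
  · simpa using h12
  · simp only [Finset.mem_insert, Finset.mem_singleton, not_or]
    exact ⟨h01, h02⟩

/-- the linear form with coefficients `H` -/
noncomputable def Lst_lin (H : Fin 3 → k) : MvPolynomial (Fin 3) k := ∑ i, C (H i) * X i

/-- restriction to the plane `H = 0`, as an endomorphism -/
noncomputable def Lst_res (H : Fin 3 → k) (j0 : Fin 3) :
    MvPolynomial (Fin 3) k →ₐ[k] MvPolynomial (Fin 3) k :=
  aeval (fun i => X i - C (if i = j0 then (H j0)⁻¹ else 0) * Lst_lin H)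

theorem Lst_res_X (H : Fin 3 → k) (j0 i : Fin 3) :
    Lst_res H j0 (X i) = X i - C (if i = j0 then (H j0)⁻¹ else 0) * Lst_lin H := by
  rw [Lst_res, aeval_X]

theorem Lst_res_X_ne (H : Fin 3 → k) {j0 i : Fin 3} (h : i ≠ j0) :
    Lst_res H j0 (X i) = X i := by
  rw [Lst_res_X, if_neg h, C_0, zero_mul, sub_zero]

theorem Lst_lin_hom {R : Type} [CommRing R] (H : Fin 3 → R) :
    (∑ i, C (H i) * X i : MvPolynomial (Fin 3) R).IsHomogeneous 1 :=
  IsHomogeneous.sum _ _ _ fun i _ => (isHomogeneous_X R i).C_mul (H i)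

theorem Lst_res_lin {H : Fin 3 → k} {j0 : Fin 3} (h : H j0 ≠ 0) :
    Lst_res H j0 (Lst_lin H) = 0 := by
  have h1 : Lst_res H j0 (Lst_lin H) =
      ∑ i, C (H i) * (X i - C (if i = j0 then (H j0)⁻¹ else 0) * Lst_lin H) := by
    conv_lhs => rw [Lst_lin]
    rw [map_sum]
    refine Finset.sum_congr rfl fun i _ => ?_
    rw [map_mul, Lst_res_X]
    congr 1
    exact (Lst_res H j0).commutes (H i)
  rw [h1]
  have h2 : ∀ i, C (H i) * (X i - C (if i = j0 then (H j0)⁻¹ else 0) * Lst_lin H) =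
      C (H i) * X i - (if i = j0 then Lst_lin H else 0) := by
    intro i
    rw [mul_sub]
    congr 1
    by_cases hi : i = j0
    · rw [if_pos hi, if_pos hi, hi, ← mul_assoc, ← C_mul, mul_inv_cancel₀ h, C_1, one_mul]
    · rw [if_neg hi, if_neg hi, C_0, zero_mul, mul_zero]
  rw [Finset.sum_congr rfl fun i _ => h2 i, Finset.sum_sub_distrib, Finset.sum_ite_eq',
    if_pos (Finset.mem_univ _)]
  exact sub_self _

theorem Lst_dvd_sub (H : Fin 3 → k) (j0 : Fin 3) (f : MvPolynomial (Fin 3) k) :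
    Lst_lin H ∣ f - Lst_res H j0 f := by
  induction f using MvPolynomial.induction_on with
  | C a =>
    have : Lst_res H j0 (C a) = C a := (Lst_res H j0).commutes a
    rw [this, sub_self]
    exact dvd_zero _
  | add p q hp hq =>
    rw [map_add, add_sub_add_comm]
    exact dvd_add hp hq
  | mul_X p i hp =>
    rw [map_mul]
    have h1 : p * X i - Lst_res H j0 p * Lst_res H j0 (X i) =
        (p - Lst_res H j0 p) * X i + Lst_res H j0 p * (X i - Lst_res H j0 (X i)) := by ring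
    rw [h1]
    refine dvd_add (Dvd.dvd.mul_right hp _) (Dvd.dvd.mul_left ?_ _)
    rw [Lst_res_X, sub_sub_cancel]
    exact dvd_mul_left _ _

theorem Lst_res_zero {H : Fin 3 → k} {j0 : Fin 3} (h : H j0 ≠ 0) (f : MvPolynomial (Fin 3) k) :
    Lst_res H j0 f = 0 ↔ Lst_lin H ∣ f := by
  constructor
  · intro h1
    have h2 := Lst_dvd_sub H j0 f
    rwa [h1, sub_zero] at h2
  · rintro ⟨g, rfl⟩
    rw [map_mul, Lst_res_lin h, zero_mul]

theorem Lst_lin_ne {H : Fin 3 → k} {j0 : Fin 3} (h : H j0 ≠ 0) : Lst_lin H ≠ 0 := by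
  intro h1
  have h2 := congrArg (eval (Pi.single j0 (1 : k))) h1
  rw [Lst_lin, map_sum, map_zero, Finset.sum_eq_single j0] at h2
  · rw [map_mul, eval_C, eval_X, Pi.single_eq_same, mul_one] at h2
    exact h h2
  · intro i _ hi
    rw [map_mul, eval_X, Pi.single_eq_of_ne hi, mul_zero]
  · intro h3
    exact absurd (Finset.mem_univ _) h3

theorem Lst_prime {H : Fin 3 → k} {j0 : Fin 3} (h : H j0 ≠ 0) : Prime (Lst_lin H) := by
  refine ⟨Lst_lin_ne h, ?_, ?_⟩
  · intro hu
    have h1 := hu.map (Lst_res H j0)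
    rw [Lst_res_lin h] at h1
    exact not_isUnit_zero h1
  · intro a b hab
    rw [← Lst_res_zero h, map_mul] at hab
    rcases mul_eq_zero.1 hab with h1 | h1
    · exact Or.inl ((Lst_res_zero h a).1 h1)
    · exact Or.inr ((Lst_res_zero h b).1 h1)

theorem Lst_res_hom (H : Fin 3 → k) (j0 : Fin 3) {f : MvPolynomial (Fin 3) k} {m : ℕ}
    (hf : f.IsHomogeneous m) : (Lst_res H j0 f).IsHomogeneous m := by
  have h1 : ∀ i, (X i - C (if i = j0 then (H j0)⁻¹ else 0) * Lst_lin H :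
      MvPolynomial (Fin 3) k).IsHomogeneous 1 := fun i =>
    (isHomogeneous_X k i).sub ((Lst_lin_hom H).C_mul _)
  have h2 := hf.aeval _ h1
  rw [one_mul] at h2
  exact h2

theorem Lst_eval_res (H : Fin 3 → k) (j0 : Fin 3) (f : MvPolynomial (Fin 3) k) (y : Fin 3 → k)
    (hy : ∑ i, H i * y i = 0) : eval y (Lst_res H j0 f) = eval y f := by
  obtain ⟨t, ht⟩ := Lst_dvd_sub H j0 f
  have h1 := congrArg (eval y) ht
  rw [map_sub, map_mul] at h1
  have h2 : eval y (Lst_lin H) = 0 := by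
    rw [Lst_lin, map_sum, ← hy]
    exact Finset.sum_congr rfl fun i _ => by rw [map_mul, eval_C, eval_X]
  rw [h2, zero_mul] at h1
  exact (sub_eq_zero.1 h1).symm

end Lst_aux

theorem Lst_unit {O k I : Type} [CommRing O] [IsDomain O] [IsDiscreteValuationRing O] [Field k]
    [Fintype I] {D0 : ℕ} (S : GeoS O k I D0) {x : O} (hx : S.rho x ≠ 0) : IsUnit x := by
  by_contra hu
  have h1 : x ∈ IsLocalRing.maximalIdeal O := (IsLocalRing.mem_maximalIdeal x).2 hu
  rw [S.prime.irreducible.maximalIdeal_eq, Ideal.mem_span_singleton] at h1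
  exact hx ((S.ker x).2 h1)

theorem Lst_off {O k I : Type} [CommRing O] [IsDomain O] [IsDiscreteValuationRing O] [Field k]
    [Fintype I] {D0 : ℕ} (S : GeoS O k I D0) (H : Fin 3 → k) (j0 : Fin 3) (hj0 : H j0 ≠ 0) (z : I)
    (hz : ∑ i, H i * S.rho (S.v z i) ≠ 0) (j1 : Fin 3) (h1 : j1 ≠ j0) :
    ∃ e : MvPolynomial (Fin 3) O, e.IsHomogeneous 1 ∧ eval (S.v z) e = 0 ∧
      Lst_res H j0 (map S.rho e) = X j1 := by
  choose w hw using fun i => S.surj (H i)
  have hu : S.rho (∑ i, w i * S.v z i) = ∑ i, H i * S.rho (S.v z i) := by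
    rw [map_sum]
    exact Finset.sum_congr rfl fun i _ => by rw [map_mul, hw]
  obtain ⟨u, hu'⟩ := Lst_unit S (by rw [hu]; exact hz)
  refine ⟨X j1 - C (S.v z j1 * (↑u⁻¹ : O)) * ∑ i, C (w i) * X i, ?_, ?_, ?_⟩
  · exact (isHomogeneous_X O j1).sub ((Lst_lin_hom w).C_mul _)
  · rw [map_sub, map_mul, eval_X, eval_C, map_sum]
    have h2 : ∑ i, eval (S.v z) (C (w i) * X i) = (u : O) := by
      rw [hu']
      exact Finset.sum_congr rfl fun i _ => by rw [map_mul, eval_C, eval_X]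
    rw [h2, mul_assoc, Units.inv_mul, mul_one, sub_self]
  · have h3 : map S.rho (∑ i, C (w i) * X i) = Lst_lin H := by
      rw [map_sum, Lst_lin]
      exact Finset.sum_congr rfl fun i _ => by rw [map_mul, map_C, map_X, hw]
    rw [map_sub, map_mul, map_C, map_X, h3, map_sub, map_mul, Lst_res_lin hj0, mul_zero, sub_zero,
      Lst_res_X_ne H h1]

theorem Lst_on {O k I : Type} [CommRing O] [IsDomain O] [IsDiscreteValuationRing O] [Field k]
    [Fintype I] {D0 : ℕ} (S : GeoS O k I D0) (H : Fin 3 → k) (j0 j1 j2 : Fin 3) (hj0 : H j0 ≠ 0)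
    (h01 : j0 ≠ j1) (h02 : j0 ≠ j2) (h12 : j1 ≠ j2) (z : I) :
    ∃ e : MvPolynomial (Fin 3) O, e.IsHomogeneous 1 ∧ eval (S.v z) e = 0 ∧
      Lst_res H j0 (map S.rho e) ≠ 0 := by
  obtain ⟨a, ha⟩ := S.unim z
  have hva : S.rho (S.v z a) ≠ 0 := (ha.map S.rho).ne_zero
  -- the two points of the plane
  let y1 : Fin 3 → k := Pi.single j0 (H j1) - Pi.single j1 (H j0)
  let y2 : Fin 3 → k := Pi.single j0 (H j2) - Pi.single j2 (H j0)
  have hy1 : ∑ i, H i * y1 i = 0 := by
    rw [Lst_sum3 _ h01 h02 h12]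
    simp [y1, h01, h01.symm, h02.symm, h12.symm, mul_comm]
  have hy2 : ∑ i, H i * y2 i = 0 := by
    rw [Lst_sum3 _ h01 h02 h12]
    simp [y2, h02, h12, h01.symm, h02.symm, mul_comm]
  have hex : ∃ y : Fin 3 → k, ∑ i, H i * y i = 0 ∧
      ∃ i, S.rho (S.v z a) * y i - S.rho (S.v z i) * y a ≠ 0 := by
    by_contra hcon
    push Not at hcon
    have e1 := hcon y1 hy1
    have e2 := hcon y2 hy2
    have a1 : y1 j2 = 0 := by simp [y1, h02.symm, h12.symm]
    have a2 : y1 j1 = - H j0 := by simp [y1, h01.symm]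
    have a3 : y2 j2 = - H j0 := by simp [y2, h02.symm]
    have b1 := e1 j2
    have b2 := e1 j1
    have b3 := e2 j2
    rw [a1, mul_zero, zero_sub, neg_eq_zero] at b1
    rw [a2] at b2
    rw [a3] at b3
    rcases mul_eq_zero.1 b1 with c1 | c1
    · rw [c1, zero_mul, sub_zero] at b3
      rcases mul_eq_zero.1 b3 with c2 | c2
      · exact hva c2
      · exact hj0 (neg_eq_zero.1 c2)
    · rw [c1, mul_zero, sub_zero] at b2
      rcases mul_eq_zero.1 b2 with c2 | c2
      · exact hva c2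
      · exact hj0 (neg_eq_zero.1 c2)
  obtain ⟨y, hy, i, hi⟩ := hex
  refine ⟨C (S.v z a) * X i - C (S.v z i) * X a, ?_, ?_, ?_⟩
  · exact ((isHomogeneous_X O i).C_mul _).sub ((isHomogeneous_X O a).C_mul _)
  · rw [map_sub, map_mul, map_mul, eval_X, eval_C, eval_X, eval_C]
    ring
  · intro h0
    apply hi
    have h1 := congrArg (eval y) h0
    rw [Lst_eval_res H j0 _ y hy, map_zero] at h1
    rw [← h1, map_sub, map_mul, map_mul, map_C, map_C, map_X, map_X, map_sub, map_mul, map_mul,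
      eval_C, eval_C, eval_X, eval_X]

theorem last_line {O k I : Type} [CommRing O] [IsDomain O] [IsDiscreteValuationRing O] [Field k]
    [CharZero k] [Fintype I] {D0 c d kk : ℕ} (S : GeoS O k I D0) {F G : MvPolynomial (Fin 3) O}
    {Γ F' G' : MvPolynomial (Fin 3) k} (h : SatS S c d F G Γ F' G' kk) (hc : 2 ≤ c) (hcd : c ≤ d)
    (hN : Fintype.card I = c * d) {n : ℕ} (hn : IsLast S F G n) (hn1 : 1 ≤ n)
    (H : Fin 3 → k) (hH : H ≠ 0)
    (hdvd : ∀ f q, Rel S F G F' G' n f q → Γ ∣ (∑ i, C (H i) * X i) * q) :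
    c + d - 1 ≤ Nat.card {z : I // ∑ i, H i * S.rho (S.v z i) = 0} := by
  classical
  obtain ⟨j0, hj0⟩ : ∃ j, H j ≠ 0 := Function.ne_iff.1 hH
  obtain ⟨j1, j2, h01, h02, h12⟩ : ∃ j1 j2 : Fin 3, j0 ≠ j1 ∧ j0 ≠ j2 ∧ j1 ≠ j2 := by
    have : ∀ j0 : Fin 3, ∃ j1 j2 : Fin 3, j0 ≠ j1 ∧ j0 ≠ j2 ∧ j1 ≠ j2 := by decide
    exact this j0
  have hP := Lst_prime hj0
  -- (a)
  obtain ⟨fs, qs, hrs, hqs⟩ := last_rel h hn hn1 le_rfl
  have hlinΓ : Lst_lin H ∣ Γ := by
    by_contra hcon
    obtain ⟨t, ht⟩ := hdvd fs qs hrs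
    have h1 : Lst_lin H ∣ Γ * t := ⟨qs, ht.symm⟩
    rcases hP.dvd_or_dvd h1 with h2 | ⟨t', rfl⟩
    · exact hcon h2
    · apply hqs
      refine ⟨t', mul_left_cancel₀ hP.ne_zero ?_⟩
      calc Lst_lin H * qs = Γ * (Lst_lin H * t') := ht
        _ = Lst_lin H * (Γ * t') := by ring
  obtain ⟨Γ1, hΓ1⟩ := hlinΓ
  have hΓ1ne : Γ1 ≠ 0 := by
    rintro rfl
    exact h.nzΓ (by rw [hΓ1, mul_zero])
  have hfac : ∀ f q, Rel S F G F' G' n f q → ∃ φ, q = Γ1 * φ := by
    intro f q hr
    obtain ⟨t, ht⟩ := hdvd f q hr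
    refine ⟨t, mul_left_cancel₀ hP.ne_zero ?_⟩
    calc Lst_lin H * q = Γ * t := ht
      _ = Lst_lin H * (Γ1 * t) := by rw [hΓ1]; ring
  -- (b)
  have hstar : ∀ f φ f' φ', Rel S F G F' G' n f (Γ1 * φ) → Rel S F G F' G' n f' (Γ1 * φ') →
      Lst_res H j0 (map S.rho f') * Lst_res H j0 φ =
        Lst_res H j0 (map S.rho f) * Lst_res H j0 φ' := by
    intro f φ f' φ' h1 h2
    have h3 := rel_smul h1 f'
    have h4 := rel_smul h2 f
    rw [mul_comm f f'] at h4
    obtain ⟨t, ht⟩ := rel_uniq h h3 h4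
    have h5 : map S.rho f' * φ - map S.rho f * φ' = Lst_lin H * t := by
      apply mul_left_cancel₀ hΓ1ne
      calc Γ1 * (map S.rho f' * φ - map S.rho f * φ') =
          map S.rho f' * (Γ1 * φ) - map S.rho f * (Γ1 * φ') := by ring
        _ = Γ * t := ht
        _ = Γ1 * (Lst_lin H * t) := by rw [hΓ1]; ring
    have h6 := congrArg (Lst_res H j0) h5
    rw [map_sub, map_mul, map_mul, map_mul, Lst_res_lin hj0, zero_mul] at h6
    exact sub_eq_zero.1 h6
  -- degrees
  have hkk : 1 ≤ kk ∧ Γ1.IsHomogeneous (kk - 1) := by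
    have h1 := h.hΓ
    rw [hΓ1] at h1
    exact homog_of_mul_left h1 (Lst_lin_hom H) (by rw [← hΓ1]; exact h.nzΓ)
  -- (c)
  have hch : ∀ z : I, ∃ e1 e2 : MvPolynomial (Fin 3) O, (e1.IsHomogeneous 1 ∧ e2.IsHomogeneous 1 ∧
      eval (S.v z) e1 = 0 ∧ eval (S.v z) e2 = 0) ∧
      (∑ i, H i * S.rho (S.v z i) ≠ 0 → Lst_res H j0 (map S.rho e1) = X j1 ∧
        Lst_res H j0 (map S.rho e2) = X j2) ∧
      (∑ i, H i * S.rho (S.v z i) = 0 → e1 = e2 ∧ Lst_res H j0 (map S.rho e1) ≠ 0) := by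
    intro z
    by_cases hz : ∑ i, H i * S.rho (S.v z i) = 0
    · obtain ⟨e, he1, he2, he3⟩ := Lst_on S H j0 j1 j2 hj0 h01 h02 h12 z
      exact ⟨e, e, ⟨he1, he1, he2, he2⟩, fun h1 => absurd hz h1, fun _ => ⟨rfl, he3⟩⟩
    · obtain ⟨e, he1, he2, he3⟩ := Lst_off S H j0 hj0 z hz j1 h01.symm
      obtain ⟨e', he1', he2', he3'⟩ := Lst_off S H j0 hj0 z hz j2 h02.symm
      exact ⟨e, e', ⟨he1, he1', he2, he2'⟩, fun _ => ⟨he3, he3'⟩, fun h1 => absurd h1 hz⟩
  choose e1 e2 hA hB hC using hch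
  have hNc : c + d ≤ Fintype.card I := by
    rw [hN]
    calc c + d ≤ d + d := by omega
      _ = 2 * d := by ring
      _ ≤ c * d := Nat.mul_le_mul_right d hc
  have hmake : ∀ e : I → MvPolynomial (Fin 3) O, (∀ z, (e z).IsHomogeneous 1) →
      (∀ z, eval (S.v z) (e z) = 0) → ∃ φ, Rel S F G F' G' n (∏ z, e z) (Γ1 * φ) ∧
        (φ ≠ 0 → φ.IsHomogeneous (Fintype.card I + 1 - (c + d))) := by
    intro e he1 he2
    have hh : (∏ z, e z).IsHomogeneous (Fintype.card I) := by
      have h1 := IsHomogeneous.prod Finset.univ e (fun _ => 1) (fun z _ => he1 z)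
      simpa using h1
    have hv : ∀ z, eval (S.v z) (∏ z, e z) = 0 := by
      intro z
      rw [map_prod]
      exact Finset.prod_eq_zero (Finset.mem_univ z) (he2 z)
    have hI := InI_of_vanish h.pair hh hv
    obtain ⟨q, hq1, hq2, -⟩ := rel_exists_hom h hn1 hh (hn.1 _ hI)
    obtain ⟨φ, rfl⟩ := hfac _ _ hq1
    refine ⟨φ, hq1, fun hφ => ?_⟩
    obtain ⟨h3, h4⟩ := homog_of_mul_left (hq2 (by omega)) hkk.2 (mul_ne_zero hΓ1ne hφ)
    have h5 : Fintype.card I + kk - (c + d) - (kk - 1) = Fintype.card I + 1 - (c + d) := by omega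
    rwa [h5] at h4
  obtain ⟨φ1, hR1, hφ1⟩ := hmake e1 (fun z => (hA z).1) (fun z => (hA z).2.2.1)
  obtain ⟨φ2, hR2, -⟩ := hmake e2 (fun z => (hA z).2.1) (fun z => (hA z).2.2.2)
  set P : Finset I := Finset.univ.filter (fun z => ∑ i, H i * S.rho (S.v z i) = 0) with hPdef
  set Q : Finset I := Finset.univ.filter (fun z => ¬ ∑ i, H i * S.rho (S.v z i) = 0) with hQdef
  have hsplit : ∀ (e : I → MvPolynomial (Fin 3) O) (l : MvPolynomial (Fin 3) k),
      (∀ z ∈ Q, Lst_res H j0 (map S.rho (e z)) = l) →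
      Lst_res H j0 (map S.rho (∏ z, e z)) =
        (∏ z ∈ P, Lst_res H j0 (map S.rho (e z))) * l ^ Q.card := by
    intro e l hl
    rw [map_prod, map_prod, ← Finset.prod_filter_mul_prod_filter_not Finset.univ
      (fun z => ∑ i, H i * S.rho (S.v z i) = 0)]
    congr 1
    rw [← Finset.prod_const]
    exact Finset.prod_congr rfl hl
  have hs1 := hsplit e1 (X j1) (fun z hz => ((hB z) (Finset.mem_filter.1 hz).2).1)
  have hs2 := hsplit e2 (X j2) (fun z hz => ((hB z) (Finset.mem_filter.1 hz).2).2)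
  have hPeq : ∏ z ∈ P, Lst_res H j0 (map S.rho (e2 z)) =
      ∏ z ∈ P, Lst_res H j0 (map S.rho (e1 z)) :=
    Finset.prod_congr rfl fun z hz => by rw [((hC z) (Finset.mem_filter.1 hz).2).1]
  have hPne : ∏ z ∈ P, Lst_res H j0 (map S.rho (e1 z)) ≠ 0 :=
    Finset.prod_ne_zero_iff.2 fun z hz => ((hC z) (Finset.mem_filter.1 hz).2).2
  rw [hPeq] at hs2
  -- (d)
  have hres1 : Lst_res H j0 φ1 ≠ 0 := by
    intro h0
    obtain ⟨φs, rfl⟩ := hfac _ _ hrs
    have h1 := hstar _ _ _ _ hR1 hrs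
    rw [h0, mul_zero, hs1] at h1
    have h2 : Lst_res H j0 φs = 0 := by
      rcases mul_eq_zero.1 h1.symm with h3 | h3
      · rcases mul_eq_zero.1 h3 with h4 | h4
        · exact absurd h4 hPne
        · exact absurd h4 (pow_ne_zero _ (X_ne_zero j1))
      · exact h3
    rw [Lst_res_zero hj0] at h2
    obtain ⟨t, rfl⟩ := h2
    apply hqs
    exact ⟨t, by rw [hΓ1]; ring⟩
  have hφ1ne : φ1 ≠ 0 := by
    rintro rfl
    exact hres1 (map_zero _)
  have hdeg := (Lst_res_hom H j0 (hφ1 hφ1ne)).totalDegree hres1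
  have hmain := hstar _ _ _ _ hR1 hR2
  rw [hs1, hs2] at hmain
  have hcan : X j2 ^ Q.card * Lst_res H j0 φ1 = X j1 ^ Q.card * Lst_res H j0 φ2 := by
    apply mul_left_cancel₀ hPne
    rw [← mul_assoc, ← mul_assoc]
    exact hmain
  have hXp : Prime (X j1 : MvPolynomial (Fin 3) k) := MvPolynomial.X_prime
  have hnd : ¬ (X j1 : MvPolynomial (Fin 3) k) ∣ X j2 ^ Q.card := by
    intro h1
    have h2 := hXp.dvd_of_dvd_pow h1
    rw [MvPolynomial.X_dvd_X] at h2
    rcases h2 with h2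
    exact h12 h2
  obtain ⟨g, hg⟩ := hXp.pow_dvd_of_dvd_mul_left Q.card hnd ⟨Lst_res H j0 φ2, hcan⟩
  have hgne : g ≠ 0 := by
    rintro rfl
    exact hres1 (by rw [hg, mul_zero])
  have h7 : Q.card ≤ Fintype.card I + 1 - (c + d) := by
    rw [← hdeg, hg, totalDegree_mul_of_isDomain (pow_ne_zero _ (X_ne_zero j1)) hgne,
      totalDegree_X_pow]
    omega
  have h8 : P.card + Q.card = Fintype.card I := by
    rw [hPdef, hQdef, Finset.card_filter_add_card_filter_not, Finset.card_univ]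
  have h9 : Nat.card {z : I // ∑ i, H i * S.rho (S.v z i) = 0} = P.card := by
    rw [Nat.card_eq_fintype_card, Fintype.card_subtype]
  rw [h9]
  omega

end GP80

end S_H80_GP_Lst
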