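import Mathlib
import Pool.Agent.H80.M87.G01
import Pool.Agent.H80.M87.G04
import Pool.Agent.H80.M87.G05
import Pool.Agent.H80.M87.G06

/-! MP_87ed0a_ag: this file joins several modules to save build time. -/

section S_H80_GP_Omg

/-!
# Row Omg (MP_87ed0a_GP): `J_z` divides `pi^n` (1.5)  (about 130 lines)

* `sep_form`: for `z` there is a form `Q` over `O` vanishing at `v z'` for all `z' ≠ z` and not vanishing modulo `pi` at `v z` (product over
  `z' ≠ z` of linear forms: `S.dist z z'` gives a linear form over `k` vanishing at the reduction of `v z'` and not at that of `v z`; we need a linear form over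
  `O` vanishing exactly at `v z'`: among the three forms `X_i v'_j - X_j v'_i` (`v' = v z'`) one does not vanish at `v z` modulo `pi`, because
  otherwise the reductions of `v z`, `v z'` are proportional).
* `J_dvd` : with the data of `exists_Ez` (`E = F1 G2 - F2 G1`, `rho E ≠ 0`).  `Q u`, `Q w` are forms vanishing at all points, so
  `pi^n Q u = a1 F + b1 G`, `pi^n Q w = a2 F + b2 G`.  Substituting `F = u F1 + w F2`, `G = u G1 + w G2`:
  `(a1 F1 + b1 G1 - pi^n Q) u + (a1 F2 + b1 G2) w = 0`, so `a1 F1 + b1 G1 - pi^n Q = s w`, `a1 F2 + b1 G2 = - s u`; similarly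
  `a2 F1 + b2 G1 = s' w`, `a2 F2 + b2 G2 - pi^n Q = - s' u`.  Taking determinants
  `(a1 b2 - a2 b1) E = (pi^n Q + s w)(pi^n Q - s' u) + s u s' w = pi^n Q (pi^n Q + s w - s' u)`.  `C pi` is prime in `O[X]` (row Rla
  `C_pi_prime`) and does not divide `E` (`rho E ≠ 0`), so `pi^n ∣ a1 b2 - a2 b1 =: pi^n X`, `X E = Q (pi^n Q + s w - s' u)`.  At `v z`:
  `X(v) J = pi^n Q(v)^2`, and `Q(v)` is not divisible by `pi`; as `O` is a DVR (or: `pi` prime and every nonzero element is `unit * pi^m`) `Q(v)` is a unit, so `J ∣ pi^n`.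
* `J_ne_zero` : for ANY `PairS` (no saturation): same computation with some `n` depending on `Q` (from `gen`): `det * E = pi^n Q(pi^n Q + ...)` at `v z`
  gives `det(v) J = (pi^n Q(v))^2 ≠ 0`.  (Use `two_forms` and the division `F = u F1 + w F2` as in `exists_Ez`.)
-/

namespace GP80

open MvPolynomial

variable {O k I : Type} [CommRing O] [IsDomain O] [IsDiscreteValuationRing O] [Field k] [Fintype I]
  {D0 c d kk : ℕ}

theorem Omg_unit (S : GeoS O k I D0) {a : O} (ha : S.rho a ≠ 0) : IsUnit a := by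
  have h1 : ¬ S.pi ∣ a := fun h => ha ((S.ker a).2 h)
  have h2 := S.prime.irreducible.maximalIdeal_eq
  rw [← IsLocalRing.notMem_maximalIdeal, h2, Ideal.mem_span_singleton]
  exact h1

theorem Omg_lin (S : GeoS O k I D0) {z z' : I} (h : z ≠ z') :
    ∃ l : MvPolynomial (Fin 3) O, l.IsHomogeneous 1 ∧ eval (S.v z') l = 0 ∧
      IsUnit (eval (S.v z) l) := by
  have h1 : ∃ i j, S.rho (S.v z i * S.v z' j - S.v z j * S.v z' i) ≠ 0 := by
    by_contra hn
    push Not at hn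
    have hli := LinearIndependent.pair_iff.1 (S.dist z z' h)
    have h2 : ∀ j, S.rho (S.v z' j) = 0 := by
      intro j
      refine (hli (S.rho (S.v z' j)) (-(S.rho (S.v z j))) ?_).1
      funext i
      have h3 := hn i j
      rw [map_sub, map_mul, map_mul] at h3
      simp only [Pi.add_apply, Pi.smul_apply, smul_eq_mul, Pi.zero_apply]
      linear_combination h3
    have h4 := (hli 0 1 (by
      funext i
      simp [h2])).2
    exact one_ne_zero h4
  obtain ⟨i, j, hij⟩ := h1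
  refine ⟨X i * C (S.v z' j) - X j * C (S.v z' i), ?_, ?_, ?_⟩
  · refine IsHomogeneous.sub ?_ ?_
    · have := (isHomogeneous_X O i).mul (isHomogeneous_C (Fin 3) (S.v z' j))
      simpa using this
    · have := (isHomogeneous_X O j).mul (isHomogeneous_C (Fin 3) (S.v z' i))
      simpa using this
  · simp only [map_sub, map_mul, eval_X, eval_C]
    ring
  · have e : eval (S.v z) (X i * C (S.v z' j) - X j * C (S.v z' i)) =
        S.v z i * S.v z' j - S.v z j * S.v z' i := by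
      simp only [map_sub, map_mul, eval_X, eval_C]
    rw [e]
    exact Omg_unit S hij

theorem sep_form (S : GeoS O k I D0) (z : I) : ∃ (Q : MvPolynomial (Fin 3) O) (t : ℕ),
    Q.IsHomogeneous t ∧ (∀ z', z' ≠ z → eval (S.v z') Q = 0) ∧ IsUnit (eval (S.v z) Q) := by
  classical
  have h : ∀ z', ∃ l : MvPolynomial (Fin 3) O, l.IsHomogeneous 1 ∧
      (z' ≠ z → eval (S.v z') l = 0 ∧ IsUnit (eval (S.v z) l)) := by
    intro z'
    by_cases hz : z' = z
    · exact ⟨0, isHomogeneous_zero _ _ _, fun hn => absurd hz hn⟩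
    · obtain ⟨l, h1, h2, h3⟩ := Omg_lin S (z := z) (z' := z') fun hn => hz hn.symm
      exact ⟨l, h1, fun _ => ⟨h2, h3⟩⟩
  choose l hl1 hl2 using h
  refine ⟨∏ z' ∈ Finset.univ.erase z, l z', ∑ z' ∈ Finset.univ.erase z, 1,
    IsHomogeneous.prod _ _ _ fun z' _ => hl1 z', ?_, ?_⟩
  · intro z' hz'
    rw [map_prod]
    exact Finset.prod_eq_zero (Finset.mem_erase.2 ⟨hz', Finset.mem_univ _⟩) (hl2 z' hz').1
  · rw [map_prod]
    refine Finset.prod_induction _ IsUnit (fun _ _ => IsUnit.mul) isUnit_one ?_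
    intro z' hz'
    exact (hl2 z' (Finset.mem_erase.1 hz').1).2

omit [IsDomain O] [IsDiscreteValuationRing O] in
theorem Omg_core {pn F G u w F1 F2 G1 G2 Q : MvPolynomial (Fin 3) O}
    (hF : F = u * F1 + w * F2) (hG : G = u * G1 + w * G2)
    (hk : ∀ A B, A * u + B * w = 0 → ∃ r, A = r * w ∧ B = -(r * u))
    (h1 : pn * (Q * u) ∈ Ideal.span {F, G}) (h2 : pn * (Q * w) ∈ Ideal.span {F, G}) :
    ∃ D s s' : MvPolynomial (Fin 3) O,
      D * (F1 * G2 - F2 * G1) = pn * (Q * (pn * Q + s * w - s' * u)) := by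
  obtain ⟨a1, b1, e1⟩ := Ideal.mem_span_pair.1 h1
  obtain ⟨a2, b2, e2⟩ := Ideal.mem_span_pair.1 h2
  obtain ⟨s, hs1, hs2⟩ := hk (a1 * F1 + b1 * G1 - pn * Q) (a1 * F2 + b1 * G2) (by
    rw [hF, hG] at e1
    linear_combination e1)
  obtain ⟨s', hs3, hs4⟩ := hk (a2 * F1 + b2 * G1) (a2 * F2 + b2 * G2 - pn * Q) (by
    rw [hF, hG] at e2
    linear_combination e2)
  refine ⟨a1 * b2 - a2 * b1, s, s', ?_⟩
  have k1 : a1 * F1 + b1 * G1 = pn * Q + s * w := by linear_combination hs1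
  have k2 : a2 * F2 + b2 * G2 = pn * Q - s' * u := by linear_combination hs4
  calc (a1 * b2 - a2 * b1) * (F1 * G2 - F2 * G1)
      = (a1 * F1 + b1 * G1) * (a2 * F2 + b2 * G2) -
        (a1 * F2 + b1 * G2) * (a2 * F1 + b2 * G1) := by ring
    _ = (pn * Q + s * w) * (pn * Q - s' * u) - (-(s * u)) * (s' * w) := by
        rw [k1, k2, hs2, hs3]
    _ = pn * (Q * (pn * Q + s * w - s' * u)) := by ring

omit [IsDomain O] [IsDiscreteValuationRing O] in
theorem Omg_grad {u w F F1 F2 : MvPolynomial (Fin 3) O} {v : Fin 3 → O} (hu : eval v u = 0)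
    (hw : eval v w = 0) (hF : F = u * F1 + w * F2) :
    grad F v = eval v F1 • grad u v + eval v F2 • grad w v := by
  funext i
  rw [hF]
  simp only [grad, map_add, pderiv_mul, map_mul, hu, hw, Pi.add_apply, Pi.smul_apply, smul_eq_mul]
  ring

omit [IsDomain O] [IsDiscreteValuationRing O] in
theorem Omg_cross (U W : Fin 3 → O) (a b c e : O) :
    crossProduct (a • U + b • W) (c • U + e • W) = (a * e - b * c) • crossProduct U W := by
  rw [cross_apply, cross_apply]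
  ext i
  fin_cases i <;> simp <;> ring

omit [IsDomain O] [IsDiscreteValuationRing O] in
theorem Omg_J {u w F G F1 F2 G1 G2 : MvPolynomial (Fin 3) O} {v : Fin 3 → O} {J : O}
    (hv : ∃ i, IsUnit (v i)) (hu : eval v u = 0) (hw : eval v w = 0)
    (huw : crossProduct (grad u v) (grad w v) = v) (hF : F = u * F1 + w * F2)
    (hG : G = u * G1 + w * G2) (hJ : IsJ3 F G v J) : eval v (F1 * G2 - F2 * G1) = J := by
  unfold IsJ3 at hJ
  rw [Omg_grad hu hw hF, Omg_grad hu hw hG, Omg_cross, huw] at hJ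
  obtain ⟨i, hi⟩ := hv
  have h1 := congrFun hJ i
  simp only [Pi.smul_apply, smul_eq_mul] at h1
  rw [map_sub, map_mul, map_mul]
  exact hi.mul_right_cancel h1

omit [IsDomain O] [IsDiscreteValuationRing O] in
theorem Omg_line {f : MvPolynomial (Fin 3) O} {t : ℕ} (hf : f.IsHomogeneous t) (v : Fin 3 → O) :
    aeval (fun i => (Polynomial.C (v i) * Polynomial.X : Polynomial O)) f =
      Polynomial.C (eval v f) * Polynomial.X ^ t := by
  rw [aeval_def, eval₂_eq', eval_eq', map_sum, Finset.sum_mul]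
  refine Finset.sum_congr rfl fun m hm => ?_
  have h1 : ∑ i, m i = t := by
    have h2 := hf (mem_support_iff.1 hm)
    rw [← h2, Finsupp.weight_apply, Finsupp.sum_fintype _ _ (by simp)]
    simp
  simp only [mul_pow, Finset.prod_mul_distrib, Finset.prod_pow_eq_pow_sum, h1, map_mul, map_prod,
    map_pow, Polynomial.algebraMap_eq]
  ring

theorem J_ne_zero (S : GeoS O k I D0) {F G : MvPolynomial (Fin 3) O} (hp : PairS S c d F G)
    (hc : 1 ≤ c) (hd : 1 ≤ d) (z : I) {J : O} (hJ : IsJ3 F G (S.v z) J) : J ≠ 0 := by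
  obtain ⟨u, w, hu1, hw1, hu, hw, huw, hdiv, hk⟩ := two_forms (S.unim z)
  obtain ⟨F1, F2, hF⟩ := hdiv F (by rw [Omg_line hp.hF, hp.vF z, map_zero, zero_mul])
  obtain ⟨G1, G2, hG⟩ := hdiv G (by rw [Omg_line hp.hG, hp.vG z, map_zero, zero_mul])
  obtain ⟨Q, t, hQ, hQ0, hQu⟩ := sep_form S z
  have hvan : ∀ x : MvPolynomial (Fin 3) O, eval (S.v z) x = 0 → ∀ z', eval (S.v z') (Q * x) = 0 := by
    intro x hx z'
    rw [map_mul]
    by_cases hz : z' = z
    · rw [hz, hx, mul_zero]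
    · rw [hQ0 z' hz, zero_mul]
  obtain ⟨m1, hm1⟩ := hp.gen (t + 1) (Q * u) (hQ.mul hu1) (hvan u hu)
  obtain ⟨m2, hm2⟩ := hp.gen (t + 1) (Q * w) (hQ.mul hw1) (hvan w hw)
  have h1 : C (S.pi ^ (m1 + m2)) * (Q * u) ∈ Ideal.span {F, G} := by
    have : C (S.pi ^ (m1 + m2)) * (Q * u) = C (S.pi ^ m2) * (C (S.pi ^ m1) * (Q * u)) := by
      rw [pow_add, map_mul]
      ring
    rw [this]
    exact Ideal.mul_mem_left _ _ hm1
  have h2 : C (S.pi ^ (m1 + m2)) * (Q * w) ∈ Ideal.span {F, G} := by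
    have : C (S.pi ^ (m1 + m2)) * (Q * w) = C (S.pi ^ m1) * (C (S.pi ^ m2) * (Q * w)) := by
      rw [pow_add, map_mul]
      ring
    rw [this]
    exact Ideal.mul_mem_left _ _ hm2
  obtain ⟨D, s, s', hD⟩ := Omg_core hF hG hk h1 h2
  have hE := Omg_J (S.unim z) hu hw huw hF hG hJ
  have h3 := congrArg (eval (S.v z)) hD
  rw [map_mul, hE] at h3
  simp only [map_mul, map_sub, map_add, hu, hw, mul_zero, add_zero, sub_zero, eval_C] at h3
  rintro rfl
  rw [mul_zero] at h3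
  have h4 : S.pi ^ (m1 + m2) ≠ 0 := pow_ne_zero _ S.prime.ne_zero
  have h5 := hQu.ne_zero
  exact (mul_ne_zero h4 (mul_ne_zero h5 (mul_ne_zero h4 h5))) h3.symm

theorem J_dvd (S : GeoS O k I D0) {F G : MvPolynomial (Fin 3) O} {Γ F' G' : MvPolynomial (Fin 3) k}
    (h : SatS S c d F G Γ F' G' kk) (hc : 2 ≤ c) (hcd : c ≤ d) {n : ℕ} (hn : IsLast S F G n) (z : I)
    {J : O} (hJ : IsJ3 F G (S.v z) J) : J ∣ S.pi ^ n := by
  have hGne : map S.rho G ≠ 0 := by
    rw [h.eG]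
    exact mul_ne_zero h.nzΓ h.nzG
  obtain ⟨u, w, F1, F2, G1, G2, hu1, hw1, -, -, -, -, hu, hw, hF, hG, hk, -, hEJ, -, hE0, -⟩ :=
    exists_Ez S h.pair hc (hc.trans hcd) hGne z hJ
  obtain ⟨Q, t, hQ, hQ0, hQu⟩ := sep_form S z
  have hvan : ∀ x : MvPolynomial (Fin 3) O, eval (S.v z) x = 0 → ∀ z', eval (S.v z') (Q * x) = 0 := by
    intro x hx z'
    rw [map_mul]
    by_cases hz : z' = z
    · rw [hz, hx, mul_zero]
    · rw [hQ0 z' hz, zero_mul]
  obtain ⟨D, s, s', hD⟩ := Omg_core hF hG hk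
    (hn.1 _ (InI_of_vanish h.pair (hQ.mul hu1) (hvan u hu)))
    (hn.1 _ (InI_of_vanish h.pair (hQ.mul hw1) (hvan w hw)))
  have hpr := C_pi_prime S
  have hnd : ¬ C S.pi ∣ F1 * G2 - F2 * G1 := fun hd => hE0 ((map_eq_zero_iff S _).2 hd)
  have h1 : C S.pi ^ n ∣ D * (F1 * G2 - F2 * G1) := by
    rw [hD, map_pow]
    exact dvd_mul_right _ _
  obtain ⟨Y, hY⟩ := hpr.pow_dvd_of_dvd_mul_right n hnd h1
  have h2 : Y * (F1 * G2 - F2 * G1) = Q * (C (S.pi ^ n) * Q + s * w - s' * u) := by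
    have h3 : (C S.pi : MvPolynomial (Fin 3) O) ^ n ≠ 0 := pow_ne_zero _ hpr.ne_zero
    apply mul_left_cancel₀ h3
    rw [← mul_assoc, ← hY, hD, map_pow]
  have h4 := congrArg (eval (S.v z)) h2
  rw [map_mul, hEJ] at h4
  simp only [map_mul, map_sub, map_add, hu, hw, mul_zero, add_zero, sub_zero, eval_C] at h4
  have h5 : J ∣ S.pi ^ n * (eval (S.v z) Q * eval (S.v z) Q) := by
    refine ⟨eval (S.v z) Y, ?_⟩
    linear_combination -h4
  exact ((hQu.mul hQu).dvd_mul_right).1 h5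

end GP80

end S_H80_GP_Omg

section S_H80_GP_Psi

/-!
# Row Psi (MP_87ed0a_GP): the gcds of the layers and the numbers `lam i` (1.3)  (about 130 lines)

For `i ≥ 1` let `Ψ_i = {q : ∃ h, Rel i h q}`: an ideal (`rel_add`, `rel_smul` with `map rho` surjective, `Rel i 0 0`) containing `Γ` (`rel_syz`), decreasing in `i`
(`rel_up`), contained in `(Γ)` for `i > n` (`rel_big`), not contained in `(Γ)` for `1 ≤ i ≤ n` (`last_rel`).
`Δ i` = gcd of `Ψ_i` (`exists_gcd_ideal`); `Δ i ∣ Γ`, so `Γ = Δ i * E i`, and `Δ i`, `E i` are homogeneous (`homog_of_mul`); `lam i := deg (E i)` (so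
`deg (Δ i) = kk - lam i`, `lam i ≤ kk`).
* strong gcd property with `g = Γ`: if `Γ ∣ x q` for all `q ∈ Ψ_i` then `Γ = Δ E ∣ x Δ`, so `E i ∣ x`.
* `i > n`: `Ψ_i ⊆ (Γ)`, so `Γ ∣ Δ i` (gcd property with `x = 1`), `E i` is a unit, `lam i = 0`.
* `1 ≤ i ≤ n`: if `lam i = 0` then `E i` is a nonzero constant, `Γ ~ Δ i` divides all of `Ψ_i`, contradiction.
* antitone: `Ψ_j ⊆ Ψ_i` for `i ≤ j`, so `Δ i ∣ Δ j`, `deg Δ i ≤ deg Δ j`.
(For `i = 0` take anything, e.g. `Δ 0 = Γ, E 0 = 1, lam 0 = 0`.)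
-/

namespace GP80

open MvPolynomial

/-- data of the layers -/
structure PsiData {O k I : Type} [CommRing O] [Field k] [Fintype I] {D0 : ℕ} (S : GeoS O k I D0)
    (F G : MvPolynomial (Fin 3) O) (Γ F' G' : MvPolynomial (Fin 3) k) (kk n : ℕ)
    (Δ E : ℕ → MvPolynomial (Fin 3) k) (lam : ℕ → ℕ) : Prop where
  fac : ∀ i, 1 ≤ i → Γ = Δ i * E i
  hE : ∀ i, 1 ≤ i → (E i).IsHomogeneous (lam i)
  hΔ : ∀ i, 1 ≤ i → (Δ i).IsHomogeneous (kk - lam i)
  le : ∀ i, 1 ≤ i → lam i ≤ kk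
  dvd : ∀ i, 1 ≤ i → ∀ f q, Rel S F G F' G' i f q → Δ i ∣ q
  ann : ∀ i, 1 ≤ i → ∀ x, (∀ f q, Rel S F G F' G' i f q → Γ ∣ x * q) → E i ∣ x
  pos : ∀ i, 1 ≤ i → i ≤ n → 1 ≤ lam i
  big : ∀ i, n < i → lam i = 0
  anti : ∀ i j, 1 ≤ i → i ≤ j → lam j ≤ lam i

variable {O k I : Type} [CommRing O] [IsDomain O] [Field k] [Fintype I] {D0 : ℕ} {c d kk : ℕ}
  {S : GeoS O k I D0} {F G : MvPolynomial (Fin 3) O} {Γ F' G' : MvPolynomial (Fin 3) k}

/-- the ideal `Ψ_i` -/
def Psi_ideal (h : SatS S c d F G Γ F' G' kk) (i : ℕ) : Ideal (MvPolynomial (Fin 3) k) where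
  carrier := {q | ∃ f, Rel S F G F' G' i f q}
  add_mem' := by
    rintro a b ⟨f, hf⟩ ⟨g, hg⟩
    exact ⟨f + g, rel_add hf hg⟩
  zero_mem' := ⟨0, by simpa using rel_syz h i 0⟩
  smul_mem' := by
    rintro r q ⟨f, hf⟩
    obtain ⟨r', hr'⟩ := MvPolynomial.map_surjective S.rho S.surj r
    refine ⟨r' * f, ?_⟩
    have := rel_smul hf r'
    rw [hr'] at this
    simpa [smul_eq_mul] using this

theorem Psi_mem (h : SatS S c d F G Γ F' G' kk) (i : ℕ) (q : MvPolynomial (Fin 3) k) :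
    q ∈ Psi_ideal h i ↔ ∃ f, Rel S F G F' G' i f q := Iff.rfl

theorem Psi_gamma (h : SatS S c d F G Γ F' G' kk) (i : ℕ) : Γ ∈ Psi_ideal h i :=
  ⟨0, by simpa using rel_syz h i 1⟩

theorem Psi_up {i j : ℕ} (hij : i ≤ j) {f : MvPolynomial (Fin 3) O} {q : MvPolynomial (Fin 3) k}
    (h1 : Rel S F G F' G' j f q) : ∃ g, Rel S F G F' G' i g q := by
  induction j, hij using Nat.le_induction generalizing f with
  | base => exact ⟨f, h1⟩
  | succ j hj ih => exact ih (rel_up h1)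

theorem Psi_anti (h : SatS S c d F G Γ F' G' kk) {i j : ℕ} (hij : i ≤ j)
    {q : MvPolynomial (Fin 3) k} (hq : q ∈ Psi_ideal h j) : q ∈ Psi_ideal h i := by
  obtain ⟨f, hf⟩ := hq
  exact Psi_up hij hf

theorem Psi_one (h : SatS S c d F G Γ F' G' kk) (i : ℕ) :
    ∃ (Δ E : MvPolynomial (Fin 3) k) (lam : ℕ), Γ = Δ * E ∧ E.IsHomogeneous lam ∧
      Δ.IsHomogeneous (kk - lam) ∧ lam ≤ kk ∧ (∀ q ∈ Psi_ideal h i, Δ ∣ q) ∧
      ∀ x g : MvPolynomial (Fin 3) k, (∀ q ∈ Psi_ideal h i, g ∣ x * q) → g ∣ x * Δ := by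
  have hne : Psi_ideal h i ≠ ⊥ := by
    intro hb
    have := Psi_gamma h i
    rw [hb] at this
    exact h.nzΓ (by simpa using this)
  obtain ⟨Δ, h1, h2⟩ := exists_gcd_ideal (Psi_ideal h i) hne
  obtain ⟨E, hE⟩ := h1 Γ (Psi_gamma h i)
  have hhom : (Δ * E).IsHomogeneous kk := by rw [← hE]; exact h.hΓ
  have hnz : Δ * E ≠ 0 := by rw [← hE]; exact h.nzΓ
  obtain ⟨a, b, hab, ha, hb⟩ := homog_of_mul hhom hnz
  refine ⟨Δ, E, b, hE, hb, ?_, by omega, h1, h2⟩
  have : kk - b = a := by omega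
  rw [this]
  exact ha

theorem Psi_deg_le {p q : MvPolynomial (Fin 3) k} {a b : ℕ} (hp : p.IsHomogeneous a)
    (hq : q.IsHomogeneous b) (hq0 : q ≠ 0) (h : p ∣ q) : a ≤ b := by
  obtain ⟨r, hr⟩ := h
  have hq' : (p * r).IsHomogeneous b := by rw [← hr]; exact hq
  have hne : p * r ≠ 0 := by rw [← hr]; exact hq0
  exact (homog_of_mul_left hq' hp hne).1

theorem Psi_unit_of_zero {p : MvPolynomial (Fin 3) k} (hp : p.IsHomogeneous 0) (h0 : p ≠ 0) :
    IsUnit p := by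
  have h1 : p.totalDegree = 0 := by
    have := hp.totalDegree h0
    exact this
  rw [MvPolynomial.totalDegree_eq_zero_iff_eq_C] at h1
  rw [h1]
  have hc : coeff 0 p ≠ 0 := by
    intro hc
    apply h0
    rw [h1, hc, C_0]
  exact (IsUnit.mk0 _ hc).map C

theorem exists_psi {O k I : Type} [CommRing O] [IsDomain O] [Field k]
    [Fintype I] {D0 c d kk : ℕ} (S : GeoS O k I D0) {F G : MvPolynomial (Fin 3) O}
    {Γ F' G' : MvPolynomial (Fin 3) k} (h : SatS S c d F G Γ F' G' kk) {n : ℕ}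
    (hn : IsLast S F G n) :
    ∃ (Δ E : ℕ → MvPolynomial (Fin 3) k) (lam : ℕ → ℕ), PsiData S F G Γ F' G' kk n Δ E lam := by
  have key := fun i => Psi_one h i
  choose Δ E lam hfac hE hΔ hle hdvd hgcd using key
  have hΔ0 : ∀ i, Δ i ≠ 0 := fun i h0 => h.nzΓ (by rw [hfac i, h0, zero_mul])
  have hE0 : ∀ i, E i ≠ 0 := fun i h0 => h.nzΓ (by rw [hfac i, h0, mul_zero])
  refine ⟨Δ, E, lam, ⟨fun i _ => hfac i, fun i _ => hE i, fun i _ => hΔ i, fun i _ => hle i,
    fun i _ f q hq => hdvd i q ⟨f, hq⟩, ?_, ?_, ?_, ?_⟩⟩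
  · intro i _ x hx
    have h1 : Γ ∣ x * Δ i := hgcd i x Γ (by
      rintro q ⟨f, hf⟩
      exact hx f q hf)
    rw [hfac i, mul_comm x] at h1
    exact (mul_dvd_mul_iff_left (hΔ0 i)).1 h1
  · intro i h1 hi
    by_contra hlt
    have h0 : lam i = 0 := by omega
    obtain ⟨f, q, hq, hnd⟩ := last_rel h hn h1 hi
    have hu : IsUnit (E i) := Psi_unit_of_zero (by rw [← h0]; exact hE i) (hE0 i)
    apply hnd
    have h2 : Δ i ∣ q := hdvd i q ⟨f, hq⟩
    rw [hfac i]
    exact (hu.mul_right_dvd).2 h2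
  · intro i hi
    have h1 : Γ ∣ 1 * Δ i := hgcd i 1 Γ (by
      rintro q ⟨f, hf⟩
      rw [one_mul]
      exact rel_big h hn hi hf)
    rw [one_mul] at h1
    have h2 := Psi_deg_le h.hΓ (hΔ i) (hΔ0 i) h1
    have h3 := hle i
    omega
  · intro i j _ hij
    have h1 : Δ i ∣ 1 * Δ j := hgcd j 1 (Δ i) (by
      intro q hq
      rw [one_mul]
      exact hdvd i q (Psi_anti h hij hq))
    rw [one_mul] at h1
    have h2 := Psi_deg_le (hΔ i) (hΔ j) (hΔ0 j) h1
    have h3 := hle i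
    have h4 := hle j
    omega

end GP80

end S_H80_GP_Psi

section S_H80_GP_Tlb

/-!
# Row Tlb (MP_87ed0a_GP): the tail bound 1.4  (about 220 lines)

`g < n`, `K := lam (g+1)`, `s :=` number of points with `Lz z = 0`.  Claim: `K (c + d - K) ≤ s`.

Proof.  (a) For `i > g` and `Rel i f q`: `Rel (i+1) (DD f) ((g-i) L q)`, `g - i` is a nonzero constant, so after scaling
(`rel_smul` with a constant lifting `(g-i)⁻¹`) `L q ∈ Ψ_{i+1}` (there is `f'` with `Rel (i+1) f' (L q)`).  Iterating `n - g` times from `i = g+1`: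
`L^(n-g) q ∈ Ψ_{n+1}`, so `Γ ∣ L^(n-g) q` for all `Rel (g+1) f q` (`rel_big`), so by `ann` `E (g+1) ∣ L^(n-g)`.  `L` is a nonzero linear form, hence prime, so
`E (g+1) = unit * L^K` (`hE`: its degree is `K`), i.e. `L^K ∣ x ↔ E (g+1) ∣ x`.
(b) Let `x` be a form with `pi^g x ∈ (F,G)`.  For `Rel (g+1) f q`: `pi^g (x f) ∈ (F,G)` and `Rel (g+1) (x f) (rho x q)`, so `Γ ∣ rho x q` (`rel_dvd`); by `ann`
`E (g+1) ∣ rho x`, `L^K ∣ rho x`.  Also `x(v z) = 0` for all `z` (`vanish_of_InI`), so `rho x (vb z) = 0`, and if `L(vb z) = Lz z ≠ 0`, the form `y = rho x / L^K`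
vanishes at `vb z`.
(c) Apply `finrank_red_ge` (La4) with `t := c + d + card I` (any large `t`), `M = HS O t`, `Mb` the same over `k`, `red = redHom`
(surjective; kernel `pi M`, `map_eq_zero_iff`), `ev = evHom S.v t`, `L = JJ S.pi F G t g`,
`m := nz (t-(c+d)+K) - nz (t-(c+d))`.  `hev`: a form vanishing at all points has `pi^j f ∈ (F,G)` (`gen`), so `pi^j • f ∈ JJ .. g`.
`hdep`: if `pi x_j ∈ JJ g`, i.e. `pi^(g+1) x_j ∈ (F,G)`, choose homogeneous `q_j` of degree `t + kk - (c+d)` with `Rel (g+1) x_j q_j`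
(`rel_exists_hom`), `Δ (g+1) ∣ q_j`; `dep_mod` with `Δ = Δ (g+1)` (degree `kk - K`), `Γ` (degree `kk`), `s = t + kk - (c+d)`: some nontrivial combination
`∑ a_j q_j` is divisible by `Γ`; lift `a_j` to `O`; `Rel (g+1) (∑ a_j x_j) (Γ q')`; `rel_down`: `pi^g ∑ a_j x_j ∈ (F,G)`.
(d) So `nn t ≤ finrank (span red(JJ g)) + card I + m`.  By (b) `span red (JJ g)` is contained in `L^K *` {forms `y` of degree `t - K` vanishing at the `vb z`
with `Lz z ≠ 0`}, of dimension `≤ nn (t-K) - (N - s)` by `pts_indep` (pairwise independent by `S.dist`; `t - K ≥ N`), `N = card I`.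
So `nn t + (N - s) ≤ nn (t-K) + N + m`; conclude by `ari_tail`.
-/

namespace GP80

open MvPolynomial

theorem Tlb_unit {k : Type} [Field k] {p : MvPolynomial (Fin 3) k} (h : p.IsHomogeneous 0) (h0 : p ≠ 0) :
    IsUnit p := by
  have h1 : p = C (coeff 0 p) := by
    rw [← totalDegree_eq_zero_iff_eq_C]
    exact Nat.le_zero.1 h.totalDegree_le
  have h2 : coeff 0 p ≠ 0 := by
    intro h3
    rw [h3, C_0] at h1
    exact h0 h1
  rw [h1]
  exact (isUnit_iff_ne_zero.2 h2).map C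

/-- a unit which is a form has degree `0` -/
theorem Tlb_deg {k : Type} [Field k] {p : MvPolynomial (Fin 3) k} {a : ℕ} (h : p.IsHomogeneous a)
    (hu : IsUnit p) : a = 0 := by
  obtain ⟨q, hq⟩ := hu.exists_right_inv
  have h1 : (p * q).IsHomogeneous 0 := by
    rw [hq]
    exact isHomogeneous_one _ _
  have h2 := (homog_of_mul_left h1 h (by rw [hq]; exact one_ne_zero)).1
  omega

theorem Tlb_LL {O k I : Type} [CommRing O] [Field k] [Fintype I] {D0 : ℕ} (S : GeoS O k I D0) :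
    S.LL.IsHomogeneous 1 ∧ S.LL ≠ 0 ∧ ∀ z, eval (S.vb z) S.LL = S.Lz z := by
  refine ⟨?_, ?_, ?_⟩
  · unfold GeoS.LL
    apply IsHomogeneous.sum
    intro i _
    have h1 := (isHomogeneous_X k i).mul (isHomogeneous_C (Fin 3) (S.rho (S.der i S.pi)))
    simpa using h1
  · intro h0
    obtain ⟨i, hi⟩ := S.hL
    apply hi
    have h1 := congrArg (eval (Pi.single i (1 : k))) h0
    unfold GeoS.LL at h1
    rw [map_sum, map_zero, Finset.sum_eq_single i] at h1
    · simpa using h1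
    · intro j _ hj
      simp [hj]
    · intro h
      exact absurd (Finset.mem_univ i) h
  · intro z
    unfold GeoS.LL GeoS.Lz GeoS.vb
    simp

theorem Tlb_prime {O k I : Type} [CommRing O] [Field k] [Fintype I] {D0 : ℕ} (S : GeoS O k I D0) :
    Prime S.LL := by
  obtain ⟨h1, h0, -⟩ := Tlb_LL S
  rw [← UniqueFactorizationMonoid.irreducible_iff_prime]
  constructor
  · intro hu
    exact one_ne_zero (Tlb_deg h1 hu)
  · intro p q hpq
    have h2 : (p * q).IsHomogeneous 1 := by rw [← hpq]; exact h1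
    have h3 : p * q ≠ 0 := by rw [← hpq]; exact h0
    obtain ⟨a, b, hab, ha, hb⟩ := homog_of_mul h2 h3
    have hp0 : p ≠ 0 := left_ne_zero_of_mul h3
    have hq0 : q ≠ 0 := right_ne_zero_of_mul h3
    rcases Nat.eq_zero_or_pos a with h4 | h4
    · left
      rw [h4] at ha
      exact Tlb_unit ha hp0
    · right
      have h5 : b = 0 := by omega
      rw [h5] at hb
      exact Tlb_unit hb hq0

/-- a form dividing a power of `L` is a power of `L` -/
theorem Tlb_pow {O k I : Type} [CommRing O] [Field k] [Fintype I] {D0 : ℕ} (S : GeoS O k I D0)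
    {E : MvPolynomial (Fin 3) k} {K j : ℕ} (hE : E.IsHomogeneous K) (hd : E ∣ S.LL ^ j) :
    Associated E (S.LL ^ K) := by
  obtain ⟨h1, h0, -⟩ := Tlb_LL S
  obtain ⟨i, -, hi⟩ := (dvd_prime_pow (Tlb_prime S) j).1 hd
  obtain ⟨u, hu⟩ := hi
  have h2 : (E * (u : MvPolynomial (Fin 3) k)).IsHomogeneous i := by
    rw [hu]
    simpa using h1.pow i
  have h3 : E * (u : MvPolynomial (Fin 3) k) ≠ 0 := by
    rw [hu]
    exact pow_ne_zero _ h0
  obtain ⟨h4, h5⟩ := homog_of_mul_left h2 hE h3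
  have h6 := Tlb_deg h5 u.isUnit
  have h7 : i = K := by omega
  rw [← h7]
  exact ⟨u, hu⟩

section
variable {O k I : Type} [CommRing O] [IsDomain O] [Field k]
    [Fintype I] {D0 c d kk : ℕ} {S : GeoS O k I D0} {F G : MvPolynomial (Fin 3) O}
    {Γ F' G' : MvPolynomial (Fin 3) k}

theorem Tlb_step [CharZero k] {g : ℕ}
    (hD : ∀ i f q, 1 ≤ i → Rel S F G F' G' i f q →
        Rel S F G F' G' (i + 1) (DD S.der f)
          ((((g : MvPolynomial (Fin 3) k) - (i : MvPolynomial (Fin 3) k)) * S.LL) * q))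
    {i : ℕ} (hi : g < i) {f : MvPolynomial (Fin 3) O} {q : MvPolynomial (Fin 3) k}
    (h1 : Rel S F G F' G' i f q) : ∃ f', Rel S F G F' G' (i + 1) f' (S.LL * q) := by
  have h2 := hD i f q (by omega) h1
  have h3 : (g : k) - (i : k) ≠ 0 := by
    rw [sub_ne_zero]
    exact_mod_cast hi.ne
  obtain ⟨a, ha⟩ := S.surj ((g : k) - (i : k))⁻¹
  have h4 := rel_smul h2 (C a)
  refine ⟨C a * DD S.der f, ?_⟩
  have h5 : map S.rho (C a) * ((((g : MvPolynomial (Fin 3) k) - (i : MvPolynomial (Fin 3) k)) * S.LL) * q) =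
      S.LL * q := by
    rw [map_C, ha]
    have h6 : ((g : MvPolynomial (Fin 3) k) - (i : MvPolynomial (Fin 3) k)) = C ((g : k) - (i : k)) := by
      rw [C_sub]
      simp
    rw [h6, ← mul_assoc, ← mul_assoc, ← C_mul, inv_mul_cancel₀ h3, C_1, one_mul]
  rw [h5] at h4
  exact h4

theorem Tlb_iter [CharZero k] {g : ℕ}
    (hD : ∀ i f q, 1 ≤ i → Rel S F G F' G' i f q →
        Rel S F G F' G' (i + 1) (DD S.der f)
          ((((g : MvPolynomial (Fin 3) k) - (i : MvPolynomial (Fin 3) k)) * S.LL) * q))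
    {f : MvPolynomial (Fin 3) O} {q : MvPolynomial (Fin 3) k}
    (h1 : Rel S F G F' G' (g + 1) f q) (j : ℕ) : ∃ f', Rel S F G F' G' (g + 1 + j) f' (S.LL ^ j * q) := by
  induction j with
  | zero => exact ⟨f, by simpa using h1⟩
  | succ j ih =>
    obtain ⟨f', hf'⟩ := ih
    obtain ⟨f'', hf''⟩ := Tlb_step hD (by omega) hf'
    refine ⟨f'', ?_⟩
    rw [pow_succ', mul_assoc]
    exact hf''

/-- step (a) -/
theorem Tlb_a [CharZero k] (h : SatS S c d F G Γ F' G' kk) {n : ℕ} (hn : IsLast S F G n)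
    {Δ E : ℕ → MvPolynomial (Fin 3) k} {lam : ℕ → ℕ} (hp : PsiData S F G Γ F' G' kk n Δ E lam)
    {g : ℕ} (hg : g < n)
    (hD : ∀ i f q, 1 ≤ i → Rel S F G F' G' i f q →
        Rel S F G F' G' (i + 1) (DD S.der f)
          ((((g : MvPolynomial (Fin 3) k) - (i : MvPolynomial (Fin 3) k)) * S.LL) * q)) :
    Associated (E (g + 1)) (S.LL ^ lam (g + 1)) := by
  apply Tlb_pow S (hp.hE (g + 1) (by omega)) (j := n - g)
  apply hp.ann (g + 1) (by omega)
  intro f q h1
  obtain ⟨f', hf'⟩ := Tlb_iter hD h1 (n - g)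
  exact rel_big h hn (by omega) hf'

/-- step (b) -/
theorem Tlb_b (h : SatS S c d F G Γ F' G' kk) {n : ℕ}
    {Δ E : ℕ → MvPolynomial (Fin 3) k} {lam : ℕ → ℕ} (hp : PsiData S F G Γ F' G' kk n Δ E lam)
    {g : ℕ} (hA : Associated (E (g + 1)) (S.LL ^ lam (g + 1))) {x : MvPolynomial (Fin 3) O}
    (hx : C (S.pi ^ g) * x ∈ Ideal.span {F, G}) :
    ∃ y, map S.rho x = S.LL ^ lam (g + 1) * y ∧ ∀ z, S.Lz z ≠ 0 → eval (S.vb z) y = 0 := by
  have h1 : E (g + 1) ∣ map S.rho x := by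
    apply hp.ann (g + 1) (by omega)
    intro f q h2
    refine rel_dvd h (rel_smul h2 x) ?_
    rw [← mul_assoc]
    exact Ideal.mul_mem_right _ _ hx
  obtain ⟨y, hy⟩ := hA.symm.dvd.trans h1
  refine ⟨y, hy, fun z hz => ?_⟩
  have h2 : eval (S.v z) x = 0 := vanish_of_InI h.pair ⟨g, hx⟩ z
  have h3 : eval (S.vb z) (map S.rho x) = 0 := by
    rw [eval_map]
    have h4 := congrArg S.rho h2
    rw [map_zero] at h4
    have h5 := eval₂_comp_left S.rho (RingHom.id O) (S.v z) x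
    rw [RingHom.comp_id] at h5
    exact h5.symm.trans h4
  rw [hy, map_mul, map_pow, (Tlb_LL S).2.2 z] at h3
  exact (mul_eq_zero.1 h3).resolve_left (pow_ne_zero _ hz)

theorem Tlb_rel_zero (h : SatS S c d F G Γ F' G' kk) (i : ℕ) : Rel S F G F' G' i 0 0 := by
  have h1 := rel_syz h i 0
  rwa [mul_zero] at h1

theorem Tlb_rel_sum (h : SatS S c d F G Γ F' G' kk) {i m : ℕ} (x : Fin m → MvPolynomial (Fin 3) O)
    (q : Fin m → MvPolynomial (Fin 3) k) (hq : ∀ j, Rel S F G F' G' i (x j) (q j)) (a : Fin m → O) :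
    Rel S F G F' G' i (∑ j, C (a j) * x j) (∑ j, C (S.rho (a j)) * q j) := by
  classical
  have key : ∀ T : Finset (Fin m),
      Rel S F G F' G' i (∑ j ∈ T, C (a j) * x j) (∑ j ∈ T, C (S.rho (a j)) * q j) := by
    intro T
    induction T using Finset.induction_on with
    | empty => simpa using Tlb_rel_zero h i
    | insert j T hj ih =>
      rw [Finset.sum_insert hj, Finset.sum_insert hj]
      refine rel_add ?_ ih
      have h1 := rel_smul (hq j) (C (a j))
      rwa [map_C] at h1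
  exact key _

theorem Tlb_nz (a b : ℤ) (h0 : 0 ≤ b) (h : b ≤ a) : nz b ≤ nz a := by
  have h1 := two_nz a (by linarith)
  have h2 := two_nz b (by linarith)
  have h3 : (nz b : ℤ) ≤ nz a := by nlinarith
  exact_mod_cast h3

/-- step (c), dependence -/
theorem Tlb_dep (h : SatS S c d F G Γ F' G' kk) {n : ℕ}
    {Δ E : ℕ → MvPolynomial (Fin 3) k} {lam : ℕ → ℕ} (hp : PsiData S F G Γ F' G' kk n Δ E lam)
    {g t m : ℕ} (ht : c + d ≤ t)
    (hm : nz ((t : ℤ) - (c + d) + (lam (g + 1) : ℕ)) ≤ m + nz ((t : ℤ) - (c + d)))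
    (x : Fin (m + 1) → HS O t) (hx : ∀ j, S.pi • x j ∈ JJ S.pi F G t g) :
    ∃ a : Fin (m + 1) → O, (∃ j, ¬ S.pi ∣ a j) ∧ ∑ j, a j • x j ∈ JJ S.pi F G t g := by
  have h1 : ∀ j, C (S.pi ^ (g + 1)) * (x j).val ∈ Ideal.span {F, G} := by
    intro j
    have h2 := hx j
    rw [mem_JJ, HS.val_smul, ← mul_assoc, ← C_mul, ← pow_succ] at h2
    exact h2
  have h2 : ∀ j, ∃ q, Rel S F G F' G' (g + 1) (x j).val q ∧ q.IsHomogeneous (t + kk - (c + d)) := by
    intro j
    obtain ⟨q, hq1, hq2, -⟩ := rel_exists_hom h (by omega) (x j).prop (h1 j)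
    exact ⟨q, hq1, hq2 (by omega)⟩
  choose q hq1 hq2 using h2
  have hle := hp.le (g + 1) (by omega)
  have hK : ((kk - lam (g + 1) : ℕ) : ℤ) = (kk : ℤ) - lam (g + 1) := by
    push_cast [Nat.cast_sub hle]
    ring
  have hs : ((t + kk - (c + d) : ℕ) : ℤ) = (t : ℤ) + kk - (c + d) := by
    have h3 : c + d ≤ t + kk := by omega
    push_cast [Nat.cast_sub h3]
    ring
  obtain ⟨a, ha0, ha⟩ := dep_mod (Δ (g + 1)) Γ (kk - lam (g + 1)) kk (hp.hΔ (g + 1) (by omega)) h.hΓ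
    ⟨E (g + 1), hp.fac (g + 1) (by omega)⟩ h.nzΓ (t + kk - (c + d)) m (by
      rw [hK, hs]
      have e1 : (t : ℤ) + kk - (c + d) - ((kk : ℤ) - lam (g + 1)) = (t : ℤ) - (c + d) + (lam (g + 1) : ℕ) := by
        ring
      have e2 : (t : ℤ) + kk - (c + d) - (kk : ℕ) = (t : ℤ) - (c + d) := by ring
      rw [e1, e2]
      exact hm) q hq2 (fun j => hp.dvd (g + 1) (by omega) _ _ (hq1 j))
  choose r hr using S.surj
  refine ⟨fun j => r (a j), ?_, ?_⟩
  · obtain ⟨j, hj⟩ := Function.ne_iff.1 ha0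
    refine ⟨j, fun h3 => hj ?_⟩
    rw [← S.ker, hr] at h3
    exact h3
  · obtain ⟨q', hq'⟩ := ha
    have h3 := Tlb_rel_sum h (fun j => (x j).val) q hq1 (fun j => r (a j))
    simp only [hr] at h3
    rw [hq'] at h3
    have h4 := rel_down h h3
    rw [mem_JJ, HS.val_sum]
    simp only [HS.val_smul]
    exact h4

omit [IsDomain O] in
theorem Tlb_red_surj (S : GeoS O k I D0) (t : ℕ) : Function.Surjective (redHom S.rho t) := by
  classical
  intro y
  choose r hr using S.surj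
  obtain ⟨f, hf⟩ : ∃ f : MvPolynomial (Fin 3) O, f = ∑ m ∈ y.val.support, monomial m (r (coeff m y.val)) := ⟨_, rfl⟩
  have hfh : f.IsHomogeneous t := by
    rw [hf]
    apply IsHomogeneous.sum
    intro m hm
    apply isHomogeneous_monomial
    have h1 := y.prop (mem_support_iff.1 hm)
    have h2 := congrArg (fun (F : (Fin 3 →₀ ℕ) →+ ℕ) => F m) (Finsupp.degree_eq_weight_one (σ := Fin 3) (R := ℕ))
    exact h2.trans h1
  refine ⟨HS.mk f hfh, ?_⟩
  ext1
  rw [redHom_val, HS.val_mk, hf, map_sum]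
  simp only [map_monomial, hr]
  exact (y.val.as_sum).symm

theorem Tlb_red_ker (S : GeoS O k I D0) (t : ℕ) (x : HS O t) (hx : redHom S.rho t x = 0) :
    ∃ y, x = S.pi • y := by
  have h1 : map S.rho x.val = 0 := by
    have h2 := congrArg HS.val hx
    rwa [redHom_val, HS.val_zero] at h2
  obtain ⟨y, hy⟩ := (map_eq_zero_iff S x.val).1 h1
  by_cases h0 : x.val = 0
  · exact ⟨0, by ext1; rw [h0, smul_zero, HS.val_zero]⟩
  · have h2 : (C S.pi * y).IsHomogeneous t := by rw [← hy]; exact x.prop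
    have h3 := (homog_of_mul_left h2 (isHomogeneous_C _ S.pi) (by rw [← hy]; exact h0)).2
    rw [Nat.sub_zero] at h3
    exact ⟨HS.mk y h3, by ext1; rw [HS.val_smul, HS.val_mk, hy]⟩

/-- multiplication by a form -/
noncomputable def Tlb_mul (P : MvPolynomial (Fin 3) k) {K s t : ℕ} (hP : P.IsHomogeneous K) (hst : K + s = t) :
    HS k s →ₗ[k] HS k t where
  toFun y := HS.mk (P * y.val) (by rw [← hst]; exact hP.mul y.prop)
  map_add' y z := by
    ext1
    rw [HS.val_mk, HS.val_add, HS.val_add, HS.val_mk, HS.val_mk, mul_add]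
  map_smul' a y := by
    ext1
    rw [HS.val_mk, RingHom.id_apply, HS.val_smul, HS.val_smul, HS.val_mk]
    ring

end

/-- step (d) -/
theorem Tlb_d {O k I : Type} [CommRing O] [IsDomain O] [Field k]
    [Fintype I] {D0 c d kk : ℕ} {S : GeoS O k I D0} {F G : MvPolynomial (Fin 3) O}
    {Γ F' G' : MvPolynomial (Fin 3) k} (h : SatS S c d F G Γ F' G' kk) {n : ℕ}
    {Δ E : ℕ → MvPolynomial (Fin 3) k} {lam : ℕ → ℕ} (hp : PsiData S F G Γ F' G' kk n Δ E lam)
    {g t : ℕ} (hA : Associated (E (g + 1)) (S.LL ^ lam (g + 1)))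
    (ht : lam (g + 1) + Fintype.card I ≤ t) :
    Module.finrank k (Submodule.span k (redHom S.rho t '' (JJ S.pi F G t g : Set (HS O t)))) +
      (Fintype.card I - Nat.card {z : I // S.Lz z = 0}) ≤ nn (t - lam (g + 1)) := by
  classical
  obtain ⟨K, hK⟩ : ∃ K, K = lam (g + 1) := ⟨_, rfl⟩
  rw [← hK] at hA ht ⊢
  obtain ⟨hL1, hL0, hLe⟩ := Tlb_LL S
  have hP : (S.LL ^ K).IsHomogeneous K := by simpa using hL1.pow K
  have hP0 : S.LL ^ K ≠ 0 := pow_ne_zero _ hL0
  obtain ⟨A, hAd⟩ : ∃ A : Finset I, A = Finset.univ.filter (fun z => ¬ S.Lz z = 0) := ⟨_, rfl⟩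
  have hAc : A.card = Fintype.card I - Nat.card {z : I // S.Lz z = 0} := by
    have h1 : Nat.card {z : I // S.Lz z = 0} = (Finset.univ.filter (fun z => S.Lz z = 0)).card := by
      rw [Nat.card_eq_fintype_card, Fintype.card_subtype]
    have h2 := Finset.card_filter_add_card_filter_not (s := (Finset.univ : Finset I)) (fun z => S.Lz z = 0)
    rw [Finset.card_univ] at h2
    rw [hAd, h1]
    omega
  have hAN : A.card ≤ Fintype.card I := Finset.card_le_univ A
  have hst : K + (t - K) = t := by omega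
  have h1 : Submodule.span k (redHom S.rho t '' (JJ S.pi F G t g : Set (HS O t))) ≤
      (vanSub S.vb A (t - K)).map (Tlb_mul (S.LL ^ K) hP hst) := by
    rw [Submodule.span_le]
    rintro _ ⟨x, hx, rfl⟩
    obtain ⟨y, hy1, hy2⟩ := Tlb_b h hp (g := g) (by rw [← hK]; exact hA) hx
    rw [← hK] at hy1
    have hyh : y.IsHomogeneous (t - K) := by
      by_cases h0 : y = 0
      · rw [h0]
        exact isHomogeneous_zero _ _ _
      · have h3 : (S.LL ^ K * y).IsHomogeneous t := by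
          rw [← hy1]
          exact x.prop.map S.rho
        exact (homog_of_mul_left h3 hP (mul_ne_zero hP0 h0)).2
    refine ⟨HS.mk y hyh, ?_, ?_⟩
    · intro z hz
      rw [hAd, Finset.mem_filter] at hz
      exact hy2 z hz.2
    · ext1
      rw [redHom_val, hy1]
      rfl
  have h2 := pts_indep S.vb A (fun z _ z' _ hne => S.dist z z' hne) (fun z _ h0 => by
    obtain ⟨i, hi⟩ := S.unim z
    have h3 : IsUnit (S.rho (S.v z i)) := hi.map S.rho
    have h4 : S.rho (S.v z i) = 0 := congrFun h0 i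
    rw [h4] at h3
    exact not_isUnit_zero h3) (t - K) (by omega)
  have h3 := (Submodule.finrank_mono h1).trans (Submodule.finrank_map_le (Tlb_mul (S.LL ^ K) hP hst)
    (vanSub S.vb A (t - K)))
  omega

theorem tail_bound {O k I : Type} [CommRing O] [IsDomain O] [IsDiscreteValuationRing O] [Field k]
    [CharZero k] [Fintype I] {D0 c d kk : ℕ} (S : GeoS O k I D0) {F G : MvPolynomial (Fin 3) O}
    {Γ F' G' : MvPolynomial (Fin 3) k} (h : SatS S c d F G Γ F' G' kk) (hc : 2 ≤ c) (hcd : c ≤ d)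
    (hN : Fintype.card I = c * d) {n : ℕ} (hn : IsLast S F G n)
    {Δ E : ℕ → MvPolynomial (Fin 3) k} {lam : ℕ → ℕ} (hp : PsiData S F G Γ F' G' kk n Δ E lam)
    {g : ℕ} (hg : g < n)
    (hD : ∀ i f q, 1 ≤ i → Rel S F G F' G' i f q →
        Rel S F G F' G' (i + 1) (DD S.der f)
          ((((g : MvPolynomial (Fin 3) k) - (i : MvPolynomial (Fin 3) k)) * S.LL) * q)) :
    lam (g + 1) * (c + d - lam (g + 1)) ≤ Nat.card {z : I // S.Lz z = 0} := by
  have hA := Tlb_a h hn hp hg hD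
  have hle := hp.le (g + 1) (by omega)
  have hlt := h.lt
  obtain ⟨K, hK⟩ : ∃ K, K = lam (g + 1) := ⟨_, rfl⟩
  obtain ⟨N, hNd⟩ : ∃ N, N = Fintype.card I := ⟨_, rfl⟩
  obtain ⟨t, ht⟩ : ∃ t, t = c + d + N := ⟨_, rfl⟩
  obtain ⟨m, hm⟩ : ∃ m, m = nz ((t : ℤ) - (c + d) + (K : ℕ)) - nz ((t : ℤ) - (c + d)) := ⟨_, rfl⟩
  have ht0 : (0 : ℤ) ≤ (t : ℤ) - (c + d) := by rw [ht]; push_cast; omega
  have hmono : nz ((t : ℤ) - (c + d)) ≤ nz ((t : ℤ) - (c + d) + (K : ℕ)) := Tlb_nz _ _ ht0 (by omega)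
  have hs : Nat.card {z : I // S.Lz z = 0} ≤ N := by
    rw [hNd, ← Nat.card_eq_fintype_card]
    exact Nat.card_le_card_of_injective _ Subtype.val_injective
  have h1 := finrank_red_ge S.rho S.surj S.prime S.ker (M := HS O t) (Mb := HS k t) (redHom S.rho t)
    (Tlb_red_surj S t) (Tlb_red_ker S t) (evHom S.v t) (JJ S.pi F G t g) (fun x hx => by
      obtain ⟨j, hj⟩ := InI_of_vanish h.pair x.prop (fun z => congrFun hx z)
      refine ⟨j, ?_⟩
      rw [mem_JJ, HS.val_smul]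
      exact Ideal.mul_mem_left _ _ hj) m (fun x hx => Tlb_dep h hp (by omega) (by
        rw [← hK]
        omega) x hx)
  have h2 := Tlb_d h hp (t := t) hA (by omega)
  rw [finrank_hs] at h1
  rw [← hK] at h2 ⊢
  refine ari_tail c d K _ N m t (by omega) hcd (by omega) (by omega) hs ?_
  have h3 : nz ((t : ℤ) - K) = nn (t - K) := by
    have h4 : (0 : ℤ) ≤ (t : ℤ) - K := by omega
    have h5 : ((t : ℤ) - K).toNat = t - K := by omega
    unfold nz
    rw [if_pos h4, h5]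
  rw [h3]
  omega

end GP80

end S_H80_GP_Tlb
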