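import Mathlib
import Pool.Agent.H3.GP.Defs
import Pool.Agent.H80.M87.G02
import Pool.Agent.H80.M87.G03
import Pool.Agent.H80.M87.G08
import Pool.Agent.H80.M87.G11

/-! MP_87ed0a_ag: this file joins several modules to save build time. -/

section S_H80_GP_Cm5

/-!
# Row Cm5 (MP_87ed0a_GP): `lam ≤ 1` beyond `g`  (about 200 lines)

Claim: `lam p i ≤ 1` for `g p < i ≤ n p`.  Suppose not.  By `nonplane_n` such `p` is a plane, and by `anti`, `2 ≤ lam p (g p + 1)`.  Let `K` be the maximum of `lam p (g p + 1)` over the planes with `g p < n p`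
(`Finset.exists_max_image`), attained at `p0`; `K ≥ 2`, `K < c`, `K (c + d - K) ≤ card (vt p0) ≤ a + b - 1` (`tail`, `card_vt`).  Work in `ℤ`, `D0 = c + d - 1`, `N = a b`.
1. For planes and `g < i ≤ n`: `1 ≤ x = lam i ≤ K`, `K (x-1)(D0-x) ≥ (D0-K) x (x-1)`  (difference `(x-1) D0 (K-x) ≥ 0`), so `K XX p ≥ (D0-K) Y p`, `Y p = ∑_{g < i ≤ n} lam i (lam i - 1)`.
   For `p0`: `XX p0 ≥ (K-1)(D0-K) ≥ 1` (the term `i = g + 1`; the others are `≥ 0`).
2. `star`, splitting `∑_{i=1}^n = ∑_{i ≤ g} + ∑_{g<i≤n}`, `c(c-1) - x(x-1) = (c-x)(c-1+x)`, and `n = g` for nonplanes: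
   `∑_pl Y p ≥ ∑_p dl p Z p + (d-c) D0 eF`, `Z p = ∑_{i ≤ g p} (c - lam i)(c - 1 + lam i)`.
3. `P_ineq` times `K`, dropping the first term (`≥ 0` by `ar_kappa`):
   `(b-a) K ∑_pl XX ≤ K D0 N ∑ dl jj + K D0 ∑_pl g (card + b - a) + K (b-a) ∑_pl HH + K ∑_np dl g (D0 (N+1) + b - a)`.
4. For planes, by `ar2` (with `x = lam i`, `1 ≤ i ≤ g ≤ n`, so `1 ≤ x < c`) and `card + b - a ≤ 2b - 1`, summed over `i ≤ g`: `K D0 g (card + b - a) + K (b-a) HH + g ≤ (b-a)(D0-K) Z p`.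
   For nonplanes by `ar3`: `K g (D0(N+1) + b - a) + g ≤ (b-a)(D0-K) Z p`.
5. Case `jj = 0`: combining 3., 4., 2., 1.: `(b-a) K ∑_pl XX + ∑ dl g ≤ (b-a)(D0-K) ∑_p dl Z ≤ (b-a)(D0-K) ∑_pl Y ≤ (b-a) K ∑_pl XX`.  So all `g p = 0`, then `HH = 0`, and 3. gives
   `(b-a) K ∑_pl XX ≤ 0`, contradicting `XX p0 ≥ 1` (all `XX ≥ 0`).
6. Case `d = c + 1`, `∑ dl jj + 1 + ∑ dl g ≤ 2 eF`: `K D0 N ∑ dl jj ≤ K D0 N (2 eF - 1)`, and by `ar4` `2 K N ≤ (b-a)(D0-K)`, so `K D0 N ∑ dl jj + K D0 N ≤ (b-a)(D0-K) D0 eF = (b-a)(D0-K)(d-c) D0 eF`.  Adding: `(b-a) K ∑_pl XX + K D0 N ≤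
   (b-a)(D0-K)(∑ dl Z + (d-c) D0 eF) ≤ (b-a)(D0-K) ∑_pl Y ≤ (b-a) K ∑_pl XX`: contradiction since `K D0 N > 0`.
-/

namespace GP80

open Finset

private theorem Cm5_cast (x : ℕ) : ((x * (x - 1) : ℕ) : ℤ) = (x : ℤ) * ((x : ℤ) - 1) := by
  rcases Nat.eq_zero_or_pos x with h | h
  · subst h; simp
  · rw [Nat.cast_mul, Nat.cast_sub h, Nat.cast_one]

private theorem Cm5_split {g n : ℕ} (hgn : g ≤ n) (f : ℕ → ℤ) :
    ∑ i ∈ Icc 1 n, f i = ∑ i ∈ Icc 1 g, f i + ∑ i ∈ Ioc g n, f i := by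
  have e : ∀ m : ℕ, Icc 1 m = Ioc 0 m := by
    intro m
    ext i
    simp only [mem_Icc, mem_Ioc]
    omega
  rw [e, e, Finset.sum_Ioc_consecutive f (Nat.zero_le _) hgn]

/-- `star` rewritten -/
private theorem Cm5_star {a b c d : ℕ} {P : Type} [Fintype P] {dl g n jj : P → ℕ}
    {lam : P → ℕ → ℕ}
    {om : P → Fin a × Fin b → ℕ} {vt : P → Finset (Fin a × Fin b)}
    {oL : P → (Fin a × Fin b) → (Fin a × Fin b) → ℕ} {eF : ℕ}
    (h : CombD a b c d dl g n jj lam om vt oL eF) :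
    ∑ p, (dl p : ℤ) * ∑ i ∈ Icc 1 (g p), ((c : ℤ) - lam p i) * ((c : ℤ) - 1 + lam p i) +
      ((d : ℤ) - c) * ((c : ℤ) + d - 1) * eF ≤
    ∑ p ∈ univ.filter (fun p => dl p = 1),
      ∑ i ∈ Ioc (g p) (n p), (lam p i : ℤ) * ((lam p i : ℤ) - 1) := by
  have ha2 := h.a2
  have hac := h.ac
  have hcd := h.cd
  have hs : ((c * (c - 1) * ∑ p, dl p * g p + (d - c) * (c + d - 1) * eF : ℕ) : ℤ) ≤
      ((∑ p, dl p * ∑ i ∈ Icc 1 (n p), lam p i * (lam p i - 1) : ℕ) : ℤ) := by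
    exact_mod_cast h.star
  have e1 : ((c * (c - 1) * ∑ p, dl p * g p + (d - c) * (c + d - 1) * eF : ℕ) : ℤ) =
      ((c : ℤ) * (c - 1)) * ∑ p, (dl p : ℤ) * g p + ((d : ℤ) - c) * ((c : ℤ) + d - 1) * eF := by
    rw [Nat.cast_add, Nat.cast_mul, Cm5_cast, Nat.cast_mul, Nat.cast_mul, Nat.cast_sub hcd,
      Nat.cast_sub (by omega : 1 ≤ c + d), Nat.cast_sum]
    push_cast
    ring
  have e2 : ((∑ p, dl p * ∑ i ∈ Icc 1 (n p), lam p i * (lam p i - 1) : ℕ) : ℤ) =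
      ∑ p, (dl p : ℤ) * ∑ i ∈ Icc 1 (n p), (lam p i : ℤ) * ((lam p i : ℤ) - 1) := by
    rw [Nat.cast_sum]
    refine Finset.sum_congr rfl fun p _ => ?_
    rw [Nat.cast_mul, Nat.cast_sum]
    congr 1
    exact Finset.sum_congr rfl fun i _ => Cm5_cast _
  rw [e1, e2] at hs
  have e3 : ∀ p, (dl p : ℤ) * ∑ i ∈ Icc 1 (n p), (lam p i : ℤ) * ((lam p i : ℤ) - 1) =
      (dl p : ℤ) * ∑ i ∈ Icc 1 (g p), (lam p i : ℤ) * ((lam p i : ℤ) - 1) +
      (if dl p = 1 then ∑ i ∈ Ioc (g p) (n p), (lam p i : ℤ) * ((lam p i : ℤ) - 1) else 0) := by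
    intro p
    rw [Cm5_split (h.gn p)]
    by_cases hp : dl p = 1
    · rw [if_pos hp, hp]
      ring
    · rw [if_neg hp, nonplane_n h p hp]
      simp
  have e4 : ∀ p, (dl p : ℤ) * ∑ i ∈ Icc 1 (g p), ((c : ℤ) - lam p i) * ((c : ℤ) - 1 + lam p i) =
      (c : ℤ) * (c - 1) * ((dl p : ℤ) * g p) -
      (dl p : ℤ) * ∑ i ∈ Icc 1 (g p), (lam p i : ℤ) * ((lam p i : ℤ) - 1) := by
    intro p
    have : ∑ i ∈ Icc 1 (g p), ((c : ℤ) - lam p i) * ((c : ℤ) - 1 + lam p i) =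
        ∑ i ∈ Icc 1 (g p), ((c : ℤ) * (c - 1) - (lam p i : ℤ) * ((lam p i : ℤ) - 1)) :=
      Finset.sum_congr rfl fun i _ => by ring
    rw [this, Finset.sum_sub_distrib, Finset.sum_const, Nat.card_Icc]
    simp only [Nat.add_sub_cancel, nsmul_eq_mul]
    ring
  rw [Finset.sum_congr rfl fun p _ => e3 p, Finset.sum_add_distrib, ← Finset.sum_filter] at hs
  rw [Finset.sum_congr rfl fun p _ => e4 p, Finset.sum_sub_distrib, ← Finset.mul_sum]
  linarith

private theorem Cm5_XX_term {c d K x : ℤ} (hc : 2 ≤ c) (hcd : c ≤ d) (_hK : K < c) (hx : 1 ≤ x)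
    (hxK : x ≤ K) :
    (c + d - 1 - K) * (x * (x - 1)) ≤ K * ((x - 1) * (c + d - 1 - x)) := by
  have h1 : 0 ≤ (x - 1) * ((c + d - 1) * (K - x)) :=
    mul_nonneg (by linarith) (mul_nonneg (by linarith) (by linarith))
  linarith

theorem lam_le_one {a b c d : ℕ} {P : Type} [Fintype P] {dl g n jj : P → ℕ} {lam : P → ℕ → ℕ}
    {om : P → Fin a × Fin b → ℕ} {vt : P → Finset (Fin a × Fin b)}
    {oL : P → (Fin a × Fin b) → (Fin a × Fin b) → ℕ} {eF : ℕ}
    (h : CombD a b c d dl g n jj lam om vt oL eF) (p : P) (i : ℕ) (h1 : g p < i) (h2 : i ≤ n p) :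
    lam p i ≤ 1 := by
  by_contra hcon
  push Not at hcon
  have ha2 := h.a2
  have hac := h.ac
  have hcd := h.cd
  have hdb := h.db
  have hN := h.N
  have hdl : dl p = 1 := by
    by_contra hne
    have := nonplane_n h p hne
    omega
  -- the maximal plane
  obtain ⟨p0, hp0, hmax⟩ := Finset.exists_max_image
    (univ.filter (fun p => dl p = 1 ∧ g p < n p)) (fun p => lam p (g p + 1))
    ⟨p, by simp only [mem_filter, mem_univ, true_and]; exact ⟨hdl, by omega⟩⟩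
  simp only [mem_filter, mem_univ, true_and] at hp0 hmax
  obtain ⟨hp0l, hp0n⟩ := hp0
  set K : ℕ := lam p0 (g p0 + 1) with hKdef
  have hK2 : 2 ≤ K := by
    have q1 := hmax p ⟨hdl, by omega⟩
    have q2 := h.anti p (g p + 1) i (by omega) (by omega)
    omega
  have hKc : K < c := h.up p0 (g p0 + 1) (by omega)
  have hKcd : (K : ℤ) * ((c : ℤ) + d - K) ≤ (a : ℤ) + b - 1 := by
    have q1 := h.tail p0 hp0n
    have q2 := card_vt h p0 hp0l
    have q3 : K * (c + d - K) ≤ a + b - 1 := le_trans q1 q2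
    have q4 : ((K * (c + d - K) : ℕ) : ℤ) ≤ ((a + b - 1 : ℕ) : ℤ) := by exact_mod_cast q3
    rw [Nat.cast_mul, Nat.cast_sub (by omega : K ≤ c + d), Nat.cast_sub (by omega : 1 ≤ a + b)] at q4
    push_cast at q4
    exact q4
  -- integer versions
  have za : (2 : ℤ) ≤ a := by exact_mod_cast ha2
  have zac : (a : ℤ) < c := by exact_mod_cast hac
  have zcd : (c : ℤ) ≤ d := by exact_mod_cast hcd
  have zdb : (d : ℤ) < b := by exact_mod_cast hdb
  have zN : (c : ℤ) * d = a * b := by exact_mod_cast hN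
  have zK : (2 : ℤ) ≤ K := by exact_mod_cast hK2
  have zKc : (K : ℤ) < c := by exact_mod_cast hKc
  obtain ⟨D0, hD0⟩ : ∃ D0 : ℤ, D0 = (c : ℤ) + d - 1 := ⟨_, rfl⟩
  have hD0K : 0 < D0 - K := by rw [hD0]; linarith
  have hD0p : 0 < D0 := by rw [hD0]; linarith
  have hba : (0 : ℤ) < (b : ℤ) - a := by linarith
  have hNp : (0 : ℤ) < (a : ℤ) * b := by nlinarith
  -- abbreviations
  set XX : P → ℤ := fun q => XXz c d (g q) (n q) (lam q) with hXX
  set HH : P → ℤ := fun q => HHz c d (g q) (lam q) with hHH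
  set Y : P → ℤ := fun q => ∑ i ∈ Ioc (g q) (n q), (lam q i : ℤ) * ((lam q i : ℤ) - 1) with hY
  set Z : P → ℤ := fun q =>
    ∑ i ∈ Icc 1 (g q), ((c : ℤ) - lam q i) * ((c : ℤ) - 1 + lam q i) with hZ
  -- bounds on lam beyond g
  have hrange : ∀ q, dl q = 1 → ∀ i ∈ Ioc (g q) (n q), 1 ≤ lam q i ∧ lam q i ≤ K := by
    intro q hq i hi
    rw [mem_Ioc] at hi
    have q1 := h.pos q i (by omega) hi.2
    have q2 := h.anti q (g q + 1) i (by omega) (by omega)
    have q3 := hmax q ⟨hq, by omega⟩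
    exact ⟨q1, by omega⟩
  have hXXY : ∀ q, dl q = 1 → (D0 - K) * Y q ≤ K * XX q := by
    intro q hq
    simp only [hXX, hY, XXz]
    rw [Finset.mul_sum, Finset.mul_sum]
    refine Finset.sum_le_sum fun i hi => ?_
    obtain ⟨r1, r2⟩ := hrange q hq i hi
    have r1' : (1 : ℤ) ≤ (lam q i : ℤ) := by exact_mod_cast r1
    have r2' : (lam q i : ℤ) ≤ K := by exact_mod_cast r2
    rw [hD0]
    exact Cm5_XX_term (by linarith) zcd zKc r1' r2'
  have hXXnn : ∀ q, dl q = 1 → 0 ≤ XX q := by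
    intro q hq
    simp only [hXX, XXz]
    refine Finset.sum_nonneg fun i hi => ?_
    obtain ⟨r1, r2⟩ := hrange q hq i hi
    have r1' : (1 : ℤ) ≤ (lam q i : ℤ) := by exact_mod_cast r1
    have r2' : (lam q i : ℤ) ≤ K := by exact_mod_cast r2
    exact mul_nonneg (by linarith) (by linarith)
  have hXX0 : 1 ≤ XX p0 := by
    have hmem : g p0 + 1 ∈ Ioc (g p0) (n p0) := by rw [mem_Ioc]; omega
    have q1 : ((lam p0 (g p0 + 1) : ℤ) - 1) * ((c : ℤ) + d - 1 - lam p0 (g p0 + 1)) ≤ XX p0 := by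
      simp only [hXX, XXz]
      refine Finset.single_le_sum (f := fun i => ((lam p0 i : ℤ) - 1) *
        ((c : ℤ) + d - 1 - lam p0 i)) (fun i hi => ?_) hmem
      obtain ⟨r1, r2⟩ := hrange p0 hp0l i hi
      have r1' : (1 : ℤ) ≤ (lam p0 i : ℤ) := by exact_mod_cast r1
      have r2' : (lam p0 i : ℤ) ≤ K := by exact_mod_cast r2
      exact mul_nonneg (by linarith) (by linarith)
    rw [← hKdef] at q1
    have q2 : (1 : ℤ) * 1 ≤ ((K : ℤ) - 1) * ((c : ℤ) + d - 1 - K) :=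
      mul_le_mul (by linarith) (by linarith) (by norm_num) (by linarith)
    linarith
  set pl := univ.filter (fun q : P => dl q = 1) with hpl
  have hp0pl : p0 ∈ pl := by rw [hpl]; simp [hp0l]
  have hSXX : 1 ≤ ∑ q ∈ pl, XX q := by
    have : XX p0 ≤ ∑ q ∈ pl, XX q := by
      refine Finset.single_le_sum (f := XX) (fun q hq => ?_) hp0pl
      rw [hpl] at hq
      simp only [mem_filter, mem_univ, true_and] at hq
      exact hXXnn q hq
    linarith
  have hSXY : (D0 - K) * ∑ q ∈ pl, Y q ≤ K * ∑ q ∈ pl, XX q := by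
    rw [Finset.mul_sum, Finset.mul_sum]
    refine Finset.sum_le_sum fun q hq => ?_
    rw [hpl] at hq
    simp only [mem_filter, mem_univ, true_and] at hq
    exact hXXY q hq
  -- star
  have hstar : ∑ q, (dl q : ℤ) * Z q + ((d : ℤ) - c) * D0 * eF ≤ ∑ q ∈ pl, Y q := by
    rw [hD0]
    exact Cm5_star h
  -- (P)
  have hP := P_ineq h
  rw [← hD0] at hP
  -- planes
  have hplane : ∀ q, dl q = 1 → K * (D0 * ((g q : ℤ) * ((vt q).card + b - a))) +
      K * (((b : ℤ) - a) * HH q) + g q ≤ ((b : ℤ) - a) * (D0 - K) * Z q := by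
    intro q hq
    have hcard : ((vt q).card : ℤ) ≤ (a : ℤ) + b - 1 := by
      have q1 := card_vt h q hq
      have q2 : (vt q).card + 1 ≤ a + b := by omega
      have q3 : ((vt q).card : ℤ) + 1 ≤ (a : ℤ) + b := by exact_mod_cast q2
      linarith
    have q1 : (K : ℤ) * (D0 * ((g q : ℤ) * ((vt q).card + b - a))) ≤
        (g q : ℤ) * (K * D0 * (2 * b - 1)) := by
      have q2 : (0 : ℤ) ≤ (g q : ℤ) * (K * D0) :=
        mul_nonneg (by positivity) (mul_nonneg (by positivity) hD0p.le)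
      have q3 := mul_le_mul_of_nonneg_left (show ((vt q).card : ℤ) + b - a ≤ 2 * b - 1 by linarith) q2
      linarith
    have q2 : (g q : ℤ) * (K * D0 * (2 * b - 1)) + K * (((b : ℤ) - a) * HH q) + g q =
        ∑ i ∈ Icc 1 (g q), (K * D0 * (2 * b - 1) +
          K * ((b : ℤ) - a) * (((c : ℤ) - lam q i) * ((d : ℤ) - lam q i)) + 1) := by
      rw [Finset.sum_add_distrib, Finset.sum_add_distrib, Finset.sum_const, Finset.sum_const,
        Nat.card_Icc, ← Finset.mul_sum]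
      simp only [hHH, HHz, Nat.add_sub_cancel, nsmul_eq_mul, mul_one]
      ring
    have q3 : ((b : ℤ) - a) * (D0 - K) * Z q = ∑ i ∈ Icc 1 (g q),
        ((b : ℤ) - a) * (D0 - K) * (((c : ℤ) - lam q i) * ((c : ℤ) - 1 + lam q i)) := by
      simp only [hZ]
      rw [Finset.mul_sum]
    have q4 : ∑ i ∈ Icc 1 (g q), (K * D0 * (2 * b - 1) +
          K * ((b : ℤ) - a) * (((c : ℤ) - lam q i) * ((d : ℤ) - lam q i)) + 1) ≤
        ∑ i ∈ Icc 1 (g q),
        ((b : ℤ) - a) * (D0 - K) * (((c : ℤ) - lam q i) * ((c : ℤ) - 1 + lam q i)) := by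
      refine Finset.sum_le_sum fun i hi => ?_
      rw [mem_Icc] at hi
      have r1 := h.pos q i hi.1 (le_trans hi.2 (h.gn q))
      have r2 := h.up q i hi.1
      rw [hD0]
      exact ar2 za zac zcd zN zK zKc hKcd (by exact_mod_cast r1) (by exact_mod_cast r2)
    rw [q3]
    linarith
  have hnonpl : ∀ q, K * ((g q : ℤ) * (D0 * ((a : ℤ) * b + 1) + b - a)) + g q ≤
      ((b : ℤ) - a) * (D0 - K) * Z q := by
    intro q
    have q2 : K * ((g q : ℤ) * (D0 * ((a : ℤ) * b + 1) + b - a)) + g q =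
        ∑ i ∈ Icc 1 (g q), (K * (D0 * ((a : ℤ) * b + 1) + b - a) + 1) := by
      rw [Finset.sum_const, Nat.card_Icc]
      simp only [Nat.add_sub_cancel, nsmul_eq_mul]
      ring
    have q3 : ((b : ℤ) - a) * (D0 - K) * Z q = ∑ i ∈ Icc 1 (g q),
        ((b : ℤ) - a) * (D0 - K) * (((c : ℤ) - lam q i) * ((c : ℤ) - 1 + lam q i)) := by
      simp only [hZ]
      rw [Finset.mul_sum]
    rw [q2, q3]
    refine Finset.sum_le_sum fun i hi => ?_
    rw [mem_Icc] at hi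
    have r1 := h.pos q i hi.1 (le_trans hi.2 (h.gn q))
    have r2 := h.up q i hi.1
    rw [hD0]
    exact ar3 za zac zcd zN zK zKc hKcd (by exact_mod_cast r1) (by exact_mod_cast r2)
  -- sum over all p
  have hsum : K * (D0 * ∑ q ∈ pl, (g q : ℤ) * ((vt q).card + b - a)) +
      K * (((b : ℤ) - a) * ∑ q ∈ pl, HH q) +
      K * (∑ q ∈ univ.filter (fun q => dl q ≠ 1), (dl q : ℤ) * g q * (D0 * (a * b + 1) + b - a)) +
      ∑ q, (dl q : ℤ) * g q ≤ ((b : ℤ) - a) * (D0 - K) * ∑ q, (dl q : ℤ) * Z q := by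
    have s1 : ∑ q, (dl q : ℤ) * g q = ∑ q ∈ pl, (g q : ℤ) +
        ∑ q ∈ univ.filter (fun q => dl q ≠ 1), (dl q : ℤ) * g q := by
      rw [← Finset.sum_filter_add_sum_filter_not univ (fun q => dl q = 1)]
      congr 1
      refine Finset.sum_congr rfl fun q hq => ?_
      rw [hpl] at hq
      simp only [mem_filter, mem_univ, true_and] at hq
      rw [hq]; push_cast; ring
    have s2 : ∑ q, (dl q : ℤ) * Z q = ∑ q ∈ pl, Z q +
        ∑ q ∈ univ.filter (fun q => dl q ≠ 1), (dl q : ℤ) * Z q := by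
      rw [← Finset.sum_filter_add_sum_filter_not univ (fun q => dl q = 1)]
      congr 1
      refine Finset.sum_congr rfl fun q hq => ?_
      rw [hpl] at hq
      simp only [mem_filter, mem_univ, true_and] at hq
      rw [hq]; push_cast; ring
    have s3 : K * (D0 * ∑ q ∈ pl, (g q : ℤ) * ((vt q).card + b - a)) +
        K * (((b : ℤ) - a) * ∑ q ∈ pl, HH q) + ∑ q ∈ pl, (g q : ℤ) ≤
        ((b : ℤ) - a) * (D0 - K) * ∑ q ∈ pl, Z q := by
      rw [Finset.mul_sum, Finset.mul_sum, Finset.mul_sum, Finset.mul_sum, Finset.mul_sum,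
        ← Finset.sum_add_distrib, ← Finset.sum_add_distrib]
      refine Finset.sum_le_sum fun q hq => ?_
      rw [hpl] at hq
      simp only [mem_filter, mem_univ, true_and] at hq
      exact hplane q hq
    have s4 : K * (∑ q ∈ univ.filter (fun q => dl q ≠ 1),
        (dl q : ℤ) * g q * (D0 * (a * b + 1) + b - a)) +
        ∑ q ∈ univ.filter (fun q => dl q ≠ 1), (dl q : ℤ) * g q ≤
        ((b : ℤ) - a) * (D0 - K) * ∑ q ∈ univ.filter (fun q => dl q ≠ 1), (dl q : ℤ) * Z q := by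
      rw [Finset.mul_sum, Finset.mul_sum, ← Finset.sum_add_distrib]
      refine Finset.sum_le_sum fun q hq => ?_
      have := mul_le_mul_of_nonneg_left (hnonpl q) (show (0 : ℤ) ≤ (dl q : ℤ) by positivity)
      linarith
    rw [s1, s2]
    linarith
  have hkap := (ar_kappa za zac zcd zN).2
  have hfirst : 0 ≤ D0 * ((a : ℤ) * b) * ((a : ℤ) + b - c - d - 1) :=
    mul_nonneg (mul_nonneg hD0p.le hNp.le) (by linarith)
  have hK0 : (0 : ℤ) ≤ K := by positivity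
  have hbaK : 0 ≤ ((b : ℤ) - a) * (D0 - K) := mul_nonneg hba.le hD0K.le
  have hP2 : (K : ℤ) * (((b : ℤ) - a) * ∑ q ∈ pl, XX q) ≤
      K * (D0 * ((a : ℤ) * b) * ∑ q, (dl q : ℤ) * jj q) +
      K * (D0 * ∑ q ∈ pl, (g q : ℤ) * ((vt q).card + b - a)) +
      K * (((b : ℤ) - a) * ∑ q ∈ pl, HH q) +
      K * (∑ q ∈ univ.filter (fun q => dl q ≠ 1), (dl q : ℤ) * g q * (D0 * (a * b + 1) + b - a)) := by
    rw [← mul_add, ← mul_add, ← mul_add]
    exact mul_le_mul_of_nonneg_left (by linarith) hK0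
  have hstar2 := mul_le_mul_of_nonneg_left hstar hbaK
  have hSXY2 := mul_le_mul_of_nonneg_left hSXY hba.le
  have heF : (0 : ℤ) ≤ (eF : ℤ) := by positivity
  rcases h.loss with hj | ⟨hdc, hj⟩
  · have hjj : ∑ q, (dl q : ℤ) * jj q = 0 := by
      refine Finset.sum_eq_zero fun q _ => ?_
      rw [hj q]; simp
    rw [hjj] at hP2
    have t1 : 0 ≤ ((b : ℤ) - a) * (D0 - K) * (((d : ℤ) - c) * D0 * eF) :=
      mul_nonneg hbaK (mul_nonneg (mul_nonneg (by linarith) hD0p.le) heF)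
    have t2 : ∑ q, (dl q : ℤ) * g q ≤ 0 := by linarith
    have t3 : ∀ q, g q = 0 := by
      intro q
      have u1 : (dl q : ℤ) * g q ≤ ∑ q, (dl q : ℤ) * g q :=
        Finset.single_le_sum (f := fun q => (dl q : ℤ) * g q) (fun r _ => by positivity) (mem_univ q)
      have u2 : dl q * g q = 0 := by
        have : ((dl q * g q : ℕ) : ℤ) ≤ 0 := by push_cast; linarith
        omega
      have u3 := h.dl1 q
      rcases Nat.mul_eq_zero.1 u2 with u4 | u4
      · omega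
      · exact u4
    have t4 : ∑ q ∈ pl, HH q = 0 := by
      refine Finset.sum_eq_zero fun q _ => ?_
      simp only [hHH, HHz]
      rw [t3 q]
      simp
    have t5 : ∑ q ∈ pl, (g q : ℤ) * ((vt q).card + b - a) = 0 := by
      refine Finset.sum_eq_zero fun q _ => ?_
      rw [t3 q]
      simp
    have t6 : ∑ q ∈ univ.filter (fun q => dl q ≠ 1),
        (dl q : ℤ) * g q * (D0 * (a * b + 1) + b - a) = 0 := by
      refine Finset.sum_eq_zero fun q _ => ?_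
      rw [t3 q]
      simp
    rw [t4, t5, t6] at hP2
    have t7 : 0 < (K : ℤ) * (((b : ℤ) - a) * ∑ q ∈ pl, XX q) :=
      mul_pos (by linarith) (mul_pos hba (by linarith))
    linarith
  · have zdc : (d : ℤ) = c + 1 := by exact_mod_cast hdc
    have zj : ∑ q, (dl q : ℤ) * jj q + 1 + ∑ q, (dl q : ℤ) * g q ≤ 2 * eF := by exact_mod_cast hj
    have h4 := ar4 za zac zdc zN zK zKc hKcd
    rw [← hD0] at h4
    have w1 : 0 < (K : ℤ) * (D0 * ((a : ℤ) * b)) := mul_pos (by linarith) (mul_pos hD0p hNp)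
    have w2 : (0 : ℤ) ≤ ∑ q, (dl q : ℤ) * g q := Finset.sum_nonneg fun q _ => by positivity
    have w3 : (K : ℤ) * (D0 * ((a : ℤ) * b) * ∑ q, (dl q : ℤ) * jj q) ≤
        K * (D0 * ((a : ℤ) * b)) * (2 * eF - 1) := by
      have := mul_le_mul_of_nonneg_left (show ∑ q, (dl q : ℤ) * jj q ≤ 2 * eF - 1 by linarith) w1.le
      linarith
    have w4 : (K : ℤ) * (D0 * ((a : ℤ) * b)) * (2 * eF) ≤
        ((b : ℤ) - a) * (D0 - K) * (((d : ℤ) - c) * D0 * eF) := by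
      have := mul_le_mul_of_nonneg_right h4 (show (0 : ℤ) ≤ D0 * eF from mul_nonneg hD0p.le heF)
      rw [zdc]
      linarith
    linarith

end GP80

end S_H80_GP_Cm5

section S_H80_GP_Sf2

/-!
# Row Sf2 (MP_87ed0a_GP): surfaces and chords of an exact grid  (about 200 lines)

`π ≠ 0` homogeneous of degree `δ`.  Fix two rows `k ≠ k'`.  Claim: `∑_{j, m : Fin b} ordL (x0 k j) (x0 k' m) π ≤ b δ`.  Summing over the `a (a-1)` ordered pairs of rows (and dropping the pairs with `j = m`) gives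
`surfSum x0 π ≤ a (a-1) b δ = (a-1) (a b) δ`.
Proof of the claim.  Let `j0 ≠ j1` be two columns (`b ≥ 2`), `e_0 = x0 k j0`, `e_1 = x0 k j1`, `e'_0 = x0 k' j0`, `e'_1 = x0 k' j1`: a basis of `ℂ^4` (`ind`).  `x0 k j = y_j0 e_0 + y_j1 e_1` (`col`), `x0 k' m = y'_m0 e'_0 + y'_m1 e'_1`; the `y_j` are nonzero and
pairwise independent (two vectors of a row are independent by `ind`), same for `y'_m`.
`c(u, u') := π(u_0 e_0 + u_1 e_1 + u'_0 e'_0 + u'_1 e'_1)`, nonzero (invertible substitution), homogeneous of degree `δ`; let `c_i` be its component of degree `i` in `u` (`weightedHomogeneousComponent`), of degree `δ - i` in `u'`; choose `i` with `c_i ≠ 0` (`i ≤ δ`).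
Claim': `ordL (x0 k j) (x0 k' m) π ≤ mlt y_j y'_m c_i`.  Let `M = ordL ..`: `ε^M` divides `π(s x0_kj + t x0_k'm + ε w)`; substitute for `w` the vector `ω_0 e_0 + ω_1 e_1 + ω'_0 e'_0 + ω'_1 e'_1` (a ring hom on the coefficients):
`ε^M ∣ c(s y_j + ε ω, t y'_m + ε ω')`.  The ring hom multiplying the variables `s, ω_0, ω_1` by a new variable `λ` (coefficient ring `MvPolynomial .. [λ]`) turns this into `∑_i λ^i c_i(s y_j + ε ω, t y'_m + ε ω')`, still divisible by `ε^M`, so every `c_i(..)` is divisible by `ε^M`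
(alternatively: weighted homogeneous components in the weights `s, ω ↦ 1`, `t, ω', ε ↦ 0`).  Put `s = t = 1`: `ε^M ∣ c_i(y_j + ε ω, y'_m + ε ω') ≠ 0`, so `M ≤ mlt`.
By `mlt_sum` with `J = M = Fin b`: `∑ ≤ b i + b (δ - i) = b δ`.
-/

open Pool.Agent.H3.GP

namespace GP80

open MvPolynomial

/-- substitution of the vector with coordinates `u, u'` in the basis `E` -/
noncomputable def Sf2_T (E : Fin 2 ⊕ Fin 2 → Fin 4 → ℂ) :
    RR →+* MvPolynomial (Fin 2 ⊕ Fin 2) ℂ :=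
  eval₂Hom (C : ℂ →+* MvPolynomial (Fin 2 ⊕ Fin 2) ℂ) (fun i => ∑ κ, C (E κ i) * X κ)

theorem Sf2_T_C (E : Fin 2 ⊕ Fin 2 → Fin 4 → ℂ) (a : ℂ) : Sf2_T E (C a) = C a := by
  unfold Sf2_T
  rw [coe_eval₂Hom, eval₂_C]

theorem Sf2_T_X (E : Fin 2 ⊕ Fin 2 → Fin 4 → ℂ) (i : Fin 4) :
    Sf2_T E (X i) = ∑ κ, C (E κ i) * X κ := by
  unfold Sf2_T
  rw [coe_eval₂Hom, eval₂_X]

theorem Sf2_T_injective {E : Fin 2 ⊕ Fin 2 → Fin 4 → ℂ}
    (hE : ∀ x : Fin 4 → ℂ, ∃ L : Fin 2 ⊕ Fin 2 → ℂ, ∑ κ, L κ • E κ = x) :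
    Function.Injective (Sf2_T E) := by
  choose L hL using fun l : Fin 4 => hE (Pi.single l 1)
  have h1 : (eval₂Hom (C : ℂ →+* RR) (fun κ => ∑ l, C (L l κ) * X l)).comp (Sf2_T E) =
      RingHom.id RR := by
    apply MvPolynomial.ringHom_ext
    · intro a
      rw [RingHom.comp_apply, Sf2_T_C, coe_eval₂Hom, eval₂_C]
      rfl
    · intro i
      rw [RingHom.comp_apply, Sf2_T_X, map_sum, RingHom.id_apply]
      have h2 : ∀ κ : Fin 2 ⊕ Fin 2, (eval₂Hom (C : ℂ →+* RR) (fun κ => ∑ l, C (L l κ) * X l))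
          (C (E κ i) * X κ) = ∑ l, C (L l κ * E κ i) * X l := by
        intro κ
        rw [map_mul, coe_eval₂Hom, eval₂_C, eval₂_X, Finset.mul_sum]
        refine Finset.sum_congr rfl fun l _ => ?_
        rw [C_mul]
        ring
      rw [Finset.sum_congr rfl fun κ _ => h2 κ, Finset.sum_comm]
      have h3 : ∀ l : Fin 4, ∑ κ, C (L l κ * E κ i) * (X l : RR) =
          C ((Pi.single l 1 : Fin 4 → ℂ) i) * X l := by
        intro l
        rw [← Finset.sum_mul, ← map_sum, ← hL l]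
        congr 2
      rw [Finset.sum_congr rfl fun l _ => h3 l, Finset.sum_eq_single i]
      · rw [Pi.single_eq_same, C_1, one_mul]
      · intro l _ hl
        rw [Pi.single_eq_of_ne (Ne.symm hl), C_0, zero_mul]
      · intro h
        exact absurd (Finset.mem_univ i) h
  intro a b hab
  have h2 := congrArg (eval₂Hom (C : ℂ →+* RR) (fun κ => ∑ l, C (L l κ) * X l)) hab
  have h3 := RingHom.congr_fun h1 a
  have h4 := RingHom.congr_fun h1 b
  rw [RingHom.comp_apply, RingHom.id_apply] at h3 h4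
  rw [← h3, ← h4]
  exact h2

theorem Sf2_T_hom (E : Fin 2 ⊕ Fin 2 → Fin 4 → ℂ) {δ : ℕ} {π : RR} (hπ : π.IsHomogeneous δ) :
    (Sf2_T E π).IsHomogeneous δ := by
  have h := hπ.eval₂ (C : ℂ →+* MvPolynomial (Fin 2 ⊕ Fin 2) ℂ) (fun i => ∑ κ, C (E κ i) * X κ)
    (n := 1) (fun r => isHomogeneous_C _ r) (fun i => by
      apply IsHomogeneous.sum
      intro κ _
      have h := (isHomogeneous_C (Fin 2 ⊕ Fin 2) (E κ i)).mul (isHomogeneous_X ℂ κ)
      rwa [zero_add] at h)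
  rw [one_mul] at h
  exact h

/-- scaling of the first two variables -/
noncomputable def Sf2_S (t : ℂ) :
    MvPolynomial (Fin 2 ⊕ Fin 2) ℂ →+* MvPolynomial (Fin 2 ⊕ Fin 2) ℂ :=
  eval₂Hom (C : ℂ →+* MvPolynomial (Fin 2 ⊕ Fin 2) ℂ)
    (Sum.elim (fun k => C t * X (Sum.inl k)) (fun k => X (Sum.inr k)))

/-- the weights counting the degree in the first two variables -/
def Sf2_w : Fin 2 ⊕ Fin 2 → ℕ := Sum.elim (fun _ => 1) (fun _ => 0)

theorem Sf2_weight (d : Fin 2 ⊕ Fin 2 →₀ ℕ) :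
    Finsupp.weight Sf2_w d = d (Sum.inl 0) + d (Sum.inl 1) := by
  rw [Finsupp.weight_apply, Finsupp.sum_fintype _ _ (fun _ => by simp), Fintype.sum_sum_type,
    Fin.sum_univ_two, Fin.sum_univ_two]
  simp [Sf2_w]

theorem Sf2_S_monomial (t : ℂ) (d : Fin 2 ⊕ Fin 2 →₀ ℕ) (a : ℂ) :
    Sf2_S t (monomial d a) = C (t ^ Finsupp.weight Sf2_w d) * monomial d a := by
  rw [monomial_eq, map_mul, Finsupp.prod_fintype _ _ (fun _ => pow_zero _), map_prod]
  have h1 : Sf2_S t (C a) = C a := by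
    unfold Sf2_S
    rw [coe_eval₂Hom, eval₂_C]
  have h2 : ∀ k, Sf2_S t (X (Sum.inl k)) = C t * X (Sum.inl k) := by
    intro k
    unfold Sf2_S
    rw [coe_eval₂Hom, eval₂_X]
    rfl
  have h3 : ∀ k, Sf2_S t (X (Sum.inr k)) = X (Sum.inr k) := by
    intro k
    unfold Sf2_S
    rw [coe_eval₂Hom, eval₂_X]
    rfl
  rw [h1, Fintype.prod_sum_type, Fintype.prod_sum_type, Fin.prod_univ_two, Fin.prod_univ_two,
    Fin.prod_univ_two, Fin.prod_univ_two, map_pow, map_pow, map_pow, map_pow, h2, h2, h3, h3,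
    Sf2_weight, C_pow, pow_add]
  ring

/-- specialisation of the coefficients -/
noncomputable def Sf2_R (E : Fin 2 ⊕ Fin 2 → Fin 4 → ℂ) (t : ℂ) :
    MvPolynomial (Fin 2 ⊕ Fin 4) ℂ →+* MvPolynomial (Fin 2 ⊕ Fin 2) ℂ :=
  eval₂Hom (C : ℂ →+* MvPolynomial (Fin 2 ⊕ Fin 2) ℂ)
    (Sum.elim ![C t, 1] (fun l => (∑ k : Fin 2, C (t * E (Sum.inl k) l) * X (Sum.inl k)) +
      ∑ k : Fin 2, C (E (Sum.inr k) l) * X (Sum.inr k)))

theorem Sf2_mltH_X1 (y y' : Fin 2 → ℂ) (k : Fin 2) : mltH y y' (X (Sum.inl k)) =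
    Polynomial.C (C (y k)) + Polynomial.X * Polynomial.C (X (Sum.inl k)) := by
  unfold mltH
  rw [coe_eval₂Hom, eval₂_X]
  rfl

theorem Sf2_mltH_X2 (y y' : Fin 2 → ℂ) (k : Fin 2) : mltH y y' (X (Sum.inr k)) =
    Polynomial.C (C (y' k)) + Polynomial.X * Polynomial.C (X (Sum.inr k)) := by
  unfold mltH
  rw [coe_eval₂Hom, eval₂_X]
  rfl

theorem Sf2_mltH_C (y y' : Fin 2 → ℂ) (a : ℂ) : mltH y y' (C a) = Polynomial.C (C a) := by
  unfold mltH
  rw [coe_eval₂Hom, eval₂_C]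
  rfl

theorem Sf2_comm (E : Fin 2 ⊕ Fin 2 → Fin 4 → ℂ) (y y' : Fin 2 → ℂ) {z z' : Fin 4 → ℂ}
    (hz : z = y 0 • E (Sum.inl 0) + y 1 • E (Sum.inl 1))
    (hz' : z' = y' 0 • E (Sum.inr 0) + y' 1 • E (Sum.inr 1)) (t : ℂ) (h : RR) :
    Polynomial.map (Sf2_R E t) (lineH z z' h) = mltH y y' (Sf2_S t (Sf2_T E h)) := by
  have hR1 : Sf2_R E t (X (Sum.inl 0)) = C t := by
    unfold Sf2_R
    rw [coe_eval₂Hom, eval₂_X]
    rfl
  have hR2 : Sf2_R E t (X (Sum.inl 1)) = 1 := by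
    unfold Sf2_R
    rw [coe_eval₂Hom, eval₂_X]
    rfl
  have hR3 : ∀ l, Sf2_R E t (X (Sum.inr l)) =
      (∑ k : Fin 2, C (t * E (Sum.inl k) l) * X (Sum.inl k)) +
      ∑ k : Fin 2, C (E (Sum.inr k) l) * X (Sum.inr k) := by
    intro l
    unfold Sf2_R
    rw [coe_eval₂Hom, eval₂_X]
    rfl
  have hRC : ∀ a, Sf2_R E t (C a) = C a := by
    intro a
    unfold Sf2_R
    rw [coe_eval₂Hom, eval₂_C]
  have hSC : ∀ a, Sf2_S t (C a) = C a := by
    intro a
    unfold Sf2_S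
    rw [coe_eval₂Hom, eval₂_C]
  have hS1 : ∀ k, Sf2_S t (X (Sum.inl k)) = C t * X (Sum.inl k) := by
    intro k
    unfold Sf2_S
    rw [coe_eval₂Hom, eval₂_X]
    rfl
  have hS2 : ∀ k, Sf2_S t (X (Sum.inr k)) = X (Sum.inr k) := by
    intro k
    unfold Sf2_S
    rw [coe_eval₂Hom, eval₂_X]
    rfl
  have key : (Polynomial.mapRingHom (Sf2_R E t)).comp (lineH z z') =
      ((mltH y y').comp (Sf2_S t)).comp (Sf2_T E) := by
    apply MvPolynomial.ringHom_ext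
    · intro a
      rw [RingHom.comp_apply, RingHom.comp_apply, RingHom.comp_apply, Ord_lineH_C, Sf2_T_C, hSC,
        Sf2_mltH_C, Polynomial.coe_mapRingHom, Polynomial.map_C, hRC]
    · intro i
      rw [RingHom.comp_apply, RingHom.comp_apply, RingHom.comp_apply, Ord_lineH_X, Sf2_T_X,
        Polynomial.coe_mapRingHom, Polynomial.map_add, Polynomial.map_mul, Polynomial.map_C,
        Polynomial.map_C, Polynomial.map_X, map_add, map_mul, map_mul, hR1, hR2, hR3, hRC, hRC,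
        Fintype.sum_sum_type]
      simp only [Fin.sum_univ_two, map_add, map_mul, hSC, hS1, hS2, Sf2_mltH_X1, Sf2_mltH_X2, Sf2_mltH_C]
      rw [hz, hz']
      simp only [Pi.add_apply, Pi.smul_apply, smul_eq_mul, map_add, map_mul, map_one]
      ring
  exact RingHom.congr_fun key h

theorem Sf2_claim {E : Fin 2 ⊕ Fin 2 → Fin 4 → ℂ} (y y' : Fin 2 → ℂ) {z z' : Fin 4 → ℂ}
    (hz : z = y 0 • E (Sum.inl 0) + y 1 • E (Sum.inl 1))
    (hz' : z' = y' 0 • E (Sum.inr 0) + y' 1 • E (Sum.inr 1)) (π : RR) (i : ℕ)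
    (hi : weightedHomogeneousComponent Sf2_w i (Sf2_T E π) ≠ 0) :
    ordL z z' π ≤ mlt y y' (weightedHomogeneousComponent Sf2_w i (Sf2_T E π)) := by
  obtain ⟨c, hc⟩ : ∃ c, c = Sf2_T E π := ⟨_, rfl⟩
  rw [← hc] at hi ⊢
  unfold ordL mlt
  refine Polynomial.le_natTrailingDegree ?_ ?_
  · intro h0
    exact hi ((_root_.map_eq_zero_iff _ (mltH_injective y y')).1 h0)
  intro n hn
  -- for all scalars
  have h1 : ∀ t : ℂ, ∑ d ∈ c.support, C (t ^ Finsupp.weight Sf2_w d) *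
      (mltH y y' (monomial d (coeff d c))).coeff n = 0 := by
    intro t
    have h2 : (Polynomial.map (Sf2_R E t) (lineH z z' π)).coeff n = 0 := by
      rw [Polynomial.coeff_map, Polynomial.coeff_eq_zero_of_lt_natTrailingDegree hn, map_zero]
    rw [Sf2_comm E y y' hz hz' t π, ← hc] at h2
    have h3 : Sf2_S t c = ∑ d ∈ c.support, C (t ^ Finsupp.weight Sf2_w d) *
        monomial d (coeff d c) := by
      conv_lhs => rw [← support_sum_monomial_coeff c]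
      rw [map_sum]
      exact Finset.sum_congr rfl fun d _ => Sf2_S_monomial t d _
    rw [h3, map_sum, Polynomial.finsetSum_coeff] at h2
    rw [← h2]
    refine Finset.sum_congr rfl fun d _ => ?_
    rw [map_mul, Sf2_mltH_C, Polynomial.coeff_C_mul]
  -- a polynomial vanishing at all scalars
  obtain ⟨p, hp⟩ : ∃ p : Polynomial (MvPolynomial (Fin 2 ⊕ Fin 2) ℂ),
      p = ∑ d ∈ c.support, Polynomial.C ((mltH y y' (monomial d (coeff d c))).coeff n) *
        Polynomial.X ^ Finsupp.weight Sf2_w d := ⟨_, rfl⟩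
  have hp0 : p = 0 := by
    apply Polynomial.eq_zero_of_infinite_isRoot
    have h2 : Set.range (C : ℂ → MvPolynomial (Fin 2 ⊕ Fin 2) ℂ) ⊆ {x | p.IsRoot x} := by
      rintro _ ⟨t, rfl⟩
      show p.eval (C t) = 0
      rw [hp, Polynomial.eval_finsetSum, ← h1 t]
      refine Finset.sum_congr rfl fun d _ => ?_
      rw [Polynomial.eval_mul, Polynomial.eval_C, Polynomial.eval_pow, Polynomial.eval_X, C_pow]
      ring
    exact (Set.infinite_range_of_injective (C_injective _ _)).mono h2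
  have h4 : p.coeff i = 0 := by
    rw [hp0, Polynomial.coeff_zero]
  rw [hp, Polynomial.finsetSum_coeff] at h4
  rw [weightedHomogeneousComponent_apply, map_sum, Polynomial.finsetSum_coeff,
    Finset.sum_filter]
  refine Eq.trans ?_ h4
  refine Finset.sum_congr rfl fun d _ => ?_
  rw [Polynomial.coeff_C_mul, Polynomial.coeff_X_pow]
  by_cases h5 : Finsupp.weight Sf2_w d = i
  · rw [if_pos h5, if_pos h5.symm, mul_one]
  · rw [if_neg h5, if_neg (fun h => h5 h.symm), mul_zero]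

theorem Sf2_pair {b : ℕ} {E : Fin 2 ⊕ Fin 2 → Fin 4 → ℂ}
    (hE : ∀ x : Fin 4 → ℂ, ∃ L : Fin 2 ⊕ Fin 2 → ℂ, ∑ κ, L κ • E κ = x)
    (z z' : Fin b → Fin 4 → ℂ) (y y' : Fin b → Fin 2 → ℂ)
    (hz : ∀ j, z j = y j 0 • E (Sum.inl 0) + y j 1 • E (Sum.inl 1))
    (hz' : ∀ j, z' j = y' j 0 • E (Sum.inr 0) + y' j 1 • E (Sum.inr 1))
    (hy : ∀ j j', j ≠ j' → LinearIndependent ℂ ![y j, y j']) (hy0 : ∀ j, y j ≠ 0)
    (hy' : ∀ m m', m ≠ m' → LinearIndependent ℂ ![y' m, y' m']) (hy0' : ∀ m, y' m ≠ 0)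
    {δ : ℕ} {π : RR} (hπ : π.IsHomogeneous δ) (h : π ≠ 0) :
    ∑ j, ∑ m, ordL (z j) (z' m) π ≤ b * δ := by
  obtain ⟨c, hc⟩ : ∃ c, c = Sf2_T E π := ⟨_, rfl⟩
  have hc0 : c ≠ 0 := by
    rw [hc]
    intro h0
    exact h ((_root_.map_eq_zero_iff _ (Sf2_T_injective hE)).1 h0)
  have hch : c.IsHomogeneous δ := by
    rw [hc]
    exact Sf2_T_hom E hπ
  obtain ⟨d, hd⟩ := ne_zero_iff.1 hc0
  obtain ⟨i, hi⟩ : ∃ i, i = Finsupp.weight Sf2_w d := ⟨_, rfl⟩
  have htot : ∀ d : Fin 2 ⊕ Fin 2 →₀ ℕ, coeff d c ≠ 0 →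
      d (Sum.inl 0) + d (Sum.inl 1) + (d (Sum.inr 0) + d (Sum.inr 1)) = δ := by
    intro d hd
    have h1 := hch hd
    rw [Finsupp.weight_apply, Finsupp.sum_fintype _ _ (fun _ => by simp),
      Fintype.sum_sum_type, Fin.sum_univ_two, Fin.sum_univ_two] at h1
    simpa using h1
  have hci : weightedHomogeneousComponent Sf2_w i c ≠ 0 := by
    intro h0
    have h1 := congrArg (coeff d) h0
    rw [coeff_weightedHomogeneousComponent, if_pos hi.symm, coeff_zero] at h1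
    exact hd h1
  have hiδ : i ≤ δ := by
    have h1 := htot d hd
    rw [hi, Sf2_weight]
    omega
  have hw1 : IsWeightedHomogeneous (Sum.elim (fun _ => 1) (fun _ => 0) : Fin 2 ⊕ Fin 2 → ℕ)
      (weightedHomogeneousComponent Sf2_w i c) i :=
    weightedHomogeneousComponent_isWeightedHomogeneous i c
  have hw2 : IsWeightedHomogeneous (Sum.elim (fun _ => 0) (fun _ => 1) : Fin 2 ⊕ Fin 2 → ℕ)
      (weightedHomogeneousComponent Sf2_w i c) (δ - i) := by
    intro e he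
    rw [coeff_weightedHomogeneousComponent] at he
    have h1 : Finsupp.weight Sf2_w e = i := by
      by_contra hcon
      rw [if_neg hcon] at he
      exact he rfl
    rw [if_pos h1] at he
    have h2 := htot e he
    rw [Sf2_weight] at h1
    rw [Finsupp.weight_apply, Finsupp.sum_fintype _ _ (fun _ => by simp),
      Fintype.sum_sum_type, Fin.sum_univ_two, Fin.sum_univ_two]
    simp only [Sum.elim_inl, Sum.elim_inr, smul_eq_mul, mul_one]
    omega
  have h1 := mlt_sum y y' hy hy0 hy' hy0' i (δ - i) _ hw1 hw2 hci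
  rw [Fintype.card_fin] at h1
  have h2 : ∑ j, ∑ m, ordL (z j) (z' m) π ≤
      ∑ j, ∑ m, mlt (y j) (y' m) (weightedHomogeneousComponent Sf2_w i c) := by
    refine Finset.sum_le_sum fun j _ => Finset.sum_le_sum fun m _ => ?_
    rw [hc]
    exact Sf2_claim (y j) (y' m) (hz j) (hz' m) π i (by rw [← hc]; exact hci)
  refine h2.trans (h1.trans (le_of_eq ?_))
  rw [← Nat.mul_add, Nat.add_sub_cancel' hiδ]

theorem Sf2_coord {e0 e1 : Fin 4 → ℂ} {b : ℕ} (z : Fin b → Fin 4 → ℂ) (y : Fin b → Fin 2 → ℂ)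
    (hz : ∀ j, z j = y j 0 • e0 + y j 1 • e1)
    (hli : ∀ j j', j ≠ j' → LinearIndependent ℂ ![z j, z j']) (j j' : Fin b) (hjj : j ≠ j') :
    LinearIndependent ℂ ![y j, y j'] := by
  rw [LinearIndependent.pair_iff]
  intro s t hst
  refine (LinearIndependent.pair_iff.1 (hli j j' hjj)) s t ?_
  have h0 := congrFun hst 0
  have h1 := congrFun hst 1
  simp only [Pi.add_apply, Pi.smul_apply, smul_eq_mul, Pi.zero_apply] at h0 h1
  rw [hz j, hz j']
  have h2 : s • (y j 0 • e0 + y j 1 • e1) + t • (y j' 0 • e0 + y j' 1 • e1) =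
      (s * y j 0 + t * y j' 0) • e0 + (s * y j 1 + t * y j' 1) • e1 := by
    module
  rw [h2, h0, h1, zero_smul, zero_smul, add_zero]

theorem Sf2_rows {a b : ℕ} (hb : 2 ≤ b) (x0 : Fin a → Fin b → Fin 4 → ℂ)
    (h0 : GridVec a b x0) {δ : ℕ} {π : RR} (hπ : π.IsHomogeneous δ) (h : π ≠ 0) {k k' : Fin a}
    (hk : k ≠ k') : ∑ j, ∑ m, ordL (x0 k j) (x0 k' m) π ≤ b * δ := by
  obtain ⟨j0, hj0⟩ : ∃ j : Fin b, j = ⟨0, by omega⟩ := ⟨_, rfl⟩
  obtain ⟨j1, hj1⟩ : ∃ j : Fin b, j = ⟨1, by omega⟩ := ⟨_, rfl⟩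
  have hj : j0 ≠ j1 := by
    rw [hj0, hj1]
    intro hcon
    have := congrArg Fin.val hcon
    simp at this
  have hli := h0.ind k k' j0 j1 hk hj
  have hspan : ∀ x : Fin 4 → ℂ, ∃ L : Fin 2 ⊕ Fin 2 → ℂ,
      ∑ κ, L κ • (Sum.elim ![x0 k j0, x0 k j1] ![x0 k' j0, x0 k' j1] :
        Fin 2 ⊕ Fin 2 → Fin 4 → ℂ) κ = x := by
    intro x
    have h1 := hli.span_eq_top_of_card_eq_finrank (by simp)
    have h2 : x ∈ Submodule.span ℂ (Set.range ![x0 k j0, x0 k j1, x0 k' j0, x0 k' j1]) := by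
      rw [h1]
      exact Submodule.mem_top
    obtain ⟨g, hg⟩ := (Submodule.mem_span_range_iff_exists_fun ℂ).1 h2
    refine ⟨Sum.elim ![g 0, g 1] ![g 2, g 3], ?_⟩
    rw [← hg, Fintype.sum_sum_type, Fin.sum_univ_two, Fin.sum_univ_two, Fin.sum_univ_four]
    show g 0 • x0 k j0 + g 1 • x0 k j1 + (g 2 • x0 k' j0 + g 3 • x0 k' j1) =
      g 0 • x0 k j0 + g 1 • x0 k j1 + g 2 • x0 k' j0 + g 3 • x0 k' j1
    module
  have hcoord : ∀ (l : Fin a) (j : Fin b), ∃ y : Fin 2 → ℂ,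
      x0 l j = y 0 • x0 l j0 + y 1 • x0 l j1 := by
    intro l j
    obtain ⟨s, t, hst⟩ := Submodule.mem_span_pair.1 (h0.col l j0 j1 j hj)
    exact ⟨![s, t], hst.symm⟩
  choose y hy using fun j => hcoord k j
  choose y' hy' using fun j => hcoord k' j
  have hli1 : ∀ j j', j ≠ j' → LinearIndependent ℂ ![x0 k j, x0 k j'] := by
    intro j j' hjj
    have h1 := h0.ind k k' j j' hk hjj
    have h2 := h1.comp ![0, 1] (by decide)
    have h3 : ![x0 k j, x0 k j', x0 k' j, x0 k' j'] ∘ ![0, 1] = ![x0 k j, x0 k j'] := by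
      funext i
      fin_cases i <;> rfl
    rwa [h3] at h2
  have hli2 : ∀ j j', j ≠ j' → LinearIndependent ℂ ![x0 k' j, x0 k' j'] := by
    intro j j' hjj
    have h1 := h0.ind k k' j j' hk hjj
    have h2 := h1.comp ![2, 3] (by decide)
    have h3 : ![x0 k j, x0 k j', x0 k' j, x0 k' j'] ∘ ![2, 3] = ![x0 k' j, x0 k' j'] := by
      funext i
      fin_cases i <;> rfl
    rwa [h3] at h2
  have hc1 := Sf2_coord (fun j => x0 k j) y hy hli1
  have hc2 := Sf2_coord (fun j => x0 k' j) y' hy' hli2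
  have hne : ∀ (y : Fin b → Fin 2 → ℂ), (∀ j j', j ≠ j' → LinearIndependent ℂ ![y j, y j']) →
      ∀ j, y j ≠ 0 := by
    intro y hy j
    obtain ⟨j', hj'⟩ : ∃ j' : Fin b, j ≠ j' := by
      by_cases h1 : j = j0
      · exact ⟨j1, by rw [h1]; exact hj⟩
      · exact ⟨j0, h1⟩
    exact (hy j j' hj').ne_zero 0
  exact Sf2_pair hspan (fun j => x0 k j) (fun j => x0 k' j) y y' hy hy' hc1 (hne y hc1) hc2
    (hne y' hc2) hπ h

theorem surf_exact {a b : ℕ} (ha : 2 ≤ a) (hb : 2 ≤ b) (x0 : Fin a → Fin b → Fin 4 → ℂ)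
    (h0 : GridVec a b x0) {δ : ℕ} {π : RR} (hπ : π.IsHomogeneous δ) (h : π ≠ 0) :
    surfSum x0 π ≤ (a - 1) * (a * b) * δ := by
  classical
  unfold surfSum
  have h1 : ∑ s : Fin a × Fin b, ∑ s' : Fin a × Fin b,
      (if s.1 ≠ s'.1 ∧ s.2 ≠ s'.2 then ordL (x0 s.1 s.2) (x0 s'.1 s'.2) π else 0) ≤
      ∑ k : Fin a, ∑ k' : Fin a, if k ≠ k' then b * δ else 0 := by
    have h2 : ∑ s : Fin a × Fin b, ∑ s' : Fin a × Fin b,
        (if s.1 ≠ s'.1 ∧ s.2 ≠ s'.2 then ordL (x0 s.1 s.2) (x0 s'.1 s'.2) π else 0) ≤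
        ∑ k : Fin a, ∑ k' : Fin a, ∑ j : Fin b, ∑ m : Fin b,
          if k ≠ k' then ordL (x0 k j) (x0 k' m) π else 0 := by
      rw [Fintype.sum_prod_type]
      refine Finset.sum_le_sum fun k _ => ?_
      rw [Finset.sum_comm' (t' := Finset.univ) (s' := fun _ => Finset.univ) (by simp)]
      rw [Fintype.sum_prod_type]
      refine Finset.sum_le_sum fun k' _ => ?_
      rw [Finset.sum_comm]
      refine Finset.sum_le_sum fun j _ => Finset.sum_le_sum fun m _ => ?_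
      by_cases h3 : k ≠ k'
      · rw [if_pos h3]
        split_ifs
        · exact le_refl _
        · exact Nat.zero_le _
      · rw [if_neg (fun h4 => h3 h4.1)]
        exact Nat.zero_le _
    refine h2.trans ?_
    refine Finset.sum_le_sum fun k _ => Finset.sum_le_sum fun k' _ => ?_
    by_cases h3 : k ≠ k'
    · simp only [if_pos h3]
      exact Sf2_rows hb x0 h0 hπ h h3
    · simp [h3]
  refine h1.trans (le_of_eq ?_)
  have h4 : ∀ k : Fin a, (∑ k' : Fin a, if k ≠ k' then b * δ else 0) = (a - 1) * (b * δ) := by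
    intro k
    rw [← Finset.sum_filter, Finset.sum_const, smul_eq_mul]
    congr 1
    have h5 : Finset.univ.filter (fun k' => k ≠ k') = Finset.univ.erase k := by
      ext k'
      simp [eq_comm]
    rw [h5, Finset.card_erase_of_mem (Finset.mem_univ k), Finset.card_univ, Fintype.card_fin]
  rw [Finset.sum_congr rfl fun k _ => h4 k, Finset.sum_const, Finset.card_univ, Fintype.card_fin,
    smul_eq_mul]
  ring

end GP80

end S_H80_GP_Sf2
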