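import Mathlib
import Pool.Agent.H80.M87.G01
import Pool.Agent.H80.M87.G02
import Pool.Agent.H80.M87.G04
import Pool.Agent.H80.M87.G05
import Pool.Agent.H80.M87.G06
import Pool.Agent.H80.M87.G07

/-! MP_87ed0a_ag: this file joins several modules to save build time. -/

section S_H80_GP_Trc

/-!
# Row Trc (MP_87ed0a_GP): the trace identity 2.2  (about 220 lines)

`K = FractionRing RR`, chart `0`, `s = succAbove 0` (so `s j = j + 1`), `v_z = vz K 0 z`, `F0 = chartH K 0 F`, `G0`; `der` from `exists_der K (nonZeroDivisors RR) 0`.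
`der_i (v_z j) = - δ_ij` (as in Row Geo: multiply by `P_0`, `der_i P_0 = 0`).
1. `DD der F0` is homogeneous of degree `c + 1` and vanishes at the `v_z`: `ev_DD` with `eval v F0 = 0`.  So by `gen_K` it is in the ideal; take the component of degree `c + 1`:
   `DD der F0 = M11 F0 + M12 G0` with `M11` homogeneous of degree `1` (write the element of the ideal as `A F0 + B G0`, take components: `M11` = component of degree 1 of `A`, `M12` = component of degree `c + 1 - d` of `B`,
   or `0` if `c + 1 < d`).  Similarly `DD der G0 = M21 F0 + M22 G0`, `M22` homogeneous of degree 1.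
2. `J_K := algebraMap (J s * X 0 * C κ)`, `κ = z_0^3 / z_0^(c+d)`, is the Jacobian at `v = v_(z s)` (`j3_of_jac`), so `connection` with `p = 1`:
   `∑ v_i der_i J_K = (M11(v) + M22(v)) J_K - (c + d - 1) J_K`.
3. For `r ∈ RR` homogeneous of degree `m`: `∑_j v_j der_j (algebraMap r) = algebraMap ((P_0/z_0) dz z r - m r)`, i.e. `∑_j (z_(s j)/z_0 - P_(s j)/P_0) P_0 ∂_(s j) r = (P_0/z_0)(dz z r - z_0 ∂_0 r) - (m r - P_0 ∂_0 r)` (Euler).
   With `r = J s * P_0` (homogeneous of degree `f + f'`): `dz z (J s P_0) = P_0 dz z (J s) + z_0 J s`.  Dividing 2. by `J_K ≠ 0`: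
   `(P_0/z_0) (dz z (J s)/J s) + 1 - (f + f') = M11(v) + M22(v) - (c + d - 1)`.
4. `dz z (J s)/J s = ∑_π mm π s * dz z π / π` (from the product; `dz z` kills the constant `u s`), and `= U(z) := ∑_π m π * dz z π / π` because for `dz z π ≠ 0` the multiplicities agree.  So with `z = z s`
   `P_0 U(z) - (f + f' - c - d) z_0 = z_0 (M11(v_z) + M22(v_z))` in `K`.  (*)
5. Both sides of (*) are `K`-linear in `z ∈ K^4`: `dz z π = ∑ z_l ∂_l π`; `z_0 v_z = (z_(s j) - z_0 P_(s j)/P_0)_j`, and a linear form `M = M11 + M22` satisfies `z_0 M(v) = M(z_0 v)` (it is `∑ m_j X_j`).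
   They agree on the `z s`, which span `ℂ^4` hence `K^4`; so they agree for `z = P`: left side `P_0 ∑_π m π * dl π - (f + f' - c - d) P_0` (Euler: `∑ P_l ∂_l π = dl π * π`), right side `M(0) = 0`.
   So `∑ dl π * m π = f + f' - c - d` in `K`, of characteristic zero: as naturals `∑ dl π * m π + c + d = f + f'`.
-/

namespace GP80

open MvPolynomial

theorem Trc_comp {K : Type} [CommRing K] (A P : MvPolynomial (Fin 3) K) (c m : ℕ)
    (hP : P.IsHomogeneous c) :
    ∃ A' : MvPolynomial (Fin 3) K, (∀ n, n + c = m → A'.IsHomogeneous n) ∧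
      homogeneousComponent m (A * P) = A' * P := by
  classical
  refine ⟨∑ i ∈ Finset.range (A.totalDegree + 1),
    (if i + c = m then homogeneousComponent i A else 0), fun n hn => ?_, ?_⟩
  · refine IsHomogeneous.sum _ _ _ fun i _ => ?_
    split_ifs with h
    · have h1 : i = n := by omega
      subst h1
      exact homogeneousComponent_isHomogeneous i A
    · exact isHomogeneous_zero _ _ _
  · conv_lhs => rw [← sum_homogeneousComponent A]
    rw [Finset.sum_mul, map_sum, Finset.sum_mul]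
    refine Finset.sum_congr rfl fun i _ => ?_
    have h1 : (homogeneousComponent i A * P).IsHomogeneous (i + c) :=
      (homogeneousComponent_isHomogeneous i A).mul hP
    rw [homogeneousComponent_of_mem h1]
    by_cases h : i + c = m
    · rw [if_pos h.symm, if_pos h]
    · rw [if_neg (Ne.symm h), if_neg h, zero_mul]

theorem Trc_lin {K : Type} [CommRing K] {M : MvPolynomial (Fin 3) K} (hM : M.IsHomogeneous 1) :
    ∃ μ : Fin 3 → K, ∀ v : Fin 3 → K, eval v M = ∑ j, v j * μ j := by
  refine ⟨fun j => coeff 0 (pderiv j M), fun v => ?_⟩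
  have h1 := euler3 hM v
  rw [Nat.cast_one, one_mul] at h1
  rw [← h1]
  refine Finset.sum_congr rfl fun j _ => ?_
  have h2 : pderiv j M = C (coeff 0 (pderiv j M)) := by
    rw [← totalDegree_eq_zero_iff_eq_C]
    exact (totalDegree_zero_iff_isHomogeneous _).2 hM.pderiv
  have h3 : eval v (pderiv j M) = coeff 0 (pderiv j M) := by
    conv_lhs => rw [h2, eval_C]
  rw [h3]

theorem Trc_dz (z : Fin 4 → ℂ) (r : RR) : dz z r = ∑ l, C (z l) * pderiv l r := by
  induction r using MvPolynomial.induction_on with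
  | C a =>
    have h1 : dz z (C a) = 0 := (dz z).map_algebraMap a
    rw [h1]
    simp
  | add p q hp hq =>
    rw [map_add, hp, hq, ← Finset.sum_add_distrib]
    refine Finset.sum_congr rfl fun l _ => ?_
    rw [map_add, mul_add]
  | mul_X p j hp =>
    rw [Derivation.leibniz, hp, smul_eq_mul, smul_eq_mul, dz, mkDerivation_X]
    have h1 : ∀ l, C (z l) * pderiv l (p * X j) =
        X j * (C (z l) * pderiv l p) + (if l = j then p * C (z l) else 0) := by
      intro l
      rw [pderiv_mul]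
      split_ifs with h
      · subst h
        rw [pderiv_X_self]
        ring
      · rw [pderiv_X_of_ne (Ne.symm h)]
        ring
    rw [Finset.sum_congr rfl fun l _ => h1 l, Finset.sum_add_distrib, ← Finset.mul_sum,
      Finset.sum_ite_eq' Finset.univ j, if_pos (Finset.mem_univ _)]
    ring

theorem Trc_p0 {K : Type} [Field K] [Algebra RR K] (hinj : Function.Injective (algebraMap RR K)) :
    algebraMap RR K (X 0) ≠ 0 := by
  intro h
  rw [_root_.map_eq_zero_iff _ hinj] at h
  exact X_ne_zero 0 h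

theorem Trc_hv {K : Type} [Field K] [Algebra RR K] (hinj : Function.Injective (algebraMap RR K))
    {der : Fin 3 → Derivation ℤ K K} (hder : IsDer K 0 der) (z : Fin 4 → ℂ) (i j : Fin 3) :
    der i (vz K 0 z j) = if i = j then -1 else 0 := by
  have hp0 := Trc_p0 hinj
  unfold vz
  rw [map_sub, hder i (C _), Ring.inverse_eq_inv, pderiv_C, mul_zero, map_zero, zero_sub]
  have h0 : der i (algebraMap RR K (X 0)) = 0 := by
    rw [hder i (X 0), pderiv_X_of_ne (Fin.succAbove_ne 0 i).symm, mul_zero, map_zero]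
  have h1 : der i (algebraMap RR K (X ((0 : Fin 4).succAbove j))) =
      if i = j then algebraMap RR K (X 0) else 0 := by
    rw [hder i (X _)]
    split_ifs with h
    · subst h
      rw [pderiv_X_self, mul_one]
    · rw [pderiv_X_of_ne (fun h2 => h (Fin.succAbove_right_injective h2).symm), mul_zero, map_zero]
  have h2 : der i (algebraMap RR K (X ((0 : Fin 4).succAbove j)) * (algebraMap RR K (X 0))⁻¹ *
      algebraMap RR K (X 0)) = der i (algebraMap RR K (X ((0 : Fin 4).succAbove j))) := by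
    rw [inv_mul_cancel_right₀ hp0]
  rw [Derivation.leibniz, h0, smul_zero, zero_add, smul_eq_mul, h1] at h2
  split_ifs at h2 ⊢ with h
  · have h3 : der i (algebraMap RR K (X ((0 : Fin 4).succAbove j)) *
        (algebraMap RR K (X 0))⁻¹) = 1 := by
      refine mul_left_cancel₀ hp0 ?_
      rw [h2, mul_one]
    rw [h3]
  · rcases mul_eq_zero.1 h2 with h3 | h3
    · exact absurd h3 hp0
    · rw [h3, neg_zero]

theorem Trc_iota {K : Type} [Field K] [Algebra RR K] {a : ℂ} (ha : a ≠ 0) :
    algebraMap RR K (C a⁻¹) * algebraMap RR K (C a) = 1 := by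
  rw [← map_mul, ← C_mul, inv_mul_cancel₀ ha, C_1, map_one]

theorem Trc_vz {K : Type} [Field K] [Algebra RR K] (z : Fin 4 → ℂ) (j : Fin 3) :
    vz K 0 z j = algebraMap RR K (C (z j.succ)) * algebraMap RR K (C (z 0)⁻¹) -
      algebraMap RR K (X j.succ) * (algebraMap RR K (X 0))⁻¹ := by
  unfold vz
  rw [Ring.inverse_eq_inv, Fin.zero_succAbove, div_eq_mul_inv, C_mul, map_mul]

theorem Trc_vd {K : Type} [Field K] [Algebra RR K] (hinj : Function.Injective (algebraMap RR K))
    {der : Fin 3 → Derivation ℤ K K} (hder : IsDer K 0 der) {z : Fin 4 → ℂ} (hz : z 0 ≠ 0)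
    {r : RR} {m : ℕ} (hr : r.IsHomogeneous m) :
    ∑ j, vz K 0 z j * der j (algebraMap RR K r) =
      algebraMap RR K (C (z 0)⁻¹) * algebraMap RR K (X 0) * algebraMap RR K (dz z r) -
        (m : K) * algebraMap RR K r := by
  have hp0 := Trc_p0 hinj
  have hE := congrArg (algebraMap RR K) hr.sum_X_mul_pderiv
  rw [map_sum, Fin.sum_univ_succ, nsmul_eq_mul] at hE
  have hD := congrArg (algebraMap RR K) (Trc_dz z r)
  rw [map_sum, Fin.sum_univ_succ] at hD
  simp only [map_mul, map_natCast] at hE hD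
  have hi := Trc_iota (K := K) hz
  have h1 : ∀ j : Fin 3, vz K 0 z j * der j (algebraMap RR K r) =
      algebraMap RR K (C (z 0)⁻¹) * algebraMap RR K (X 0) *
        (algebraMap RR K (C (z j.succ)) * algebraMap RR K (pderiv j.succ r)) -
      algebraMap RR K (X j.succ) * algebraMap RR K (pderiv j.succ r) := by
    intro j
    rw [Trc_vz, hder j r, Fin.zero_succAbove, map_mul]
    field_simp
  rw [Finset.sum_congr rfl fun j _ => h1 j, Finset.sum_sub_distrib, ← Finset.mul_sum, hD]
  linear_combination (-algebraMap RR K (X 0) * algebraMap RR K (pderiv 0 r)) * hi - hE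

theorem Trc_log {K : Type} [Field K] [Algebra RR K] (hinj : Function.Injective (algebraMap RR K))
    (D : Derivation ℂ RR RR) (T : Finset RR) (hT0 : ∀ π ∈ T, π ≠ 0) (k : RR → ℕ) :
    algebraMap RR K (D (∏ π ∈ T, π ^ k π)) = algebraMap RR K (∏ π ∈ T, π ^ k π) *
      ∑ π ∈ T, (k π : K) * (algebraMap RR K (D π) / algebraMap RR K π) := by
  classical
  induction T using Finset.induction_on with
  | empty => simp
  | insert a T ha ih =>
    have ha0 : algebraMap RR K a ≠ 0 := by
      intro h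
      rw [_root_.map_eq_zero_iff _ hinj] at h
      exact hT0 a (Finset.mem_insert_self a T) h
    have h1 : algebraMap RR K (D (a ^ k a)) =
        algebraMap RR K (a ^ k a) * ((k a : K) * (algebraMap RR K (D a) / algebraMap RR K a)) := by
      rw [Derivation.leibniz_pow, nsmul_eq_mul, smul_eq_mul, map_mul, map_natCast, map_mul, map_pow,
        map_pow]
      rcases Nat.eq_zero_or_pos (k a) with h2 | h2
      · rw [h2]
        simp
      · obtain ⟨n, hn⟩ : ∃ n, k a = n + 1 := ⟨k a - 1, by omega⟩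
        rw [hn, Nat.add_sub_cancel, pow_succ]
        field_simp
    rw [Finset.prod_insert ha, Finset.sum_insert ha, Derivation.leibniz, smul_eq_mul, smul_eq_mul,
      map_add, map_mul, map_mul, map_mul, ih (fun π hπ => hT0 π (Finset.mem_insert_of_mem hπ)), h1]
    ring

/-- algebra of step 2 and 3 -/
theorem Trc_alg {K : Type} [Field K] {p ζ ι κ J dJ MV S N : K} (hp : p ≠ 0) (hκ : κ ≠ 0)
    (hι : ι * ζ = 1) (hJ : J ≠ 0) {U : K} (hU : dJ = J * U)
    (h : ι * p * (κ * (p * dJ + J * ζ)) - S * (J * p * κ) =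
      MV * (J * p * κ) - 1 * (N - 1) * (J * p * κ)) :
    p * U = ζ * (MV + (S - N)) := by
  subst hU
  have h1 : (ι * p * U + ι * ζ - S) * (J * p * κ) = (MV - (N - 1)) * (J * p * κ) := by
    linear_combination h
  have h2 := mul_right_cancel₀ (mul_ne_zero (mul_ne_zero hJ hp) hκ) h1
  rw [hι] at h2
  have h3 : ζ * (ι * p * U) = ζ * (MV + (S - N)) := by
    rw [show ι * p * U = MV + (S - N) by linear_combination h2]
  have h4 : ζ * (ι * p * U) = p * U := by
    linear_combination (p * U) * hι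
  rw [← h4, h3]

theorem Trc_pos {F G : BB} {f f' : ℕ} (hF : IsWeightedHomogeneous wP F f)
    (hG : IsWeightedHomogeneous wP G f') {z : Fin 4 → ℂ} (hz : ∀ l, z l ≠ 0) {J : RR}
    (hJ : IsJac 0 F G z J) (hJ0 : J ≠ 0) (hJh : J.IsHomogeneous (f + f' - 1)) : 1 ≤ f + f' := by
  by_contra hcon
  have hff : f + f' = 0 := by omega
  have h0 := congrFun hJ 0
  rw [cross_apply] at h0
  have h1 : (J * (X 0 * C (z ((0 : Fin 4).succAbove 0)) -
      C (z 0) * X ((0 : Fin 4).succAbove 0))).IsHomogeneous (f + f') := by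
    have h2 : J * (X 0 * C (z ((0 : Fin 4).succAbove 0)) - C (z 0) * X ((0 : Fin 4).succAbove 0)) =
        atz z (pderiv (Sum.inr ((0 : Fin 4).succAbove 1)) F) *
          atz z (pderiv (Sum.inr ((0 : Fin 4).succAbove 2)) G) -
        atz z (pderiv (Sum.inr ((0 : Fin 4).succAbove 2)) F) *
          atz z (pderiv (Sum.inr ((0 : Fin 4).succAbove 1)) G) := by
      rw [← h0]
      rfl
    rw [h2]
    exact ((atz_wP (pderiv_wP hF _) z).mul (atz_wP (pderiv_wP hG _) z)).sub
      ((atz_wP (pderiv_wP hF _) z).mul (atz_wP (pderiv_wP hG _) z))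
  have hq : (X 0 * C (z ((0 : Fin 4).succAbove 0)) -
      C (z 0) * X ((0 : Fin 4).succAbove 0) : RR).IsHomogeneous 1 := by
    have e1 : (X 0 * C (z ((0 : Fin 4).succAbove 0)) : RR).IsHomogeneous (1 + 0) :=
      (isHomogeneous_X ℂ _).mul (isHomogeneous_C _ _)
    have e2 : (C (z 0) * X ((0 : Fin 4).succAbove 0) : RR).IsHomogeneous (0 + 1) :=
      (isHomogeneous_C _ _).mul (isHomogeneous_X ℂ _)
    exact e1.sub e2
  have hq0 : (X 0 * C (z ((0 : Fin 4).succAbove 0)) -
      C (z 0) * X ((0 : Fin 4).succAbove 0) : RR) ≠ 0 := by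
    intro hq1
    have h3 := congrArg (eval (fun l : Fin 4 => if l = 0 then (1 : ℂ) else 0)) hq1
    rw [map_sub, map_mul, map_mul, eval_X, eval_C, eval_C, eval_X, map_zero,
      if_pos rfl, if_neg (Fin.succAbove_ne 0 0), mul_zero, sub_zero, one_mul] at h3
    exact hz _ h3
  have h4 : (J * (X 0 * C (z ((0 : Fin 4).succAbove 0)) -
      C (z 0) * X ((0 : Fin 4).succAbove 0))).IsHomogeneous (f + f' - 1 + 1) := hJh.mul hq
  have h5 := h1.inj_right h4 (mul_ne_zero hJ0 hq0)
  omega

/-- step 5: linearity -/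
theorem Trc_linear {I K : Type} [Field K] [Algebra RR K] (z : I → Fin 4 → ℂ)
    (hspan : Submodule.span ℂ (Set.range z) = ⊤) (Φ : (Fin 4 → K) →ₗ[K] K)
    (h0 : ∀ s, Φ (fun l => algebraMap RR K (C (z s l))) = 0) (y : Fin 4 → K) : Φ y = 0 := by
  have key : ∀ x : Fin 4 → ℂ, Φ (fun l => algebraMap RR K (C (x l))) = 0 := by
    intro x
    have hx : x ∈ Submodule.span ℂ (Set.range z) := by
      rw [hspan]
      exact Submodule.mem_top
    induction hx using Submodule.span_induction with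
    | mem x hx =>
      obtain ⟨s, rfl⟩ := hx
      exact h0 s
    | zero =>
      have h1 : (fun l : Fin 4 => algebraMap RR K (C ((0 : Fin 4 → ℂ) l))) = 0 := by
        funext l
        rw [Pi.zero_apply, Pi.zero_apply, C_0, map_zero]
      rw [h1, map_zero]
    | add x y _ _ hx hy =>
      have h1 : (fun l : Fin 4 => algebraMap RR K (C ((x + y) l))) =
          (fun l => algebraMap RR K (C (x l))) + fun l => algebraMap RR K (C (y l)) := by
        funext l
        rw [Pi.add_apply, Pi.add_apply, C_add, map_add]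
      rw [h1, map_add, hx, hy, add_zero]
    | smul a x _ hx =>
      have h1 : (fun l : Fin 4 => algebraMap RR K (C ((a • x) l))) =
          algebraMap RR K (C a) • fun l => algebraMap RR K (C (x l)) := by
        funext l
        rw [Pi.smul_apply, Pi.smul_apply, smul_eq_mul, smul_eq_mul, C_mul, map_mul]
      rw [h1, map_smul, hx, smul_zero]
  rw [LinearMap.pi_apply_eq_sum_univ Φ y]
  refine Finset.sum_eq_zero fun i _ => ?_
  have h1 : (fun j : Fin 4 => if i = j then (1 : K) else 0) =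
      fun l => algebraMap RR K (C ((fun j : Fin 4 => if i = j then (1 : ℂ) else 0) l)) := by
    funext l
    beta_reduce
    split_ifs
    · rw [C_1, map_one]
    · rw [C_0, map_zero]
  rw [h1, key, smul_zero]

/-- the linear functional of step 5 -/
noncomputable def Trc_phi {K : Type} [Field K] [Algebra RR K] (T : Finset RR) (m : RR → ℕ)
    (Q : K) (μ : Fin 3 → K) : (Fin 4 → K) →ₗ[K] K where
  toFun y := algebraMap RR K (X 0) * (∑ π ∈ T, (m π : K) *
      ((∑ l, y l * algebraMap RR K (pderiv l π)) / algebraMap RR K π)) - Q * y 0 -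
    ∑ j : Fin 3, (y j.succ - y 0 * (algebraMap RR K (X j.succ) * (algebraMap RR K (X 0))⁻¹)) * μ j
  map_add' x y := by
    have h1 : (∑ π ∈ T, (m π : K) *
        ((∑ l, (x + y) l * algebraMap RR K (pderiv l π)) / algebraMap RR K π)) =
        (∑ π ∈ T, (m π : K) *
        ((∑ l, x l * algebraMap RR K (pderiv l π)) / algebraMap RR K π)) +
        ∑ π ∈ T, (m π : K) *
        ((∑ l, y l * algebraMap RR K (pderiv l π)) / algebraMap RR K π) := by
      rw [← Finset.sum_add_distrib]
      refine Finset.sum_congr rfl fun π _ => ?_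
      rw [← mul_add, ← add_div, ← Finset.sum_add_distrib]
      simp only [Pi.add_apply, add_mul]
    have h2 : (∑ j : Fin 3, ((x + y) j.succ - (x + y) 0 *
        (algebraMap RR K (X j.succ) * (algebraMap RR K (X 0))⁻¹)) * μ j) =
        (∑ j : Fin 3, (x j.succ - x 0 *
        (algebraMap RR K (X j.succ) * (algebraMap RR K (X 0))⁻¹)) * μ j) +
        ∑ j : Fin 3, (y j.succ - y 0 *
        (algebraMap RR K (X j.succ) * (algebraMap RR K (X 0))⁻¹)) * μ j := by
      rw [← Finset.sum_add_distrib]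
      refine Finset.sum_congr rfl fun j _ => ?_
      rw [Pi.add_apply, Pi.add_apply]
      ring
    rw [h1, h2, Pi.add_apply]
    ring
  map_smul' a x := by
    have h1 : (∑ π ∈ T, (m π : K) *
        ((∑ l, (a • x) l * algebraMap RR K (pderiv l π)) / algebraMap RR K π)) =
        a * ∑ π ∈ T, (m π : K) *
        ((∑ l, x l * algebraMap RR K (pderiv l π)) / algebraMap RR K π) := by
      rw [Finset.mul_sum]
      refine Finset.sum_congr rfl fun π _ => ?_
      simp only [Pi.smul_apply, smul_eq_mul, mul_assoc]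
      rw [← Finset.mul_sum, mul_div_assoc]
      ring
    have h2 : (∑ j : Fin 3, ((a • x) j.succ - (a • x) 0 *
        (algebraMap RR K (X j.succ) * (algebraMap RR K (X 0))⁻¹)) * μ j) =
        a * ∑ j : Fin 3, (x j.succ - x 0 *
        (algebraMap RR K (X j.succ) * (algebraMap RR K (X 0))⁻¹)) * μ j := by
      rw [Finset.mul_sum]
      refine Finset.sum_congr rfl fun j _ => ?_
      rw [Pi.smul_apply, Pi.smul_apply, smul_eq_mul, smul_eq_mul]
      ring
    rw [h1, h2, Pi.smul_apply, smul_eq_mul, smul_eq_mul, RingHom.id_apply]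
    ring

theorem Trc_phi_apply {K : Type} [Field K] [Algebra RR K] (T : Finset RR) (m : RR → ℕ)
    (Q : K) (μ : Fin 3 → K) (y : Fin 4 → K) :
    Trc_phi T m Q μ y = algebraMap RR K (X 0) * (∑ π ∈ T, (m π : K) *
      ((∑ l, y l * algebraMap RR K (pderiv l π)) / algebraMap RR K π)) - Q * y 0 -
    ∑ j : Fin 3, (y j.succ - y 0 * (algebraMap RR K (X j.succ) * (algebraMap RR K (X 0))⁻¹)) * μ j :=
  rfl

/-- step 1 -/
theorem Trc_DD {K I : Type} [Field K] [Algebra RR K] {der : Fin 3 → Derivation ℤ K K}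
    (v : I → Fin 3 → K) (hv : ∀ s i j, der i (v s j) = if i = j then -1 else 0)
    {F G H : MvPolynomial (Fin 3) K} {c d e : ℕ} (hF : F.IsHomogeneous c) (hG : G.IsHomogeneous d)
    (hH : H.IsHomogeneous e) (vH : ∀ s, eval (v s) H = 0)
    (hgen : ∀ t (g : MvPolynomial (Fin 3) K), g.IsHomogeneous t → (∀ s, eval (v s) g = 0) →
      g ∈ Ideal.span {F, G}) :
    ∃ M N : MvPolynomial (Fin 3) K, C 1 * DD der H = M * F + N * G ∧
      (c = e → M.IsHomogeneous 1) ∧ (d = e → N.IsHomogeneous 1) := by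
  have h1 : ∀ s, eval (v s) (DD der H) = 0 := by
    intro s
    have h2 := ev_DD der (v s) (hv s) hH
    rw [vH s, mul_zero, sub_zero] at h2
    rw [← h2]
    refine Finset.sum_eq_zero fun i _ => ?_
    rw [map_zero, mul_zero]
  have hDh := DD_homog der hH
  obtain ⟨A, B, hAB⟩ := Ideal.mem_span_pair.1 (hgen (e + 1) (DD der H) hDh h1)
  obtain ⟨A', hA1, hA2⟩ := Trc_comp A F c (e + 1) hF
  obtain ⟨B', hB1, hB2⟩ := Trc_comp B G d (e + 1) hG
  refine ⟨A', B', ?_, fun h => hA1 1 (by omega), fun h => hB1 1 (by omega)⟩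
  rw [C_1, one_mul, ← hA2, ← hB2, ← map_add, hAB, homogeneousComponent_of_mem hDh, if_pos rfl]

theorem Trc_core {I : Type} [Fintype I] (K : Type) [Field K] [Algebra RR K]
    (hinj : Function.Injective (algebraMap RR K)) (der : Fin 3 → Derivation ℤ K K)
    (hder : IsDer K 0 der) (z : I → Fin 4 → ℂ) (hz : Geom z)
    {c d f f' : ℕ} {F G : BB} (h : Glob z c d f f' F G)
    (hgen : ∀ t (g : MvPolynomial (Fin 3) K), g.IsHomogeneous t →
      (∀ s, eval (vz K 0 (z s)) g = 0) → g ∈ Ideal.span {chartH K 0 F, chartH K 0 G})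
    (J : I → RR)
    (hJ : ∀ s, IsJac 0 F G (z s) (J s)) (hJ0 : ∀ s, J s ≠ 0)
    (hJh : ∀ s, (J s).IsHomogeneous (f + f' - 1)) (T : Finset RR) (dl : RR → ℕ)
    (hdl : ∀ π ∈ T, π.IsHomogeneous (dl π)) (hT0 : ∀ π ∈ T, π ≠ 0) (u : I → ℂ)
    (m : RR → ℕ) (mm : RR → I → ℕ) (hprod : ∀ s, J s = C (u s) * ∏ π ∈ T, π ^ mm π s)
    (hm : ∀ π ∈ T, ∀ s, dz (z s) π ≠ 0 → mm π s = m π) :
    ∑ π ∈ T, dl π * m π + c + d = f + f' := by
  have hp0 := Trc_p0 hinj
  have hu : IsUnit (algebraMap RR K (X 0)) := hp0.isUnit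
  have hv : ∀ s i j, der i (vz K 0 (z s) j) = if i = j then -1 else 0 := fun s =>
    Trc_hv hinj hder (z s)
  have hF := chart_homog K 0 h.Fx
  have hG := chart_homog K 0 h.Gx
  have vF : ∀ s, eval (vz K 0 (z s)) (chartH K 0 F) = 0 := fun s =>
    vz_eval_zero K 0 hu h.Fx h.FE (hz.co s 0) (h.Fz s)
  have vG : ∀ s, eval (vz K 0 (z s)) (chartH K 0 G) = 0 := fun s =>
    vz_eval_zero K 0 hu h.Gx h.GE (hz.co s 0) (h.Gz s)
  obtain ⟨M11, M12, e1, g1, -⟩ := Trc_DD (fun s => vz K 0 (z s)) hv hF hG hF vF hgen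
  obtain ⟨M21, M22, e2, -, g2⟩ := Trc_DD (fun s => vz K 0 (z s)) hv hF hG hG vG hgen
  obtain ⟨μ, hμ⟩ := Trc_lin ((g1 rfl).add (g2 rfl))
  have hne : Nonempty I := by
    rw [← Fintype.card_pos_iff, h.N]
    have h1 := h.c2
    have h2 := h.cd
    exact Nat.mul_pos (by omega) (by omega)
  obtain ⟨s0⟩ := hne
  have hpos : 1 ≤ f + f' := Trc_pos h.FP h.GP (hz.co s0) (hJ s0) (hJ0 s0) (hJh s0)
  have hK : CharZero K := charZero_of_injective_algebraMap hinj
  set Q : K := ((f + f' : ℕ) : K) - ((c : K) + (d : K)) with hQ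
  have hΦ : ∀ s, Trc_phi T m Q μ (fun l => algebraMap RR K (C (z s l))) = 0 := by
    intro s
    have hzs := hz.co s
    have hκ : z s 0 ^ 3 / z s 0 ^ (c + d) ≠ 0 :=
      div_ne_zero (pow_ne_zero _ (hzs 0)) (pow_ne_zero _ (hzs 0))
    have hJ3 := j3_of_jac K 0 hu (by have := h.c2; omega) (by have := h.c2; have := h.cd; omega)
      h.Fx h.Gx h.FE h.GE hzs (hJ s)
    have hcon := connection der (hv s) ⟨0, fun h0 => by
      have h1 := hv s 0 0
      rw [h0, map_zero, if_pos rfl] at h1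
      exact one_ne_zero (neg_eq_zero.1 h1.symm)⟩ hF hG (vF s) (vG s) e1 e2 hJ3
    have hr : (J s * X 0 * C (z s 0 ^ 3 / z s 0 ^ (c + d)) : RR).IsHomogeneous (f + f') := by
      have h1 := ((hJh s).mul (isHomogeneous_X ℂ (0 : Fin 4))).mul
        (isHomogeneous_C (Fin 4) (z s 0 ^ 3 / z s 0 ^ (c + d)))
      have h2 : f + f' - 1 + 1 + 0 = f + f' := by omega
      rwa [h2] at h1
    rw [Trc_vd hinj hder (hzs 0) hr, one_mul] at hcon
    have hdz : dz (z s) (J s * X 0 * C (z s 0 ^ 3 / z s 0 ^ (c + d))) =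
        C (z s 0 ^ 3 / z s 0 ^ (c + d)) * (X 0 * dz (z s) (J s) + J s * C (z s 0)) := by
      have h1 : dz (z s) (C (z s 0 ^ 3 / z s 0 ^ (c + d))) = 0 := (dz (z s)).map_algebraMap _
      have h2 : dz (z s) (X 0) = C (z s 0) := by
        rw [dz, mkDerivation_X]
      rw [Derivation.leibniz, Derivation.leibniz, h1, h2, smul_zero, zero_add, smul_eq_mul,
        smul_eq_mul, smul_eq_mul]
      ring
    have hU : algebraMap RR K (dz (z s) (J s)) = algebraMap RR K (J s) *
        ∑ π ∈ T, (m π : K) * (algebraMap RR K (dz (z s) π) / algebraMap RR K π) := by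
      have h1 : dz (z s) (J s) = C (u s) * dz (z s) (∏ π ∈ T, π ^ mm π s) := by
        rw [hprod s, Derivation.leibniz]
        have h2 : dz (z s) (C (u s)) = 0 := (dz (z s)).map_algebraMap _
        rw [h2, smul_zero, add_zero, smul_eq_mul]
      rw [h1, map_mul, Trc_log hinj (dz (z s)) T hT0 (fun π => mm π s), hprod s, map_mul, mul_assoc]
      refine congrArg _ (congrArg _ (Finset.sum_congr rfl fun π hπ => ?_))
      by_cases h3 : dz (z s) π = 0
      · rw [h3, map_zero, zero_div, mul_zero, mul_zero]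
      · rw [hm π hπ s h3]
    have hJK : algebraMap RR K (J s) ≠ 0 := by
      intro h1
      rw [_root_.map_eq_zero_iff _ hinj] at h1
      exact hJ0 s h1
    have hκK : algebraMap RR K (C (z s 0 ^ 3 / z s 0 ^ (c + d))) ≠ 0 := by
      intro h1
      rw [_root_.map_eq_zero_iff _ hinj, C_eq_zero] at h1
      exact hκ h1
    have hstar := Trc_alg (p := algebraMap RR K (X 0)) (ζ := algebraMap RR K (C (z s 0)))
      (ι := algebraMap RR K (C (z s 0)⁻¹)) (κ := algebraMap RR K (C (z s 0 ^ 3 / z s 0 ^ (c + d))))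
      (J := algebraMap RR K (J s)) (dJ := algebraMap RR K (dz (z s) (J s)))
      (MV := eval (vz K 0 (z s)) M11 + eval (vz K 0 (z s)) M22) (S := ((f + f' : ℕ) : K))
      (N := (c : K) + (d : K)) hp0 hκK (Trc_iota (hzs 0)) hJK hU (by
        rw [hdz] at hcon
        simp only [map_mul, map_add] at hcon
        exact hcon)
    rw [Trc_phi_apply]
    have hU2 : ∀ π ∈ T, (m π : K) * ((∑ l, algebraMap RR K (C (z s l)) *
        algebraMap RR K (pderiv l π)) / algebraMap RR K π) =
        (m π : K) * (algebraMap RR K (dz (z s) π) / algebraMap RR K π) := by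
      intro π _
      rw [Trc_dz, map_sum]
      simp only [map_mul]
    rw [Finset.sum_congr rfl hU2, hstar]
    have hmu : eval (vz K 0 (z s)) M11 + eval (vz K 0 (z s)) M22 =
        ∑ j, vz K 0 (z s) j * μ j := by
      rw [← hμ, map_add]
    have hi := Trc_iota (K := K) (hzs 0)
    have hw : ∀ j : Fin 3, (algebraMap RR K (C (z s j.succ)) - algebraMap RR K (C (z s 0)) *
        (algebraMap RR K (X j.succ) * (algebraMap RR K (X 0))⁻¹)) * μ j =
        algebraMap RR K (C (z s 0)) * (vz K 0 (z s) j * μ j) := by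
      intro j
      rw [Trc_vz]
      linear_combination (-algebraMap RR K (C (z s j.succ)) * μ j) * hi
    rw [hmu, Finset.sum_congr rfl fun j _ => hw j, ← Finset.mul_sum]
    ring
  have hfin := Trc_linear z hz.span (Trc_phi T m Q μ) hΦ (fun l => algebraMap RR K (X l))
  rw [Trc_phi_apply] at hfin
  have hE : ∀ π ∈ T, (m π : K) * ((∑ l, algebraMap RR K (X l) * algebraMap RR K (pderiv l π)) /
      algebraMap RR K π) = (dl π : K) * (m π : K) := by
    intro π hπ
    have hπ0 : algebraMap RR K π ≠ 0 := by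
      intro h1
      rw [_root_.map_eq_zero_iff _ hinj] at h1
      exact hT0 π hπ h1
    have h1 := congrArg (algebraMap RR K) (hdl π hπ).sum_X_mul_pderiv
    rw [map_sum, nsmul_eq_mul] at h1
    simp only [map_mul, map_natCast] at h1
    rw [h1, mul_div_assoc, div_self hπ0, mul_one, mul_comm]
  have hw : ∀ j : Fin 3, (algebraMap RR K (X j.succ) - algebraMap RR K (X 0) *
      (algebraMap RR K (X j.succ) * (algebraMap RR K (X 0))⁻¹)) * μ j = 0 := by
    intro j
    have h1 : algebraMap RR K (X 0) * (algebraMap RR K (X j.succ) * (algebraMap RR K (X 0))⁻¹) =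
        algebraMap RR K (X j.succ) := by
      field_simp
    rw [h1, sub_self, zero_mul]
  rw [Finset.sum_congr rfl hE, Finset.sum_congr rfl fun j _ => hw j, Finset.sum_const_zero,
    sub_zero] at hfin
  have h1 : algebraMap RR K (X 0) * (∑ π ∈ T, (dl π : K) * (m π : K) - Q) = 0 := by
    linear_combination hfin
  have h2 : ∑ π ∈ T, (dl π : K) * (m π : K) - Q = 0 := by
    rcases mul_eq_zero.1 h1 with h3 | h3
    · exact absurd h3 hp0
    · exact h3
  have h3 : ((∑ π ∈ T, dl π * m π + c + d : ℕ) : K) = ((f + f' : ℕ) : K) := by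
    rw [hQ] at h2
    push_cast at h2 ⊢
    linear_combination h2
  exact_mod_cast h3

theorem trace_id {I : Type} [Fintype I] (z : I → Fin 4 → ℂ) (hz : Geom z)
    {c d f f' : ℕ} {F G : BB} (h : Glob z c d f f' F G) (J : I → RR)
    (hJ : ∀ s, IsJac 0 F G (z s) (J s)) (hJ0 : ∀ s, J s ≠ 0)
    (hJh : ∀ s, (J s).IsHomogeneous (f + f' - 1)) (T : Finset RR) (dl : RR → ℕ)
    (hdl : ∀ π ∈ T, π.IsHomogeneous (dl π)) (hT0 : ∀ π ∈ T, π ≠ 0) (u : I → ℂ) (hu : ∀ s, u s ≠ 0)
    (m : RR → ℕ) (mm : RR → I → ℕ) (hprod : ∀ s, J s = C (u s) * ∏ π ∈ T, π ^ mm π s)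
    (hm : ∀ π ∈ T, ∀ s, dz (z s) π ≠ 0 → mm π s = m π) :
    ∑ π ∈ T, dl π * m π + c + d = f + f' := by
  have _ := hu
  obtain ⟨der, hder⟩ := exists_der (FractionRing RR) (nonZeroDivisors RR) 0
  exact Trc_core (FractionRing RR) (IsFractionRing.injective RR (FractionRing RR)) der hder z hz h
    (fun t g hg h0 => gen_K 0 z (fun s => hz.co s 0) h hg h0) J hJ hJ0 hJh T dl hdl hT0 u m mm
    hprod hm

end GP80

end S_H80_GP_Trc

section S_H80_GP_Cch

/-!
# Row Cch (MP_87ed0a_GP): change of chart for the big determinant  (about 220 lines)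

Work over `K = FractionRing RR`.  Chart 0 has variables `X_0, X_1, X_2` = restrictions of `x_1, x_2, x_3`; chart 1 has variables `X_0, X_1, X_2` = restrictions of `x_0, x_2, x_3`.
For an `E`-invariant `x`-homogeneous `H`: `H0 := chartH K 0 H`, `H1 := chartH K 1 H`.  Then `H0 = H1(A X)` with the substitution
`A : X_0 ↦ - (P_0/P_1) X_0, X_1 ↦ X_1 - (P_2/P_1) X_0, X_2 ↦ X_2 - (P_3/P_1) X_0`:  indeed the point `(0, x_1, x_2, x_3)` of chart 0 and `(- (P_0/P_1) x_1, 0, x_2 - (P_2/P_1) x_1, x_3 - (P_3/P_1) x_1)` differ by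
`(x_1/P_1) P`, use `einv` (S = polynomial ring over `K`, `p = P`, `μ = - x_1/P_1`).
Let `t = c + d - 2` and for every degree `l` let `S_l` be the matrix (index set `Mon l`) of the substitution `A` on forms of degree `l`: `m(A X) = ∑_m' S_l(m, m') m'`.
* `det S_l = (-(P_0/P_1))^(binom(l+2, 3))`: `S_l(m, m') ≠ 0` only if `m' 0 ≥ m 0`, and if `m' 0 = m 0` then only for `m' = m`, with value `(-(P_0/P_1))^(m 0)` (expand `(X_1 + a X_0)^(m 1) (X_2 + b X_0)^(m 2)`); so `S_l` is triangular
  for any linear order refining the order by `m 0` (`Matrix.det_of_upperTriangular`/`BlockTriangular`), and `∑_{m ∈ Mon l} m 0 = binom(l+2, 3)` (there are `l - i + 1` monomials with `m 0 = i`; or by symmetry `3 ∑ m 0 = l * nn l`).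
* rows: let `Δ_i` be the matrix of the big determinant in chart `i` over `K`.  Row `m F1 = m(Y) F1(Y)` in chart 1; substituting `Y = A X`: `m(A X) F0(X) = ∑_m' S_(d-2)(m, m') m' F0`.  The coefficient vector of `Q(A X)` is
  (coefficient vector of `Q`) `* S_t`.  So `Δ_1 * S_t = diag(S_(d-2), S_(c-2), 1) * Δ_0` (with the column relabelling `e`), and
  `det Δ_1 * det S_t = det S_(d-2) * det S_(c-2) * det Δ_0`.  `binom((d-2)+2, 3) = binom(d, 3)`, etc. (`c, d ≥ 2`).
  Hence `det Δ_0 = (-(P_0/P_1))^w det Δ_1`, `w = binom(c+d, 3) - binom(c, 3) - binom(d, 3)` (which is `≥ 0`), so `P_1^w det Δ_0 = ± P_0^w det Δ_1` in `K`, hence in `RR` (`chart_map`, `RingHom.map_det`, injectivity).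
-/

namespace GP80

open MvPolynomial

/-! ### the set of monomials -/

private theorem Cch_mem_iff {t : ℕ} {d : Fin 3 →₀ ℕ} :
    d ∈ Finset.finsuppAntidiag (Finset.univ : Finset (Fin 3)) t ↔ d 0 + d 1 + d 2 = t := by
  rw [Finset.mem_finsuppAntidiag, Fin.sum_univ_three]
  constructor
  · rintro ⟨h, -⟩
    exact h
  · intro h
    exact ⟨h, Finset.subset_univ _⟩

private theorem Cch_deg {t : ℕ} (m : Mon t) : m.1 0 + m.1 1 + m.1 2 = t := Cch_mem_iff.1 m.2

private theorem Cch_ext {m m' : Fin 3 →₀ ℕ} (h0 : m 0 = m' 0) (h1 : m 1 = m' 1) (h2 : m 2 = m' 2) :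
    m = m' := by
  ext i
  fin_cases i
  · exact h0
  · exact h1
  · exact h2

private theorem Cch_eqdeg {t : ℕ} {d : Fin 3 →₀ ℕ} (h : d 0 + d 1 + d 2 = t) : d.degree = t := by
  rw [Finsupp.degree_eq_sum, Fin.sum_univ_three]
  exact h

private def Cch_perm (l : ℕ) (σ : Equiv.Perm (Fin 3)) : Mon l → Mon l := fun m =>
  ⟨m.1.equivMapDomain σ, by
    have h := m.2
    rw [Finset.mem_finsuppAntidiag] at h ⊢
    refine ⟨?_, Finset.subset_univ _⟩
    have h2 : ∑ i, (m.1.equivMapDomain σ) i = ∑ i, m.1 (σ.symm i) :=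
      Finset.sum_congr rfl fun i _ => Finsupp.equivMapDomain_apply _ _ _
    rw [h2, Equiv.sum_comp σ.symm (fun i => m.1 i)]
    exact h.1⟩

private theorem Cch_perm_apply (l : ℕ) (σ : Equiv.Perm (Fin 3)) (m : Mon l) (i : Fin 3) :
    (Cch_perm l σ m).1 i = m.1 (σ.symm i) := Finsupp.equivMapDomain_apply _ _ _

private theorem Cch_perm_perm (l : ℕ) (i : Fin 3) (m : Mon l) :
    Cch_perm l (Equiv.swap 0 i) (Cch_perm l (Equiv.swap 0 i) m) = m := by
  apply Subtype.ext
  ext j
  rw [Cch_perm_apply, Cch_perm_apply, Equiv.symm_swap, Equiv.swap_apply_self]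

private theorem Cch_sum_eq (l : ℕ) (i : Fin 3) : ∑ m : Mon l, m.1 i = ∑ m : Mon l, m.1 0 := by
  refine Fintype.sum_equiv ⟨Cch_perm l (Equiv.swap 0 i), Cch_perm l (Equiv.swap 0 i),
    Cch_perm_perm l i, Cch_perm_perm l i⟩ _ _ fun m => ?_
  show m.1 i = (Cch_perm l (Equiv.swap 0 i) m).1 0
  rw [Cch_perm_apply, Equiv.symm_swap, Equiv.swap_apply_left]

private theorem Cch_sum_deg (l : ℕ) :
    ∑ m : Mon l, m.1 0 + ∑ m : Mon l, (m.1 1 + m.1 2) = l * nn l := by
  rw [← Finset.sum_add_distrib, Finset.sum_congr rfl (fun (m : Mon l) _ =>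
    (by have := Cch_deg m; omega : m.1 0 + (m.1 1 + m.1 2) = l)), Finset.sum_const,
    Finset.card_univ, card_Mon, smul_eq_mul, mul_comm]

private theorem Cch_sum0 (l : ℕ) : ∑ m : Mon l, m.1 0 = (l + 2).choose 3 := by
  have h1 := Cch_sum_deg l
  rw [Finset.sum_add_distrib, Cch_sum_eq l 1, Cch_sum_eq l 2] at h1
  have h2 := Nat.choose_succ_right_eq (l + 2) 2
  have h3 : l + 2 - 2 = l := by omega
  rw [h3] at h2
  unfold nn at h1
  have h4 : l * (l + 2).choose 2 = (l + 2).choose 2 * l := mul_comm _ _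
  have h5 : (l + 2).choose (2 + 1) = (l + 2).choose 3 := rfl
  rw [h5] at h2
  omega

/-! ### the substitution -/

private noncomputable def Cch_A : Fin 3 → MvPolynomial (Fin 3) RR :=
  ![C (-X 0) * X 0, C (X 1) * X 1 - C (X 2) * X 0, C (X 1) * X 2 - C (X 3) * X 0]

private noncomputable def Cch_phi : MvPolynomial (Fin 3) RR →ₐ[RR] MvPolynomial (Fin 3) RR :=
  aeval Cch_A

private theorem Cch_A_hom (i : Fin 3) : (Cch_A i).IsHomogeneous 1 := by
  have h : ∀ (a : RR) (j : Fin 3), (C a * X j : MvPolynomial (Fin 3) RR).IsHomogeneous 1 :=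
    fun a j => (isHomogeneous_X RR j).C_mul a
  fin_cases i
  · exact h _ _
  · exact (h _ _).sub (h _ _)
  · exact (h _ _).sub (h _ _)

private theorem Cch_phi_hom {f : MvPolynomial (Fin 3) RR} {l : ℕ} (hf : f.IsHomogeneous l) :
    (Cch_phi f).IsHomogeneous l := by
  have h := hf.aeval Cch_A (n := 1) Cch_A_hom
  rwa [one_mul] at h

private theorem Cch_expand {f : MvPolynomial (Fin 3) RR} {l : ℕ} (hf : f.IsHomogeneous l) :
    f = ∑ m : Mon l, C (coeff m.1 f) * monomial m.1 (1 : RR) := by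
  obtain ⟨b, hb1, hb2⟩ := exists_basisMon RR l
  have h := b.sum_repr (HS.mk f hf)
  have h2 := congrArg HS.val h
  rw [HS.val_sum, HS.val_mk] at h2
  rw [← h2]
  conv_lhs => rw [h2]
  conv_lhs => rw [← h2]
  refine Finset.sum_congr rfl fun m _ => ?_
  rw [HS.val_smul, hb1, hb2, HS.val_mk, h2]

private noncomputable def Cch_S (l : ℕ) : Matrix (Mon l) (Mon l) RR :=
  fun m m' => coeff m'.1 (Cch_phi (monomial m.1 1))

private theorem Cch_phi_mon {l : ℕ} (m : Mon l) :
    Cch_phi (monomial m.1 1) = ∑ m' : Mon l, C (Cch_S l m m') * monomial m'.1 (1 : RR) :=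
  Cch_expand (Cch_phi_hom (isHomogeneous_monomial (1 : RR) (Cch_eqdeg (Cch_deg m))))

private theorem Cch_phi_coeff {f : MvPolynomial (Fin 3) RR} {l : ℕ} (hf : f.IsHomogeneous l)
    (m' : Mon l) : coeff m'.1 (Cch_phi f) = ∑ m : Mon l, coeff m.1 f * Cch_S l m m' := by
  conv_lhs => rw [Cch_expand hf]
  rw [map_sum, coeff_sum]
  refine Finset.sum_congr rfl fun m _ => ?_
  rw [map_mul, ← algebraMap_eq, AlgHom.commutes, algebraMap_eq, coeff_C_mul]
  rfl

/-! ### the substitution is triangular -/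

private theorem Cch_entry {l : ℕ} (m m' : Mon l) :
    Cch_S l m m' = if m.1 0 ≤ m'.1 0 then
      (-X 0 : RR) ^ m.1 0 * coeff (m'.1 - Finsupp.single 0 (m.1 0))
        (Cch_A 1 ^ m.1 1 * Cch_A 2 ^ m.1 2) else 0 := by
  have h1 : Cch_phi (monomial m.1 1) = monomial (Finsupp.single 0 (m.1 0)) ((-X 0 : RR) ^ m.1 0) *
      (Cch_A 1 ^ m.1 1 * Cch_A 2 ^ m.1 2) := by
    unfold Cch_phi
    rw [aeval_monomial, map_one, one_mul, Finsupp.prod_fintype _ _ (fun i => pow_zero _),
      Fin.prod_univ_three, mul_assoc]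
    congr 1
    show (C (-X 0) * X 0 : MvPolynomial (Fin 3) RR) ^ m.1 0 = _
    rw [mul_pow, ← map_pow, X_pow_eq_monomial, C_mul_monomial, mul_one]
  unfold Cch_S
  rw [h1, coeff_monomial_mul']
  by_cases h : m.1 0 ≤ m'.1 0
  · rw [if_pos h, if_pos]
    rw [Finsupp.single_le_iff]
    exact h
  · rw [if_neg h, if_neg]
    rw [Finsupp.single_le_iff]
    exact h

private theorem Cch_dvd (k k' : ℕ) : (X 0 : MvPolynomial (Fin 3) RR) ∣
    Cch_A 1 ^ k * Cch_A 2 ^ k' - (C (X 1) * X 1) ^ k * (C (X 1) * X 2) ^ k' := by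
  have h1 : (X 0 : MvPolynomial (Fin 3) RR) ∣ Cch_A 1 ^ k - (C (X 1) * X 1) ^ k := by
    refine dvd_trans ?_ (sub_dvd_pow_sub_pow _ _ k)
    refine ⟨-C (X 2), ?_⟩
    show (C (X 1) * X 1 - C (X 2) * X 0 : MvPolynomial (Fin 3) RR) - C (X 1) * X 1 = _
    ring
  have h2 : (X 0 : MvPolynomial (Fin 3) RR) ∣ Cch_A 2 ^ k' - (C (X 1) * X 2) ^ k' := by
    refine dvd_trans ?_ (sub_dvd_pow_sub_pow _ _ k')
    refine ⟨-C (X 3), ?_⟩
    show (C (X 1) * X 2 - C (X 3) * X 0 : MvPolynomial (Fin 3) RR) - C (X 1) * X 2 = _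
    ring
  have h3 : Cch_A 1 ^ k * Cch_A 2 ^ k' - (C (X 1) * X 1) ^ k * (C (X 1) * X 2) ^ k' =
      (Cch_A 1 ^ k - (C (X 1) * X 1) ^ k) * Cch_A 2 ^ k' +
        (C (X 1) * X 1) ^ k * (Cch_A 2 ^ k' - (C (X 1) * X 2) ^ k') := by ring
  rw [h3]
  exact dvd_add (Dvd.dvd.mul_right h1 _) (Dvd.dvd.mul_left h2 _)

private theorem Cch_coeff0 (k k' : ℕ) (d : Fin 3 →₀ ℕ) (hd : d 0 = 0) :
    coeff d (Cch_A 1 ^ k * Cch_A 2 ^ k') =
      if d 1 = k ∧ d 2 = k' then (X 1 : RR) ^ (k + k') else 0 := by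
  obtain ⟨y, hy⟩ := Cch_dvd k k'
  have h1 : Cch_A 1 ^ k * Cch_A 2 ^ k' = (C (X 1) * X 1) ^ k * (C (X 1) * X 2) ^ k' + X 0 * y := by
    rw [← hy]
    ring
  have h2 : ((C (X 1) * X 1) ^ k * (C (X 1) * X 2) ^ k' : MvPolynomial (Fin 3) RR) =
      monomial (Finsupp.single 1 k + Finsupp.single 2 k') ((X 1 : RR) ^ (k + k')) := by
    rw [mul_pow, mul_pow, ← map_pow, ← map_pow, C_mul_X_pow_eq_monomial,
      C_mul_X_pow_eq_monomial, monomial_mul, ← pow_add]
  rw [h1, coeff_add, h2, coeff_X_mul', coeff_monomial, if_neg (c := (0 : Fin 3) ∈ d.support)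
    (by rw [Finsupp.mem_support_iff, not_not]; exact hd), add_zero]
  by_cases h : d 1 = k ∧ d 2 = k'
  · rw [if_pos h, if_pos]
    refine Cch_ext ?_ ?_ ?_
    · simp [hd]
    · simp [h.1]
    · simp [h.2]
  · rw [if_neg h, if_neg]
    intro h3
    apply h
    rw [← h3]
    constructor <;> simp

private theorem Cch_diag {l : ℕ} (m : Mon l) :
    Cch_S l m m = (-X 0 : RR) ^ m.1 0 * (X 1 : RR) ^ (m.1 1 + m.1 2) := by
  rw [Cch_entry, if_pos le_rfl, Cch_coeff0 _ _ _ (by simp), if_pos]
  constructor <;> simp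

private theorem Cch_upper {l : ℕ} (m m' : Mon l) (h : Cch_S l m m' ≠ 0) :
    m.1 0 < m'.1 0 ∨ m = m' := by
  rw [Cch_entry] at h
  by_cases h1 : m.1 0 ≤ m'.1 0
  · rcases lt_or_eq_of_le h1 with h2 | h2
    · exact Or.inl h2
    · right
      rw [if_pos h1, Cch_coeff0 _ _ _ (by simp [h2])] at h
      by_cases h3 : (m'.1 - Finsupp.single 0 (m.1 0) : Fin 3 →₀ ℕ) 1 = m.1 1 ∧
          (m'.1 - Finsupp.single 0 (m.1 0) : Fin 3 →₀ ℕ) 2 = m.1 2
      · apply Subtype.ext
        refine Cch_ext h2 ?_ ?_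
        · rw [← h3.1]
          simp
        · rw [← h3.2]
          simp
      · rw [if_neg h3, mul_zero] at h
        exact absurd rfl h
  · rw [if_neg h1] at h
    exact absurd rfl h

private def Cch_rk (l : ℕ) (m : Mon l) : ℕ := m.1 0 * (l + 1) + m.1 1

private theorem Cch_rk_inj (l : ℕ) : Function.Injective (Cch_rk l) := by
  intro m m' h
  have h1 := Cch_deg m
  have h2 := Cch_deg m'
  unfold Cch_rk at h
  have h3 : m.1 0 = m'.1 0 := by
    rcases lt_trichotomy (m.1 0) (m'.1 0) with h4 | h4 | h4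
    · exfalso
      have h5 : (m.1 0 + 1) * (l + 1) ≤ m'.1 0 * (l + 1) := Nat.mul_le_mul_right _ h4
      rw [add_mul] at h5
      omega
    · exact h4
    · exfalso
      have h5 : (m'.1 0 + 1) * (l + 1) ≤ m.1 0 * (l + 1) := Nat.mul_le_mul_right _ h4
      rw [add_mul] at h5
      omega
  have h4 : m.1 1 = m'.1 1 := by
    rw [h3] at h
    omega
  exact Subtype.ext (Cch_ext h3 h4 (by omega))

private theorem Cch_det (l : ℕ) : (Cch_S l).det =
    (-X 0 : RR) ^ ((l + 2).choose 3) * (X 1 : RR) ^ (∑ m : Mon l, (m.1 1 + m.1 2)) := by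
  have h1 : (Cch_S l).det = ∏ m : Mon l, Cch_S l m m := by
    have h2 : (Cch_S l).BlockTriangular (Cch_rk l) := by
      intro m m' hlt
      by_contra h3
      have h5 := Cch_deg m
      have h6 := Cch_deg m'
      rcases Cch_upper m m' h3 with h7 | h7
      · unfold Cch_rk at hlt
        have h8 : (m.1 0 + 1) * (l + 1) ≤ m'.1 0 * (l + 1) := Nat.mul_le_mul_right _ h7
        rw [add_mul] at h8
        omega
      · rw [h7] at hlt
        exact lt_irrefl _ hlt
    rw [h2.det, Finset.prod_image (fun x _ y _ h => Cch_rk_inj l h)]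
    refine Finset.prod_congr rfl fun m _ => ?_
    letI : Unique {i // Cch_rk l i = Cch_rk l m} :=
      ⟨⟨⟨m, rfl⟩⟩, fun i => Subtype.ext (Cch_rk_inj l i.2)⟩
    rw [Matrix.det_unique]
    rfl
  rw [h1, Finset.prod_congr rfl (fun m _ => Cch_diag m), Finset.prod_mul_distrib,
    Finset.prod_pow_eq_pow_sum, Finset.prod_pow_eq_pow_sum, Cch_sum0]

/-! ### change of chart -/

private theorem Cch_scale {S : Type} [CommRing S] [Algebra ℂ S] {H : BB} {t : ℕ}
    (h : IsWeightedHomogeneous wx H t) (p y : Fin 4 → S) (a : S) :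
    aeval (Sum.elim p (fun i => a * y i)) H = a ^ t * aeval (Sum.elim p y) H := by
  rw [aeval_def, aeval_def, eval₂_eq', eval₂_eq', Finset.mul_sum]
  refine Finset.sum_congr rfl fun d hd => ?_
  have h1 := h (mem_support_iff.1 hd)
  rw [Finsupp.weight_apply, Finsupp.sum_fintype d (fun i c => c • wx i)
    (fun i => zero_smul ℕ (wx i)), Fintype.sum_sum_type] at h1
  have h2 : ∑ i : Fin 4, d (Sum.inr i) = t := by
    rw [← h1]
    simp [wx]
  rw [Fintype.prod_sum_type, Fintype.prod_sum_type]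
  simp only [Sum.elim_inl, Sum.elim_inr, mul_pow]
  rw [Finset.prod_mul_distrib, Finset.prod_pow_eq_pow_sum, h2]
  ring

private theorem Cch_chart (i : Fin 4) (H : BB) : chartH RR i H =
    aeval (Sum.elim (fun j => (C (X j) : MvPolynomial (Fin 3) RR))
      (fun j => Fin.insertNth (α := fun _ => MvPolynomial (Fin 3) RR) i 0 (fun m => X m) j)) H := by
  rw [aeval_def]
  rfl

private theorem Cch_main {H : BB} {t : ℕ} (h : IsWeightedHomogeneous wx H t) (hE : EE H = 0) :
    Cch_phi (chartH RR 1 H) = C (X 1 ^ t) * chartH RR 0 H := by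
  rw [Cch_chart, Cch_chart]
  have h1 : Cch_phi (aeval (Sum.elim (fun j => (C (X j) : MvPolynomial (Fin 3) RR))
      (fun j => Fin.insertNth (α := fun _ => MvPolynomial (Fin 3) RR) 1 0 (fun m => X m) j)) H) =
      aeval (Sum.elim (fun j => (C (X j) : MvPolynomial (Fin 3) RR)) (fun i =>
        C (X 1) * Fin.insertNth (α := fun _ => MvPolynomial (Fin 3) RR) 0 0 (fun m => X m) i +
          (-X 0) * C (X i))) H := by
    have h2 := comp_aeval_apply (R := ℂ) (Sum.elim (fun j => (C (X j) : MvPolynomial (Fin 3) RR))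
      (fun j => Fin.insertNth (α := fun _ => MvPolynomial (Fin 3) RR) 1 0 (fun m => X m) j))
      (Cch_phi.restrictScalars ℂ) H
    refine Eq.trans h2 ?_
    congr 2
    funext j
    rcases j with j | j
    · show Cch_phi (C (X j)) = C (X j)
      rw [← algebraMap_eq, AlgHom.commutes]
    · show Cch_phi (Fin.insertNth (α := fun _ => MvPolynomial (Fin 3) RR) 1 0 (fun m => X m) j) = _
      have hX : ∀ k : Fin 3, Cch_phi (X k) = Cch_A k := fun k => aeval_X _ _
      fin_cases j
      · show Cch_phi (X 0) = C (X 1) * 0 + (-X 0) * C (X 0)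
        rw [hX]
        show C (-X 0) * X 0 = _
        rw [C_neg]
        ring
      · show Cch_phi 0 = C (X 1) * X 0 + (-X 0) * C (X 1)
        rw [map_zero]
        ring
      · show Cch_phi (X 1) = C (X 1) * X 1 + (-X 0) * C (X 2)
        rw [hX]
        show C (X 1) * X 1 - C (X 2) * X 0 = _
        ring
      · show Cch_phi (X 2) = C (X 1) * X 2 + (-X 0) * C (X 3)
        rw [hX]
        show C (X 1) * X 2 - C (X 3) * X 0 = _
        ring
  rw [h1, einv hE, Cch_scale h, map_pow]

theorem chart_change {I : Type} [Fintype I] [DecidableEq I] {c d : ℕ} (hc : 2 ≤ c) (hd : 2 ≤ d)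
    (e : (Mon (d - 2) ⊕ Mon (c - 2)) ⊕ I ≃ Mon (c + d - 2)) {F G : BB} (b : I → BB)
    (hF : IsWeightedHomogeneous wx F c) (hG : IsWeightedHomogeneous wx G d)
    (hb : ∀ r, IsWeightedHomogeneous wx (b r) (c + d - 2)) (eF : EE F = 0) (eG : EE G = 0)
    (eb : ∀ r, EE (b r) = 0) {w : ℕ} (hw : w + c.choose 3 + d.choose 3 = (c + d).choose 3) :
    Associated
      (X 1 ^ w * bigDet e (chartH RR 0 F) (chartH RR 0 G) (fun r => chartH RR 0 (b r)))
      (X 0 ^ w * bigDet e (chartH RR 1 F) (chartH RR 1 G) (fun r => chartH RR 1 (b r))) := by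
  classical
  -- rows of the two matrices
  let row : Fin 4 → (Mon (d - 2) ⊕ Mon (c - 2)) ⊕ I → MvPolynomial (Fin 3) RR := fun i =>
    Sum.elim (Sum.elim (fun m => monomial m.1 (1 : RR) * chartH RR i F)
      (fun m => monomial m.1 (1 : RR) * chartH RR i G)) (fun r => chartH RR i (b r))
  let M : Fin 4 → Matrix ((Mon (d - 2) ⊕ Mon (c - 2)) ⊕ I) ((Mon (d - 2) ⊕ Mon (c - 2)) ⊕ I) RR :=
    fun i => Matrix.of fun r s => coeff (e s).1 (row i r)
  let L : Matrix ((Mon (d - 2) ⊕ Mon (c - 2)) ⊕ I) ((Mon (d - 2) ⊕ Mon (c - 2)) ⊕ I) RR :=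
    Matrix.fromBlocks (Matrix.fromBlocks ((X 1 ^ c : RR) • Cch_S (d - 2)) 0 0
      ((X 1 ^ d : RR) • Cch_S (c - 2))) 0 0 ((X 1 ^ (c + d - 2) : RR) • (1 : Matrix I I RR))
  have hrow : ∀ i r, (row i r).IsHomogeneous (c + d - 2) := by
    intro i r
    rcases r with (m | m) | r
    · have h1 := (isHomogeneous_monomial (1 : RR) (Cch_eqdeg (Cch_deg m))).mul
        (chart_homog RR i hF)
      have h2 : d - 2 + c = c + d - 2 := by omega
      rwa [h2] at h1
    · have h1 := (isHomogeneous_monomial (1 : RR) (Cch_eqdeg (Cch_deg m))).mul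
        (chart_homog RR i hG)
      have h2 : c - 2 + d = c + d - 2 := by omega
      rwa [h2] at h1
    · exact chart_homog RR i (hb r)
  have hM : M 1 * (Cch_S (c + d - 2)).submatrix e e = L * M 0 := by
    refine Matrix.ext fun r s => ?_
    have h1 : (M 1 * (Cch_S (c + d - 2)).submatrix e e) r s = coeff (e s).1 (Cch_phi (row 1 r)) := by
      rw [Cch_phi_coeff (hrow 1 r), Matrix.mul_apply]
      exact Fintype.sum_equiv e _ _ fun s' => rfl
    rw [h1, Matrix.mul_apply, Fintype.sum_sum_type, Fintype.sum_sum_type]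
    rcases r with (m | m) | r
    · have h2 : Cch_phi (row 1 (Sum.inl (Sum.inl m))) =
          ∑ m' : Mon (d - 2), C (X 1 ^ c * Cch_S (d - 2) m m') * row 0 (Sum.inl (Sum.inl m')) := by
        show Cch_phi (monomial m.1 (1 : RR) * chartH RR 1 F) =
          ∑ m' : Mon (d - 2), C (X 1 ^ c * Cch_S (d - 2) m m') *
            (monomial m'.1 (1 : RR) * chartH RR 0 F)
        rw [map_mul, Cch_main hF eF, Cch_phi_mon, Finset.sum_mul]
        refine Finset.sum_congr rfl fun m' _ => ?_
        rw [C_mul]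
        ring
      rw [h2, coeff_sum]
      have h3 : ∑ x : Mon (c - 2), L (Sum.inl (Sum.inl m)) (Sum.inl (Sum.inr x)) *
          M 0 (Sum.inl (Sum.inr x)) s = 0 := by
        refine Finset.sum_eq_zero fun x _ => ?_
        show (0 : RR) * _ = 0
        rw [zero_mul]
      have h4 : ∑ x : I, L (Sum.inl (Sum.inl m)) (Sum.inr x) * M 0 (Sum.inr x) s = 0 := by
        refine Finset.sum_eq_zero fun x _ => ?_
        show (0 : RR) * _ = 0
        rw [zero_mul]
      rw [h3, h4, add_zero, add_zero]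
      refine Finset.sum_congr rfl fun m' _ => ?_
      rw [coeff_C_mul]
      rfl
    · have h2 : Cch_phi (row 1 (Sum.inl (Sum.inr m))) =
          ∑ m' : Mon (c - 2), C (X 1 ^ d * Cch_S (c - 2) m m') * row 0 (Sum.inl (Sum.inr m')) := by
        show Cch_phi (monomial m.1 (1 : RR) * chartH RR 1 G) =
          ∑ m' : Mon (c - 2), C (X 1 ^ d * Cch_S (c - 2) m m') *
            (monomial m'.1 (1 : RR) * chartH RR 0 G)
        rw [map_mul, Cch_main hG eG, Cch_phi_mon, Finset.sum_mul]
        refine Finset.sum_congr rfl fun m' _ => ?_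
        rw [C_mul]
        ring
      rw [h2, coeff_sum]
      have h3 : ∑ x : Mon (d - 2), L (Sum.inl (Sum.inr m)) (Sum.inl (Sum.inl x)) *
          M 0 (Sum.inl (Sum.inl x)) s = 0 := by
        refine Finset.sum_eq_zero fun x _ => ?_
        show (0 : RR) * _ = 0
        rw [zero_mul]
      have h4 : ∑ x : I, L (Sum.inl (Sum.inr m)) (Sum.inr x) * M 0 (Sum.inr x) s = 0 := by
        refine Finset.sum_eq_zero fun x _ => ?_
        show (0 : RR) * _ = 0
        rw [zero_mul]
      rw [h3, h4, add_zero, zero_add]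
      refine Finset.sum_congr rfl fun m' _ => ?_
      rw [coeff_C_mul]
      rfl
    · have h2 : Cch_phi (row 1 (Sum.inr r)) = C (X 1 ^ (c + d - 2)) * row 0 (Sum.inr r) :=
        Cch_main (hb r) (eb r)
      rw [h2, coeff_C_mul]
      have h3 : ∑ x : Mon (d - 2), L (Sum.inr r) (Sum.inl (Sum.inl x)) *
          M 0 (Sum.inl (Sum.inl x)) s = 0 := by
        refine Finset.sum_eq_zero fun x _ => ?_
        show (0 : RR) * _ = 0
        rw [zero_mul]
      have h4 : ∑ x : Mon (c - 2), L (Sum.inr r) (Sum.inl (Sum.inr x)) *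
          M 0 (Sum.inl (Sum.inr x)) s = 0 := by
        refine Finset.sum_eq_zero fun x _ => ?_
        show (0 : RR) * _ = 0
        rw [zero_mul]
      rw [h3, h4, add_zero, zero_add, Finset.sum_eq_single r]
      · show _ = (X 1 ^ (c + d - 2) * (1 : Matrix I I RR) r r) * coeff (e s).1 (row 0 (Sum.inr r))
        rw [Matrix.one_apply_eq, mul_one]
      · intro x _ hx
        show (X 1 ^ (c + d - 2) * (1 : Matrix I I RR) r x) * _ = 0
        rw [Matrix.one_apply_ne (Ne.symm hx), mul_zero, zero_mul]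
      · intro h
        exact absurd (Finset.mem_univ r) h
  have hdet := congrArg Matrix.det hM
  have hL : L.det = ((X 1 ^ c : RR) ^ nn (d - 2) * (Cch_S (d - 2)).det) *
      ((X 1 ^ d : RR) ^ nn (c - 2) * (Cch_S (c - 2)).det) *
      (X 1 ^ (c + d - 2) : RR) ^ Fintype.card I := by
    show (Matrix.fromBlocks _ _ _ _).det = _
    rw [Matrix.det_fromBlocks_zero₂₁, Matrix.det_fromBlocks_zero₂₁, Matrix.det_smul,
      Matrix.det_smul, Matrix.det_smul, Matrix.det_one, mul_one, card_Mon, card_Mon]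
  rw [Matrix.det_mul, Matrix.det_mul, Matrix.det_submatrix_equiv_self, hL, Cch_det, Cch_det,
    Cch_det] at hdet
  have hcard : nn (d - 2) + nn (c - 2) + Fintype.card I = nn (c + d - 2) := by
    have h1 := Fintype.card_congr e
    rwa [Fintype.card_sum, Fintype.card_sum, card_Mon, card_Mon, card_Mon] at h1
  obtain ⟨u1, hu1⟩ : ∃ u : ℕ, u = ∑ m : Mon (d - 2), (m.1 1 + m.1 2) := ⟨_, rfl⟩
  obtain ⟨u2, hu2⟩ : ∃ u : ℕ, u = ∑ m : Mon (c - 2), (m.1 1 + m.1 2) := ⟨_, rfl⟩
  obtain ⟨u3, hu3⟩ : ∃ u : ℕ, u = ∑ m : Mon (c + d - 2), (m.1 1 + m.1 2) := ⟨_, rfl⟩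
  have s1 := Cch_sum_deg (d - 2)
  have s2 := Cch_sum_deg (c - 2)
  have s3 := Cch_sum_deg (c + d - 2)
  have e1 : d - 2 + 2 = d := by omega
  have e2 : c - 2 + 2 = c := by omega
  have e3 : c + d - 2 + 2 = c + d := by omega
  rw [Cch_sum0, ← hu1, e1] at s1
  rw [Cch_sum0, ← hu2, e2] at s2
  rw [Cch_sum0, ← hu3, e3] at s3
  rw [← hu1, ← hu2, ← hu3, e1, e2, e3] at hdet
  have hexp : c * nn (d - 2) + u1 + (d * nn (c - 2) + u2) + (c + d - 2) * Fintype.card I =
      u3 + w := by
    have h1 : c * nn (d - 2) + (d - 2) * nn (d - 2) + (d * nn (c - 2) + (c - 2) * nn (c - 2)) +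
        (c + d - 2) * Fintype.card I = (c + d - 2) * nn (c + d - 2) := by
      rw [← hcard, ← add_mul, ← add_mul, mul_add, mul_add]
      have h2 : c + (d - 2) = c + d - 2 := by omega
      have h3 : d + (c - 2) = c + d - 2 := by omega
      rw [h2, h3]
    omega
  have h0 : (X 0 : RR) ≠ 0 := X_ne_zero 0
  have h1 : (X 1 : RR) ≠ 0 := X_ne_zero 1
  have hfin : (M 1).det * (-X 0 : RR) ^ w = (X 1 : RR) ^ w * (M 0).det := by
    have hne : (-X 0 : RR) ^ (c.choose 3 + d.choose 3) * (X 1 : RR) ^ u3 ≠ 0 :=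
      mul_ne_zero (pow_ne_zero _ (neg_ne_zero.2 h0)) (pow_ne_zero _ h1)
    apply mul_left_cancel₀ hne
    calc (-X 0 : RR) ^ (c.choose 3 + d.choose 3) * (X 1 : RR) ^ u3 * ((M 1).det * (-X 0 : RR) ^ w)
        = (M 1).det * ((-X 0 : RR) ^ (w + c.choose 3 + d.choose 3) * (X 1 : RR) ^ u3) := by
          rw [add_assoc w, pow_add _ w]
          ring
      _ = (M 1).det * ((-X 0 : RR) ^ (c + d).choose 3 * (X 1 : RR) ^ u3) := by rw [hw]
      _ = _ := hdet
      _ = (-X 0 : RR) ^ (c.choose 3 + d.choose 3) * (X 1 : RR) ^ (c * nn (d - 2) + u1 +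
            (d * nn (c - 2) + u2) + (c + d - 2) * Fintype.card I) * (M 0).det := by
          rw [← pow_mul, ← pow_mul, ← pow_mul]
          ring
      _ = _ := by
          rw [hexp]
          ring
  have hM0 : bigDet e (chartH RR 0 F) (chartH RR 0 G) (fun r => chartH RR 0 (b r)) = (M 0).det := rfl
  have hM1 : bigDet e (chartH RR 1 F) (chartH RR 1 G) (fun r => chartH RR 1 (b r)) = (M 1).det := rfl
  rw [hM0, hM1, ← hfin]
  refine ⟨(-1) ^ w, ?_⟩
  rw [neg_pow (X 0 : RR) w]
  push_cast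
  have h5 : ((-1 : RR) ^ w) * (-1 : RR) ^ w = 1 := by
    rw [← mul_pow]
    simp
  calc (M 1).det * ((-1) ^ w * X 0 ^ w) * (-1) ^ w
      = ((-1 : RR) ^ w * (-1 : RR) ^ w) * (X 0 ^ w * (M 1).det) := by ring
    _ = _ := by rw [h5, one_mul]

end GP80

end S_H80_GP_Cch

section S_H80_GP_Sp1

/-!
# Row Sp1 (MP_87ed0a_GP): specialisation of ranks and kernels of matrices over `ℂ[P]`  (about 150 lines)

`K = FractionRing RR`.
* `rank_spec`: `rank A(P) ≤ rank_K A`.  Proof: let `r = rank A(P)`; choose `r` rows of `A(P)` which are linearly independent over `ℂ` (index injection `f : Fin r → m`), let `A' = A.submatrix f id`; `A'(P)` has a right inverse `B` over `ℂ` (rows independent: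
  `Matrix` of full row rank), so `det (A' * B.map C)` has value `det 1 = 1` at `P`, hence is nonzero in `RR` and in `K`; so the rows of `A'` are independent over `K` and `rank_K A ≥ r`.
* `lift_kernel`: let `r = rank_K A`.  Choose row indices `f : Fin r → m` whose rows form a basis of the row space over `K` and column indices `g : Fin r → n` with `Δ = det (A.submatrix f g) ≠ 0`
  (a matrix of rank `r` has a nonzero `r × r` minor: first choose rows, then columns of the full-row-rank submatrix).  `A0 := A.submatrix f g`.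
  For `P` with `Δ(P) ≠ 0` and `v ∈ ker A(P)`: define `w : n → RR` by
  `w_l = (1/Δ(P)) * (Δ * C v_l)` for `l ∉ range g`, and `w_(g i) = (1/Δ(P)) * (- ∑_{l ∉ range g} (adjugate A0 * A.submatrix f id)_(i, l) * C v_l)`.
  Then rows `f` of `A w` vanish: `A0 w_g + ∑_{l ∉ range g} A_(f, l) w_l = (1/Δ(P)) (- A0 adj(A0) .. + Δ ..) = 0`; all other rows of `A` are `K`-combinations of the rows `f`, so `A w = 0`.
  `w(P) = v`: outside `range g` clear; both `w(P)` and `v` are in `ker A(P)`, so `A0(P) (w(P) - v)_g = 0`, `A0(P)` invertible.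
  Degrees: entries of `A` are homogeneous of degree `t`: `Δ` homogeneous of degree `r t`, entries of `adj(A0)` of degree `(r-1) t`, times `A`: `r t` (for `r = 0`: `w_l = C v_l`).  `r ≤ card m`.
-/

namespace GP80

open MvPolynomial

theorem Sp1_rows {F m n : Type} [Field F] [Fintype m] [Fintype n] (A : Matrix m n F) :
    ∃ f : Fin A.rank → m, LinearIndependent F (fun i => A.row (f i)) ∧
      Submodule.span F (Set.range (fun i => A.row (f i))) = Submodule.span F (Set.range A.row) := by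
  have hr : A.rank = Module.finrank F (Submodule.span F (Set.range A.row)) :=
    A.rank_eq_finrank_span_row
  have hfin : Module.Finite F (Submodule.span F (Set.range A.row)) :=
    Module.Finite.span_of_finite F (Set.finite_range A.row)
  rw [hr]
  obtain ⟨v, hv1, hv2, hv3⟩ := Submodule.exists_fun_fin_finrank_span_eq F (Set.range A.row)
  choose f hf using hv1
  refine ⟨f, ?_, ?_⟩
  · have : (fun i => A.row (f i)) = v := funext hf
    rw [this]
    exact hv3
  · have : (fun i => A.row (f i)) = v := funext hf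
    rw [this]
    exact hv2

theorem Sp1_det {F : Type} [Field F] {r : ℕ} (M : Matrix (Fin r) (Fin r) F)
    (h : LinearIndependent F M.row) : M.det ≠ 0 := by
  have h1 : IsUnit M := Matrix.linearIndependent_rows_iff_isUnit.1 h
  exact ((Matrix.isUnit_iff_isUnit_det M).1 h1).ne_zero

theorem Sp1_minor {F m n : Type} [Field F] [Fintype m] [Fintype n] (A : Matrix m n F) :
    ∃ (f : Fin A.rank → m) (g : Fin A.rank → n), (A.submatrix f g).det ≠ 0 ∧
      Submodule.span F (Set.range (fun i => A.row (f i))) = Submodule.span F (Set.range A.row) := by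
  obtain ⟨f, hf1, hf2⟩ := Sp1_rows A
  have hrk : (A.submatrix f id).rank = A.rank := by
    have h1 : LinearIndependent F (A.submatrix f id).row := hf1
    rw [h1.rank_matrix, Fintype.card_fin]
  have hrk2 : ((A.submatrix f id).transpose).rank = A.rank := by
    rw [Matrix.rank_transpose, hrk]
  obtain ⟨g, hg1, -⟩ := Sp1_rows ((A.submatrix f id).transpose)
  set e : Fin A.rank ≃ Fin ((A.submatrix f id).transpose).rank := finCongr hrk2.symm with he
  refine ⟨f, g ∘ e, ?_, hf2⟩
  rw [← Matrix.det_transpose]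
  apply Sp1_det
  have h2 := hg1.comp e e.injective
  exact h2

theorem rank_spec {m n : Type} [Fintype m] [Fintype n] [DecidableEq m] [DecidableEq n]
    (A : Matrix m n RR) (P : Fin 4 → ℂ) :
    (A.map (eval P)).rank ≤ (A.map (algebraMap RR (FractionRing RR))).rank := by
  obtain ⟨f, g, h, -⟩ := Sp1_minor (A.map (eval P))
  have h1 : (A.submatrix f g).det ≠ 0 := by
    intro h0
    apply h
    have h2 : (A.map (eval P)).submatrix f g = (A.submatrix f g).map (eval P) := rfl
    rw [h2]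
    have h3 := (eval P).map_det (A.submatrix f g)
    rw [h0, map_zero] at h3
    exact h3.symm
  set K := FractionRing RR
  have h4 : ((A.map (algebraMap RR K)).submatrix f g).det ≠ 0 := by
    have h2 : (A.map (algebraMap RR K)).submatrix f g = (A.submatrix f g).map (algebraMap RR K) :=
      rfl
    rw [h2]
    have h3 := (algebraMap RR K).map_det (A.submatrix f g)
    intro h5
    apply h1
    have h6 : algebraMap RR K (A.submatrix f g).det = 0 := h3.trans h5
    exact (IsFractionRing.injective RR K) (h6.trans (map_zero _).symm)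
  have h5 : IsUnit ((A.map (algebraMap RR K)).submatrix f g) :=
    (Matrix.isUnit_iff_isUnit_det _).2 (isUnit_iff_ne_zero.2 h4)
  have h6 := Matrix.rank_of_isUnit _ h5
  rw [Fintype.card_fin] at h6
  rw [← h6]
  exact Matrix.rank_submatrix_le _ _ _

theorem Sp1_det_hom {r t : ℕ} (M : Matrix (Fin r) (Fin r) RR)
    (h : ∀ i j, (M i j).IsHomogeneous t) : M.det.IsHomogeneous (r * t) := by
  rw [Matrix.det_apply]
  apply MvPolynomial.IsHomogeneous.sum
  intro σ _
  have h1 : (∏ i, M (σ i) i).IsHomogeneous (r * t) := by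
    have h2 := MvPolynomial.IsHomogeneous.prod Finset.univ (fun i : Fin r => M (σ i) i)
      (fun _ => t) (fun i _ => h (σ i) i)
    simpa using h2
  rcases Int.units_eq_one_or (Equiv.Perm.sign σ) with hs | hs
  · rw [hs, one_smul]
    exact h1
  · rw [hs]
    have h3 : ((-1 : ℤˣ) • ∏ i, M (σ i) i) = - ∏ i, M (σ i) i := by
      rw [Units.neg_smul, one_smul]
    rw [h3]
    exact h1.neg

theorem lift_kernel {m n : Type} [Fintype m] [Fintype n] [DecidableEq m] [DecidableEq n]
    (A : Matrix m n RR) (t : ℕ) (hA : ∀ i j, (A i j).IsHomogeneous t) :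
    ∃ (Δ : RR) (r : ℕ), Δ ≠ 0 ∧ r ≤ Fintype.card m ∧ ∀ P : Fin 4 → ℂ, eval P Δ ≠ 0 →
      ∀ v : n → ℂ, (A.map (eval P)).mulVec v = 0 →
        ∃ w : n → RR, A.mulVec w = 0 ∧ (∀ j, (w j).IsHomogeneous (r * t)) ∧
          ∀ j, eval P (w j) = v j := by
  set K := FractionRing RR
  set AK : Matrix m n K := A.map (algebraMap RR K) with hAK
  obtain ⟨f, g, hdet, hspan⟩ := Sp1_minor AK
  set A0 : Matrix (Fin AK.rank) (Fin AK.rank) RR := A.submatrix f g with hA0
  refine ⟨A0.det, AK.rank, ?_, Matrix.rank_le_card_height _, ?_⟩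
  · intro h0
    apply hdet
    have h2 : AK.submatrix f g = A0.map (algebraMap RR K) := rfl
    rw [h2]
    have h3 := (algebraMap RR K).map_det A0
    rw [h0, map_zero] at h3
    exact h3.symm
  · intro P hP v hv
    set b : Fin AK.rank → RR := fun i => ∑ j, A (f i) j * C (v j) with hb
    set s : Fin AK.rank → RR := A0.cramer b with hs
    set w : n → RR := fun j => C (eval P A0.det)⁻¹ *
      (A0.det * C (v j) - ∑ i, if g i = j then s i else 0) with hw
    have hbhom : ∀ i, (b i).IsHomogeneous t := by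
      intro i
      apply MvPolynomial.IsHomogeneous.sum
      intro j _
      have := (hA (f i) j).mul (isHomogeneous_C (Fin 4) (v j))
      simpa using this
    have hshom : ∀ i, (s i).IsHomogeneous (AK.rank * t) := by
      intro i
      rw [hs, Matrix.cramer_apply]
      apply Sp1_det_hom
      intro k l
      rw [Matrix.updateCol_apply]
      split_ifs
      · exact hbhom k
      · exact hA _ _
    have hrow : ∀ i, ∑ j, A (f i) j * w j = 0 := by
      intro i
      have h1 : ∑ j, A (f i) j * w j = C (eval P A0.det)⁻¹ *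
          (A0.det * b i - ∑ j, A (f i) j * ∑ k, if g k = j then s k else 0) := by
        rw [hb]
        simp only [Finset.mul_sum, mul_sub]
        rw [← Finset.sum_sub_distrib]
        refine Finset.sum_congr rfl fun j _ => ?_
        rw [hw]
        simp only [Finset.mul_sum, mul_sub]
        refine congrArg₂ (fun x y : RR => x - y) ?_ ?_
        · ring
        · refine Finset.sum_congr rfl fun k _ => ?_
          ring
      have h2 : ∑ j, A (f i) j * ∑ k, (if g k = j then s k else 0) = (A0.mulVec s) i := by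
        simp only [Finset.mul_sum]
        rw [Finset.sum_comm]
        simp only [Matrix.mulVec, dotProduct]
        refine Finset.sum_congr rfl fun k _ => ?_
        rw [Finset.sum_eq_single (g k)]
        · rw [if_pos rfl]
          rfl
        · intro j _ hj
          rw [if_neg (Ne.symm hj), mul_zero]
        · intro h
          exact absurd (Finset.mem_univ _) h
      rw [h1, h2, hs, Matrix.mulVec_cramer]
      simp
    refine ⟨w, ?_, ?_, ?_⟩
    · clear_value w
      funext i
      have hmem : AK.row i ∈ Submodule.span K (Set.range (fun i => AK.row (f i))) := by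
        rw [hspan]
        exact Submodule.subset_span ⟨i, rfl⟩
      have hall : ∀ u ∈ Submodule.span K (Set.range (fun i => AK.row (f i))),
          ∑ j, u j * algebraMap RR K (w j) = 0 := by
        intro u hu
        induction hu using Submodule.span_induction with
        | mem x hx =>
          obtain ⟨k, rfl⟩ := hx
          have h1 := congrArg (algebraMap RR K) (hrow k)
          rw [map_sum, map_zero] at h1
          rw [← h1]
          refine Finset.sum_congr rfl fun j _ => ?_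
          exact ((algebraMap RR K).map_mul (A (f k) j) (w j)).symm
        | zero => simp
        | add x y _ _ hx hy =>
          simp only [Pi.add_apply, add_mul, Finset.sum_add_distrib, hx, hy, add_zero]
        | smul a x _ hx =>
          simp only [Pi.smul_apply, smul_eq_mul, mul_assoc]
          rw [← Finset.mul_sum, hx, mul_zero]
      have h2 := hall _ hmem
      have h3 : algebraMap RR K (A.mulVec w i) = 0 := by
        rw [← h2]
        simp only [Matrix.mulVec, dotProduct, map_sum, map_mul]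
        rfl
      exact (IsFractionRing.injective RR K) (h3.trans (map_zero _).symm)
    · intro j
      rw [hw]
      have h1 : (A0.det * C (v j)).IsHomogeneous (AK.rank * t) := by
        have := (Sp1_det_hom A0 (fun i k => hA _ _)).mul (isHomogeneous_C (Fin 4) (v j))
        simpa using this
      have h2 : (∑ i, if g i = j then s i else 0).IsHomogeneous (AK.rank * t) := by
        apply MvPolynomial.IsHomogeneous.sum
        intro i _
        split_ifs
        · exact hshom i
        · exact isHomogeneous_zero _ _ _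
      have h3 := (isHomogeneous_C (Fin 4) (eval P A0.det)⁻¹).mul (h1.sub h2)
      simpa using h3
    · intro j
      rw [hw]
      have hbP : ∀ i, eval P (b i) = 0 := by
        intro i
        have h1 := congrFun hv (f i)
        rw [hb]
        simp only [map_sum, map_mul, eval_C]
        exact h1
      have hsP : ∀ i, eval P (s i) = 0 := by
        intro i
        rw [hs, Matrix.cramer_eq_adjugate_mulVec]
        simp only [Matrix.mulVec, dotProduct, map_sum, map_mul, hbP, mul_zero,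
          Finset.sum_const_zero]
      simp only [map_mul, map_sub, map_sum, eval_C]
      have h2 : ∑ i, eval P (if g i = j then s i else 0) = 0 := by
        apply Finset.sum_eq_zero
        intro i _
        split_ifs
        · exact hsP i
        · exact map_zero _
      rw [h2, sub_zero, ← mul_assoc, inv_mul_cancel₀ hP, one_mul]

end GP80

end S_H80_GP_Sp1

section S_H80_GP_Sp2

/-!
# Row Sp2 (MP_87ed0a_GP): a set-theoretic complete intersection of `c d` points is ideal-theoretic  (about 230 lines)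

`y s ∈ ℂ^3`, `s ∈ I`, nonzero, pairwise independent, `card I = c d`, exactly the common zeros of the forms `F, G` of degrees `c, d ≥ 1`.  Claim: every form vanishing at all `y s` is in `(F, G)`.
1. (ZERO) A form `q` of degree `n ≥ 1` in `ℂ[X_0,X_1,X_2]` has a nonzero zero on every 2-dimensional subspace: for a basis `v, w` the polynomial `q(v + T w)` has degree `≤ n` with top coefficient `q(w)`; if `q(w) ≠ 0` it has degree `n ≥ 1` and a root.  Hence `q` has infinitely
   many pairwise non proportional zeros (one on each plane `{X_1 = a X_0}`.. ; or: for `card I + 1` planes through a fixed vector which is not a zero).  If the fixed vector `e` is chosen with `q(e) ≠ 0` and the planes are `span (e, e_t)`, `t ∈ ℂ`, with pairwise intersections `ℂ e`, the zeros are pairwise non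
   proportional.
2. `F, G` are coprime (`IsRelPrime`): a common divisor `q` of `F` and `G` is a form (`F ≠ 0`, `G ≠ 0`: otherwise there would be infinitely many common zeros by 1.; `homog_of_mul`), if its degree is `≥ 1` its zeros are common zeros: infinitely many; contradiction.
3. Let `t ≥ c + d`, `t ≥ card I`.  `(F, G)_t` = image of `HS (t-c) × HS (t-d) → HS t`, `(A, B) ↦ A F + B G`, with kernel `{(r G, - r F)}`, `r ∈ HS (t-c-d)` (coprimality): dimension `nn(t-c) + nn(t-d) - nn(t-c-d) = nn t - c d`.  It is contained in the space `I_t` of the forms vanishing at the `y s`, of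
   dimension `≤ nn t - card I = nn t - c d` by `pts_indep`.  So `I_t = (F, G)_t`.
4. Choose a linear form `l` with `l(y s) ≠ 0` for all `s` (product of finitely many nonzero linear conditions on the coefficients of `l`).  Claim: `l f ∈ (F, G)` implies `f ∈ (F, G)`.  Let `l f = A F + B G`, `l = ∑ l_i X_i`, `l_i ≠ 0`, `ψ` the substitution
   `X_i ↦ - (1/l_i) ∑_{j ≠ i} l_j X_j` (identity on the others): `ψ h = 0` iff `l ∣ h` (`h - ψ h` is always divisible by `l`).  `ψ F, ψ G` are coprime: a common divisor `q` of them: both are nonzero (`ψ F = 0` would give `l ∣ F`, then a zero of `G` on `l = 0` (by 1., `d ≥ 1`) is a common zero on `l = 0`, contradiction) forms, so `q` is a form; if it has degree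
   `≥ 1` it has a zero `v` on the plane `l = 0` (1.); on this plane `ψ F (v) = F(v)`, so `v` is a common zero of `F, G` with `l(v) = 0`: contradiction.  From `ψA ψF + ψB ψG = 0`: `ψ A = r ψ G`, `ψ B = - r ψ F`; so `A = r G + l A'`, `B = - r F + l B'` (since `ψ(A - r G) = ψ(ψ A - r ψ G).. `: replace `r` by `ψ r`; `ψ ψ = ψ`),
   and `l f = l (A' F + B' G)`.
5. For a form `f` of any degree `t` vanishing at the points, `l^m f ∈ (F, G)` for large `m` by 3., hence `f ∈ (F, G)` by 4.
-/

namespace GP80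

open MvPolynomial

/-- homogeneity of evaluation -/
private theorem Sp2_eval_smul {q : MvPolynomial (Fin 3) ℂ} {n : ℕ} (hq : q.IsHomogeneous n) (s : ℂ)
    (v : Fin 3 → ℂ) : eval (fun i => s * v i) q = s ^ n * eval v q := by
  rw [eval_eq, eval_eq, Finset.mul_sum]
  refine Finset.sum_congr rfl fun m hm => ?_
  have h1 : m.degree = n := by
    have h := hq (mem_support_iff.1 hm)
    have h' := DFunLike.congr_fun (Finsupp.degree_eq_weight_one (σ := Fin 3) (R := ℕ)) m
    exact h'.trans h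
  have h2 : ∏ i ∈ m.support, (s * v i) ^ m i = s ^ n * ∏ i ∈ m.support, v i ^ m i := by
    simp_rw [mul_pow]
    rw [Finset.prod_mul_distrib, Finset.prod_pow_eq_pow_sum]
    rw [← h1, Finsupp.degree_apply]
  rw [h2]
  ring

private theorem Sp2_hev (q : MvPolynomial (Fin 3) ℂ) (u w : Fin 3 → ℂ) (s : ℂ) :
    (MvPolynomial.aeval (fun i => Polynomial.C (u i) +
        Polynomial.X * Polynomial.C (w i)) q : Polynomial ℂ).eval s =
      eval (fun i => u i + s * w i) q := by
  have h1 : ((Polynomial.aeval s : Polynomial ℂ →ₐ[ℂ] ℂ).comp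
      (MvPolynomial.aeval (fun i => Polynomial.C (u i) + Polynomial.X * Polynomial.C (w i)))) =
      (MvPolynomial.aeval (fun i => u i + s * w i) : MvPolynomial (Fin 3) ℂ →ₐ[ℂ] ℂ) := by
    apply MvPolynomial.algHom_ext
    intro i
    simp
    ring
  have h2 := congrArg (fun f => f q) h1
  simp only [AlgHom.comp_apply, Polynomial.coe_aeval_eq_eval] at h2
  exact h2

/-- a form of positive degree has a zero on the span of `a` and `b` -/
private theorem Sp2_zero {q : MvPolynomial (Fin 3) ℂ} {n : ℕ} (hq : q.IsHomogeneous n) (hn : 1 ≤ n)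
    (a b : Fin 3 → ℂ) :
    (∃ s : ℂ, eval (fun i => a i + s * b i) q = 0) ∨ eval b q = 0 := by
  by_cases h : ∃ s : ℂ, eval (fun i => a i + s * b i) q = 0
  · exact Or.inl h
  · right
    push Not at h
    set p : Polynomial ℂ := MvPolynomial.aeval (fun i => Polynomial.C (a i) +
        Polynomial.X * Polynomial.C (b i)) q with hp
    have h1 : ∀ s, p.eval s ≠ 0 := fun s => by
      rw [hp, Sp2_hev]
      exact h s
    have h2 : p.degree = 0 := by
      by_contra h3
      obtain ⟨s, hs⟩ := IsAlgClosed.exists_root p h3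
      exact h1 s hs
    obtain ⟨c0, hc0⟩ : ∃ c0, p = Polynomial.C c0 := ⟨_, Polynomial.eq_C_of_degree_eq_zero h2⟩
    have h3 : ∀ s : ℂ, eval (fun i => a i + s * b i) q = c0 := fun s => by
      rw [← Sp2_hev, ← hp, hc0, Polynomial.eval_C]
    set p2 : Polynomial ℂ := MvPolynomial.aeval (fun i => Polynomial.C (b i) +
        Polynomial.X * Polynomial.C (a i)) q with hp2
    have h4 : p2 = Polynomial.C c0 * Polynomial.X ^ n := by
      apply Polynomial.eq_of_infinite_eval_eq
      apply Set.Infinite.mono (s := {s : ℂ | s ≠ 0})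
      · intro s hs
        have hs' : s ≠ 0 := hs
        show p2.eval s = (Polynomial.C c0 * Polynomial.X ^ n).eval s
        rw [hp2, Sp2_hev]
        have h5 : (fun i => b i + s * a i) = fun i => s * (a i + s⁻¹ * b i) := by
          funext i
          field_simp
          ring
        rw [h5, Sp2_eval_smul hq, h3, Polynomial.eval_mul, Polynomial.eval_C, Polynomial.eval_pow,
          Polynomial.eval_X, mul_comm]
      · exact (Set.finite_singleton (0 : ℂ)).infinite_compl
    have h5 : p2.eval 0 = eval b q := by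
      rw [hp2, Sp2_hev]
      simp
    rw [← h5, h4]
    simp
    right
    omega

/-- a linear form not vanishing at the points, with nonzero coefficients -/
private theorem Sp2_lam {I : Type} [Fintype I] (y : I → Fin 3 → ℂ) (hy0 : ∀ s, y s ≠ 0) :
    ∃ l : Fin 3 → ℂ, (∀ i, l i ≠ 0) ∧ ∀ s, ∑ i, l i * y s i ≠ 0 := by
  classical
  set P : MvPolynomial (Fin 3) ℂ := (∏ i, X i) * ∏ s, ∑ i, X i * C (y s i) with hP
  have h0 : P ≠ 0 := by
    rw [hP]
    apply mul_ne_zero
    · exact Finset.prod_ne_zero_iff.2 fun i _ => X_ne_zero i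
    · apply Finset.prod_ne_zero_iff.2
      intro s _ hs
      apply hy0 s
      funext j
      have h1 := congrArg (eval (Pi.single j (1 : ℂ))) hs
      simpa [Pi.single_apply] using h1
  obtain ⟨l, hl⟩ : ∃ l : Fin 3 → ℂ, eval l P ≠ 0 := by
    by_contra h
    push Not at h
    exact h0 (MvPolynomial.funext fun l => by rw [h l, map_zero])
  rw [hP, map_mul, map_prod, map_prod] at hl
  refine ⟨l, fun i => ?_, fun s => ?_⟩
  · have := Finset.prod_ne_zero_iff.1 (left_ne_zero_of_mul hl) i (Finset.mem_univ i)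
    simpa using this
  · have := Finset.prod_ne_zero_iff.1 (right_ne_zero_of_mul hl) s (Finset.mem_univ s)
    simpa using this

/-- zeros of forms on the plane `l = 0` -/
private theorem Sp2_plane {q : MvPolynomial (Fin 3) ℂ} {n : ℕ} (hq : q.IsHomogeneous n) (hn : 1 ≤ n)
    (l : Fin 3 → ℂ) (hl : ∀ i, l i ≠ 0) :
    ∃ v : Fin 3 → ℂ, v ≠ 0 ∧ ∑ i, l i * v i = 0 ∧ eval v q = 0 := by
  rcases Sp2_zero hq hn ![l 1, -l 0, 0] ![0, l 2, -l 1] with ⟨s, hs⟩ | hs
  · refine ⟨_, ?_, ?_, hs⟩
    · intro h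
      have h1 := congrFun h 0
      simp at h1
      exact hl 1 h1
    · simp [Fin.sum_univ_three]
      ring
  · refine ⟨_, ?_, ?_, hs⟩
    · intro h
      have h1 := congrFun h 1
      simp at h1
      exact hl 2 h1
    · simp [Fin.sum_univ_three]
      ring

/-- forms without common zero on the plane `l = 0` are coprime -/
private theorem Sp2_cop {P Q : MvPolynomial (Fin 3) ℂ} {n : ℕ} (hP : P.IsHomogeneous n)
    (hP0 : P ≠ 0) (l : Fin 3 → ℂ) (hl : ∀ i, l i ≠ 0)
    (h : ∀ v : Fin 3 → ℂ, v ≠ 0 → ∑ i, l i * v i = 0 → eval v P = 0 → eval v Q ≠ 0) :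
    IsRelPrime P Q := by
  rintro q ⟨r, hr⟩ ⟨r', hr'⟩
  obtain ⟨a, b, -, ha, -⟩ := homog_of_mul (f := q) (g := r) (hr ▸ hP) (hr ▸ hP0)
  rcases Nat.eq_zero_or_pos a with h0 | h0
  · subst h0
    have h1 : q = C (coeff 0 q) := (totalDegree_eq_zero_iff_eq_C).1 (by
      have := ha.totalDegree_le
      omega)
    have h2 : coeff 0 q ≠ 0 := by
      intro h3
      rw [h3, C_0] at h1
      rw [h1, zero_mul] at hr
      exact hP0 hr
    rw [h1]
    exact (isUnit_iff_ne_zero.2 h2).map C
  · exfalso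
    obtain ⟨v, hv0, hlv, hqv⟩ := Sp2_plane ha h0 l hl
    refine h v hv0 hlv ?_ ?_
    · rw [hr, map_mul, hqv, zero_mul]
    · rw [hr', map_mul, hqv, zero_mul]

/-- the dimension count -/
private theorem Sp2_large {I : Type} [Fintype I] (y : I → Fin 3 → ℂ)
    (hy : ∀ s s', s ≠ s' → LinearIndependent ℂ ![y s, y s']) (hy0 : ∀ s, y s ≠ 0) {c d : ℕ}
    (hN : Fintype.card I = c * d) {F G : MvPolynomial (Fin 3) ℂ}
    (hF : F.IsHomogeneous c) (hG : G.IsHomogeneous d) (hF0 : F ≠ 0) (hG0 : G ≠ 0)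
    (hcop : IsRelPrime F G) (vF : ∀ s, eval (y s) F = 0) (vG : ∀ s, eval (y s) G = 0)
    (t : ℕ) (ht : c + d ≤ t) (ht' : Fintype.card I ≤ t) (f : MvPolynomial (Fin 3) ℂ)
    (hf : f.IsHomogeneous t) (hv : ∀ s, eval (y s) f = 0) : f ∈ Ideal.span {F, G} := by
  classical
  have h1 := finrank_mul F c hF hF0 t
  have h2 := finrank_mul G d hG hG0 t
  have h3 := finrank_mul (F * G) (c + d) (hF.mul hG) (mul_ne_zero hF0 hG0) t
  have h4 : mulSub F t ⊓ mulSub G t = mulSub (F * G) t := by
    ext x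
    constructor
    · rintro ⟨hx1, hx2⟩
      exact hcop.mul_dvd hx1 hx2
    · intro hx
      exact ⟨(dvd_mul_right F G).trans hx, (dvd_mul_left G F).trans hx⟩
  have h5 := Submodule.finrank_sup_add_finrank_inf_eq (mulSub F t) (mulSub G t)
  rw [h4, h1, h2, h3] at h5
  have h6 := pts_indep y Finset.univ (fun z _ z' _ h => hy z z' h) (fun z _ => hy0 z) t (by
    rw [Finset.card_univ]; exact ht')
  rw [Finset.card_univ, hN] at h6
  have h7 : mulSub F t ⊔ mulSub G t ≤ vanSub y Finset.univ t := by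
    apply sup_le
    · rintro x ⟨r, hr⟩ z _
      rw [hr, map_mul, vF, zero_mul]
    · rintro x ⟨r, hr⟩ z _
      rw [hr, map_mul, vG, zero_mul]
  have h8 : Module.finrank ℂ (vanSub y Finset.univ t) ≤
      Module.finrank ℂ (mulSub F t ⊔ mulSub G t : Submodule ℂ (HS ℂ t)) := by
    have e1 := two_nn t
    have e2 := two_nz ((t : ℤ) - c) (by omega)
    have e3 := two_nz ((t : ℤ) - d) (by omega)
    have e4 := two_nz ((t : ℤ) - (c + d : ℕ)) (by omega)
    have e5 : ((Module.finrank ℂ (mulSub F t ⊔ mulSub G t : Submodule ℂ (HS ℂ t)) : ℕ) : ℤ) +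
      nz ((t : ℤ) - (c + d : ℕ)) = nz ((t : ℤ) - c) + nz ((t : ℤ) - d) := by exact_mod_cast h5
    have e6 : ((Module.finrank ℂ (vanSub y Finset.univ t) : ℕ) : ℤ) + c * d ≤ nn t := by
      exact_mod_cast h6
    have e7 : 2 * (nn t : ℤ) = (t + 2) * (t + 1) := by exact_mod_cast e1
    push_cast at e4 e5
    have e8 : 2 * ((Module.finrank ℂ (mulSub F t ⊔ mulSub G t : Submodule ℂ (HS ℂ t)) : ℕ) : ℤ) =
        2 * (nn t : ℤ) - 2 * (c * d) := by
      linear_combination 2 * e5 + e2 + e3 - e4 - e7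
    have e9 : ((Module.finrank ℂ (vanSub y Finset.univ t) : ℕ) : ℤ) ≤
      ((Module.finrank ℂ (mulSub F t ⊔ mulSub G t : Submodule ℂ (HS ℂ t)) : ℕ) : ℤ) := by
      linarith
    exact_mod_cast e9
  have h9 := Submodule.eq_of_le_of_finrank_le h7 h8
  have h10 : HS.mk f hf ∈ mulSub F t ⊔ mulSub G t := by
    rw [h9]
    intro z _
    exact hv z
  obtain ⟨x, ⟨r, hr⟩, x', ⟨r', hr'⟩, hxx⟩ := Submodule.mem_sup.1 h10
  have h11 : f = r * F + r' * G := by
    have := congrArg HS.val hxx
    rw [HS.val_add, HS.val_mk, hr, hr'] at this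
    rw [← this]
    ring
  rw [h11]
  exact Ideal.mem_span_pair.2 ⟨r, r', rfl⟩

/-- the linear form -/
private noncomputable def Sp2_L (l : Fin 3 → ℂ) : MvPolynomial (Fin 3) ℂ := ∑ i, C (l i) * X i

private theorem Sp2_L_eval (l v : Fin 3 → ℂ) : eval v (Sp2_L l) = ∑ i, l i * v i := by
  simp [Sp2_L]

private theorem Sp2_L_hom (l : Fin 3 → ℂ) : (Sp2_L l).IsHomogeneous 1 := by
  apply IsHomogeneous.sum
  intro i _
  have h := (isHomogeneous_C (Fin 3) (l i)).mul (isHomogeneous_X ℂ i)
  rwa [zero_add] at h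

private noncomputable def Sp2_psi (l e : Fin 3 → ℂ) : MvPolynomial (Fin 3) ℂ →ₐ[ℂ] MvPolynomial (Fin 3) ℂ :=
  aeval (fun i => X i - C (e i) * Sp2_L l)

private theorem Sp2_psi_hom (l e : Fin 3 → ℂ) {h : MvPolynomial (Fin 3) ℂ} {n : ℕ}
    (hh : h.IsHomogeneous n) : (Sp2_psi l e h).IsHomogeneous n := by
  have h1 := hh.aeval (fun i => X i - C (e i) * Sp2_L l) (n := 1) (fun i => by
    apply (isHomogeneous_X ℂ i).sub
    have h := (isHomogeneous_C (Fin 3) (e i)).mul (Sp2_L_hom l)
    rwa [zero_add] at h)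
  rwa [one_mul] at h1

private theorem Sp2_psi_L (l e : Fin 3 → ℂ) (he : ∑ i, l i * e i = 1) : Sp2_psi l e (Sp2_L l) = 0 := by
  have h1 : Sp2_psi l e (Sp2_L l) = Sp2_L l - C (∑ i, l i * e i) * Sp2_L l := by
    conv_lhs => rw [Sp2_L]
    rw [map_sum]
    simp only [map_mul, Sp2_psi, aeval_C, aeval_X, algebraMap_eq]
    simp only [Fin.sum_univ_three, map_add, map_mul]
    have : Sp2_L l = C (l 0) * X 0 + C (l 1) * X 1 + C (l 2) * X 2 := by
      rw [Sp2_L, Fin.sum_univ_three]
    rw [this]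
    ring
  rw [h1, he, C_1, one_mul, sub_self]

private theorem Sp2_psi_sub (l e : Fin 3 → ℂ) (h : MvPolynomial (Fin 3) ℂ) :
    Sp2_L l ∣ h - Sp2_psi l e h := by
  induction h using MvPolynomial.induction_on with
  | C a => simp [Sp2_psi]
  | add p q hp hq =>
    rw [map_add]
    have : p + q - (Sp2_psi l e p + Sp2_psi l e q) = (p - Sp2_psi l e p) + (q - Sp2_psi l e q) := by ring
    rw [this]
    exact dvd_add hp hq
  | mul_X p i hp =>
    rw [map_mul]
    have h1 : Sp2_psi l e (X i) = X i - C (e i) * Sp2_L l := by simp [Sp2_psi]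
    rw [h1]
    have : p * X i - Sp2_psi l e p * (X i - C (e i) * Sp2_L l) =
      (p - Sp2_psi l e p) * X i + Sp2_L l * (Sp2_psi l e p * C (e i)) := by ring
    rw [this]
    exact dvd_add (hp.mul_right _) (dvd_mul_right _ _)

private theorem Sp2_psi_psi (l e : Fin 3 → ℂ) (he : ∑ i, l i * e i = 1) (h : MvPolynomial (Fin 3) ℂ) :
    Sp2_psi l e (Sp2_psi l e h) = Sp2_psi l e h := by
  obtain ⟨r, hr⟩ := Sp2_psi_sub l e h
  have h1 : Sp2_psi l e h = h - Sp2_L l * r := by rw [← hr]; ring
  conv_lhs => rw [h1]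
  rw [map_sub, map_mul, Sp2_psi_L l e he, zero_mul, sub_zero]

private theorem Sp2_psi_zero (l e : Fin 3 → ℂ) {h : MvPolynomial (Fin 3) ℂ}
    (hh : Sp2_psi l e h = 0) : Sp2_L l ∣ h := by
  have h1 := Sp2_psi_sub l e h
  rwa [hh, sub_zero] at h1

private theorem Sp2_psi_eval (l e : Fin 3 → ℂ) (h : MvPolynomial (Fin 3) ℂ) (v : Fin 3 → ℂ)
    (hv : ∑ i, l i * v i = 0) : eval v (Sp2_psi l e h) = eval v h := by
  obtain ⟨r, hr⟩ := Sp2_psi_sub l e h
  have h1 := congrArg (eval v) hr
  rw [map_sub, map_mul, Sp2_L_eval, hv, zero_mul] at h1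
  exact (sub_eq_zero.1 h1).symm

/-- cancelling the linear form -/
private theorem Sp2_cancel (l e : Fin 3 → ℂ) (he : ∑ i, l i * e i = 1) {F G f : MvPolynomial (Fin 3) ℂ}
    (hcop : IsRelPrime (Sp2_psi l e F) (Sp2_psi l e G)) (hG0 : Sp2_psi l e G ≠ 0)
    (hL0 : Sp2_L l ≠ 0) (h : Sp2_L l * f ∈ Ideal.span {F, G}) : f ∈ Ideal.span {F, G} := by
  obtain ⟨A, B, hAB⟩ := Ideal.mem_span_pair.1 h
  have h1 : Sp2_psi l e A * Sp2_psi l e F + Sp2_psi l e B * Sp2_psi l e G = 0 := by
    rw [← map_mul, ← map_mul, ← map_add, hAB, map_mul, Sp2_psi_L l e he, zero_mul]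
  have h2 : Sp2_psi l e G ∣ Sp2_psi l e A := by
    apply hcop.symm.dvd_of_dvd_mul_right
    exact ⟨-Sp2_psi l e B, by linear_combination h1⟩
  obtain ⟨r, hr⟩ := h2
  have h3 : Sp2_psi l e B = -(r * Sp2_psi l e F) := by
    apply mul_right_cancel₀ hG0
    rw [hr] at h1
    linear_combination h1
  have h4 : Sp2_L l ∣ A - r * G := by
    apply Sp2_psi_zero l e
    have h5 := Sp2_psi_psi l e he A
    rw [hr, map_mul, Sp2_psi_psi l e he] at h5
    rw [map_sub, map_mul, hr]
    linear_combination -h5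
  have h4' : Sp2_L l ∣ B + r * F := by
    apply Sp2_psi_zero l e
    have h5 := Sp2_psi_psi l e he B
    rw [h3, map_neg, map_mul, Sp2_psi_psi l e he] at h5
    rw [map_add, map_mul, h3]
    linear_combination -h5
  obtain ⟨A', hA'⟩ := h4
  obtain ⟨B', hB'⟩ := h4'
  refine Ideal.mem_span_pair.2 ⟨A', B', ?_⟩
  apply mul_left_cancel₀ hL0
  rw [← hAB]
  linear_combination -F * hA' - G * hB'

theorem ci_ideal {I : Type} [Fintype I] (y : I → Fin 3 → ℂ)
    (hy : ∀ s s', s ≠ s' → LinearIndependent ℂ ![y s, y s']) (hy0 : ∀ s, y s ≠ 0) {c d : ℕ}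
    (hc : 1 ≤ c) (hd : 1 ≤ d) (hN : Fintype.card I = c * d) {F G : MvPolynomial (Fin 3) ℂ}
    (hF : F.IsHomogeneous c) (hG : G.IsHomogeneous d)
    (hv : ∀ v : Fin 3 → ℂ, v ≠ 0 → ((eval v F = 0 ∧ eval v G = 0) ↔ ∃ s, ∃ r : ℂ, v = r • y s)) :
    ∀ t f, MvPolynomial.IsHomogeneous f t → (∀ s, eval (y s) f = 0) → f ∈ Ideal.span {F, G} := by
  classical
  obtain ⟨l, hl0, hly⟩ := Sp2_lam y hy0
  have hno : ∀ v : Fin 3 → ℂ, v ≠ 0 → ∑ i, l i * v i = 0 → eval v F = 0 → eval v G ≠ 0 := by
    intro v hv0 hlv h1 h2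
    obtain ⟨s, r, hr⟩ := (hv v hv0).1 ⟨h1, h2⟩
    have h3 : r * ∑ i, l i * y s i = 0 := by
      rw [← hlv, hr, Finset.mul_sum]
      refine Finset.sum_congr rfl fun i _ => ?_
      rw [Pi.smul_apply, smul_eq_mul]
      ring
    rcases mul_eq_zero.1 h3 with h4 | h4
    · apply hv0
      rw [hr, h4, zero_smul]
    · exact hly s h4
  set e : Fin 3 → ℂ := ![(l 0)⁻¹, 0, 0] with he'
  have he : ∑ i, l i * e i = 1 := by
    rw [Fin.sum_univ_three]
    simp [he', hl0 0]
  have hL0 : Sp2_L l ≠ 0 := by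
    intro h
    have h1 := Sp2_L_eval l e
    rw [h, map_zero, he] at h1
    exact zero_ne_one h1
  have hF0 : F ≠ 0 := by
    intro h
    obtain ⟨v, h1, h2, h3⟩ := Sp2_plane hG hd l hl0
    exact hno v h1 h2 (by rw [h, map_zero]) h3
  have hG0 : G ≠ 0 := by
    intro h
    obtain ⟨v, h1, h2, h3⟩ := Sp2_plane hF hc l hl0
    exact hno v h1 h2 h3 (by rw [h, map_zero])
  have hpF0 : Sp2_psi l e F ≠ 0 := by
    intro h
    obtain ⟨v, h1, h2, h3⟩ := Sp2_plane hG hd l hl0
    exact hno v h1 h2 (by rw [← Sp2_psi_eval l e F v h2, h, map_zero]) h3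
  have hpG0 : Sp2_psi l e G ≠ 0 := by
    intro h
    obtain ⟨v, h1, h2, h3⟩ := Sp2_plane hF hc l hl0
    exact hno v h1 h2 h3 (by rw [← Sp2_psi_eval l e G v h2, h, map_zero])
  have hcop : IsRelPrime F G := Sp2_cop hF hF0 l hl0 hno
  have hpcop : IsRelPrime (Sp2_psi l e F) (Sp2_psi l e G) := by
    refine Sp2_cop (Sp2_psi_hom l e hF) hpF0 l hl0 fun v h1 h2 h3 h4 => ?_
    rw [Sp2_psi_eval l e _ v h2] at h3 h4
    exact hno v h1 h2 h3 h4
  have vFG : ∀ s, eval (y s) F = 0 ∧ eval (y s) G = 0 := fun s =>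
    (hv (y s) (hy0 s)).2 ⟨s, 1, (one_smul ℂ _).symm⟩
  intro t f hf hfv
  have key : ∀ m : ℕ, Sp2_L l ^ m * f ∈ Ideal.span {F, G} → f ∈ Ideal.span {F, G} := by
    intro m
    induction m with
    | zero => intro h; rwa [pow_zero, one_mul] at h
    | succ m ih =>
      intro h
      apply ih
      apply Sp2_cancel l e he hpcop hpG0 hL0
      rwa [← mul_assoc, ← pow_succ']
  apply key (c + d + Fintype.card I)
  refine Sp2_large y hy hy0 hN hF hG hF0 hG0 hcop (fun s => (vFG s).1) (fun s => (vFG s).2)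
    (c + d + Fintype.card I + t) (by omega) (by omega) _ ?_ ?_
  · have h1 := ((Sp2_L_hom l).pow (c + d + Fintype.card I)).mul hf
    rwa [one_mul] at h1
  · intro s
    rw [map_mul, hfv, mul_zero]

end GP80

end S_H80_GP_Sp2
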