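import Mathlib
import Pool.Agent.H3.GP.Defs
import Pool.Agent.H80.M87.G02
import Pool.Agent.H80.M87.G03
import Pool.Agent.H80.M87.G07
import Pool.Agent.H80.M87.G08
import Pool.Agent.H80.M87.G09
import Pool.Agent.H80.M87.G13

/-! MP_87ed0a_ag: this file joins several modules to save build time. -/

section S_H80_GP_Efc

/-!
# Row Efc (MP_87ed0a_GP): the degree of `F` in `P`  (about 200 lines)

`efc`: for a `Glob` with `c < d`: `f = c`, or `d = c + 1`, `c < f` and `G` may be replaced by a form of `P`-degree `f`.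
Proof.  `F ≠ 0` (`prim`: `inP q ∣ 0`; take the prime `X 0`).  `c ≤ f` by `f_ge`.  Let `c < f`.  Put `H2 := X (inl 0) * DG F - C (f - c) * X (inr 0) * F`.
`x`-homogeneous of degree `c + 1` (`DG_wx`), `P`-homogeneous of degree `f` (`DG_wP`, `f ≥ 1`).  `EE H2 = P_0 EE (DG F) - (f - c)(P_0 F + x_0 EE F) = P_0 (f - c) F - (f - c) P_0 F = 0` (`EE_DG`, `EE F = 0`, `EE (X (inl 0)) = 0`,
`EE (X (inr 0)) = X (inl 0)`).  `atz (z s) H2 = 0` (`dz_atz`: `atz (DG F) = dz (atz F) = 0`).
By `gen`: `r ≠ 0`, `inP r * H2 = A F + B G`.  Take the `x`-homogeneous components of degree `c + 1`: `A` may be taken `x`-homogeneous of degree 1, `B` of `x`-degree `c + 1 - d` (`B = 0` if `c + 1 < d`).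
(Components: `weightedHomogeneousComponent wx (c+1)`; product of a homogeneous `F` with `A`: the component of degree `c+1` of `A * F` is (component of degree 1 of `A`) `* F`.)
Claim: `B ≠ 0`.  If `B = 0`: `inP r * X (inl 0) * DG F = (A + C (f-c) * X (inr 0) * inP r) F`.  So `inP (r * X 0) * DG F = A' F`.  Since no `inP q`, `q` prime, divides `F` (`prim`) and `inP q` is prime (`inP_prime`), by induction on the number of
prime factors of `r * X 0` (UFD induction: `UniqueFactorizationMonoid.induction_on_prime`), `inP (r * X 0) ∣ A'`: `A' = inP (r X 0) M`, `DG F = M F`.  `F ≠ 0` is `wP`-homogeneous of degree `f`, `DG F` of degree `f - 1 < f`: if `M ≠ 0` the product `M F` has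
all its monomials of `P`-degree `≥ f` but is nonzero, homogeneous of degree `f - 1`: contradiction.  So `DG F = 0` and by `EE_DG`: `(f - c) F = 0`, contradiction with `f > c`, `F ≠ 0`.
So `B ≠ 0`, hence `d ≤ c + 1`, `d = c + 1`, `B` has `x`-degree 0: `B = inP b` (a polynomial of `x`-degree 0 comes from `RR`), `b ≠ 0`.
`Glob z c d f f F H2`: the only nontrivial field is `gen`: if `inP r' * H = A1 F + B1 G` then `inP (b r') H = (b A1) F + B1 (inP b G) = (b A1) F + B1 (inP r H2 - A F)`.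
-/

namespace GP80

open MvPolynomial

theorem Efc_comp {σ : Type} {R : Type} [CommRing R] (w : σ → ℕ) {F : MvPolynomial σ R} {c : ℕ}
    (hF : IsWeightedHomogeneous w F c) (t : ℕ) (A : MvPolynomial σ R) :
    weightedHomogeneousComponent w t (A * F) =
      (if c ≤ t then weightedHomogeneousComponent w (t - c) A else 0) * F := by
  induction A using MvPolynomial.induction_on' with
  | monomial u a =>
    have h0 : IsWeightedHomogeneous w (monomial u a) (Finsupp.weight w u) :=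
      isWeightedHomogeneous_monomial w u a rfl
    have h1 : IsWeightedHomogeneous w (monomial u a * F) (Finsupp.weight w u + c) := h0.mul hF
    rw [weightedHomogeneousComponent_of_mem h1]
    by_cases hc : c ≤ t
    · rw [if_pos hc, weightedHomogeneousComponent_of_mem h0]
      by_cases h2 : t = Finsupp.weight w u + c
      · rw [if_pos h2, if_pos (by omega)]
      · rw [if_neg h2, if_neg (by omega), zero_mul]
    · rw [if_neg hc, if_neg (by omega), zero_mul]
  | add p q hp hq =>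
    rw [add_mul, map_add, hp, hq, map_add]
    split_ifs <;> ring

theorem Efc_deg0 {B : BB} (hB : IsWeightedHomogeneous wx B 0) : ∃ b : RR, inP b = B := by
  have h := exists_rename_eq_of_vars_subset_range B (Sum.inl : Fin 4 → Fin 4 ⊕ Fin 4)
    Sum.inl_injective ?_
  · obtain ⟨q, hq⟩ := h
    exact ⟨q, hq⟩
  · intro v hv
    rcases v with i | i
    · exact ⟨i, rfl⟩
    · exfalso
      rw [Finset.mem_coe, mem_vars_iff_mem_support] at hv
      obtain ⟨m, hm, hi⟩ := hv
      have h1 := hB (mem_support_iff.1 hm)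
      have h2 := Finsupp.le_weight wx (s := Sum.inr i) (by show (1 : ℕ) ≠ 0; norm_num) m
      rw [h1] at h2
      exact (Finsupp.mem_support_iff.1 hi) (Nat.le_zero.1 h2)

theorem Efc_ufd {F : BB} (hprim : ∀ q : RR, Prime q → ¬ inP q ∣ F) (R0 : RR) :
    R0 ≠ 0 → ∀ A D : BB, inP R0 * D = A * F → inP R0 ∣ A := by
  induction R0 using UniqueFactorizationMonoid.induction_on_prime with
  | h₁ => exact fun h => absurd rfl h
  | h₂ u hu =>
    intro _ A D _
    exact (hu.map inP).dvd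
  | h₃ a p ha hp ih =>
    intro _ A D h
    have h1 : inP p ∣ A * F := ⟨inP a * D, by rw [← h, map_mul, mul_assoc]⟩
    rcases (inP_prime hp).dvd_or_dvd h1 with h2 | h2
    · obtain ⟨A', rfl⟩ := h2
      have h3 : inP a * D = A' * F := by
        refine mul_left_cancel₀ (inP_prime hp).ne_zero ?_
        rw [map_mul] at h
        linear_combination h
      rw [map_mul]
      exact mul_dvd_mul_left _ (ih ha A' D h3)
    · exact absurd h2 (hprim p hp)

theorem Efc_cast_wh (w : Fin 4 ⊕ Fin 4 → ℕ) (n : ℕ) : IsWeightedHomogeneous w ((n : ℕ) : BB) 0 := by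
  have h : ((n : ℕ) : BB) = C ((n : ℕ) : ℂ) := by simp
  rw [h]
  exact isWeightedHomogeneous_C w _

theorem Efc_inP_X (i : Fin 4) : inP (X i) = X (Sum.inl i) := by
  show rename (Sum.inl : Fin 4 → Fin 4 ⊕ Fin 4) (X i) = _
  rw [rename_X]

theorem Efc_EE_inl (i : Fin 4) : EE (X (Sum.inl i)) = 0 := by
  unfold EE
  rw [mkDerivation_X]
  rfl

theorem Efc_EE_inr (i : Fin 4) : EE (X (Sum.inr i)) = X (Sum.inl i) := by
  unfold EE
  rw [mkDerivation_X]
  rfl

theorem efc {I : Type} [Fintype I] (z : I → Fin 4 → ℂ) {c d f f' : ℕ} {F G : BB}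
    (h : Glob z c d f f' F G) (hcd : c < d) :
    f = c ∨ (d = c + 1 ∧ c < f ∧ ∃ G' : BB, Glob z c d f f F G') := by
  classical
  have hF0 : F ≠ 0 := by
    intro h0
    exact h.prim hcd (X 0) (X_prime (R := ℂ)) (by rw [h0]; exact dvd_zero _)
  have hcf := f_ge h.Fx h.FP h.FE hF0
  rcases hcf.eq_or_lt with hfc | hfc
  · exact Or.inl hfc.symm
  right
  obtain ⟨f1, rfl⟩ : ∃ f1, f = f1 + 1 := ⟨f - 1, by omega⟩
  obtain ⟨e, he⟩ : ∃ e, f1 + 1 = c + e := ⟨f1 + 1 - c, by omega⟩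
  have he0 : e ≠ 0 := by omega
  have hEDG : EE (DG F) = (e : BB) * F := by
    have h1 := EE_DG h.Fx h.FP
    rw [h.FE, map_zero, zero_add, he] at h1
    push_cast at h1
    linear_combination h1
  obtain ⟨H2, hH2⟩ : ∃ H2 : BB, H2 = X (Sum.inl 0) * DG F - (e : BB) * X (Sum.inr 0) * F :=
    ⟨_, rfl⟩
  have h2x : IsWeightedHomogeneous wx H2 (c + 1) := by
    rw [hH2]
    have h1 : IsWeightedHomogeneous wx (X (Sum.inl 0) * DG F) (0 + (c + 1)) :=
      (isWeightedHomogeneous_X ℂ wx (Sum.inl 0)).mul (DG_wx h.Fx)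
    have h2 : IsWeightedHomogeneous wx ((e : BB) * X (Sum.inr 0) * F) (0 + 1 + c) :=
      ((Efc_cast_wh wx e).mul (isWeightedHomogeneous_X ℂ wx (Sum.inr 0))).mul h.Fx
    rw [show 0 + (c + 1) = c + 1 by omega] at h1
    rw [show 0 + 1 + c = c + 1 by omega] at h2
    exact h1.sub h2
  have h2P : IsWeightedHomogeneous wP H2 (f1 + 1) := by
    rw [hH2]
    have h1 : IsWeightedHomogeneous wP (X (Sum.inl 0) * DG F) (1 + f1) :=
      (isWeightedHomogeneous_X ℂ wP (Sum.inl 0)).mul (DG_wP h.FP)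
    have h2 : IsWeightedHomogeneous wP ((e : BB) * X (Sum.inr 0) * F) (0 + 0 + (f1 + 1)) :=
      ((Efc_cast_wh wP e).mul (isWeightedHomogeneous_X ℂ wP (Sum.inr 0))).mul h.FP
    rw [show 1 + f1 = f1 + 1 by omega] at h1
    rw [show 0 + 0 + (f1 + 1) = f1 + 1 by omega] at h2
    exact h1.sub h2
  have h2E : EE H2 = 0 := by
    rw [hH2, map_sub, Derivation.leibniz, Derivation.leibniz, Derivation.leibniz,
      Derivation.map_natCast, Efc_EE_inl, Efc_EE_inr, hEDG, h.FE]
    simp only [smul_eq_mul]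
    ring
  have h2z : ∀ s, atz (z s) H2 = 0 := by
    intro s
    rw [hH2, map_sub, map_mul, map_mul, ← dz_atz, h.Fz s, map_zero, mul_zero, mul_zero, sub_zero]
  obtain ⟨r, hr, hrI⟩ := h.gen (c + 1) H2 h2x h2E h2z
  rw [Ideal.mem_span_pair] at hrI
  obtain ⟨A₀, B₀, hAB₀⟩ := hrI
  obtain ⟨A, hA⟩ : ∃ A, A = weightedHomogeneousComponent wx (c + 1 - c) A₀ := ⟨_, rfl⟩
  obtain ⟨B, hB⟩ : ∃ B, B = (if d ≤ c + 1 then weightedHomogeneousComponent wx (c + 1 - d) B₀
    else 0) := ⟨_, rfl⟩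
  have hAB : A * F + B * G = inP r * H2 := by
    have h1 := congrArg (weightedHomogeneousComponent wx (c + 1)) hAB₀
    rw [map_add, Efc_comp wx h.Fx, Efc_comp wx h.Gx, if_pos (Nat.le_succ c), ← hA, ← hB] at h1
    rw [h1]
    refine weightedHomogeneousComponent_eq_self ?_
    have h2 := (inP_wx r).mul h2x
    rwa [zero_add] at h2
  have hB0 : B ≠ 0 := by
    intro hB0
    rw [hB0, zero_mul, add_zero] at hAB
    have hR0 : r * X 0 ≠ 0 := mul_ne_zero hr (X_ne_zero 0)
    have h1 : inP (r * X 0) * DG F = (A + (e : BB) * X (Sum.inr 0) * inP r) * F := by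
      rw [map_mul, Efc_inP_X, add_mul, hAB, hH2]
      ring
    obtain ⟨M, hM⟩ := Efc_ufd (h.prim hcd) _ hR0 _ _ h1
    have h3 : inP (r * X 0) ≠ 0 := by
      intro h4
      exact hR0 (inP_injective (by rw [h4, map_zero]))
    have h4 : DG F = M * F := by
      refine mul_left_cancel₀ h3 ?_
      rw [h1, hM]
      ring
    have h5 : DG F = 0 := by
      have h6 := weightedHomogeneousComponent_eq_self (DG_wP h.FP)
      rw [← h6]
      rw [h4, Efc_comp wP h.FP, if_neg (by omega), zero_mul]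
    rw [h5, map_zero] at hEDG
    have h7 : ((e : ℕ) : BB) ≠ 0 := Nat.cast_ne_zero.2 he0
    exact mul_ne_zero h7 hF0 hEDG.symm
  have hdc : d ≤ c + 1 := by
    by_contra h1
    rw [if_neg h1] at hB
    exact hB0 hB
  have hd : d = c + 1 := by omega
  rw [if_pos hdc] at hB
  have hBh : IsWeightedHomogeneous wx B 0 := by
    rw [hB]
    have h1 := weightedHomogeneousComponent_isWeightedHomogeneous (w := wx) (c + 1 - d) B₀
    rwa [show c + 1 - d = 0 by omega] at h1 ⊢
  obtain ⟨b, hb⟩ := Efc_deg0 hBh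
  have hb0 : b ≠ 0 := by
    intro h1
    rw [h1, map_zero] at hb
    exact hB0 hb.symm
  refine ⟨hd, hfc, H2, ?_⟩
  refine ⟨h.c2, h.cd, h.N, h.Fx, h.FP, by rw [hd]; exact h2x, h2P, h.FE, h2E, h.Fz, h2z, ?_,
    h.prim⟩
  intro t H hH hE hz
  obtain ⟨r', hr', hI⟩ := h.gen t H hH hE hz
  rw [Ideal.mem_span_pair] at hI
  obtain ⟨A1, B1, hAB1⟩ := hI
  refine ⟨b * r', mul_ne_zero hb0 hr', ?_⟩
  rw [Ideal.mem_span_pair]
  refine ⟨inP b * A1 - B1 * A, B1 * inP r, ?_⟩
  rw [map_mul, hb]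
  linear_combination B * hAB1 - B1 * hAB

end GP80

end S_H80_GP_Efc

section S_H80_GP_Str

/-!
# Row Str (MP_87ed0a_GP): the inequality (star) 2.3  (about 180 lines)

`t = c + d - 2`, `N = card I = c d`, `nn (d-2) = d.choose 2`, `nn (c-2) = c.choose 2`.
Let `e, b` be as in `exists_beta`, `Δ2 := det (atz (z s) (b r)) ≠ 0`, `Δ1 := bigDet e (chartH RR 0 F) ..` (nonzero: take the prime `X 1`, `¬ X 1 ∣ X 0`, and `dt0`).
`Δ1` is homogeneous of degree `f nn(d-2) + f' nn(c-2) + t N`, `Δ2` of degree `t N`.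
Let `T'` be a set of primes extending `T` (`exists_primes`) which covers `Δ1 * Δ2 * X 0` (so also the `J s`, covered by `T`).  All `π ∈ T'` are homogeneous (`homog_of_dvd`), put `dl' π` = degree
(`= dl π` on `T`: a nonzero polynomial has one degree).
For `π ∈ T'`, `π ∉ T`: `π` divides no `J s` (else it would be associated to an element of `T`, hence equal), so by `mult` `om π s = 0 = jj π`, then `sum` and `pos` (`lam i * (c + d - lam i) ≥ 1`) give `n π = 0`.
For every `π ∈ T'`: `mult π Δ1 ≤ mult π Δ2 + τ π + jj π * c.choose 2 + w * mult π (X 0)`, where `τ π = ∑_{i ∈ Icc 1 (n π)} (lam π i).choose 2`: if `π ∤ X 0` this is `dt0`; if `π ∣ X 0` (`mult π (X 0) = 1`, `π ~ X 0`, `π ∤ X 1`) it is `dt1` and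
`chart_change`: `mult π (X 1^w Δ1) = mult π Δ1`, `mult π (X 0^w Δ1') = w + mult π Δ1'`.
Multiply by `dl' π`, sum over `T'` and use `sum_deg` (for `Δ1`) and `sum_deg` for `Δ2` and `X 0` (degrees `t N` and `1`):
`f nn(d-2) + f' nn(c-2) + t N ≤ t N + ∑_{T'} dl' π (τ π + jj π * c.choose 2) + w`, and only `π ∈ T` contribute.
-/

namespace GP80

open MvPolynomial

theorem Str_X0_not (i : Fin 4) (hi : i ≠ 0) : ¬ (X i : RR) ∣ X 0 := by
  rw [X_dvd_X]
  push Not
  exact fun h => hi h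

theorem Str_mult_dvd {π g : RR} (hπ : Prime π) (hg : g ≠ 0) (h : π ∣ g) : 1 ≤ multiplicity π g := by
  by_contra h1
  have h2 : multiplicity π g = 0 := by omega
  exact (mult_zero_iff hπ hg).1 h2 h

theorem star_ineq {I : Type} [Fintype I] [DecidableEq I] (z : I → Fin 4 → ℂ) (hz : Geom z)
    {c d f f' : ℕ} {F G : BB} (h : Glob z c d f f' F G) (J : I → RR) (om : RR → I → ℕ)
    (jj g n : RR → ℕ) (lam : RR → ℕ → ℕ) (ho : GlobOut z c d F G J om jj g n lam)
    (T : Finset RR) (hT : PSet T) (dl : RR → ℕ) (hdl : ∀ π ∈ T, π.IsHomogeneous (dl π))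
    (hcov : ∀ s q, Prime q → q ∣ J s → ∃ π ∈ T, Associated q π)
    {w : ℕ} (hw : w + c.choose 3 + d.choose 3 = (c + d).choose 3) :
    f * d.choose 2 + f' * c.choose 2 ≤
      w + ∑ π ∈ T, dl π * (∑ i ∈ Finset.Icc 1 (n π), (lam π i).choose 2 + jj π * c.choose 2) := by
  classical
  have hc2 := h.c2
  have hcd := h.cd
  have hd2 : 2 ≤ d := hc2.trans hcd
  obtain ⟨e, b, hbx, hbE, hbP, hΔ2⟩ := exists_beta z hz h
  obtain ⟨Δ2, hΔ2d⟩ : ∃ x : RR, x = Matrix.det (Matrix.of fun r s => atz (z s) (b r)) := ⟨_, rfl⟩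
  obtain ⟨Δ1, hΔ1d⟩ : ∃ x : RR, x = bigDet e (chartH RR 0 F) (chartH RR 0 G)
    (fun r => chartH RR 0 (b r)) := ⟨_, rfl⟩
  obtain ⟨Δ1', hΔ1'd⟩ : ∃ x : RR, x = bigDet e (chartH RR 1 F) (chartH RR 1 G)
    (fun r => chartH RR 1 (b r)) := ⟨_, rfl⟩
  have hX0 : (X 0 : RR) ≠ 0 := X_ne_zero 0
  have hX1 : (X 1 : RR) ≠ 0 := X_ne_zero 1
  have hX0p : Prime (X 0 : RR) := X_prime
  have hX1p : Prime (X 1 : RR) := X_prime
  have hΔ1 : Δ1 ≠ 0 := by
    have h1 := ho.dt0 (X 1) hX1p ⟨1, isHomogeneous_X _ _⟩ (Str_X0_not 1 (by decide)) e b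
      (fun r => ⟨hbx r, hbE r⟩) hΔ2
    rw [hΔ1d]
    exact h1.1
  have hΔ2' : Δ2 ≠ 0 := by
    rw [hΔ2d]
    exact hΔ2
  have hom1 : Δ1.IsHomogeneous (f * nn (d - 2) + f' * nn (c - 2) + (c + d - 2) * Fintype.card I) := by
    rw [hΔ1d]
    exact bigDet_homog e b h.FP h.GP hbP 0
  have hom2 : Δ2.IsHomogeneous ((c + d - 2) * Fintype.card I) := by
    rw [hΔ2d]
    exact det_atz_homog z b hbP
  have hne : Δ1 * Δ2 * X 0 ≠ 0 := mul_ne_zero (mul_ne_zero hΔ1 hΔ2') hX0
  obtain ⟨T', hTT, hT', hdiv, hcov'⟩ := exists_primes T hT hne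
  have hhomall : ∀ π ∈ T', ∃ δ, π.IsHomogeneous δ := by
    intro π hπ
    by_cases hπT : π ∈ T
    · exact ⟨_, hdl π hπT⟩
    · obtain ⟨δ, -, h1⟩ := homog_of_dvd ((hom1.mul hom2).mul (isHomogeneous_X _ 0)) hne
        (hdiv π hπ hπT)
      exact ⟨δ, h1⟩
  obtain ⟨dl', hdl'd⟩ : ∃ D : RR → ℕ, D = fun π => if π ∈ T then dl π else π.totalDegree := ⟨_, rfl⟩
  have hdlT : ∀ π ∈ T, dl' π = dl π := by
    intro π hπ
    rw [hdl'd]
    exact if_pos hπ
  have hdl' : ∀ π ∈ T', π.IsHomogeneous (dl' π) := by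
    intro π hπ
    by_cases hπT : π ∈ T
    · rw [hdlT π hπT]
      exact hdl π hπT
    · have h1 : dl' π = π.totalDegree := by
        rw [hdl'd]
        exact if_neg hπT
      obtain ⟨δ, hδ⟩ := hhomall π hπ
      rw [h1, hδ.totalDegree (hT'.1 π hπ).ne_zero]
      exact hδ
  have hI : 0 < Fintype.card I := by
    rw [h.N]
    positivity
  obtain ⟨s0⟩ : Nonempty I := Fintype.card_pos_iff.1 hI
  have hvan : ∀ π ∈ T', π ∉ T → jj π = 0 ∧ n π = 0 := by
    intro π hπ hπT
    have hp := ho.po π (hT'.1 π hπ) (hhomall π hπ)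
    have h0 : ∀ s, om π s + jj π = 0 := by
      intro s
      rw [← hp.mult s, mult_zero_iff (hT'.1 π hπ) (hp.ne s)]
      intro h1
      obtain ⟨π0, h2, h3⟩ := hcov s π (hT'.1 π hπ) h1
      have h4 := hT'.2 π hπ π0 (hTT h2) h3
      exact hπT (h4 ▸ h2)
    refine ⟨by have := h0 s0; omega, ?_⟩
    by_contra hn
    have h5 : ∑ s, om π s = 0 := Finset.sum_eq_zero fun s _ => by have := h0 s; omega
    have h6 := hp.sum
    rw [h5] at h6
    have h7 : lam π 1 * (c + d - lam π 1) ≤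
        ∑ i ∈ Finset.Icc 1 (n π), lam π i * (c + d - lam π i) :=
      Finset.single_le_sum (f := fun i => lam π i * (c + d - lam π i))
        (fun i _ => Nat.zero_le _) (Finset.mem_Icc.2 ⟨le_refl 1, by omega⟩)
    have h8 := hp.pos 1 le_rfl (by omega)
    have h9 := hp.up 1 le_rfl
    have h10 : 0 < lam π 1 * (c + d - lam π 1) := Nat.mul_pos (by omega) (by omega)
    omega
  obtain ⟨τ, hτ⟩ : ∃ τ : RR → ℕ, τ = fun π =>
    ∑ i ∈ Finset.Icc 1 (n π), (lam π i).choose 2 + jj π * c.choose 2 := ⟨_, rfl⟩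
  have hloc : ∀ π ∈ T', multiplicity π Δ1 ≤
      multiplicity π Δ2 + τ π + w * multiplicity π (X 0 : RR) := by
    intro π hπ
    have hpr := hT'.1 π hπ
    by_cases hdvd : π ∣ X 0
    · have h1 := ho.dt1 π hpr (hhomall π hπ) hdvd e b (fun r => ⟨hbx r, hbE r⟩) hΔ2
      rw [← hΔ1'd, ← hΔ2d] at h1
      obtain ⟨h2, h3⟩ := h1
      have h4 := chart_change hc2 hd2 e b h.Fx h.Gx hbx h.FE h.GE hbE hw
      rw [← hΔ1d, ← hΔ1'd] at h4
      have h5 : multiplicity π (X 1 ^ w * Δ1) = multiplicity π (X 0 ^ w * Δ1') :=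
        multiplicity_eq_of_associated_right h4
      have h6 : ¬ π ∣ X 1 := by
        intro h7
        have h8 : Associated π (X 0 : RR) := hpr.associated_of_dvd hX0p hdvd
        have h9 : (X 0 : RR) ∣ X 1 := h8.symm.dvd.trans h7
        rw [X_dvd_X] at h9
        rcases h9 with h9
        exact absurd h9 (by decide)
      rw [mult_mul hpr (pow_ne_zero _ hX1) hΔ1, mult_mul hpr (pow_ne_zero _ hX0) h2,
        (mult_zero_iff hpr (pow_ne_zero _ hX1)).2 (fun h7 => h6 (hpr.dvd_of_dvd_pow h7)),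
        (FiniteMultiplicity.of_prime_left hpr hX0).multiplicity_pow hpr, zero_add] at h5
      rw [h5, hτ]
      have h10 : multiplicity π Δ1' ≤ multiplicity π Δ2 +
        (∑ i ∈ Finset.Icc 1 (n π), (lam π i).choose 2 + jj π * c.choose 2) := by
        rw [← add_assoc]
        exact h3
      show w * multiplicity π (X 0 : RR) + multiplicity π Δ1' ≤ multiplicity π Δ2 +
        (∑ i ∈ Finset.Icc 1 (n π), (lam π i).choose 2 + jj π * c.choose 2) +
          w * multiplicity π (X 0 : RR)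
      omega
    · have h1 := ho.dt0 π hpr (hhomall π hπ) hdvd e b (fun r => ⟨hbx r, hbE r⟩) hΔ2
      rw [← hΔ1d, ← hΔ2d] at h1
      obtain ⟨-, h3⟩ := h1
      rw [hτ]
      have h10 : multiplicity π Δ1 ≤ multiplicity π Δ2 +
        (∑ i ∈ Finset.Icc 1 (n π), (lam π i).choose 2 + jj π * c.choose 2) := by
        rw [← add_assoc]
        exact h3
      exact h10.trans (Nat.le_add_right _ _)
  have S1 := sum_deg hT' dl' hdl' hΔ1 hom1 (fun q hq hqd => hcov' q hq
    (hqd.trans ((Dvd.intro _ rfl : Δ1 ∣ Δ1 * Δ2).trans (Dvd.intro _ rfl))))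
  have S2 := sum_deg hT' dl' hdl' hΔ2' hom2 (fun q hq hqd => hcov' q hq
    (hqd.trans ((Dvd.intro_left _ rfl : Δ2 ∣ Δ1 * Δ2).trans (Dvd.intro _ rfl))))
  have S3 := sum_deg hT' dl' hdl' hX0 (isHomogeneous_X _ 0) (fun q hq hqd => hcov' q hq
    (hqd.trans (Dvd.intro_left _ rfl)))
  have S4 : ∑ π ∈ T', dl' π * multiplicity π Δ1 ≤ ∑ π ∈ T', dl' π * multiplicity π Δ2 +
      ∑ π ∈ T', dl' π * τ π + w * ∑ π ∈ T', dl' π * multiplicity π (X 0 : RR) := by
    rw [Finset.mul_sum, ← Finset.sum_add_distrib, ← Finset.sum_add_distrib]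
    refine Finset.sum_le_sum fun π hπ => ?_
    have h1 := Nat.mul_le_mul_left (dl' π) (hloc π hπ)
    refine h1.trans (le_of_eq ?_)
    ring
  have S5 : ∑ π ∈ T', dl' π * τ π = ∑ π ∈ T, dl π * τ π := by
    rw [← Finset.sum_subset hTT (f := fun π => dl' π * τ π)]
    · exact Finset.sum_congr rfl fun π hπ => by rw [hdlT π hπ]
    · intro π hπ hπT
      obtain ⟨h1, h2⟩ := hvan π hπ hπT
      have h3 : τ π = 0 := by
        rw [hτ]
        show ∑ i ∈ Finset.Icc 1 (n π), (lam π i).choose 2 + jj π * c.choose 2 = 0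
        rw [h1, h2]
        simp
      rw [h3, mul_zero]
  rw [S1, S2, S3, S5, mul_one] at S4
  have e1 : nn (d - 2) = d.choose 2 := by
    unfold nn
    congr 1
    omega
  have e2 : nn (c - 2) = c.choose 2 := by
    unfold nn
    congr 1
    omega
  rw [e1, e2] at S4
  have S6 : ∑ π ∈ T, dl π * τ π = ∑ π ∈ T, dl π * (∑ i ∈ Finset.Icc 1 (n π), (lam π i).choose 2 +
      jj π * c.choose 2) := by
    rw [hτ]
  rw [S6] at S4
  omega

end GP80

end S_H80_GP_Str

section S_H80_GP_Sf3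

/-!
# Row Sf3 (MP_87ed0a_GP): semicontinuity of the orders along chords  (about 200 lines)

Claim: if `surfSum x0 π ≤ B` for all nonzero homogeneous `π` of degree `δ`, then the same holds for all `x` near `x0`.
Let `D = Finset.finsuppAntidiag (univ : Finset (Fin 4)) δ` (monomials of degree `δ`), `pol p = ∑_{m ∈ D} monomial m (p m)` for `p : D → ℂ`: exactly the homogeneous polynomials of degree `δ`; `pol p ≠ 0` iff `p ≠ 0`.
For `M : pairs → Fin (δ + 1)` (functions on `(Fin a × Fin b)^2`) let `Q_M = {x | ∃ p, ‖p‖ = 1 ∧ ∀ (s, s'), ∀ i < M (s, s'), ∀ μ, coeff μ ((lineH x_s x_s' (pol p)).coeff i) = 0}`.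
`Q_M` is closed: the coefficients are continuous functions of `(x, p)` and the unit sphere is compact (`isClosedMap_snd_of_compactSpace` or sequential compactness).
Continuity: call `f : Y → Polynomial (MvPolynomial σ ℂ)` good if `y ↦ coeff μ ((f y).coeff i)` is continuous for all `i, μ`; constants are good, sums and products of good functions are good (`Polynomial.coeff_mul`, `MvPolynomial.coeff_mul` are sums over fixed finite
antidiagonals), so powers and finite products; `lineH z z' (monomial m r) = C(C r) * ∏_l (generator_l)^(m l)` with good generators.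
`lineH .. (pol p)` has `M ≤` trailing degree iff the coefficients with `i < M` vanish (`pol p ≠ 0`, `lineH_injective`, `Polynomial.le_natTrailingDegree`...).  So for `x ∈ Q_M` there is a nonzero `π` with `M (s,s') ≤ ordL x_s x_s' π`; if the sum of `M` over the generic
pairs is `> B` then `x0 ∉ Q_M`.  There are finitely many `M`; for `x` outside the finitely many closed sets `Q_M` with sum `> B`, and `π ≠ 0` homogeneous of degree `δ`: put `M (s,s') = ordL x_s x_s' π ≤ δ` (`ordL_le`), normalise `π` (`ordL` does not change under nonzero scalars): `x ∈ Q_M`, so the sum is `≤ B`.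
-/

open Filter Topology

namespace GP80

open MvPolynomial

/-- all coefficients are continuous -/
def Sf3_good {Y : Type} [TopologicalSpace Y]
    (f : Y → Polynomial (MvPolynomial (Fin 2 ⊕ Fin 4) ℂ)) : Prop :=
  ∀ (i : ℕ) (μ : Fin 2 ⊕ Fin 4 →₀ ℕ), Continuous fun y => coeff μ ((f y).coeff i)

theorem Sf3_const {Y : Type} [TopologicalSpace Y]
    (g : Polynomial (MvPolynomial (Fin 2 ⊕ Fin 4) ℂ)) : Sf3_good (fun _ : Y => g) :=
  fun _ _ => continuous_const

theorem Sf3_add {Y : Type} [TopologicalSpace Y]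
    {f g : Y → Polynomial (MvPolynomial (Fin 2 ⊕ Fin 4) ℂ)} (hf : Sf3_good f) (hg : Sf3_good g) :
    Sf3_good (fun y => f y + g y) := by
  intro i μ
  simp only [Polynomial.coeff_add, coeff_add]
  exact (hf i μ).add (hg i μ)

theorem Sf3_mul {Y : Type} [TopologicalSpace Y]
    {f g : Y → Polynomial (MvPolynomial (Fin 2 ⊕ Fin 4) ℂ)} (hf : Sf3_good f) (hg : Sf3_good g) :
    Sf3_good (fun y => f y * g y) := by
  classical
  intro i μ
  simp only [Polynomial.coeff_mul, coeff_sum, coeff_mul]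
  exact continuous_finsetSum _ fun a _ => continuous_finsetSum _ fun b _ =>
    (hf a.1 b.1).mul (hg a.2 b.2)

theorem Sf3_pow {Y : Type} [TopologicalSpace Y]
    {f : Y → Polynomial (MvPolynomial (Fin 2 ⊕ Fin 4) ℂ)} (hf : Sf3_good f) (n : ℕ) :
    Sf3_good (fun y => f y ^ n) := by
  induction n with
  | zero =>
    simp only [pow_zero]
    exact Sf3_const 1
  | succ n ih =>
    simp only [pow_succ]
    exact Sf3_mul ih hf

theorem Sf3_prod {Y ι : Type} [TopologicalSpace Y] (s : Finset ι)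
    {f : ι → Y → Polynomial (MvPolynomial (Fin 2 ⊕ Fin 4) ℂ)} (hf : ∀ i, Sf3_good (f i)) :
    Sf3_good (fun y => ∏ i ∈ s, f i y) := by
  classical
  induction s using Finset.induction_on with
  | empty =>
    simp only [Finset.prod_empty]
    exact Sf3_const 1
  | insert a s ha ih =>
    simp only [Finset.prod_insert ha]
    exact Sf3_mul (hf a) ih

theorem Sf3_sum {Y ι : Type} [TopologicalSpace Y] (s : Finset ι)
    {f : ι → Y → Polynomial (MvPolynomial (Fin 2 ⊕ Fin 4) ℂ)} (hf : ∀ i, Sf3_good (f i)) :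
    Sf3_good (fun y => ∑ i ∈ s, f i y) := by
  classical
  induction s using Finset.induction_on with
  | empty =>
    simp only [Finset.sum_empty]
    exact Sf3_const 0
  | insert a s ha ih =>
    simp only [Finset.sum_insert ha]
    exact Sf3_add (hf a) ih

theorem Sf3_CC {Y : Type} [TopologicalSpace Y] {g : Y → ℂ} (hg : Continuous g) :
    Sf3_good (fun y => Polynomial.C (C (g y) : MvPolynomial (Fin 2 ⊕ Fin 4) ℂ)) := by
  classical
  intro i μ
  by_cases hi : i = 0
  · subst hi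
    simp only [Polynomial.coeff_C_zero, coeff_C]
    by_cases hμ : 0 = μ
    · simp only [if_pos hμ]
      exact hg
    · simp only [if_neg hμ]
      exact continuous_const
  · simp only [Polynomial.coeff_C_of_ne_zero hi, coeff_zero]
    exact continuous_const

/-- the monomials of degree `δ` -/
abbrev Sf3_D (δ : ℕ) : Type :=
  {m : Fin 4 →₀ ℕ // m ∈ Finset.finsuppAntidiag (Finset.univ : Finset (Fin 4)) δ}

/-- polynomial with given coefficients -/
noncomputable def Sf3_pol (δ : ℕ) (p : Sf3_D δ → ℂ) : RR := ∑ m, monomial m.1 (p m)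

theorem Sf3_line {Y : Type} [TopologicalSpace Y] {z z' : Y → Fin 4 → ℂ} (hz : Continuous z)
    (hz' : Continuous z') {δ : ℕ} {p : Y → Sf3_D δ → ℂ} (hp : Continuous p) :
    Sf3_good (fun y => lineH (z y) (z' y) (Sf3_pol δ (p y))) := by
  have h1 : ∀ y, lineH (z y) (z' y) (Sf3_pol δ (p y)) =
      ∑ m : Sf3_D δ, Polynomial.C (C (p y m)) * ∏ l : Fin 4,
        (Polynomial.C (X (Sum.inl 0)) * Polynomial.C (C (z y l)) +
          Polynomial.C (X (Sum.inl 1)) * Polynomial.C (C (z' y l)) +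
          Polynomial.X * Polynomial.C (X (Sum.inr l))) ^ (m.1 l) := by
    intro y
    unfold Sf3_pol
    rw [map_sum]
    refine Finset.sum_congr rfl fun m _ => ?_
    unfold lineH
    rw [eval₂Hom_monomial, Finsupp.prod_fintype _ _ (fun i => pow_zero _)]
    refine congrArg₂ (fun a b => a * b) rfl (Finset.prod_congr rfl fun l _ => ?_)
    rw [map_add, map_mul, map_mul]
  have h2 : (fun y => lineH (z y) (z' y) (Sf3_pol δ (p y))) = fun y =>
      ∑ m : Sf3_D δ, Polynomial.C (C (p y m)) * ∏ l : Fin 4,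
        (Polynomial.C (X (Sum.inl 0)) * Polynomial.C (C (z y l)) +
          Polynomial.C (X (Sum.inl 1)) * Polynomial.C (C (z' y l)) +
          Polynomial.X * Polynomial.C (X (Sum.inr l))) ^ (m.1 l) := funext h1
  rw [h2]
  refine Sf3_sum _ fun m => Sf3_mul (Sf3_CC ((continuous_apply m).comp hp)) ?_
  refine Sf3_prod _ fun l => Sf3_pow ?_ _
  refine Sf3_add (Sf3_add (Sf3_mul (Sf3_const _) (Sf3_CC ((continuous_apply l).comp hz)))
    (Sf3_mul (Sf3_const _) (Sf3_CC ((continuous_apply l).comp hz')))) (Sf3_const _)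

theorem Sf3_usc {Y : Type} [TopologicalSpace Y] {z z' : Y → Fin 4 → ℂ} (hz : Continuous z)
    (hz' : Continuous z') {δ : ℕ} {p : Y → Sf3_D δ → ℂ} (hp : Continuous p) (y0 : Y)
    (h0 : Sf3_pol δ (p y0) ≠ 0) :
    ∀ᶠ y in 𝓝 y0, ordL (z y) (z' y) (Sf3_pol δ (p y)) ≤
      ordL (z y0) (z' y0) (Sf3_pol δ (p y0)) := by
  have hg := Sf3_line hz hz' hp
  have h1 : lineH (z y0) (z' y0) (Sf3_pol δ (p y0)) ≠ 0 := Ord_ne _ _ h0
  have h2 : (lineH (z y0) (z' y0) (Sf3_pol δ (p y0))).coeff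
      (ordL (z y0) (z' y0) (Sf3_pol δ (p y0))) ≠ 0 := by
    have h3 := Polynomial.trailingCoeff_nonzero_iff_nonzero.2 h1
    exact h3
  obtain ⟨μ, hμ⟩ := MvPolynomial.ne_zero_iff.1 h2
  have h4 := (hg (ordL (z y0) (z' y0) (Sf3_pol δ (p y0))) μ).continuousAt (x := y0)
  have h5 := h4.eventually_ne hμ
  refine h5.mono fun y hy => ?_
  refine Polynomial.natTrailingDegree_le_of_ne_zero ?_
  intro h6
  rw [h6, coeff_zero] at hy
  exact hy rfl

theorem Sf3_coeff (δ : ℕ) (p : Sf3_D δ → ℂ) (m : Sf3_D δ) : coeff m.1 (Sf3_pol δ p) = p m := by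
  classical
  unfold Sf3_pol
  rw [coeff_sum, Finset.sum_eq_single m]
  · rw [coeff_monomial, if_pos rfl]
  · intro m' _ hm
    rw [coeff_monomial, if_neg]
    intro h
    exact hm (Subtype.ext h)
  · intro h
    exact absurd (Finset.mem_univ m) h

theorem Sf3_ne (δ : ℕ) {p : Sf3_D δ → ℂ} (hp : p ≠ 0) : Sf3_pol δ p ≠ 0 := by
  intro h
  apply hp
  funext m
  rw [← Sf3_coeff δ p m, h, coeff_zero, Pi.zero_apply]

theorem Sf3_eq (δ : ℕ) {π : RR} (hπ : π.IsHomogeneous δ) :
    π = Sf3_pol δ (fun m => coeff m.1 π) := by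
  classical
  ext m
  by_cases hm : m ∈ Finset.finsuppAntidiag (Finset.univ : Finset (Fin 4)) δ
  · exact (Sf3_coeff δ (fun m => coeff m.1 π) ⟨m, hm⟩).symm
  · have h1 : coeff m π = 0 := by
      refine hπ.coeff_eq_zero fun h => hm ?_
      rw [Finset.mem_finsuppAntidiag]
      refine ⟨?_, Finset.subset_univ _⟩
      rw [← h, Finsupp.degree_eq_sum]
    rw [h1]
    unfold Sf3_pol
    rw [coeff_sum]
    symm
    refine Finset.sum_eq_zero fun m' _ => ?_
    rw [coeff_monomial, if_neg]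
    intro h
    exact hm (h ▸ m'.2)

theorem Sf3_hom (δ : ℕ) (p : Sf3_D δ → ℂ) : (Sf3_pol δ p).IsHomogeneous δ := by
  unfold Sf3_pol
  refine IsHomogeneous.sum _ _ _ fun m _ => ?_
  refine isHomogeneous_monomial _ ?_
  have h := (Finset.mem_finsuppAntidiag.1 m.2).1
  rw [Finsupp.degree_eq_sum]
  exact h

theorem Sf3_scale {a b : ℕ} (x : Fin a → Fin b → Fin 4 → ℂ) {c : ℂ} (hc : c ≠ 0) {π : RR}
    (hπ : π ≠ 0) : surfSum x (C c * π) = surfSum x π := by
  unfold surfSum
  have hC : (C c : RR) ≠ 0 := by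
    intro h
    exact hc (C_eq_zero.1 h)
  refine Finset.sum_congr rfl fun s _ => Finset.sum_congr rfl fun s' _ => ?_
  rw [ordL_mul _ _ hC hπ, Ord_C, zero_add]

theorem surf_near {a b : ℕ} (x0 : Fin a → Fin b → Fin 4 → ℂ) (δ B : ℕ)
    (h0 : ∀ π : RR, π.IsHomogeneous δ → π ≠ 0 → surfSum x0 π ≤ B) :
    ∀ᶠ x in 𝓝 x0, ∀ π : RR, π.IsHomogeneous δ → π ≠ 0 → surfSum x π ≤ B := by
  have hK : IsCompact (Metric.sphere (0 : Sf3_D δ → ℂ) 1) := isCompact_sphere _ _
  have h1 : ∀ p ∈ Metric.sphere (0 : Sf3_D δ → ℂ) 1,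
      ∀ᶠ y : (Fin a → Fin b → Fin 4 → ℂ) × (Sf3_D δ → ℂ) in 𝓝 (x0, p),
        surfSum y.1 (Sf3_pol δ y.2) ≤ B := by
    intro p hp
    have hp0 : p ≠ 0 := by
      intro h
      rw [h, mem_sphere_zero_iff_norm, norm_zero] at hp
      exact zero_ne_one hp
    have h2 : ∀ᶠ y : (Fin a → Fin b → Fin 4 → ℂ) × (Sf3_D δ → ℂ) in 𝓝 (x0, p),
        ∀ s s' : Fin a × Fin b, ordL (y.1 s.1 s.2) (y.1 s'.1 s'.2) (Sf3_pol δ y.2) ≤
          ordL (x0 s.1 s.2) (x0 s'.1 s'.2) (Sf3_pol δ p) := by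
      refine Filter.eventually_all.2 fun s => Filter.eventually_all.2 fun s' => ?_
      exact Sf3_usc (Y := (Fin a → Fin b → Fin 4 → ℂ) × (Sf3_D δ → ℂ))
        (z := fun y => y.1 s.1 s.2) (z' := fun y => y.1 s'.1 s'.2) (p := fun y => y.2)
        (by fun_prop) (by fun_prop) continuous_snd (x0, p) (Sf3_ne δ hp0)
    refine h2.mono fun y hy => le_trans ?_ (h0 (Sf3_pol δ p) (Sf3_hom δ p) (Sf3_ne δ hp0))
    unfold surfSum
    refine Finset.sum_le_sum fun s _ => Finset.sum_le_sum fun s' _ => ?_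
    split_ifs
    · exact hy s s'
    · exact le_rfl
  have h2 := hK.eventually_forall_of_forall_eventually
    (P := fun (x : Fin a → Fin b → Fin 4 → ℂ) (p : Sf3_D δ → ℂ) =>
      surfSum x (Sf3_pol δ p) ≤ B) h1
  refine h2.mono fun x hx π hπ hπ0 => ?_
  obtain ⟨p, hp⟩ : ∃ p : Sf3_D δ → ℂ, π = Sf3_pol δ p := ⟨_, Sf3_eq δ hπ⟩
  have hp0 : p ≠ 0 := by
    intro h
    apply hπ0
    rw [hp, h]
    unfold Sf3_pol
    simp
  have hn : ‖p‖ ≠ 0 := norm_ne_zero_iff.2 hp0
  have hc : ((‖p‖ : ℂ))⁻¹ ≠ 0 := inv_ne_zero (by exact_mod_cast hn)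
  have h3 := hx (((‖p‖ : ℂ))⁻¹ • p) (by
    rw [mem_sphere_zero_iff_norm, norm_smul, norm_inv, Complex.norm_real, norm_norm,
      inv_mul_cancel₀ hn])
  have h4 : Sf3_pol δ (((‖p‖ : ℂ))⁻¹ • p) = C ((‖p‖ : ℂ))⁻¹ * π := by
    rw [hp]
    unfold Sf3_pol
    rw [Finset.mul_sum]
    refine Finset.sum_congr rfl fun m _ => ?_
    rw [C_mul_monomial, Pi.smul_apply, smul_eq_mul]
  rw [h4, Sf3_scale x hc hπ0] at h3
  exact h3

end GP80

end S_H80_GP_Sf3

section S_H80_GP_Sp3

/-!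
# Row Sp3 (MP_87ed0a_GP): a geproci set at a general centre  (about 180 lines)

`x : I → ℂ^4` with `Geom x` (nonzero coordinates, pairwise independent), `IsGeproci c d (pts x)` (definitions in Pool/Agent/H3/GP/Defs.lean: `1 ≤ c ≤ d`, `pts x` has `c d` points, and for all `P` with `D(P) ≠ 0` and all `π : ℂ^4 → ℂ^3` with kernel `span {P}` the image `projImage π (pts x)` is the set of common
zeros of forms of degrees `c, d` and has `c d` points).  `card I = c d`: `s ↦ mk (x s)` is injective onto `pts x`.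
Let `yP P z = (P_0 z_(j+1) - z_0 P_(j+1))_j`, linear in `z`, as a linear map `π_P : ℂ^4 → ℂ^3`, for `P_0 ≠ 0` with kernel `span {P}`.
`D' := D * X 0 * ∏_{s ≠ s'} (some nonzero polynomial in P which vanishes when P ∈ span (x s, x s'))`: for independent `z, z'` there is a nonzero linear form vanishing on their span; take it as factor.  If `D'(P) ≠ 0`, `y s := yP P (x s)` are pairwise independent (a relation `α y s + β y s' = 0`
means `α x s + β x s' ∈ span {P}`, so (`x s, x s'` independent) `P ∈ span (x s, x s')` unless `α = β = 0`) and nonzero (same argument, or from the pairwise condition with another point; if `card I = 1` use also a linear form vanishing at `x s`).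
`IsCI c d (projImage π_P (pts x))` gives `F, G` of degrees `c, d`; a vector `v ≠ 0` is a common zero iff `mk v ∈ projImage` (homogeneity: `rep` is a unit multiple of `v`) iff `v = r • y s` for some `s, r` (`p.rep` is a unit multiple of `x s`).  `ci_ideal`.
-/

open Pool.Agent.H3.GP

namespace GP80

open MvPolynomial

/-- projection from `P` in the chart `0`, scaled by `P_0` -/
def yP (P z : Fin 4 → ℂ) : Fin 3 → ℂ :=
  fun j => P 0 * z ((0 : Fin 4).succAbove j) - z 0 * P ((0 : Fin 4).succAbove j)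

/-- the projection as a linear map -/
def Sp3_pi (P : Fin 4 → ℂ) : (Fin 4 → ℂ) →ₗ[ℂ] (Fin 3 → ℂ) where
  toFun z := yP P z
  map_add' z z' := by
    funext j
    simp only [yP, Pi.add_apply]
    ring
  map_smul' c z := by
    funext j
    simp only [yP, Pi.smul_apply, smul_eq_mul, RingHom.id_apply]
    ring

theorem Sp3_pi_apply (P z : Fin 4 → ℂ) : Sp3_pi P z = yP P z := rfl

theorem Sp3_ker {P z : Fin 4 → ℂ} (hP : P 0 ≠ 0) (h : yP P z = 0) : z = (z 0 / P 0) • P := by
  funext l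
  rw [Pi.smul_apply, smul_eq_mul]
  refine Fin.cases ?_ (fun j => ?_) l
  · field_simp
  · have h1 := congrFun h j
    have h2 : P 0 * z j.succ - z 0 * P j.succ = 0 := h1
    field_simp
    linear_combination h2

theorem Sp3_kerspan {P : Fin 4 → ℂ} (hP : P 0 ≠ 0) :
    LinearMap.ker (Sp3_pi P) = Submodule.span ℂ {P} := by
  ext z
  rw [LinearMap.mem_ker, Submodule.mem_span_singleton, Sp3_pi_apply]
  constructor
  · intro h
    exact ⟨z 0 / P 0, (Sp3_ker hP h).symm⟩
  · rintro ⟨c, rfl⟩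
    funext j
    simp only [yP, Pi.smul_apply, smul_eq_mul, Pi.zero_apply]
    ring

theorem Sp3_scale {m : ℕ} {F : MvPolynomial (Fin 3) ℂ} (hF : F.IsHomogeneous m) (c : ℂ)
    (v : Fin 3 → ℂ) : eval (c • v) F = c ^ m * eval v F := by
  rw [eval_eq', eval_eq', Finset.mul_sum]
  apply Finset.sum_congr rfl
  intro e he
  have h1 : e.weight 1 = m := hF (mem_support_iff.mp he)
  have h2 : ∑ i, e i = m := by
    rw [← h1, Finsupp.weight_apply, Finsupp.sum_fintype]
    · exact Finset.sum_congr rfl fun i _ => by simp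
    · intro i
      simp
  simp only [Pi.smul_apply, smul_eq_mul, mul_pow]
  rw [Finset.prod_mul_distrib, Finset.prod_pow_eq_pow_sum, h2]
  ring

theorem Sp3_form (z z' : Fin 4 → ℂ) :
    ∃ a : Fin 4 → ℂ, a ≠ 0 ∧ ∑ i, a i * z i = 0 ∧ ∑ i, a i * z' i = 0 := by
  have hdet : (Matrix.of ![z, z', 0, 0] : Matrix (Fin 4) (Fin 4) ℂ).det = 0 := by
    apply Matrix.det_eq_zero_of_row_eq_zero 3
    intro j
    rfl
  obtain ⟨v, hv, h⟩ := Matrix.exists_mulVec_eq_zero_iff.2 hdet
  refine ⟨v, hv, ?_, ?_⟩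
  · have h0 := congrFun h 0
    have h1 : ∑ i, z i * v i = 0 := h0
    rw [← h1]
    exact Finset.sum_congr rfl fun i _ => mul_comm _ _
  · have h0 := congrFun h 1
    have h1 : ∑ i, z' i * v i = 0 := h0
    rw [← h1]
    exact Finset.sum_congr rfl fun i _ => mul_comm _ _

theorem Sp3_ne {a : Fin 4 → ℂ} (ha : a ≠ 0) : (∑ i, C (a i) * X i : RR) ≠ 0 := by
  intro h
  apply ha
  funext l
  have h1 := congrArg (eval (fun j : Fin 4 => if j = l then (1 : ℂ) else 0)) h
  rw [map_sum, map_zero] at h1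
  simp only [map_mul, eval_C, eval_X] at h1
  rw [Finset.sum_eq_single l] at h1
  · rw [if_pos rfl, mul_one] at h1
    exact h1
  · intro j _ hj
    rw [if_neg hj, mul_zero]
  · intro h2
    exact absurd (Finset.mem_univ l) h2

theorem Sp3_card {I : Type} [Fintype I] (x : I → Fin 4 → ℂ) (hx : Geom x) {c d : ℕ}
    (hg : IsGeproci c d (pts x)) : Fintype.card I = c * d := by
  obtain ⟨_, _, _, hN, _⟩ := hg
  have hx0 : ∀ s, x s ≠ 0 := fun s h => hx.co s 0 (by rw [h]; rfl)
  have hinj : Function.Injective (fun s => Projectivization.mk ℂ (x s) (hx0 s)) := by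
    intro s s' h
    by_contra hne
    obtain ⟨a, ha⟩ := (Projectivization.mk_eq_mk_iff' ℂ (x s) (x s') (hx0 s) (hx0 s')).1 h
    have h1 := LinearIndependent.pair_iff.1 (hx.ind s s' hne) 1 (-a) (by
      rw [one_smul, neg_smul, ha, add_neg_cancel])
    exact one_ne_zero h1.1
  have hr : pts x = (fun s => Projectivization.mk ℂ (x s) (hx0 s)) '' Set.univ := by
    ext p
    constructor
    · rintro ⟨s, h, rfl⟩
      exact ⟨s, Set.mem_univ s, rfl⟩
    · rintro ⟨s, _, rfl⟩
      exact ⟨s, hx0 s, rfl⟩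
  rw [hr, Set.ncard_image_of_injective _ hinj, Set.ncard_univ, Nat.card_eq_fintype_card] at hN
  exact hN

theorem spec_at {I : Type} [Fintype I] (x : I → Fin 4 → ℂ) (hx : Geom x) {c d : ℕ}
    (hg : IsGeproci c d (pts x)) :
    Fintype.card I = c * d ∧ ∃ D : RR, D ≠ 0 ∧ ∀ P : Fin 4 → ℂ, eval P D ≠ 0 →
      ∃ F G : MvPolynomial (Fin 3) ℂ, F.IsHomogeneous c ∧ G.IsHomogeneous d ∧
        (∀ s, eval (yP P (x s)) F = 0) ∧ (∀ s, eval (yP P (x s)) G = 0) ∧
        ∀ t f, MvPolynomial.IsHomogeneous f t → (∀ s, eval (yP P (x s)) f = 0) →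
          f ∈ Ideal.span {F, G} := by
  have hcard := Sp3_card x hx hg
  have hx0 : ∀ s, x s ≠ 0 := fun s h => hx.co s 0 (by rw [h]; rfl)
  refine ⟨hcard, ?_⟩
  obtain ⟨hc1, hcd, _, _, D0, hD0, hD⟩ := hg
  choose a ha0 ha1 ha2 using fun p : I × I => Sp3_form (x p.1) (x p.2)
  refine ⟨D0 * X 0 * ∏ p : I × I, (∑ i, C (a p i) * X i : RR), ?_, fun P hP => ?_⟩
  · refine mul_ne_zero (mul_ne_zero hD0 (X_ne_zero 0)) ?_
    exact Finset.prod_ne_zero_iff.2 fun p _ => Sp3_ne (ha0 p)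
  rw [map_mul, map_mul, eval_X, map_prod] at hP
  have hP0 : P 0 ≠ 0 := fun h => hP (by rw [h, mul_zero, zero_mul])
  have hPD : eval P D0 ≠ 0 := fun h => hP (by rw [h, zero_mul, zero_mul])
  have hPa : ∀ p : I × I, ∑ i, a p i * P i ≠ 0 := by
    intro p h
    have h1 := Finset.prod_ne_zero_iff.1 (right_ne_zero_of_mul hP) p (Finset.mem_univ p)
    apply h1
    rw [map_sum]
    simp only [map_mul, eval_C, eval_X]
    exact h
  have hlin : ∀ (p : I × I) (α β : ℂ), ∑ i, a p i * (α • x p.1 + β • x p.2) i = 0 := by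
    intro p α β
    have h1 : ∑ i, a p i * (α • x p.1 + β • x p.2) i =
        α * (∑ i, a p i * x p.1 i) + β * ∑ i, a p i * x p.2 i := by
      rw [Finset.mul_sum, Finset.mul_sum, ← Finset.sum_add_distrib]
      refine Finset.sum_congr rfl fun i _ => ?_
      simp only [Pi.add_apply, Pi.smul_apply, smul_eq_mul]
      ring
    rw [h1, ha1, ha2, mul_zero, mul_zero, add_zero]
  have hkey : ∀ (p : I × I) (α β : ℂ), yP P (α • x p.1 + β • x p.2) = 0 →
      α • x p.1 + β • x p.2 = 0 := by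
    intro p α β h
    have h1 := Sp3_ker hP0 h
    have h2 := hlin p α β
    rw [h1] at h2
    have h3 : ∑ i, a p i * (((α • x p.1 + β • x p.2) 0 / P 0) • P) i =
        ((α • x p.1 + β • x p.2) 0 / P 0) * ∑ i, a p i * P i := by
      rw [Finset.mul_sum]
      refine Finset.sum_congr rfl fun i _ => ?_
      rw [Pi.smul_apply, smul_eq_mul]
      ring
    rw [h3] at h2
    rcases mul_eq_zero.1 h2 with h4 | h4
    · rw [h1, h4, zero_smul]
    · exact absurd h4 (hPa p)
  have hy0 : ∀ s, yP P (x s) ≠ 0 := by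
    intro s h
    have h1 := hkey (s, s) 1 0 (by rw [one_smul, zero_smul, add_zero]; exact h)
    rw [one_smul, zero_smul, add_zero] at h1
    exact hx0 s h1
  have hy : ∀ s s', s ≠ s' → LinearIndependent ℂ ![yP P (x s), yP P (x s')] := by
    intro s s' hne
    rw [LinearIndependent.pair_iff]
    intro α β h
    have h1 : yP P (α • x s + β • x s') = 0 := by
      rw [← Sp3_pi_apply, map_add, map_smul, map_smul]
      exact h
    exact LinearIndependent.pair_iff.1 (hx.ind s s' hne) α β (hkey (s, s') α β h1)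
  obtain ⟨_, _, F, G, hF, hG, hFG⟩ := hD P hPD (Sp3_pi P) (Sp3_kerspan hP0)
  have hv : ∀ v : Fin 3 → ℂ, v ≠ 0 →
      ((eval v F = 0 ∧ eval v G = 0) ↔ ∃ s, ∃ r : ℂ, v = r • yP P (x s)) := by
    intro v hv0
    obtain ⟨b, hb⟩ := Projectivization.exists_smul_eq_mk_rep ℂ v hv0
    have hb' : (Projectivization.mk ℂ v hv0).rep = (b : ℂ) • v := hb.symm
    have hb0 : (b : ℂ) ≠ 0 := b.ne_zero
    have h1 : (eval v F = 0 ∧ eval v G = 0) ↔
        (eval (Projectivization.mk ℂ v hv0).rep F = 0 ∧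
          eval (Projectivization.mk ℂ v hv0).rep G = 0) := by
      rw [hb', Sp3_scale hF, Sp3_scale hG, mul_eq_zero, mul_eq_zero]
      constructor
      · rintro ⟨h2, h3⟩
        exact ⟨Or.inr h2, Or.inr h3⟩
      · rintro ⟨h2, h3⟩
        exact ⟨h2.resolve_left (pow_ne_zero _ hb0), h3.resolve_left (pow_ne_zero _ hb0)⟩
    rw [h1, ← hFG]
    constructor
    · rintro ⟨p, ⟨s, hs0, rfl⟩, h2, h3⟩
      obtain ⟨e, he⟩ := Projectivization.exists_smul_eq_mk_rep ℂ (x s) hs0
      obtain ⟨g, hg⟩ := (Projectivization.mk_eq_mk_iff' ℂ v _ hv0 h2).1 h3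
      refine ⟨s, g * (e : ℂ), ?_⟩
      rw [← hg, ← he, mul_smul]
      refine congrArg (fun w => g • w) ?_
      have h4 : (e • x s : Fin 4 → ℂ) = (e : ℂ) • x s := rfl
      rw [h4, map_smul, Sp3_pi_apply]
    · rintro ⟨s, r, rfl⟩
      have hr0 : r ≠ 0 := by
        intro h
        apply hv0
        rw [h, zero_smul]
      obtain ⟨e, he⟩ := Projectivization.exists_smul_eq_mk_rep ℂ (x s) (hx0 s)
      have h4 : (Projectivization.mk ℂ (x s) (hx0 s)).rep = (e : ℂ) • x s := he.symm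
      have h5 : Sp3_pi P (Projectivization.mk ℂ (x s) (hx0 s)).rep = (e : ℂ) • yP P (x s) := by
        rw [h4, map_smul, Sp3_pi_apply]
      have h6 : Sp3_pi P (Projectivization.mk ℂ (x s) (hx0 s)).rep ≠ 0 := by
        rw [h5]
        exact smul_ne_zero e.ne_zero (hy0 s)
      refine ⟨Projectivization.mk ℂ (x s) (hx0 s), ⟨s, hx0 s, rfl⟩, h6, ?_⟩
      rw [Projectivization.mk_eq_mk_iff']
      refine ⟨r * (e : ℂ)⁻¹, ?_⟩
      rw [h5, smul_smul, mul_assoc, inv_mul_cancel₀ e.ne_zero, mul_one]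
  refine ⟨F, G, hF, hG, fun s => ?_, fun s => ?_,
    ci_ideal (fun s => yP P (x s)) hy hy0 hc1 (hc1.trans hcd) hcard hF hG hv⟩
  · exact ((hv (yP P (x s)) (hy0 s)).2 ⟨s, 1, (one_smul ℂ _).symm⟩).1
  · exact ((hv (yP P (x s)) (hy0 s)).2 ⟨s, 1, (one_smul ℂ _).symm⟩).2

end GP80

end S_H80_GP_Sp3
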