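import Mathlib
import Pool.Agent.H3.GP.Defs
import Pool.Agent.H80.M87.G02
import Pool.Agent.H80.M87.G03
import Pool.Agent.H80.M87.G04
import Pool.Agent.H80.M87.G06
import Pool.Agent.H80.M87.G08
import Pool.Agent.H80.M87.G12
import Pool.Agent.H80.M87.G13
import Pool.Agent.H80.M87.G14

/-! MP_87ed0a_ag: this file joins several modules to save build time. -/

section S_H3_GP_GRD

/-!
# GRD (MP_87ed0a_ag): vectors in grid position give a grid

PROOF. `A k = span {x k j | j}`, which is `span {x k j₀, x k j₁}` for any `j₀ ≠ j₁` (`h.col`);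
`B j = span {x k j | k}` = `span {x k₀ j, x k₁ j}` (`h.row`).  Dimension 2: two of the vectors are
independent (`h.ind`).  `A k ⊓ A k' = ⊥` for `k ≠ k'`: the four vectors
`x k j, x k j', x k' j, x k' j'` are independent (`h.ind`).  `B j ⊓ B j' = ⊥` in the same way.
`A k ⊓ B j = span {x k j}`: `x k j` is in both and nonzero; if the intersection had dimension 2 then
`A k = B j`, but `x k j' ∈ A k` for `j' ≠ j`, `x k j' ∈ B j'`, `B j ⊓ B j' = ⊥` and `x k j' ≠ 0`.
So the dimension is 1.  `pts = {p | ∃ k j, p.submodule = A k ⊓ B j}`: `p.submodule = span {x k j}`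
iff `p = mk (x k j)` (`Projectivization.submodule_mk`, `Projectivization.submodule_injective`).
-/

namespace Pool.Agent.H3.GP

private theorem GRD_four {v0 v1 v2 v3 : Fin 4 → ℂ} (h : LinearIndependent ℂ ![v0, v1, v2, v3])
    {α β γ δ : ℂ} (h0 : α • v0 + β • v1 + γ • v2 + δ • v3 = 0) :
    α = 0 ∧ β = 0 ∧ γ = 0 ∧ δ = 0 := by
  have h1 := Fintype.linearIndependent_iff.1 h ![α, β, γ, δ] (by
    rw [Fin.sum_univ_four]
    exact h0)
  exact ⟨h1 0, h1 1, h1 2, h1 3⟩

private theorem GRD_two {v0 v1 v2 v3 : Fin 4 → ℂ} (h : LinearIndependent ℂ ![v0, v1, v2, v3]) :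
    Module.finrank ℂ (Submodule.span ℂ ({v0, v1} : Set (Fin 4 → ℂ))) = 2 := by
  have h1 : LinearIndependent ℂ ![v0, v1] := by
    rw [LinearIndependent.pair_iff]
    intro s t hst
    have h2 := GRD_four h (α := s) (β := t) (γ := 0) (δ := 0) (by
      rw [hst, zero_smul, zero_smul, add_zero, add_zero])
    exact ⟨h2.1, h2.2.1⟩
  have h2 := finrank_span_eq_card h1
  rw [Fintype.card_fin] at h2
  have h3 : Set.range ![v0, v1] = {v0, v1} := by
    rw [Matrix.range_cons, Matrix.range_cons, Matrix.range_empty, Set.union_empty]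
    rfl
  rw [h3] at h2
  exact h2

private theorem GRD_disj {v0 v1 v2 v3 : Fin 4 → ℂ} (h : LinearIndependent ℂ ![v0, v1, v2, v3]) :
    Submodule.span ℂ ({v0, v1} : Set (Fin 4 → ℂ)) ⊓ Submodule.span ℂ ({v2, v3} : Set (Fin 4 → ℂ))
      = ⊥ := by
  rw [Submodule.eq_bot_iff]
  intro u hu
  obtain ⟨hu1, hu2⟩ := Submodule.mem_inf.1 hu
  obtain ⟨α, β, rfl⟩ := Submodule.mem_span_pair.1 hu1
  obtain ⟨γ, δ, h2⟩ := Submodule.mem_span_pair.1 hu2
  have h3 := GRD_four h (α := α) (β := β) (γ := -γ) (δ := -δ) (by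
    rw [← h2]
    module)
  rw [h3.1, h3.2.1, zero_smul, zero_smul, add_zero]

private theorem GRD_swap {v0 v1 v2 v3 : Fin 4 → ℂ} (h : LinearIndependent ℂ ![v0, v1, v2, v3]) :
    LinearIndependent ℂ ![v0, v2, v1, v3] := by
  rw [Fintype.linearIndependent_iff]
  intro g hg
  rw [Fin.sum_univ_four] at hg
  have h1 : g 0 • v0 + g 2 • v1 + g 1 • v2 + g 3 • v3 = 0 := by
    have h2 : g 0 • v0 + g 1 • v2 + g 2 • v1 + g 3 • v3 = 0 := hg
    rw [← h2]
    module
  obtain ⟨e0, e1, e2, e3⟩ := GRD_four h h1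
  intro i
  fin_cases i
  · exact e0
  · exact e2
  · exact e1
  · exact e3

theorem GRD (a b : ℕ) (ha : 2 ≤ a) (hab : a ≤ b) (x : Fin a → Fin b → Fin 4 → ℂ)
    (h : GridVec a b x) : IsGrid a b (pts (fun kj : Fin a × Fin b => x kj.1 kj.2)) := by
  have hexk : ∀ k : Fin a, ∃ k', k ≠ k' := by
    intro k
    have : Nontrivial (Fin a) := Fin.nontrivial_iff_two_le.2 ha
    obtain ⟨k', hk'⟩ := exists_ne k
    exact ⟨k', hk'.symm⟩
  have hexj : ∀ j : Fin b, ∃ j', j ≠ j' := by
    intro j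
    have : Nontrivial (Fin b) := Fin.nontrivial_iff_two_le.2 (ha.trans hab)
    obtain ⟨j', hj'⟩ := exists_ne j
    exact ⟨j', hj'.symm⟩
  have hA : ∀ k j0 j1, j0 ≠ j1 → Submodule.span ℂ (Set.range (x k))
      = Submodule.span ℂ {x k j0, x k j1} := by
    intro k j0 j1 hj
    apply le_antisymm
    · rw [Submodule.span_le]
      rintro _ ⟨j, rfl⟩
      exact h.col k j0 j1 j hj
    · apply Submodule.span_mono
      rintro _ (rfl | rfl)
      · exact ⟨j0, rfl⟩
      · exact ⟨j1, rfl⟩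
  have hB : ∀ j k0 k1, k0 ≠ k1 → Submodule.span ℂ (Set.range (fun k => x k j))
      = Submodule.span ℂ {x k0 j, x k1 j} := by
    intro j k0 k1 hk
    apply le_antisymm
    · rw [Submodule.span_le]
      rintro _ ⟨k, rfl⟩
      exact h.row j k0 k1 k hk
    · apply Submodule.span_mono
      rintro _ (rfl | rfl)
      · exact ⟨k0, rfl⟩
      · exact ⟨k1, rfl⟩
  have hne : ∀ k j, x k j ≠ 0 := by
    intro k j
    obtain ⟨k', hk⟩ := hexk k
    obtain ⟨j', hj⟩ := hexj j
    exact (h.ind k k' j j' hk hj).ne_zero 0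
  have hAB : ∀ k j, Submodule.span ℂ (Set.range (x k)) ⊓
      Submodule.span ℂ (Set.range (fun k => x k j)) = Submodule.span ℂ {x k j} := by
    intro k j
    obtain ⟨k', hk⟩ := hexk k
    obtain ⟨j', hj⟩ := hexj j
    apply le_antisymm
    · rw [hA k j j' hj, hB j k k' hk]
      intro u hu
      obtain ⟨hu1, hu2⟩ := Submodule.mem_inf.1 hu
      obtain ⟨α, β, rfl⟩ := Submodule.mem_span_pair.1 hu1
      obtain ⟨γ, δ, h2⟩ := Submodule.mem_span_pair.1 hu2
      have h3 := GRD_four (h.ind k k' j j' hk hj) (α := α - γ) (β := β) (γ := -δ) (δ := 0) (by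
        have h4 : (α - γ) • x k j + β • x k j' + -δ • x k' j + (0 : ℂ) • x k' j'
            = (α • x k j + β • x k j') - (γ • x k j + δ • x k' j) := by module
        rw [h4, h2, sub_self])
      rw [h3.2.1, zero_smul, add_zero]
      exact Submodule.smul_mem _ _ (Submodule.mem_span_singleton_self _)
    · rw [Submodule.span_singleton_le_iff_mem, Submodule.mem_inf]
      exact ⟨Submodule.subset_span ⟨j, rfl⟩, Submodule.subset_span ⟨k, rfl⟩⟩
  refine ⟨ha, hab, fun k => Submodule.span ℂ (Set.range (x k)),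
    fun j => Submodule.span ℂ (Set.range (fun k => x k j)), ?_, ?_, ?_, ?_, ?_, ?_⟩
  · intro k
    obtain ⟨k', hk⟩ := hexk k
    have hb0 : 0 < b := by omega
    obtain ⟨j', hj⟩ := hexj ⟨0, hb0⟩
    show Module.finrank ℂ (Submodule.span ℂ (Set.range (x k))) = 2
    rw [hA k _ _ hj]
    exact GRD_two (h.ind k k' _ j' hk hj)
  · intro j
    obtain ⟨j', hj⟩ := hexj j
    have ha0 : 0 < a := by omega
    obtain ⟨k', hk⟩ := hexk ⟨0, ha0⟩
    show Module.finrank ℂ (Submodule.span ℂ (Set.range (fun k => x k j))) = 2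
    rw [hB j _ _ hk]
    exact GRD_two (GRD_swap (h.ind _ k' j j' hk hj))
  · intro k k' hk
    have hb0 : 0 < b := by omega
    obtain ⟨j', hj⟩ := hexj ⟨0, hb0⟩
    show Submodule.span ℂ (Set.range (x k)) ⊓ Submodule.span ℂ (Set.range (x k')) = ⊥
    rw [hA k _ _ hj, hA k' _ _ hj]
    exact GRD_disj (h.ind k k' _ j' hk hj)
  · intro j j' hj
    have ha0 : 0 < a := by omega
    obtain ⟨k', hk⟩ := hexk ⟨0, ha0⟩
    show Submodule.span ℂ (Set.range (fun k => x k j)) ⊓
      Submodule.span ℂ (Set.range (fun k => x k j')) = ⊥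
    rw [hB j _ _ hk, hB j' _ _ hk]
    exact GRD_disj (GRD_swap (h.ind _ k' j j' hk hj))
  · intro k j
    show Module.finrank ℂ (Submodule.span ℂ (Set.range (x k)) ⊓
      Submodule.span ℂ (Set.range (fun k => x k j)) : Submodule ℂ (Fin 4 → ℂ)) = 1
    rw [hAB]
    exact finrank_span_singleton (hne k j)
  · ext p
    constructor
    · rintro ⟨⟨k, j⟩, hz, rfl⟩
      refine ⟨k, j, ?_⟩
      show (Projectivization.mk ℂ (x k j) hz).submodule = Submodule.span ℂ (Set.range (x k)) ⊓
        Submodule.span ℂ (Set.range (fun k => x k j))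
      rw [hAB, Projectivization.submodule_mk]
    · rintro ⟨k, j, hp⟩
      have hp' : p.submodule = Submodule.span ℂ (Set.range (x k)) ⊓
        Submodule.span ℂ (Set.range (fun k => x k j)) := hp
      rw [hAB] at hp'
      refine ⟨(k, j), hne k j, ?_⟩
      apply Projectivization.submodule_injective
      rw [hp', Projectivization.submodule_mk]

end Pool.Agent.H3.GP

end S_H3_GP_GRD

section S_H3_GP_FIN

/-!
# FIN (MP_87ed0a_ag): assembly of the theorem on geproci sets near a grid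
-/

open Filter Topology

namespace Pool.Agent.H3.GP

private theorem FIN_transpose {p q : ℕ} {x : Fin p → Fin q → Fin 4 → ℂ} (h : GridVec p q x) :
    GridVec q p (fun j k => x k j) where
  ind := by
    intro j j' k k' hj hk
    have h1 := h.ind k k' j j' hk hj
    have h2 := h1.comp ![0, 2, 1, 3] (by decide)
    convert h2 using 1
    ext i
    fin_cases i <;> rfl
  col := fun j k₀ k₁ k hk => h.row j k₀ k₁ k hk
  row := fun k j₀ j₁ j hj => h.col k j₀ j₁ j hj

private theorem FIN_sub {k q : ℕ} {J K : Type} {x : J → Fin 4 → ℂ} (h : GenForm k q x)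
    (e : K → J) : GenForm k q (fun i => x (e i)) := by
  obtain ⟨D, hD, h⟩ := h
  refine ⟨D, hD, fun P hP π hπ => ?_⟩
  obtain ⟨f, hf0, hf1, hf2, hf3⟩ := h P hP π hπ
  exact ⟨f, hf0, hf1, hf2, fun j => hf3 (e j)⟩

private theorem FIN_smaller (a b : ℕ) (ha : 2 ≤ a) (hab : a ≤ b) (z₀ : Fin (a * b) → Fin 4 → ℂ)
    (e : Fin a × Fin b ≃ Fin (a * b)) (h0 : GridVec a b (fun k j => z₀ (e (k, j))))
    (c d : ℕ) (hc : c < a) : ∀ᶠ z in 𝓝 z₀, ¬ IsGeproci c d (pts z) := by
  by_contra hcon
  rw [← Filter.not_frequently, not_not] at hcon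
  obtain ⟨s, hs, hs2⟩ := Filter.exists_seq_forall_of_frequently hcon
  set U : Ultrafilter ℕ := Filter.hyperfilter ℕ
  have hU : (U : Filter ℕ) ≤ atTop := Nat.hyperfilter_le_atTop
  have hsU : Tendsto s (U : Filter ℕ) (𝓝 z₀) := hs.mono_left hU
  refine EXC U a b c ha (ha.trans hab) hc (fun k j => z₀ (e (k, j))) h0
    (fun t k j => s t (e (k, j))) (fun k j => ?_) (fun t => 1 / ((t : ℝ) + 1))
    (fun t => by positivity) (tendsto_one_div_add_atTop_nhds_zero_nat.mono_left hU) ?_
  · exact (tendsto_pi_nhds.1 hsU) (e (k, j))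
  · refine Filter.Eventually.of_forall fun t => ?_
    have h1 := (GEO c d (s t) (hs2 t)).1 b (hc.trans_le hab)
    exact FIN_sub h1 (fun kj : Fin a × Fin b => e (kj.1, kj.2))

private theorem FIN_col (a b p q : ℕ) (hp : 2 ≤ p) (hq : 2 ≤ q)
    (z₀ : Fin (a * b) → Fin 4 → ℂ) (e : Fin p → Fin q → Fin (a * b))
    (h0 : GridVec p q (fun k j => z₀ (e k j)))
    (hG : ∀ z : Fin (a * b) → Fin 4 → ℂ, IsGeproci a b (pts z) → GenForm p q z) :
    ∀ᶠ z in 𝓝 z₀, IsGeproci a b (pts z) → ∀ k0 j0 j1 j, j0 ≠ j1 →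
      z (e k0 j) ∈ Submodule.span ℂ {z (e k0 j0), z (e k0 j1)} := by
  by_contra hcon
  rw [Filter.not_eventually] at hcon
  obtain ⟨s, hs, hs2⟩ := Filter.exists_seq_forall_of_frequently hcon
  set U : Ultrafilter ℕ := Filter.hyperfilter ℕ
  have hU : (U : Filter ℕ) ≤ atTop := Nat.hyperfilter_le_atTop
  have hsU : Tendsto s (U : Filter ℕ) (𝓝 z₀) := hs.mono_left hU
  have hall : ∀ᶠ t in (U : Filter ℕ), ∀ k0 : Fin p, ∀ j0 j1 : Fin q, j0 ≠ j1 → ∀ j : Fin q,
      s t (e k0 j) ∈ Submodule.span ℂ {s t (e k0 j0), s t (e k0 j1)} := by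
    rw [Filter.eventually_all]
    intro k0
    rw [Filter.eventually_all]
    intro j0
    rw [Filter.eventually_all]
    intro j1
    by_cases hj : j0 = j1
    · exact Filter.Eventually.of_forall fun t h => absurd hj h
    · refine (LIN U p q hp hq (fun k j => z₀ (e k j)) h0 (fun t k j => s t (e k j))
        (fun k j => (tendsto_pi_nhds.1 hsU) (e k j)) ?_ k0 j0 j1 hj).mono fun t ht _ => ht
      refine Filter.Eventually.of_forall fun t => ?_
      have h1 : IsGeproci a b (pts (s t)) := by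
        by_contra hno
        exact hs2 t fun h => absurd h hno
      exact FIN_sub (hG (s t) h1) (fun kj : Fin p × Fin q => e kj.1 kj.2)
  obtain ⟨t, ht⟩ := hall.exists
  exact hs2 t fun _ k0 j0 j1 j hj => ht k0 j0 j1 hj j

/-- Near an `(a, b)`-grid every geproci set is an `(a, b)`-grid or is `(c, d)`-geproci with
`a < c ≤ d < b`, `c d = a b`. -/
theorem FIN (a b : ℕ) (z₀ : Fin (a * b) → Fin 4 → ℂ) (hgrid : IsGrid a b (pts z₀)) :
    ∀ᶠ z in 𝓝 z₀, ∀ c d, IsGeproci c d (pts z) →
      IsGrid a b (pts z) ∨ (a < c ∧ c ≤ d ∧ d < b ∧ c * d = a * b) := by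
  have ha : 2 ≤ a := hgrid.1
  have hab : a ≤ b := hgrid.2.1
  have hb : 2 ≤ b := ha.trans hab
  obtain ⟨e, h0⟩ := UNP a b z₀ hgrid
  -- openness of general position
  have hopen : ∀ᶠ z in 𝓝 z₀, ∀ k k' : Fin a, ∀ j j' : Fin b, k ≠ k' → j ≠ j' →
      LinearIndependent ℂ ![z (e (k, j)), z (e (k, j')), z (e (k', j)), z (e (k', j'))] := by
    have hcont : Tendsto (fun z : Fin (a * b) → Fin 4 → ℂ => fun (k : Fin a) (j : Fin b) =>
        z (e (k, j))) (𝓝 z₀) (𝓝 (fun k j => z₀ (e (k, j)))) := by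
      rw [tendsto_pi_nhds]
      intro k
      rw [tendsto_pi_nhds]
      intro j
      exact (continuous_apply (e (k, j))).tendsto z₀
    exact hcont.eventually (OPN a b _ h0)
  -- smaller degrees
  have hsmall : ∀ᶠ z in 𝓝 z₀, ∀ c ∈ Finset.range a, ∀ d ∈ Finset.range (a * b + 1),
      ¬ IsGeproci c d (pts z) := by
    rw [Filter.eventually_all_finset]
    intro c hc
    rw [Filter.eventually_all_finset]
    intro d _
    exact FIN_smaller a b ha hab z₀ e h0 c d (Finset.mem_range.1 hc)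
  -- columns
  have hcol := FIN_col a b a b ha hb z₀ (fun k j => e (k, j)) h0 (fun z hz => by
    rcases hab.eq_or_lt with h | h
    · subst h
      exact (GEO a a z hz).2
    · exact (GEO a b z hz).1 b h)
  -- rows
  have hrow := FIN_col a b b a hb ha z₀ (fun j k => e (k, j)) (FIN_transpose h0)
    (fun z hz => (GEO a b z hz).2)
  filter_upwards [hopen, hsmall, hcol, hrow] with z h1 h2 h3 h4 c d hcd
  have hpts : pts z = pts (fun kj : Fin a × Fin b => z (e (kj.1, kj.2))) := by
    ext p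
    constructor
    · rintro ⟨i, hi, rfl⟩
      refine ⟨e.symm i, ?_, ?_⟩
      · simpa using hi
      · simp
    · rintro ⟨kj, hi, rfl⟩
      exact ⟨e (kj.1, kj.2), hi, rfl⟩
  have hcard : (pts z).ncard = a * b := by
    rw [hpts]
    exact CNT a b ha hb (fun k j => z (e (k, j))) h1
  obtain ⟨hc1, hcd1, -, hcd2, -⟩ := id hcd
  have hmul : c * d = a * b := by rw [← hcd2, hcard]
  rcases lt_trichotomy c a with hlt | heq | hgt
  · exfalso
    refine h2 c (Finset.mem_range.2 hlt) d (Finset.mem_range.2 ?_) hcd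
    nlinarith
  · left
    subst heq
    have hd : d = b := Nat.eq_of_mul_eq_mul_left (by omega) hmul
    subst hd
    rw [hpts]
    exact GRD c d ha hab (fun k j => z (e (k, j)))
      { ind := h1
        col := fun k j₀ j₁ j hj => h3 hcd k j₀ j₁ j hj
        row := fun j k₀ k₁ k hk => h4 hcd j k₀ k₁ k hk }
  · right
    refine ⟨hgt, hcd1, ?_, hmul⟩
    by_contra hdb
    push Not at hdb
    have : a * b < c * d := by
      calc a * b < c * b := Nat.mul_lt_mul_of_pos_right hgt (by omega)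
        _ ≤ c * d := Nat.mul_le_mul_left c hdb
    omega

end Pool.Agent.H3.GP

end S_H3_GP_FIN

section S_H80_GP_Cm6

/-!
# Row Cm6 (MP_87ed0a_GP): `g = 0`, no loss, `a + b = c + d + 1`  (about 120 lines)

By `lam_le_one` and `pos`, `lam p i = 1` for `g p < i ≤ n p`, so `∑_{i=1}^{n p} lam i (lam i - 1) = ∑_{i ≤ g p} lam i (lam i - 1) ≤ g p (c-1)(c-2)` (`lam i ≤ c - 1`).  `star`:
`c(c-1) ∑ dl g + (d-c)(c+d-1) eF ≤ (c-1)(c-2) ∑ dl g`, so `∑ dl g = 0` (`c(c-1) > (c-1)(c-2)`), all `g p = 0` (`dl p ≥ 1`), and `(d-c)(c+d-1) eF = 0`.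
`loss`: the second alternative would give `d - c = 1`, so `eF = 0`, `.. + 1 ≤ 0`: impossible.  So all `jj p = 0`.
`P_ineq` with `g = 0`, `jj = 0` (`HH = 0`, `XX = 0` since `lam = 1`): `(c+d-1) a b (a+b-c-d-1) ≤ 0`, so `a + b ≤ c + d + 1`; `ar_kappa` gives `a + b ≥ c + d + 1`.
-/

namespace GP80

open Finset

theorem g_zero {a b c d : ℕ} {P : Type} [Fintype P] {dl g n jj : P → ℕ} {lam : P → ℕ → ℕ}
    {om : P → Fin a × Fin b → ℕ} {vt : P → Finset (Fin a × Fin b)}
    {oL : P → (Fin a × Fin b) → (Fin a × Fin b) → ℕ} {eF : ℕ}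
    (h : CombD a b c d dl g n jj lam om vt oL eF) :
    (∀ p, g p = 0) ∧ (∀ p, jj p = 0) ∧ (∀ p i, 1 ≤ i → i ≤ n p → lam p i = 1) ∧
      a + b = c + d + 1 := by
  have ha2 := h.a2
  have hac := h.ac
  have hcd := h.cd
  have hdb := h.db
  have hlam1 : ∀ p i, g p < i → i ≤ n p → lam p i = 1 := by
    intro p i h1 h2
    have h3 := lam_le_one h p i h1 h2
    have h4 := h.pos p i (by omega) h2
    omega
  have hterm : ∀ p, ∑ i ∈ Icc 1 (n p), lam p i * (lam p i - 1) ≤
      g p * ((c - 1) * (c - 2)) := by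
    intro p
    have h1 : ∀ i ∈ Icc 1 (n p), lam p i * (lam p i - 1) ≤
        if i ≤ g p then (c - 1) * (c - 2) else 0 := by
      intro i hi
      rw [mem_Icc] at hi
      split_ifs with h2
      · have h3 := h.up p i hi.1
        exact Nat.mul_le_mul (by omega) (by omega)
      · rw [hlam1 p i (by omega) hi.2]
    refine (sum_le_sum h1).trans ?_
    rw [← sum_filter, sum_const, smul_eq_mul]
    refine Nat.mul_le_mul_right _ ?_
    have h2 : (Icc 1 (n p)).filter (fun i => i ≤ g p) ⊆ Icc 1 (g p) := by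
      intro i hi
      rw [mem_filter, mem_Icc] at hi
      rw [mem_Icc]
      exact ⟨hi.1.1, hi.2⟩
    refine (card_le_card h2).trans ?_
    rw [Nat.card_Icc]
    omega
  have hstar := h.star
  have hsum : ∑ p, dl p * ∑ i ∈ Icc 1 (n p), lam p i * (lam p i - 1) ≤
      (c - 1) * (c - 2) * ∑ p, dl p * g p := by
    rw [mul_sum]
    refine sum_le_sum fun p _ => ?_
    refine (Nat.mul_le_mul_left _ (hterm p)).trans (le_of_eq ?_)
    ring
  obtain ⟨G, hG⟩ : ∃ G, G = ∑ p, dl p * g p := ⟨_, rfl⟩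
  rw [← hG] at hsum hstar
  obtain ⟨c', hc'⟩ : ∃ c', c = c' + 3 := ⟨c - 3, by omega⟩
  have hst2 : c * (c - 1) * G + (d - c) * (c + d - 1) * eF ≤ (c - 1) * (c - 2) * G :=
    hstar.trans hsum
  have hG0 : G = 0 := by
    by_contra hcon
    have h1 : 1 ≤ G := Nat.one_le_iff_ne_zero.2 hcon
    have h2 : c * (c - 1) * G ≤ (c - 1) * (c - 2) * G := le_trans (Nat.le_add_right _ _) hst2
    rw [hc', show c' + 3 - 1 = c' + 2 by omega, show c' + 3 - 2 = c' + 1 by omega] at h2
    have h3 := Nat.le_of_mul_le_mul_right h2 h1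
    nlinarith
  have hE0 : (d - c) * (c + d - 1) * eF = 0 := by
    rw [hG0] at hst2
    simpa using hst2
  have hg : ∀ p, g p = 0 := by
    intro p
    rw [hG0] at hG
    have h1 := (sum_eq_zero_iff.1 hG.symm) p (mem_univ p)
    have h2 := h.dl1 p
    rcases Nat.mul_eq_zero.1 h1 with h3 | h3
    · omega
    · exact h3
  have hj : ∀ p, jj p = 0 := by
    rcases h.loss with h1 | ⟨h1, h2⟩
    · exact h1
    · exfalso
      rw [h1, show c + 1 - c = 1 by omega, one_mul] at hE0
      rcases Nat.mul_eq_zero.1 hE0 with h3 | h3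
      · omega
      · rw [h3] at h2
        omega
  have hl : ∀ p i, 1 ≤ i → i ≤ n p → lam p i = 1 := by
    intro p i h1 h2
    exact hlam1 p i (by rw [hg p]; omega) h2
  refine ⟨hg, hj, hl, ?_⟩
  have hP := P_ineq h
  have e1 : ∑ p ∈ univ.filter (fun p => dl p = 1), XXz c d (g p) (n p) (lam p) = 0 := by
    refine sum_eq_zero fun p _ => ?_
    unfold XXz
    refine sum_eq_zero fun i hi => ?_
    rw [mem_Ioc, hg p] at hi
    rw [hl p i (by omega) hi.2]
    simp
  have e2 : ∑ p, (dl p : ℤ) * jj p = 0 := sum_eq_zero fun p _ => by rw [hj p]; simp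
  have e3 : ∑ p ∈ univ.filter (fun p => dl p = 1), (g p : ℤ) * ((vt p).card + b - a) = 0 :=
    sum_eq_zero fun p _ => by rw [hg p]; simp
  have e4 : ∑ p ∈ univ.filter (fun p => dl p = 1), HHz c d (g p) (lam p) = 0 := by
    refine sum_eq_zero fun p _ => ?_
    unfold HHz
    rw [hg p]
    simp
  have e5 : ∑ p ∈ univ.filter (fun p => dl p ≠ 1), (dl p : ℤ) * g p *
      (((c : ℤ) + d - 1) * (a * b + 1) + b - a) = 0 :=
    sum_eq_zero fun p _ => by rw [hg p]; simp
  rw [e1, e2, e3, e4, e5] at hP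
  simp only [mul_zero, add_zero] at hP
  have hN : (c : ℤ) * d = a * b := by exact_mod_cast h.N
  obtain ⟨_, h2⟩ := ar_kappa (a := (a : ℤ)) (b := b) (c := c) (d := d) (by exact_mod_cast ha2)
    (by exact_mod_cast hac) (by exact_mod_cast hcd) hN
  have h3 : (a : ℤ) + b - c - d - 1 ≤ 0 := by
    by_contra hcon
    push Not at hcon
    have h4 : 0 < ((c : ℤ) + d - 1) * (a * b) := by
      have h5 : (0 : ℤ) < a := by exact_mod_cast (by omega : 0 < a)
      have h6 : (0 : ℤ) < b := by exact_mod_cast (by omega : 0 < b)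
      have h7 : (0 : ℤ) < (c : ℤ) + d - 1 := by
        have h8 : (3 : ℤ) ≤ c := by exact_mod_cast (by omega : 3 ≤ c)
        have h9 : (3 : ℤ) ≤ d := by exact_mod_cast (by omega : 3 ≤ d)
        linarith
      exact mul_pos h7 (mul_pos h5 h6)
    have h5 := mul_pos h4 hcon
    linarith
  omega

end GP80

end S_H80_GP_Cm6

section S_H80_GP_Grd

/-!
# Row Grd (MP_87ed0a_GP): the gradient lemma on chords 2.4 (i)  (about 170 lines)

`A = AL z z'`, `κ` its residue field, `v = vz A 0 z`, `v' = vz A 0 z'`, `s j = j + 1` (`succAbove 0`).  `P_0` is a unit of `A` (`X0_not_mem`, `AL_unit`).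
Let `u_j = z'_(s j)/z'_0 - z_(s j)/z_0 ∈ ℂ`: `v' = v + u` (the terms `P_(s j)/P_0` cancel); `u ≠ 0` because `z, z'` are linearly independent.
1. In `κ^3`: `v̄ = κ1 u`, `v̄' = (κ1 + 1) u` with `κ1 ≠ 0`, `κ1 + 1 ≠ 0`.  Proof: `P_0 v_j = algebraMap (P_0 z_(s j)/z_0 - P_(s j))`, and at `P = S z + T z'` the polynomial `P_0 z_(s j)/z_0 - P_(s j)` takes the value
   `(S z_0 + T z'_0) z_(s j)/z_0 - S z_(s j) - T z'_(s j) = - T z'_0 u_j`.  So `P_0 (v_j u_l - v_l u_j)` is the image of an element of `pL`, hence `v̄_j u_l = v̄_l u_j`; choose `l` with `u_l ≠ 0`, `κ1 := v̄_l/u_l`; `κ1 ≠ 0`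
   because `- T z'_0 u_l ≠ 0` (`z'_0 ≠ 0`).  Similarly `P_0 v'_l` has value `S z_0 u_l ≠ 0`.
2. Obtain `der` with `obtain ⟨der, hder⟩ := exists_der (AL z z') (pL z z').primeCompl 0` (do not write the type `Derivation ℤ (AL z z') (AL z z')` explicitly: two different `ℤ`-algebra instances; prove the step for a
   generic domain `O` with `[CommRing O] [IsDomain O] [Algebra RR O]` and `IsDer O 0 der`, and apply it).  `der_j (v_i) = - δ_ij` and `der_j (v'_i) = - δ_ij` (from `IsDer`, as in Row Geo: `P_0 v_i = z_(s i)/z_0 P_0 - P_(s i)`, `der_j P_0 = 0`, `der_j P_(s i) = P_0 δ_ij`).  `cder_eval`: `0 = der_j (H(v)) = (cder_j H)(v) - (∂_j H)(v)`,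
   and the same at `v'`.
3. Let `p, q ∈ κ` be the values at `u` of the reductions of `∂_j H` (degree `t - 1`) and `cder_j H` (degree `t`).  For `t ≥ 1`: `κ1^(t-1) p = κ1^t q`, `(κ1+1)^(t-1) p = (κ1+1)^t q` (homogeneity: `eval (a • u) = a^t eval u`), so
   `p = κ1 q = (κ1 + 1) q`, `q = 0`, `p = 0`, and the residue of `(∂_j H)(v)` is `κ1^(t-1) p = 0`.  For `t = 0`, `∂_j H = 0`.
* `jac_sq`: consequently for `F, G` vanishing at both points, a Jacobian `J` at `v` (`∇F × ∇G = J v`) is in `m^2`: the components of the cross product are in `m^2`, and some `v_l` is a unit (`v̄ = κ1 u ≠ 0`).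
-/

namespace GP80

open MvPolynomial

theorem Grd_smul {κ : Type} [Field κ] {P : MvPolynomial (Fin 3) κ} {n : ℕ}
    (hP : P.IsHomogeneous n) (a : κ) (u : Fin 3 → κ) :
    eval (fun i => a * u i) P = a ^ n * eval u P := by
  rw [eval_eq', eval_eq', Finset.mul_sum]
  refine Finset.sum_congr rfl fun d hd => ?_
  have h1 : ∑ i, d i = n := by
    have h2 := hP (mem_support_iff.1 hd)
    rw [Finsupp.weight_apply, Finsupp.sum_fintype _ _ (by simp)] at h2
    simpa using h2
  simp only [mul_pow, Finset.prod_mul_distrib]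
  rw [Finset.prod_pow_eq_pow_sum, h1]
  ring

theorem Grd_field {κ : Type} [Field κ] {P Q : MvPolynomial (Fin 3) κ} {t : ℕ} (ht : 1 ≤ t)
    (hP : P.IsHomogeneous (t - 1)) (hQ : Q.IsHomogeneous t) (a : κ) (u : Fin 3 → κ)
    (ha : a ≠ 0) (hb : a + 1 ≠ 0)
    (h1 : eval (fun i => a * u i) P = eval (fun i => a * u i) Q)
    (h2 : eval (fun i => (a + 1) * u i) P = eval (fun i => (a + 1) * u i) Q) :
    eval (fun i => a * u i) P = 0 := by
  obtain ⟨n, rfl⟩ : ∃ n, t = n + 1 := ⟨t - 1, by omega⟩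
  rw [Nat.add_sub_cancel] at hP
  rw [Grd_smul hP, Grd_smul hQ, pow_succ, mul_assoc] at h1 h2
  have h3 := mul_left_cancel₀ (pow_ne_zero n ha) h1
  have h4 := mul_left_cancel₀ (pow_ne_zero n hb) h2
  rw [h3] at h4
  have h5 : eval u Q = 0 := by
    have : (a + 1) * eval u Q - a * eval u Q = eval u Q := by ring
    rw [← this, h4, sub_self]
  rw [Grd_smul hP, h3, h5, mul_zero, mul_zero]

/-- the linear forms -/
noncomputable def Grd_n (z : Fin 4 → ℂ) (j : Fin 3) : RR :=
  C (z ((0 : Fin 4).succAbove j) / z 0) * X 0 - X ((0 : Fin 4).succAbove j)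

theorem Grd_vz {O : Type} [CommRing O] [Algebra RR O] (z : Fin 4 → ℂ)
    (hX : IsUnit (algebraMap RR O (X 0))) (j : Fin 3) :
    algebraMap RR O (X 0) * vz O 0 z j = algebraMap RR O (Grd_n z j) := by
  rw [vz, Grd_n, map_sub, map_mul, mul_sub]
  rw [mul_left_comm _ (algebraMap RR O (X ((0 : Fin 4).succAbove j))) _, Ring.mul_inverse_cancel _ hX]
  ring

theorem Grd_der {O : Type} [CommRing O] [Algebra RR O] (z : Fin 4 → ℂ)
    (hX : IsUnit (algebraMap RR O (X 0))) {der : Fin 3 → Derivation ℤ O O} (hder : IsDer O 0 der)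
    (j i : Fin 3) : der j (vz O 0 z i) = if i = j then -1 else 0 := by
  have h1 := congrArg (der j) (Grd_vz z hX i)
  rw [Derivation.leibniz, hder, hder, smul_eq_mul, smul_eq_mul] at h1
  have h2 : pderiv ((0 : Fin 4).succAbove j) (X 0 : RR) = 0 :=
    pderiv_X_of_ne (Fin.succAbove_ne 0 j).symm
  have h3 : pderiv ((0 : Fin 4).succAbove j) (Grd_n z i) = if i = j then -1 else 0 := by
    rw [Grd_n, map_sub, pderiv_C_mul, h2, mul_zero, zero_sub]
    by_cases h : i = j
    · rw [h, pderiv_X_self, if_pos rfl]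
    · rw [pderiv_X_of_ne (fun h' => h (Fin.succAbove_right_injective h').symm.symm), if_neg h,
        neg_zero]
  rw [h2, h3, mul_zero, map_zero, mul_zero, add_zero, map_mul] at h1
  have h4 := hX.mul_left_cancel h1
  rw [h4]
  split_ifs
  · rw [map_neg, map_one]
  · rw [map_zero]

theorem Grd_gen {O : Type} [CommRing O] [IsLocalRing O] [Algebra RR O]
    {der : Fin 3 → Derivation ℤ O O} (hder : IsDer O 0 der)
    (hX : IsUnit (algebraMap RR O (X 0))) (z z' : Fin 4 → ℂ) (u : Fin 3 → ℂ) (l : Fin 3)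
    (hul : u l ≠ 0)
    (hu : ∀ j : Fin 3, z' ((0 : Fin 4).succAbove j) / z' 0 = z ((0 : Fin 4).succAbove j) / z 0 + u j)
    (hprop : ∀ j, algebraMap RR O (Grd_n z j * C (u l) - Grd_n z l * C (u j)) ∈
      IsLocalRing.maximalIdeal O)
    (hn : IsUnit (algebraMap RR O (Grd_n z l))) (hn' : IsUnit (algebraMap RR O (Grd_n z' l)))
    {H : MvPolynomial (Fin 3) O} {t : ℕ} (hH : H.IsHomogeneous t)
    (h1 : eval (vz O 0 z) H = 0) (h2 : eval (vz O 0 z') H = 0) (j : Fin 3) :
    eval (vz O 0 z) (pderiv j H) ∈ IsLocalRing.maximalIdeal O := by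
  obtain ⟨ρ, hρ⟩ : ∃ ρ : O →+* IsLocalRing.ResidueField O, ρ = IsLocalRing.residue O := ⟨_, rfl⟩
  have hρ0 : ∀ a : O, ρ a = 0 ↔ a ∈ IsLocalRing.maximalIdeal O := by
    intro a
    rw [hρ]
    exact IsLocalRing.residue_eq_zero_iff a
  have hev : ∀ (v : Fin 3 → O) (P : MvPolynomial (Fin 3) O),
      ρ (eval v P) = eval (fun i => ρ (v i)) (map ρ P) := by
    intro v P
    rw [eval_map, eval₂_comp]
    rfl
  have hu0 : IsUnit (algebraMap RR O (C (u l))) := by
    have : IsUnit (u l) := isUnit_iff_ne_zero.2 hul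
    exact (this.map (C : ℂ →+* RR)).map (algebraMap RR O)
  have hunit : ∀ a : O, IsUnit a → ρ a ≠ 0 := by
    intro a ha h0
    exact (IsLocalRing.mem_maximalIdeal a).1 ((hρ0 a).1 h0) ha
  have hv' : ∀ i, vz O 0 z' i = vz O 0 z i + algebraMap RR O (C (u i)) := by
    intro i
    rw [vz, vz, hu i, map_add, map_add]
    ring
  obtain ⟨w, hw⟩ : ∃ w : Fin 3 → IsLocalRing.ResidueField O,
    w = fun i => ρ (algebraMap RR O (C (u i))) := ⟨_, rfl⟩
  have hwl : w l ≠ 0 := by
    rw [hw]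
    exact hunit _ hu0
  obtain ⟨a, ha⟩ : ∃ a : IsLocalRing.ResidueField O, a = ρ (vz O 0 z l) / w l := ⟨_, rfl⟩
  have hX0 := hunit _ hX
  have hv : ∀ i, ρ (vz O 0 z i) = a * w i := by
    intro i
    have h3 := (hρ0 _).2 (hprop i)
    rw [map_sub, map_mul, map_mul, ← Grd_vz z hX, ← Grd_vz z hX, map_sub, map_mul, map_mul,
      map_mul, map_mul] at h3
    have h4 : ρ (algebraMap RR O (X 0)) * (ρ (vz O 0 z i) * w l - ρ (vz O 0 z l) * w i) = 0 := by
      rw [hw, ← h3]
      ring
    have h5 := (mul_eq_zero.1 h4).resolve_left hX0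
    rw [ha, div_mul_eq_mul_div, eq_div_iff hwl]
    exact sub_eq_zero.1 h5
  have hvv : ∀ i, ρ (vz O 0 z' i) = (a + 1) * w i := by
    intro i
    rw [hv' i, map_add, hv i, hw]
    ring
  have ha0 : a ≠ 0 := by
    intro h0
    have h3 := hunit _ hn
    rw [← Grd_vz z hX, map_mul, hv l, h0, zero_mul, mul_zero] at h3
    exact h3 rfl
  have hb0 : a + 1 ≠ 0 := by
    intro h0
    have h3 := hunit _ hn'
    rw [← Grd_vz z' hX, map_mul, hvv l, h0, zero_mul, mul_zero] at h3
    exact h3 rfl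
  have hc : ∀ y : Fin 4 → ℂ, eval (vz O 0 y) H = 0 →
      eval (vz O 0 y) (pderiv j H) = eval (vz O 0 y) (cder (der j) H) := by
    intro y hy
    have h3 := cder_eval (der j) H (vz O 0 y)
    rw [hy, map_zero] at h3
    have h4 : ∑ i, eval (vz O 0 y) (pderiv i H) * der j (vz O 0 y i) =
        - eval (vz O 0 y) (pderiv j H) := by
      rw [Finset.sum_eq_single j]
      · rw [Grd_der y hX hder, if_pos rfl]
        ring
      · intro b _ hb
        rw [Grd_der y hX hder, if_neg hb, mul_zero]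
      · intro h
        exact absurd (Finset.mem_univ j) h
    rw [h4] at h3
    exact (sub_eq_zero.1 (by rw [sub_eq_add_neg]; exact h3.symm)).symm
  rw [← hρ0]
  rcases Nat.eq_zero_or_pos t with ht | ht
  · subst ht
    have h3 : pderiv j H = 0 := by
      have h4 : H.totalDegree = 0 := Nat.le_zero.1 hH.totalDegree_le
      rw [totalDegree_eq_zero_iff_eq_C] at h4
      rw [h4]
      exact pderiv_C
    rw [h3, map_zero, map_zero]
  · have e1 := congrArg ρ (hc z h1)
    have e2 := congrArg ρ (hc z' h2)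
    rw [hev, hev] at e1 e2
    have f1 : (fun i => ρ (vz O 0 z i)) = fun i => a * w i := funext hv
    have f2 : (fun i => ρ (vz O 0 z' i)) = fun i => (a + 1) * w i := funext hvv
    rw [f1] at e1
    rw [f2] at e2
    have hPh : (map ρ (pderiv j H)).IsHomogeneous (t - 1) := (hH.pderiv).map ρ
    have hQh : (map ρ (cder (der j) H)).IsHomogeneous t := (cder_homog (der j) hH).map ρ
    rw [hev, f1]
    exact Grd_field ht hPh hQh a w ha0 hb0 e1 e2

theorem Grd_phi (z z' y : Fin 4 → ℂ) (j : Fin 3) :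
    eval₂Hom (C : ℂ →+* MvPolynomial (Fin 2) ℂ) (fun i => X 0 * C (z i) + X 1 * C (z' i))
      (Grd_n y j) = X 0 * C (z 0 * (y ((0 : Fin 4).succAbove j) / y 0) - z ((0 : Fin 4).succAbove j))
        + X 1 * C (z' 0 * (y ((0 : Fin 4).succAbove j) / y 0) - z' ((0 : Fin 4).succAbove j)) := by
  rw [Grd_n, map_sub, map_mul]
  simp only [coe_eval₂Hom, eval₂_C, eval₂_X, map_sub, map_mul]
  ring

theorem Grd_exists {z z' : Fin 4 → ℂ} (hz : ∀ l, z l ≠ 0) (hz' : ∀ l, z' l ≠ 0)
    (hind : LinearIndependent ℂ ![z, z']) :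
    ∃ (u : Fin 3 → ℂ) (l : Fin 3), u l ≠ 0 ∧
      (∀ j : Fin 3, z' ((0 : Fin 4).succAbove j) / z' 0 =
        z ((0 : Fin 4).succAbove j) / z 0 + u j) := by
  by_contra hcon
  push Not at hcon
  have h1 : ∀ j : Fin 3, z' ((0 : Fin 4).succAbove j) / z' 0 =
      z ((0 : Fin 4).succAbove j) / z 0 := by
    intro j
    by_contra hj
    obtain ⟨i, hi⟩ := hcon (fun j => z' ((0 : Fin 4).succAbove j) / z' 0 -
      z ((0 : Fin 4).succAbove j) / z 0) j (sub_ne_zero.2 hj)
    apply hi
    ring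
  have h2 : ∀ i : Fin 4, z' 0 * z i + (- z 0) * z' i = 0 := by
    intro i
    rcases Fin.eq_zero_or_eq_succ i with rfl | ⟨j, rfl⟩
    · ring
    · have h3 := h1 j
      rw [Fin.succAbove_zero] at h3
      rw [div_eq_div_iff (hz' 0) (hz 0)] at h3
      linear_combination -h3
  have h4 := LinearIndependent.pair_iff.1 hind (z' 0) (- z 0) (by
    ext i
    simpa using h2 i)
  exact hz' 0 h4.1

theorem grad_line {z z' : Fin 4 → ℂ} (hz : ∀ l, z l ≠ 0) (hz' : ∀ l, z' l ≠ 0)
    (hind : LinearIndependent ℂ ![z, z']) {H : MvPolynomial (Fin 3) (AL z z')} {t : ℕ}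
    (hH : H.IsHomogeneous t) (h1 : eval (vz (AL z z') 0 z) H = 0)
    (h2 : eval (vz (AL z z') 0 z') H = 0) (j : Fin 3) :
    eval (vz (AL z z') 0 z) (pderiv j H) ∈ IsLocalRing.maximalIdeal (AL z z') := by
  obtain ⟨der, hder⟩ := exists_der (AL z z') (pL z z').primeCompl 0
  obtain ⟨u, l, hul, hu⟩ := Grd_exists hz hz' hind
  have hX : IsUnit (algebraMap RR (AL z z') (X 0)) := (AL_unit z z' _).2 (X0_not_mem (hz 0))
  have e1 : ∀ j, eval₂Hom (C : ℂ →+* MvPolynomial (Fin 2) ℂ)
      (fun i => X 0 * C (z i) + X 1 * C (z' i)) (Grd_n z j) = - (X 1 * C (z' 0 * u j)) := by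
    intro j
    have h3 : z 0 * (z ((0 : Fin 4).succAbove j) / z 0) - z ((0 : Fin 4).succAbove j) = 0 := by
      rw [mul_div_cancel₀ _ (hz 0), sub_self]
    have h4 : z' 0 * (z ((0 : Fin 4).succAbove j) / z 0) - z' ((0 : Fin 4).succAbove j) =
        - (z' 0 * u j) := by
      have h5 := hu j
      rw [div_eq_iff (hz' 0)] at h5
      rw [h5]
      ring
    rw [Grd_phi, h3, h4, map_zero, mul_zero, zero_add, map_neg, mul_neg]
  have e2 : ∀ j, eval₂Hom (C : ℂ →+* MvPolynomial (Fin 2) ℂ)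
      (fun i => X 0 * C (z i) + X 1 * C (z' i)) (Grd_n z' j) = X 0 * C (z 0 * u j) := by
    intro j
    have h3 : z' 0 * (z' ((0 : Fin 4).succAbove j) / z' 0) - z' ((0 : Fin 4).succAbove j) = 0 := by
      rw [mul_div_cancel₀ _ (hz' 0), sub_self]
    have h4 : z 0 * (z' ((0 : Fin 4).succAbove j) / z' 0) - z ((0 : Fin 4).succAbove j) =
        z 0 * u j := by
      rw [hu j, mul_add, mul_div_cancel₀ _ (hz 0)]
      ring
    rw [Grd_phi, h3, h4, map_zero, mul_zero, add_zero]
  refine Grd_gen hder hX z z' u l hul hu ?_ ?_ ?_ hH h1 h2 j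
  · intro j
    rw [AL_mem_max, pL, RingHom.mem_ker, map_sub, map_mul, map_mul, e1, e1]
    simp only [coe_eval₂Hom, eval₂_C, map_mul]
    ring
  · rw [AL_unit, pL, RingHom.mem_ker, e1]
    rw [neg_eq_zero, mul_eq_zero, not_or]
    exact ⟨X_ne_zero 1, C_ne_zero.2 (mul_ne_zero (hz' 0) hul)⟩
  · rw [AL_unit, pL, RingHom.mem_ker, e2]
    rw [mul_eq_zero, not_or]
    exact ⟨X_ne_zero 0, C_ne_zero.2 (mul_ne_zero (hz 0) hul)⟩

theorem jac_sq {z z' : Fin 4 → ℂ} (hz : ∀ l, z l ≠ 0) (hz' : ∀ l, z' l ≠ 0)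
    (hind : LinearIndependent ℂ ![z, z']) {F G : MvPolynomial (Fin 3) (AL z z')} {c d : ℕ}
    (hF : F.IsHomogeneous c) (hG : G.IsHomogeneous d) (h1 : eval (vz (AL z z') 0 z) F = 0)
    (h2 : eval (vz (AL z z') 0 z') F = 0) (h3 : eval (vz (AL z z') 0 z) G = 0)
    (h4 : eval (vz (AL z z') 0 z') G = 0) {J : AL z z'} (hJ : IsJ3 F G (vz (AL z z') 0 z) J) :
    J ∈ IsLocalRing.maximalIdeal (AL z z') ^ 2 := by
  obtain ⟨u, l, hul, hu⟩ := Grd_exists hz hz' hind
  have hX : IsUnit (algebraMap RR (AL z z') (X 0)) := (AL_unit z z' _).2 (X0_not_mem (hz 0))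
  have e1 : eval₂Hom (C : ℂ →+* MvPolynomial (Fin 2) ℂ)
      (fun i => X 0 * C (z i) + X 1 * C (z' i)) (Grd_n z l) = - (X 1 * C (z' 0 * u l)) := by
    have h3 : z 0 * (z ((0 : Fin 4).succAbove l) / z 0) - z ((0 : Fin 4).succAbove l) = 0 := by
      rw [mul_div_cancel₀ _ (hz 0), sub_self]
    have h4 : z' 0 * (z ((0 : Fin 4).succAbove l) / z 0) - z' ((0 : Fin 4).succAbove l) =
        - (z' 0 * u l) := by
      have h5 := hu l
      rw [div_eq_iff (hz' 0)] at h5
      rw [h5]
      ring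
    rw [Grd_phi, h3, h4, map_zero, mul_zero, zero_add, map_neg, mul_neg]
  have hn : IsUnit (algebraMap RR (AL z z') (Grd_n z l)) := by
    rw [AL_unit, pL, RingHom.mem_ker, e1]
    rw [neg_eq_zero, mul_eq_zero, not_or]
    exact ⟨X_ne_zero 1, C_ne_zero.2 (mul_ne_zero (hz' 0) hul)⟩
  have hvl : IsUnit (vz (AL z z') 0 z l) := by
    rw [← Grd_vz z hX l] at hn
    exact isUnit_of_mul_isUnit_right hn
  have gF := fun i => grad_line hz hz' hind hF h1 h2 i
  have gG := fun i => grad_line hz hz' hind hG h3 h4 i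
  have hm : ∀ i k, grad F (vz (AL z z') 0 z) i * grad G (vz (AL z z') 0 z) k ∈
      IsLocalRing.maximalIdeal (AL z z') ^ 2 := by
    intro i k
    rw [pow_two]
    exact Ideal.mul_mem_mul (gF i) (gG k)
  have hcr : crossProduct (grad F (vz (AL z z') 0 z)) (grad G (vz (AL z z') 0 z)) l ∈
      IsLocalRing.maximalIdeal (AL z z') ^ 2 := by
    rw [cross_apply]
    fin_cases l
    · exact sub_mem (hm 1 2) (hm 2 1)
    · exact sub_mem (hm 2 0) (hm 0 2)
    · exact sub_mem (hm 0 1) (hm 1 0)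
  rw [hJ, Pi.smul_apply, smul_eq_mul] at hcr
  obtain ⟨w, hw⟩ := hvl
  rw [← hw] at hcr
  have h5 := Ideal.mul_mem_right ((w⁻¹ : (AL z z')ˣ) : AL z z') _ hcr
  rwa [mul_assoc, Units.mul_inv, mul_one] at h5

end GP80

end S_H80_GP_Grd

section S_H80_GP_Nok

/-!
# Row Nok (MP_87ed0a_GP): assembly of the near-grid conditions; coordinates; general position  (about 150 lines)

* `near_ok`: `co`: continuity; `ind`: `OPN`; `pl`: `near_planes`; `ch`: `near_chords`; `sf`: for each `δ ≤ Bd` (finite) `surf_near` with `surf_exact`.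
* `geom_of_near`: pairwise independence of two vectors with different indices: they are two of four independent vectors (`ind`, using another row or column; `a, b ≥ 2`); span: four independent vectors of `ℂ^4`
  (`LinearIndependent.span_eq_top_of_card_eq_finrank`).
* `exists_coords`: for finitely many nonzero vectors `y s` of `ℂ^4` there is an invertible matrix `M` such that all coordinates of all `M y_s` are nonzero: the polynomial `det(M) * ∏_{s,i} (∑_j M_ij y_sj)` in the 16 entries of `M` is nonzero, so it has a nonzero value (`MvPolynomial.funext`).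
* `gridVec_mulVec`: `GridVec` is preserved by an invertible matrix.
-/

open Filter Topology Pool.Agent.H3.GP

namespace GP80

open MvPolynomial

theorem near_ok {a b : ℕ} (ha : 2 ≤ a) (hb : 2 ≤ b) (x0 : Fin a → Fin b → Fin 4 → ℂ)
    (h0 : GridVec a b x0) (hc : ∀ k m i, x0 k m i ≠ 0) (Bd : ℕ) :
    ∀ᶠ x in 𝓝 x0, NearOK a b x Bd := by
  have hco : ∀ᶠ x in 𝓝 x0, ∀ k m i, x k m i ≠ 0 := by
    rw [Filter.eventually_all]
    intro k
    rw [Filter.eventually_all]
    intro m
    rw [Filter.eventually_all]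
    intro i
    have h1 : Continuous (fun x : Fin a → Fin b → Fin 4 → ℂ => x k m i) :=
      (continuous_apply i).comp ((continuous_apply m).comp (continuous_apply k))
    exact h1.continuousAt.eventually_ne (hc k m i)
  have hsf : ∀ᶠ x in 𝓝 x0, ∀ δ : Fin (Bd + 1), ∀ π : RR, π.IsHomogeneous (δ : ℕ) → π ≠ 0 →
      surfSum x π ≤ (a - 1) * (a * b) * (δ : ℕ) := by
    rw [Filter.eventually_all]
    intro δ
    exact surf_near x0 δ _ (fun π hπ h => surf_exact ha hb x0 h0 hπ h)
  filter_upwards [hco, OPN a b x0 h0, near_planes ha hb x0 h0, near_chords ha hb x0 h0, hsf]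
    with x h1 h2 h3 h4 h5
  exact ⟨h1, h2, h3, h4, fun δ hδ π hπ h => h5 ⟨δ, Nat.lt_succ_of_le hδ⟩ π hπ h⟩

theorem Nok_pair {a b : ℕ} (ha : 2 ≤ a) (hb : 2 ≤ b) (x : Fin a → Fin b → Fin 4 → ℂ)
    (h : ∀ k k' j j', k ≠ k' → j ≠ j' →
      LinearIndependent ℂ ![x k j, x k j', x k' j, x k' j'])
    (k k' : Fin a) (j j' : Fin b) (hne : (k, j) ≠ (k', j')) :
    LinearIndependent ℂ ![x k j, x k' j'] := by
  by_cases hk : k = k'
  · subst hk
    have hj : j ≠ j' := fun h1 => hne (by rw [h1])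
    have : Nontrivial (Fin a) := Fin.nontrivial_iff_two_le.2 ha
    obtain ⟨k2, hk2⟩ := exists_ne k
    have h1 := h k k2 j j' hk2.symm hj
    have h2 := h1.comp ![0, 1] (by decide)
    convert h2 using 1
    ext i
    fin_cases i <;> rfl
  · by_cases hj : j = j'
    · subst hj
      have : Nontrivial (Fin b) := Fin.nontrivial_iff_two_le.2 hb
      obtain ⟨j2, hj2⟩ := exists_ne j
      have h1 := h k k' j j2 hk hj2.symm
      have h2 := h1.comp ![0, 2] (by decide)
      convert h2 using 1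
      ext i
      fin_cases i <;> rfl
    · have h1 := h k k' j j' hk hj
      have h2 := h1.comp ![0, 3] (by decide)
      convert h2 using 1
      ext i
      fin_cases i <;> rfl

theorem geom_of_near {a b : ℕ} (ha : 2 ≤ a) (hb : 2 ≤ b) {x : Fin a → Fin b → Fin 4 → ℂ} {Bd : ℕ}
    (h : NearOK a b x Bd) : Geom (fun s : Fin a × Fin b => x s.1 s.2) := by
  refine ⟨fun s i => h.co s.1 s.2 i, ?_, ?_⟩
  · rintro ⟨k, j⟩ ⟨k', j'⟩ hne
    exact Nok_pair ha hb x h.ind k k' j j' hne
  · have : Nontrivial (Fin a) := Fin.nontrivial_iff_two_le.2 ha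
    have : Nontrivial (Fin b) := Fin.nontrivial_iff_two_le.2 hb
    obtain ⟨k, k', hk⟩ := exists_pair_ne (Fin a)
    obtain ⟨j, j', hj⟩ := exists_pair_ne (Fin b)
    have h1 := h.ind k k' j j' hk hj
    have h2 : Submodule.span ℂ (Set.range ![x k j, x k j', x k' j, x k' j']) = ⊤ :=
      h1.span_eq_top_of_card_eq_finrank (by simp)
    rw [eq_top_iff, ← h2, Submodule.span_le]
    rintro _ ⟨i, rfl⟩
    fin_cases i
    · exact Submodule.subset_span ⟨(k, j), rfl⟩
    · exact Submodule.subset_span ⟨(k, j'), rfl⟩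
    · exact Submodule.subset_span ⟨(k', j), rfl⟩
    · exact Submodule.subset_span ⟨(k', j'), rfl⟩

/-- the polynomial with coefficient vector `y` -/
noncomputable def Nok_poly (y : Fin 4 → ℂ) : Polynomial ℂ :=
  ∑ j : Fin 4, Polynomial.C (y j) * Polynomial.X ^ (j : ℕ)

theorem Nok_poly_coeff (y : Fin 4 → ℂ) (j : Fin 4) : (Nok_poly y).coeff (j : ℕ) = y j := by
  unfold Nok_poly
  rw [Polynomial.finsetSum_coeff, Finset.sum_eq_single j]
  · simp
  · intro b _ hb
    rw [Polynomial.coeff_C_mul, Polynomial.coeff_X_pow, if_neg, mul_zero]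
    intro h
    exact hb (Fin.ext h.symm)
  · intro h
    exact absurd (Finset.mem_univ _) h

theorem Nok_poly_ne (y : Fin 4 → ℂ) (hy : y ≠ 0) : Nok_poly y ≠ 0 := by
  intro h
  apply hy
  ext j
  rw [← Nok_poly_coeff y j, h]
  simp

theorem exists_coords {I : Type} [Fintype I] (y : I → Fin 4 → ℂ) (hy : ∀ s, y s ≠ 0) :
    ∃ M : Matrix (Fin 4) (Fin 4) ℂ, IsUnit M.det ∧ ∀ s i, M.mulVec (y s) i ≠ 0 := by
  classical
  set S : Set ℂ := {t | ∀ s, (Nok_poly (y s)).eval t ≠ 0} with hS
  have hfin : (Sᶜ).Finite := by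
    have h1 : Sᶜ = ⋃ s, {t | (Nok_poly (y s)).IsRoot t} := by
      ext t
      simp only [hS, Set.mem_compl_iff, Set.mem_ofPred_eq, not_forall, not_not, Set.mem_iUnion,
        Polynomial.IsRoot.def]
    rw [h1]
    exact Set.finite_iUnion fun s => Polynomial.finite_setOfPred_isRoot (Nok_poly_ne _ (hy s))
  have hinf : S.Infinite := by
    have := hfin.infinite_compl
    rwa [compl_compl] at this
  obtain ⟨T, hT, hcard⟩ := hinf.exists_subset_card_eq 4
  set e := (T.equivFinOfCardEq hcard).symm with he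
  set t : Fin 4 → ℂ := fun i => (e i : ℂ) with ht
  have hinj : Function.Injective t := fun i j h => e.injective (Subtype.ext h)
  refine ⟨Matrix.vandermonde t, ?_, ?_⟩
  · rw [isUnit_iff_ne_zero]
    exact Matrix.det_vandermonde_ne_zero_iff.2 hinj
  · intro s i
    have h1 : t i ∈ S := hT (e i).2
    have h2 := h1 s
    have h3 : (Matrix.vandermonde t).mulVec (y s) i = (Nok_poly (y s)).eval (t i) := by
      unfold Nok_poly
      rw [Polynomial.eval_finsetSum]
      simp only [Matrix.mulVec, dotProduct, Matrix.vandermonde_apply, Polynomial.eval_mul,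
        Polynomial.eval_C, Polynomial.eval_pow, Polynomial.eval_X]
      refine Finset.sum_congr rfl fun j _ => mul_comm _ _
    rw [h3]
    exact h2

theorem gridVec_mulVec {a b : ℕ} (x : Fin a → Fin b → Fin 4 → ℂ) (h : GridVec a b x)
    (M : Matrix (Fin 4) (Fin 4) ℂ) (hM : IsUnit M.det) :
    GridVec a b (fun k m => M.mulVec (x k m)) := by
  have hinj : Function.Injective M.mulVec :=
    Matrix.mulVec_injective_iff_isUnit.2 ((Matrix.isUnit_iff_isUnit_det M).2 hM)
  have hker : LinearMap.ker M.mulVecLin = ⊥ := LinearMap.ker_eq_bot.2 hinj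
  have hspan : ∀ u v w : Fin 4 → ℂ, u ∈ Submodule.span ℂ {v, w} →
      M.mulVec u ∈ Submodule.span ℂ {M.mulVec v, M.mulVec w} := by
    intro u v w hu
    have h1 : M.mulVecLin u ∈ (Submodule.span ℂ {v, w}).map M.mulVecLin :=
      Submodule.mem_map_of_mem hu
    rw [Submodule.map_span, Set.image_pair] at h1
    exact h1
  refine ⟨?_, ?_, ?_⟩
  · intro k k' j j' hk hj
    have h1 := (h.ind k k' j j' hk hj).map' M.mulVecLin hker
    have h2 : (![M.mulVec (x k j), M.mulVec (x k j'), M.mulVec (x k' j), M.mulVec (x k' j')] :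
        Fin 4 → Fin 4 → ℂ) = M.mulVecLin ∘ ![x k j, x k j', x k' j, x k' j'] := by
      funext i
      fin_cases i <;> rfl
    show LinearIndependent ℂ
      ![M.mulVec (x k j), M.mulVec (x k j'), M.mulVec (x k' j), M.mulVec (x k' j')]
    rw [h2]
    exact h1
  · intro k j₀ j₁ j hj
    exact hspan _ _ _ (h.col k j₀ j₁ j hj)
  · intro j k₀ k₁ k hk
    exact hspan _ _ _ (h.row j k₀ k₁ k hk)

end GP80

end S_H80_GP_Nok

section S_H80_GP_Sp4

/-!
# Row Sp4 (MP_87ed0a_GP): generation over the fraction field by specialisation  (about 200 lines)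

`K = FractionRing RR`.  `y s ∈ RR^3` arbitrary vectors, `F1, G1 ∈ RR[X_1,X_2,X_3]` forms of degrees `c, d` vanishing at them; `P ∈ ℂ^4` such that at `P` the specialised forms `F1(P), G1(P)` generate the ideal of the specialised vectors `y s (P)` (in every degree).
Claim: over `K`, every form `f` of degree `t` vanishing at the vectors is in the ideal `(F1, G1)`.
Proof.  Let `E_t : Matrix I (Mon t) RR` be the evaluation matrix, `E_t (s, m) = m(y s)`, and `R_t : Matrix (A ⊕ B) (Mon t) RR` the matrix whose rows are the coefficient vectors of `m F1`, `m ∈ A = Mon (t - c)` (empty if `t < c`), and `m G1`, `m ∈ B = Mon (t - d)` (empty if `t < d`).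
The row space of `R_t` over `K` is `(F1, G1)_t`, over `ℂ` at `P` it is `(F1(P), G1(P))_t` (an element of degree `t` of the ideal is `A F1 + B G1` with `A, B` forms of degrees `t - c`, `t - d`, or zero: take components).  Kernel of `E_t` = forms of degree `t` vanishing at the points.
`rank_K R_t ≥ rank R_t(P) = dim (F1(P), G1(P))_t = dim ker E_t(P) = nn t - rank E_t(P) ≥ nn t - rank_K E_t = dim ker_K E_t`, by `rank_spec` twice and the hypothesis; and `(F1, G1)_t ⊆ ker_K E_t`.  So they are equal.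
-/

namespace GP80

open MvPolynomial

private theorem Sp4_deg_iff {t : ℕ} {d : Fin 3 →₀ ℕ} :
    d ∈ Finset.finsuppAntidiag (Finset.univ : Finset (Fin 3)) t ↔ d.degree = t := by
  rw [Finset.mem_finsuppAntidiag]
  constructor
  · rintro ⟨h, -⟩
    rw [← h, Finsupp.degree_eq_sum]
  · intro h
    refine ⟨?_, Finset.subset_univ _⟩
    rw [← h, Finsupp.degree_eq_sum]

private noncomputable def Sp4_MA (c t : ℕ) : Finset (Fin 3 →₀ ℕ) :=
  if c ≤ t then Finset.finsuppAntidiag Finset.univ (t - c) else ∅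

private theorem Sp4_mem_MA {c t : ℕ} {m : Fin 3 →₀ ℕ} : m ∈ Sp4_MA c t ↔ m.degree + c = t := by
  rw [Sp4_MA]
  split_ifs with h
  · rw [Sp4_deg_iff]
    omega
  · simp only [Finset.notMem_empty, false_iff]
    omega

private noncomputable def Sp4_N {O : Type} [CommRing O] (c d t : ℕ)
    (F G : MvPolynomial (Fin 3) O) : Matrix (Mon t) (Sp4_MA c t ⊕ Sp4_MA d t) O :=
  Matrix.of fun m => Sum.elim (fun a => coeff m.1 (monomial a.1 (1 : O) * F))
    (fun b => coeff m.1 (monomial b.1 (1 : O) * G))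

private noncomputable def Sp4_E {O I : Type} [CommRing O] (t : ℕ) (y : I → Fin 3 → O) :
    Matrix I (Mon t) O :=
  Matrix.of fun s m => eval (y s) (monomial m.1 (1 : O))

private def Sp4_v {O : Type} [CommRing O] (t : ℕ) (f : MvPolynomial (Fin 3) O) : Mon t → O :=
  fun m => coeff m.1 f

private theorem Sp4_N_map {O O' : Type} [CommRing O] [CommRing O'] (φ : O →+* O') {c d t : ℕ}
    (F G : MvPolynomial (Fin 3) O) :
    (Sp4_N c d t F G).map φ = Sp4_N c d t (map φ F) (map φ G) := by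
  ext m a
  rcases a with a | a
  · show φ (coeff m.1 (monomial a.1 (1 : O) * F)) = coeff m.1 (monomial a.1 (1 : O') * map φ F)
    rw [← coeff_map, map_mul, map_monomial, map_one]
  · show φ (coeff m.1 (monomial a.1 (1 : O) * G)) = coeff m.1 (monomial a.1 (1 : O') * map φ G)
    rw [← coeff_map, map_mul, map_monomial, map_one]

private theorem Sp4_eval_map {O O' : Type} [CommRing O] [CommRing O'] (φ : O →+* O')
    (y : Fin 3 → O) (F : MvPolynomial (Fin 3) O) :
    eval (fun j => φ (y j)) (map φ F) = φ (eval y F) := by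
  rw [eval_map]
  exact (eval₂_comp_left φ (RingHom.id O) y F).symm

private theorem Sp4_E_map {O O' I : Type} [CommRing O] [CommRing O'] (φ : O →+* O') {t : ℕ}
    (y : I → Fin 3 → O) :
    (Sp4_E t y).map φ = Sp4_E t (fun s j => φ (y s j)) := by
  ext s m
  show φ (eval (y s) (monomial m.1 (1 : O))) = eval (fun j => φ (y s j)) (monomial m.1 (1 : O'))
  rw [← Sp4_eval_map, map_monomial, map_one]

private theorem Sp4_expand {O : Type} [CommRing O] {t : ℕ} {f : MvPolynomial (Fin 3) O}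
    (hf : f.IsHomogeneous t) :
    f = ∑ m : Mon t, C (coeff m.1 f) * monomial m.1 (1 : O) := by
  obtain ⟨b, hb1, hb2⟩ := exists_basisMon O t
  have h := b.sum_repr (HS.mk f hf)
  have h2 := congrArg HS.val h
  rw [HS.val_sum, HS.val_mk] at h2
  conv_lhs => rw [← h2]
  refine Finset.sum_congr rfl fun m _ => ?_
  rw [HS.val_smul, hb1, hb2, HS.val_mk]

private theorem Sp4_eval {O I : Type} [CommRing O] {t : ℕ} {f : MvPolynomial (Fin 3) O}
    (hf : f.IsHomogeneous t) (y : I → Fin 3 → O) (s : I) :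
    (Sp4_E t y).mulVec (Sp4_v t f) s = eval (y s) f := by
  conv_rhs => rw [Sp4_expand hf]
  rw [map_sum]
  refine Finset.sum_congr rfl fun m _ => ?_
  rw [map_mul, eval_C, mul_comm]
  rfl

private theorem Sp4_exists_form {O : Type} [CommRing O] {t : ℕ} (v : Mon t → O) :
    ∃ f : MvPolynomial (Fin 3) O, f.IsHomogeneous t ∧ Sp4_v t f = v := by
  classical
  obtain ⟨b, hb1, hb2⟩ := exists_basisMon O t
  refine ⟨(∑ m, v m • b m).val, (∑ m, v m • b m).prop, ?_⟩
  funext m
  show coeff m.1 (∑ m, v m • b m).val = v m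
  rw [← hb2, map_sum, Finsupp.finsetSum_apply, Finset.sum_eq_single m]
  · simp
  · intro m' _ hm'
    rw [map_smul, Module.Basis.repr_self, Finsupp.smul_apply, Finsupp.single_apply, if_neg hm',
      smul_zero]
  · intro h
    exact absurd (Finset.mem_univ m) h

private theorem Sp4_coeff_mul {O : Type} [CommRing O] {c t : ℕ} {F : MvPolynomial (Fin 3) O}
    (hF : F.IsHomogeneous c) (a : MvPolynomial (Fin 3) O) {m : Fin 3 →₀ ℕ} (hm : m.degree = t) :
    coeff m (a * F) = ∑ p : Sp4_MA c t, coeff m (monomial p.1 (1 : O) * F) * coeff p.1 a := by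
  classical
  have h0 : ∀ p : Fin 3 →₀ ℕ, p.degree + c ≠ t → coeff m (monomial p (1 : O) * F) = 0 := by
    intro p hp
    have h1 : (monomial p (1 : O) * F).IsHomogeneous (p.degree + c) :=
      (isHomogeneous_monomial (1 : O) rfl).mul hF
    exact h1.coeff_eq_zero (by rw [hm]; exact hp.symm)
  have h2 : a * F = ∑ p ∈ a.support, C (coeff p a) * (monomial p (1 : O) * F) := by
    conv_lhs => rw [a.as_sum, Finset.sum_mul]
    refine Finset.sum_congr rfl fun p _ => ?_
    rw [← mul_assoc, C_mul_monomial, mul_one]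
  rw [h2, coeff_sum]
  simp only [coeff_C_mul]
  rw [Finset.sum_coe_sort (Sp4_MA c t) (fun p => coeff m (monomial p (1 : O) * F) * coeff p a)]
  have h3 : ∑ p ∈ a.support, coeff p a * coeff m (monomial p (1 : O) * F) =
      ∑ p ∈ a.support ∪ Sp4_MA c t, coeff p a * coeff m (monomial p (1 : O) * F) := by
    refine Finset.sum_subset Finset.subset_union_left fun p _ hp => ?_
    rw [notMem_support_iff.1 hp, zero_mul]
  rw [h3]
  symm
  have h4 : ∑ p ∈ Sp4_MA c t, coeff p a * coeff m (monomial p (1 : O) * F) =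
      ∑ p ∈ a.support ∪ Sp4_MA c t, coeff p a * coeff m (monomial p (1 : O) * F) := by
    refine Finset.sum_subset Finset.subset_union_right fun p _ hp => ?_
    rw [h0 p (fun h => hp (Sp4_mem_MA.2 h)), mul_zero]
  rw [← h4]
  exact Finset.sum_congr rfl fun p _ => mul_comm _ _

private theorem Sp4_mulVec {O : Type} [CommRing O] {c d t : ℕ} {F G : MvPolynomial (Fin 3) O}
    (hF : F.IsHomogeneous c) (hG : G.IsHomogeneous d) (a b : MvPolynomial (Fin 3) O) :
    (Sp4_N c d t F G).mulVec (Sum.elim (fun p => coeff p.1 a) (fun p => coeff p.1 b)) =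
      Sp4_v t (a * F + b * G) := by
  funext m
  show ∑ j, Sp4_N c d t F G m j * _ = coeff m.1 (a * F + b * G)
  rw [Fintype.sum_sum_type, coeff_add, Sp4_coeff_mul hF a (Sp4_deg_iff.1 m.2),
    Sp4_coeff_mul hG b (Sp4_deg_iff.1 m.2)]
  rfl

private theorem Sp4_mem {O : Type} [CommRing O] {c d t : ℕ} {F G f : MvPolynomial (Fin 3) O}
    (hF : F.IsHomogeneous c) (hG : G.IsHomogeneous d) (hf : f.IsHomogeneous t) :
    f ∈ Ideal.span {F, G} ↔ ∃ w, (Sp4_N c d t F G).mulVec w = Sp4_v t f := by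
  classical
  constructor
  · intro h
    obtain ⟨a, b, rfl⟩ := Ideal.mem_span_pair.1 h
    exact ⟨_, Sp4_mulVec hF hG a b⟩
  · rintro ⟨w, hw⟩
    let a : MvPolynomial (Fin 3) O := ∑ p : Sp4_MA c t, monomial p.1 (w (Sum.inl p))
    let b : MvPolynomial (Fin 3) O := ∑ p : Sp4_MA d t, monomial p.1 (w (Sum.inr p))
    have ha : ∀ p : Sp4_MA c t, coeff p.1 a = w (Sum.inl p) := by
      intro p
      show coeff p.1 (∑ p : Sp4_MA c t, monomial p.1 (w (Sum.inl p))) = _
      rw [coeff_sum, Finset.sum_eq_single p]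
      · rw [coeff_monomial, if_pos rfl]
      · intro q _ hq
        rw [coeff_monomial, if_neg fun h => hq (Subtype.ext h)]
      · intro h
        exact absurd (Finset.mem_univ p) h
    have hb : ∀ p : Sp4_MA d t, coeff p.1 b = w (Sum.inr p) := by
      intro p
      show coeff p.1 (∑ p : Sp4_MA d t, monomial p.1 (w (Sum.inr p))) = _
      rw [coeff_sum, Finset.sum_eq_single p]
      · rw [coeff_monomial, if_pos rfl]
      · intro q _ hq
        rw [coeff_monomial, if_neg fun h => hq (Subtype.ext h)]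
      · intro h
        exact absurd (Finset.mem_univ p) h
    have hahom : (a * F).IsHomogeneous t := by
      show ((∑ p : Sp4_MA c t, monomial p.1 (w (Sum.inl p))) * F).IsHomogeneous t
      rw [Finset.sum_mul]
      refine MvPolynomial.IsHomogeneous.sum _ _ _ fun p _ => ?_
      have := (isHomogeneous_monomial (w (Sum.inl p)) (rfl : p.1.degree = p.1.degree)).mul hF
      rwa [Sp4_mem_MA.1 p.2] at this
    have hbhom : (b * G).IsHomogeneous t := by
      show ((∑ p : Sp4_MA d t, monomial p.1 (w (Sum.inr p))) * G).IsHomogeneous t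
      rw [Finset.sum_mul]
      refine MvPolynomial.IsHomogeneous.sum _ _ _ fun p _ => ?_
      have := (isHomogeneous_monomial (w (Sum.inr p)) (rfl : p.1.degree = p.1.degree)).mul hG
      rwa [Sp4_mem_MA.1 p.2] at this
    have hw' : w = Sum.elim (fun p => coeff p.1 a) (fun p => coeff p.1 b) := by
      funext j
      rcases j with j | j
      · exact (ha j).symm
      · exact (hb j).symm
    rw [hw', Sp4_mulVec hF hG a b] at hw
    have hfab : f = a * F + b * G := by
      rw [Sp4_expand hf, Sp4_expand (hahom.add hbhom)]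
      refine Finset.sum_congr rfl fun m _ => ?_
      have := congrFun hw m
      show C (coeff m.1 f) * _ = C (coeff m.1 (a * F + b * G)) * _
      rw [show coeff m.1 (a * F + b * G) = coeff m.1 f from this]
    rw [hfab]
    exact Ideal.mem_span_pair.2 ⟨a, b, rfl⟩

theorem gen_of_spec {I : Type} [Fintype I] [DecidableEq I] (y : I → Fin 3 → RR) {c d : ℕ}
    {F1 G1 : MvPolynomial (Fin 3) RR} (hF : F1.IsHomogeneous c) (hG : G1.IsHomogeneous d)
    (vF : ∀ s, eval (y s) F1 = 0) (vG : ∀ s, eval (y s) G1 = 0) (P : Fin 4 → ℂ)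
    (hgen : ∀ t f, MvPolynomial.IsHomogeneous f t →
      (∀ s, eval (fun j => eval P (y s j)) f = 0) →
      f ∈ Ideal.span {map (eval P) F1, map (eval P) G1})
    {t : ℕ} {f : MvPolynomial (Fin 3) (FractionRing RR)} (hf : f.IsHomogeneous t)
    (hv : ∀ s, eval (fun j => algebraMap RR (FractionRing RR) (y s j)) f = 0) :
    f ∈ Ideal.span {map (algebraMap RR (FractionRing RR)) F1,
      map (algebraMap RR (FractionRing RR)) G1} := by
  classical
  have hinj : Function.Injective (algebraMap RR (FractionRing RR)) :=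
    IsFractionRing.injective RR (FractionRing RR)
  -- matrices
  have eN1 : (Sp4_N c d t F1 G1).map (eval P) = Sp4_N c d t (map (eval P) F1) (map (eval P) G1) :=
    Sp4_N_map (eval P) F1 G1
  have eN2 : (Sp4_N c d t F1 G1).map (algebraMap RR (FractionRing RR)) =
      Sp4_N c d t (map (algebraMap RR (FractionRing RR)) F1)
        (map (algebraMap RR (FractionRing RR)) G1) := Sp4_N_map _ F1 G1
  have eE1 : (Sp4_E t y).map (eval P) = Sp4_E t (fun s j => eval P (y s j)) := Sp4_E_map (eval P) y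
  have eE2 : (Sp4_E t y).map (algebraMap RR (FractionRing RR)) =
      Sp4_E t (fun s j => algebraMap RR (FractionRing RR) (y s j)) := Sp4_E_map _ y
  have r1 := rank_spec (Sp4_N c d t F1 G1) P
  have r2 := rank_spec (Sp4_E t y) P
  rw [eN1, eN2] at r1
  rw [eE1, eE2] at r2
  have hFP : (map (eval P) F1).IsHomogeneous c := hF.map _
  have hGP : (map (eval P) G1).IsHomogeneous d := hG.map _
  have hFK : (map (algebraMap RR (FractionRing RR)) F1).IsHomogeneous c := hF.map _
  have hGK : (map (algebraMap RR (FractionRing RR)) G1).IsHomogeneous d := hG.map _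
  -- at P
  have h1 : LinearMap.ker (Sp4_E t (fun s j => eval P (y s j))).mulVecLin ≤
      LinearMap.range (Sp4_N c d t (map (eval P) F1) (map (eval P) G1)).mulVecLin := by
    intro v hv'
    rw [LinearMap.mem_ker, Matrix.mulVecLin_apply] at hv'
    obtain ⟨g, hg, rfl⟩ := Sp4_exists_form v
    have hgv : ∀ s, eval (fun j => eval P (y s j)) g = 0 := by
      intro s
      rw [← Sp4_eval hg (fun s j => eval P (y s j)) s, hv']
      rfl
    obtain ⟨w, hw⟩ := (Sp4_mem hFP hGP hg).1 (hgen t g hg hgv)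
    exact ⟨w, hw⟩
  have h2 : LinearMap.range (Sp4_N c d t (map (algebraMap RR (FractionRing RR)) F1)
      (map (algebraMap RR (FractionRing RR)) G1)).mulVecLin ≤
      LinearMap.ker (Sp4_E t (fun s j => algebraMap RR (FractionRing RR) (y s j))).mulVecLin := by
    rintro v ⟨w, hw⟩
    rw [Matrix.mulVecLin_apply] at hw
    obtain ⟨g, hg, rfl⟩ := Sp4_exists_form v
    rw [LinearMap.mem_ker, Matrix.mulVecLin_apply]
    funext s
    rw [Sp4_eval hg]
    have hmem := (Sp4_mem hFK hGK hg).2 ⟨w, hw⟩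
    obtain ⟨a, b, hab⟩ := Ideal.mem_span_pair.1 hmem
    rw [← hab, map_add, map_mul, map_mul, Sp4_eval_map, Sp4_eval_map, vF, vG]
    simp
  have d1 := LinearMap.finrank_range_add_finrank_ker (Sp4_E t (fun s j => eval P (y s j))).mulVecLin
  have d2 := LinearMap.finrank_range_add_finrank_ker
    (Sp4_E t (fun s j => algebraMap RR (FractionRing RR) (y s j))).mulVecLin
  have d3 := Submodule.finrank_mono h1
  rw [Module.finrank_fintype_fun_eq_card] at d1 d2
  have h3 : LinearMap.range (Sp4_N c d t (map (algebraMap RR (FractionRing RR)) F1)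
      (map (algebraMap RR (FractionRing RR)) G1)).mulVecLin =
      LinearMap.ker (Sp4_E t (fun s j => algebraMap RR (FractionRing RR) (y s j))).mulVecLin := by
    apply Submodule.eq_of_le_of_finrank_le h2
    rw [Matrix.rank, Matrix.rank] at r1 r2
    omega
  refine (Sp4_mem hFK hGK hf).2 ?_
  have h4 : Sp4_v t f ∈ LinearMap.ker
      (Sp4_E t (fun s j => algebraMap RR (FractionRing RR) (y s j))).mulVecLin := by
    rw [LinearMap.mem_ker, Matrix.mulVecLin_apply]
    funext s
    rw [Sp4_eval hf, hv s]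
    rfl
  rw [← h3] at h4
  obtain ⟨w, hw⟩ := h4
  exact ⟨w, hw⟩

end GP80

end S_H80_GP_Sp4
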