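import Mathlib
import Pool.Agent.H80.M87.G02
import Pool.Agent.H80.M87.G03
import Pool.Agent.H80.M87.G04
import Pool.Agent.H80.M87.G07
import Pool.Agent.H80.M87.G08
import Pool.Agent.H80.M87.G09
import Pool.Agent.H80.M87.G15

/-! MP_87ed0a_ag: this file joins several modules to save build time. -/

section S_H80_GP_Cm7

/-!
# Row Cm7 (MP_87ed0a_GP): equality: weights of the planes  (about 200 lines)

By `g_zero`: `g = 0`, `jj = 0`, `lam = 1` on `1..n`, `D0 := c + d - 1 = a + b - 2`.  `N = a b`.  Nonplanes: `n p = 0`, `om p s = 0` (`omn`).  `om p s = 0` for `s ∉ vt p`.  `T p = ∑_{s ∈ vt p} om p s`.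
1. `T p ≥ n p * D0` (`sum` with `lam = 1`).  `∑_pl T p = N D0` (sum `G1` over `s`: `∑_p dl p om p s = D0`).  So `∑_pl n p ≤ N`.
2. Sum of `chord` over generic pairs and `plane_pairs`: `2 N (a-1)(b-1) ≤ ∑_pl PP p ≤ (a-1) ∑_pl (T p + (b-a) n p) ≤ (a-1)(N D0 + (b-a) N) = 2 N (a-1)(b-1)`, where
   `PP p = ∑_pairs om p s * oL p s s'` (nonplanes contribute 0).  So equality everywhere: every chord sum is exactly 2, `PP p = (a-1)(T p + (b-a) n p)`, `∑ n p = N`, `T p = n p D0` (`b > a`, `a ≥ 2`).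
3. Let `p` be a plane with `n p ≥ 1`, `n = n p`.  `tail` (`lam 1 = 1`): `card (vt p) ≥ D0 = a + b - 2 > a` (`b ≥ 4`: `b > d ≥ c > a ≥ 2`), so the second alternative of `plane` (`card ≤ a`) is impossible; let `(l, j)` be as in the first alternative.
   As in Row Cm1: `PP p = ∑_{s ∈ vt p} om p s * part(s)`, `part(l,m) ≤ a-1`, `part(k,j) ≤ b-1`, `part(l,j) = 0`, so with `R = ∑ om` over `(l,m) ∈ vt`, `m ≠ j`, `C = ∑ om` over `(k,j) ∈ vt`, `k ≠ l`, `C ≤ (a-1) n`, `o = om p (l,j)` (0 if not in `vt`), `T p = R + C + o`: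
   `PP p ≤ (a-1) R + (b-1) C ≤ (a-1)(T p + (b-a) n) - (a-1) o - (b-a)((a-1) n - C)`.  Equality: `o = 0`, `C = (a-1) n`, so all `(k, j)`, `k ≠ l`, are in `vt p` with `om = n`; also `part(k,j) = b-1` (`om = n > 0`), so all `(l,m)`, `m ≠ j`, are in
   `vt p`; `T p = n D0 = n (a+b-2)` gives `R = n (b-1)`, so `om p (l,m) = n` for all `m ≠ j`.
Result `plane_struct`: for every plane with `n p ≥ 1` there are `l, j` with: `vt p` contains all `s ≠ (l,j)` with `s.1 = l ∨ s.2 = j`, `om p s = n p` there; `om p (l,j) = 0`; and all `s ∈ vt p` satisfy `s.1 = l ∨ s.2 = j`.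
-/

namespace GP80

open Finset

theorem Cm7_cross {a b : ℕ} (F : Fin a × Fin b → ℕ) (l : Fin a) (j : Fin b)
    (h : ∀ x y, x ≠ l → y ≠ j → F (x, y) = 0) :
    ∑ s, F s = F (l, j) + ∑ y ∈ univ.erase j, F (l, y) + ∑ x ∈ univ.erase l, F (x, j) := by
  rw [Fintype.sum_prod_type, ← add_sum_erase univ _ (mem_univ l),
    ← add_sum_erase univ (fun y => F (l, y)) (mem_univ j)]
  congr 1
  refine sum_congr rfl fun x hx => ?_
  exact Fintype.sum_eq_single j fun y hy => h x y (ne_of_mem_erase hx) hy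

theorem Cm7_ar {q r R C n A B : ℕ} (hA : 1 ≤ A) (hB : 1 ≤ B) (hn : 1 ≤ n) (hq : q ≤ A)
    (hr : r ≤ B) (hR : R ≤ n * r) (hC : C ≤ n * q) (h : 2 * n * A * B ≤ q * R + r * C) :
    q = A ∧ r = B ∧ R = n * B ∧ C = n * A := by
  have h1 : q * R + r * C ≤ 2 * n * (q * r) := by nlinarith
  have h2 : 2 * n * (A * B) ≤ 2 * n * (q * r) := by
    calc 2 * n * (A * B) = 2 * n * A * B := by ring
      _ ≤ _ := h.trans h1
  have h3 : A * B ≤ q * r := Nat.le_of_mul_le_mul_left h2 (by omega)
  have h4 : q = A := by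
    by_contra hne
    have hlt : q < A := lt_of_le_of_ne hq hne
    have h5 : q * r ≤ q * B := Nat.mul_le_mul_left _ hr
    have h6 : q * B < A * B := Nat.mul_lt_mul_of_pos_right hlt hB
    omega
  have h5 : r = B := by
    by_contra hne
    have hlt : r < B := lt_of_le_of_ne hr hne
    have h5 : q * r ≤ A * r := Nat.mul_le_mul_right _ hq
    have h6 : A * r < A * B := Nat.mul_lt_mul_of_pos_left hlt hA
    omega
  subst h4 h5
  refine ⟨rfl, rfl, ?_, ?_⟩
  · by_contra hne
    have hlt : R < n * r := lt_of_le_of_ne hR hne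
    have h6 : q * R < q * (n * r) := Nat.mul_lt_mul_of_pos_left hlt hA
    have h7 : r * C ≤ r * (n * q) := Nat.mul_le_mul_left _ hC
    have h8 : 2 * n * q * r = q * (n * r) + r * (n * q) := by ring
    omega
  · by_contra hne
    have hlt : C < n * q := lt_of_le_of_ne hC hne
    have h6 : r * C < r * (n * q) := Nat.mul_lt_mul_of_pos_left hlt hB
    have h7 : q * R ≤ q * (n * r) := Nat.mul_le_mul_left _ hR
    have h8 : 2 * n * q * r = q * (n * r) + r * (n * q) := by ring
    omega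

theorem plane_struct {a b c d : ℕ} {P : Type} [Fintype P] {dl g n jj : P → ℕ} {lam : P → ℕ → ℕ}
    {om : P → Fin a × Fin b → ℕ} {vt : P → Finset (Fin a × Fin b)}
    {oL : P → (Fin a × Fin b) → (Fin a × Fin b) → ℕ} {eF : ℕ}
    (h : CombD a b c d dl g n jj lam om vt oL eF) :
    (∀ s s', s.1 ≠ s'.1 → s.2 ≠ s'.2 → ∑ p, om p s * oL p s s' = 2) ∧
    (∀ p, dl p ≠ 1 → n p = 0) ∧
    (∀ p, dl p = 1 → 1 ≤ n p → ∃ l j, (∀ s ∈ vt p, s.1 = l ∨ s.2 = j) ∧
      (∀ s, (s.1 = l ∨ s.2 = j) → s ≠ (l, j) → s ∈ vt p ∧ om p s = n p) ∧ om p (l, j) = 0) := by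
  classical
  obtain ⟨hg, hjj, hlam, hab⟩ := g_zero h
  have ha := h.a2
  have hac := h.ac
  have hcd := h.cd
  have hdb := h.db
  -- nonplanes
  have hnp : ∀ p, dl p ≠ 1 → n p = 0 := fun p hp => by rw [nonplane_n h p hp, hg p]
  have hom0 : ∀ p, dl p ≠ 1 → ∀ s, om p s = 0 := fun p hp s => by
    have h1 := h.omn p s
    rw [hnp p hp] at h1
    omega
  have hout : ∀ p s, s ∉ vt p → om p s = 0 := fun p s hs => by rw [h.nv p s hs, hg p]
  have hT : ∀ p, ∑ s, om p s = ∑ s ∈ vt p, om p s := fun p =>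
    (sum_subset (subset_univ _) fun s _ hs => hout p s hs).symm
  -- T p ≥ n p * D0
  have hTn : ∀ p, n p * (a + b - 2) ≤ ∑ s, om p s := by
    intro p
    have h1 := h.sum p
    have h2 : ∑ i ∈ Icc 1 (n p), lam p i * (c + d - lam p i) = n p * (a + b - 2) := by
      rw [sum_congr rfl (fun i hi => by
        rw [mem_Icc] at hi
        rw [hlam p i hi.1 hi.2] : ∀ i ∈ Icc 1 (n p), lam p i * (c + d - lam p i) =
          1 * (c + d - 1)), sum_const, Nat.card_Icc, smul_eq_mul, one_mul]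
      congr 1
      omega
    rw [h2] at h1
    exact h1
  -- sum over p of om
  have hG : ∀ s, ∑ p, om p s = a + b - 2 := by
    intro s
    have h1 := h.G1 s
    have h2 : ∑ p, dl p * g p = 0 := by
      refine sum_eq_zero fun p _ => ?_
      rw [hg p, mul_zero]
    have h3 : ∑ p, dl p * om p s = ∑ p, om p s := by
      refine sum_congr rfl fun p _ => ?_
      by_cases hp : dl p = 1
      · rw [hp, one_mul]
      · rw [hom0 p hp s, mul_zero]
    rw [h2, h3] at h1
    omega
  have hST : ∑ p, ∑ s, om p s = (a * b) * (a + b - 2) := by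
    rw [sum_comm, sum_congr rfl fun s _ => hG s, sum_const, card_univ, Fintype.card_prod,
      Fintype.card_fin, Fintype.card_fin, smul_eq_mul]
  have hSn : ∑ p, n p ≤ a * b := by
    have h1 := sum_le_sum (s := univ) fun p _ => hTn p
    rw [hST, ← sum_mul] at h1
    exact Nat.le_of_mul_le_mul_right h1 (by omega)
  -- the pairs sums
  have hPP : ∀ p ∈ (univ : Finset P), ∑ s : Fin a × Fin b, ∑ s' : Fin a × Fin b,
      (if s.1 ≠ s'.1 ∧ s.2 ≠ s'.2 then om p s * oL p s s' else 0) ≤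
      (a - 1) * (∑ s, om p s + (b - a) * n p) := by
    intro p _
    by_cases hp : dl p = 1
    · rw [hT p]
      exact plane_pairs h p hp
    · refine le_trans (le_of_eq ?_) (Nat.zero_le _)
      refine sum_eq_zero fun s _ => sum_eq_zero fun s' _ => ?_
      rw [hom0 p hp s, zero_mul, ite_self]
  have hch : ∀ s s' : Fin a × Fin b, s.1 ≠ s'.1 → s.2 ≠ s'.2 → 2 ≤ ∑ p, om p s * oL p s s' := by
    intro s s' h1 h2
    have h3 := h.chord s s' h1 h2
    rw [sum_congr rfl (fun p _ => by rw [hjj p, add_zero] : ∀ p ∈ (univ : Finset P),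
      (om p s + jj p) * oL p s s' = om p s * oL p s s')] at h3
    exact h3
  have hle1 : ∀ s ∈ (univ : Finset (Fin a × Fin b)), ∑ s' : Fin a × Fin b,
      (if s.1 ≠ s'.1 ∧ s.2 ≠ s'.2 then 2 else 0) ≤
      ∑ s' : Fin a × Fin b, (if s.1 ≠ s'.1 ∧ s.2 ≠ s'.2 then ∑ p, om p s * oL p s s' else 0) := by
    intro s _
    refine sum_le_sum fun s' _ => ?_
    split_ifs with hh
    · exact hch s s' hh.1 hh.2
    · exact le_rfl
  have hcount : ∑ s : Fin a × Fin b, ∑ s' : Fin a × Fin b,
      (if s.1 ≠ s'.1 ∧ s.2 ≠ s'.2 then 2 else 0) = (a * b) * (((a - 1) * (b - 1)) * 2) := by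
    have h3 : ∀ s : Fin a × Fin b, ∑ s' : Fin a × Fin b,
      (if s.1 ≠ s'.1 ∧ s.2 ≠ s'.2 then 2 else 0) = ((a - 1) * (b - 1)) * 2 := by
      intro s
      rw [← sum_filter, sum_const, Cm3_count, smul_eq_mul]
    rw [sum_congr rfl fun s _ => h3 s, sum_const, card_univ, Fintype.card_prod, Fintype.card_fin,
      Fintype.card_fin, smul_eq_mul]
  have hswap := Cm3_swap (P := P) (fun s s' : Fin a × Fin b => s.1 ≠ s'.1 ∧ s.2 ≠ s'.2)
    (fun p s s' => om p s * oL p s s')
  have hge := sum_le_sum hle1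
  have hup := sum_le_sum hPP
  have hupval : ∑ p, (a - 1) * (∑ s, om p s + (b - a) * n p) =
      (a - 1) * ((a * b) * (a + b - 2) + (b - a) * ∑ p, n p) := by
    rw [← mul_sum, sum_add_distrib, hST, ← mul_sum]
  have hba : (b - a) * ∑ p, n p ≤ (b - a) * (a * b) := Nat.mul_le_mul_left _ hSn
  have hid : (a - 1) * ((a * b) * (a + b - 2) + (b - a) * (a * b)) =
      (a * b) * (((a - 1) * (b - 1)) * 2) := by
    have h1 : (a + b - 2) + (b - a) = (b - 1) * 2 := by omega
    calc (a - 1) * ((a * b) * (a + b - 2) + (b - a) * (a * b)) =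
        (a - 1) * (a * b) * ((a + b - 2) + (b - a)) := by ring
      _ = _ := by rw [h1]; ring
  have hupper : (a - 1) * ((a * b) * (a + b - 2) + (b - a) * ∑ p, n p) ≤
      (a * b) * (((a - 1) * (b - 1)) * 2) := by
    rw [← hid]
    exact Nat.mul_le_mul_left _ (Nat.add_le_add_left hba _)
  rw [hcount] at hge
  rw [hupval] at hup
  have hE1 : ∑ s : Fin a × Fin b, ∑ s' : Fin a × Fin b,
      (if s.1 ≠ s'.1 ∧ s.2 ≠ s'.2 then ∑ p, om p s * oL p s s' else 0) =
      (a * b) * (((a - 1) * (b - 1)) * 2) := by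
    refine le_antisymm ?_ hge
    rw [hswap]
    exact hup.trans hupper
  have hE2 : ∑ p, ∑ s : Fin a × Fin b, ∑ s' : Fin a × Fin b,
      (if s.1 ≠ s'.1 ∧ s.2 ≠ s'.2 then om p s * oL p s s' else 0) =
      ∑ p, (a - 1) * (∑ s, om p s + (b - a) * n p) := by
    rw [hupval]
    refine le_antisymm hup ?_
    rw [← hswap, hE1]
    exact hupper
  have hE3 : ∑ p, n p = a * b := by
    rw [← hswap, hE1, hupval, ← hid] at hE2
    have h1 := Nat.eq_of_mul_eq_mul_left (by omega) hE2
    have h2 := Nat.add_left_cancel h1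
    exact (Nat.eq_of_mul_eq_mul_left (by omega) h2).symm
  have hTeq : ∀ p, n p * (a + b - 2) = ∑ s, om p s := by
    have h1 : ∑ p, n p * (a + b - 2) = ∑ p, ∑ s, om p s := by
      rw [← sum_mul, hE3, hST]
    intro p
    exact (sum_eq_sum_iff_of_le fun p _ => hTn p).1 h1 p (mem_univ p)
  have hPPeq : ∀ p, ∑ s : Fin a × Fin b, ∑ s' : Fin a × Fin b,
      (if s.1 ≠ s'.1 ∧ s.2 ≠ s'.2 then om p s * oL p s s' else 0) =
      (a - 1) * (∑ s, om p s + (b - a) * n p) := fun p =>
    (sum_eq_sum_iff_of_le hPP).1 hE2 p (mem_univ p)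
  refine ⟨?_, hnp, ?_⟩
  · intro s s' h1 h2
    have h3 := (sum_eq_sum_iff_of_le hle1).1 (by rw [hcount, hE1]) s (mem_univ s)
    have h4 := (sum_eq_sum_iff_of_le (fun s'' _ => by
      split_ifs with hh
      · exact hch s s'' hh.1 hh.2
      · exact le_rfl : ∀ s'' ∈ (univ : Finset (Fin a × Fin b)),
        (if s.1 ≠ s''.1 ∧ s.2 ≠ s''.2 then 2 else 0) ≤
        (if s.1 ≠ s''.1 ∧ s.2 ≠ s''.2 then ∑ p, om p s * oL p s s'' else 0))).1 h3 s' (mem_univ s')
    rw [if_pos ⟨h1, h2⟩, if_pos ⟨h1, h2⟩] at h4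
    exact h4.symm
  · intro p hp hn
    have hcard : a + b - 2 ≤ (vt p).card := by
      have h1 := h.tail p (by rw [hg p]; omega)
      rw [hg p, zero_add, hlam p 1 le_rfl hn] at h1
      omega
    have hlj : ∃ l j, ∀ s ∈ vt p, s.1 = l ∨ s.2 = j := by
      rcases h.plane p hp with h1 | h1
      · exact h1
      · exfalso
        have h2 : (vt p).card ≤ (univ : Finset (Fin a)).card := by
          refine card_le_card_of_injOn Prod.fst (fun _ _ => mem_coe.2 (mem_univ _)) ?_
          intro s hs s' hs' he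
          by_contra hne
          exact (h1 s (mem_coe.1 hs) s' (mem_coe.1 hs') hne).1 he
        rw [card_univ, Fintype.card_fin] at h2
        omega
    obtain ⟨l, j, hlj⟩ := hlj
    have hnot : ∀ x y, x ≠ l → y ≠ j → (x, y) ∉ vt p := by
      intro x y hx hy hm
      rcases hlj (x, y) hm with h1 | h1
      · exact hx h1
      · exact hy h1
    set q := ∑ x ∈ univ.erase l, (if (x, j) ∈ vt p then 1 else 0) with hq
    set r := ∑ y ∈ univ.erase j, (if (l, y) ∈ vt p then 1 else 0) with hr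
    set R := ∑ y ∈ univ.erase j, om p (l, y) with hR
    set C := ∑ x ∈ univ.erase l, om p (x, j) with hC
    have hqa : q ≤ a - 1 := by
      have h1 : q ≤ ∑ x ∈ (univ : Finset (Fin a)).erase l, 1 := by
        refine sum_le_sum fun x _ => ?_
        split_ifs <;> omega
      rw [sum_const, card_erase_of_mem (mem_univ _), card_univ, Fintype.card_fin, smul_eq_mul,
        mul_one] at h1
      exact h1
    have hrb : r ≤ b - 1 := by
      have h1 : r ≤ ∑ y ∈ (univ : Finset (Fin b)).erase j, 1 := by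
        refine sum_le_sum fun y _ => ?_
        split_ifs <;> omega
      rw [sum_const, card_erase_of_mem (mem_univ _), card_univ, Fintype.card_fin, smul_eq_mul,
        mul_one] at h1
      exact h1
    have hind : ∀ s, om p s ≤ n p * (if s ∈ vt p then 1 else 0) := by
      intro s
      split_ifs with hs
      · rw [mul_one]
        exact h.omn p s
      · rw [hout p s hs, mul_zero]
    have hRr : R ≤ n p * r := by
      rw [hR, hr, mul_sum]
      exact sum_le_sum fun y _ => hind (l, y)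
    have hCq : C ≤ n p * q := by
      rw [hC, hq, mul_sum]
      exact sum_le_sum fun x _ => hind (x, j)
    have hTs : ∑ s, om p s = om p (l, j) + R + C :=
      Cm7_cross (om p) l j fun x y hx hy => hout p _ (hnot x y hx hy)
    -- upper bound for the pair sum
    have hF := Cm7_cross (fun s => ∑ s' : Fin a × Fin b,
      (if s.1 ≠ s'.1 ∧ s.2 ≠ s'.2 then om p s * oL p s s' else 0)) l j (by
        intro x y hx hy
        refine sum_eq_zero fun s' _ => ?_
        split_ifs with hh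
        · rw [hout p _ (hnot x y hx hy), zero_mul]
        · rfl)
    have hF0 : ∑ s' : Fin a × Fin b,
      (if (l, j).1 ≠ s'.1 ∧ (l, j).2 ≠ s'.2 then om p (l, j) * oL p (l, j) s' else 0) = 0 := by
      refine sum_eq_zero fun s' _ => ?_
      split_ifs with hh
      · have h1 : s' ∉ vt p := hnot s'.1 s'.2 (fun e => hh.1 e.symm) (fun e => hh.2 e.symm)
        rw [h.oLp p hp _ _ hh.1 hh.2, if_neg (fun hc => h1 hc.2), mul_zero]
      · rfl
    have hF1 : ∀ y ∈ univ.erase j, ∑ s' : Fin a × Fin b,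
        (if (l, y).1 ≠ s'.1 ∧ (l, y).2 ≠ s'.2 then om p (l, y) * oL p (l, y) s' else 0) ≤
        om p (l, y) * q := by
      intro y hy
      have hyj : y ≠ j := ne_of_mem_erase hy
      rw [Cm7_cross (fun s' : Fin a × Fin b => if (l, y).1 ≠ s'.1 ∧ (l, y).2 ≠ s'.2 then
        om p (l, y) * oL p (l, y) s' else 0) l j]
      · have e1 : (if (l, y).1 ≠ (l, j).1 ∧ (l, y).2 ≠ (l, j).2 then
            om p (l, y) * oL p (l, y) (l, j) else 0) = 0 := by
          rw [if_neg fun hh => hh.1 rfl]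
        have e2 : ∑ y' ∈ univ.erase j, (if (l, y).1 ≠ (l, y').1 ∧ (l, y).2 ≠ (l, y').2 then
            om p (l, y) * oL p (l, y) (l, y') else 0) = 0 := by
          refine sum_eq_zero fun y' _ => ?_
          rw [if_neg fun hh => hh.1 rfl]
        rw [e1, e2, zero_add, zero_add, hq, mul_sum]
        refine sum_le_sum fun x hx => ?_
        split_ifs with h1 h2 h2
        · rw [h.oLp p hp _ _ h1.1 h1.2]
          split_ifs <;> simp
        · rw [h.oLp p hp _ _ h1.1 h1.2, if_neg fun hc => h2 hc.2]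
        · exact Nat.zero_le _
        · exact Nat.zero_le _
      · intro x' y' hx' hy'
        split_ifs with hh
        · rw [h.oLp p hp _ _ hh.1 hh.2, if_neg fun hc => hnot x' y' hx' hy' hc.2, mul_zero]
        · rfl
    have hF2 : ∀ x ∈ univ.erase l, ∑ s' : Fin a × Fin b,
        (if (x, j).1 ≠ s'.1 ∧ (x, j).2 ≠ s'.2 then om p (x, j) * oL p (x, j) s' else 0) ≤
        om p (x, j) * r := by
      intro x hx
      have hxl : x ≠ l := ne_of_mem_erase hx
      rw [Cm7_cross (fun s' : Fin a × Fin b => if (x, j).1 ≠ s'.1 ∧ (x, j).2 ≠ s'.2 then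
        om p (x, j) * oL p (x, j) s' else 0) l j]
      · have e1 : (if (x, j).1 ≠ (l, j).1 ∧ (x, j).2 ≠ (l, j).2 then
            om p (x, j) * oL p (x, j) (l, j) else 0) = 0 := by
          rw [if_neg fun hh => hh.2 rfl]
        have e2 : ∑ x' ∈ univ.erase l, (if (x, j).1 ≠ (x', j).1 ∧ (x, j).2 ≠ (x', j).2 then
            om p (x, j) * oL p (x, j) (x', j) else 0) = 0 := by
          refine sum_eq_zero fun x' _ => ?_
          rw [if_neg fun hh => hh.2 rfl]
        rw [e1, e2, zero_add, add_zero, hr, mul_sum]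
        refine sum_le_sum fun y hy => ?_
        split_ifs with h1 h2 h2
        · rw [h.oLp p hp _ _ h1.1 h1.2]
          split_ifs <;> simp
        · rw [h.oLp p hp _ _ h1.1 h1.2, if_neg fun hc => h2 hc.2]
        · exact Nat.zero_le _
        · exact Nat.zero_le _
      · intro x' y' hx' hy'
        split_ifs with hh
        · rw [h.oLp p hp _ _ hh.1 hh.2, if_neg fun hc => hnot x' y' hx' hy' hc.2, mul_zero]
        · rfl
    have hle : ∑ s : Fin a × Fin b, ∑ s' : Fin a × Fin b,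
        (if s.1 ≠ s'.1 ∧ s.2 ≠ s'.2 then om p s * oL p s s' else 0) ≤ q * R + r * C := by
      rw [hF, hF0, zero_add]
      refine add_le_add ?_ ?_
      · refine (sum_le_sum hF1).trans (le_of_eq ?_)
        rw [← sum_mul, mul_comm]
      · refine (sum_le_sum hF2).trans (le_of_eq ?_)
        rw [← sum_mul, mul_comm]
    rw [hPPeq p, ← hTeq p] at hle
    have hval : (a - 1) * (n p * (a + b - 2) + (b - a) * n p) = 2 * n p * (a - 1) * (b - 1) := by
      have h1 : (a + b - 2) + (b - a) = (b - 1) * 2 := by omega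
      calc (a - 1) * (n p * (a + b - 2) + (b - a) * n p) =
          (a - 1) * n p * ((a + b - 2) + (b - a)) := by ring
        _ = _ := by rw [h1]; ring
    rw [hval] at hle
    obtain ⟨e1, e2, e3, e4⟩ := Cm7_ar (by omega) (by omega) hn hqa hrb hRr hCq hle
    have hRow : ∀ y, y ≠ j → om p (l, y) = n p := by
      have h1 : ∑ y ∈ univ.erase j, om p (l, y) = ∑ y ∈ (univ : Finset (Fin b)).erase j, n p := by
        rw [sum_const, card_erase_of_mem (mem_univ _), card_univ, Fintype.card_fin, smul_eq_mul,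
          ← hR, e3, mul_comm]
      intro y hy
      exact (sum_eq_sum_iff_of_le fun y _ => h.omn p (l, y)).1 h1 y
        (mem_erase.2 ⟨hy, mem_univ _⟩)
    have hCol : ∀ x, x ≠ l → om p (x, j) = n p := by
      have h1 : ∑ x ∈ univ.erase l, om p (x, j) = ∑ x ∈ (univ : Finset (Fin a)).erase l, n p := by
        rw [sum_const, card_erase_of_mem (mem_univ _), card_univ, Fintype.card_fin, smul_eq_mul,
          ← hC, e4, mul_comm]
      intro x hx
      exact (sum_eq_sum_iff_of_le fun x _ => h.omn p (x, j)).1 h1 x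
        (mem_erase.2 ⟨hx, mem_univ _⟩)
    have hmem : ∀ s, om p s = n p → s ∈ vt p := by
      intro s hs
      by_contra hns
      rw [hout p s hns] at hs
      omega
    refine ⟨l, j, hlj, ?_, ?_⟩
    · rintro ⟨x, y⟩ hxy hne
      have hom : om p (x, y) = n p := by
        rcases hxy with hx | hy
        · simp only at hx
          subst hx
          exact hRow y fun e => hne (by rw [e])
        · simp only at hy
          subst hy
          exact hCol x fun e => hne (by rw [e])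
      exact ⟨hmem _ hom, hom⟩
    · rw [← hTeq p, e3, e4] at hTs
      have h1 : n p * (a + b - 2) = n p * (b - 1) + n p * (a - 1) := by
        rw [← mul_add]
        congr 1
        omega
      omega

end GP80

end S_H80_GP_Cm7

section S_H80_GP_Cm8

/-!
# Row Cm8 (MP_87ed0a_GP): every (row, column) has its plane  (about 200 lines)

By `g_zero`: `a + b = c + d + 1`, `g = 0`.  `b ≥ 6`: with `x = c - a ≥ 1`, `y = d - a ≥ x`: `x y = a` (`ar_kappa`), `b = a + x + y + 1`, `x y = a ≥ 2` so `x + y ≥ 3`, `b ≥ 6`.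
By `plane_struct` every plane `p` with `n p ≥ 1` has a type `(l, j)`.
* The type is unique: if `vt p` contains `(row l ∪ column j) \ (l,j)` and is contained in `row l' ∪ column j'`: row `l` without `(l,j)` has `b - 1 ≥ 2` points, if `l' ≠ l` they are all in column `j'`, impossible; so `l' = l`; a point `(k, j)`, `k ≠ l` (`a ≥ 2`), is in column `j'`: `j' = j`.
* Two different planes have different types: `two` with `s = (k, j)`, `s' = (l, m)`, `s'' = (l, m')`, `k ≠ l`, `m ≠ m'`, both `≠ j` (`b ≥ 3`).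
Let `N(l, j) := ∑` of `n p` over the planes `p` with `n p ≥ 1` of type `(l, j)` (zero or one plane).
* For generic `s = (x, y)`, `s' = (x', y')`: `N(x, y') + N(x', y) = 2`: in `∑_p om p s * oL p s s' = 2` a plane of type `(l, j)` contributes only if `s, s' ∈ vt p` and `om p s > 0`; then `s ≠ (l,j)`; `(x = l or y = j)` and
  `(x' = l or y' = j)` and `x ≠ x'`, `y ≠ y'` give `(l, j) = (x, y')` or `(x', y)`; conversely these contribute `n p * 1` (`s, s'` are in `vt p`, different from the corner).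
* For `s = (x, y)`: `∑_{m ≠ y} N(x, m) + ∑_{k ≠ x} N(k, y) = c + d - 1 = a + b - 2` (`G1`: `∑_p om p s = D0`; `om p (corner) = 0`).
* Fix `x' `; for `y1 ≠ y2` choose `y' ∉ {y1, y2}` (`b ≥ 3`) and `x ≠ x'` (`a ≥ 2`): `N(x', y1) = 2 - N(x, y') = N(x', y2)`; so `N(x', y) = m(x')` for all `y`; `m(x) + m(x') = 2` for `x ≠ x'`.  Point sum:
  `(b-1) m(x) + (a-1)(2 - m(x)) = a + b - 2`, `(b-a) m(x) = b - a`, `m(x) = 1`.
So `N(l, j) = 1` for all `l, j`, and there is a plane of type `(l, j)`.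
-/

namespace GP80

open Finset

theorem Cm8_third {b : ℕ} (hb : 3 ≤ b) (y1 y2 : Fin b) : ∃ y', y' ≠ y1 ∧ y' ≠ y2 := by
  have h : ({y1, y2} : Finset (Fin b)).card < (univ : Finset (Fin b)).card := by
    rw [card_univ, Fintype.card_fin]
    exact lt_of_le_of_lt card_le_two (by omega)
  obtain ⟨y', -, h'⟩ := Finset.exists_mem_notMem_of_card_lt_card h
  rw [mem_insert, mem_singleton, not_or] at h'
  exact ⟨y', h'.1, h'.2⟩

theorem Cm8_other {a : ℕ} (ha : 2 ≤ a) (x : Fin a) : ∃ x', x' ≠ x := by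
  have : Nontrivial (Fin a) := Fin.nontrivial_iff_two_le.2 ha
  exact exists_ne x

theorem Cm8_b {a b c d : ℕ} (ha : 2 ≤ a) (hac : a < c) (hcd : c ≤ d) (hN : c * d = a * b)
    (hs : a + b = c + d + 1) : 6 ≤ b := by
  obtain ⟨x, rfl⟩ : ∃ x, c = a + x := ⟨c - a, by omega⟩
  obtain ⟨y, rfl⟩ : ∃ y, d = a + y := ⟨d - a, by omega⟩
  obtain rfl : b = a + x + y + 1 := by omega
  have hxy : x * y = a := by nlinarith
  have hx : 1 ≤ x := by omega
  by_contra hcon
  have h1 : x + y ≤ 2 := by omega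
  have h2 : x = 1 := by omega
  have h3 : y = 1 := by omega
  rw [h2, h3] at hxy
  omega

/-- the plane `p` has type `(l, j)` -/
def Cm8_Ty {a b : ℕ} {P : Type} (dl n : P → ℕ) (om : P → Fin a × Fin b → ℕ)
    (vt : P → Finset (Fin a × Fin b)) (p : P) (l : Fin a) (j : Fin b) : Prop :=
  dl p = 1 ∧ 1 ≤ n p ∧ (∀ s ∈ vt p, s.1 = l ∨ s.2 = j) ∧
    (∀ s, (s.1 = l ∨ s.2 = j) → s ≠ (l, j) → s ∈ vt p ∧ om p s = n p) ∧ om p (l, j) = 0

theorem Cm8_uniq {a b : ℕ} {P : Type} {dl n : P → ℕ} {om : P → Fin a × Fin b → ℕ}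
    {vt : P → Finset (Fin a × Fin b)} (ha : 2 ≤ a) (hb : 3 ≤ b) {p : P} {l : Fin a} {j : Fin b}
    (h : Cm8_Ty dl n om vt p l j) (l' : Fin a) (j' : Fin b) :
    Cm8_Ty dl n om vt p l' j' ↔ (l' = l ∧ j' = j) := by
  constructor
  · intro h'
    obtain ⟨-, -, h1, h2, -⟩ := h
    obtain ⟨-, -, h3, h4, -⟩ := h'
    obtain ⟨m, hm1, hm2⟩ := Cm8_third hb j j'
    have hl : l = l' := by
      have h5 := (h2 (l, m) (Or.inl rfl) (fun e => hm1 (congrArg Prod.snd e))).1
      rcases h3 _ h5 with h6 | h6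
      · exact h6
      · exact absurd h6 hm2
    obtain ⟨k, hk⟩ := Cm8_other ha l
    have h5 := (h2 (k, j) (Or.inr rfl) (fun e => hk (congrArg Prod.fst e))).1
    rcases h3 _ h5 with h6 | h6
    · exact absurd (h6.trans hl.symm) hk
    · exact ⟨hl.symm, h6.symm⟩
  · rintro ⟨rfl, rfl⟩
    exact h

theorem Cm8_s1 {a b : ℕ} (x l : Fin a) (y j : Fin b) (N : ℕ) :
    ∑ m ∈ univ.erase y, (if x = l ∧ m = j then N else 0) = if x = l ∧ y ≠ j then N else 0 := by
  by_cases h : x = l ∧ y ≠ j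
  · rw [if_pos h, sum_eq_single_of_mem j (mem_erase.2 ⟨Ne.symm h.2, mem_univ _⟩),
      if_pos ⟨h.1, rfl⟩]
    intro m _ hmj
    rw [if_neg (fun e => hmj e.2)]
  · rw [if_neg h]
    refine sum_eq_zero fun m hm => ?_
    rw [if_neg]
    rintro ⟨h1, h2⟩
    refine h ⟨h1, ?_⟩
    rw [← h2]
    exact (mem_erase.1 hm).1.symm

theorem Cm8_s2 {a b : ℕ} (x l : Fin a) (y j : Fin b) (N : ℕ) :
    ∑ k ∈ univ.erase x, (if k = l ∧ y = j then N else 0) = if x ≠ l ∧ y = j then N else 0 := by
  by_cases h : x ≠ l ∧ y = j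
  · rw [if_pos h, sum_eq_single_of_mem l (mem_erase.2 ⟨Ne.symm h.1, mem_univ _⟩),
      if_pos ⟨rfl, h.2⟩]
    intro m _ hmj
    rw [if_neg (fun e => hmj e.1)]
  · rw [if_neg h]
    refine sum_eq_zero fun m hm => ?_
    rw [if_neg]
    rintro ⟨h1, h2⟩
    refine h ⟨?_, h2⟩
    rw [← h1]
    exact (mem_erase.1 hm).1.symm

open Classical in
theorem Cm8_point {a b : ℕ} {P : Type} {dl n : P → ℕ} {om : P → Fin a × Fin b → ℕ}
    {vt : P → Finset (Fin a × Fin b)} (ha : 2 ≤ a) (hb : 3 ≤ b) (p : P)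
    (hom : ∀ s, om p s ≤ n p) (hnv : ∀ s, s ∉ vt p → om p s = 0)
    (hty : n p = 0 ∨ ∃ l j, Cm8_Ty dl n om vt p l j) (x : Fin a) (y : Fin b) :
    om p (x, y) = ∑ m ∈ univ.erase y, (if Cm8_Ty dl n om vt p x m then n p else 0) +
      ∑ k ∈ univ.erase x, (if Cm8_Ty dl n om vt p k y then n p else 0) := by
  rcases hty with h0 | ⟨l, j, h⟩
  · have h1 := hom (x, y)
    rw [h0] at h1 ⊢
    simp only [ite_self, sum_const_zero]
    omega
  · simp only [Cm8_uniq ha hb h]
    rw [Cm8_s1, Cm8_s2]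
    obtain ⟨-, -, h1, h2, h3⟩ := h
    by_cases hx : x = l
    · subst hx
      by_cases hy : y = j
      · subst hy
        rw [h3, if_neg (fun e => e.2 rfl), if_neg (fun e => e.1 rfl)]
      · rw [(h2 (x, y) (Or.inl rfl) (fun e => hy (congrArg Prod.snd e))).2, if_pos ⟨rfl, hy⟩,
          if_neg (fun e => e.1 rfl), add_zero]
    · rw [if_neg (fun e => hx e.1), zero_add]
      by_cases hy : y = j
      · subst hy
        rw [(h2 (x, y) (Or.inr rfl) (fun e => hx (congrArg Prod.fst e))).2, if_pos ⟨hx, rfl⟩]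
      · rw [if_neg (fun e => hy e.2)]
        refine hnv _ fun h4 => ?_
        rcases h1 _ h4 with h5 | h5
        · exact hx h5
        · exact hy h5

open Classical in
theorem Cm8_chord {a b : ℕ} {P : Type} {dl n : P → ℕ} {om : P → Fin a × Fin b → ℕ}
    {vt : P → Finset (Fin a × Fin b)} (ha : 2 ≤ a) (hb : 3 ≤ b) (p : P)
    {oL : P → (Fin a × Fin b) → (Fin a × Fin b) → ℕ}
    (hoL : dl p = 1 → ∀ s s', s.1 ≠ s'.1 → s.2 ≠ s'.2 →
      oL p s s' = if s ∈ vt p ∧ s' ∈ vt p then 1 else 0)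
    (hom : ∀ s, om p s ≤ n p)
    (hty : n p = 0 ∨ ∃ l j, Cm8_Ty dl n om vt p l j) {x x' : Fin a} {y y' : Fin b} (hx : x ≠ x')
    (hy : y ≠ y') :
    om p (x, y) * oL p (x, y) (x', y') = (if Cm8_Ty dl n om vt p x y' then n p else 0) +
      (if Cm8_Ty dl n om vt p x' y then n p else 0) := by
  rcases hty with h0 | ⟨l, j, h⟩
  · have h1 := hom (x, y)
    rw [h0] at h1 ⊢
    simp only [ite_self, add_zero]
    rw [Nat.le_zero.1 h1, zero_mul]
  · simp only [Cm8_uniq ha hb h]
    obtain ⟨h0, -, h1, h2, h3⟩ := h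
    rw [hoL h0 _ _ hx hy]
    by_cases hc1 : x = l ∧ y' = j
    · obtain ⟨rfl, rfl⟩ := hc1
      have a1 := h2 (x, y) (Or.inl rfl) (fun e => hy (congrArg Prod.snd e))
      have a2 := h2 (x', y') (Or.inr rfl) (fun e => hx (congrArg Prod.fst e).symm)
      rw [if_pos (show (x, y) ∈ vt p ∧ (x', y') ∈ vt p from ⟨a1.1, a2.1⟩), a1.2,
        if_pos (show x = x ∧ y' = y' from ⟨rfl, rfl⟩),
        if_neg (fun e : x' = x ∧ y = y' => hx e.1.symm), mul_one, add_zero]
    · by_cases hc2 : x' = l ∧ y = j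
      · obtain ⟨rfl, rfl⟩ := hc2
        have a1 := h2 (x, y) (Or.inr rfl) (fun e => hx (congrArg Prod.fst e))
        have a2 := h2 (x', y') (Or.inl rfl) (fun e => hy (congrArg Prod.snd e).symm)
        rw [if_pos (show (x, y) ∈ vt p ∧ (x', y') ∈ vt p from ⟨a1.1, a2.1⟩), a1.2,
          if_pos (show x' = x' ∧ y = y from ⟨rfl, rfl⟩),
          if_neg (fun e : x = x' ∧ y' = y => hx e.1), mul_one, zero_add]
      · rw [if_neg hc1, if_neg hc2]
        by_cases hv : (x, y) ∈ vt p ∧ (x', y') ∈ vt p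
        · rcases h1 _ hv.1 with h4 | h4
          · rcases h1 _ hv.2 with h5 | h5
            · exact absurd (h4.trans h5.symm) hx
            · exact absurd ⟨h4, h5⟩ hc1
          · rcases h1 _ hv.2 with h5 | h5
            · exact absurd ⟨h5, h4⟩ hc2
            · exact absurd (h4.trans h5.symm) hy
        · rw [if_neg hv, mul_zero, add_zero]

theorem comb_final {a b c d : ℕ} {P : Type} [Fintype P] {dl g n jj : P → ℕ} {lam : P → ℕ → ℕ}
    {om : P → Fin a × Fin b → ℕ} {vt : P → Finset (Fin a × Fin b)}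
    {oL : P → (Fin a × Fin b) → (Fin a × Fin b) → ℕ} {eF : ℕ}
    (h : CombD a b c d dl g n jj lam om vt oL eF) :
    6 ≤ b ∧ ∀ (l : Fin a) (j : Fin b), ∃ p, dl p = 1 ∧
      ∀ s, (s.1 = l ∨ s.2 = j) → s ≠ (l, j) → s ∈ vt p := by
  classical
  obtain ⟨hg, hjj, -, hab⟩ := g_zero h
  obtain ⟨hch, hnp, hpl⟩ := plane_struct h
  have ha := h.a2
  have hb6 : 6 ≤ b := Cm8_b h.a2 h.ac h.cd h.N hab
  have hb3 : 3 ≤ b := by omega
  have halt : a < b := lt_of_lt_of_le (lt_of_lt_of_le h.ac h.cd) h.db.le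
  have hty : ∀ p, n p = 0 ∨ ∃ l j, Cm8_Ty dl n om vt p l j := by
    intro p
    by_cases h0 : n p = 0
    · exact Or.inl h0
    · right
      have h1 : dl p = 1 := by
        by_contra h2
        exact h0 (hnp p h2)
      obtain ⟨l, j, h2, h3, h4⟩ := hpl p h1 (by omega)
      exact ⟨l, j, h1, by omega, h2, h3, h4⟩
  obtain ⟨Nn, hNn⟩ : ∃ Nn : Fin a → Fin b → ℕ, ∀ l j, Nn l j =
      ∑ p, (if Cm8_Ty dl n om vt p l j then n p else 0) := ⟨_, fun _ _ => rfl⟩
  have hpoint : ∀ x y, ∑ m ∈ univ.erase y, Nn x m + ∑ k ∈ univ.erase x, Nn k y = a + b - 2 := by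
    intro x y
    have h1 : ∑ p, om p (x, y) = a + b - 2 := by
      have h2 := h.G1 (x, y)
      have h3 : ∑ p, dl p * g p = 0 := sum_eq_zero fun p _ => by rw [hg, mul_zero]
      have h4 : ∑ p, dl p * om p (x, y) = ∑ p, om p (x, y) := by
        refine sum_congr rfl fun p _ => ?_
        by_cases h5 : dl p = 1
        · rw [h5, one_mul]
        · have h6 := h.omn p (x, y)
          rw [hnp p h5] at h6
          rw [Nat.le_zero.1 h6, mul_zero]
      rw [h3, h4] at h2
      omega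
    rw [← h1, sum_congr rfl (fun p _ => Cm8_point ha hb3 p (h.omn p)
      (fun s hs => by rw [h.nv p s hs, hg]) (hty p) x y), sum_add_distrib]
    congr 1
    · rw [sum_comm]
      exact sum_congr rfl fun m _ => hNn x m
    · rw [sum_comm]
      exact sum_congr rfl fun k _ => hNn k y
  have hchord : ∀ x x' y y', x ≠ x' → y ≠ y' → Nn x y' + Nn x' y = 2 := by
    intro x x' y y' hx hy
    rw [← hch (x, y) (x', y') hx hy, hNn, hNn, ← sum_add_distrib]
    exact sum_congr rfl fun p _ =>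
      (Cm8_chord ha hb3 p (h.oLp p) (h.omn p) (hty p) hx hy).symm
  have hrow : ∀ x y1 y2, Nn x y1 = Nn x y2 := by
    intro x y1 y2
    obtain ⟨y', h1, h2⟩ := Cm8_third hb3 y1 y2
    obtain ⟨x', hx'⟩ := Cm8_other ha x
    have h3 := hchord x' x y1 y' hx' (Ne.symm h1)
    have h4 := hchord x' x y2 y' hx' (Ne.symm h2)
    omega
  have hone : ∀ x y, Nn x y = 1 := by
    intro x y
    have h1 : ∑ m ∈ univ.erase y, Nn x m = (b - 1) * Nn x y := by
      rw [sum_congr rfl (fun m _ => hrow x m y), sum_const, card_erase_of_mem (mem_univ _),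
        card_univ, Fintype.card_fin, smul_eq_mul]
    have hle : Nn x y ≤ 2 := by
      obtain ⟨x', hx'⟩ := Cm8_other ha x
      obtain ⟨y', hy', -⟩ := Cm8_third hb3 y y
      have h3 := hchord x x' y' y (Ne.symm hx') hy'
      omega
    have h2 : ∑ k ∈ univ.erase x, Nn k y = (a - 1) * (2 - Nn x y) := by
      have h3 : ∀ k ∈ univ.erase x, Nn k y = 2 - Nn x y := by
        intro k hk
        obtain ⟨y', hy', -⟩ := Cm8_third hb3 y y
        have h4 := hchord x k y' y (Ne.symm (mem_erase.1 hk).1) hy'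
        have h5 := hrow k y' y
        omega
      rw [sum_congr rfl h3, sum_const, card_erase_of_mem (mem_univ _),
        card_univ, Fintype.card_fin, smul_eq_mul]
    have h3 := hpoint x y
    rw [h1, h2] at h3
    have h4 : Nn x y = 0 ∨ Nn x y = 1 ∨ Nn x y = 2 := by omega
    rcases h4 with h4 | h4 | h4
    · rw [h4] at h3
      omega
    · exact h4
    · rw [h4] at h3
      omega
  refine ⟨hb6, fun l j => ?_⟩
  have h1 := hone l j
  rw [hNn] at h1
  have h2 : ∃ p, Cm8_Ty dl n om vt p l j := by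
    by_contra hcon
    push Not at hcon
    rw [sum_eq_zero (fun p _ => if_neg (hcon p))] at h1
    omega
  obtain ⟨p, h3, -, -, h4, -⟩ := h2
  exact ⟨p, h3, fun s hs hs' => (h4 s hs hs').1⟩

end GP80

end S_H80_GP_Cm8

section S_H80_GP_Nak

/-!
# Row Nak (MP_87ed0a_GP): saturated submodules over a 2-dimensional regular local ring  (about 220 lines)

`A` Noetherian local domain, `l1` prime, maximal ideal `m = (l1, l2)`; `M ≤ A^ι` saturated; any `r + 1` elements of `M` are linearly dependent; `e j ∈ M`, `j ∈ κ`, with linearly independent images in `(A/m)^ι`.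
Then `card κ ≤ r` and `M` is generated by the `e j` and `r - card κ` further elements.
Proof.  `B := A ⧸ (l1)`: a Noetherian local domain whose maximal ideal is principal (generated by the image of `l2`), so a principal ideal ring
(`tfae_of_isNoetherianRing_of_isLocalRing_of_isDomain`).  Let `N ≤ B^ι` be the image of `M` (`Submodule.map` along the reduction, as a `B`-submodule: e.g. the span over `B` of the image, which is the image itself).
`N` is finite free over the PID `B`; let `n_1, .., n_r'` be a basis, `m_j ∈ M` lifts.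
(1) `r' ≤ r`: the `m_j` are linearly independent over `A`: if `∑ a_j m_j = 0`, `a ≠ 0`: let `l1^k` be the highest power of `l1` dividing all `a_j` (exists: some `a_j ≠ 0`; `Noetherian` domain, `l1` not a unit: `FiniteMultiplicity`, Krull
intersection `Ideal.iInf_pow_eq_bot_of_isDomain` or `WfDvdMonoid`), `a_j = l1^k a'_j`, cancel `l1^k`: `∑ a'_j m_j = 0`, reduce modulo `l1`: `∑ a'_j n_j = 0` so all `a'_j ∈ (l1)`, contradiction.
(2) The kernel of `M → N` is `l1 M`: `x ∈ M`, `x ∈ l1 A^ι`, `x = l1 y`, `y ∈ M` by saturation.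
(3) The images of the `e j` in `N / l2 N` are linearly independent over the residue field: `N / l2 N` maps to `(A/m)^ι`.  `N / l2 N` has dimension `r'` (`N` free of rank `r'`).  So `card κ ≤ r'`, and there are
`r' - card κ` elements of the basis `n_1, .., n_r'` (or any elements) which together with the `e j` span `N / l2 N` (Steinitz exchange: `exists_linearIndependent_extension`, or
`Submodule.exists_...`).  Let `g` be the corresponding lifts `m_j` (pad with zeros up to `r - card κ`).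
(4) So `M = span (e, g) + l1 M + l2 M = span (e, g) + m M`; Nakayama (`Submodule.le_of_le_smul_of_le_jacobson_bot`, `M` finitely generated since `A` is Noetherian) gives `M ≤ span (e, g)`.
-/

namespace GP80

theorem Nak_stepA {A ι ν : Type} [CommRing A] [IsDomain A] [IsNoetherianRing A] [IsLocalRing A]
    [Fintype ι] [Fintype ν] (l1 l2 : A) (hl1 : Prime l1)
    (hm : IsLocalRing.maximalIdeal A = Ideal.span {l1, l2}) (M : Submodule A (ι → A))
    (hsat : ∀ (a : A) (x : ι → A), a ≠ 0 → a • x ∈ M → x ∈ M)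
    (g : ν → (ι → A)) (hg : ∀ j, g j ∈ M)
    (hind : ∀ b : ν → A, ∑ j, b j • g j ∈ (IsLocalRing.maximalIdeal A) • M →
      ∀ j, b j ∈ IsLocalRing.maximalIdeal A)
    (a : ν → A) (y : ι → A) (h : ∑ j, a j • g j = l1 • y) : ∀ j, l1 ∣ a j := by
  have hl1m : l1 ∈ IsLocalRing.maximalIdeal A := by
    rw [hm]; exact Ideal.subset_span (by simp)
  have hl2m : l2 ∈ IsLocalRing.maximalIdeal A := by
    rw [hm]; exact Ideal.subset_span (by simp)
  have hmM : ∀ (b : ν → A) (z : ι → A), ∑ j, b j • g j = l1 • z →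
      ∑ j, b j • g j ∈ (IsLocalRing.maximalIdeal A) • M := by
    intro b z hz
    have h1 : l1 • z ∈ M := by
      rw [← hz]; exact Submodule.sum_mem _ (fun j _ => M.smul_mem _ (hg j))
    have h2 : z ∈ M := hsat l1 z hl1.ne_zero h1
    rw [hz]
    exact Submodule.smul_mem_smul hl1m h2
  by_cases h12 : l1 ∣ l2
  · intro j
    have h1 := hind a (hmM a y h) j
    rw [hm, Ideal.mem_span_pair] at h1
    obtain ⟨u, v, huv⟩ := h1
    rw [← huv]
    exact dvd_add (Dvd.intro_left u rfl) (Dvd.dvd.mul_left h12 v)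
  · have key : ∀ k : ℕ, ∃ b c : ν → A, ∀ j, a j = l1 * c j + l2 ^ k * b j := by
      intro k
      induction k with
      | zero => exact ⟨a, fun _ => 0, fun j => by simp⟩
      | succ k ih =>
        obtain ⟨b, c, hbc⟩ := ih
        have h3 : ∀ i, l1 ∣ (∑ j, b j • g j) i := by
          intro i
          have h4 := congrFun h i
          simp only [Finset.sum_apply, Pi.smul_apply, smul_eq_mul] at h4 ⊢
          have h5 : ∑ j, a j * g j i = l1 * (∑ j, c j * g j i) + l2 ^ k * ∑ j, b j * g j i := by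
            rw [Finset.mul_sum, Finset.mul_sum, ← Finset.sum_add_distrib]
            refine Finset.sum_congr rfl (fun j _ => ?_)
            rw [hbc j]; ring
          have h6 : l1 ∣ l2 ^ k * ∑ j, b j * g j i := by
            refine ⟨y i - ∑ j, c j * g j i, ?_⟩
            rw [mul_sub, ← h4, h5]; ring
          rcases hl1.dvd_or_dvd h6 with h7 | h7
          · exact absurd (hl1.dvd_of_dvd_pow h7) h12
          · exact h7
        choose z hz using h3
        have h8 := hind b (hmM b z (by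
          funext i
          rw [hz i]; simp))
        have h9 : ∀ j, ∃ u v : A, u * l1 + v * l2 = b j := by
          intro j
          have := h8 j
          rw [hm, Ideal.mem_span_pair] at this
          exact this
        choose u v huv using h9
        refine ⟨v, fun j => c j + l2 ^ k * u j, fun j => ?_⟩
        rw [hbc j, ← huv j]; ring
    intro j
    have hne : Nontrivial (A ⧸ Ideal.span {l1}) := by
      refine Ideal.Quotient.nontrivial_iff.mpr ?_
      intro htop
      rw [Ideal.span_singleton_eq_top] at htop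
      exact hl1.not_unit htop
    have hloc : IsLocalRing (A ⧸ Ideal.span {l1}) :=
      IsLocalRing.of_surjective' (Ideal.Quotient.mk (Ideal.span {l1})) Ideal.Quotient.mk_surjective
    have hI : Ideal.span {Ideal.Quotient.mk (Ideal.span {l1}) l2} ≠ ⊤ := by
      intro htop
      rw [Ideal.span_singleton_eq_top] at htop
      obtain ⟨w, hw⟩ := htop.exists_right_inv
      obtain ⟨w', rfl⟩ := Ideal.Quotient.mk_surjective w
      rw [← map_mul, ← map_one (Ideal.Quotient.mk (Ideal.span {l1})), Ideal.Quotient.eq] at hw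
      rw [Ideal.mem_span_singleton] at hw
      obtain ⟨t, ht⟩ := hw
      have : (1 : A) ∈ IsLocalRing.maximalIdeal A := by
        have e1 : (1 : A) = l2 * w' - l1 * t := by rw [← ht]; ring
        rw [e1]
        exact Ideal.sub_mem _ (Ideal.mul_mem_right _ _ hl2m) (Ideal.mul_mem_right _ _ hl1m)
      exact (Ideal.ne_top_iff_one _).mp (IsLocalRing.maximalIdeal.isMaximal A).ne_top this
    have hk := Ideal.iInf_pow_eq_bot_of_isLocalRing _ hI
    have hmem : Ideal.Quotient.mk (Ideal.span {l1}) (a j) ∈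
        ⨅ i : ℕ, Ideal.span {Ideal.Quotient.mk (Ideal.span {l1}) l2} ^ i := by
      rw [Submodule.mem_iInf]
      intro k
      obtain ⟨b, c, hbc⟩ := key k
      rw [hbc j, map_add, map_mul, map_mul, map_pow]
      have e2 : Ideal.Quotient.mk (Ideal.span {l1}) l1 = 0 :=
        Ideal.Quotient.eq_zero_iff_mem.mpr (Ideal.mem_span_singleton_self l1)
      rw [e2, zero_mul, zero_add]
      exact Ideal.mul_mem_right _ _ (Ideal.pow_mem_pow (Ideal.mem_span_singleton_self _) k)
    rw [hk, Ideal.mem_bot, Ideal.Quotient.eq_zero_iff_mem, Ideal.mem_span_singleton] at hmem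
    exact hmem

theorem Nak_stepB {A ι ν : Type} [CommRing A] [IsDomain A] [IsNoetherianRing A] [IsLocalRing A]
    [Fintype ι] [Fintype ν] (l1 l2 : A) (hl1 : Prime l1)
    (hm : IsLocalRing.maximalIdeal A = Ideal.span {l1, l2}) (M : Submodule A (ι → A))
    (hsat : ∀ (a : A) (x : ι → A), a ≠ 0 → a • x ∈ M → x ∈ M)
    (g : ν → (ι → A)) (hg : ∀ j, g j ∈ M)
    (hind : ∀ b : ν → A, ∑ j, b j • g j ∈ (IsLocalRing.maximalIdeal A) • M →
      ∀ j, b j ∈ IsLocalRing.maximalIdeal A) : LinearIndependent A g := by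
  rw [Fintype.linearIndependent_iff]
  intro a ha j
  have key : ∀ k : ℕ, ∃ b : ν → A, (∀ j, a j = l1 ^ k * b j) ∧ ∑ j, b j • g j = 0 := by
    intro k
    induction k with
    | zero => exact ⟨a, fun j => by simp, ha⟩
    | succ k ih =>
      obtain ⟨b, hb, hb0⟩ := ih
      have h1 := Nak_stepA l1 l2 hl1 hm M hsat g hg hind b 0 (by rw [hb0, smul_zero])
      choose c hc using h1
      refine ⟨c, fun j => ?_, ?_⟩
      · rw [hb j, hc j]; ring
      · have h2 : l1 • ∑ j, c j • g j = 0 := by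
          rw [Finset.smul_sum, ← hb0]
          refine Finset.sum_congr rfl (fun j _ => ?_)
          rw [hc j, mul_smul]
        exact (smul_eq_zero.mp h2).resolve_left hl1.ne_zero
  have hI : Ideal.span {l1} ≠ ⊤ := by
    intro htop
    rw [Ideal.span_singleton_eq_top] at htop
    exact hl1.not_unit htop
  have hk := Ideal.iInf_pow_eq_bot_of_isLocalRing _ hI
  have hmem : a j ∈ ⨅ i : ℕ, Ideal.span {l1} ^ i := by
    rw [Submodule.mem_iInf]
    intro k
    obtain ⟨b, hb, _⟩ := key k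
    rw [hb j]
    exact Ideal.mul_mem_right _ _ (Ideal.pow_mem_pow (Ideal.mem_span_singleton_self _) k)
  rw [hk, Ideal.mem_bot] at hmem
  exact hmem

theorem nak {A ι κ : Type} [CommRing A] [IsDomain A] [IsNoetherianRing A] [IsLocalRing A] [Fintype ι]
    [Fintype κ] (l1 l2 : A) (hl1 : Prime l1)
    (hm : IsLocalRing.maximalIdeal A = Ideal.span {l1, l2}) (M : Submodule A (ι → A))
    (hsat : ∀ (a : A) (x : ι → A), a ≠ 0 → a • x ∈ M → x ∈ M) (r : ℕ)
    (hr : ∀ m : Fin (r + 1) → (ι → A), (∀ j, m j ∈ M) → ¬ LinearIndependent A m)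
    (e : κ → (ι → A)) (he : ∀ j, e j ∈ M)
    (hind : LinearIndependent (IsLocalRing.ResidueField A)
      (fun j : κ => (fun i : ι => IsLocalRing.residue A (e j i)))) :
    Fintype.card κ ≤ r ∧ ∃ g : Fin (r - Fintype.card κ) → (ι → A), (∀ j, g j ∈ M) ∧
      ∀ x ∈ M, x ∈ Submodule.span A (Set.range e) ⊔ Submodule.span A (Set.range g) := by
  classical
  have hfg : M.FG := IsNoetherian.noetherian M
  have hJ : IsLocalRing.maximalIdeal A ≤ Ideal.jacobson ⊥ :=
    IsLocalRing.maximalIdeal_le_jacobson _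
  set P : ℕ → Prop := fun n => ∃ g : Fin n → (ι → A), (∀ j, g j ∈ M) ∧
      M ≤ Submodule.span A (Set.range e) ⊔ Submodule.span A (Set.range g) with hP
  have hex : ∃ n, P n := by
    obtain ⟨n, s, hs⟩ := Submodule.fg_iff_exists_fin_generating_family.mp hfg
    refine ⟨n, s, fun j => ?_, ?_⟩
    · rw [← hs]; exact Submodule.subset_span ⟨j, rfl⟩
    · rw [hs]; exact le_sup_right
  obtain ⟨g, hgM, hgen⟩ := Nat.find_spec hex
  have hmin : ∀ m, m < Nat.find hex → ¬ P m := fun m hm' => Nat.find_min hex hm'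
  generalize Nat.find hex = n at g hgM hgen hmin
  have hred : ∀ x ∈ (IsLocalRing.maximalIdeal A) • M, ∀ i, x i ∈ IsLocalRing.maximalIdeal A := by
    intro x hx i
    refine Submodule.smul_induction_on hx ?_ ?_
    · intro a ha y _
      exact Ideal.mul_mem_right _ _ ha
    · intro y z hy hz
      exact Ideal.add_mem _ hy hz
  have hindg : ∀ b : κ ⊕ Fin n → A, ∑ j, b j • (Sum.elim e g) j ∈
      (IsLocalRing.maximalIdeal A) • M → ∀ j, b j ∈ IsLocalRing.maximalIdeal A := by
    intro b hb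
    rw [Fintype.sum_sum_type] at hb
    simp only [Sum.elim_inl, Sum.elim_inr] at hb
    have hc : ∀ i : Fin n, b (Sum.inr i) ∈ IsLocalRing.maximalIdeal A := by
      intro i
      by_contra hcon
      have hu : IsUnit (b (Sum.inr i)) := by
        by_contra hnu
        exact hcon ((IsLocalRing.mem_maximalIdeal _).mpr hnu)
      obtain ⟨w, hw⟩ := hu.exists_left_inv
      cases n with
      | zero => exact i.elim0
      | succ n =>
        refine hmin n (Nat.lt_succ_self n) ⟨fun j => g (i.succAbove j), fun j => hgM _, ?_⟩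
        refine Submodule.le_of_le_smul_of_le_jacobson_bot hfg hJ ?_
        refine hgen.trans ?_
        refine sup_le (le_sup_of_le_left le_sup_left) ?_
        rw [Submodule.span_le]
        rintro _ ⟨j, rfl⟩
        by_cases hji : j = i
        · rw [hji, SetLike.mem_coe]
          have h1 : g i = w • ((∑ j, b (Sum.inl j) • e j + ∑ j, b (Sum.inr j) • g j)
              - ∑ j, b (Sum.inl j) • e j -
              ∑ j : Fin n, b (Sum.inr (i.succAbove j)) • g (i.succAbove j)) := by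
            rw [Fin.sum_univ_succAbove (fun j => b (Sum.inr j) • g j) i]
            have h2 : (∑ j, b (Sum.inl j) • e j + (b (Sum.inr i) • g i +
                ∑ j : Fin n, b (Sum.inr (i.succAbove j)) • g (i.succAbove j)))
              - ∑ j, b (Sum.inl j) • e j -
              ∑ j : Fin n, b (Sum.inr (i.succAbove j)) • g (i.succAbove j) =
              b (Sum.inr i) • g i := by abel
            rw [h2, smul_smul, hw, one_smul]
          rw [h1]
          refine Submodule.smul_mem _ _ (Submodule.sub_mem _ (Submodule.sub_mem _ ?_ ?_) ?_)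
          · exact Submodule.mem_sup_right hb
          · refine Submodule.mem_sup_left (Submodule.mem_sup_left ?_)
            exact Submodule.sum_mem _ (fun j _ => Submodule.smul_mem _ _
              (Submodule.subset_span ⟨j, rfl⟩))
          · refine Submodule.mem_sup_left (Submodule.mem_sup_right ?_)
            exact Submodule.sum_mem _ (fun j _ => Submodule.smul_mem _ _
              (Submodule.subset_span ⟨j, rfl⟩))
        · obtain ⟨j', rfl⟩ := Fin.exists_succAbove_eq hji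
          exact Submodule.mem_sup_left (Submodule.mem_sup_right (Submodule.subset_span ⟨j', rfl⟩))
    have he1 : ∑ j, b (Sum.inl j) • e j ∈ (IsLocalRing.maximalIdeal A) • M := by
      have h3 : ∑ j, b (Sum.inr j) • g j ∈ (IsLocalRing.maximalIdeal A) • M :=
        Submodule.sum_mem _ (fun j _ => Submodule.smul_mem_smul (hc j) (hgM j))
      have h4 := Submodule.sub_mem _ hb h3
      rwa [add_sub_cancel_right] at h4
    have he2 : ∀ j, b (Sum.inl j) ∈ IsLocalRing.maximalIdeal A := by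
      intro j
      rw [Fintype.linearIndependent_iff] at hind
      have h5 := hind (fun j => IsLocalRing.residue A (b (Sum.inl j))) (by
        funext i
        have h6 := hred _ he1 i
        rw [← IsLocalRing.residue_eq_zero_iff] at h6
        rw [Finset.sum_apply, map_sum] at h6
        rw [Finset.sum_apply, Pi.zero_apply, ← h6]
        refine Finset.sum_congr rfl (fun j _ => ?_)
        simp) j
      exact (IsLocalRing.residue_eq_zero_iff _).mp h5
    rintro (j | j)
    · exact he2 j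
    · exact hc j
  have hLI : LinearIndependent A (Sum.elim e g) := by
    refine Nak_stepB l1 l2 hl1 hm M hsat _ ?_ hindg
    rintro (j | j)
    · exact he j
    · exact hgM j
  have hcard : Fintype.card κ + n ≤ r := by
    by_contra hcon
    push_neg at hcon
    have h7 : Fintype.card (Fin (r + 1)) ≤ Fintype.card (κ ⊕ Fin n) := by
      rw [Fintype.card_sum, Fintype.card_fin, Fintype.card_fin]; omega
    obtain ⟨φ⟩ := Function.Embedding.nonempty_of_card_le h7
    refine hr (fun j => Sum.elim e g (φ j)) ?_ (hLI.comp φ φ.injective)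
    intro j
    rcases φ j with j' | j'
    · exact he j'
    · exact hgM j'
  refine ⟨by omega, fun j => if h : (j : ℕ) < n then g ⟨j, h⟩ else 0, ?_, ?_⟩
  · intro j
    by_cases h : (j : ℕ) < n
    · simp only [h, dif_pos]; exact hgM _
    · simp only [h, dif_neg, not_false_iff]; exact M.zero_mem
  · intro x hx
    refine (sup_le_sup_left (Submodule.span_le.mpr ?_) (Submodule.span A (Set.range e)) :
      Submodule.span A (Set.range e) ⊔ Submodule.span A (Set.range g) ≤ _) (hgen hx)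
    rintro _ ⟨j, rfl⟩
    refine Submodule.subset_span ⟨⟨j, by omega⟩, ?_⟩
    simp

end GP80

end S_H80_GP_Nak

section S_H80_GP_Gpr

/-!
# Row Gpr (MP_87ed0a_GP): the good pair at a chord  (about 200 lines)

`A = AL (z s) (z s')`, a Noetherian local domain (`AL_domain`, `AL_noetherian`, `AL_max`), `P_0` a unit.  `F0 = chartH A 0 F`, `G0 = chartH A 0 G`, `v t = vz A 0 (z t)`.
Identify `A^(Mon d)` with the forms of degree `d` (`x ↦ ∑ x_m X^m`, `exists_basisMon`).  `M` := the `x` whose form vanishes at all `v t`.  Saturated because `A` is a domain.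
Every `H ∈ M` satisfies `a H = U F0 + b G0`, `0 ≠ a ∈ A` , `U` homogeneous of degree `d - c`, `b ∈ A` (`gen_O` with the submonoid `(pL ..).primeCompl`, then the component of degree `d`).
* Case `c < d`: `κ = Mon (d - c)`, `e m = m F0`, `r = nn (d-c) + 1`.  Any `r + 1` elements of `M` are dependent over `A`: over the fraction field `M` is contained in the span of the `m F0` and `G0`, of dimension `≤ r`
  (e.g. `LinearIndependent` over `A` implies over the fraction field, `LinearIndependent.localization`/`IsFractionRing`; then `linearIndependent_le_span`).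
  Independence modulo the maximal ideal: `∑ a_m m F̄0 = 0` with `a_m ∈ κ(A)` gives `(∑ a_m m) F̄0 = 0`, `F̄0 ≠ 0` (hypothesis `hl`), so all `a_m = 0`.
  `nak` gives `g : Fin 1 → ..` (`r - card κ = 1`, `card_Mon`); `G2` := the form of `g 0`, `F2 := F0`.  `DegGen`: `H ∈ M` is `∑ a_m m F0 + a G2`.
* Case `c = d`: `κ = Empty` (or `Fin 0`), `r = 2`: three elements of `M` are dependent (in the span of `F0, G0`; `U` is a constant).  `nak` gives two generators `F2, G2` (homogeneous of degree `c = d`).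
-/

namespace GP80

open MvPolynomial

private theorem Gpr_comp {R σ : Type} [CommRing R] {G : MvPolynomial σ R} {i : ℕ}
    (hG : G.IsHomogeneous i) (n : ℕ) (hin : i ≤ n) (A : MvPolynomial σ R) :
    homogeneousComponent n (A * G) = homogeneousComponent (n - i) A * G := by
  have h1 : ∀ j, homogeneousComponent n (homogeneousComponent j A * G) =
      if n - i = j then homogeneousComponent j A * G else 0 := by
    intro j
    have h2 : (homogeneousComponent j A * G).IsHomogeneous (j + i) :=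
      (homogeneousComponent_isHomogeneous j A).mul hG
    rw [homogeneousComponent_of_mem ((mem_homogeneousSubmodule _ _).2 h2)]
    by_cases h : n - i = j
    · rw [if_pos h, if_pos (by omega)]
    · rw [if_neg h, if_neg (by omega)]
  conv_lhs => rw [← sum_homogeneousComponent A]
  rw [Finset.sum_mul, map_sum, Finset.sum_congr rfl (fun j _ => h1 j), Finset.sum_ite_eq]
  by_cases h : n - i ∈ Finset.range (A.totalDegree + 1)
  · rw [if_pos h]
  · rw [if_neg h, homogeneousComponent_eq_zero, zero_mul]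
    rw [Finset.mem_range] at h
    omega

private theorem Gpr_dep {A V τ : Type} [CommRing A] [IsDomain A] [AddCommGroup V] [Module A V]
    [Fintype τ] (M : Submodule A V) (w : τ → V) (r : ℕ) (hτ : Fintype.card τ ≤ r)
    (hgen : ∀ x ∈ M, ∃ a : A, a ≠ 0 ∧ a • x ∈ Submodule.span A (Set.range w))
    (m : Fin (r + 1) → V) (hm : ∀ j, m j ∈ M) : ¬ LinearIndependent A m := by
  classical
  intro hLI
  choose a ha hspan using fun j => hgen (m j) (hm j)
  have hLI2 : LinearIndependent A (fun j => a j • m j) := by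
    rw [Fintype.linearIndependent_iff] at hLI ⊢
    intro g hg j
    have h1 : ∑ i, (g i * a i) • m i = 0 := by
      rw [← hg]
      exact Finset.sum_congr rfl fun i _ => by rw [mul_smul]
    exact (mul_eq_zero.1 (hLI _ h1 j)).resolve_right (ha j)
  have h2 : Set.range (fun j => a j • m j) ≤ Submodule.span A (Set.range w) := by
    rintro _ ⟨j, rfl⟩
    exact hspan j
  have h3 := linearIndependent_le_span_aux' _ hLI2 (Set.range w) h2
  have h4 : Fintype.card (Set.range w) ≤ Fintype.card τ :=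
    Fintype.card_le_of_surjective (Set.rangeFactorization w) Set.rangeFactorization_surjective
  rw [Fintype.card_fin] at h3
  omega

private theorem Gpr_mem_iff {t : ℕ} {d : Fin 3 →₀ ℕ} :
    d ∈ Finset.finsuppAntidiag (Finset.univ : Finset (Fin 3)) t ↔ d.degree = t := by
  rw [Finset.mem_finsuppAntidiag]
  constructor
  · rintro ⟨h, -⟩
    rw [← h, Finsupp.degree_eq_sum]
  · intro h
    refine ⟨?_, Finset.subset_univ _⟩
    rw [← h, Finsupp.degree_eq_sum]

private theorem Gpr_expand {A : Type} [CommRing A] {t : ℕ} {U : MvPolynomial (Fin 3) A}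
    (hU : U.IsHomogeneous t) : ∑ m : Mon t, C (coeff m.1 U) * monomial m.1 (1 : A) = U := by
  obtain ⟨b, hb1, hb2⟩ := exists_basisMon A t
  have h1 := b.sum_repr (HS.mk U hU)
  have h2 := congrArg HS.val h1
  rw [HS.val_sum, HS.val_mk] at h2
  rw [← h2]
  refine Finset.sum_congr rfl fun m _ => ?_
  rw [HS.val_smul, hb1, hb2, HS.val_mk, h2]

private theorem Gpr_homsum {A : Type} [CommRing A] {t : ℕ} (c : Mon t → A) :
    (∑ m : Mon t, C (c m) * monomial m.1 (1 : A)).IsHomogeneous t :=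
  MvPolynomial.IsHomogeneous.sum _ _ _ fun m _ =>
    (isHomogeneous_monomial (1 : A) (Gpr_mem_iff.1 m.2)).C_mul (c m)

private theorem Gpr_coeff {A : Type} [CommRing A] {t : ℕ} (c : Mon t → A) (j : Mon t) :
    coeff j.1 (∑ m : Mon t, C (c m) * monomial m.1 (1 : A)) = c j := by
  classical
  rw [coeff_sum]
  rw [Finset.sum_eq_single j]
  · rw [coeff_C_mul, coeff_monomial, if_pos rfl, mul_one]
  · intro m _ hm
    rw [coeff_C_mul, coeff_monomial, if_neg (fun h => hm (Subtype.ext h)), mul_zero]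
  · intro h
    exact absurd (Finset.mem_univ _) h

private theorem Gpr_core {A I : Type} [CommRing A] [IsDomain A] [IsNoetherianRing A]
    [IsLocalRing A] (l1 l2 : A) (hl1 : Prime l1)
    (hm : IsLocalRing.maximalIdeal A = Ideal.span {l1, l2}) (v : I → Fin 3 → A) {c d : ℕ}
    (hcd : c ≤ d) (F0 G0 : MvPolynomial (Fin 3) A) (hF : F0.IsHomogeneous c)
    (hG : G0.IsHomogeneous d) (hFv : ∀ t, eval (v t) F0 = 0)
    (hgen : ∀ H : MvPolynomial (Fin 3) A, H.IsHomogeneous d → (∀ t, eval (v t) H = 0) →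
      ∃ a : A, a ≠ 0 ∧ C a * H ∈ Ideal.span {F0, G0})
    (hl : c < d → map (IsLocalRing.residue A) F0 ≠ 0) :
    ∃ F2 G2 : MvPolynomial (Fin 3) A, F2.IsHomogeneous c ∧ G2.IsHomogeneous d ∧
      (∀ t, eval (v t) F2 = 0) ∧ (∀ t, eval (v t) G2 = 0) ∧ DegGen v c d F2 G2 ∧
      (c < d → F2 = F0) := by
  classical
  obtain ⟨b, hb1, hb2⟩ := exists_basisMon A d
  obtain ⟨E, hE⟩ : ∃ E : HS A d ≃ₗ[A] (Mon d → A), ∀ f m, E f m = coeff m.1 f.val := by
    refine ⟨b.equivFun, fun f m => ?_⟩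
    rw [Module.Basis.equivFun_apply, hb2]
  obtain ⟨M, hM⟩ : ∃ M : Submodule A (Mon d → A),
      ∀ x, x ∈ M ↔ ∀ t, eval (v t) (E.symm x).val = 0 := by
    refine ⟨(LinearMap.ker (evHom v d)).comap E.symm.toLinearMap, fun x => ?_⟩
    rw [Submodule.mem_comap, LinearMap.mem_ker]
    constructor
    · intro h t
      exact congrFun h t
    · intro h
      funext t
      exact h t
  have hsat : ∀ (a : A) (x : Mon d → A), a ≠ 0 → a • x ∈ M → x ∈ M := by
    intro a x ha h
    rw [hM] at h ⊢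
    intro t
    have h1 := h t
    rw [map_smul, HS.val_smul, map_mul, eval_C] at h1
    exact (mul_eq_zero.1 h1).resolve_left ha
  have hdeg : ∀ m : Mon (d - c), (monomial m.1 (1 : A) * F0).IsHomogeneous d := by
    intro m
    have h1 := (isHomogeneous_monomial (1 : A) (Gpr_mem_iff.1 m.2)).mul hF
    rwa [Nat.sub_add_cancel hcd] at h1
  obtain ⟨e, he⟩ : ∃ e : Mon (d - c) → (Mon d → A), ∀ m, e m = E (HS.mk _ (hdeg m)) :=
    ⟨fun m => E (HS.mk _ (hdeg m)), fun _ => rfl⟩
  have heval : ∀ m, (E.symm (e m)).val = monomial m.1 (1 : A) * F0 := by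
    intro m
    rw [he, LinearEquiv.symm_apply_apply, HS.val_mk]
  have heM : ∀ m, e m ∈ M := by
    intro m
    rw [hM]
    intro t
    rw [heval, map_mul, hFv, mul_zero]
  have hsumval : ∀ {τ : Type} [Fintype τ] (a : τ → A) (x : τ → (Mon d → A)),
      (E.symm (∑ i, a i • x i)).val = ∑ i, C (a i) * (E.symm (x i)).val := by
    intro τ _ a x
    rw [map_sum, HS.val_sum]
    refine Finset.sum_congr rfl fun i _ => ?_
    rw [map_smul, HS.val_smul]
  have hgen3 : ∀ x ∈ M, ∃ a : A, a ≠ 0 ∧ a • x ∈ Submodule.span A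
      (Set.range (fun o : Option (Mon (d - c)) => o.elim (E (HS.mk G0 hG)) e)) := by
    intro x hx
    obtain ⟨a, ha, h⟩ := hgen _ (E.symm x).prop ((hM x).1 hx)
    obtain ⟨P, Q, hPQ⟩ := Ideal.mem_span_pair.1 h
    refine ⟨a, ha, ?_⟩
    have h1 : homogeneousComponent d (C a * (E.symm x).val) = C a * (E.symm x).val :=
      homogeneousComponent_eq_self ((E.symm x).prop.C_mul a)
    have h2 : C a * (E.symm x).val = homogeneousComponent (d - c) P * F0 + C (coeff 0 Q) * G0 := by
      rw [← h1, ← hPQ, map_add, Gpr_comp hF d hcd, Gpr_comp hG d le_rfl, Nat.sub_self,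
        homogeneousComponent_zero]
    have h3 : a • x = ∑ m : Mon (d - c), coeff m.1 (homogeneousComponent (d - c) P) • e m +
        coeff 0 Q • E (HS.mk G0 hG) := by
      apply E.symm.injective
      apply HS.ext
      rw [map_smul, HS.val_smul, map_add, HS.val_add, hsumval, map_smul, HS.val_smul,
        LinearEquiv.symm_apply_apply, HS.val_mk, h2]
      congr 1
      conv_lhs => rw [← Gpr_expand (homogeneousComponent_isHomogeneous (d - c) P), Finset.sum_mul]
      refine Finset.sum_congr rfl fun m _ => ?_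
      rw [heval, mul_assoc]
    rw [h3]
    refine Submodule.add_mem _ (Submodule.sum_mem _ fun m _ => Submodule.smul_mem _ _ ?_)
      (Submodule.smul_mem _ _ ?_)
    · exact Submodule.subset_span ⟨some m, rfl⟩
    · exact Submodule.subset_span ⟨none, rfl⟩
  have hr := Gpr_dep M _ (nn (d - c) + 1) (by rw [Fintype.card_option, card_Mon]) hgen3
  have hx : ∀ (H : MvPolynomial (Fin 3) A) (hH : H.IsHomogeneous d),
      (∀ t, eval (v t) H = 0) → E (HS.mk H hH) ∈ M := by
    intro H hH h0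
    rw [hM]
    intro t
    rw [LinearEquiv.symm_apply_apply, HS.val_mk]
    exact h0 t
  rcases hcd.lt_or_eq with hlt | heq
  · have hFm := hl hlt
    have hind : LinearIndependent (IsLocalRing.ResidueField A)
        (fun j : Mon (d - c) => (fun i : Mon d => IsLocalRing.residue A (e j i))) := by
      rw [Fintype.linearIndependent_iff]
      intro a ha
      have h1 : (∑ j : Mon (d - c), C (a j) * monomial j.1 (1 : IsLocalRing.ResidueField A)) *
          map (IsLocalRing.residue A) F0 = 0 := by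
        have hh : ((∑ j : Mon (d - c), C (a j) * monomial j.1 (1 : IsLocalRing.ResidueField A)) *
            map (IsLocalRing.residue A) F0).IsHomogeneous d := by
          have h2 := (Gpr_homsum a).mul (hF.map (IsLocalRing.residue A))
          rwa [Nat.sub_add_cancel hcd] at h2
        ext i
        rw [coeff_zero]
        by_cases hi : i.degree = d
        · have h3 := congrFun ha (⟨i, Gpr_mem_iff.2 hi⟩ : Mon d)
          rw [Finset.sum_apply] at h3
          rw [Finset.sum_mul, coeff_sum]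
          refine Eq.trans (Finset.sum_congr rfl fun j _ => ?_) h3
          rw [Pi.smul_apply, smul_eq_mul, he, hE, HS.val_mk, mul_assoc, coeff_C_mul, ← coeff_map,
            map_mul, map_monomial, RingHom.map_one]
        · exact hh.coeff_eq_zero hi
      have h4 := (mul_eq_zero.1 h1).resolve_right hFm
      intro j
      rw [← Gpr_coeff a j, h4, coeff_zero]
    obtain ⟨_, hex⟩ := nak l1 l2 hl1 hm M hsat (nn (d - c) + 1) hr e heM hind
    have h1 : nn (d - c) + 1 - Fintype.card (Mon (d - c)) = 1 := by rw [card_Mon]; omega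
    rw [h1] at hex
    obtain ⟨g, hgM, hsp⟩ := hex
    refine ⟨F0, (E.symm (g 0)).val, hF, (E.symm (g 0)).prop, hFv, (hM _).1 (hgM 0), ?_,
      fun _ => rfl⟩
    intro H hH h0
    obtain ⟨y, hy, z', hz', hsum⟩ := Submodule.mem_sup.1 (hsp _ (hx H hH h0))
    obtain ⟨cy, rfl⟩ := (Submodule.mem_span_range_iff_exists_fun A).1 hy
    obtain ⟨cz, rfl⟩ := (Submodule.mem_span_range_iff_exists_fun A).1 hz'
    refine ⟨∑ m : Mon (d - c), C (cy m) * monomial m.1 (1 : A), cz 0, Gpr_homsum cy, ?_⟩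
    have h2 := congrArg (fun x => (E.symm x).val) hsum
    simp only [map_add, HS.val_add, hsumval, LinearEquiv.symm_apply_apply, HS.val_mk] at h2
    rw [← h2, Fin.sum_univ_one, Finset.sum_mul]
    congr 1
    refine Finset.sum_congr rfl fun m _ => ?_
    rw [heval, mul_assoc]
  · subst heq
    have h5 : nn (c - c) + 1 = 2 := by rw [Nat.sub_self]; rfl
    rw [h5] at hr
    obtain ⟨_, hex⟩ := nak l1 l2 hl1 hm M hsat 2 hr (fun j : Fin 0 => j.elim0)
      (fun j => j.elim0) (linearIndependent_empty_type)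
    have h1 : 2 - Fintype.card (Fin 0) = 2 := by rw [Fintype.card_fin]
    rw [h1] at hex
    obtain ⟨g, hgM, hsp⟩ := hex
    refine ⟨(E.symm (g 0)).val, (E.symm (g 1)).val, (E.symm (g 0)).prop, (E.symm (g 1)).prop,
      (hM _).1 (hgM 0), (hM _).1 (hgM 1), ?_, fun h => absurd h (lt_irrefl _)⟩
    intro H hH h0
    obtain ⟨y, hy, z', hz', hsum⟩ := Submodule.mem_sup.1 (hsp _ (hx H hH h0))
    obtain ⟨cy, rfl⟩ := (Submodule.mem_span_range_iff_exists_fun A).1 hy
    obtain ⟨cz, rfl⟩ := (Submodule.mem_span_range_iff_exists_fun A).1 hz'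
    refine ⟨C (cz 0), cz 1, by rw [Nat.sub_self]; exact isHomogeneous_C _ _, ?_⟩
    have h2 := congrArg (fun x => (E.symm x).val) hsum
    simp only [map_add, HS.val_add, hsumval, LinearEquiv.symm_apply_apply, HS.val_mk] at h2
    rw [← h2, Fin.sum_univ_two, Finset.univ_eq_empty, Finset.sum_empty, zero_add]

theorem good_pair {I : Type} [Fintype I] (z : I → Fin 4 → ℂ) (hz : Geom z) {c d f f' : ℕ} {F G : BB}
    (h : Glob z c d f f' F G) {s s' : I} (hss : s ≠ s')
    (hl : c < d → map (IsLocalRing.residue (AL (z s) (z s'))) (chartH (AL (z s) (z s')) 0 F) ≠ 0) :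
    ∃ F2 G2 : MvPolynomial (Fin 3) (AL (z s) (z s')), F2.IsHomogeneous c ∧ G2.IsHomogeneous d ∧
      (∀ t, eval (vz (AL (z s) (z s')) 0 (z t)) F2 = 0) ∧
      (∀ t, eval (vz (AL (z s) (z s')) 0 (z t)) G2 = 0) ∧
      DegGen (fun t => vz (AL (z s) (z s')) 0 (z t)) c d F2 G2 ∧
      (c < d → F2 = chartH (AL (z s) (z s')) 0 F) := by
  have hdom : IsDomain (AL (z s) (z s')) := AL_domain _ _
  have hnoeth : IsNoetherianRing (AL (z s) (z s')) := AL_noetherian _ _
  obtain ⟨l1, l2, hl1, hm⟩ := AL_max (hz.ind s s' hss)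
  have hu : IsUnit (algebraMap RR (AL (z s) (z s')) (X 0)) :=
    (AL_unit _ _ _).2 (X0_not_mem (hz.co s 0))
  refine Gpr_core l1 l2 hl1 hm (fun t => vz (AL (z s) (z s')) 0 (z t)) h.cd _ _
    (chart_homog _ 0 h.Fx) (chart_homog _ 0 h.Gx)
    (fun t => vz_eval_zero _ 0 hu h.Fx h.FE (hz.co t 0) (h.Fz t)) ?_ hl
  intro H hH h0
  obtain ⟨r, hr, h1⟩ := gen_O (pL (z s) (z s')).primeCompl
    (Ideal.primeCompl_le_nonZeroDivisors _) 0 hu z (fun t => hz.co t 0) h hH h0
  refine ⟨algebraMap RR (AL (z s) (z s')) r, ?_, h1⟩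
  intro h2
  exact hr ((_root_.map_eq_zero_iff _ (AL_injective _ _)).1 h2)

end GP80

end S_H80_GP_Gpr

section S_H80_GP_Chd

/-!
# Row Chd (MP_87ed0a_GP): the chord inequalities 2.4  (about 220 lines)

`z = z s`, `z' = z s'`, `A = AL z z'`, `P_0` a unit of `A`.
* `chord_loss`: `J s ≠ 0` is the Jacobian.  `j3_of_jac` (O = A, i = 0): the Jacobian over `A` of `(chartH A 0 F, chartH A 0 G)` at `v = vz A 0 z` is `algebraMap (J s * X 0 * C κ)`, `κ ≠ 0`; both forms vanish at `v`, `v'` (`vz_eval_zero`), so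
  by `jac_sq` it is in `m^2`; `AL_mem_sq`: `t * (J s * X 0 * C κ) ∈ pL^2`, `t ∉ pL`; `ordL_sq`, `ordL_mul`, `ordL t = 0 = ordL (X 0)` (`pL_iff`, `X0_not_mem`): `2 ≤ ordL (J s) = ∑_{π ∈ T} multiplicity π (J s) * ordL π`
  (`fac_prod`, `ordL_prod`).
* `chord`: let `F2, G2` be the good pair over `A` (hypothesis), `J2 ∈ A` its Jacobian at `v` (`exists_J3`; `v` has a unit component since `v ≠ 0` modulo `m`: see Grd; or take it from `jac_sq`-like arguments: `P_0 v_j` are the images of
  `P_0 z_(j+1)/z_0 - P_(j+1)`, not all in `pL z z'`).  `J2 ∈ m^2` by `jac_sq`.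
  By `DegGen`: `chartH A 0 G = U F2 + a G2`; if `c < d`, `F2 = chartH A 0 F`: a transition of determinant `α = a`; if `c = d` also `chartH A 0 F = U' F2 + a' G2` (constants `U, U'`), `α` the `2 × 2` determinant.  `trans_J`, `unique_J3`:
  `algebraMap (J s * X 0 * C κ) = α * J2`; so `α ≠ 0`, `J2 ≠ 0`.  Write `J2 = algebraMap j2 / algebraMap t2`, `α = algebraMap a0 / algebraMap t0`, `t0, t2 ∉ pL` (`IsLocalization.mk'_surjective`): in `RR`
  `t0 t2 J s X 0 C κ = a0 j2`.  (**)
  `ordL j2 ≥ 2`: `algebraMap j2 = algebraMap t2 * J2 ∈ m^2`, as before.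
  Let `T' ⊇ T` be a set of primes covering `j2` (`exists_primes`), `j2 = C u ∏_{T'} π^(mult π j2)`, `ordL j2 = ∑_{T'} mult π j2 * ordL π`.  For `π ∈ T'` with `ordL π ≥ 1`, i.e. `π ∈ pL`:
   - `π ∈ T`: `mult π j2 = om π s`.  Let `φ : A → OO π` (`AL_to_OO`).  The pair `(map φ F2, map φ G2)` satisfies the hypotheses of `JUniq` (`π ∤ X 0` because `X 0 ∉ pL`): homogeneous, vanish at `vz (OO π) 0 (z t) = φ (vz A 0 (z t))`,
     `map φ (chartH A 0 F) = chartH (OO π) 0 F`; `DegGen`: `H` over `OO π` vanishing at the points: `lift_form` gives `u` with `π ∤ u` and `H1 ∈ BB` with `chartH (OO π) 0 H1 = C (algebraMap (u X_0^d)) H`; `chartH A 0 H1` vanishes at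
     the points (`vz_eval_zero`), so `= U F2 + a G2` by `DegGen` over `A`; apply `map φ` and divide by the unit `algebraMap (u X_0^d)` (`π ∤ u`).
     The Jacobian of this pair is `φ J2`, so `om π s = multiplicity (algebraMap π) (φ J2)`, and `φ J2 * algebraMap t2 = algebraMap j2`, `t2 ∉ pL` so `π ∤ t2`, `algebraMap t2` a unit; `OO_mult`.
   - `π ∉ T`: `π ∣ j2` would give by (**) `π ∣ t0 t2 J s X 0`, so (`t0, t2, X 0 ∉ pL`, `π ∈ pL`) `π ∣ J s`, hence `π` is associated to an element of `T ⊆ T'`, so in `T`: contradiction.  So `mult π j2 = 0`.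
  Therefore `2 ≤ ordL j2 = ∑_{π ∈ T} om π s * ordL π`.
-/

namespace GP80

open MvPolynomial

theorem Chd_C (z z' : Fin 4 → ℂ) {u : ℂ} (hu : u ≠ 0) : ordL z z' (C u) = 0 := by
  have h := ordL_prod z z' ∅ (fun π hπ => absurd hπ (Finset.notMem_empty π)) (fun _ => 0) hu
  rwa [Finset.prod_empty, mul_one, Finset.sum_empty] at h

theorem Chd_zero {z z' : Fin 4 → ℂ} {t : RR} (ht : t ∉ pL z z') : ordL z z' t = 0 := by
  by_contra h
  exact ht ((pL_iff z z' t).2 (Or.inr (by omega)))

theorem Chd_sq {z z' : Fin 4 → ℂ} {r : RR} (hr : r ≠ 0)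
    (h : algebraMap RR (AL z z') r ∈ IsLocalRing.maximalIdeal (AL z z') ^ 2) :
    2 ≤ ordL z z' r := by
  obtain ⟨t, h1, h2⟩ := AL_mem_sq z z' r h
  have ht : t ≠ 0 := by
    rintro rfl
    exact h1 (zero_mem _)
  have h3 := ordL_sq z z' h2 (mul_ne_zero ht hr)
  rwa [ordL_mul z z' ht hr, Chd_zero h1, zero_add] at h3

theorem Chd_eval {A B : Type} [CommRing A] [CommRing B] (φ : A →+* B) (v : Fin 3 → A)
    (p : MvPolynomial (Fin 3) A) : eval (fun j => φ (v j)) (map φ p) = φ (eval v p) := by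
  rw [eval_map, MvPolynomial.eval₂_comp]
  rfl

theorem Chd_chart {A B : Type} [CommRing A] [CommRing B] [Algebra RR A] [Algebra RR B]
    (φ : A →+* B) (hφ : ∀ r, φ (algebraMap RR A r) = algebraMap RR B r) (H : BB) :
    map φ (chartH A 0 H) = chartH B 0 H := by
  rw [chart_map A, chart_map B, MvPolynomial.map_map]
  congr 1
  congr 1
  exact RingHom.ext hφ

theorem Chd_vz {A B : Type} [CommRing A] [CommRing B] [Algebra RR A] [Algebra RR B]
    (φ : A →+* B) (hφ : ∀ r, φ (algebraMap RR A r) = algebraMap RR B r)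
    (hu : IsUnit (algebraMap RR A (X 0))) (z : Fin 4 → ℂ) :
    (fun j => φ (vz A 0 z j)) = vz B 0 z := by
  funext j
  unfold vz
  rw [map_sub, map_mul, hφ, hφ]
  congr 2
  have hB : algebraMap RR B (X 0) = φ (algebraMap RR A (X 0)) := (hφ _).symm
  rw [hB]
  obtain ⟨u, hu⟩ := hu
  rw [← hu, Ring.inverse_unit]
  have h1 : φ (u : A) = ((Units.map (φ : A →* B) u : Bˣ) : B) := rfl
  rw [h1, Ring.inverse_unit]
  rfl

theorem Chd_J3 {A B : Type} [CommRing A] [CommRing B] (φ : A →+* B) {v : Fin 3 → A}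
    {F G : MvPolynomial (Fin 3) A} {J : A} (h : IsJ3 F G v J) :
    IsJ3 (map φ F) (map φ G) (fun j => φ (v j)) (φ J) := by
  unfold IsJ3 at h ⊢
  have hg : ∀ P : MvPolynomial (Fin 3) A, grad (map φ P) (fun j => φ (v j)) =
      fun i => φ (grad P v i) := by
    intro P
    funext i
    unfold grad
    rw [pderiv_map, Chd_eval]
  rw [hg, hg]
  have h0 := fun i => congrFun h i
  simp only [cross_apply] at h0 ⊢
  funext i
  have h1 := h0 i
  fin_cases i <;>
    simp only [Matrix.cons_val_zero, Matrix.cons_val_one, Matrix.cons_val, Pi.smul_apply,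
      smul_eq_mul, Fin.zero_eta, Fin.mk_one, Fin.reduceFinMk, Fin.isValue] at h1 ⊢ <;>
    rw [← map_mul, ← map_mul, ← map_mul, ← map_sub, h1]

theorem Chd_const {R : Type} [CommRing R] {A : MvPolynomial (Fin 3) R} (h : A.IsHomogeneous 0) :
    A = C (coeff 0 A) := by
  have h1 := (MvPolynomial.totalDegree_zero_iff_isHomogeneous _).2 h
  rw [MvPolynomial.totalDegree_eq_zero_iff_eq_C] at h1
  exact h1

theorem Chd_unit {z z' : Fin 4 → ℂ} (hz : ∀ l, z l ≠ 0) (hz' : ∀ l, z' l ≠ 0)
    (hind : LinearIndependent ℂ ![z, z']) : ∃ l, IsUnit (vz (AL z z') 0 z l) := by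
  have hu : IsUnit (algebraMap RR (AL z z') (X 0)) := (AL_unit _ _ _).2 (X0_not_mem (hz 0))
  by_contra hcon
  push Not at hcon
  have h1 : ∀ j : Fin 3, z' 0 * z ((0 : Fin 4).succAbove j) = z 0 * z' ((0 : Fin 4).succAbove j) := by
    intro j
    by_contra hne
    apply hcon j
    have h2 := vz_scale (AL z z') 0 hu (hz 0) j
    have h3 : (X 0 * C (z ((0 : Fin 4).succAbove j)) - C (z 0) * X ((0 : Fin 4).succAbove j) : RR) ∉
        pL z z' := by
      intro h4
      have h5 : (eval₂Hom (C : ℂ →+* MvPolynomial (Fin 2) ℂ)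
          (fun i => X 0 * C (z i) + X 1 * C (z' i)) : RR →+* MvPolynomial (Fin 2) ℂ)
          (X 0 * C (z ((0 : Fin 4).succAbove j)) - C (z 0) * X ((0 : Fin 4).succAbove j)) = 0 := h4
      have h6 := congrArg (eval ![0, 1]) h5
      simp only [map_sub, map_mul, map_add, eval₂Hom_X', eval₂Hom_C, eval_X, eval_C,
        Matrix.cons_val_zero, Matrix.cons_val_one, Matrix.cons_val_fin_one, zero_mul, one_mul,
        zero_add, map_zero] at h6
      exact hne (sub_eq_zero.1 h6)
    have h4 : IsUnit (algebraMap RR (AL z z')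
        (X 0 * C (z ((0 : Fin 4).succAbove j)) - C (z 0) * X ((0 : Fin 4).succAbove j))) :=
      (AL_unit _ _ _).2 h3
    rw [h2] at h4
    exact isUnit_of_mul_isUnit_right h4
  have h2 : ∀ l : Fin 4, z' l = (z' 0 / z 0) * z l := by
    intro l
    rcases Fin.eq_zero_or_eq_succ l with rfl | ⟨j, rfl⟩
    · rw [div_mul_cancel₀ _ (hz 0)]
    · have h3 := h1 j
      rw [Fin.zero_succAbove] at h3
      rw [div_mul_eq_mul_div, eq_div_iff (hz 0)]
      linear_combination -h3
  have h3 := LinearIndependent.pair_iff.1 hind (z' 0 / z 0) (-1) (by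
    funext l
    simp only [Pi.add_apply, Pi.smul_apply, smul_eq_mul, Pi.zero_apply]
    rw [h2 l]
    ring)
  exact absurd h3.2 (by norm_num)

theorem Chd_deggen {A O I : Type} [CommRing A] [CommRing O] [IsDomain O] [Algebra RR A]
    [Algebra RR O] (M : Submonoid RR) [IsLocalization M O] (hM : M ≤ nonZeroDivisors RR)
    (huA : IsUnit (algebraMap RR A (X 0))) (huO : IsUnit (algebraMap RR O (X 0)))
    (φ : A →+* O) (hφ : ∀ r, φ (algebraMap RR A r) = algebraMap RR O r)
    (z : I → Fin 4 → ℂ) (hz : ∀ s, z s 0 ≠ 0) {c d : ℕ} {F G : MvPolynomial (Fin 3) A}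
    (h : DegGen (fun t => vz A 0 (z t)) c d F G) :
    DegGen (fun t => vz O 0 (z t)) c d (map φ F) (map φ G) := by
  intro H hH h0
  obtain ⟨u, hu, H1, h1, h2, h3, h4⟩ := lift_form M hM 0 huO z hz hH h0
  have hw : IsUnit (algebraMap RR O (u * X 0 ^ d)) := by
    rw [map_mul, map_pow]
    exact (IsLocalization.map_units O (⟨u, hu⟩ : M)).mul (huO.pow d)
  obtain ⟨U, a, hU, hUa⟩ := h (chartH A 0 H1) (chart_homog A 0 h1)
    (fun t => vz_eval_zero A 0 huA h1 h2 (hz t) (h3 t))
  obtain ⟨w, hw⟩ := hw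
  have h5 := congrArg (map φ) hUa
  rw [Chd_chart φ hφ, h4, ← hw, map_add, map_mul, map_mul, map_C] at h5
  refine ⟨C (w⁻¹ : Oˣ).1 * map φ U, (w⁻¹ : Oˣ).1 * φ a, (hU.map φ).C_mul _, ?_⟩
  have h6 : (C (w⁻¹ : Oˣ).1 : MvPolynomial (Fin 3) O) * C (w : O) = 1 := by
    rw [← C_mul, Units.inv_mul, C_1]
  calc H = (C (w⁻¹ : Oˣ).1 * C (w : O)) * H := by rw [h6, one_mul]
    _ = C (w⁻¹ : Oˣ).1 * (C (w : O) * H) := by ring
    _ = C (w⁻¹ : Oˣ).1 * (map φ U * map φ F + C (φ a) * map φ G) := by rw [h5]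
    _ = _ := by
      rw [C_mul]
      ring

/-- a transition between two pairs over a domain -/
theorem Chd_trans {O I : Type} [CommRing O] {c d : ℕ} (hcd : c ≤ d) (v : I → Fin 3 → O)
    {F G F2 G2 : MvPolynomial (Fin 3) O} (hF : F.IsHomogeneous c) (hG : G.IsHomogeneous d)
    (v1 : ∀ z, eval (v z) F = 0) (w1 : ∀ z, eval (v z) G = 0) (g : DegGen v c d F2 G2)
    (heq : c < d → F2 = F) : ∃ α, Trans c d F G F2 G2 α := by
  obtain ⟨U, a, hU, hUa⟩ := g G hG w1
  rcases hcd.lt_or_eq with h | h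
  · exact ⟨a, Or.inl ⟨h, (heq h).symm, U, hU, by rw [hUa]; ring⟩⟩
  · subst h
    obtain ⟨U', a', hU', hUa'⟩ := g F hF v1
    rw [Nat.sub_self] at hU hU'
    rw [Chd_const hU] at hUa
    rw [Chd_const hU'] at hUa'
    exact ⟨_, Or.inr ⟨rfl, _, _, _, _, hUa', hUa, rfl⟩⟩

theorem Chd_j3 {I : Type} [Fintype I] (z : I → Fin 4 → ℂ) (hz : Geom z) {c d f f' : ℕ} {F G : BB}
    (h : Glob z c d f f' F G) (J : I → RR) (hJ : ∀ s, IsJac 0 F G (z s) (J s)) (s s' : I) :
    IsJ3 (chartH (AL (z s) (z s')) 0 F) (chartH (AL (z s) (z s')) 0 G) (vz (AL (z s) (z s')) 0 (z s))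
      (algebraMap RR (AL (z s) (z s')) (J s * X 0 * C (z s 0 ^ 3 / z s 0 ^ (c + d)))) := by
  have hc2 := h.c2
  have hcd := h.cd
  exact j3_of_jac (AL (z s) (z s')) 0 ((AL_unit _ _ _).2 (X0_not_mem (hz.co s 0))) (by omega)
    (by omega) h.Fx h.Gx h.FE h.GE (hz.co s) (hJ s)

theorem Chd_fac {z z' : Fin 4 → ℂ} {T : Finset RR} (hT : PSet T) {g : RR} (hg : g ≠ 0)
    (hc : ∀ q, Prime q → q ∣ g → ∃ π ∈ T, Associated q π) :
    ordL z z' g = ∑ π ∈ T, multiplicity π g * ordL z z' π := by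
  obtain ⟨u, hu, h1⟩ := fac_prod hT hg hc
  have h2 := ordL_prod z z' T (fun π hπ => (hT.1 π hπ).ne_zero) (fun π => multiplicity π g) hu
  rw [← h1] at h2
  exact h2

/-- the multiplicity of `j2` at a prime of `T` -/
theorem Chd_mult {I : Type} [Fintype I] [DecidableEq I] (z : I → Fin 4 → ℂ) (hz : Geom z)
    {c d : ℕ} {F : BB} {om : I → ℕ} {π : RR} (hπ : Prime π) (hX : ¬ π ∣ X 0)
    (huq : JUniq z c d F π om) {s s' : I} (hm : π ∈ pL (z s) (z s'))
    {F2 G2 : MvPolynomial (Fin 3) (AL (z s) (z s'))} (hF2 : F2.IsHomogeneous c)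
    (hG2 : G2.IsHomogeneous d) (vF : ∀ t, eval (vz (AL (z s) (z s')) 0 (z t)) F2 = 0)
    (vG : ∀ t, eval (vz (AL (z s) (z s')) 0 (z t)) G2 = 0)
    (hgen : DegGen (fun t => vz (AL (z s) (z s')) 0 (z t)) c d F2 G2)
    (heq : c < d → F2 = chartH (AL (z s) (z s')) 0 F) {J2 : AL (z s) (z s')}
    (hJ2 : IsJ3 F2 G2 (vz (AL (z s) (z s')) 0 (z s)) J2) {j2 t2 : RR} (hj2 : j2 ≠ 0)
    (ht2 : t2 ∉ pL (z s) (z s'))
    (he : J2 * algebraMap RR (AL (z s) (z s')) t2 = algebraMap RR (AL (z s) (z s')) j2) :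
    multiplicity π j2 = om s := by
  have hp : (Ideal.span {π} : Ideal RR).IsPrime := (Ideal.span_singleton_prime hπ.ne_zero).2 hπ
  have hdom : IsDomain (OO π) := OO_domain π
  have huA : IsUnit (algebraMap RR (AL (z s) (z s')) (X 0)) :=
    (AL_unit _ _ _).2 (X0_not_mem (hz.co s 0))
  have huO : IsUnit (algebraMap RR (OO π) (X 0)) := (OO_unit _).2 hX
  obtain ⟨φ, hφ⟩ := AL_to_OO (z s) (z s') hm
  have hv : ∀ t, (fun j => φ (vz (AL (z s) (z s')) 0 (z t) j)) = vz (OO π) 0 (z t) :=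
    fun t => Chd_vz φ hφ huA (z t)
  have h1 := huq (map φ F2) (map φ G2) (hF2.map φ) (hG2.map φ)
    (fun t => by rw [← hv t, Chd_eval, vF t, map_zero])
    (fun t => by rw [← hv t, Chd_eval, vG t, map_zero])
    (Chd_deggen (O := OO π) (Ideal.primeCompl (Ideal.span {π} : Ideal RR))
      (Ideal.primeCompl_le_nonZeroDivisors _) huA huO φ hφ z (fun t => hz.co t 0) hgen)
    (fun hlt => by rw [heq hlt, Chd_chart φ hφ]) s (φ J2)
    (by
      rw [← hv s]
      exact Chd_J3 φ hJ2)
  rw [← h1, ← OO_mult hπ hj2]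
  refine (multiplicity_eq_of_associated_right ?_).symm
  have ht : IsUnit (algebraMap RR (OO π) t2) := by
    refine (OO_unit _).2 fun hd => ht2 ?_
    exact Ideal.mem_of_dvd _ hd hm
  obtain ⟨w, hw⟩ := ht
  refine ⟨w, ?_⟩
  rw [hw, ← hφ t2, ← map_mul, he, hφ]

theorem chord_loss {I : Type} [Fintype I] (z : I → Fin 4 → ℂ) (hz : Geom z) {c d f f' : ℕ} {F G : BB}
    (h : Glob z c d f f' F G) (J : I → RR) (hJ : ∀ s, IsJac 0 F G (z s) (J s)) (hJ0 : ∀ s, J s ≠ 0)
    (T : Finset RR) (hT : PSet T) (hcov : ∀ s q, Prime q → q ∣ J s → ∃ π ∈ T, Associated q π)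
    {s s' : I} (hss : s ≠ s') :
    2 ≤ ∑ π ∈ T, multiplicity π (J s) * ordL (z s) (z s') π := by
  have h1 := Chd_j3 z hz h J hJ s s'
  have hu : IsUnit (algebraMap RR (AL (z s) (z s')) (X 0)) :=
    (AL_unit _ _ _).2 (X0_not_mem (hz.co s 0))
  have h2 := jac_sq (hz.co s) (hz.co s') (hz.ind s s' hss) (chart_homog _ 0 h.Fx)
    (chart_homog _ 0 h.Gx)
    (vz_eval_zero _ 0 hu h.Fx h.FE (hz.co s 0) (h.Fz s))
    (vz_eval_zero _ 0 hu h.Fx h.FE (hz.co s' 0) (h.Fz s'))
    (vz_eval_zero _ 0 hu h.Gx h.GE (hz.co s 0) (h.Gz s))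
    (vz_eval_zero _ 0 hu h.Gx h.GE (hz.co s' 0) (h.Gz s')) h1
  have hκ : z s 0 ^ 3 / z s 0 ^ (c + d) ≠ 0 :=
    div_ne_zero (pow_ne_zero _ (hz.co s 0)) (pow_ne_zero _ (hz.co s 0))
  have hX : (X 0 : RR) ≠ 0 := X_ne_zero 0
  have hCκ : (C (z s 0 ^ 3 / z s 0 ^ (c + d)) : RR) ≠ 0 := by
    rw [Ne, MvPolynomial.C_eq_zero]
    exact hκ
  have h3 := Chd_sq (mul_ne_zero (mul_ne_zero (hJ0 s) hX) hCκ) h2
  rw [ordL_mul _ _ (mul_ne_zero (hJ0 s) hX) hCκ, ordL_mul _ _ (hJ0 s) hX, Chd_C _ _ hκ,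
    Chd_zero (X0_not_mem (hz.co s 0)), add_zero, add_zero,
    Chd_fac hT (hJ0 s) (hcov s)] at h3
  exact h3

theorem chord {I : Type} [Fintype I] [DecidableEq I] (z : I → Fin 4 → ℂ) (hz : Geom z)
    {c d f f' : ℕ} {F G : BB} (h : Glob z c d f f' F G) (J : I → RR)
    (hJ : ∀ s, IsJac 0 F G (z s) (J s)) (om : RR → I → ℕ) (jj g n : RR → ℕ) (lam : RR → ℕ → ℕ)
    (ho : GlobOut z c d F G J om jj g n lam)
    (T : Finset RR) (hT : PSet T) (hTh : ∀ π ∈ T, ∃ δ, π.IsHomogeneous δ)
    (hcov : ∀ s q, Prime q → q ∣ J s → ∃ π ∈ T, Associated q π)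
    {s s' : I} (hss : s ≠ s')
    (hl : c < d → map (IsLocalRing.residue (AL (z s) (z s'))) (chartH (AL (z s) (z s')) 0 F) ≠ 0) :
    2 ≤ ∑ π ∈ T, om π s * ordL (z s) (z s') π := by
  obtain ⟨F2, G2, hF2, hG2, vF, vG, hgen, heq⟩ := good_pair z hz h hss hl
  have hdom : IsDomain (AL (z s) (z s')) := AL_domain _ _
  have hinj := AL_injective (z s) (z s')
  have hu : IsUnit (algebraMap RR (AL (z s) (z s')) (X 0)) :=
    (AL_unit _ _ _).2 (X0_not_mem (hz.co s 0))
  have hJ0 : J s ≠ 0 := (ho.po (X 0) MvPolynomial.X_prime ⟨1, isHomogeneous_X ℂ 0⟩).ne s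
  have hκ : z s 0 ^ 3 / z s 0 ^ (c + d) ≠ 0 :=
    div_ne_zero (pow_ne_zero _ (hz.co s 0)) (pow_ne_zero _ (hz.co s 0))
  have hX : (X 0 : RR) ≠ 0 := X_ne_zero 0
  have hCκ : (C (z s 0 ^ 3 / z s 0 ^ (c + d)) : RR) ≠ 0 := by
    rw [Ne, MvPolynomial.C_eq_zero]
    exact hκ
  have hne : J s * X 0 * C (z s 0 ^ 3 / z s 0 ^ (c + d)) ≠ 0 :=
    mul_ne_zero (mul_ne_zero hJ0 hX) hCκ
  have hun := Chd_unit (hz.co s) (hz.co s') (hz.ind s s' hss)
  have hv0 : vz (AL (z s) (z s')) 0 (z s) ≠ 0 := by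
    obtain ⟨l, hl⟩ := hun
    intro h0
    rw [h0] at hl
    exact not_isUnit_zero hl
  obtain ⟨J2, hJ2⟩ := exists_J3 hF2 hG2 hun (vF s) (vG s)
  have hJ2m := jac_sq (hz.co s) (hz.co s') (hz.ind s s' hss) hF2 hG2 (vF s) (vF s') (vG s)
    (vG s') hJ2
  obtain ⟨α, hα⟩ := Chd_trans h.cd (fun t => vz (AL (z s) (z s')) 0 (z t))
    (chart_homog _ 0 h.Fx) (chart_homog _ 0 h.Gx)
    (fun t => vz_eval_zero _ 0 hu h.Fx h.FE (hz.co t 0) (h.Fz t))
    (fun t => vz_eval_zero _ 0 hu h.Gx h.GE (hz.co t 0) (h.Gz t)) hgen heq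
  have hJeq := unique_J3 hv0 (Chd_j3 z hz h J hJ s s') (trans_J hα (vF s) (vG s) hJ2)
  obtain ⟨⟨j2, t2⟩, h2⟩ := IsLocalization.surj (pL (z s) (z s')).primeCompl J2
  obtain ⟨⟨a0, t0⟩, h3⟩ := IsLocalization.surj (pL (z s) (z s')).primeCompl α
  simp only at h2 h3
  have ht2 : (t2 : RR) ∉ pL (z s) (z s') := t2.2
  have ht0 : (t0 : RR) ∉ pL (z s) (z s') := t0.2
  have hss2 : ((t0 : RR) * (t2 : RR)) * (J s * X 0 * C (z s 0 ^ 3 / z s 0 ^ (c + d))) = a0 * j2 := by
    apply hinj
    rw [map_mul, map_mul, hJeq, map_mul, ← h2, ← h3]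
    ring
  have ht20 : (t2 : RR) ≠ 0 := by
    intro h0
    rw [h0] at ht2
    exact ht2 (zero_mem _)
  have ht00 : (t0 : RR) ≠ 0 := by
    intro h0
    rw [h0] at ht0
    exact ht0 (zero_mem _)
  have hj2 : j2 ≠ 0 := by
    rintro rfl
    rw [mul_zero] at hss2
    exact mul_ne_zero (mul_ne_zero ht00 ht20) hne hss2
  have hord : 2 ≤ ordL (z s) (z s') j2 := by
    refine Chd_sq hj2 ?_
    rw [← h2]
    exact Ideal.mul_mem_right _ _ hJ2m
  obtain ⟨T', hTT, hT', hT'd, hT'c⟩ := exists_primes T hT hj2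
  rw [Chd_fac hT' hj2 hT'c] at hord
  have key : ∀ π ∈ T', 1 ≤ ordL (z s) (z s') π → π ∈ T ∧ multiplicity π j2 = om π s := by
    intro π hπ ho1
    have hpr := hT'.1 π hπ
    have hm : π ∈ pL (z s) (z s') := (pL_iff _ _ _).2 (Or.inr ho1)
    have hX0 : ¬ π ∣ X 0 := fun hd => X0_not_mem (hz.co s 0) (Ideal.mem_of_dvd _ hd hm)
    have hT0 : π ∈ T := by
      by_contra hcon
      have hd : π ∣ a0 * j2 := (hT'd π hπ hcon).mul_left a0
      rw [← hss2] at hd
      rcases hpr.dvd_or_dvd hd with hd | hd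
      · rcases hpr.dvd_or_dvd hd with hd | hd
        · exact ht0 (Ideal.mem_of_dvd _ hd hm)
        · exact ht2 (Ideal.mem_of_dvd _ hd hm)
      · rcases hpr.dvd_or_dvd hd with hd | hd
        · rcases hpr.dvd_or_dvd hd with hd | hd
          · obtain ⟨π1, h4, h5⟩ := hcov s π hpr hd
            have h6 := hT'.2 π hπ π1 (hTT h4) h5
            rw [h6] at hcon
            exact hcon h4
          · exact hX0 hd
        · exact hpr.not_isUnit (isUnit_of_dvd_unit hd ((IsUnit.mk0 _ hκ).map C))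
    refine ⟨hT0, ?_⟩
    exact Chd_mult z hz hpr hX0 (ho.uq π hpr (hTh π hT0) hX0) hm hF2 hG2 vF vG hgen heq hJ2 hj2
      ht2 h2
  refine hord.trans (le_of_eq ?_)
  have h4 : ∑ π ∈ T, om π s * ordL (z s) (z s') π =
      ∑ π ∈ T, multiplicity π j2 * ordL (z s) (z s') π := by
    refine Finset.sum_congr rfl fun π hπ => ?_
    rcases Nat.eq_zero_or_pos (ordL (z s) (z s') π) with h0 | h0
    · rw [h0, mul_zero, mul_zero]
    · rw [(key π (hTT hπ) h0).2]
  rw [h4]
  refine (Finset.sum_subset hTT fun π hπ hπT => ?_).symm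
  rcases Nat.eq_zero_or_pos (ordL (z s) (z s') π) with h0 | h0
  · rw [h0, mul_zero]
  · exact absurd (key π hπ h0).1 hπT

end GP80

end S_H80_GP_Chd
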