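import Mathlib
import Pool.Agent.H3.GP.Defs
import Pool.Agent.H80.M87.G02
import Pool.Agent.H80.M87.G04
import Pool.Agent.H80.M87.G05
import Pool.Agent.H80.M87.G07
import Pool.Agent.H80.M87.G08
import Pool.Agent.H80.M87.G13
import Pool.Agent.H80.M87.G14
import Pool.Agent.H80.M87.G15

/-! MP_87ed0a_ag: this file joins several modules to save build time. -/

section S_H80_GP_Fln

/-!
# Row Fln (MP_87ed0a_GP): `F` is not identically zero on a chord  (about 220 lines)

`c < d`, `f = c`, no third point on the line `z s, z s'`.  Write `z = z s`, `z' = z s'`.  Suppose the reduction of `chartH (AL z z') 0 F` is zero.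
1. All coefficients `a ∈ RR` of `chartH RR 0 F` are in `pL z z'` (`chart_map`, `AL_mem_max`), i.e. `a(σ z + τ z') = 0` for all `σ, τ ∈ ℂ`.  So `F(p, (0, y')) = 0` for `p = σ z + τ z'`, all `y' ∈ ℂ^3`, and by `hlift_chart`
   (`p_0^c F(p, y) = (chart F)(p_0 y' - y_0 p')`) `F(p, y) = 0` for all `y ∈ ℂ^4` when `p_0 ≠ 0`, hence (density, or polynomial identity in `σ, τ`: `(σ z_0 + τ z'_0)^c F(σ z + τ z', y) = 0` and `ℂ[σ, τ]` is a domain) for all `σ, τ`.
2. `antisym` (`f = c`): `F(y, σ z + τ z') = 0` for all `y ∈ ℂ^4`; so the polynomial `F(P, σ z + τ z') ∈ ℂ[P, σ, τ]` is `0` (`funext`).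
3. `K = FractionRing RR`, `v_t = vz K 0 (z t)`, `v = v_s`, `v' = v_s'`, `F0 = chartH K 0 F`, `G0`.  For `α, β ∈ K`: `F0(α v + β v') = F(P, (0, α v + β v')) = F(P, (α/z_0) z + (β/z'_0) z') = 0`
   (`(0, v) = z/z_0 - P/P_0`; `einv` removes the multiple of `P`; then specialise the identity 2. to `σ = α/z_0`, `τ = β/z'_0`).
   `h := v × v' ≠ 0` (`indep_K`), `λ = ∑ h_i X_i`; the vectors `w_k = v + k v'`, `k = 0..c`, are pairwise independent, on `λ = 0`, zeros of `F0`: `line_dvd` (Kos) gives `F0 = λ F1`, `F1` homogeneous of degree `c - 1`, `F1 ≠ 0`.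
4. For `t ≠ s, s'`: `λ(v_t) ≠ 0` since `v_t, v, v'` are linearly independent over `K` (their determinant times `P_0 z_0 z'_0 z''_0` is `± det(P, z, z', z t)`, a nonzero linear form in `P` because `z, z', z t` are independent).  So `F1(v_t) = 0`.
5. Choose linear forms `u, u'` over `K` with `u(v) = 0`, `u'(v') = 0`, not proportional to `λ` (e.g. `u = (v × y) · X` with `y` not in the span of `v, v'`).  `g := F1 u u'` is homogeneous of degree `c + 1` and vanishes at all `v_t`; `gen_K`: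
   `g = A F0 + B G0` with `A` homogeneous of degree 1, `B` of degree `c + 1 - d` (`0` if `c + 1 < d`).
   If `B = 0`: `u u' = A λ`; `λ` is prime (linear), so `λ ∣ u` or `λ ∣ u'`: proportional, contradiction.
   If `B ≠ 0`: `d = c + 1`, `B` a nonzero constant, `F1 (u u' - A λ) = B G0`, so `F1 ∣ G0` and `F1 ∣ F0`: `F1` is a unit by `cop_K`, but it has degree `c - 1 ≥ 1`: contradiction.
-/

namespace GP80

open MvPolynomial

section Fln_sec

attribute [local instance] MvPolynomial.gradedAlgebra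

theorem Fln_hom_right {k : Type} [Field k] {L F1 F0 : MvPolynomial (Fin 3) k} {c : ℕ}
    (hL : L.IsHomogeneous 1) (hL0 : L ≠ 0) (hF : F0.IsHomogeneous c) (hc : 1 ≤ c)
    (h : F0 = L * F1) : F1.IsHomogeneous (c - 1) := by

  have h1 : (↑((DirectSum.decompose (homogeneousSubmodule (Fin 3) k) F0) c) :
      MvPolynomial (Fin 3) k) = F0 :=
    DirectSum.decompose_of_mem_same _ ((mem_homogeneousSubmodule c F0).2 hF)
  have h2 : (↑((DirectSum.decompose (homogeneousSubmodule (Fin 3) k) (L * F1)) c) :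
      MvPolynomial (Fin 3) k) =
      L * ↑((DirectSum.decompose (homogeneousSubmodule (Fin 3) k) F1) (c - 1)) :=
    DirectSum.coe_decompose_mul_of_left_mem_of_le _ ((mem_homogeneousSubmodule 1 L).2 hL) hc
  rw [← h, h1] at h2
  have h3 : L * F1 = L * ↑((DirectSum.decompose (homogeneousSubmodule (Fin 3) k) F1) (c - 1)) := by
    rw [← h]
    exact h2
  have h4 := mul_left_cancel₀ hL0 h3
  rw [h4, ← mem_homogeneousSubmodule]
  exact SetLike.coe_mem _

theorem Fln_core {k I : Type} [Field k] [CharZero k] (w : I → Fin 3 → k) (s s' : I)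
    (hvv : LinearIndependent k ![w s, w s']) {c d : ℕ} {F0 G0 : MvPolynomial (Fin 3) k}
    (hF : F0.IsHomogeneous c) (hG : G0.IsHomogeneous d) (hc : 2 ≤ c) (hd : 3 ≤ d)
    (hline : ∀ α β : k, eval (α • w s + β • w s') F0 = 0)
    (hF0 : ∀ t, eval (w t) F0 = 0) (hcop : IsRelPrime F0 G0)
    (gen : ∀ t g, MvPolynomial.IsHomogeneous g t → (∀ i, eval (w i) g = 0) →
      g ∈ Ideal.span {F0, G0})
    (hne : ∀ t, t ≠ s → t ≠ s' → ∑ i, (crossProduct (w s)) (w s') i * w t i ≠ 0) : False := by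
  obtain ⟨v, hv⟩ : ∃ v, v = w s := ⟨_, rfl⟩
  obtain ⟨v', hv'⟩ : ∃ v', v' = w s' := ⟨_, rfl⟩
  rw [← hv, ← hv'] at hvv hline hne
  obtain ⟨h, hh⟩ : ∃ h, h = (crossProduct v) v' := ⟨_, rfl⟩
  rw [← hh] at hne
  have hh0 : h ≠ 0 := by
    rw [hh]
    exact crossProduct_ne_zero_iff_linearIndependent.2 hvv
  have e0 : h 0 = v 1 * v' 2 - v 2 * v' 1 := by rw [hh, cross_apply]; rfl
  have e1 : h 1 = v 2 * v' 0 - v 0 * v' 2 := by rw [hh, cross_apply]; rfl
  have e2 : h 2 = v 0 * v' 1 - v 1 * v' 0 := by rw [hh, cross_apply]; rfl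
  have hhv : ∑ i, h i * v i = 0 := by
    rw [Fin.sum_univ_three, e0, e1, e2]; ring
  have hhv' : ∑ i, h i * v' i = 0 := by
    rw [Fin.sum_univ_three, e0, e1, e2]; ring
  -- the line divides
  have hdvd : Kos_L h ∣ F0 := by
    refine line_dvd (fun n : ℕ => v + (n : k) • v') (Finset.range (c + 1)) ?_ hF h hh0 ?_ ?_ ?_
    · intro a _ b _ hab
      rw [LinearIndependent.pair_iff] at hvv ⊢
      intro x y hxy
      have h1 : (x + y) • v + (x * a + y * b) • v' = 0 := by
        rw [← hxy]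
        module
      obtain ⟨h2, h3⟩ := hvv _ _ h1
      have h4 : x * ((a : k) - b) = 0 := by linear_combination h3 - (b : k) * h2
      have h5 : (a : k) - b ≠ 0 := sub_ne_zero.2 (by exact_mod_cast hab)
      have h6 : x = 0 := (mul_eq_zero.1 h4).resolve_right h5
      refine ⟨h6, ?_⟩
      rw [h6, zero_add] at h2
      exact h2
    · intro a _
      have h1 : ∑ i, h i * (v + (a : k) • v') i = ∑ i, h i * v i + (a : k) * ∑ i, h i * v' i := by
        rw [Finset.mul_sum, ← Finset.sum_add_distrib]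
        refine Finset.sum_congr rfl fun i _ => ?_
        rw [Pi.add_apply, Pi.smul_apply, smul_eq_mul]
        ring
      rw [h1, hhv, hhv', mul_zero, add_zero]
    · intro a _
      have h1 := hline 1 a
      rw [one_smul] at h1
      exact h1
    · rw [Finset.card_range]
      exact Nat.lt_succ_self c
  obtain ⟨F1, hF1⟩ := hdvd
  have hL0 : Kos_L h ≠ 0 := Kos_L_ne hh0
  have hF1h := Fln_hom_right (Kos_L_hom h) hL0 hF (by omega) hF1
  -- the linear forms
  obtain ⟨i0, hi0⟩ : ∃ i, h i ≠ 0 := by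
    by_contra hcon
    push Not at hcon
    exact hh0 (funext hcon)
  obtain ⟨y, hy⟩ : ∃ y : Fin 3 → k, y = Pi.single i0 1 := ⟨_, rfl⟩
  have hhy : ∑ i, h i * y i ≠ 0 := by
    rw [hy]
    simpa [Pi.single_apply] using hi0
  obtain ⟨b, hb⟩ : ∃ b, b = (crossProduct v) y := ⟨_, rfl⟩
  obtain ⟨b', hb'⟩ : ∃ b', b' = (crossProduct v') y := ⟨_, rfl⟩
  have f0 : b 0 = v 1 * y 2 - v 2 * y 1 := by rw [hb, cross_apply]; rfl
  have f1 : b 1 = v 2 * y 0 - v 0 * y 2 := by rw [hb, cross_apply]; rfl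
  have f2 : b 2 = v 0 * y 1 - v 1 * y 0 := by rw [hb, cross_apply]; rfl
  have g0 : b' 0 = v' 1 * y 2 - v' 2 * y 1 := by rw [hb', cross_apply]; rfl
  have g1 : b' 1 = v' 2 * y 0 - v' 0 * y 2 := by rw [hb', cross_apply]; rfl
  have g2 : b' 2 = v' 0 * y 1 - v' 1 * y 0 := by rw [hb', cross_apply]; rfl
  have hbv : ∑ i, b i * v i = 0 := by
    rw [Fin.sum_univ_three, f0, f1, f2]; ring
  have hb'v' : ∑ i, b' i * v' i = 0 := by
    rw [Fin.sum_univ_three, g0, g1, g2]; ring
  have hx1 : ∑ i, b i * (v + v') i = - ∑ i, h i * y i := by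
    rw [Fin.sum_univ_three, Fin.sum_univ_three, f0, f1, f2, e0, e1, e2]
    simp only [Pi.add_apply]
    ring
  have hx2 : ∑ i, b' i * (v + v') i = ∑ i, h i * y i := by
    rw [Fin.sum_univ_three, Fin.sum_univ_three, g0, g1, g2, e0, e1, e2]
    simp only [Pi.add_apply]
    ring
  have hx3 : ∑ i, h i * (v + v') i = 0 := by
    rw [Fin.sum_univ_three, e0, e1, e2]
    simp only [Pi.add_apply]
    ring
  -- the form g
  have hguu : (Kos_L b * Kos_L b').IsHomogeneous 2 := (Kos_L_hom b).mul (Kos_L_hom b')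
  have hgh : (F1 * (Kos_L b * Kos_L b')).IsHomogeneous (c - 1 + 2) := hF1h.mul hguu
  have hg0 : ∀ t, eval (w t) (F1 * (Kos_L b * Kos_L b')) = 0 := by
    intro t
    rw [map_mul, map_mul, Kos_L_eval, Kos_L_eval]
    by_cases hts : t = s
    · rw [hts, ← hv, hbv, zero_mul, mul_zero]
    · by_cases hts' : t = s'
      · rw [hts', ← hv', hb'v', mul_zero, mul_zero]
      · have h1 := hF0 t
        rw [hF1, map_mul, Kos_L_eval] at h1
        rw [(mul_eq_zero.1 h1).resolve_left (hne t hts hts'), zero_mul]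
  obtain ⟨A, B, hAB⟩ := Ideal.mem_span_pair.1 (gen _ _ hgh hg0)
  have hF1F0 : F1 ∣ F0 := by
    rw [hF1]
    exact dvd_mul_left _ _
  have hG0u : ¬ IsUnit G0 := by
    intro hu
    obtain ⟨r, hr, hGr⟩ := isUnit_iff_eq_C_of_isReduced.1 hu
    have h1 : coeff 0 G0 ≠ 0 := by
      rw [hGr, coeff_C, if_pos rfl]
      exact hr.ne_zero
    have h2 := hG h1
    rw [map_zero] at h2
    omega
  have hF10 : F1 ≠ 0 := by
    rintro rfl
    rw [mul_zero] at hF1
    rw [hF1] at hcop
    exact hG0u (hcop (dvd_zero _) dvd_rfl)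
  have hrel : IsRelPrime F1 G0 := hcop.of_dvd_left hF1F0
  have hdB : F1 ∣ B := by
    refine hrel.dvd_of_dvd_mul_right (z := G0) ⟨Kos_L b * Kos_L b' - A * Kos_L h, ?_⟩
    rw [hF1] at hAB
    linear_combination hAB
  obtain ⟨B', hB'⟩ := hdB
  have hkey : Kos_L b * Kos_L b' - A * Kos_L h = B' * G0 := by
    apply mul_left_cancel₀ hF10
    rw [hF1, hB'] at hAB
    linear_combination -hAB
  have hkey2 : Kos_L b * Kos_L b' =
      ↑((DirectSum.decompose (homogeneousSubmodule (Fin 3) k) A) 1) * Kos_L h := by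

    have h1 : (↑((DirectSum.decompose (homogeneousSubmodule (Fin 3) k) (Kos_L b * Kos_L b')) 2) :
        MvPolynomial (Fin 3) k) = Kos_L b * Kos_L b' :=
      DirectSum.decompose_of_mem_same _ ((mem_homogeneousSubmodule 2 _).2 hguu)
    have h2 : (↑((DirectSum.decompose (homogeneousSubmodule (Fin 3) k) (A * Kos_L h)) 2) :
        MvPolynomial (Fin 3) k) =
        ↑((DirectSum.decompose (homogeneousSubmodule (Fin 3) k) A) (2 - 1)) * Kos_L h :=
      DirectSum.coe_decompose_mul_of_right_mem_of_le _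
        ((mem_homogeneousSubmodule 1 _).2 (Kos_L_hom h)) (by norm_num)
    have h3 : (↑((DirectSum.decompose (homogeneousSubmodule (Fin 3) k) (B' * G0)) 2) :
        MvPolynomial (Fin 3) k) = 0 :=
      DirectSum.coe_decompose_mul_of_right_mem_of_not_le _
        ((mem_homogeneousSubmodule d _).2 hG) (by omega)
    have h4 : Kos_L b * Kos_L b' = A * Kos_L h + B' * G0 := by
      rw [← hkey]
      ring
    rw [h4, DirectSum.decompose_add, DirectSum.add_apply, Submodule.coe_add, h2, h3, add_zero,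
      ← h4] at h1
    exact h1.symm
  have hfin := congrArg (eval (v + v')) hkey2
  rw [map_mul, map_mul, Kos_L_eval, Kos_L_eval, Kos_L_eval, hx1, hx2, hx3, mul_zero] at hfin
  rcases mul_eq_zero.1 hfin with h1 | h1
  · exact hhy (neg_eq_zero.1 h1)
  · exact hhy h1

end Fln_sec

theorem Fln_coef (z z' : Fin 4 → ℂ) {Q : Type} [CommRing Q] [Algebra ℂ Q] (σ τ : Q) {r : RR}
    (hr : r ∈ pL z z') :
    aeval (fun i => σ * algebraMap ℂ Q (z i) + τ * algebraMap ℂ Q (z' i)) r = 0 := by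
  have h1 : (eval₂Hom (C : ℂ →+* MvPolynomial (Fin 2) ℂ)
      (fun i => X 0 * C (z i) + X 1 * C (z' i)) : RR →+* MvPolynomial (Fin 2) ℂ) r = 0 :=
    RingHom.mem_ker.1 hr
  have h2 : ∀ r : RR, aeval (fun i => σ * algebraMap ℂ Q (z i) + τ * algebraMap ℂ Q (z' i)) r =
      aeval ![σ, τ] ((eval₂Hom (C : ℂ →+* MvPolynomial (Fin 2) ℂ)
      (fun i => X 0 * C (z i) + X 1 * C (z' i)) : RR →+* MvPolynomial (Fin 2) ℂ) r) := by
    intro r
    induction r using MvPolynomial.induction_on with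
    | C a => simp
    | add p q hp hq => rw [map_add, map_add, map_add, hp, hq]
    | mul_X p i hp =>
      rw [map_mul, map_mul, map_mul, hp]
      congr 1
      simp
  rw [h2, h1, map_zero]

theorem Fln_hlift (z z' : Fin 4 → ℂ) {Q : Type} [CommRing Q] [Algebra ℂ Q] (σ τ : Q)
    (y : Fin 4 → Q) {f : MvPolynomial (Fin 3) RR} (hf : ∀ e, coeff e f ∈ pL z z') :
    aeval (Sum.elim (fun i => σ * algebraMap ℂ Q (z i) + τ * algebraMap ℂ Q (z' i)) y)
      (hlift 0 f) = 0 := by
  have h1 : hlift 0 f = ∑ e ∈ f.support, inP (coeff e f) *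
      ∏ j ∈ e.support, (X (Sum.inl 0) * X (Sum.inr (Fin.succAbove (0 : Fin 4) j)) -
        X (Sum.inr 0) * X (Sum.inl (Fin.succAbove (0 : Fin 4) j)) : BB) ^ e j := by
    unfold hlift
    rw [coe_eval₂Hom, eval₂_eq]
  rw [h1, map_sum]
  refine Finset.sum_eq_zero fun e _ => ?_
  rw [map_mul]
  have h2 : aeval (Sum.elim (fun i => σ * algebraMap ℂ Q (z i) + τ * algebraMap ℂ Q (z' i)) y)
      (inP (coeff e f)) = 0 := by
    have h3 : (inP (coeff e f) : BB) = rename Sum.inl (coeff e f) := rfl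
    rw [h3, aeval_rename]
    exact Fln_coef z z' σ τ (hf e)
  rw [h2, zero_mul]

theorem Fln_id (z z' : Fin 4 → ℂ) (hz : z 0 ≠ 0) {F : BB} {c : ℕ}
    (hx : IsWeightedHomogeneous wx F c) (hE : EE F = 0)
    (hf : ∀ e, coeff e (chartH RR 0 F) ∈ pL z z') {S : Type} [CommRing S] [Algebra ℂ S] (σ τ : S)
    (y : Fin 4 → S) :
    aeval (Sum.elim (fun i => σ * algebraMap ℂ S (z i) + τ * algebraMap ℂ S (z' i)) y) F = 0 := by
  obtain ⟨S0, hS0⟩ : ∃ a : MvPolynomial (Fin 2 ⊕ Fin 4) ℂ, a = X (Sum.inl 0) := ⟨_, rfl⟩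
  obtain ⟨T0, hT⟩ : ∃ a : MvPolynomial (Fin 2 ⊕ Fin 4) ℂ, a = X (Sum.inl 1) := ⟨_, rfl⟩
  have h1 : aeval (Sum.elim (fun i => S0 * algebraMap ℂ (MvPolynomial (Fin 2 ⊕ Fin 4) ℂ) (z i) +
      T0 * algebraMap ℂ (MvPolynomial (Fin 2 ⊕ Fin 4) ℂ) (z' i))
      (fun i => (X (Sum.inr i) : MvPolynomial (Fin 2 ⊕ Fin 4) ℂ))) F = 0 := by
    have h2 := Fln_hlift z z' S0 T0 (fun i => (X (Sum.inr i) : MvPolynomial (Fin 2 ⊕ Fin 4) ℂ)) hf
    rw [hlift_chart 0 hx hE, map_mul] at h2
    refine (mul_eq_zero.1 h2).resolve_left ?_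
    have h3 : (inP (X 0 ^ c) : BB) = X (Sum.inl 0) ^ c := by
      have h4 : (inP (X 0 ^ c) : BB) = rename Sum.inl (X 0 ^ c) := rfl
      rw [h4, map_pow, rename_X]
    rw [h3, map_pow, aeval_X]
    apply pow_ne_zero
    intro h5
    have h6 := congrArg (eval (Sum.elim ![1, 0] (fun _ => (0 : ℂ)))) h5
    rw [hS0, hT] at h6
    simp at h6
    exact hz h6
  have h2 : ∀ H : BB, aeval (Sum.elim (fun i => σ * algebraMap ℂ S (z i) +
      τ * algebraMap ℂ S (z' i)) y) H = aeval (Sum.elim ![σ, τ] y)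
      (aeval (Sum.elim (fun i => S0 * algebraMap ℂ (MvPolynomial (Fin 2 ⊕ Fin 4) ℂ) (z i) +
      T0 * algebraMap ℂ (MvPolynomial (Fin 2 ⊕ Fin 4) ℂ) (z' i))
      (fun i => (X (Sum.inr i) : MvPolynomial (Fin 2 ⊕ Fin 4) ℂ))) H) := by
    intro H
    rw [hS0, hT]
    induction H using MvPolynomial.induction_on with
    | C a => simp
    | add p q hp hq => rw [map_add, map_add, map_add, hp, hq]
    | mul_X p i hp =>
      rw [map_mul, map_mul, map_mul, hp]
      congr 1
      rcases i with i | i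
      · simp
      · simp
  rw [h2, h1, map_zero]

theorem Fln_eval (x : Fin 3 → FractionRing RR) (H : BB) :
    eval x (chartH (FractionRing RR) 0 H) =
      aeval (Sum.elim (fun i => algebraMap RR (FractionRing RR) (X i))
        (Fin.insertNth (α := fun _ => FractionRing RR) 0 0 x)) H := by
  induction H using MvPolynomial.induction_on with
  | C a =>
    have h1 : chartH (FractionRing RR) 0 (C a) = C (algebraMap RR (FractionRing RR) (C a)) := by
      unfold chartH
      rw [coe_eval₂Hom, eval₂_C]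
      rfl
    rw [h1, eval_C, aeval_C]
    rfl
  | add p q hp hq => rw [map_add, map_add, map_add, hp, hq]
  | mul_X p i hp =>
    rw [map_mul, map_mul, map_mul, hp, aeval_X]
    congr 1
    rcases i with i | i
    · have h1 : chartH (FractionRing RR) 0 (X (Sum.inl i)) =
          C (algebraMap RR (FractionRing RR) (X i)) := by
        unfold chartH
        rw [coe_eval₂Hom, eval₂_X]
        rfl
      rw [h1, eval_C]
      rfl
    · have h1 : chartH (FractionRing RR) 0 (X (Sum.inr i)) =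
          Fin.insertNth (α := fun _ => MvPolynomial (Fin 3) (FractionRing RR)) 0 0
            (fun m => X m) i := by
        unfold chartH
        rw [coe_eval₂Hom, eval₂_X]
        rfl
      rw [h1, Sum.elim_inr]
      refine Fin.cases ?_ (fun m => ?_) i
      · rw [Fin.insertNth_apply_same, Fin.insertNth_apply_same, map_zero]
      · have h2 : m.succ = Fin.succAbove 0 m := (Fin.succAbove_zero_apply m).symm
        rw [h2, Fin.insertNth_apply_succAbove, Fin.insertNth_apply_succAbove, eval_X]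

theorem Fln_vz (z : Fin 4 → ℂ) (j : Fin 3) :
    vz (FractionRing RR) 0 z j = algebraMap ℂ (FractionRing RR) (z j.succ) /
      algebraMap ℂ (FractionRing RR) (z 0) - algebraMap RR (FractionRing RR) (X j.succ) /
      algebraMap RR (FractionRing RR) (X 0) := by
  unfold vz
  rw [Fin.succAbove_zero_apply, Ring.inverse_eq_inv', div_eq_mul_inv (algebraMap RR _ _)]
  congr 1
  rw [← map_div₀]
  rfl

theorem Fln_X0 : algebraMap RR (FractionRing RR) (X 0) ≠ 0 := by
  intro h
  have h1 : (X 0 : RR) = 0 := (_root_.map_eq_zero_iff _ (IsFractionRing.injective RR (FractionRing RR))).1 h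
  exact X_ne_zero 0 h1

theorem Fln_line (z z' : Fin 4 → ℂ) (hz : z 0 ≠ 0) (hz' : z' 0 ≠ 0) {F : BB} {c : ℕ}
    (hx : IsWeightedHomogeneous wx F c) (hP : IsWeightedHomogeneous wP F c) (hE : EE F = 0)
    (hf : ∀ e, coeff e (chartH RR 0 F) ∈ pL z z') (α β : FractionRing RR) :
    eval (α • vz (FractionRing RR) 0 z + β • vz (FractionRing RR) 0 z')
      (chartH (FractionRing RR) 0 F) = 0 := by
  have hX0 := Fln_X0
  have hz0 : algebraMap ℂ (FractionRing RR) (z 0) ≠ 0 := by
    intro h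
    exact hz ((map_eq_zero _).1 h)
  have hz0' : algebraMap ℂ (FractionRing RR) (z' 0) ≠ 0 := by
    intro h
    exact hz' ((map_eq_zero _).1 h)
  obtain ⟨P, hPd⟩ : ∃ P : Fin 4 → FractionRing RR,
    P = fun i => algebraMap RR (FractionRing RR) (X i) := ⟨_, rfl⟩
  obtain ⟨Y, hY⟩ : ∃ Y : Fin 4 → FractionRing RR, Y = fun i =>
    (α / algebraMap ℂ (FractionRing RR) (z 0)) * algebraMap ℂ (FractionRing RR) (z i) +
      (β / algebraMap ℂ (FractionRing RR) (z' 0)) * algebraMap ℂ (FractionRing RR) (z' i) :=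
    ⟨_, rfl⟩
  obtain ⟨μ, hμ⟩ : ∃ μ : FractionRing RR, μ = -(α + β) / P 0 := ⟨_, rfl⟩
  have hP0 : P 0 ≠ 0 := by
    rw [hPd]
    exact hX0
  rw [Fln_eval, ← hPd]
  have h1 : Fin.insertNth (α := fun _ => FractionRing RR) 0 0
      (α • vz (FractionRing RR) 0 z + β • vz (FractionRing RR) 0 z') =
      fun i => Y i + μ * P i := by
    funext i
    refine Fin.cases ?_ (fun m => ?_) i
    · rw [Fin.insertNth_apply_same, hμ, hY]
      have h2 : -(α + β) / P 0 * P 0 = -(α + β) := div_mul_cancel₀ _ hP0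
      rw [h2]
      have h3 : α / algebraMap ℂ (FractionRing RR) (z 0) * algebraMap ℂ (FractionRing RR) (z 0) = α :=
        div_mul_cancel₀ _ hz0
      have h4 : β / algebraMap ℂ (FractionRing RR) (z' 0) *
        algebraMap ℂ (FractionRing RR) (z' 0) = β := div_mul_cancel₀ _ hz0'
      show 0 = α / algebraMap ℂ (FractionRing RR) (z 0) * algebraMap ℂ (FractionRing RR) (z 0) +
        β / algebraMap ℂ (FractionRing RR) (z' 0) * algebraMap ℂ (FractionRing RR) (z' 0) +
        -(α + β)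
      rw [h3, h4]
      ring
    · have h2 : m.succ = Fin.succAbove 0 m := (Fin.succAbove_zero_apply m).symm
      have h3 : Fin.insertNth (α := fun _ => FractionRing RR) 0 0
        (α • vz (FractionRing RR) 0 z + β • vz (FractionRing RR) 0 z') m.succ =
        (α • vz (FractionRing RR) 0 z + β • vz (FractionRing RR) 0 z') m := by
        rw [h2, Fin.insertNth_apply_succAbove]
      rw [h3, Pi.add_apply, Pi.smul_apply, Pi.smul_apply, Fln_vz, Fln_vz, hμ, hY, smul_eq_mul,
        smul_eq_mul]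
      have h4 : algebraMap RR (FractionRing RR) (X m.succ) = P m.succ := by rw [hPd]
      have h5 : algebraMap RR (FractionRing RR) (X 0) = P 0 := by rw [hPd]
      rw [h4, h5]
      ring
  rw [h1, einv hE P Y μ, antisym hx hP hE P Y, hY, Fln_id z z' hz hx hE hf, mul_zero]

theorem Fln_rel (z z' z'' : Fin 4 → ℂ) (h0 : z 0 ≠ 0) (h0' : z' 0 ≠ 0) (h0'' : z'' 0 ≠ 0)
    (a b : FractionRing RR)
    (hab : vz (FractionRing RR) 0 z'' = a • vz (FractionRing RR) 0 z + b • vz (FractionRing RR) 0 z')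
    (ℓ : (Fin 4 → ℂ) →ₗ[ℂ] ℂ) :
    algebraMap ℂ (FractionRing RR) (ℓ z'') / algebraMap ℂ (FractionRing RR) (z'' 0) -
      a / algebraMap ℂ (FractionRing RR) (z 0) * algebraMap ℂ (FractionRing RR) (ℓ z) -
      b / algebraMap ℂ (FractionRing RR) (z' 0) * algebraMap ℂ (FractionRing RR) (ℓ z') =
    (1 - a - b) / algebraMap RR (FractionRing RR) (X 0) *
      algebraMap RR (FractionRing RR) (∑ i, C (ℓ (Pi.single i 1)) * X i) := by
  have hX0 := Fln_X0
  have hz0 : algebraMap ℂ (FractionRing RR) (z 0) ≠ 0 := fun h => h0 ((map_eq_zero _).1 h)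
  have hz0' : algebraMap ℂ (FractionRing RR) (z' 0) ≠ 0 := fun h => h0' ((map_eq_zero _).1 h)
  have hz0'' : algebraMap ℂ (FractionRing RR) (z'' 0) ≠ 0 := fun h => h0'' ((map_eq_zero _).1 h)
  have hrel : ∀ i : Fin 4, algebraMap ℂ (FractionRing RR) (z'' i) /
      algebraMap ℂ (FractionRing RR) (z'' 0) -
      a / algebraMap ℂ (FractionRing RR) (z 0) * algebraMap ℂ (FractionRing RR) (z i) -
      b / algebraMap ℂ (FractionRing RR) (z' 0) * algebraMap ℂ (FractionRing RR) (z' i) =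
      (1 - a - b) / algebraMap RR (FractionRing RR) (X 0) *
        algebraMap RR (FractionRing RR) (X i) := by
    intro i
    refine Fin.cases ?_ (fun m => ?_) i
    · rw [div_self hz0'', div_mul_cancel₀ _ hz0, div_mul_cancel₀ _ hz0', div_mul_cancel₀ _ hX0]
    · have h1 := congrFun hab m
      rw [Pi.add_apply, Pi.smul_apply, Pi.smul_apply, Fln_vz, Fln_vz, Fln_vz, smul_eq_mul,
        smul_eq_mul] at h1
      linear_combination h1
  have hsum : ∀ x : Fin 4 → ℂ, algebraMap ℂ (FractionRing RR) (ℓ x) =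
      ∑ i, algebraMap ℂ (FractionRing RR) (ℓ (Pi.single i 1)) *
        algebraMap ℂ (FractionRing RR) (x i) := by
    intro x
    have h1 : ℓ x = ∑ i, ℓ (Pi.single i 1) * x i := by
      conv_lhs => rw [pi_eq_sum_univ' x]
      rw [map_sum]
      refine Finset.sum_congr rfl fun i _ => ?_
      rw [map_smul, smul_eq_mul, mul_comm]
    rw [h1, map_sum]
    exact Finset.sum_congr rfl fun i _ => by rw [map_mul]
  have hC : ∀ t : ℂ, algebraMap RR (FractionRing RR) (C t) = algebraMap ℂ (FractionRing RR) t :=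
    fun t => rfl
  rw [hsum z, hsum z', hsum z'', map_sum, Finset.sum_div, Finset.mul_sum, Finset.mul_sum,
    Finset.mul_sum, ← Finset.sum_sub_distrib, ← Finset.sum_sub_distrib]
  refine Finset.sum_congr rfl fun i _ => ?_
  rw [map_mul, hC]
  linear_combination algebraMap ℂ (FractionRing RR) (ℓ (Pi.single i 1)) * hrel i

theorem Fln_indep (z z' z'' : Fin 4 → ℂ) (h0 : z 0 ≠ 0) (h0' : z' 0 ≠ 0) (h0'' : z'' 0 ≠ 0)
    (hli : LinearIndependent ℂ ![z, z', z'']) (a b : FractionRing RR) :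
    vz (FractionRing RR) 0 z'' ≠
      a • vz (FractionRing RR) 0 z + b • vz (FractionRing RR) 0 z' := by
  intro hab
  have hX0 := Fln_X0
  have hz0'' : algebraMap ℂ (FractionRing RR) (z'' 0) ≠ 0 := fun h => h0'' ((map_eq_zero _).1 h)
  -- a functional vanishing on all three
  have hlt : Submodule.span ℂ (Set.range ![z, z', z'']) < ⊤ := by
    rw [lt_top_iff_ne_top]
    intro htop
    have h1 := finrank_range_le_card (R := ℂ) ![z, z', z'']
    have h2 : Set.finrank ℂ (Set.range ![z, z', z'']) = 4 := by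
      unfold Set.finrank
      rw [htop, finrank_top, Module.finrank_fin_fun]
    rw [h2, Fintype.card_fin] at h1
    omega
  obtain ⟨ℓ', hℓ'0, hℓ'⟩ := Submodule.exists_le_ker_of_lt_top _ hlt
  have k1 : ∀ i : Fin 3, ℓ' (![z, z', z''] i) = 0 := fun i =>
    LinearMap.mem_ker.1 (hℓ' (Submodule.subset_span ⟨i, rfl⟩))
  have hr1 := Fln_rel z z' z'' h0 h0' h0'' a b hab ℓ'
  have k2 : ℓ' z = 0 := k1 0
  have k3 : ℓ' z' = 0 := k1 1
  have k4 : ℓ' z'' = 0 := k1 2
  rw [k2, k3, k4, map_zero, zero_div, mul_zero, mul_zero, sub_zero, sub_zero] at hr1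
  have hne : (∑ i, C (ℓ' (Pi.single i 1)) * X i : RR) ≠ 0 := by
    intro h1
    apply hℓ'0
    refine LinearMap.pi_ext' fun i => LinearMap.ext_ring ?_
    have h2 := congrArg (eval (Pi.single i 1)) h1
    rw [map_sum, map_zero] at h2
    simp only [map_mul, eval_C, eval_X] at h2
    rw [Finset.sum_eq_single i] at h2
    · rw [Pi.single_eq_same, mul_one] at h2
      exact h2
    · intro j _ hj
      rw [Pi.single_eq_of_ne hj, mul_zero]
    · intro h3
      exact absurd (Finset.mem_univ i) h3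
  have hne2 : algebraMap RR (FractionRing RR) (∑ i, C (ℓ' (Pi.single i 1)) * X i) ≠ 0 := by
    intro h1
    exact hne ((_root_.map_eq_zero_iff _ (IsFractionRing.injective RR (FractionRing RR))).1 h1)
  have hab1 : 1 - a - b = 0 := by
    rcases mul_eq_zero.1 hr1.symm with h1 | h1
    · exact (div_eq_zero_iff.1 h1).resolve_right hX0
    · exact absurd h1 hne2
  -- a functional vanishing on the first two only
  have hnot : z'' ∉ Submodule.span ℂ {z, z'} := by
    intro hmem
    obtain ⟨x, y, hxy⟩ := Submodule.mem_span_pair.1 hmem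
    rw [Fintype.linearIndependent_iff] at hli
    have h1 := hli ![x, y, -1] (by
      rw [Fin.sum_univ_three]
      show x • z + y • z' + (-1 : ℂ) • z'' = 0
      rw [hxy]
      module) 2
    have h2 : (-1 : ℂ) = 0 := h1
    norm_num at h2
  obtain ⟨ℓ, hℓ0, hℓ⟩ := Submodule.exists_le_ker_of_notMem hnot
  have hr2 := Fln_rel z z' z'' h0 h0' h0'' a b hab ℓ
  have m2 : ℓ z = 0 := LinearMap.mem_ker.1 (hℓ (Submodule.subset_span (by simp)))
  have m3 : ℓ z' = 0 := LinearMap.mem_ker.1 (hℓ (Submodule.subset_span (by simp)))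
  rw [m2, m3, map_zero, mul_zero, mul_zero, sub_zero, sub_zero, hab1, zero_div, zero_mul] at hr2
  rcases div_eq_zero_iff.1 hr2 with h1 | h1
  · exact hℓ0 ((map_eq_zero _).1 h1)
  · exact hz0'' h1

theorem F_line_ne {I : Type} [Fintype I] (z : I → Fin 4 → ℂ) (hz : Geom z) {c d f' : ℕ} {F G : BB}
    (h : Glob z c d c f' F G) (hcd : c < d) {s s' : I} (hss : s ≠ s')
    (hnt : ∀ t, t ≠ s → t ≠ s' → LinearIndependent ℂ ![z s, z s', z t]) :
    map (IsLocalRing.residue (AL (z s) (z s'))) (chartH (AL (z s) (z s')) 0 F) ≠ 0 := by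
  intro hcon
  have hf : ∀ e, coeff e (chartH RR 0 F) ∈ pL (z s) (z s') := by
    intro e
    rw [← AL_mem_max, ← IsLocalRing.residue_eq_zero_iff, ← coeff_map, ← chart_map, ← coeff_map,
      hcon, coeff_zero]
  have hli := indep_K 0 (hz.co s 0) (hz.co s' 0) (hz.ind s s' hss)
  have hcpos := h.c2
  refine Fln_core (fun t => vz (FractionRing RR) 0 (z t)) s s' hli
    (chart_homog (FractionRing RR) 0 h.Fx) (chart_homog (FractionRing RR) 0 h.Gx) hcpos (by omega)
    (fun α β => Fln_line (z s) (z s') (hz.co s 0) (hz.co s' 0) h.Fx h.FP h.FE hf α β)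
    (fun t => vz_eval_zero (FractionRing RR) 0 (isUnit_iff_ne_zero.2 Fln_X0) h.Fx h.FE
      (hz.co t 0) (h.Fz t))
    (cop_K 0 z (fun t => hz.co t 0) h)
    (fun t g hg hg0 => gen_K 0 z (fun t => hz.co t 0) h hg hg0) ?_
  intro t hts hts' hzero
  have hh0 : (crossProduct (vz (FractionRing RR) 0 (z s))) (vz (FractionRing RR) 0 (z s')) ≠ 0 :=
    crossProduct_ne_zero_iff_linearIndependent.2 hli
  obtain ⟨a, b, hab⟩ := Kos_dep _ (vz (FractionRing RR) 0 (z s)) (vz (FractionRing RR) 0 (z s'))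
    (vz (FractionRing RR) 0 (z t)) hh0
    (by rw [Fin.sum_univ_three, cross_apply]
        simp only [Matrix.cons_val_zero, Matrix.cons_val_one, Matrix.cons_val]
        ring)
    (by rw [Fin.sum_univ_three, cross_apply]
        simp only [Matrix.cons_val_zero, Matrix.cons_val_one, Matrix.cons_val]
        ring) hzero
    (fun x y hxy => LinearIndependent.pair_iff.1 hli x y hxy)
  exact Fln_indep (z s) (z s') (z t) (hz.co s 0) (hz.co s' 0) (hz.co t 0) (hnt t hts hts') a b hab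

end GP80

end S_H80_GP_Fln

section S_H80_GP_Sp5

/-!
# Row Sp5 (MP_87ed0a_GP): the global pair of a geproci set  (about 230 lines)

`y s := fun j => X 0 * C (x s (j+1)) - C (x s 0) * X (j+1) ∈ RR^3` (`succAbove 0 j = j+1`); `eval P (y s j) = yP P (x s) j`.
1. For `t ∈ {c, d}` the evaluation matrix `E_t (s, m) = ∏_j (y s j)^(m j) = m(y s)` has entries homogeneous of degree `t`; `lift_kernel` gives `Δ_t, r_t ≤ card I`.  Choose `P` with `(D Δ_c Δ_d)(P) ≠ 0` (`spec_at`, `MvPolynomial.funext`), get `F*, G*`; their coefficient vectors are in the kernels of `E_c(P)`, `E_d(P)`, so lift: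
   `F1, G1 ∈ RR[X]` forms of degrees `c, d` with coefficients homogeneous of degrees `r_c c`, `r_d d`, vanishing at all `y s`, `map (eval P) F1 = F*`, `map (eval P) G1 = G*`.
2. `F := hlift 0 F1`, `G := hlift 0 G1`: `x`-degrees `c, d`; `P`-degrees `f0 = r_c c + c ≤ (card I + 1) c`, `f' = r_d d + d ≤ (card I + 1) d`; `EE = 0`; `atz (x s) = eval (y s) = 0` (`atz_hlift`).
3. `gen`: let `H` be `E`-invariant, `x`-homogeneous of degree `t`, `atz (x s) H = 0`.  `H1 := chartH RR 0 H ∈ RR[X]`, form of degree `t`; `hlift_chart`: `hlift 0 H1 = inP (X 0 ^ t) * H`, so (`atz_hlift`) `eval (y s) H1 = 0`.  By `gen_of_spec` `map H1 = A map F1 + B map G1` over `K`; clear denominators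
   (`clear_den` with `M = nonZeroDivisors`): `C r * H1 = A1 F1 + B1 G1` in `RR[X]`, `r ≠ 0` (injectivity of `RR[X] → K[X]`).  Apply `hlift 0` (`hlift 0 (C r) = inP r`): `inP (r X_0^t) * H ∈ span {F, G}`.
4. `prim`: let `c < d`.  `F ≠ 0` (`F1 ≠ 0` since `F* ≠ 0`: if `F* = 0` all forms vanishing at the points would be multiples of `G*`, of degree `≥ d`; but the forms of degree `t` vanishing at `card I` points have dimension `≥ nn t - card I`, and `nn t - card I > nn (t - d)` for `t = card I`, `d ≥ 1`).  Among all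
   `Fm ∈ BB`, nonzero, `x`-homogeneous of degree `c`, `wP`-homogeneous of some degree `fm`, `EE Fm = 0`, with `inP r * Fm = inP r' * F` for some nonzero `r, r' ∈ RR`, choose one with `fm` minimal.  If `inP q ∣ Fm`, `q` prime: `Fm = inP q * F2`; `q` and `F2` are homogeneous: factors of the bihomogeneous `Fm`: `F2` is `x`-homogeneous of degree `c`
   (`inP q` has `x`-degree 0) and `wP`-homogeneous of degree `fm - deg q` (weighted version of `homog_of_mul`; `q` homogeneous of degree `δ ≥ 1` because it is a nonunit); `EE F2 = 0` (`EE` is a derivation, `EE (inP q) = 0`, `BB` a domain): contradicts minimality.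
   `atz (x s) Fm = 0` since `r * atz Fm = r' * atz F = 0`.  `gen` for `(Fm, G)`: `inP r' * F = inP r * Fm ∈ (Fm)`, so multiply the relation by `inP r'`.  `fm ≤ f0`.  Take `Fm` as the new `F`.
   For `c = d` nothing to do.
-/

open Pool.Agent.H3.GP

namespace GP80

open MvPolynomial

theorem Sp5_mem_iff {t : ℕ} {d : Fin 3 →₀ ℕ} :
    d ∈ Finset.finsuppAntidiag (Finset.univ : Finset (Fin 3)) t ↔ d.degree = t := by
  rw [Finset.mem_finsuppAntidiag]
  constructor
  · rintro ⟨h, -⟩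
    rw [← h, Finsupp.degree_eq_sum]
  · intro h
    refine ⟨?_, Finset.subset_univ _⟩
    rw [← h, Finsupp.degree_eq_sum]

theorem Sp5_coeff_sum {O : Type} [CommRing O] {t : ℕ} (c : Mon t → O) (d : Fin 3 →₀ ℕ) :
    coeff d (∑ m : Mon t, C (c m) * monomial m.1 (1 : O)) =
      if h : d ∈ Finset.finsuppAntidiag (Finset.univ : Finset (Fin 3)) t then c ⟨d, h⟩ else 0 := by
  classical
  rw [coeff_sum]
  simp only [coeff_C_mul, coeff_monomial]
  split_ifs with h
  · rw [Finset.sum_eq_single (⟨d, h⟩ : Mon t)]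
    · simp
    · intro b _ hb
      have : b.1 ≠ d := fun h' => hb (Subtype.ext h')
      rw [if_neg this, mul_zero]
    · intro h'
      exact absurd (Finset.mem_univ _) h'
  · refine Finset.sum_eq_zero fun b _ => ?_
    have : b.1 ≠ d := by
      intro h'
      apply h
      rw [← h']
      exact b.2
    rw [if_neg this, mul_zero]

theorem Sp5_hom_sum {O : Type} [CommRing O] {t : ℕ} (c : Mon t → O) :
    (∑ m : Mon t, C (c m) * monomial m.1 (1 : O)).IsHomogeneous t := by
  refine MvPolynomial.IsHomogeneous.sum _ _ _ fun m _ => ?_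
  exact (isHomogeneous_monomial (1 : O) (Sp5_mem_iff.1 m.2)).C_mul (c m)

theorem Sp5_key {O : Type} [CommRing O] {t : ℕ} (f : MvPolynomial (Fin 3) O)
    (hf : f.IsHomogeneous t) : ∑ m : Mon t, C (coeff m.1 f) * monomial m.1 (1 : O) = f := by
  ext d
  rw [Sp5_coeff_sum]
  split_ifs with hd
  · rfl
  · by_contra hne
    refine hd (Sp5_mem_iff.2 ?_)
    by_contra h
    exact hne (hf.coeff_eq_zero h).symm

/-- the projected points, as polynomials in the centre of projection -/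
noncomputable def Sp5_y (z : Fin 4 → ℂ) : Fin 3 → RR :=
  fun j => X 0 * C (z ((0 : Fin 4).succAbove j)) - C (z 0) * X ((0 : Fin 4).succAbove j)

theorem Sp5_y_hom (z : Fin 4 → ℂ) (j : Fin 3) : (Sp5_y z j).IsHomogeneous 1 := by
  unfold Sp5_y
  refine MvPolynomial.IsHomogeneous.sub ?_ ?_
  · rw [mul_comm]
    exact (isHomogeneous_X ℂ _).C_mul _
  · exact (isHomogeneous_X ℂ _).C_mul _

theorem Sp5_y_eval (z P : Fin 4 → ℂ) : (fun j => eval P (Sp5_y z j)) = yP P z := by
  funext j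
  unfold Sp5_y yP
  simp

theorem Sp5_lift {I : Type} [Fintype I] [DecidableEq I] (x : I → Fin 4 → ℂ) (t : ℕ) :
    ∃ (Δ : RR) (r : ℕ), Δ ≠ 0 ∧ r ≤ Fintype.card I ∧ ∀ P : Fin 4 → ℂ, eval P Δ ≠ 0 →
      ∀ f : MvPolynomial (Fin 3) ℂ, f.IsHomogeneous t → (∀ s, eval (yP P (x s)) f = 0) →
        ∃ F1 : MvPolynomial (Fin 3) RR, F1.IsHomogeneous t ∧
          (∀ e, (coeff e F1).IsHomogeneous (r * t)) ∧ (∀ s, eval (Sp5_y (x s)) F1 = 0) ∧
          map (eval P) F1 = f := by
  classical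
  obtain ⟨E, hE⟩ : ∃ E : Matrix I (Mon t) RR, E = Matrix.of fun s m =>
      ∏ j, (Sp5_y (x s) j) ^ (m.1 j) := ⟨_, rfl⟩
  have hEa : ∀ s m, E s m = ∏ j, (Sp5_y (x s) j) ^ (m.1 j) := fun s m => by rw [hE]; rfl
  have hEh : ∀ s m, (E s m).IsHomogeneous t := by
    intro s m
    rw [hEa]
    have h1 := MvPolynomial.IsHomogeneous.prod Finset.univ (fun j => (Sp5_y (x s) j) ^ (m.1 j))
      (fun j => 1 * m.1 j) (fun j _ => (Sp5_y_hom (x s) j).pow (m.1 j))
    have h2 : ∑ j, 1 * m.1 j = t := by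
      have h3 := Sp5_mem_iff.1 m.2
      rw [Finsupp.degree_eq_sum] at h3
      simpa using h3
    rwa [h2] at h1
  obtain ⟨Δ, r, hΔ, hr, hl⟩ := lift_kernel E t hEh
  refine ⟨Δ, r, hΔ, hr, fun P hP f hf hv => ?_⟩
  obtain ⟨w, hw, hwh, hwP⟩ := hl P hP (fun m => coeff m.1 f) (by
    funext s
    rw [Matrix.mulVec, dotProduct, Pi.zero_apply]
    have h1 := hv s
    rw [← Sp5_key f hf, map_sum] at h1
    rw [← h1]
    refine Finset.sum_congr rfl fun m _ => ?_
    rw [Matrix.map_apply, hEa, map_prod, map_mul, eval_C, eval_monomial, one_mul,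
      Finsupp.prod_fintype _ _ (fun j => pow_zero _), mul_comm]
    congr 1
    refine Finset.prod_congr rfl fun j _ => ?_
    rw [map_pow, ← Sp5_y_eval])
  refine ⟨∑ m : Mon t, C (w m) * monomial m.1 (1 : RR), Sp5_hom_sum w, ?_, ?_, ?_⟩
  · intro e
    rw [Sp5_coeff_sum]
    split_ifs with h
    · exact hwh _
    · exact isHomogeneous_zero _ _ _
  · intro s
    have h1 := congrFun hw s
    rw [Matrix.mulVec, dotProduct, Pi.zero_apply] at h1
    rw [map_sum, ← h1]
    refine Finset.sum_congr rfl fun m _ => ?_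
    rw [hEa, map_mul, eval_C, eval_monomial, one_mul,
      Finsupp.prod_fintype _ _ (fun j => pow_zero _), mul_comm]
  · rw [map_sum]
    conv_rhs => rw [← Sp5_key f hf]
    refine Finset.sum_congr rfl fun m _ => ?_
    rw [map_mul, map_C, map_monomial, hwP, map_one]

theorem Sp5_gen {I : Type} [Fintype I] [DecidableEq I] (x : I → Fin 4 → ℂ) {c d : ℕ}
    {F1 G1 : MvPolynomial (Fin 3) RR} (hF : F1.IsHomogeneous c) (hG : G1.IsHomogeneous d)
    (vF : ∀ s, eval (Sp5_y (x s)) F1 = 0) (vG : ∀ s, eval (Sp5_y (x s)) G1 = 0) (P : Fin 4 → ℂ)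
    (hgen : ∀ t f, MvPolynomial.IsHomogeneous f t → (∀ s, eval (yP P (x s)) f = 0) →
      f ∈ Ideal.span {map (eval P) F1, map (eval P) G1})
    (t : ℕ) (H : BB) (hH : IsWeightedHomogeneous wx H t) (hE : EE H = 0)
    (hz : ∀ s, atz (x s) H = 0) :
    ∃ r : RR, r ≠ 0 ∧ inP r * H ∈ Ideal.span {hlift 0 F1, hlift 0 G1} := by
  classical
  obtain ⟨H1, hH1⟩ : ∃ H1, H1 = chartH RR 0 H := ⟨_, rfl⟩
  have h1 : H1.IsHomogeneous t := by
    rw [hH1]
    exact chart_homog RR 0 hH
  have h2 : hlift 0 H1 = inP (X 0 ^ t) * H := by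
    rw [hH1]
    exact hlift_chart 0 hH hE
  have h3 : ∀ s, eval (Sp5_y (x s)) H1 = 0 := by
    intro s
    have h4 := atz_hlift 0 (x s) H1
    rw [h2, map_mul, hz s, mul_zero] at h4
    exact h4.symm
  have h5 := gen_of_spec (fun s => Sp5_y (x s)) hF hG vF vG P (by
    intro t' f hf hv
    refine hgen t' f hf fun s => ?_
    have h6 := hv s
    rwa [Sp5_y_eval] at h6) (h1.map (algebraMap RR (FractionRing RR))) (by
    intro s
    have h6 := h3 s
    rw [eval_map]
    have h7 := eval₂_comp_left (algebraMap RR (FractionRing RR)) (RingHom.id RR)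
      (Sp5_y (x s)) H1
    rw [RingHom.comp_id] at h7
    have h8 : eval₂ (RingHom.id RR) (Sp5_y (x s)) H1 = 0 := h6
    rw [h8, map_zero] at h7
    exact h7.symm)
  rw [Ideal.mem_span_pair] at h5
  obtain ⟨A, B, hAB⟩ := h5
  obtain ⟨u, hu, A0, hA0, -⟩ := clear_den (O := FractionRing RR) (nonZeroDivisors RR) le_rfl A
  obtain ⟨v, hv, B0, hB0, -⟩ := clear_den (O := FractionRing RR) (nonZeroDivisors RR) le_rfl B
  have hinj : Function.Injective (map (algebraMap RR (FractionRing RR)) :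
      MvPolynomial (Fin 3) RR → MvPolynomial (Fin 3) (FractionRing RR)) :=
    map_injective _ (IsFractionRing.injective RR (FractionRing RR))
  have h9 : C (u * v) * H1 = C v * A0 * F1 + C u * B0 * G1 := by
    apply hinj
    simp only [map_mul, map_add, map_C, ← hA0, ← hB0, ← hAB]
    ring
  have hu0 : u ≠ 0 := nonZeroDivisors.ne_zero hu
  have hv0 : v ≠ 0 := nonZeroDivisors.ne_zero hv
  refine ⟨u * v * X 0 ^ t, mul_ne_zero (mul_ne_zero hu0 hv0) (pow_ne_zero _ (X_ne_zero 0)), ?_⟩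
  rw [Ideal.mem_span_pair]
  refine ⟨hlift 0 (C v * A0), hlift 0 (C u * B0), ?_⟩
  have h10 := congrArg (hlift 0) h9
  rw [map_mul, Ga2_hlift_C, h2, map_add, map_mul (hlift 0) (C v * A0),
    map_mul (hlift 0) (C u * B0)] at h10
  rw [← h10, map_mul inP (u * v)]
  ring

theorem Sp5_ne {I : Type} [Fintype I] (y : I → Fin 3 → ℂ) {d : ℕ} (hd : 1 ≤ d)
    {G : MvPolynomial (Fin 3) ℂ} (hG : G.IsHomogeneous d) (hN : d ≤ Fintype.card I)
    (hgen : ∀ t f, MvPolynomial.IsHomogeneous f t → (∀ s, eval (y s) f = 0) →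
      f ∈ Ideal.span {(0 : MvPolynomial (Fin 3) ℂ), G}) : False := by
  classical
  obtain ⟨E, hE, hE0, hEd⟩ : ∃ E : MvPolynomial (Fin 3) ℂ, E.IsHomogeneous d ∧ E ≠ 0 ∧
      ∀ x, G ∣ x → E ∣ x := by
    by_cases hG0 : G = 0
    · refine ⟨X 0 ^ d, isHomogeneous_X_pow 0 d, pow_ne_zero _ (X_ne_zero 0), fun x hx => ?_⟩
      rw [hG0, zero_dvd_iff] at hx
      rw [hx]
      exact dvd_zero _
    · exact ⟨G, hG, hG0, fun x hx => hx⟩
  obtain ⟨N, hNe⟩ : ∃ N, N = Fintype.card I := ⟨_, rfl⟩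
  have h1 := LinearMap.finrank_range_add_finrank_ker (evHom y N)
  rw [finrank_hs] at h1
  have h2 : Module.finrank ℂ (LinearMap.range (evHom y N)) ≤ N := by
    refine (Submodule.finrank_le _).trans ?_
    rw [Module.finrank_fintype_fun_eq_card, hNe]
  have h3 : LinearMap.ker (evHom y N) ≤ mulSub E N := by
    intro f hf
    rw [LinearMap.mem_ker] at hf
    have h4 : f.val ∈ Ideal.span {(0 : MvPolynomial (Fin 3) ℂ), G} := by
      refine hgen N f.val f.prop fun s => ?_
      have h5 := congrFun hf s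
      rwa [evHom_apply] at h5
    rw [Ideal.mem_span_pair] at h4
    obtain ⟨a, b, hab⟩ := h4
    refine hEd _ ⟨b, ?_⟩
    rw [← hab]
    ring
  have h4 := Submodule.finrank_mono h3
  rw [finrank_mul E d hE hE0 N] at h4
  have h5 : nz ((N : ℤ) - d) = nn (N - d) := by
    rw [nz, if_pos (by omega)]
    congr 1
    omega
  rw [h5] at h4
  have h6 : nn (N - d) + N + 1 ≤ nn N := by
    have h7 := two_nn (N - d)
    have h8 := two_nn N
    obtain ⟨M, hM⟩ : ∃ M, N = M + 1 := ⟨N - 1, by omega⟩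
    have h9 : N - d ≤ M := by omega
    have h10 : (N - d + 2) * (N - d + 1) ≤ (M + 2) * (M + 1) := Nat.mul_le_mul (by omega) (by omega)
    subst hM
    nlinarith
  omega

/-- substitute `X_i ↦ T ^ (w i) X_i` -/
noncomputable def Sp5_phi (σ K : Type) [CommRing K] (w : σ → ℕ) :
    MvPolynomial σ K →+* Polynomial (MvPolynomial σ K) :=
  eval₂Hom (Polynomial.C.comp C) (fun i => Polynomial.X ^ (w i) * Polynomial.C (X i))

theorem Sp5_mono {σ K : Type} [CommRing K] (w : σ → ℕ) (d : σ →₀ ℕ) (r : K) :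
    Sp5_phi σ K w (monomial d r) =
      Polynomial.C (monomial d r) * Polynomial.X ^ (Finsupp.weight w d) := by
  unfold Sp5_phi
  rw [eval₂Hom_monomial, monomial_eq, map_mul, Finsupp.prod, Finsupp.prod]
  simp only [mul_pow, Finset.prod_mul_distrib, RingHom.comp_apply, ← pow_mul]
  rw [map_prod, Finset.prod_pow_eq_pow_sum, Finsupp.weight_apply, Finsupp.sum]
  simp only [map_pow, smul_eq_mul, mul_comm (w _)]
  ring

theorem Sp5_coeff {σ K : Type} [CommRing K] (w : σ → ℕ) (f : MvPolynomial σ K) (m : ℕ) :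
    (Sp5_phi σ K w f).coeff m = weightedHomogeneousComponent w m f := by
  classical
  induction f using MvPolynomial.induction_on' with
  | monomial d r =>
    have h0 : IsWeightedHomogeneous w (monomial d r) (Finsupp.weight w d) :=
      isWeightedHomogeneous_monomial w d r rfl
    rw [Sp5_mono, Polynomial.coeff_C_mul, Polynomial.coeff_X_pow,
      weightedHomogeneousComponent_of_mem h0]
    split_ifs with h
    · rw [mul_one]
    · rw [mul_zero]
  | add p q hp hq => rw [map_add, Polynomial.coeff_add, hp, hq, map_add]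

theorem Sp5_hom {σ K : Type} [CommRing K] {w : σ → ℕ} {f : MvPolynomial σ K} {a : ℕ}
    (h : ∀ m, m ≠ a → weightedHomogeneousComponent w m f = 0) : IsWeightedHomogeneous w f a := by
  classical
  have h1 : f = weightedHomogeneousComponent w a f := by
    ext d
    rw [coeff_weightedHomogeneousComponent]
    split_ifs with h2
    · rfl
    · have h3 := congrArg (coeff d) (h _ h2)
      rw [coeff_weightedHomogeneousComponent, if_pos rfl, coeff_zero] at h3
      exact h3
  rw [h1]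
  exact weightedHomogeneousComponent_isWeightedHomogeneous a f

theorem Sp5_of_mul {σ K : Type} [CommRing K] [IsDomain K] {w : σ → ℕ} {f g : MvPolynomial σ K}
    {n : ℕ} (h : IsWeightedHomogeneous w (f * g) n) (h0 : f * g ≠ 0) :
    ∃ a b : ℕ, a + b = n ∧ IsWeightedHomogeneous w f a ∧ IsWeightedHomogeneous w g b := by
  classical
  have h1 : Sp5_phi σ K w (f * g) = Polynomial.monomial n (f * g) := by
    ext1 m
    rw [Sp5_coeff, Polynomial.coeff_monomial, weightedHomogeneousComponent_of_mem h]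
    by_cases h1 : m = n
    · rw [if_pos h1, if_pos h1.symm]
    · rw [if_neg h1, if_neg (Ne.symm h1)]
  rw [map_mul] at h1
  have hne : Sp5_phi σ K w f * Sp5_phi σ K w g ≠ 0 := by
    rw [h1]
    exact (Polynomial.monomial_eq_zero_iff _ _).not.2 h0
  have hF := left_ne_zero_of_mul hne
  have hG := right_ne_zero_of_mul hne
  have h2 := Polynomial.natDegree_mul hF hG
  rw [h1, Polynomial.natDegree_monomial, if_neg h0] at h2
  have h3 := Polynomial.natTrailingDegree_mul hF hG
  rw [h1, Polynomial.natTrailingDegree_monomial h0] at h3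
  have h4 := Polynomial.natTrailingDegree_le_natDegree (Sp5_phi σ K w f)
  have h5 := Polynomial.natTrailingDegree_le_natDegree (Sp5_phi σ K w g)
  refine ⟨(Sp5_phi σ K w f).natDegree, (Sp5_phi σ K w g).natDegree, h2.symm, ?_, ?_⟩
  · refine Sp5_hom fun m hm => ?_
    rw [← Sp5_coeff]
    rcases lt_or_gt_of_ne hm with h6 | h6
    · exact Polynomial.coeff_eq_zero_of_lt_natTrailingDegree (by omega)
    · exact Polynomial.coeff_eq_zero_of_natDegree_lt h6
  · refine Sp5_hom fun m hm => ?_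
    rw [← Sp5_coeff]
    rcases lt_or_gt_of_ne hm with h6 | h6
    · exact Polynomial.coeff_eq_zero_of_lt_natTrailingDegree (by omega)
    · exact Polynomial.coeff_eq_zero_of_natDegree_lt h6

theorem Sp5_prim {c f0 : ℕ} {F : BB} (hF0 : F ≠ 0) (hx : IsWeightedHomogeneous wx F c)
    (hP : IsWeightedHomogeneous wP F f0) (hE : EE F = 0) :
    ∃ (fm : ℕ) (Fm : BB) (r r' : RR), fm ≤ f0 ∧ IsWeightedHomogeneous wx Fm c ∧
      IsWeightedHomogeneous wP Fm fm ∧ EE Fm = 0 ∧ r ≠ 0 ∧ r' ≠ 0 ∧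
      inP r * Fm = inP r' * F ∧ ∀ q : RR, Prime q → ¬ inP q ∣ Fm := by
  classical
  have hex : ∃ n : ℕ, ∃ (Fm : BB) (r r' : RR), IsWeightedHomogeneous wx Fm c ∧
      IsWeightedHomogeneous wP Fm n ∧ EE Fm = 0 ∧ r ≠ 0 ∧ r' ≠ 0 ∧ inP r * Fm = inP r' * F :=
    ⟨f0, F, 1, 1, hx, hP, hE, one_ne_zero, one_ne_zero, rfl⟩
  obtain ⟨Fm, r, r', h1, h2, h3, h4, h5, h6⟩ := Nat.find_spec hex
  refine ⟨Nat.find hex, Fm, r, r', Nat.find_min' hex
    ⟨F, 1, 1, hx, hP, hE, one_ne_zero, one_ne_zero, rfl⟩, h1, h2, h3, h4, h5, h6, ?_⟩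
  rintro q hq ⟨F2, hF2⟩
  have hinj : ∀ a : RR, a ≠ 0 → inP a ≠ 0 := fun a ha h => ha (inP_injective (by rw [h, map_zero]))
  have hFm0 : Fm ≠ 0 := by
    intro h7
    rw [h7, mul_zero] at h6
    exact mul_ne_zero (hinj r' h5) hF0 h6.symm
  have h7 : inP q * F2 ≠ 0 := by rw [← hF2]; exact hFm0
  have hx2 : IsWeightedHomogeneous wx F2 c := by
    have h8 := h1
    rw [hF2] at h8
    obtain ⟨a, b, hab, ha, hb⟩ := Sp5_of_mul h8 h7
    have h9 : a = 0 := ha.inj_right (left_ne_zero_of_mul h7) (inP_wx q)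
    have h10 : b = c := by omega
    rwa [h10] at hb
  obtain ⟨a, b, hab, ha, hb⟩ := Sp5_of_mul (w := wP) (by rw [← hF2]; exact h2) h7
  have ha0 : a ≠ 0 := by
    intro ha0
    rw [ha0] at ha
    have h8 := atz_wP ha (fun _ => 0)
    rw [atz_inP] at h8
    have h9 := (totalDegree_zero_iff_isHomogeneous (p := q)).2 h8
    rw [totalDegree_eq_zero_iff_eq_C] at h9
    rw [h9] at hq
    have h10 : coeff 0 q ≠ 0 := by
      intro h11
      rw [h11, C_0] at hq
      exact hq.ne_zero rfl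
    exact hq.not_isUnit ((isUnit_iff_ne_zero.2 h10).map C)
  have hE2 : EE F2 = 0 := by
    rw [hF2, Derivation.leibniz, EE_inP, smul_zero, add_zero, smul_eq_mul] at h3
    exact (mul_eq_zero.1 h3).resolve_left (left_ne_zero_of_mul h7)
  exact Nat.find_min hex (m := b) (by omega) ⟨F2, r * q, r', hx2, hb, hE2,
    mul_ne_zero h4 hq.ne_zero, h5, by rw [map_mul, mul_assoc, ← hF2, h6]⟩

theorem glob_of_geproci {I : Type} [Fintype I] [DecidableEq I] (x : I → Fin 4 → ℂ) (hx : Geom x)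
    {c d : ℕ} (hc : 2 ≤ c) (hg : IsGeproci c d (pts x)) :
    ∃ (f f' : ℕ) (F G : BB), Glob x c d f f' F G ∧ f ≤ (Fintype.card I + 1) * c ∧
      f' ≤ (Fintype.card I + 1) * d := by
  classical
  obtain ⟨hN, D, hD0, hD⟩ := spec_at x hx hg
  obtain ⟨Δc, rc, hΔc, hrc, hlc⟩ := Sp5_lift x c
  obtain ⟨Δd, rd, hΔd, hrd, hld⟩ := Sp5_lift x d
  have hcd : c ≤ d := hg.2.1
  obtain ⟨P, hP⟩ : ∃ P : Fin 4 → ℂ, eval P (D * Δc * Δd) ≠ 0 := by
    by_contra hno
    push Not at hno
    exact mul_ne_zero (mul_ne_zero hD0 hΔc) hΔd (MvPolynomial.funext fun P => by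
      rw [hno P, map_zero])
  rw [map_mul, map_mul] at hP
  obtain ⟨Fs, Gs, hFs, hGs, vFs, vGs, hgen⟩ := hD P (left_ne_zero_of_mul (left_ne_zero_of_mul hP))
  obtain ⟨F1, hF1, cF1, vF1, mF1⟩ := hlc P (right_ne_zero_of_mul (left_ne_zero_of_mul hP)) Fs hFs vFs
  obtain ⟨G1, hG1, cG1, vG1, mG1⟩ := hld P (right_ne_zero_of_mul hP) Gs hGs vGs
  rw [← mF1, ← mG1] at hgen
  have gen := Sp5_gen x hF1 hG1 vF1 vG1 P hgen
  have hFx := hlift_wx 0 hF1
  have hGx := hlift_wx 0 hG1
  have hFP := hlift_wP 0 hF1 cF1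
  have hGP := hlift_wP 0 hG1 cG1
  have hFE := hlift_EE 0 F1
  have hGE := hlift_EE 0 G1
  have hFz : ∀ s, atz (x s) (hlift 0 F1) = 0 := fun s => (atz_hlift 0 (x s) F1).trans (vF1 s)
  have hGz : ∀ s, atz (x s) (hlift 0 G1) = 0 := fun s => (atz_hlift 0 (x s) G1).trans (vG1 s)
  have hle : rc * c + c ≤ (Fintype.card I + 1) * c := by
    rw [add_mul, one_mul]
    exact Nat.add_le_add_right (Nat.mul_le_mul_right _ hrc) _
  have hle' : rd * d + d ≤ (Fintype.card I + 1) * d := by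
    rw [add_mul, one_mul]
    exact Nat.add_le_add_right (Nat.mul_le_mul_right _ hrd) _
  obtain ⟨F, hFe⟩ : ∃ F, F = hlift 0 F1 := ⟨_, rfl⟩
  obtain ⟨G, hGe⟩ : ∃ G, G = hlift 0 G1 := ⟨_, rfl⟩
  rw [← hFe] at hFx hFP hFE hFz
  rw [← hGe] at hGx hGP hGE hGz
  rw [← hFe, ← hGe] at gen
  rcases hcd.eq_or_lt with hcd' | hcd'
  · refine ⟨rc * c + c, rd * d + d, F, G, ⟨hc, hcd, hN, hFx, hFP, hGx, hGP, hFE, hGE, hFz, hGz, gen,
      fun h => absurd h (by omega)⟩, hle, hle'⟩
  have hF0 : F ≠ 0 := by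
    intro h0
    have h1 : F1 = 0 := by
      have h2 := chart_hlift RR 0 hF1
      rw [← hFe, h0, map_zero] at h2
      have h3 : map (algebraMap RR RR) F1 = F1 := by
        rw [Algebra.algebraMap_self, map_id]
      rw [h3] at h2
      refine (mul_eq_zero.1 h2.symm).resolve_left ?_
      intro h4
      rw [Algebra.algebraMap_self, RingHom.id_apply, C_eq_zero] at h4
      exact pow_ne_zero _ (X_ne_zero 0) h4
    rw [h1, map_zero, mG1] at hgen
    refine Sp5_ne (fun s => yP P (x s)) (by omega) hGs ?_ hgen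
    rw [hN]
    exact Nat.le_mul_of_pos_left _ (by omega)
  obtain ⟨fm, Fm, r, r', hfm, hmx, hmP, hmE, hr, hr', hrr, hprim⟩ := Sp5_prim hF0 hFx hFP hFE
  refine ⟨fm, rd * d + d, Fm, G, ⟨hc, hcd, hN, hmx, hmP, hGx, hGP, hmE, hGE, ?_, hGz, ?_,
      fun _ => hprim⟩, hfm.trans hle, hle'⟩
  · intro s
    have h1 := congrArg (atz (x s)) hrr
    rw [map_mul, map_mul, atz_inP, atz_inP, hFz s, mul_zero] at h1
    exact (mul_eq_zero.1 h1).resolve_left hr
  · intro t H hH hE hz
    obtain ⟨u, hu, hI⟩ := gen t H hH hE hz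
    rw [Ideal.mem_span_pair] at hI
    obtain ⟨A, B, hAB⟩ := hI
    refine ⟨r' * u, mul_ne_zero hr' hu, ?_⟩
    rw [Ideal.mem_span_pair]
    refine ⟨A * inP r, B * inP r', ?_⟩
    rw [map_mul]
    linear_combination A * hrr + inP r' * hAB

end GP80

end S_H80_GP_Sp5
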