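import Mathlib
import Pool.Agent.H80.M87.G01
import Pool.Agent.H80.M87.G04
import Pool.Agent.H80.M87.G05
import Pool.Agent.H80.M87.G06
import Pool.Agent.H80.M87.G09
import Pool.Agent.H80.M87.G10

/-! MP_87ed0a_ag: this file joins several modules to save build time. -/

section S_H80_GP_The

/-!
# Row The (MP_87ed0a_GP): `Θ = g L` (end of 1.2)  (about 130 lines)

For `n ≥ 1` the last layer there is `g ≤ n` such that
(1) `Rel i h q → Rel (i+1) (DD h) ((g - i) L q)` for `i ≥ 1`,   (2) `multiplicity pi (J z) = g` whenever `S.Lz z ≠ 0`.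

Proof.  `simple_pole` gives `M11..M22`; `Θ := rho (M11+M22) = ∑ C (θ i) X i`.  `rel_DD` gives (1) with `Θ - i L` in place of `(g-i) L`.
Put `H i = n * rho(der i pi) - θ i`.  For `Rel n h q`: `Rel (n+1) (DD h) ((Θ - n L) q)`, so `Γ ∣ (Θ - nL) q` by `rel_big`; i.e. `Γ ∣ H q`.
If `H = 0`: `Θ = n L`.  If `H ≠ 0`: `last_line` and `S.hPl` (here `D0 = c + d - 1`) give `H = a L`, so `Θ = (n - a) L`.
In both cases `Θ = b L` with `b ∈ k`.  The reduced points span, `L ≠ 0` (`S.hL`), so some `z0` has `Lz z0 ≠ 0`; `theta_z` at `z0`: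
`b = multiplicity pi (J z0) =: g` in `k`.  For any `z` with `Lz z ≠ 0`: `multiplicity (J z) = b = g` in `k`, `CharZero`.
`g ≤ n` by `J_dvd` (`J z0 ∣ pi^n`; `multiplicity`).
-/

namespace GP80

open MvPolynomial

theorem The_lin {k : Type} [CommRing k] {f : MvPolynomial (Fin 3) k} (hf : f.IsHomogeneous 1) :
    f = ∑ i, C (coeff (Finsupp.single i 1) f) * X i := by
  classical
  ext m
  rw [coeff_sum]
  simp only [coeff_C_mul, coeff_X']
  by_cases hm : m.degree = 1
  · obtain ⟨j, hj⟩ : ∃ j, m = Finsupp.single j 1 := (Finsupp.sum_eq_one_iff m).1 hm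
    rw [hj, Finset.sum_eq_single j]
    · simp
    · intro i _ hij
      rw [if_neg, mul_zero]
      intro h
      exact hij (Finsupp.single_left_injective one_ne_zero h)
    · intro h
      exact absurd (Finset.mem_univ j) h
  · have h0 : coeff m f = 0 := hf.coeff_eq_zero hm
    rw [h0]
    symm
    refine Finset.sum_eq_zero fun i _ => ?_
    rw [if_neg, mul_zero]
    intro h
    apply hm
    rw [← h, Finsupp.degree_single]

theorem The_point {O k I : Type} [CommRing O] [Field k] [Fintype I] {D0 : ℕ}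
    (S : GeoS O k I D0) : ∃ z, S.Lz z ≠ 0 := by
  classical
  by_contra hcon
  push Not at hcon
  obtain ⟨i0, hi0⟩ := S.hL
  apply hi0
  let φ : (Fin 3 → k) →ₗ[k] k :=
    { toFun := fun x => ∑ i, x i * S.rho (S.der i S.pi)
      map_add' := fun x y => by
        simp only [Pi.add_apply, add_mul, Finset.sum_add_distrib]
      map_smul' := fun r x => by
        simp only [Pi.smul_apply, smul_eq_mul, Finset.mul_sum, RingHom.id_apply, mul_assoc] }
  have h1 : Submodule.span k (Set.range fun z => (fun i => S.rho (S.v z i))) ≤ LinearMap.ker φ := by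
    rw [Submodule.span_le]
    rintro _ ⟨z, rfl⟩
    rw [SetLike.mem_coe, LinearMap.mem_ker]
    exact hcon z
  rw [S.span] at h1
  have h2 : φ (Pi.single i0 1) = 0 := LinearMap.mem_ker.1 (h1 Submodule.mem_top)
  have h3 : φ (Pi.single i0 1) = S.rho (S.der i0 S.pi) := by
    show ∑ i, (Pi.single i0 (1 : k) : Fin 3 → k) i * S.rho (S.der i S.pi) = _
    rw [Finset.sum_eq_single i0]
    · rw [Pi.single_eq_same, one_mul]
    · intro j _ hj
      rw [Pi.single_eq_of_ne hj, zero_mul]
    · intro h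
      exact absurd (Finset.mem_univ i0) h
  rw [← h3, h2]

theorem theta_eq {O k I : Type} [CommRing O] [IsDomain O] [IsDiscreteValuationRing O] [Field k]
    [CharZero k] [Fintype I] {c d kk : ℕ} (S : GeoS O k I (c + d - 1)) {F G : MvPolynomial (Fin 3) O}
    {Γ F' G' : MvPolynomial (Fin 3) k} (h : SatS S c d F G Γ F' G' kk) (hc : 2 ≤ c) (hcd : c ≤ d)
    (hN : Fintype.card I = c * d) {n : ℕ} (hn : IsLast S F G n) (hn1 : 1 ≤ n)
    (J : I → O) (hJ : ∀ z, IsJ3 F G (S.v z) (J z)) :
    ∃ g : ℕ, g ≤ n ∧ (∀ z, S.Lz z ≠ 0 → multiplicity S.pi (J z) = g) ∧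
      ∀ i f q, 1 ≤ i → Rel S F G F' G' i f q →
        Rel S F G F' G' (i + 1) (DD S.der f)
          ((((g : MvPolynomial (Fin 3) k) - (i : MvPolynomial (Fin 3) k)) * S.LL) * q) := by
  classical
  have hJ0 : ∀ z, J z ≠ 0 := fun z =>
    J_ne_zero S h.pair (by omega) (by omega) z (hJ z)
  obtain ⟨M11, M12, M21, M22, hM1, hM2, e1, e2⟩ := simple_pole S h hc hcd J hJ hJ0
  obtain ⟨Θ, hΘ⟩ : ∃ Θ, Θ = map S.rho (M11 + M22) := ⟨_, rfl⟩
  have hΘh : Θ.IsHomogeneous 1 := by
    rw [hΘ]
    exact (hM1.add hM2).map S.rho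
  obtain ⟨θ, hθ⟩ : ∃ θ : Fin 3 → k, θ = fun i => coeff (Finsupp.single i 1) Θ := ⟨_, rfl⟩
  have hΘs : Θ = ∑ i, C (θ i) * X i := by
    rw [hθ]
    exact The_lin hΘh
  have hrel : ∀ i f q, 1 ≤ i → Rel S F G F' G' i f q →
      Rel S F G F' G' (i + 1) (DD S.der f) ((Θ - (i : MvPolynomial (Fin 3) k) * S.LL) * q) := by
    intro i f q hi hf
    rw [hΘ]
    exact rel_DD h e1 e2 hi hf
  have hLL : S.LL = ∑ i, C (S.rho (S.der i S.pi)) * X i := by
    rw [GeoS.LL]
    exact Finset.sum_congr rfl fun i _ => mul_comm _ _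
  -- the linear form `H`
  obtain ⟨b, hb⟩ : ∃ b : k, ∀ i, θ i = b * S.rho (S.der i S.pi) := by
    obtain ⟨H, hH⟩ : ∃ H : Fin 3 → k, H = fun i => (n : k) * S.rho (S.der i S.pi) - θ i := ⟨_, rfl⟩
    have hHi : ∀ i, H i = (n : k) * S.rho (S.der i S.pi) - θ i := fun i => by rw [hH]
    have hHs : ∑ i, C (H i) * X i = (n : MvPolynomial (Fin 3) k) * S.LL - Θ := by
      rw [hΘs, hLL, Finset.mul_sum, ← Finset.sum_sub_distrib]
      refine Finset.sum_congr rfl fun i _ => ?_
      rw [hHi, C_sub, C_mul, map_natCast]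
      ring
    by_cases hH0 : H = 0
    · refine ⟨n, fun i => ?_⟩
      have h1 := hHi i
      rw [hH0, Pi.zero_apply] at h1
      exact (sub_eq_zero.1 h1.symm).symm
    · have hdvd : ∀ f q, Rel S F G F' G' n f q → Γ ∣ (∑ i, C (H i) * X i) * q := by
        intro f q hf
        have h1 := rel_big h hn (Nat.lt_succ_self n) (hrel n f q hn1 hf)
        rw [hHs]
        have h2 : ((n : MvPolynomial (Fin 3) k) * S.LL - Θ) * q =
            -((Θ - (n : MvPolynomial (Fin 3) k) * S.LL) * q) := by ring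
        rw [h2]
        exact (dvd_neg).2 h1
      obtain ⟨a, ha⟩ := S.hPl H hH0 (last_line S h hc hcd hN hn hn1 H hH0 hdvd)
      refine ⟨n - a, fun i => ?_⟩
      have h1 := hHi i
      rw [ha i] at h1
      linear_combination h1
  have hΘL : Θ = C b * S.LL := by
    rw [hΘs, hLL, Finset.mul_sum]
    refine Finset.sum_congr rfl fun i _ => ?_
    rw [hb i, C_mul, mul_assoc]
  have hval : ∀ z, S.Lz z ≠ 0 → b = (multiplicity S.pi (J z) : k) := by
    intro z hz
    have h1 := theta_z S h J hJ hJ0 e1 e2 z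
    rw [← hΘ, hΘL, map_mul, eval_C] at h1
    have h2 : eval (S.vb z) S.LL = S.Lz z := by
      rw [GeoS.LL, map_sum]
      simp only [map_mul, eval_X, eval_C]
      rfl
    rw [h2] at h1
    exact mul_right_cancel₀ hz h1
  obtain ⟨z0, hz0⟩ := The_point S
  refine ⟨multiplicity S.pi (J z0), ?_, ?_, ?_⟩
  · have h1 : S.pi ^ multiplicity S.pi (J z0) ∣ S.pi ^ n :=
      (pow_multiplicity_dvd _ _).trans (J_dvd S h hc hcd hn z0 (hJ z0))
    exact (pow_dvd_pow_iff S.prime.ne_zero S.prime.not_isUnit).1 h1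
  · intro z hz
    have h1 := hval z hz
    rw [hval z0 hz0] at h1
    exact (Nat.cast_injective h1).symm
  · intro i f q hi hf
    have h1 := hrel i f q hi hf
    have h2 : (Θ - (i : MvPolynomial (Fin 3) k) * S.LL) * q =
        (((multiplicity S.pi (J z0) : MvPolynomial (Fin 3) k) -
          (i : MvPolynomial (Fin 3) k)) * S.LL) * q := by
      rw [hΘL, hval z0 hz0, map_natCast]
      ring
    rw [h2] at h1
    exact h1

end GP80

end S_H80_GP_The

section S_H80_GP_Len

/-!
# Row Len (MP_87ed0a_GP): lengths, 1.6 (first half) and 1.7  (about 220 lines)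

`t := c + d - 2`, `M := HS O t`, `J0 := JJ S.pi F G t 0` (forms of degree `t` in `(F,G)`).

* `tau_le` : `length (ker ev / J0) ≤ ∑_{1 ≤ i ≤ n} (lam i choose 2)`, `ev = evHom S.v t`.
  `length_chain_le` (La2) with `J i := JJ S.pi F G t i` and `m i := (lam (i+1)).choose 2`; `JJ .. n = ker ev` (last layer, `gen`, `vanish_of_InI`).
  `hdep`: for `x_j ∈ J (i+1)` choose `q_j` with `Rel (i+1) x_j q_j` homogeneous of degree `t + kk - (c+d) = kk - 2` (zero if `kk < 2`),
  `Δ (i+1) ∣ q_j`.  If all `q_j` are zero take `a = (1,0,..)`; in general `dep_mod` with `Δ (i+1)` and `Γ` and `s = kk - 2`: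
  `nz (kk-2 - (kk - lam)) = nz (lam - 2) = (lam).choose 2` (`nz_small`) and `nz(kk-2-kk) = 0`.  Then `Rel (i+1) (∑ a_j x_j) (Γ q')`, `rel_down`.
* `J0_eq` : every element of `J0` is `A F + B G` with `A, B` homogeneous of degrees `d-2`, `c-2`, so `J0` is the span of `m F` (`m ∈ Mon (d-2)`), `m G` (`m ∈ Mon (c-2)`).
* `bigDet_ne` : if `det (ev β) ≠ 0` then `bigDet e F G β ≠ 0`: a vanishing combination of the rows over `O` is (basis `exists_basisMon`) an identity
  `A F + B G + ∑ a_i β_i = 0`; evaluate: `a = 0`; `kosO`: `A = r G` with `deg A = d - 2 < d`, so `A = 0`, `B = 0`.  (`Matrix.det_ne_zero` iff rows are independent, over a domain: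
  `Matrix.exists_vecMul_eq_zero_iff`.)
* `len_bigDet` : then `length (M / (J0 ⊔ span β)) = multiplicity pi (bigDet e F G β)` by `length_mod_det` (La1) with the monomial basis reindexed by `e`
  (`b.toMatrix u` is the transpose of the matrix in `bigDet`).
* `det_le` (1.7): combine with `length_split` (La3) and `tau_le`.
-/

namespace GP80

open MvPolynomial

variable {O k I : Type} [CommRing O] [IsDomain O] [IsDiscreteValuationRing O] [Field k]
    [Fintype I] [DecidableEq I] {D0 c d kk : ℕ}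

theorem Len_hc_mul {R : Type} [CommRing R] (A : MvPolynomial (Fin 3) R)
    {F : MvPolynomial (Fin 3) R} {a b : ℕ} (hF : F.IsHomogeneous b) :
    homogeneousComponent (a + b) (A * F) = homogeneousComponent a A * F := by
  have h1 : ∀ i, homogeneousComponent (a + b) (homogeneousComponent i A * F) =
      if i = a then homogeneousComponent a A * F else 0 := by
    intro i
    rw [homogeneousComponent_of_mem ((homogeneousComponent_isHomogeneous i A).mul hF)]
    by_cases h : i = a
    · rw [if_pos h, if_pos (by omega), h]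
    · rw [if_neg h, if_neg (by omega)]
  conv_lhs => rw [← sum_homogeneousComponent A]
  rw [Finset.sum_mul, map_sum, Finset.sum_congr rfl fun i _ => h1 i, Finset.sum_ite_eq']
  split_ifs with h
  · rfl
  · rw [Finset.mem_range, not_lt] at h
    rw [homogeneousComponent_eq_zero _ _ (by omega), zero_mul]

theorem Len_deg {t : ℕ} (m : Mon t) : m.1.degree = t := by
  have h := (Finset.mem_finsuppAntidiag.1 m.2).1
  rw [Finsupp.degree_eq_sum]
  exact h

theorem Len_J0 {R : Type} [CommRing R] (pi : R) {F G f : MvPolynomial (Fin 3) R}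
    (hF : F.IsHomogeneous c) (hG : G.IsHomogeneous d) (hc : 2 ≤ c) (hcd : c ≤ d)
    (hf : f.IsHomogeneous (c + d - 2)) (h : C (pi ^ 0) * f ∈ Ideal.span {F, G}) :
    ∃ A B : MvPolynomial (Fin 3) R, A.IsHomogeneous (d - 2) ∧ B.IsHomogeneous (c - 2) ∧
      f = A * F + B * G := by
  rw [pow_zero, C_1, one_mul, Ideal.mem_span_pair] at h
  obtain ⟨A, B, hAB⟩ := h
  refine ⟨homogeneousComponent (d - 2) A, homogeneousComponent (c - 2) B,
    homogeneousComponent_isHomogeneous _ _, homogeneousComponent_isHomogeneous _ _, ?_⟩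
  rw [← Len_hc_mul A hF, ← Len_hc_mul B hG, ← homogeneousComponent_eq_self hf, ← hAB, map_add]
  have e1 : d - 2 + c = c + d - 2 := by omega
  have e2 : c - 2 + d = c + d - 2 := by omega
  rw [e1, e2]

/-- a form is the combination of the monomials -/
theorem Len_exp {R : Type} [CommRing R] {t : ℕ} {A : MvPolynomial (Fin 3) R}
    (hA : A.IsHomogeneous t) : A = ∑ m : Mon t, C (coeff m.1 A) * monomial m.1 1 := by
  obtain ⟨b, hb1, hb2⟩ := exists_basisMon R t
  have h := b.sum_repr (HS.mk A hA)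
  have h2 := congrArg HS.val h
  rw [HS.val_sum] at h2
  rw [HS.val_mk] at h2
  conv_lhs => rw [← h2]
  refine Finset.sum_congr rfl fun m _ => ?_
  rw [HS.val_smul, hb1, hb2, HS.val_mk]

/-- the rows of the big determinant as forms -/
noncomputable def Len_row {R I : Type} [CommRing R] {c d : ℕ} (F G : MvPolynomial (Fin 3) R)
    (β : I → MvPolynomial (Fin 3) R) :
    (Mon (d - 2) ⊕ Mon (c - 2)) ⊕ I → MvPolynomial (Fin 3) R :=
  Sum.elim (Sum.elim (fun m => monomial m.1 (1 : R) * F) (fun m => monomial m.1 (1 : R) * G)) β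

theorem Len_row_hom {R I : Type} [CommRing R] {c d : ℕ} {F G : MvPolynomial (Fin 3) R}
    (hF : F.IsHomogeneous c) (hG : G.IsHomogeneous d) (hc : 2 ≤ c) (hcd : c ≤ d)
    {β : I → MvPolynomial (Fin 3) R} (hβ : ∀ i, (β i).IsHomogeneous (c + d - 2))
    (r : (Mon (d - 2) ⊕ Mon (c - 2)) ⊕ I) : (Len_row F G β r).IsHomogeneous (c + d - 2) := by
  rcases r with (m | m) | i
  · have h := (isHomogeneous_monomial (1 : R) (Len_deg m)).mul hF
    have e1 : d - 2 + c = c + d - 2 := by omega
    rw [e1] at h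
    exact h
  · have h := (isHomogeneous_monomial (1 : R) (Len_deg m)).mul hG
    have e1 : c - 2 + d = c + d - 2 := by omega
    rw [e1] at h
    exact h
  · exact hβ i

/-- the rows of the big determinant in the module of forms -/
noncomputable def Len_u {R I : Type} [CommRing R] {c d : ℕ} {F G : MvPolynomial (Fin 3) R}
    (hF : F.IsHomogeneous c) (hG : G.IsHomogeneous d) (hc : 2 ≤ c) (hcd : c ≤ d)
    {β : I → MvPolynomial (Fin 3) R} (hβ : ∀ i, (β i).IsHomogeneous (c + d - 2))
    (r : (Mon (d - 2) ⊕ Mon (c - 2)) ⊕ I) : HS R (c + d - 2) :=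
  HS.mk (Len_row F G β r) (Len_row_hom hF hG hc hcd hβ r)

theorem Len_mat {R I : Type} [CommRing R] [Fintype I] [DecidableEq I] {c d : ℕ}
    (e : (Mon (d - 2) ⊕ Mon (c - 2)) ⊕ I ≃ Mon (c + d - 2)) {F G : MvPolynomial (Fin 3) R}
    (hF : F.IsHomogeneous c) (hG : G.IsHomogeneous d) (hc : 2 ≤ c) (hcd : c ≤ d)
    {β : I → MvPolynomial (Fin 3) R} (hβ : ∀ i, (β i).IsHomogeneous (c + d - 2)) :
    ∃ b : Module.Basis ((Mon (d - 2) ⊕ Mon (c - 2)) ⊕ I) R (HS R (c + d - 2)),
      (b.toMatrix (Len_u hF hG hc hcd hβ)).det = bigDet e F G β := by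
  obtain ⟨b, hb1, hb2⟩ := exists_basisMon R (c + d - 2)
  refine ⟨b.reindex e.symm, ?_⟩
  unfold bigDet
  rw [← Matrix.det_transpose]
  congr 1
  ext r s
  rw [Matrix.transpose_apply, Module.Basis.toMatrix_apply, Module.Basis.repr_reindex_apply,
    Equiv.symm_symm, hb2]
  rfl

/-- combinations of the rows -/
theorem Len_comb {R I : Type} [CommRing R] [Fintype I] {c d : ℕ} (F G : MvPolynomial (Fin 3) R)
    (β : I → MvPolynomial (Fin 3) R) (v : (Mon (d - 2) ⊕ Mon (c - 2)) ⊕ I → R) :
    ∑ r, C (v r) * Len_row F G β r =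
      (∑ m : Mon (d - 2), C (v (Sum.inl (Sum.inl m))) * monomial m.1 1) * F +
        (∑ m : Mon (c - 2), C (v (Sum.inl (Sum.inr m))) * monomial m.1 1) * G +
        ∑ i, C (v (Sum.inr i)) * β i := by
  rw [Fintype.sum_sum_type, Fintype.sum_sum_type, Finset.sum_mul, Finset.sum_mul]
  unfold Len_row
  simp only [Sum.elim_inl, Sum.elim_inr, mul_assoc]

theorem Len_coeff {R : Type} [CommRing R] {t : ℕ} (w : Mon t → R) (m : Mon t) :
    coeff m.1 (∑ m' : Mon t, C (w m') * monomial m'.1 1) = w m := by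
  rw [coeff_sum, Finset.sum_eq_single m]
  · rw [coeff_C_mul, coeff_monomial, if_pos rfl, mul_one]
  · intro m' _ hm'
    rw [coeff_C_mul, coeff_monomial, if_neg (fun h => hm' (Subtype.ext h)), mul_zero]
  · intro h
    exact absurd (Finset.mem_univ m) h

theorem Len_hom {R : Type} [CommRing R] {t : ℕ} (w : Mon t → R) :
    (∑ m' : Mon t, C (w m') * monomial m'.1 (1 : R)).IsHomogeneous t :=
  IsHomogeneous.sum _ _ _ fun m _ => (isHomogeneous_monomial (1 : R) (Len_deg m)).C_mul _

theorem Len_G_ne (S : GeoS O k I D0) {F G : MvPolynomial (Fin 3) O}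
    {Γ F' G' : MvPolynomial (Fin 3) k} (h : SatS S c d F G Γ F' G' kk) : G ≠ 0 := by
  rintro rfl
  have h1 := h.eG
  rw [map_zero] at h1
  exact mul_ne_zero h.nzΓ h.nzG h1.symm

theorem Len_F_ne (S : GeoS O k I D0) {F G : MvPolynomial (Fin 3) O}
    {Γ F' G' : MvPolynomial (Fin 3) k} (h : SatS S c d F G Γ F' G' kk) : F ≠ 0 := by
  rintro rfl
  have h1 := h.eF
  rw [map_zero] at h1
  exact mul_ne_zero h.nzΓ h.nzF h1.symm

theorem Len_Jn (S : GeoS O k I D0) {F G : MvPolynomial (Fin 3) O}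
    {Γ F' G' : MvPolynomial (Fin 3) k} (h : SatS S c d F G Γ F' G' kk)
    {n : ℕ} (hn : IsLast S F G n) (t : ℕ) :
    JJ S.pi F G t n = LinearMap.ker (evHom S.v t) := by
  ext f
  rw [mem_JJ, LinearMap.mem_ker]
  constructor
  · intro hf
    funext z
    exact vanish_of_InI h.pair ⟨n, hf⟩ z
  · intro hf
    exact hn.1 _ (InI_of_vanish h.pair f.prop fun z => congrFun hf z)

theorem tau_le (S : GeoS O k I D0) {F G : MvPolynomial (Fin 3) O}
    {Γ F' G' : MvPolynomial (Fin 3) k} (h : SatS S c d F G Γ F' G' kk) (hc : 2 ≤ c) (hcd : c ≤ d)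
    {n : ℕ} (hn : IsLast S F G n)
    {Δ E : ℕ → MvPolynomial (Fin 3) k} {lam : ℕ → ℕ} (hp : PsiData S F G Γ F' G' kk n Δ E lam) :
    Module.length O (LinearMap.ker (evHom S.v (c + d - 2)) ⧸
      (JJ S.pi F G (c + d - 2) 0).submoduleOf (LinearMap.ker (evHom S.v (c + d - 2)))) ≤
      ((∑ i ∈ Finset.Icc 1 n, (lam i).choose 2 : ℕ) : ℕ∞) := by
  classical
  rw [← Len_Jn S h hn (c + d - 2)]
  have hsum : ∑ i ∈ Finset.Icc 1 n, (lam i).choose 2 =
      ∑ i ∈ Finset.range n, (lam (i + 1)).choose 2 := by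
    rw [Finset.range_eq_Ico, Finset.sum_Ico_add' (fun i => (lam i).choose 2) 0 n 1]
    rfl
  rw [hsum]
  refine length_chain_le S.rho S.surj S.ker (JJ S.pi F G (c + d - 2)) ?_ ?_
    (fun i => (lam (i + 1)).choose 2) ?_ n
  · intro i f hf
    rw [mem_JJ] at hf ⊢
    rw [pow_succ', C_mul, mul_assoc]
    exact Ideal.mul_mem_left _ _ hf
  · intro i f hf
    rw [mem_JJ] at hf ⊢
    rw [HS.val_smul, ← mul_assoc, ← C_mul, ← pow_succ]
    exact hf
  · intro i x hx
    have hi : 1 ≤ i + 1 := by omega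
    choose q hq1 hq2 hq3 using fun j => rel_exists_hom h hi (x j).prop (hx j)
    rcases Nat.lt_or_ge kk 2 with hk | hk
    · refine ⟨Pi.single 0 1, ⟨0, ?_⟩, ?_⟩
      · rw [Pi.single_eq_same]
        exact fun hd => S.prime.not_isUnit (isUnit_of_dvd_one hd)
      · rw [Finset.sum_eq_single 0]
        · rw [Pi.single_eq_same, one_smul, mem_JJ]
          refine rel_down h (q := 0) ?_
          rw [mul_zero, ← hq3 0 (by omega)]
          exact hq1 0
        · intro j _ hj
          rw [Pi.single_eq_of_ne hj, zero_smul]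
        · intro h0
          exact absurd (Finset.mem_univ _) h0
    · have hs : c + d - 2 + kk - (c + d) = kk - 2 := by omega
      have hqh : ∀ j, (q j).IsHomogeneous (kk - 2) := fun j => hs ▸ hq2 j (by omega)
      have hle := hp.le (i + 1) hi
      have hm : nz (((kk - 2 : ℕ) : ℤ) - ((kk - lam (i + 1) : ℕ) : ℤ)) ≤
          (lam (i + 1)).choose 2 + nz (((kk - 2 : ℕ) : ℤ) - (kk : ℤ)) := by
        have e1 : ((kk - 2 : ℕ) : ℤ) - ((kk - lam (i + 1) : ℕ) : ℤ) = (lam (i + 1) : ℤ) - 2 := by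
          omega
        rw [e1, nz_small]
        exact Nat.le_add_right _ _
      obtain ⟨a', ha', hdv⟩ := dep_mod (Δ (i + 1)) Γ (kk - lam (i + 1)) kk (hp.hΔ _ hi) h.hΓ
        ⟨E (i + 1), hp.fac _ hi⟩ h.nzΓ (kk - 2) ((lam (i + 1)).choose 2) hm q hqh
        fun j => hp.dvd _ hi _ _ (hq1 j)
      choose a ha using fun j => S.surj (a' j)
      obtain ⟨j0, hj0⟩ : ∃ j, a' j ≠ 0 := by
        by_contra hcon
        push Not at hcon
        exact ha' (funext hcon)
      refine ⟨a, ⟨j0, fun hd => hj0 ?_⟩, ?_⟩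
      · rw [← ha j0]
        exact (S.ker _).2 hd
      · rw [mem_JJ]
        obtain ⟨q', hq'⟩ := hdv
        refine rel_down h (q := q') ?_
        rw [← hq', HS.val_sum]
        have key : ∀ s : Finset (Fin ((lam (i + 1)).choose 2 + 1)),
            Rel S F G F' G' (i + 1) (∑ j ∈ s, (a j • x j).val) (∑ j ∈ s, C (a' j) * q j) := by
          intro s
          induction s using Finset.induction_on with
          | empty =>
            have h0 := rel_syz h (i + 1) 0
            rw [mul_zero] at h0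
            rw [Finset.sum_empty, Finset.sum_empty]
            exact h0
          | insert j s hj ih =>
            rw [Finset.sum_insert hj, Finset.sum_insert hj]
            refine rel_add ?_ ih
            have h1 := rel_smul (hq1 j) (C (a j))
            rw [map_C, ha j] at h1
            rw [HS.val_smul]
            exact h1
        exact key Finset.univ

theorem bigDet_ne (S : GeoS O k I D0) {F G : MvPolynomial (Fin 3) O}
    {Γ F' G' : MvPolynomial (Fin 3) k} (h : SatS S c d F G Γ F' G' kk) (hc : 2 ≤ c) (hcd : c ≤ d)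
    (e : (Mon (d - 2) ⊕ Mon (c - 2)) ⊕ I ≃ Mon (c + d - 2)) (β : I → MvPolynomial (Fin 3) O)
    (hβ : ∀ i, (β i).IsHomogeneous (c + d - 2))
    (hdet : Matrix.det (Matrix.of fun i z => eval (S.v z) (β i)) ≠ 0) : bigDet e F G β ≠ 0 := by
  classical
  intro h0
  obtain ⟨w, hw0, hw⟩ := Matrix.exists_vecMul_eq_zero_iff.2 h0
  -- the combination of the rows vanishes
  have hcomb : ∑ r, C (w r) * Len_row F G β r = 0 := by
    have hhom : (∑ r, C (w r) * Len_row F G β r).IsHomogeneous (c + d - 2) :=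
      IsHomogeneous.sum _ _ _ fun r _ =>
        (Len_row_hom h.pair.hF h.pair.hG hc hcd hβ r).C_mul _
    rw [Len_exp hhom]
    refine Finset.sum_eq_zero fun m _ => ?_
    have h1 := congrFun hw (e.symm m)
    rw [Matrix.vecMul, dotProduct] at h1
    have h2 : coeff m.1 (∑ r, C (w r) * Len_row F G β r) = 0 := by
      rw [coeff_sum]
      refine Eq.trans (Finset.sum_congr rfl fun r _ => ?_) h1
      rw [coeff_C_mul]
      show w r * _ = w r * coeff (e (e.symm m)).1 _
      rw [e.apply_symm_apply]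
      rfl
    rw [h2, C_0, zero_mul]
  rw [Len_comb] at hcomb
  -- evaluation
  have hI : (fun i => w (Sum.inr i)) = 0 := by
    refine Matrix.eq_zero_of_vecMul_eq_zero hdet ?_
    funext z
    have h1 := congrArg (eval (S.v z)) hcomb
    rw [map_add, map_add, map_mul, map_mul, h.pair.vF, h.pair.vG, mul_zero, mul_zero, zero_add,
      zero_add, map_sum, map_zero] at h1
    rw [Matrix.vecMul, dotProduct]
    refine Eq.trans (Finset.sum_congr rfl fun i _ => ?_) h1
    rw [map_mul, eval_C]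
    rfl
  have hI' : ∀ i, w (Sum.inr i) = 0 := fun i => congrFun hI i
  have h3 : ∑ i, C (w (Sum.inr i)) * β i = 0 :=
    Finset.sum_eq_zero fun i _ => by rw [hI', C_0, zero_mul]
  rw [h3, add_zero] at hcomb
  obtain ⟨r, hr1, hr2⟩ := kosO h _ _ hcomb
  have hA : ∑ m : Mon (d - 2), C (w (Sum.inl (Sum.inl m))) * monomial m.1 (1 : O) = 0 := by
    by_contra hne
    have h4 := (Len_hom fun m : Mon (d - 2) => w (Sum.inl (Sum.inl m))).totalDegree hne
    have hr0 : r ≠ 0 := by
      rintro rfl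
      rw [zero_mul] at hr1
      exact hne hr1
    rw [hr1, totalDegree_mul_of_isDomain hr0 (Len_G_ne S h),
      h.pair.hG.totalDegree (Len_G_ne S h)] at h4
    omega
  have hr0 : r = 0 := by
    rw [hA] at hr1
    exact (mul_eq_zero.1 hr1.symm).resolve_right (Len_G_ne S h)
  have hB : ∑ m : Mon (c - 2), C (w (Sum.inl (Sum.inr m))) * monomial m.1 (1 : O) = 0 := by
    rw [hr2, hr0, zero_mul, neg_zero]
  apply hw0
  funext r'
  rcases r' with (m | m) | i
  · have h5 := Len_coeff (fun m : Mon (d - 2) => w (Sum.inl (Sum.inl m))) m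
    rw [hA, coeff_zero] at h5
    exact h5.symm
  · have h5 := Len_coeff (fun m : Mon (c - 2) => w (Sum.inl (Sum.inr m))) m
    rw [hB, coeff_zero] at h5
    exact h5.symm
  · exact hI' i

theorem len_bigDet (S : GeoS O k I D0) {F G : MvPolynomial (Fin 3) O}
    {Γ F' G' : MvPolynomial (Fin 3) k} (h : SatS S c d F G Γ F' G' kk) (hc : 2 ≤ c) (hcd : c ≤ d)
    (e : (Mon (d - 2) ⊕ Mon (c - 2)) ⊕ I ≃ Mon (c + d - 2))
    (β : I → HS O (c + d - 2))
    (hb : bigDet e F G (fun i => (β i).val) ≠ 0) :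
    Module.length O (HS O (c + d - 2) ⧸
      (JJ S.pi F G (c + d - 2) 0 ⊔ Submodule.span O (Set.range β))) =
      ((multiplicity S.pi (bigDet e F G (fun i => (β i).val)) : ℕ) : ℕ∞) := by
  classical
  have hβ : ∀ i, ((fun i => (β i).val) i).IsHomogeneous (c + d - 2) := fun i => (β i).prop
  obtain ⟨b, hbm⟩ := Len_mat e h.pair.hF h.pair.hG hc hcd hβ
  have h1 := length_mod_det S.prime b (Len_u h.pair.hF h.pair.hG hc hcd hβ) (by
    rw [hbm]
    exact hb)
  rw [hbm] at h1
  rw [← h1]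
  have hspan : JJ S.pi F G (c + d - 2) 0 ⊔ Submodule.span O (Set.range β) =
      Submodule.span O (Set.range (Len_u h.pair.hF h.pair.hG hc hcd hβ)) := by
    set u := Len_u h.pair.hF h.pair.hG hc hcd hβ with hu
    have huβ : ∀ i, u (Sum.inr i) = β i := fun i => HS.ext rfl
    have hmem : ∀ r, u r ∈ Submodule.span O (Set.range u) := fun r =>
      Submodule.subset_span ⟨r, rfl⟩
    apply le_antisymm
    · apply sup_le
      · intro f hf
        obtain ⟨A, B, hA, hB, hAB⟩ := Len_J0 S.pi h.pair.hF h.pair.hG hc hcd f.prop hf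
        have h2 : f = ∑ m : Mon (d - 2), coeff m.1 A • u (Sum.inl (Sum.inl m)) +
            ∑ m : Mon (c - 2), coeff m.1 B • u (Sum.inl (Sum.inr m)) := by
          apply HS.ext
          rw [HS.val_add, HS.val_sum, HS.val_sum, hAB]
          conv_lhs => rw [Len_exp hA, Len_exp hB]
          rw [Finset.sum_mul, Finset.sum_mul]
          refine congrArg₂ (· + ·) ?_ ?_
          · refine Finset.sum_congr rfl fun m _ => ?_
            rw [HS.val_smul, mul_assoc]
            rfl
          · refine Finset.sum_congr rfl fun m _ => ?_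
            rw [HS.val_smul, mul_assoc]
            rfl
        rw [h2]
        exact Submodule.add_mem _
          (Submodule.sum_mem _ fun m _ => Submodule.smul_mem _ _ (hmem _))
          (Submodule.sum_mem _ fun m _ => Submodule.smul_mem _ _ (hmem _))
      · rw [Submodule.span_le]
        rintro _ ⟨i, rfl⟩
        rw [← huβ i]
        exact hmem _
    · rw [Submodule.span_le]
      rintro _ ⟨r, rfl⟩
      rcases r with (m | m) | i
      · refine Submodule.mem_sup_left ?_
        rw [mem_JJ]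
        exact Ideal.mul_mem_left _ _ (Ideal.mul_mem_left _ _ (Ideal.subset_span (by simp)))
      · refine Submodule.mem_sup_left ?_
        rw [mem_JJ]
        exact Ideal.mul_mem_left _ _ (Ideal.mul_mem_left _ _ (Ideal.subset_span (by simp)))
      · refine Submodule.mem_sup_right ?_
        rw [huβ]
        exact Submodule.subset_span ⟨i, rfl⟩
  rw [hspan]

theorem det_le (S : GeoS O k I D0) {F G : MvPolynomial (Fin 3) O}
    {Γ F' G' : MvPolynomial (Fin 3) k} (h : SatS S c d F G Γ F' G' kk) (hc : 2 ≤ c) (hcd : c ≤ d)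
    {n : ℕ} (hn : IsLast S F G n)
    {Δ E : ℕ → MvPolynomial (Fin 3) k} {lam : ℕ → ℕ} (hp : PsiData S F G Γ F' G' kk n Δ E lam)
    (e : (Mon (d - 2) ⊕ Mon (c - 2)) ⊕ I ≃ Mon (c + d - 2)) (β : I → MvPolynomial (Fin 3) O)
    (hβ : ∀ i, (β i).IsHomogeneous (c + d - 2))
    (hdet : Matrix.det (Matrix.of fun i z => eval (S.v z) (β i)) ≠ 0) :
    bigDet e F G β ≠ 0 ∧ multiplicity S.pi (bigDet e F G β) ≤
      multiplicity S.pi (Matrix.det (Matrix.of fun i z => eval (S.v z) (β i))) +
        ∑ i ∈ Finset.Icc 1 n, (lam i).choose 2 := by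
  classical
  have hne := bigDet_ne S h hc hcd e β hβ hdet
  refine ⟨hne, ?_⟩
  have h1 := len_bigDet S h hc hcd e (fun i => HS.mk (β i) (hβ i)) hne
  have hL0 : JJ S.pi F G (c + d - 2) 0 ≤ LinearMap.ker (evHom S.v (c + d - 2)) := by
    intro f hf
    rw [LinearMap.mem_ker]
    funext z
    exact vanish_of_InI h.pair ⟨0, hf⟩ z
  have h2 := length_split S.prime (evHom S.v (c + d - 2)) (JJ S.pi F G (c + d - 2) 0) hL0
    (fun i => HS.mk (β i) (hβ i)) hdet
  rw [h1] at h2
  have h3 := h2.trans (add_le_add_right (tau_le S h hc hcd hn hp) _)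
  exact_mod_cast h3

end GP80

end S_H80_GP_Len

section S_H80_GP_Wsum

/-!
# Row Wsum (MP_87ed0a_GP): the inequality (W) of 1.6  (about 150 lines)

Claim: `∑_{1≤i≤n} lam i (c + d - lam i) ≤ ∑_z multiplicity pi (J z)`.

Proof.  `t = c + d - 2`, `E_z` from `exists_Ez` (`E_z(v z) = J z ≠ 0` by `J_ne_zero`, `E_z(v z') = 0` otherwise, `E_z f ∈ (F,G)` for `InI f`).  Put `β z := E_z`.
`ev β` is the diagonal matrix of the `J z`, so its determinant is `∏ J z ≠ 0`, of multiplicity `∑ multiplicity (J z)`.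
Upper bound: `length_split` (La3) with `L0 = JJ S.pi F G t 0` and `tau_le`:
`length (M/A) ≤ ∑ multiplicity (J z) + ∑ (lam i).choose 2`, `A := JJ .. 0 ⊔ span β`.
Lower bound: `length_ge_layers` (La2) with `red = redHom`, `W i := mulSub (E (i+1)) t`: if `pi^i x ∈ A`, i.e.
`pi^i x = j + ∑ a_z E_z` with `j ∈ (F,G)`, then for `Rel (i+1) f q`: `pi^i x f ∈ (F,G)` because `InI f` (`InI_of_rel`), and `Rel (i+1) (x f) (rho x q)`, so
`Γ ∣ rho x * q` (`rel_dvd`), hence `E (i+1) ∣ rho x` (`ann`).  `finrank (W i) = nz (t - lam (i+1))` (`finrank_mul`; `E (i+1) ≠ 0`), `finrank Mb = nn t`.  So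
`∑_{i=1}^n (nn t - nz (t - lam i)) ≤ length (M/A)`.
`ari_sum`: `nn t - nz (t - lam i) = lam i (c+d-lam i) + (lam i).choose 2` (`lam i ≤ kk < c`).  Cancel.
-/

namespace GP80

open MvPolynomial

theorem Wsum_shift (f : ℕ → ℕ) (n : ℕ) :
    ∑ i ∈ Finset.range n, f (i + 1) = ∑ i ∈ Finset.Icc 1 n, f i := by
  induction n with
  | zero => simp
  | succ n ih => rw [Finset.sum_range_succ, ih, Finset.sum_Icc_succ_top (by omega)]

theorem Wsum_surj {O k : Type} [CommRing O] [Field k] (rho : O →+* k)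
    (hs : Function.Surjective rho) (t : ℕ) : Function.Surjective (redHom rho t) := by
  intro g
  have hf : (∑ m ∈ g.val.support, monomial m (Function.surjInv hs (coeff m g.val)) :
      MvPolynomial (Fin 3) O).IsHomogeneous t := by
    refine IsHomogeneous.sum _ _ _ fun m hm => ?_
    refine isHomogeneous_monomial _ ?_
    have h1 := g.prop (mem_support_iff.1 hm)
    rw [Finsupp.degree_eq_weight_one]
    exact h1
  refine ⟨HS.mk _ hf, ?_⟩
  ext1
  rw [redHom_val, HS.val_mk, map_sum]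
  have h2 : ∀ m ∈ g.val.support, map rho (monomial m (Function.surjInv hs (coeff m g.val))) =
      monomial m (coeff m g.val) := by
    intro m _
    rw [map_monomial, Function.surjInv_eq hs]
  rw [Finset.sum_congr rfl h2]
  exact support_sum_monomial_coeff g.val

theorem Wsum_mult {O I : Type} [CommRing O] [IsDomain O] [IsDiscreteValuationRing O]
    {p : O} (hp : Prime p) (J : I → O) (hJ : ∀ z, J z ≠ 0) (s : Finset I) :
    multiplicity p (∏ z ∈ s, J z) = ∑ z ∈ s, multiplicity p (J z) := by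
  classical
  induction s using Finset.induction_on with
  | empty =>
    rw [Finset.prod_empty, Finset.sum_empty]
    exact multiplicity_eq_zero.2 fun h => hp.not_isUnit (isUnit_of_dvd_one h)
  | insert a s ha ih =>
    rw [Finset.prod_insert ha, Finset.sum_insert ha, ← ih]
    refine multiplicity_mul hp ?_
    refine FiniteMultiplicity.of_not_isUnit hp.not_isUnit ?_
    exact mul_ne_zero (hJ a) (Finset.prod_ne_zero_iff.2 fun z _ => hJ z)

theorem w_sum {O k I : Type} [CommRing O] [IsDomain O] [IsDiscreteValuationRing O] [Field k]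
    [Fintype I] [DecidableEq I] {D0 c d kk : ℕ} (S : GeoS O k I D0) {F G : MvPolynomial (Fin 3) O}
    {Γ F' G' : MvPolynomial (Fin 3) k} (h : SatS S c d F G Γ F' G' kk) (hc : 2 ≤ c) (hcd : c ≤ d)
    {n : ℕ} (hn : IsLast S F G n)
    {Δ E : ℕ → MvPolynomial (Fin 3) k} {lam : ℕ → ℕ} (hp : PsiData S F G Γ F' G' kk n Δ E lam)
    (J : I → O) (hJ : ∀ z, IsJ3 F G (S.v z) (J z)) :
    ∑ i ∈ Finset.Icc 1 n, lam i * (c + d - lam i) ≤ ∑ z, multiplicity S.pi (J z) := by
  classical
  obtain ⟨t, ht⟩ : ∃ t, t = c + d - 2 := ⟨_, rfl⟩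
  have hGne : map S.rho G ≠ 0 := by
    rw [h.eG]
    exact mul_ne_zero h.nzΓ h.nzG
  have hJne : ∀ z, J z ≠ 0 := fun z => J_ne_zero S h.pair (by omega) (by omega) z (hJ z)
  have hE1 : ∀ z, ∃ Ez : MvPolynomial (Fin 3) O, Ez.IsHomogeneous t ∧ eval (S.v z) Ez = J z ∧
      (∀ z', z' ≠ z → eval (S.v z') Ez = 0) ∧
      (∀ f, InI S F G f → Ez * f ∈ Ideal.span {F, G}) := by
    intro z
    obtain ⟨u, w, F1, F2, G1, G2, -, -, -, -, -, -, -, -, -, -, -, q1, q2, q3, -, q4⟩ :=
      exists_Ez S h.pair hc (hc.trans hcd) hGne z (hJ z)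
    rw [← ht] at q1
    exact ⟨F1 * G2 - F2 * G1, q1, q2, q3, q4⟩
  choose Ez e1 e2 e3 e4 using hE1
  obtain ⟨β, hβ⟩ : ∃ β : I → HS O t, ∀ z, (β z).val = Ez z :=
    ⟨fun z => HS.mk (Ez z) (e1 z), fun z => rfl⟩
  have hmat : (Matrix.of fun i => evHom S.v t (β i)) = Matrix.diagonal J := by
    ext i j
    rw [Matrix.of_apply, evHom_apply, hβ, Matrix.diagonal_apply]
    by_cases hij : i = j
    · rw [if_pos hij, ← hij, e2]
    · rw [if_neg hij, e3 i j fun h1 => hij h1.symm]
  have hdet : (Matrix.of fun i => evHom S.v t (β i)).det = ∏ z, J z := by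
    rw [hmat, Matrix.det_diagonal]
  have hdet0 : (Matrix.of fun i => evHom S.v t (β i)).det ≠ 0 := by
    rw [hdet]
    exact Finset.prod_ne_zero_iff.2 fun z _ => hJne z
  have hL0 : JJ S.pi F G t 0 ≤ LinearMap.ker (evHom S.v t) := by
    intro f hf
    rw [LinearMap.mem_ker]
    funext z
    rw [evHom_apply]
    exact vanish_of_InI h.pair ⟨0, hf⟩ z
  have hup := length_split S.prime (evHom S.v t) (JJ S.pi F G t 0) hL0 β hdet0
  have htau := tau_le S h hc hcd hn hp
  rw [← ht] at htau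
  -- the lower bound
  have hlow := length_ge_layers S.rho S.surj S.ker (redHom S.rho t) (Wsum_surj S.rho S.surj t)
    (JJ S.pi F G t 0 ⊔ Submodule.span O (Set.range β)) n (fun i => mulSub (E (i + 1)) t) (by
      intro i _ x hx
      obtain ⟨y, hy, w, hw, hyw⟩ := Submodule.mem_sup.1 hx
      obtain ⟨a, ha⟩ := (Submodule.mem_span_range_iff_exists_fun O).1 hw
      show E (i + 1) ∣ (redHom S.rho t x).val
      rw [redHom_val]
      refine hp.ann (i + 1) (by omega) _ fun f q hfq => ?_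
      refine rel_dvd h (rel_smul hfq x.val) ?_
      have hI : InI S F G f := InI_of_rel hfq
      have hv : C (S.pi ^ i) * x.val = y.val + ∑ z, C (a z) * Ez z := by
        have h1 := congrArg HS.val hyw
        rw [HS.val_add, ← ha, HS.val_sum, HS.val_smul] at h1
        rw [← h1]
        congr 1
        refine Finset.sum_congr rfl fun z _ => ?_
        rw [HS.val_smul, hβ]
      rw [← mul_assoc, hv, add_mul, Finset.sum_mul]
      refine Ideal.add_mem _ ?_ (Ideal.sum_mem _ fun z _ => ?_)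
      · refine Ideal.mul_mem_right _ _ ?_
        have h2 : C (S.pi ^ 0) * y.val ∈ Ideal.span {F, G} := hy
        rwa [pow_zero, C_1, one_mul] at h2
      · rw [mul_assoc]
        exact Ideal.mul_mem_left _ _ (e4 z f hI))
  have hcomb := hlow.trans (hup.trans (add_le_add le_rfl htau))
  have hnat : ∑ i ∈ Finset.range n, (Module.finrank k (HS k t) -
      Module.finrank k (mulSub (E (i + 1)) t)) ≤
      multiplicity S.pi (Matrix.of fun i => evHom S.v t (β i)).det +
        ∑ i ∈ Finset.Icc 1 n, (lam i).choose 2 := by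
    exact_mod_cast hcomb
  rw [hdet, Wsum_mult S.prime J hJne Finset.univ] at hnat
  have hterm : ∀ i ∈ Finset.range n, Module.finrank k (HS k t) -
      Module.finrank k (mulSub (E (i + 1)) t) =
      lam (i + 1) * (c + d - lam (i + 1)) + (lam (i + 1)).choose 2 := by
    intro i _
    have hne : E (i + 1) ≠ 0 := by
      intro h0
      have h1 := hp.fac (i + 1) (by omega)
      rw [h0, mul_zero] at h1
      exact h.nzΓ h1
    rw [finrank_hs, finrank_mul (E (i + 1)) (lam (i + 1)) (hp.hE (i + 1) (by omega)) hne t]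
    have h2 := ari_sum c d (lam (i + 1)) (lt_of_le_of_lt (hp.le (i + 1) (by omega)) h.lt) hcd
    rw [← ht] at h2
    rw [h2]
    omega
  rw [Finset.sum_congr rfl hterm,
    Wsum_shift (fun i => lam i * (c + d - lam i) + (lam i).choose 2) n,
    Finset.sum_add_distrib] at hnat
  omega

end GP80

end S_H80_GP_Wsum

section S_H80_GP_Loc

/-!
# Row Loc (MP_87ed0a_GP): the local theorem, assembly of section 1  (about 60 lines)

`exists_last`, `exists_psi`; if `n ≥ 1`: `theta_eq` gives `g`; `tail` by `tail_bound`, `om` by `J_dvd` (`multiplicity` of a divisor of `pi^n`, `J z ≠ 0`), `sum` by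
`w_sum`, `det` by `det_le`, `up` by `le` and `kk < c`.  If `n = 0`: take `g = 0`; `multiplicity (J z) ≤ 0` by `J_dvd`.
-/

namespace GP80

open MvPolynomial

theorem Loc_mult {O : Type} [CommRing O] [IsDomain O] {p a : O} (hp : Prime p) {n : ℕ}
    (h : a ∣ p ^ n) : multiplicity p a ≤ n := by
  have h1 : p ^ multiplicity p a ∣ p ^ n := (pow_multiplicity_dvd p a).trans h
  exact (pow_dvd_pow_iff hp.ne_zero hp.not_isUnit).mp h1

theorem loc_main {O k I : Type} [CommRing O] [IsDomain O] [IsDiscreteValuationRing O] [Field k]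
    [CharZero k] [Fintype I] [DecidableEq I] {c d kk : ℕ} (S : GeoS O k I (c + d - 1))
    {F G : MvPolynomial (Fin 3) O} {Γ F' G' : MvPolynomial (Fin 3) k}
    (h : SatS S c d F G Γ F' G' kk) (hc : 2 ≤ c) (hcd : c ≤ d) (hN : Fintype.card I = c * d)
    (J : I → O) (hJ : ∀ z, IsJ3 F G (S.v z) (J z)) :
    ∃ (g n : ℕ) (lam : ℕ → ℕ), LocOut S c d F G J g n lam := by
  obtain ⟨n, hn⟩ := exists_last S F G
  obtain ⟨Δ, E, lam, hp⟩ := exists_psi S h hn
  have hom : ∀ z, multiplicity S.pi (J z) ≤ n := fun z =>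
    Loc_mult S.prime (J_dvd S h hc hcd hn z (hJ z))
  have hmain : ∃ g : ℕ, g ≤ n ∧ (∀ z, S.Lz z ≠ 0 → multiplicity S.pi (J z) = g) ∧
      (g < n → lam (g + 1) * (c + d - lam (g + 1)) ≤ Nat.card {z : I // S.Lz z = 0}) := by
    rcases Nat.eq_zero_or_pos n with h0 | h1
    · refine ⟨0, Nat.zero_le _, fun z _ => ?_, fun hlt => ?_⟩
      · have := hom z
        omega
      · omega
    · obtain ⟨g, hg, hnv, hD⟩ := theta_eq S h hc hcd hN hn h1 J hJ
      exact ⟨g, hg, hnv, fun hlt => tail_bound S h hc hcd hN hn hp hlt hD⟩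
  obtain ⟨g, hg, hnv, htail⟩ := hmain
  refine ⟨g, n, lam, hnv, hg, htail, hom, w_sum S h hc hcd hn hp J hJ, hp.pos, ?_, hp.anti, ?_, ?_⟩
  · intro i hi
    exact lt_of_le_of_lt (hp.le i hi) h.lt
  · intro z
    exact J_ne_zero S h.pair (by omega) (by omega) z (hJ z)
  · intro e β hβ hdet
    exact det_le S h hc hcd hn hp e β hβ hdet

end GP80

end S_H80_GP_Loc
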