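import Mathlib
import Pool.Agent.H80.M87.G02
import Pool.Agent.H80.M87.G07
import Pool.Agent.H80.M87.G09
import Pool.Agent.H80.M87.G10
import Pool.Agent.H80.M87.G11
import Pool.Agent.H80.M87.G18
import Pool.Agent.H80.M87.G19

/-! MP_87ed0a_ag: this file joins several modules to save build time. -/

section S_H80_GP_Prm

/-!
# Row Prm (MP_87ed0a_GP): the output at one prime  (about 200 lines)

`π` a homogeneous prime, `i ∈ {0, 1}` with `π ∤ P_i`, `IsJac i F G (z s) (J s)`.  Instance: `(Ideal.span {π}).IsPrime` (`(Ideal.span_singleton_prime hπ.ne_zero).2 hπ`), `IsDomain (OO π)`,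
`IsDiscreteValuationRing (OO π)` (`OO_dvr`), `CharZero` of the residue field.  `D0 = c + d - 1`; `col_bound` gives `ColB z d`, `d < c + d - 1`.
Steps: `S` from `geo_exists`; `PairS` from `pair_of_glob`; `sat_exists` (`red_ne_zero`) gives `F1, G1, α`; the Jacobians `J1 s` of `(F1, G1)` at `S.v s` (`exists_J3` with `S.unim`); `loc_main` gives `g, n, lam` with `LocOut` for `J1`.
`om s := multiplicity S.pi (J1 s)`, `jj := multiplicity S.pi α`.
* `mult`: `j3_of_jac`: the Jacobian of `(chart F, chart G)` is `algebraMap (J s * P_i * const)`, and it is `α J1 s` (`trans_J`, `unique_J3`).  `multiplicity` of a product of nonzero elements is the sum (`multiplicity_mul` for a prime with finiteness: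
  `FiniteMultiplicity` in a DVR); `P_i * const` is a unit; `OO_mult`.  `J s ≠ 0` because `α J1 s ≠ 0` (`LocOut.Jne`).
* `nv`, `tail`: `Lz_iff`.  The other numerical fields are copied from `LocOut`.
* `DetOut`: over `OO π`: `β r := chartH (OO π) i (b r)`; `eval (S.v s) (β r) = algebraMap (atz (z s) (b r)) / z_i^t` (`chart_eval`), so `det (β r (v s)) = unit * algebraMap (det atz ..)` (a column `s` is multiplied by the constant
  `1/(z s i)^t`; `Matrix.det_mul_row`), nonzero.  `bigDet e (chartH (OO π) i F) .. = algebraMap (bigDet e (chartH RR i F) ..)` (`chart_map`, `RingHom.map_det`, `coeff_map`).  `trans_bigDet` (Sa3) and `LocOut.det`: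
  `mult (bigDet) = nn (c-2) * mult α + mult (bigDet e F1 G1 β) ≤ nn (c-2) * jj + mult det + ∑ choose`; `nn (c - 2) = c.choose 2` for `c ≥ 2`.
* `JUniq` (for `i = 0`): `deggen_of_sat` for `(F1, G1)`; `jac_unique` (Sa1) with `F1 = chart F` if `c < d` (from `Trans`); associated elements have the same multiplicity.
-/

namespace GP80

open MvPolynomial

theorem Prm_bigDet_map {O O' I : Type} [CommRing O] [CommRing O'] [Fintype I] [DecidableEq I]
    (φ : O →+* O') {c d : ℕ} (e : (Mon (d - 2) ⊕ Mon (c - 2)) ⊕ I ≃ Mon (c + d - 2))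
    (F G : MvPolynomial (Fin 3) O) (β : I → MvPolynomial (Fin 3) O) :
    bigDet e (map φ F) (map φ G) (fun r => map φ (β r)) = φ (bigDet e F G β) := by
  unfold bigDet
  rw [RingHom.map_det]
  congr 1
  ext r s
  simp only [Matrix.of_apply, RingHom.mapMatrix_apply, Matrix.map_apply]
  rw [← coeff_map]
  congr 1
  rcases r with (m | m) | i
  · simp
  · simp
  · simp

theorem Prm_det {I : Type} [Fintype I] [DecidableEq I] {c d : ℕ} {z : I → Fin 4 → ℂ}
    {O : Type} [CommRing O] [Algebra RR O] (i : Fin 4)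
    (hu : IsUnit (algebraMap RR O (X i))) (hz : ∀ s, z s i ≠ 0) (b : I → BB)
    (hb : ∀ r, IsWeightedHomogeneous wx (b r) (c + d - 2) ∧ EE (b r) = 0) :
    algebraMap RR O (Matrix.det (Matrix.of fun r s => atz (z s) (b r))) =
      (∏ s, algebraMap RR O (C (z s i ^ (c + d - 2)))) *
        Matrix.det (Matrix.of fun r s => eval (vz O i (z s)) (chartH O i (b r))) := by
  rw [RingHom.map_det, ← Matrix.det_mul_row]
  congr 1
  ext r s
  simp only [Matrix.of_apply, RingHom.mapMatrix_apply, Matrix.map_apply]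
  exact chart_eval O i hu (hb r).1 (hb r).2 (hz s)

theorem Prm_mul_unit {O : Type} [CommRing O] [IsDomain O] [WfDvdMonoid O] {p a b : O} (hp : Prime p)
    (ha : ¬ p ∣ a) (hb : b ≠ 0) : multiplicity p (a * b) = multiplicity p b := by
  have ha0 : a ≠ 0 := fun h => ha (h ▸ dvd_zero p)
  rw [multiplicity_mul hp (FiniteMultiplicity.of_prime_left hp (mul_ne_zero ha0 hb)),
    multiplicity_eq_zero.2 ha, zero_add]

theorem Prm_nn {c : ℕ} (hc : 2 ≤ c) : nn (c - 2) = c.choose 2 := by
  unfold nn
  rw [Nat.sub_add_cancel hc]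

theorem prime_out {I : Type} [Fintype I] [DecidableEq I] (z : I → Fin 4 → ℂ) (hz : Geom z)
    {c d f f' : ℕ} {F G : BB} (h : Glob z c d f f' F G) {π : RR} (hπ : Prime π) {δ : ℕ}
    (hδ : π.IsHomogeneous δ) (i : Fin 4) (hi : ¬ π ∣ X i) (J : I → RR)
    (hJ : ∀ s, IsJac i F G (z s) (J s)) :
    ∃ (om : I → ℕ) (jj g n : ℕ) (lam : ℕ → ℕ), PrimeOut z c d J π om jj g n lam ∧
      DetOut z c d F G i π jj n lam ∧ (i = 0 → JUniq z c d F π om) := by
  classical
  haveI hpi : (Ideal.span {π} : Ideal RR).IsPrime := (Ideal.span_singleton_prime hπ.ne_zero).2 hπ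
  obtain ⟨hdom, hdvr⟩ := OO_dvr hπ
  haveI := hdom
  haveI := hdvr
  haveI := OO_charZero π
  have hc2 := h.c2
  have hcd := h.cd
  have hcol : ColB z d := col_bound z hz h
  obtain ⟨S, hS1, hS2, hS3, hS4⟩ := geo_exists z hz hπ hδ i hi (m := d) (D0 := c + d - 1) hcol
    (by omega) (by omega)
  have hpair := pair_of_glob z hz h hπ i hi S hS1 hS4
  haveI hne : Nonempty I := by
    rw [← Fintype.card_pos_iff, h.N]
    exact Nat.mul_pos (by omega) (by omega)
  have hFr : c < d → map S.rho (chartH (OO π) i F) ≠ 0 := by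
    intro hlt
    rw [hS2]
    exact red_ne_zero z h hlt hπ i hi
  obtain ⟨F1, G1, α, Γ, F', G', kk, hα, ht, hsat⟩ := sat_exists S hpair hc2 hcd hFr
  have hex : ∀ s, ∃ J1, IsJ3 F1 G1 (S.v s) J1 := fun s =>
    exists_J3 hsat.pair.hF hsat.pair.hG (S.unim s) (hsat.pair.vF s) (hsat.pair.vG s)
  choose J1 hJ1 using hex
  obtain ⟨g, n, lam, hout⟩ := loc_main S hsat hc2 hcd h.N J1 hJ1
  have hu : IsUnit (algebraMap RR (OO π) (X i)) := (OO_unit (X i)).2 hi
  have hv0 : ∀ s, S.v s ≠ 0 := by
    intro s hs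
    obtain ⟨j, hj⟩ := S.unim s
    rw [hs, Pi.zero_apply] at hj
    exact not_isUnit_zero hj
  have hkap : ∀ s, (z s i ^ 3 / z s i ^ (c + d) : ℂ) ≠ 0 := fun s =>
    div_ne_zero (pow_ne_zero _ (hz.co s i)) (pow_ne_zero _ (hz.co s i))
  have hconst : ∀ κ : ℂ, κ ≠ 0 → ¬ π ∣ (C κ : RR) := by
    intro κ hκ hd
    have hunit : IsUnit (C κ : RR) := (isUnit_iff_ne_zero.2 hκ).map C
    exact hπ.not_isUnit (isUnit_of_dvd_unit hd hunit)
  have heq : ∀ s, algebraMap RR (OO π) (J s * X i * C (z s i ^ 3 / z s i ^ (c + d))) =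
      α * J1 s := by
    intro s
    have h1 := j3_of_jac (OO π) i hu (by omega) (by omega) h.Fx h.Gx h.FE h.GE (hz.co s) (hJ s)
    rw [← hS4 s] at h1
    exact unique_J3 (hv0 s) h1 (trans_J ht (hsat.pair.vF s) (hsat.pair.vG s) (hJ1 s))
  have hJne : ∀ s, J s ≠ 0 := by
    intro s hs
    have h1 := heq s
    rw [hs, zero_mul, zero_mul, map_zero] at h1
    exact mul_ne_zero hα (hout.Jne s) h1.symm
  have hPp : Prime S.pi := S.prime
  have hmult : ∀ s, multiplicity π (J s) = multiplicity S.pi (J1 s) + multiplicity S.pi α := by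
    intro s
    have h0 : J s * X i * C (z s i ^ 3 / z s i ^ (c + d)) ≠ 0 :=
      mul_ne_zero (mul_ne_zero (hJne s) (fun hh => hi (hh ▸ dvd_zero π)))
        (fun hh => hconst _ (hkap s) (hh ▸ dvd_zero π))
    have h1 := OO_mult hπ h0
    rw [heq s, ← hS1, multiplicity_mul hPp (FiniteMultiplicity.of_prime_left hPp
      (mul_ne_zero hα (hout.Jne s)))] at h1
    have h2 : multiplicity π (J s * X i * C (z s i ^ 3 / z s i ^ (c + d))) =
        multiplicity π (J s) := by
      have e : J s * X i * C (z s i ^ 3 / z s i ^ (c + d)) =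
          (X i * C (z s i ^ 3 / z s i ^ (c + d))) * J s := by ring
      rw [e]
      refine Prm_mul_unit hπ ?_ (hJne s)
      intro hd
      rcases hπ.dvd_or_dvd hd with hd | hd
      · exact hi hd
      · exact hconst _ (hkap s) hd
    rw [h2] at h1
    omega
  have hLz : ∀ s, S.Lz s = 0 ↔ dz (z s) π = 0 := fun s =>
    Lz_iff z hπ hδ i hi S hS1 hS2 hS3 hS4 s (hz.co s i)
  refine ⟨fun s => multiplicity S.pi (J1 s), multiplicity S.pi α, g, n, lam, ?_, ?_, ?_⟩
  · refine ⟨hmult, hJne, ?_, hout.gn, ?_, hout.om, hout.sum, hout.pos, hout.up, hout.anti⟩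
    · intro s hs
      exact hout.nv s fun hh => hs ((hLz s).1 hh)
    · intro hgn
      have h1 := hout.tail hgn
      have h2 : Nat.card {s : I // S.Lz s = 0} = Nat.card {s : I // dz (z s) π = 0} :=
        Nat.card_congr (Equiv.subtypeEquivRight hLz)
      rw [h2] at h1
      exact h1
  · intro e b hb hdet
    have hβ : ∀ r, (chartH (OO π) i (b r)).IsHomogeneous (c + d - 2) := fun r =>
      chart_homog (OO π) i (hb r).1
    have hdeq := Prm_det (O := OO π) i hu (fun s => hz.co s i) b hb
    have hSv : (Matrix.of fun r s => eval (S.v s) (chartH (OO π) i (b r))) =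
        (Matrix.of fun r s => eval (vz (OO π) i (z s)) (chartH (OO π) i (b r))) := by
      ext r s
      simp only [Matrix.of_apply]
      rw [hS4 s]
    rw [← hSv] at hdeq
    have hprod : ¬ S.pi ∣ ∏ s, algebraMap RR (OO π) (C (z s i ^ (c + d - 2))) := by
      intro hd
      obtain ⟨s, -, hs⟩ := (hPp.dvd_finsetProd_iff _).1 hd
      rw [hS1] at hs
      exact hconst _ (pow_ne_zero _ (hz.co s i)) ((OO_dvd _).1 hs)
    have hinj := OO_injective π
    have hA : algebraMap RR (OO π) (Matrix.det (Matrix.of fun r s => atz (z s) (b r))) ≠ 0 := by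
      intro hh
      exact hdet (hinj (by rw [hh, map_zero]))
    have hdet' : Matrix.det (Matrix.of fun r s => eval (S.v s) (chartH (OO π) i (b r))) ≠ 0 := by
      intro hh
      rw [hh, mul_zero] at hdeq
      exact hA hdeq
    have hmd : multiplicity S.pi
        (Matrix.det (Matrix.of fun r s => eval (S.v s) (chartH (OO π) i (b r)))) =
        multiplicity π (Matrix.det (Matrix.of fun r s => atz (z s) (b r))) := by
      rw [← OO_mult hπ hdet, ← hS1, hdeq, Prm_mul_unit hPp hprod hdet']
    obtain ⟨hb1, hb2⟩ := hout.det e (fun r => chartH (OO π) i (b r)) hβ hdet'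
    have hbig := trans_bigDet hc2 hcd e ht (fun r => chartH (OO π) i (b r))
    have hmap : bigDet e (chartH (OO π) i F) (chartH (OO π) i G)
        (fun r => chartH (OO π) i (b r)) =
        algebraMap RR (OO π) (bigDet e (chartH RR i F) (chartH RR i G)
          (fun r => chartH RR i (b r))) := by
      rw [← Prm_bigDet_map]
      congr 1
      · exact chart_map (OO π) i F
      · exact chart_map (OO π) i G
      · funext r
        exact chart_map (OO π) i (b r)
    rw [hmap] at hbig
    have hne1 : bigDet e (chartH RR i F) (chartH RR i G) (fun r => chartH RR i (b r)) ≠ 0 := by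
      intro hh
      rw [hh, map_zero] at hbig
      exact mul_ne_zero (pow_ne_zero _ hα) hb1 hbig.symm
    refine ⟨hne1, ?_⟩
    have hm := OO_mult hπ hne1
    rw [hbig, ← hS1, multiplicity_mul hPp (FiniteMultiplicity.of_prime_left hPp
      (mul_ne_zero (pow_ne_zero _ hα) hb1)),
      FiniteMultiplicity.multiplicity_pow hPp (FiniteMultiplicity.of_prime_left hPp hα),
      Prm_nn hc2] at hm
    rw [hmd] at hb2
    rw [← hm, mul_comm (multiplicity S.pi α)]
    omega
  · intro hi0 hp F2 G2 hF2 hG2 v2 w2 hgen heq2 s J2 hJ2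
    subst hi0
    have hSv : S.v = fun s => vz (OO π) 0 (z s) := funext hS4
    have hdg := deggen_of_sat S hsat hcd
    have hF12 : c < d → F1 = F2 := by
      intro hlt
      rcases ht with ⟨_, e1, _⟩ | ⟨e1, _⟩
      · rw [← e1, heq2 hlt]
      · omega
    have hJ1s := hJ1 s
    have vF1 := hsat.pair.vF
    have vG1 := hsat.pair.vG
    have hv0s := hv0 s
    rw [hSv] at hdg hJ1s vF1 vG1 hv0s
    have hass := jac_unique hcd (fun s => vz (OO π) 0 (z s)) hsat.pair.hF hsat.pair.hG hF2 hG2
      vF1 vG1 v2 w2 hdg hgen hF12 s hv0s hJ1s hJ2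
    rw [← hS1]
    exact (multiplicity_eq_of_associated_right hass).symm

end GP80

end S_H80_GP_Prm
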