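import Mathlib
import Pool.Agent.H3.GP.Defs
import Pool.Agent.H80.GP.FDefs
import Pool.Agent.H80.M87.G02
import Pool.Agent.H80.M87.G03
import Pool.Agent.H80.M87.G07
import Pool.Agent.H80.M87.G08
import Pool.Agent.H80.M87.G09
import Pool.Agent.H80.M87.G13
import Pool.Agent.H80.M87.G14
import Pool.Agent.H80.M87.G15
import Pool.Agent.H80.M87.G16
import Pool.Agent.H80.M87.G17
import Pool.Agent.H80.M87.G20

/-! MP_87ed0a_ag: this file joins several modules to save build time. -/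

section S_H80_GP_All

/-!
# Row All (MP_87ed0a_GP): outputs at all homogeneous primes  (about 70 lines)

`jac_exists` (chart 0) at every point gives `J`; `jac_one`, `jac_homog`.  For every homogeneous prime `π` apply `prime_out` with `i = 0`, `J` if `π ∤ P_0`, and with `i = 1`, `-J` if `π ∣ P_0` (then `π ∤ P_1`, as
`π` is associated to `P_0`); `multiplicity π (-J s) = multiplicity π (J s)`, `-J s ≠ 0`.  `Classical.choice` to get functions on `RR` (`0` for the other elements of `RR`).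
-/

namespace GP80

open MvPolynomial

theorem All_not_dvd {π : RR} (hπ : Prime π) (h0 : π ∣ X 0) : ¬ π ∣ X 1 := by
  intro h1
  have hX0 : Prime (X 0 : RR) := MvPolynomial.X_prime
  have hass : Associated π (X 0 : RR) := hπ.associated_of_dvd hX0 h0
  have h01 : (X 0 : RR) ∣ X 1 := hass.symm.dvd.trans h1
  obtain ⟨q, hq⟩ := h01
  have := congrArg (MvPolynomial.eval (fun i : Fin 4 => if i = 1 then (1 : ℂ) else 0)) hq
  simp at this

theorem glob_out {I : Type} [Fintype I] [DecidableEq I] (z : I → Fin 4 → ℂ) (hz : Geom z)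
    {c d f f' : ℕ} {F G : BB} (h : Glob z c d f f' F G) :
    ∃ (J : I → RR) (om : RR → I → ℕ) (jj g n : RR → ℕ) (lam : RR → ℕ → ℕ),
      (∀ s, IsJac 0 F G (z s) (J s)) ∧ (∀ s, (J s).IsHomogeneous (f + f' - 1)) ∧
      GlobOut z c d F G J om jj g n lam := by
  classical
  have hJex : ∀ s, ∃ J, IsJac 0 F G (z s) J := fun s =>
    jac_exists 0 h.Fx h.Gx h.FE h.GE (hz.co s) (h.Fz s) (h.Gz s)
  choose J hJ using hJex
  have hJ1 : ∀ s, IsJac 1 F G (z s) (-J s) := fun s =>
    jac_one h.Fx h.Gx h.FE h.GE (hz.co s) (h.Fz s) (h.Gz s) (hJ s)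
  have key : ∀ π : RR, ∃ (om : I → ℕ) (jj g n : ℕ) (lam : ℕ → ℕ),
      Prime π → (∃ δ, π.IsHomogeneous δ) →
        PrimeOut z c d J π om jj g n lam ∧
        (¬ π ∣ X 0 → DetOut z c d F G 0 π jj n lam ∧ JUniq z c d F π om) ∧
        (π ∣ X 0 → DetOut z c d F G 1 π jj n lam) := by
    intro π
    by_cases hπ : Prime π ∧ ∃ δ, π.IsHomogeneous δ
    · obtain ⟨hp, δ, hδ⟩ := hπ
      by_cases h0 : π ∣ X 0
      · obtain ⟨om, jj, g, n, lam, h1, h2, _⟩ :=
          prime_out z hz h hp hδ 1 (All_not_dvd hp h0) (fun s => -J s) hJ1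
        refine ⟨om, jj, g, n, lam, fun _ _ => ⟨?_, fun hn => absurd h0 hn, fun _ => h2⟩⟩
        exact {
          mult := fun s => by rw [← h1.mult s, multiplicity_neg]
          ne := fun s => neg_ne_zero.1 (h1.ne s)
          nv := h1.nv
          gn := h1.gn
          tail := h1.tail
          omn := h1.omn
          sum := h1.sum
          pos := h1.pos
          up := h1.up
          anti := h1.anti }
      · obtain ⟨om, jj, g, n, lam, h1, h2, h3⟩ := prime_out z hz h hp hδ 0 h0 J hJ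
        exact ⟨om, jj, g, n, lam, fun _ _ => ⟨h1, fun _ => ⟨h2, h3 rfl⟩, fun hd => absurd hd h0⟩⟩
    · exact ⟨fun _ => 0, 0, 0, 0, fun _ => 0, fun hp hh => absurd ⟨hp, hh⟩ hπ⟩
  choose om jj g n lam hkey using key
  refine ⟨J, om, jj, g, n, lam, hJ, fun s => jac_homog h.FP h.GP (hz.co s) (hJ s), ?_⟩
  exact {
    po := fun π hp hh => (hkey π hp hh).1
    dt0 := fun π hp hh hn => ((hkey π hp hh).2.1 hn).1
    dt1 := fun π hp hh hd => (hkey π hp hh).2.2 hd
    uq := fun π hp hh hn => ((hkey π hp hh).2.1 hn).2 }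

end GP80

end S_H80_GP_All

section S_H80_GP_Gsm

/-!
# Row Gsm (MP_87ed0a_GP): summary of the global theory  (about 170 lines)

`glob_out` gives `J, om, jj, g, n, lam`.  All `J s ≠ 0` (`PrimeOut.ne` for the prime `X 0`).  `T`: `exists_primes ∅` for `∏ s, J s`; its elements divide `∏ J s`, hence (prime) some `J s`, homogeneous of degree `≤ f + f' - 1` (`homog_of_dvd`); `dl π` := that degree (`1 ≤ dl π` by `prime_deg`).
`PrimeOut` for every `π ∈ T` gives the numerical fields.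
* first sum: `sum_deg` for `J s`: `∑ dl π * (om π s + jj π) = f + f' - 1` (`mult`), and `trace_id` with `m π = g π + jj π`, `mm π s = om π s + jj π` (`fac_prod` gives the product formula), so `∑ dl π (g π + jj π) + c + d = f + f'`.  (`f + f' ≥ 1`: `c + d ≤ f + f'`, `c ≥ 2`.)  Subtract: `∑ dl om + 1 = c + d + ∑ dl g`.
* star: `star_ineq` with `w = c * d.choose 2 + d * c.choose 2` (`w + c.choose 3 + d.choose 3 = (c+d).choose 3`, Vandermonde `Nat.add_choose_eq` or induction).  Multiply by 2 (`2 * m.choose 2 = m (m-1)`), in `ℤ`: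
  `f d(d-1) + f' c(c-1) ≤ c d(d-1) + d c(c-1) + ∑ dl ∑ lam(lam-1) + c(c-1) ∑ dl jj`, and `f' = c + d + ∑ dl g + ∑ dl jj - f`: so
  `c(c-1) ∑ dl g + (f - c)(d(d-1) - c(c-1)) ≤ ∑ dl ∑ lam (lam-1)`, `d(d-1) - c(c-1) = (d-c)(c+d-1)`; `f ≥ c` by `f_ge` (`F ≠ 0` since the Jacobian is nonzero).
* chords: `chord_loss` (with `mult`) and `chord`.
-/

namespace GP80

open MvPolynomial

theorem Gsm_choose (m : ℕ) : 2 * m.choose 2 = m * (m - 1) := by
  rw [Nat.choose_two_right, mul_comm]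
  exact Nat.div_two_mul_two_of_even (Nat.even_mul_pred_self m)

theorem Gsm_vand (c d : ℕ) :
    c * d.choose 2 + d * c.choose 2 + c.choose 3 + d.choose 3 = (c + d).choose 3 := by
  rw [Nat.add_choose_eq]
  simp only [Finset.Nat.antidiagonal_succ, Finset.Nat.antidiagonal_zero, Finset.map_singleton,
    Finset.sum_cons, Finset.sum_singleton, Finset.map_cons, Function.Embedding.prodMap,
    Function.Embedding.coeFn_mk, Prod.map, Nat.choose_zero_right, Nat.choose_one_right]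
  simp
  ring

theorem Gsm_num {c d f f' Sg Sjj S2 L C2 D2 : ℕ} (hc : 2 ≤ c) (hcd : c ≤ d) (hf : c ≤ f)
    (h2c : 2 * C2 = c * (c - 1)) (h2d : 2 * D2 = d * (d - 1)) (hL : 2 * S2 = L)
    (hI : f * D2 + f' * C2 ≤ c * D2 + d * C2 + (S2 + Sjj * C2))
    (hE : Sjj + c + d + Sg = f + f') :
    c * (c - 1) * Sg + (d - c) * (c + d - 1) * (f - c) ≤ L := by
  obtain ⟨φ, rfl⟩ := Nat.exists_eq_add_of_le hf
  obtain ⟨e, rfl⟩ := Nat.exists_eq_add_of_le hcd
  obtain ⟨k, rfl⟩ : ∃ k, c = k + 1 := ⟨c - 1, by omega⟩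
  have e1 : k + 1 - 1 = k := by omega
  have e2 : k + 1 + e - (k + 1) = e := by omega
  have e3 : k + 1 + (k + 1 + e) - 1 = 2 * k + 1 + e := by omega
  have e4 : k + 1 + φ - (k + 1) = φ := by omega
  have e5 : k + 1 + e - 1 = k + e := by omega
  rw [e1] at h2c ⊢
  rw [e5] at h2d
  rw [e2, e3, e4]
  have h1 : (Sjj + (k + 1) + (k + 1 + e) + Sg) * C2 = (k + 1 + φ + f') * C2 := by rw [hE]
  have h2 : φ * D2 + Sg * C2 ≤ S2 + φ * C2 := by nlinarith
  have h3 : 2 * D2 = 2 * C2 + e * (2 * k + 1 + e) := by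
    rw [h2c, h2d]
    ring
  have h4 : φ * (2 * D2) + Sg * (2 * C2) ≤ L + φ * (2 * C2) := by
    rw [← hL]
    nlinarith
  rw [h3] at h4
  have h5 : Sg * (2 * C2) = (k + 1) * k * Sg := by rw [h2c]; ring
  nlinarith

theorem glob_sum {I : Type} [Fintype I] [DecidableEq I] [Nonempty I] (z : I → Fin 4 → ℂ)
    (hz : Geom z) {c d f f' : ℕ} {F G : BB} (h : Glob z c d f f' F G) :
    ∃ (T : Finset RR) (dl : RR → ℕ) (om : RR → I → ℕ) (jj g n : RR → ℕ) (lam : RR → ℕ → ℕ),
      c ≤ f ∧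
      (∀ π ∈ T, Prime π ∧ π.IsHomogeneous (dl π) ∧ 1 ≤ dl π ∧ dl π ≤ f + f') ∧
      (∀ π ∈ T, ∀ π' ∈ T, Associated π π' → π = π') ∧
      (∀ π ∈ T, (∀ s, dz (z s) π ≠ 0 → om π s = g π) ∧ g π ≤ n π ∧
        (g π < n π → lam π (g π + 1) * (c + d - lam π (g π + 1)) ≤ Nat.card {s : I // dz (z s) π = 0}) ∧
        (∀ s, om π s ≤ n π) ∧
        (∑ i ∈ Finset.Icc 1 (n π), lam π i * (c + d - lam π i) ≤ ∑ s, om π s) ∧
        (∀ i, 1 ≤ i → i ≤ n π → 1 ≤ lam π i) ∧ (∀ i, 1 ≤ i → lam π i < c) ∧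
        (∀ i j, 1 ≤ i → i ≤ j → lam π j ≤ lam π i)) ∧
      (∀ s, ∑ π ∈ T, dl π * om π s + 1 = c + d + ∑ π ∈ T, dl π * g π) ∧
      (∑ π ∈ T, dl π * jj π + c + d + ∑ π ∈ T, dl π * g π = f + f') ∧
      (c * (c - 1) * ∑ π ∈ T, dl π * g π + (d - c) * (c + d - 1) * (f - c) ≤
        ∑ π ∈ T, dl π * ∑ i ∈ Finset.Icc 1 (n π), lam π i * (lam π i - 1)) ∧
      (∀ s s', s ≠ s' → 2 ≤ ∑ π ∈ T, (om π s + jj π) * ordL (z s) (z s') π) ∧
      (∀ s s', s ≠ s' →
        (c < d → map (IsLocalRing.residue (AL (z s) (z s'))) (chartH (AL (z s) (z s')) 0 F) ≠ 0) →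
        2 ≤ ∑ π ∈ T, om π s * ordL (z s) (z s') π) := by
  classical
  obtain ⟨J, om, jj, g, n, lam, hJ, hJh, ho⟩ := glob_out z hz h
  have hc2 := h.c2
  have hJ0 : ∀ s, J s ≠ 0 := (ho.po (X 0) MvPolynomial.X_prime ⟨1, isHomogeneous_X ℂ 0⟩).ne
  have hP : ∏ s, J s ≠ 0 := Finset.prod_ne_zero_iff.2 fun s _ => hJ0 s
  obtain ⟨T, -, hT, hTd, hTc⟩ := exists_primes ∅
    ⟨fun π hπ => absurd hπ (Finset.notMem_empty π), fun π hπ => absurd hπ (Finset.notMem_empty π)⟩
    hP
  have hdl0 : ∀ π ∈ T, ∃ δ, δ ≤ f + f' - 1 ∧ π.IsHomogeneous δ := by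
    intro π hπ
    obtain ⟨s, -, hs⟩ := (Prime.dvd_finsetProd_iff (hT.1 π hπ) _).1
      (hTd π hπ (Finset.notMem_empty π))
    exact homog_of_dvd (hJh s) (hJ0 s) hs
  choose! dl hdl using hdl0
  have hdl2 : ∀ π ∈ T, π.IsHomogeneous (dl π) := fun π hπ => (hdl π hπ).2
  have hpo := fun π hπ => ho.po π (hT.1 π hπ) ⟨dl π, hdl2 π hπ⟩
  have hcov : ∀ s q, Prime q → q ∣ J s → ∃ π ∈ T, Associated q π := fun s q hq hd =>
    hTc q hq (hd.trans (Finset.dvd_prod_of_mem J (Finset.mem_univ s)))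
  have E1 : ∀ s, ∑ π ∈ T, dl π * om π s + ∑ π ∈ T, dl π * jj π = f + f' - 1 := by
    intro s
    rw [← sum_deg hT dl hdl2 (hJ0 s) (hJh s) (hcov s), ← Finset.sum_add_distrib]
    refine Finset.sum_congr rfl fun π hπ => ?_
    rw [(hpo π hπ).mult s]
    ring
  have E2 : ∑ π ∈ T, dl π * jj π + c + d + ∑ π ∈ T, dl π * g π = f + f' := by
    have h1 := fun s => fac_prod hT (hJ0 s) (hcov s)
    choose u hu hprod using h1
    have h2 := trace_id z hz h J hJ hJ0 hJh T dl hdl2 (fun π hπ => (hT.1 π hπ).ne_zero) u hu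
      (fun π => g π + jj π) (fun π s => om π s + jj π)
      (fun s => by
        rw [hprod s]
        congr 1
        refine Finset.prod_congr rfl fun π hπ => ?_
        rw [(hpo π hπ).mult s])
      (fun π hπ s hs => by
        show om π s + jj π = g π + jj π
        rw [(hpo π hπ).nv s hs])
    have h3 : ∑ π ∈ T, dl π * (g π + jj π) = ∑ π ∈ T, dl π * g π + ∑ π ∈ T, dl π * jj π := by
      rw [← Finset.sum_add_distrib]
      exact Finset.sum_congr rfl fun π _ => mul_add _ _ _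
    rw [h3] at h2
    omega
  have hF0 : F ≠ 0 := by
    intro hF
    obtain ⟨s⟩ := ‹Nonempty I›
    have h1 := Jac_apply (hJ s)
    rw [hF, map_zero, map_zero, map_zero, map_zero, zero_mul, zero_mul, sub_zero] at h1
    rcases mul_eq_zero.1 h1.symm with h2 | h2
    · exact hJ0 s h2
    · exact Jac_q_ne (hz.co s 0) (by decide) h2
  have hf : c ≤ f := f_ge h.Fx h.FP h.FE hF0
  have hstar := star_ineq z hz h J om jj g n lam ho T hT dl hdl2 hcov (Gsm_vand c d)
  have hstar2 : ∑ π ∈ T, dl π * (∑ i ∈ Finset.Icc 1 (n π), (lam π i).choose 2 +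
      jj π * c.choose 2) = ∑ π ∈ T, dl π * ∑ i ∈ Finset.Icc 1 (n π), (lam π i).choose 2 +
      (∑ π ∈ T, dl π * jj π) * c.choose 2 := by
    rw [Finset.sum_mul, ← Finset.sum_add_distrib]
    exact Finset.sum_congr rfl fun π _ => by ring
  rw [hstar2] at hstar
  have hL : 2 * ∑ π ∈ T, dl π * ∑ i ∈ Finset.Icc 1 (n π), (lam π i).choose 2 =
      ∑ π ∈ T, dl π * ∑ i ∈ Finset.Icc 1 (n π), lam π i * (lam π i - 1) := by
    rw [Finset.mul_sum]
    refine Finset.sum_congr rfl fun π _ => ?_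
    rw [mul_left_comm, Finset.mul_sum]
    congr 1
    exact Finset.sum_congr rfl fun i _ => Gsm_choose _
  refine ⟨T, dl, om, jj, g, n, lam, hf, fun π hπ => ?_, hT.2, fun π hπ => ?_, fun s => ?_, E2,
    Gsm_num hc2 h.cd hf (Gsm_choose c) (Gsm_choose d) hL hstar E2, fun s s' hss => ?_,
    fun s s' hss hl => ?_⟩
  · refine ⟨hT.1 π hπ, hdl2 π hπ, prime_deg (hT.1 π hπ) (hdl2 π hπ), ?_⟩
    have := (hdl π hπ).1
    omega
  · have hq := hpo π hπ
    exact ⟨hq.nv, hq.gn, hq.tail, hq.omn, hq.sum, hq.pos, hq.up, hq.anti⟩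
  · have := E1 s
    omega
  · have h1 := chord_loss z hz h J hJ hJ0 T hT hcov hss
    have h2 : ∑ π ∈ T, multiplicity π (J s) * ordL (z s) (z s') π =
        ∑ π ∈ T, (om π s + jj π) * ordL (z s) (z s') π :=
      Finset.sum_congr rfl fun π hπ => by rw [(hpo π hπ).mult s]
    rw [h2] at h1
    exact h1
  · exact chord z hz h J hJ om jj g n lam ho T hT (fun π hπ => ⟨dl π, hdl2 π hπ⟩) hcov hss hl

end GP80

end S_H80_GP_Gsm

section S_H80_GP_Dat

/-!
# Row Dat (MP_87ed0a_GP): the combinatorial data of a geproci set near a grid  (about 220 lines)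

`z s = x s.1 s.2`, `Geom z` by `geom_of_near`.
Lemma `cdata_aux`: for a `Glob` with `f + f' ≤ Bd` let `T, dl, om, ..` be as in `glob_sum`, `P := {π // π ∈ T}` (all data restricted to `P`; sums over `T` = sums over `P`, `Finset.sum_coe_sort`/`Finset.sum_attach`), `vt π := univ.filter (dz (z s) π = 0)` (classical), `oL π s s' := ordL (z s) (z s') π`, `hh π := ` the coefficients
`fun i => coeff (Finsupp.single i 1) π`.  Then all fields of `CombD` hold for `jj' ∈ {jj, 0}` and `eF`, provided the fields `star`, `loss`, `chord` hold (take them as hypotheses of the lemma):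
 - `tail`: `Nat.card {s // ..} = (vt π).card`.
 - `surf`: `hx.sf (dl π)`, `surfSum` unfolds to the double sum.
 - `plane`: `dl π = 1`: `π = ∑ h_i X_i` with `h = hh π ≠ 0`, `dz (z s) π = C (eval (z s) π)` (`dz_lin`), `eval (z s) π = ∑ h_i z_i`; so `s ∈ vt π` iff `∑ h_i x s.1 s.2 i = 0`; `hx.pl`.
 - `oLp`: `ordL_lin`.   - `nonpl`: `vertex` (two different vertices are independent, `Geom.ind`; `dl π ≥ 2`).
 - `two`: three points `s, s', s''` with `s, s'` generic are independent (`hx.ch`); two linear forms vanishing on the same 3-dimensional space are proportional, so the elements of `T` are associated, hence equal.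
Main theorem, three cases.
 (A) `c = d`: `jj' = 0`, `eF = f - c`; `chord`: the last item of `glob_sum` (the hypothesis `c < d → ..` is void).
 (B) `c < d`, `f = c` (`efc`): `jj' = 0`, `eF = 0 = f - c`; `chord`: last item with `F_line_ne` (`hx.ch` gives that there is no third point, for a generic pair).  (`subst`.)
 (C) `c < d`, `d = c + 1`, `c < f`, and a new `Glob z c d f f F G'` (`efc`): apply `glob_sum` to it (`f + f ≤ Bd`), `jj' = jj`, `eF = f - c`: `∑ dl jj + c + d + ∑ dl g = 2 f` gives `∑ dl jj + 1 + ∑ dl g = 2 f - 2 c = 2 eF`; `chord`: item `chord_loss`.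
-/

namespace GP80

open MvPolynomial

theorem Dat_prop {z1 z2 z3 : Fin 4 → ℂ} (hli : LinearIndependent ℂ ![z1, z2, z3])
    {h h' : Fin 4 → ℂ} (hh : h ≠ 0) (h1 : ∑ i, h i * z1 i = 0) (h2 : ∑ i, h i * z2 i = 0)
    (h3 : ∑ i, h i * z3 i = 0) (h1' : ∑ i, h' i * z1 i = 0) (h2' : ∑ i, h' i * z2 i = 0)
    (h3' : ∑ i, h' i * z3 i = 0) : ∃ r : ℂ, ∀ i, h' i = r * h i := by
  have hlt : Submodule.span ℂ (Set.range ![z1, z2, z3]) ≠ ⊤ := by
    intro h4
    have h5 := finrank_span_eq_card hli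
    rw [h4, finrank_top] at h5
    simp at h5
  obtain ⟨v, hv⟩ : ∃ v, v ∉ Submodule.span ℂ (Set.range ![z1, z2, z3]) := by
    by_contra hcon
    push Not at hcon
    exact hlt ((Submodule.eq_top_iff').2 hcon)
  have hli4 : LinearIndependent ℂ (Fin.cons v ![z1, z2, z3] : Fin 4 → Fin 4 → ℂ) :=
    linearIndependent_finCons.2 ⟨hli, hv⟩
  have hsp := hli4.span_eq_top_of_card_eq_finrank (by simp)
  -- a functional vanishing at the four vectors is zero
  have key : ∀ g : Fin 4 → ℂ, ∑ i, g i * v i = 0 → ∑ i, g i * z1 i = 0 → ∑ i, g i * z2 i = 0 →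
      ∑ i, g i * z3 i = 0 → ∀ i, g i = 0 := by
    intro g g0 g1 g2 g3 i
    obtain ⟨ℓ, hℓ⟩ : ∃ ℓ : (Fin 4 → ℂ) →ₗ[ℂ] ℂ, ∀ w, ℓ w = ∑ i, g i * w i := by
      refine ⟨∑ i, g i • LinearMap.proj i, fun w => ?_⟩
      rw [LinearMap.sum_apply]
      exact Finset.sum_congr rfl fun i _ => rfl
    have h0 : ℓ = 0 := by
      refine LinearMap.ext_on_range hsp fun j => ?_
      rw [hℓ, LinearMap.zero_apply]
      refine Fin.cases ?_ (fun j => ?_) j
      · exact g0
      · fin_cases j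
        · exact g1
        · exact g2
        · exact g3
    have h4 := hℓ (Pi.single i 1)
    rw [h0, LinearMap.zero_apply, Finset.sum_eq_single i] at h4
    · rw [Pi.single_eq_same, mul_one] at h4
      exact h4.symm
    · intro j _ hj
      rw [Pi.single_eq_of_ne hj, mul_zero]
    · intro h5
      exact absurd (Finset.mem_univ i) h5
  have hv0 : ∑ i, h i * v i ≠ 0 := by
    intro h0
    exact hh (funext (key h h0 h1 h2 h3))
  refine ⟨(∑ i, h' i * v i) / ∑ i, h i * v i, fun i => ?_⟩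
  obtain ⟨r, hr⟩ : ∃ r, r = (∑ i, h' i * v i) / ∑ i, h i * v i := ⟨_, rfl⟩
  rw [← hr]
  have hlin : ∀ w : Fin 4 → ℂ, ∑ i, (h' i - r * h i) * w i =
      ∑ i, h' i * w i - r * ∑ i, h i * w i := by
    intro w
    rw [Finset.mul_sum, ← Finset.sum_sub_distrib]
    exact Finset.sum_congr rfl fun i _ => by ring
  have h5 := key (fun i => h' i - r * h i) (by
      show ∑ i, (h' i - r * h i) * v i = 0
      rw [hlin, hr, div_mul_cancel₀ _ hv0, sub_self]) (by
      show ∑ i, (h' i - r * h i) * z1 i = 0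
      rw [hlin, h1, h1', mul_zero, sub_zero]) (by
      show ∑ i, (h' i - r * h i) * z2 i = 0
      rw [hlin, h2, h2', mul_zero, sub_zero]) (by
      show ∑ i, (h' i - r * h i) * z3 i = 0
      rw [hlin, h3, h3', mul_zero, sub_zero]) i
  exact sub_eq_zero.1 h5

theorem Dat_aux {a b Bd : ℕ} {x : Fin a → Fin b → Fin 4 → ℂ} (hx : NearOK a b x Bd) (ha : 2 ≤ a)
    {c d : ℕ} (hac : a < c) (hcd : c ≤ d) (hdb : d < b) (hN : c * d = a * b) {f f' : ℕ}
    (hB : f + f' ≤ Bd) (T : Finset RR) (dl : RR → ℕ) (om : RR → Fin a × Fin b → ℕ)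
    (jj g n : RR → ℕ) (lam : RR → ℕ → ℕ) (eF : ℕ)
    (h1 : ∀ π ∈ T, Prime π ∧ π.IsHomogeneous (dl π) ∧ 1 ≤ dl π ∧ dl π ≤ f + f')
    (h2 : ∀ π ∈ T, ∀ π' ∈ T, Associated π π' → π = π')
    (h3 : ∀ π ∈ T, (∀ s : Fin a × Fin b, dz (x s.1 s.2) π ≠ 0 → om π s = g π) ∧ g π ≤ n π ∧
      (g π < n π → lam π (g π + 1) * (c + d - lam π (g π + 1)) ≤
        Nat.card {s : Fin a × Fin b // dz (x s.1 s.2) π = 0}) ∧
      (∀ s, om π s ≤ n π) ∧
      (∑ i ∈ Finset.Icc 1 (n π), lam π i * (c + d - lam π i) ≤ ∑ s, om π s) ∧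
      (∀ i, 1 ≤ i → i ≤ n π → 1 ≤ lam π i) ∧ (∀ i, 1 ≤ i → lam π i < c) ∧
      (∀ i j, 1 ≤ i → i ≤ j → lam π j ≤ lam π i))
    (h4 : ∀ s, ∑ π ∈ T, dl π * om π s + 1 = c + d + ∑ π ∈ T, dl π * g π)
    (hstar : c * (c - 1) * ∑ π ∈ T, dl π * g π + (d - c) * (c + d - 1) * eF ≤
      ∑ π ∈ T, dl π * ∑ i ∈ Finset.Icc 1 (n π), lam π i * (lam π i - 1))
    (hloss : (∀ π ∈ T, jj π = 0) ∨
      (d = c + 1 ∧ ∑ π ∈ T, dl π * jj π + 1 + ∑ π ∈ T, dl π * g π ≤ 2 * eF))
    (hchord : ∀ s s' : Fin a × Fin b, s.1 ≠ s'.1 → s.2 ≠ s'.2 →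
      2 ≤ ∑ π ∈ T, (om π s + jj π) * ordL (x s.1 s.2) (x s'.1 s'.2) π) :
    ∃ (P : Type) (_ : Fintype P) (dl g n jj : P → ℕ) (lam : P → ℕ → ℕ)
      (om : P → Fin a × Fin b → ℕ) (vt : P → Finset (Fin a × Fin b))
      (oL : P → (Fin a × Fin b) → (Fin a × Fin b) → ℕ) (eF : ℕ) (hh : P → Fin 4 → ℂ),
      CombD a b c d dl g n jj lam om vt oL eF ∧
      ∀ p, dl p = 1 → hh p ≠ 0 ∧ ∀ s ∈ vt p, ∑ i, hh p i * x s.1 s.2 i = 0 := by
  classical
  have hgeom := geom_of_near ha (by omega) hx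
  have hrep : ∀ p : {π // π ∈ T}, ∃ α : Fin 4 → ℂ, dl p.1 = 1 →
      p.1 = ∑ i, C (α i) * X i := by
    intro p
    by_cases h5 : dl p.1 = 1
    · have h6 := (h1 p.1 p.2).2.1
      rw [h5] at h6
      obtain ⟨α, hα⟩ := Ord_linrep h6
      exact ⟨α, fun _ => hα⟩
    · exact ⟨0, fun h => absurd h h5⟩
  choose hh hhh using hrep
  have hne : ∀ p : {π // π ∈ T}, dl p.1 = 1 → hh p ≠ 0 := by
    intro p hp h0
    apply (h1 p.1 p.2).1.ne_zero
    rw [hhh p hp, h0]
    simp
  have hev : ∀ p : {π // π ∈ T}, dl p.1 = 1 → ∀ w : Fin 4 → ℂ,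
      eval w p.1 = ∑ i, hh p i * w i := by
    intro p hp w
    conv_lhs => rw [hhh p hp]
    simp
  have hdz : ∀ p : {π // π ∈ T}, dl p.1 = 1 → ∀ w : Fin 4 → ℂ,
      dz w p.1 = 0 ↔ ∑ i, hh p i * w i = 0 := by
    intro p hp w
    have h6 := (h1 p.1 p.2).2.1
    rw [hp] at h6
    rw [dz_lin w h6, hev p hp w]
    constructor
    · intro h7
      exact C_injective (Fin 4) ℂ (by rw [h7, C_0])
    · intro h7
      rw [h7, C_0]
  have hmem : ∀ (p : {π // π ∈ T}) (s : Fin a × Fin b),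
      s ∈ Finset.univ.filter (fun s : Fin a × Fin b => dz (x s.1 s.2) p.1 = 0) ↔
        dz (x s.1 s.2) p.1 = 0 := by
    intro p s
    simp
  refine ⟨{π // π ∈ T}, inferInstance, fun p => dl p.1, fun p => g p.1, fun p => n p.1,
    fun p => jj p.1, fun p => lam p.1, fun p => om p.1,
    fun p => Finset.univ.filter (fun s : Fin a × Fin b => dz (x s.1 s.2) p.1 = 0),
    fun p s s' => ordL (x s.1 s.2) (x s'.1 s'.2) p.1, eF, hh, ?_, ?_⟩
  · refine
      { a2 := ha
        ac := hac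
        cd := hcd
        db := hdb
        N := hN
        dl1 := fun p => (h1 p.1 p.2).2.2.1
        nv := ?_
        gn := fun p => (h3 p.1 p.2).2.1
        tail := ?_
        omn := fun p => (h3 p.1 p.2).2.2.2.1
        sum := fun p => (h3 p.1 p.2).2.2.2.2.1
        pos := fun p => (h3 p.1 p.2).2.2.2.2.2.1
        up := fun p => (h3 p.1 p.2).2.2.2.2.2.2.1
        anti := fun p => (h3 p.1 p.2).2.2.2.2.2.2.2
        G1 := ?_
        star := ?_
        loss := ?_
        chord := ?_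
        surf := ?_
        plane := ?_
        oLp := ?_
        nonpl := ?_
        two := ?_ }
    · intro p s hs
      rw [hmem] at hs
      exact (h3 p.1 p.2).1 s hs
    · intro p hp
      have h5 := (h3 p.1 p.2).2.2.1 hp
      rwa [Nat.card_eq_fintype_card, Fintype.card_subtype] at h5
    · intro s
      have h5 := h4 s
      rw [← Finset.sum_coe_sort T (fun π => dl π * om π s),
        ← Finset.sum_coe_sort T (fun π => dl π * g π)] at h5
      exact h5
    · have h5 := hstar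
      rw [← Finset.sum_coe_sort T (fun π => dl π * g π),
        ← Finset.sum_coe_sort T (fun π => dl π * ∑ i ∈ Finset.Icc 1 (n π),
          lam π i * (lam π i - 1))] at h5
      exact h5
    · rcases hloss with h5 | ⟨h5, h6⟩
      · exact Or.inl fun p => h5 p.1 p.2
      · right
        refine ⟨h5, ?_⟩
        rw [← Finset.sum_coe_sort T (fun π => dl π * jj π),
          ← Finset.sum_coe_sort T (fun π => dl π * g π)] at h6
        exact h6
    · intro s s' hs hs'
      have h5 := hchord s s' hs hs'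
      rw [← Finset.sum_coe_sort T
        (fun π => (om π s + jj π) * ordL (x s.1 s.2) (x s'.1 s'.2) π)] at h5
      exact h5
    · intro p
      exact hx.sf (dl p.1) ((h1 p.1 p.2).2.2.2.trans hB) p.1 (h1 p.1 p.2).2.1
        (h1 p.1 p.2).1.ne_zero
    · intro p hp
      rcases hx.pl (hh p) (hne p hp) with ⟨l, j, h5⟩ | h5
      · left
        refine ⟨l, j, fun s hs => ?_⟩
        rw [hmem, hdz p hp] at hs
        exact h5 s.1 s.2 hs
      · right
        intro s hs s' hs' hss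
        rw [hmem, hdz p hp] at hs hs'
        exact h5 s.1 s.2 s'.1 s'.2 hs hs' hss
    · intro p hp s s' _ _
      have h6 := (h1 p.1 p.2).2.1
      have hp' : dl p.1 = 1 := hp
      rw [hp'] at h6
      show ordL (x s.1 s.2) (x s'.1 s'.2) p.1 = _
      rw [ordL_lin _ _ h6 (h1 p.1 p.2).1.ne_zero]
      have h7 : (eval (x s.1 s.2) p.1 = 0 ∧ eval (x s'.1 s'.2) p.1 = 0) ↔
          (s ∈ Finset.univ.filter (fun s : Fin a × Fin b => dz (x s.1 s.2) p.1 = 0) ∧
          s' ∈ Finset.univ.filter (fun s : Fin a × Fin b => dz (x s.1 s.2) p.1 = 0)) := by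
        rw [hmem, hmem, hdz p hp', hdz p hp', hev p hp', hev p hp']
      exact if_congr h7 rfl rfl
    · intro p hp
      rw [Finset.card_le_one]
      intro s hs s' hs'
      rw [hmem] at hs hs'
      by_contra hcon
      have h5 := (h1 p.1 p.2).2.2.1
      have hp' : dl p.1 ≠ 1 := hp
      exact vertex (hgeom.ind s s' hcon) (h1 p.1 p.2).1 (h1 p.1 p.2).2.1 (by omega) hs hs'
    · rintro p p' hp hp' hpp s s' s'' hs1 hs2 h5 h6 ⟨m1, m2, m3, m1', m2', m3'⟩
      have hp0 : dl p.1 = 1 := hp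
      have hp0' : dl p'.1 = 1 := hp'
      rw [hmem, hdz p hp0] at m1 m2 m3
      rw [hmem, hdz p' hp0'] at m1' m2' m3'
      have hli := hx.ch s.1 s.2 s'.1 s'.2 s''.1 s''.2 hs1 hs2 h5 h6
      obtain ⟨r, hr⟩ := Dat_prop hli (hne p hp0) m1 m2 m3 m1' m2' m3'
      have h7 : p'.1 = C r * p.1 := by
        conv_lhs => rw [hhh p' hp0']
        conv_rhs => rw [hhh p hp0]
        rw [Finset.mul_sum]
        refine Finset.sum_congr rfl fun i _ => ?_
        rw [hr i, C_mul, mul_assoc]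
      have hr0 : r ≠ 0 := by
        intro h8
        apply (h1 p'.1 p'.2).1.ne_zero
        rw [h7, h8, C_0, zero_mul]
      obtain ⟨u, hu⟩ := (IsUnit.mk0 r hr0).map (C : ℂ →+* RR)
      have h8 : Associated p.1 p'.1 := ⟨u, by rw [hu, h7, mul_comm]⟩
      exact hpp (Subtype.ext (h2 p.1 p.2 p'.1 p'.2 h8))
  · intro p hp
    refine ⟨hne p hp, fun s hs => ?_⟩
    rw [hmem, hdz p hp] at hs
    exact hs

theorem cdata {a b Bd : ℕ} {x : Fin a → Fin b → Fin 4 → ℂ} (hx : NearOK a b x Bd) (ha : 2 ≤ a)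
    {c d : ℕ} (hac : a < c) (hcd : c ≤ d) (hdb : d < b) (hN : c * d = a * b) {f f' : ℕ} {F G : BB}
    (h : Glob (fun s : Fin a × Fin b => x s.1 s.2) c d f f' F G) (hB : f + f' ≤ Bd)
    (hB2 : f + f ≤ Bd) :
    ∃ (P : Type) (_ : Fintype P) (dl g n jj : P → ℕ) (lam : P → ℕ → ℕ)
      (om : P → Fin a × Fin b → ℕ) (vt : P → Finset (Fin a × Fin b))
      (oL : P → (Fin a × Fin b) → (Fin a × Fin b) → ℕ) (eF : ℕ) (hh : P → Fin 4 → ℂ),
      CombD a b c d dl g n jj lam om vt oL eF ∧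
      ∀ p, dl p = 1 → hh p ≠ 0 ∧ ∀ s ∈ vt p, ∑ i, hh p i * x s.1 s.2 i = 0 := by
  classical
  have hgeom := geom_of_near ha (by omega) hx
  have hnon : Nonempty (Fin a × Fin b) := ⟨(⟨0, by omega⟩, ⟨0, by omega⟩)⟩
  have hpair : ∀ s s' : Fin a × Fin b, s.1 ≠ s'.1 → s ≠ s' := by
    intro s s' h1 h2
    exact h1 (by rw [h2])
  rcases hcd.eq_or_lt with hcd' | hcd'
  · obtain ⟨T, dl, om, jj, g, n, lam, _, h1, h2, h3, h4, _, h6, _, h8⟩ :=
      glob_sum (fun s : Fin a × Fin b => x s.1 s.2) hgeom h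
    refine Dat_aux hx ha hac hcd hdb hN hB T dl om (fun _ => 0) g n lam (f - c) h1 h2 h3 h4 h6
      (Or.inl fun _ _ => rfl) ?_
    intro s s' hs hs'
    have h9 := h8 s s' (hpair s s' hs) (fun h10 => absurd hcd' (Nat.ne_of_lt h10))
    simpa using h9
  · rcases efc (fun s : Fin a × Fin b => x s.1 s.2) h hcd' with hf | ⟨hd, hf, G', h'⟩
    · subst hf
      obtain ⟨T, dl, om, jj, g, n, lam, _, h1, h2, h3, h4, _, h6, _, h8⟩ :=
        glob_sum (fun s : Fin a × Fin b => x s.1 s.2) hgeom h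
      refine Dat_aux hx ha hac hcd hdb hN hB T dl om (fun _ => 0) g n lam _ h1 h2 h3 h4 h6
        (Or.inl fun _ _ => rfl) ?_
      intro s s' hs hs'
      have h9 := h8 s s' (hpair s s' hs) (fun _ =>
        F_line_ne (fun s : Fin a × Fin b => x s.1 s.2) hgeom h hcd' (hpair s s' hs)
          (fun t ht ht' => hx.ch s.1 s.2 s'.1 s'.2 t.1 t.2 hs hs' ht ht'))
      simpa using h9
    · obtain ⟨T, dl, om, jj, g, n, lam, _, h1, h2, h3, h4, h5, h6, h7, _⟩ :=
        glob_sum (fun s : Fin a × Fin b => x s.1 s.2) hgeom h'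
      refine Dat_aux hx ha hac hcd hdb hN hB2 T dl om jj g n lam (f - c) h1 h2 h3 h4 h6
        (Or.inr ⟨hd, by omega⟩) ?_
      intro s s' hs hs'
      exact h7 s s' (hpair s s' hs)

end GP80

end S_H80_GP_Dat

section S_H80_GP_Fn1

/-!
# Row Fn1 (MP_87ed0a_GP): near an (a,b)-grid there is no (c,d)-geproci set with a < c ≤ d < b  (about 150 lines)

* `no_geproci`: `NearOK a b x Bd` with `Bd = 2 * ((a*b + 1) * (a*b))`, `2 ≤ a < c ≤ d < b`, `c d = a b`: `pts (fun s => x s.1 s.2)` is not `(c,d)`-geproci.  Proof: `glob_of_geproci` (`geom_of_near`) gives `f ≤ (ab+1) c ≤ (ab+1) ab`, `f' ≤ (ab+1) d ≤ (ab+1) ab`; `cdata`; `comb_final` gives `6 ≤ b` and the planes;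
  `grid_contra` with `m = d` (`col_bound`).
* `geproci_mulVec`: invariance of `IsGeproci` under an invertible matrix, as in Pool/Agent/H3/GP/INV.lean: `D' = bind₁ (∑_j C (M⁻¹_ij) X_j) D` so `D'(P) = D(M⁻¹ P)`; for `π` with kernel `span {P}`, `π' = π ∘ M` has kernel `span {M⁻¹ P}`, and `projImage π (pts (M x)) = projImage π' (pts x)` (points: `rep` of `mk (M x s)` is a unit multiple of `M x s`);
  `pts (M x)` is finite with the same number of points (bijection induced by `M`).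
* `near_contra`: choose `M` by `exists_coords` for the vectors of `x0` (nonzero by `ind`); `x0' = M x0` is a `GridVec` (`gridVec_mulVec`) with nonzero coordinates; `near_ok` for `x0'`; `x ↦ M x` is continuous at `x0`; apply `no_geproci` to `M x` and `geproci_mulVec`.
-/

open Filter Topology Pool.Agent.H3.GP

namespace GP80

theorem no_geproci {a b : ℕ} (ha : 2 ≤ a) {x : Fin a → Fin b → Fin 4 → ℂ}
    (hx : NearOK a b x (2 * ((a * b + 1) * (a * b)))) {c d : ℕ} (hac : a < c) (hcd : c ≤ d)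
    (hdb : d < b) (hN : c * d = a * b) :
    ¬ IsGeproci c d (pts (fun s : Fin a × Fin b => x s.1 s.2)) := by
  intro hg
  have hb2 : 2 ≤ b := by omega
  have hgeom := geom_of_near ha hb2 hx
  obtain ⟨f, f', F, G, hGl, hf, hf'⟩ :=
    glob_of_geproci (fun s : Fin a × Fin b => x s.1 s.2) hgeom (by omega) hg
  have hcard : Fintype.card (Fin a × Fin b) = a * b := by
    rw [Fintype.card_prod, Fintype.card_fin, Fintype.card_fin]
  rw [hcard] at hf hf'
  have hbab : b ≤ a * b := Nat.le_mul_of_pos_left b (by omega)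
  have hf2 : f ≤ (a * b + 1) * (a * b) := hf.trans (Nat.mul_le_mul_left _ (by omega))
  have hf2' : f' ≤ (a * b + 1) * (a * b) := hf'.trans (Nat.mul_le_mul_left _ (by omega))
  obtain ⟨P, hP, dl, g, n, jj, lam, om, vt, oL, eF, hh, hD, hpl⟩ :=
    cdata hx ha hac hcd hdb hN hGl (by omega) (by omega)
  obtain ⟨hb6, hpl2⟩ := comb_final hD
  refine grid_contra (m := d) ha (by omega) hdb hx (col_bound _ hgeom hGl) ?_
  intro l j
  obtain ⟨p, hp, hp2⟩ := hpl2 l j
  exact ⟨hh p, (hpl p hp).1, fun s hs hne => (hpl p hp).2 s (hp2 s hs hne)⟩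

theorem Fn1_proj (π : (Fin 4 → ℂ) →ₗ[ℂ] (Fin 3 → ℂ)) (M : (Fin 4 → ℂ) →ₗ[ℂ] (Fin 4 → ℂ))
    (hM : Function.Injective M) (Z : Set (Projectivization ℂ (Fin 4 → ℂ))) :
    projImage π (Projectivization.map M hM '' Z) = projImage (π ∘ₗ M) Z := by
  have key : ∀ p : Projectivization ℂ (Fin 4 → ℂ), ∃ u : ℂˣ,
      u • M p.rep = (Projectivization.map M hM p).rep := by
    intro p
    have h1 : Projectivization.map M hM p =
        Projectivization.mk ℂ (M p.rep) (by
          rw [← M.map_zero]; exact hM.ne p.rep_nonzero) := by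
      conv_lhs => rw [← Projectivization.mk_rep p]
      rw [Projectivization.map_mk]
    rw [h1]
    exact Projectivization.exists_smul_eq_mk_rep ℂ _ _
  ext q
  constructor
  · rintro ⟨_, ⟨p, hp, rfl⟩, h, rfl⟩
    obtain ⟨u, hu⟩ := key p
    have h2 : π (Projectivization.map M hM p).rep = u • (π ∘ₗ M) p.rep := by
      rw [← hu, Units.smul_def, Units.smul_def, map_smul]; rfl
    have h3 : (π ∘ₗ M) p.rep ≠ 0 := by
      intro h0
      apply h
      rw [h2, h0, smul_zero]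
    refine ⟨p, hp, h3, ?_⟩
    rw [Projectivization.mk_eq_mk_iff]
    exact ⟨u, h2.symm⟩
  · rintro ⟨p, hp, h, rfl⟩
    obtain ⟨u, hu⟩ := key p
    have h2 : π (Projectivization.map M hM p).rep = u • (π ∘ₗ M) p.rep := by
      rw [← hu, Units.smul_def, Units.smul_def, map_smul]; rfl
    have h3 : π (Projectivization.map M hM p).rep ≠ 0 := by
      rw [h2, Units.smul_def]
      exact smul_ne_zero u.ne_zero h
    refine ⟨_, ⟨p, hp, rfl⟩, h3, ?_⟩
    symm
    rw [Projectivization.mk_eq_mk_iff]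
    exact ⟨u, h2.symm⟩

theorem Fn1_pts {I : Type} (x : I → Fin 4 → ℂ) (M : (Fin 4 → ℂ) →ₗ[ℂ] (Fin 4 → ℂ))
    (hM : Function.Injective M) :
    pts (fun s => M (x s)) = Projectivization.map M hM '' pts x := by
  ext p
  constructor
  · rintro ⟨i, h, rfl⟩
    have h1 : x i ≠ 0 := by
      intro h0
      apply h
      change M (x i) = 0
      rw [h0, map_zero]
    refine ⟨Projectivization.mk ℂ (x i) h1, ⟨i, h1, rfl⟩, ?_⟩
    rw [Projectivization.map_mk]
  · rintro ⟨_, ⟨i, h, rfl⟩, rfl⟩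
    rw [Projectivization.map_mk]
    exact ⟨i, _, rfl⟩

theorem geproci_mulVec {I : Type} [Fintype I] (x : I → Fin 4 → ℂ) (M : Matrix (Fin 4) (Fin 4) ℂ)
    (hM : IsUnit M.det) {c d : ℕ} (h : IsGeproci c d (pts x)) :
    IsGeproci c d (pts (fun s => M.mulVec (x s))) := by
  have hinj : Function.Injective M.mulVecLin :=
    Matrix.mulVec_injective_iff_isUnit.2 ((Matrix.isUnit_iff_isUnit_det M).2 hM)
  have hinv : M⁻¹ * M = 1 := Matrix.nonsing_inv_mul M hM
  have hinv' : M * M⁻¹ = 1 := Matrix.mul_nonsing_inv M hM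
  have hpts : pts (fun s => M.mulVec (x s)) = Projectivization.map M.mulVecLin hinj '' pts x :=
    Fn1_pts x M.mulVecLin hinj
  obtain ⟨h1, h2, h3, h4, D, hD, h5⟩ := h
  rw [hpts]
  refine ⟨h1, h2, h3.image _, ?_, ?_⟩
  · rw [Set.ncard_image_of_injective _ (Projectivization.map_injective M.mulVecLin hinj), h4]
  set D' : MvPolynomial (Fin 4) ℂ :=
    MvPolynomial.bind₁ (fun i => ∑ j, MvPolynomial.C (M⁻¹ i j) * MvPolynomial.X j) D with hD'
  have heval : ∀ P : Fin 4 → ℂ, MvPolynomial.eval P D' = MvPolynomial.eval (M⁻¹.mulVec P) D := by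
    intro P
    have h1 : MvPolynomial.eval P D' = MvPolynomial.eval
        (fun i => MvPolynomial.eval P (∑ j, MvPolynomial.C (M⁻¹ i j) * MvPolynomial.X j)) D := by
      rw [hD']
      exact MvPolynomial.eval₂Hom_bind₁ (RingHom.id ℂ) P
        (fun i => ∑ j, MvPolynomial.C (M⁻¹ i j) * MvPolynomial.X j) D
    rw [h1]
    congr 1
    congr 1
    ext i
    simp [Matrix.mulVec, dotProduct]
  refine ⟨D', ?_, ?_⟩
  · intro h0
    apply hD
    apply MvPolynomial.funext
    intro y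
    have h1 := heval (M.mulVec y)
    rw [Matrix.mulVec_mulVec, hinv, Matrix.one_mulVec, h0, map_zero] at h1
    rw [← h1, map_zero]
  · intro P hP π hπ
    rw [Fn1_proj]
    refine h5 (M⁻¹.mulVec P) (by rw [← heval]; exact hP) _ ?_
    ext v
    rw [LinearMap.mem_ker, LinearMap.comp_apply, Matrix.mulVecLin_apply, ← LinearMap.mem_ker, hπ,
      Submodule.mem_span_singleton, Submodule.mem_span_singleton]
    constructor
    · rintro ⟨a, ha⟩
      refine ⟨a, ?_⟩
      rw [← Matrix.mulVec_smul, ha, Matrix.mulVec_mulVec, hinv, Matrix.one_mulVec]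
    · rintro ⟨a, ha⟩
      refine ⟨a, ?_⟩
      rw [← ha, Matrix.mulVec_smul, Matrix.mulVec_mulVec, hinv', Matrix.one_mulVec]

theorem near_contra {a b : ℕ} (ha : 2 ≤ a) (hb : 2 ≤ b) (x0 : Fin a → Fin b → Fin 4 → ℂ)
    (h0 : GridVec a b x0) : ∀ᶠ x in 𝓝 x0, ∀ c d, a < c → c ≤ d → d < b → c * d = a * b →
      ¬ IsGeproci c d (pts (fun s : Fin a × Fin b => x s.1 s.2)) := by
  have hnz : ∀ s : Fin a × Fin b, x0 s.1 s.2 ≠ 0 := by
    rintro ⟨k, j⟩
    have : Nontrivial (Fin a) := Fin.nontrivial_iff_two_le.2 ha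
    have : Nontrivial (Fin b) := Fin.nontrivial_iff_two_le.2 hb
    obtain ⟨k2, hk2⟩ := exists_ne k
    obtain ⟨j2, hj2⟩ := exists_ne j
    exact (h0.ind k k2 j j2 hk2.symm hj2.symm).ne_zero 0
  obtain ⟨M, hM, hMc⟩ := exists_coords (fun s : Fin a × Fin b => x0 s.1 s.2) hnz
  have h2 := near_ok ha hb _ (gridVec_mulVec x0 h0 M hM) (fun k m i => hMc (k, m) i)
    (2 * ((a * b + 1) * (a * b)))
  have hcont : Continuous (fun (x : Fin a → Fin b → Fin 4 → ℂ) (k : Fin a) (m : Fin b) =>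
      M.mulVec (x k m)) := by
    refine continuous_pi fun k => continuous_pi fun m => ?_
    exact Continuous.matrix_mulVec continuous_const
      ((continuous_apply m).comp (continuous_apply k))
  have h3 := hcont.continuousAt.eventually h2
  filter_upwards [h3] with x hx c d hac hcd hdb hN hg
  exact no_geproci ha hx hac hcd hdb hN
    (geproci_mulVec (fun s : Fin a × Fin b => x s.1 s.2) M hM hg)

end GP80

end S_H80_GP_Fn1

section S_H80_GP_Fam

/-!
# Row Fam (MP_87ed0a_GP): all geproci sets near a grid are grids; families  (about 170 lines)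

* `near_grid`: combine `FIN` (Pool/Agent/H3/GP/FIN.lean) and `near_contra`: `UNP` gives the labelling `e : Fin a × Fin b ≃ Fin (a * b)` with `GridVec`; `z ↦ (k, j) ↦ z (e (k, j))` is continuous; `pts z = pts (fun s => z (e s))` (see the proof of `FIN`).
* `near_family`: `IsFamily N Z`, `Z t0` an `(a,b)`-grid.  `Z t0 = pts z0` for some `z0 : Fin (a * b) → Fin 4 → ℂ` (grid: `a b` distinct points: `p.submodule = A k ⊓ B j` is a line through the vector spanning `A k ⊓ B j`; choose the vectors; `Z t0` has exactly `a * b` elements: for `(k,j) ≠ (k',j')`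
  the lines `A k ⊓ B j` differ because `A k ⊓ A k' = ⊥` or `B j ⊓ B j' = ⊥`), with `LinearIndependent ℂ ![z0 i, z0 j]` for `i ≠ j`, `N = a * b`.
  The set of `z` with the property of `near_grid` and with all pairs `z i, z j`, `i ≠ j`, independent (open condition, as in `OPN`) is a neighbourhood of `z0`, so it contains a product `∏ W_i` of open sets `W_i ∋ z0 i`
  (`set_pi_mem_nhds_iff` / `mem_nhds_pi`...).  For `t` in the finite intersection of the open sets `{t | ∃ v ∈ W_i, ∃ hv, mk v hv ∈ Z t}` (they contain `t0`) choose `z i ∈ W_i` with `mk (z i) ∈ Z t`: `a b = N` different points of `Z t`, which has `N` elements, so `Z t = pts z`.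
-/

open Filter Topology Pool.Agent.H3.GP

namespace GP80

theorem Fam_mk_eq {v w : Fin 4 → ℂ} (hv : v ≠ 0) (hw : w ≠ 0)
    (h : LinearIndependent ℂ ![v, w]) :
    Projectivization.mk ℂ v hv ≠ Projectivization.mk ℂ w hw := by
  intro h2
  rw [Projectivization.mk_eq_mk_iff'] at h2
  obtain ⟨c, hc⟩ := h2
  rw [LinearIndependent.pair_iff] at h
  have h3 := h 1 (-c) (by rw [one_smul, neg_smul, hc, add_neg_cancel])
  exact one_ne_zero h3.1

theorem Fam_indep {v w : Fin 4 → ℂ} (hv : v ≠ 0) (hw : w ≠ 0)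
    (h : Projectivization.mk ℂ v hv ≠ Projectivization.mk ℂ w hw) :
    LinearIndependent ℂ ![v, w] := by
  rw [LinearIndependent.pair_iff]
  intro s t hst
  by_cases hs : s = 0
  · subst hs
    rw [zero_smul, zero_add] at hst
    exact ⟨rfl, (smul_eq_zero.1 hst).resolve_right hw⟩
  · exfalso
    apply h
    rw [Projectivization.mk_eq_mk_iff']
    refine ⟨-(t / s), ?_⟩
    have h1 : s • v = -(t • w) := eq_neg_of_add_eq_zero_left hst
    have h2 : v = s⁻¹ • (s • v) := by rw [smul_smul, inv_mul_cancel₀ hs, one_smul]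
    rw [h2, h1, smul_neg, smul_smul, ← neg_smul]
    congr 1
    rw [div_eq_inv_mul]

theorem Fam_ncard {N : ℕ} (z : Fin N → Fin 4 → ℂ) (hne : ∀ i, z i ≠ 0)
    (hi : ∀ i j, i ≠ j → LinearIndependent ℂ ![z i, z j]) : (pts z).ncard = N := by
  have hset : pts z = Set.range (fun i => Projectivization.mk ℂ (z i) (hne i)) := by
    ext p
    constructor
    · rintro ⟨i, hi, rfl⟩
      exact ⟨i, rfl⟩
    · rintro ⟨i, rfl⟩
      exact ⟨i, hne i, rfl⟩
  have hinj : Function.Injective (fun i => Projectivization.mk ℂ (z i) (hne i)) := by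
    intro i j hij
    by_contra hne2
    exact Fam_mk_eq (hne i) (hne j) (hi i j hne2) hij
  rw [hset, ← Set.image_univ, Set.ncard_image_of_injective _ hinj, Set.ncard_univ, Nat.card_fin]

theorem Fam_open {N : ℕ} (z₀ : Fin N → Fin 4 → ℂ)
    (hi : ∀ i j, i ≠ j → LinearIndependent ℂ ![z₀ i, z₀ j]) :
    ∀ᶠ z in 𝓝 z₀, ∀ i j, i ≠ j → LinearIndependent ℂ ![z i, z j] := by
  rw [Filter.eventually_all]
  intro i
  rw [Filter.eventually_all]
  intro j
  by_cases hij : i = j
  · exact Filter.Eventually.of_forall fun x h1 => absurd hij h1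
  have hopen : IsOpen {v : Fin 2 → Fin 4 → ℂ | LinearIndependent ℂ v} :=
    isOpen_setOfPred_linearIndependent
  have hcont : Tendsto (fun z : Fin N → Fin 4 → ℂ => ![z i, z j]) (𝓝 z₀)
      (𝓝 ![z₀ i, z₀ j]) := by
    rw [tendsto_pi_nhds]
    intro l
    fin_cases l
    · exact (continuous_apply i).tendsto z₀
    · exact (continuous_apply j).tendsto z₀
  have h2 := hcont.eventually (hopen.mem_nhds (hi i j hij))
  exact h2.mono fun x hx _ => hx

/-- vectors of a grid -/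
theorem Fam_vec {a b : ℕ} {Z : Set (Projectivization ℂ (Fin 4 → ℂ))} (h : IsGrid a b Z) :
    ∃ z₀ : Fin (a * b) → Fin 4 → ℂ, (∀ i, z₀ i ≠ 0) ∧ pts z₀ = Z ∧
      ∀ i j, i ≠ j → LinearIndependent ℂ ![z₀ i, z₀ j] := by
  obtain ⟨ha, hab, A, B, hA, hB, sA, sB, hAB, hZ⟩ := h
  set f : Fin a × Fin b → Projectivization ℂ (Fin 4 → ℂ) := fun kj =>
    Projectivization.mk'' (A kj.1 ⊓ B kj.2) (hAB kj.1 kj.2) with hf
  have hfs : ∀ kj, (f kj).submodule = A kj.1 ⊓ B kj.2 := fun kj =>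
    Projectivization.submodule_mk'' _ _
  have hmem : ∀ kj, (f kj).rep ∈ A kj.1 ⊓ B kj.2 := by
    intro kj
    rw [← hfs kj, Projectivization.submodule_eq]
    exact Submodule.mem_span_singleton_self _
  have hinj : Function.Injective f := by
    intro x y hxy
    have h1 : x.1 = y.1 := by
      by_contra hne
      have h2 : (f x).rep ∈ A x.1 ⊓ A y.1 := ⟨(hmem x).1, by rw [hxy]; exact (hmem y).1⟩
      rw [sA _ _ hne, Submodule.mem_bot] at h2
      exact (f x).rep_nonzero h2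
    have h2 : x.2 = y.2 := by
      by_contra hne
      have h2 : (f x).rep ∈ B x.2 ⊓ B y.2 := ⟨(hmem x).2, by rw [hxy]; exact (hmem y).2⟩
      rw [sB _ _ hne, Submodule.mem_bot] at h2
      exact (f x).rep_nonzero h2
    exact Prod.ext h1 h2
  refine ⟨fun i => (f (finProdFinEquiv.symm i)).rep, fun i => Projectivization.rep_nonzero _, ?_,
    fun i j hij => ?_⟩
  · rw [hZ]
    ext p
    constructor
    · rintro ⟨i, hi, rfl⟩
      refine ⟨(finProdFinEquiv.symm i).1, (finProdFinEquiv.symm i).2, ?_⟩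
      rw [Projectivization.mk_rep]
      exact hfs _
    · rintro ⟨k, j, hp⟩
      refine ⟨finProdFinEquiv (k, j), Projectivization.rep_nonzero _, ?_⟩
      rw [Projectivization.mk_rep, Equiv.symm_apply_apply]
      apply Projectivization.submodule_injective
      rw [hp, hfs]
  · refine Fam_indep (Projectivization.rep_nonzero _) (Projectivization.rep_nonzero _) ?_
    rw [Projectivization.mk_rep, Projectivization.mk_rep]
    intro h1
    exact hij (finProdFinEquiv.symm.injective (hinj h1))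

theorem near_grid (a b : ℕ) (z₀ : Fin (a * b) → Fin 4 → ℂ) (hgrid : IsGrid a b (pts z₀)) :
    ∀ᶠ z in 𝓝 z₀, ∀ c d, IsGeproci c d (pts z) → IsGrid a b (pts z) := by
  have ha : 2 ≤ a := hgrid.1
  have hab : a ≤ b := hgrid.2.1
  have hb : 2 ≤ b := ha.trans hab
  obtain ⟨e, h0⟩ := UNP a b z₀ hgrid
  have hcont : Tendsto (fun z : Fin (a * b) → Fin 4 → ℂ => fun (k : Fin a) (j : Fin b) =>
      z (e (k, j))) (𝓝 z₀) (𝓝 (fun k j => z₀ (e (k, j)))) := by
    rw [tendsto_pi_nhds]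
    intro k
    rw [tendsto_pi_nhds]
    intro j
    exact (continuous_apply (e (k, j))).tendsto z₀
  have h1 := hcont.eventually (near_contra ha hb (fun k j => z₀ (e (k, j))) h0)
  filter_upwards [FIN a b z₀ hgrid, h1] with z h2 h3 c d hcd
  rcases h2 c d hcd with h4 | ⟨h4, h5, h6, h7⟩
  · exact h4
  · exfalso
    refine h3 c d h4 h5 h6 h7 ?_
    have hpts : pts z = pts (fun kj : Fin a × Fin b => z (e (kj.1, kj.2))) := by
      ext p
      constructor
      · rintro ⟨i, hi, rfl⟩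
        refine ⟨e.symm i, ?_, ?_⟩
        · simpa using hi
        · simp
      · rintro ⟨kj, hi, rfl⟩
        exact ⟨e (kj.1, kj.2), hi, rfl⟩
    rw [← hpts]
    exact hcd

theorem near_family {T : Type*} [TopologicalSpace T] {N : ℕ}
    {Z : T → Set (Projectivization ℂ (Fin 4 → ℂ))} (hZ : IsFamily N Z) {t₀ : T} {a b : ℕ}
    (h₀ : IsGrid a b (Z t₀)) :
    ∀ᶠ t in 𝓝 t₀, ∀ c d, IsGeproci c d (Z t) → IsGrid a b (Z t) := by
  obtain ⟨z₀, hne, hpts, hind⟩ := Fam_vec h₀
  have hN : N = a * b := by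
    rw [← (hZ.1 t₀).2, ← hpts, Fam_ncard z₀ hne hind]
  have h1 := (near_grid a b z₀ (by rw [hpts]; exact h₀)).and (Fam_open z₀ hind)
  have h2 : {z : Fin (a * b) → Fin 4 → ℂ | (∀ c d, IsGeproci c d (pts z) → IsGrid a b (pts z)) ∧
      ∀ i j, i ≠ j → LinearIndependent ℂ ![z i, z j]} ∈ 𝓝 z₀ := h1
  rw [nhds_pi, Filter.mem_pi] at h2
  obtain ⟨I, -, W, hW, hIW⟩ := h2
  have h3 : ∀ i, ∀ᶠ t in 𝓝 t₀, ∃ v ∈ interior (W i), ∃ hv : v ≠ 0,
      Projectivization.mk ℂ v hv ∈ Z t := by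
    intro i
    refine (hZ.2 _ isOpen_interior).mem_nhds ?_
    refine ⟨z₀ i, mem_interior_iff_mem_nhds.2 (hW i), hne i, ?_⟩
    rw [← hpts]
    exact ⟨i, hne i, rfl⟩
  have h4 := Filter.eventually_all.2 h3
  filter_upwards [h4] with t ht
  choose z hzW hz0 hzZ using ht
  obtain ⟨h5, h6⟩ := hIW (fun i _ => interior_subset (hzW i))
  have h7 : pts z = Z t := by
    refine Set.eq_of_subset_of_ncard_le ?_ ?_ (hZ.1 t).1
    · rintro p ⟨i, hi, rfl⟩
      exact hzZ i
    · rw [Fam_ncard z hz0 h6, (hZ.1 t).2, hN]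
  rw [h7] at h5
  exact h5

end GP80

end S_H80_GP_Fam
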